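import Mathlib

/-!
# MP_6b8a80: noise sensitivity of Poisson last passage percolation — definitions

Everything is a finite sum.  `EP π S f` is the expectation of `f` applied to a random subset of the
finite set `S` in which the element `i` is present with probability `π i`, independently.
-/

set_option autoImplicit false

namespace Pool.Agent.LPP

open Finset

section Prob

variable {α : Type*} [DecidableEq α]

/-- Expectation over independent random subsets of `S`. -/
noncomputable def EP (π : α → ℝ) (S : Finset α) (f : Finset α → ℝ) : ℝ :=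
  ∑ A ∈ S.powerset, ((∏ i ∈ A, π i) * ∏ i ∈ S \ A, (1 - π i)) * f A

open Classical in
/-- Probability of an event. -/
noncomputable def PP (π : α → ℝ) (S : Finset α) (P : Finset α → Prop) : ℝ :=
  EP π S (fun A => if P A then 1 else 0)

/-- Variance. -/
noncomputable def VP (π : α → ℝ) (S : Finset α) (f : Finset α → ℝ) : ℝ :=
  EP π S (fun A => (f A - EP π S f) ^ 2)

/-- Discrete derivative in direction `x`. -/
def Dx (x : α) (f : Finset α → ℝ) (A : Finset α) : ℝ := f (insert x A) - f (A.erase x)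

/-- Iterated discrete derivative over the set `U`. -/
noncomputable def DU (U : Finset α) (f : Finset α → ℝ) (A : Finset α) : ℝ :=
  ∑ V ∈ U.powerset, (-1 : ℝ) ^ (#(U \ V)) * f ((A \ U) ∪ V)

/-- Weight of the `k`-th level of the `p`-biased Fourier-Walsh expansion of `f` on `S`. -/
noncomputable def Wk (p : ℝ) (S : Finset α) (k : ℕ) (f : Finset α → ℝ) : ℝ :=
  ∑ U ∈ S.powersetCard k, (p * (1 - p)) ^ k * (EP (fun _ => p) S (DU U f)) ^ 2

/-- Expectation over pairs `(A, A')` of `ρ`-correlated `p`-random subsets of `S`. -/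
noncomputable def EJ (p ρ : ℝ) (S : Finset α) (F : Finset α → Finset α → ℝ) : ℝ :=
  ∑ A ∈ S.powerset, ∑ B ∈ S.powerset,
    ((∏ _i ∈ A ∩ B, (p ^ 2 + ρ * (p * (1 - p)))) *
     (∏ _i ∈ (A \ B) ∪ (B \ A), ((1 - ρ) * (p * (1 - p)))) *
     (∏ _i ∈ S \ (A ∪ B), ((1 - p) ^ 2 + ρ * (p * (1 - p))))) * F A B

end Prob

section LPP

/-- Strictly increasing chain of cells. -/
def SChain (s : Finset (ℕ × ℕ)) : Prop :=
  ∀ x ∈ s, ∀ y ∈ s, x ≠ y → (x.1 < y.1 ∧ x.2 < y.2) ∨ (y.1 < x.1 ∧ y.2 < x.2)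

instance (s : Finset (ℕ × ℕ)) : Decidable (SChain s) := by unfold SChain; infer_instance

/-- Length of the longest strictly increasing chain of occupied cells. -/
def ell (A : Finset (ℕ × ℕ)) : ℕ := (A.powerset.filter SChain).sup card

/-- Cells strictly below-left of `z`. -/
def below (z : ℕ × ℕ) (A : Finset (ℕ × ℕ)) : Finset (ℕ × ℕ) :=
  A.filter (fun x => x.1 < z.1 ∧ x.2 < z.2)

/-- Cells strictly above-right of `z`. -/
def above (z : ℕ × ℕ) (A : Finset (ℕ × ℕ)) : Finset (ℕ × ℕ) :=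
  A.filter (fun x => z.1 < x.1 ∧ z.2 < x.2)

/-- The box of cells `(i, j)` with `1 ≤ i ≤ a`, `1 ≤ j ≤ b`. -/
def box (a b : ℕ) : Finset (ℕ × ℕ) := Icc 1 a ×ˢ Icc 1 b

/-- The translated box `s + box a b`. -/
def sbox (s : ℕ × ℕ) (a b : ℕ) : Finset (ℕ × ℕ) := Ioc s.1 (s.1 + a) ×ˢ Ioc s.2 (s.2 + b)

/-- Bottom boundary cells (sources). -/
def bot (a : ℕ) : Finset (ℕ × ℕ) := Icc 1 a ×ˢ {0}

/-- Left boundary cells (sinks). -/
def lef (b : ℕ) : Finset (ℕ × ℕ) := {0} ×ˢ Icc 1 b

/-- Box together with its two boundaries. -/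
def full (a b : ℕ) : Finset (ℕ × ℕ) := bot a ∪ lef b ∪ box a b

/-- Last passage time with boundary: cells `(i,0)` are sources, cells `(0,j)` are sinks. -/
def G (A : Finset (ℕ × ℕ)) : ℕ → ℕ → ℕ
  | 0, 0 => 0
  | i + 1, 0 => G A i 0 + (if (i + 1, 0) ∈ A then 1 else 0)
  | 0, j + 1 => G A 0 j + (if (0, j + 1) ∈ A then 1 else 0)
  | i + 1, j + 1 => max (max (G A i (j + 1)) (G A (i + 1) j))
      (G A i j + (if (i + 1, j + 1) ∈ A then 1 else 0))

/-- Remove the sinks. -/
def noLef (A : Finset (ℕ × ℕ)) : Finset (ℕ × ℕ) := A.filter (fun x => x.1 ≠ 0)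

/-- Remove the sources. -/
def noBot (A : Finset (ℕ × ℕ)) : Finset (ℕ × ℕ) := A.filter (fun x => x.2 ≠ 0)

/-- Remove both boundaries. -/
def bulk (A : Finset (ℕ × ℕ)) : Finset (ℕ × ℕ) := A.filter (fun x => x.1 ≠ 0 ∧ x.2 ≠ 0)

/-- Source density for the parameter `lam` (bulk density `q ^ 2`). -/
noncomputable def sα (lam q : ℝ) : ℝ := lam * q / (1 + lam * q)

/-- Sink density for the parameter `lam` (bulk density `q ^ 2`). -/
noncomputable def sβ (lam q : ℝ) : ℝ := q / (lam + q)

/-- Densities of the stationary model. -/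
noncomputable def par (lam q : ℝ) (x : ℕ × ℕ) : ℝ :=
  if x.2 = 0 then sα lam q else if x.1 = 0 then sβ lam q else q ^ 2

/-- Columns at which the horizontal increment at height `b` is one. -/
def topInc (A : Finset (ℕ × ℕ)) (a b : ℕ) : Finset ℕ :=
  (Icc 1 a).filter (fun i => G A i b = G A (i - 1) b + 1)

/-- Rows at which the vertical increment at column `a` is one. -/
def rightInc (A : Finset (ℕ × ℕ)) (a b : ℕ) : Finset ℕ :=
  (Icc 1 b).filter (fun j => G A a j = G A a (j - 1) + 1)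

/-- Deficit at most `k` at the site `z`. -/
def dfc (k : ℕ) (z : ℕ × ℕ) (A : Finset (ℕ × ℕ)) : Prop :=
  ell A ≤ ell (below z A) + ell (above z A) + k

end LPP

end Pool.Agent.LPP
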