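import Pool.Agent.Lib.MP_6b8a80_h32.Defs

/-!
# MP_6b8a80: the Poisson model of the frozen statement (definitions)
-/

set_option autoImplicit false

namespace Pool.Agent.LPP

open Finset MeasureTheory ProbabilityTheory

/-- Hypotheses of the frozen statement. -/
structure Model (n : ℕ) (t : NNReal) {Ω : Type} [MeasurableSpace Ω] (P : Measure Ω)
    (C : Ω → ℕ × ℕ) (Z : ℕ → Ω → ((ℝ × ℝ) × ℝ) × (ℝ × ℝ)) : Prop where
  law_C : Measure.map C P =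
          ((poissonPMF ((n : NNReal) ^ 2)).toMeasure).prod
            ((poissonPMF (t * (n : NNReal) ^ 2)).toMeasure)
  law_Z : ∀ i, Measure.map (Z i) P =
          ((((ENNReal.ofReal ((n : ℝ) ^ 2))⁻¹ •
              volume.restrict (Set.Icc (0 : ℝ × ℝ) ((n : ℝ), (n : ℝ)))).prod
            (volume.restrict (Set.Icc (0 : ℝ) 1))).prod
            ((ENNReal.ofReal ((n : ℝ) ^ 2))⁻¹ •
              volume.restrict (Set.Icc (0 : ℝ × ℝ) ((n : ℝ), (n : ℝ)))))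
  indep_Z : iIndepFun Z P
  indep_CZ : IndepFun C (fun ω i => Z i ω) P

/-- Last passage time of the original point set. -/
noncomputable def L1 {Ω : Type} (C : Ω → ℕ × ℕ) (Z : ℕ → Ω → ((ℝ × ℝ) × ℝ) × (ℝ × ℝ))
    (ω : Ω) : ℝ :=
  ((sSup {k : ℕ | ∃ S : Finset (ℝ × ℝ),
    (↑S : Set (ℝ × ℝ)) ⊆ {p | ∃ i < (C ω).1, (Z i ω).1.1 = p} ∧
    IsChain (· ≤ ·) (↑S : Set (ℝ × ℝ)) ∧ S.card = k} : ℕ) : ℝ)

/-- Last passage time of the noisy point set. -/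
noncomputable def L2 {Ω : Type} (t : NNReal) (C : Ω → ℕ × ℕ)
    (Z : ℕ → Ω → ((ℝ × ℝ) × ℝ) × (ℝ × ℝ)) (ω : Ω) : ℝ :=
  ((sSup {k : ℕ | ∃ S : Finset (ℝ × ℝ),
    (↑S : Set (ℝ × ℝ)) ⊆ {p | (∃ i < (C ω).1, (t : ℝ) ≤ (Z i ω).1.2 ∧ (Z i ω).1.1 = p) ∨
      (∃ j < (C ω).2, (Z j ω).2 = p)} ∧
    IsChain (· ≤ ·) (↑S : Set (ℝ × ℝ)) ∧ S.card = k} : ℕ) : ℝ)

/-- Cell of a point of `[0,n]²` in the grid with `a × b` cells. -/
noncomputable def cellOf (n a b : ℕ) (x : ℝ × ℝ) : ℕ × ℕ :=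
  (min a (⌊(a : ℝ) * x.1 / n⌋₊ + 1), min b (⌊(b : ℝ) * x.2 / n⌋₊ + 1))

/-- Occupied cells of the original point set. -/
noncomputable def occ1 {Ω : Type} (n a b : ℕ) (C : Ω → ℕ × ℕ)
    (Z : ℕ → Ω → ((ℝ × ℝ) × ℝ) × (ℝ × ℝ)) (ω : Ω) : Finset (ℕ × ℕ) :=
  (range (C ω).1).image (fun i => cellOf n a b (Z i ω).1.1)

open Classical in
/-- Occupied cells of the noisy point set. -/
noncomputable def occ2 {Ω : Type} (n a b : ℕ) (t : NNReal) (C : Ω → ℕ × ℕ)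
    (Z : ℕ → Ω → ((ℝ × ℝ) × ℝ) × (ℝ × ℝ)) (ω : Ω) : Finset (ℕ × ℕ) :=
  ((range (C ω).1).filter (fun i => (t : ℝ) ≤ (Z i ω).1.2)).image
      (fun i => cellOf n a b (Z i ω).1.1) ∪
    (range (C ω).2).image (fun j => cellOf n a b (Z j ω).2)

/-- Cell occupation probability. -/
noncomputable def pcell (n a b : ℕ) : ℝ := 1 - Real.exp (-((n : ℝ) ^ 2 / (a * b)))

/-- Correlation of the cell occupation indicators before and after the noise. -/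
noncomputable def rcell (n a b : ℕ) (t : ℝ) : ℝ :=
  (Real.exp ((n : ℝ) ^ 2 / (a * b) * (1 - t)) - 1) / (Real.exp ((n : ℝ) ^ 2 / (a * b)) - 1)

end Pool.Agent.LPP
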