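import Pool.Agent.Lib.MP_6b8a80_h32.T1a_EP

/-!
# MP_6b8a80, T1b: Cauchy-Schwarz, Hölder, variance and probability inequalities for `EP`
-/

set_option autoImplicit false

namespace Pool.Agent.LPP

open Finset

section T1b

variable {α : Type*} [DecidableEq α]

theorem EP_cauchy {π : α → ℝ} {S : Finset α} (hπ : Good π S) (f g : Finset α → ℝ) :
    (EP π S (fun A => f A * g A)) ^ 2 ≤ EP π S (fun A => f A ^ 2) * EP π S (fun A => g A ^ 2) := by
  unfold EP
  set w : Finset α → ℝ := fun A => (∏ i ∈ A, π i) * ∏ i ∈ S \ A, (1 - π i) with hw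
  have hw0 : ∀ A ∈ S.powerset, 0 ≤ w A := fun A hA => EP_weight_nonneg hπ (mem_powerset.mp hA)
  have h1 : ∑ A ∈ S.powerset, w A * (f A * g A) =
      ∑ A ∈ S.powerset, (Real.sqrt (w A) * f A) * (Real.sqrt (w A) * g A) := by
    apply sum_congr rfl
    intro A hA
    have := Real.mul_self_sqrt (hw0 A hA)
    calc w A * (f A * g A) = (Real.sqrt (w A) * Real.sqrt (w A)) * (f A * g A) := by rw [this]
      _ = _ := by ring
  have h2 : ∀ h : Finset α → ℝ, ∑ A ∈ S.powerset, w A * h A ^ 2 =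
      ∑ A ∈ S.powerset, (Real.sqrt (w A) * h A) ^ 2 := by
    intro h
    apply sum_congr rfl
    intro A hA
    rw [mul_pow, Real.sq_sqrt (hw0 A hA)]
  change (∑ A ∈ S.powerset, w A * (f A * g A)) ^ 2 ≤
    (∑ A ∈ S.powerset, w A * f A ^ 2) * (∑ A ∈ S.powerset, w A * g A ^ 2)
  rw [h1, h2, h2]
  exact sum_mul_sq_le_sq_mul_sq _ _ _

theorem EP_sq_le {π : α → ℝ} {S : Finset α} (hπ : Good π S) (f : Finset α → ℝ) :
    (EP π S f) ^ 2 ≤ EP π S (fun A => f A ^ 2) := by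
  have h := EP_cauchy hπ f (fun _ => 1)
  simp only [mul_one, one_pow, EP_const] at h
  exact h

theorem EP_holder6 {π : α → ℝ} {S : Finset α} (hπ : Good π S) (g Q : Finset α → ℝ)
    (hg : ∀ A ⊆ S, |g A| ≤ 1) :
    (EP π S (fun A => g A * Q A)) ^ 6 ≤
      (EP π S (fun A => |g A|)) ^ 5 * EP π S (fun A => Q A ^ 6) := by
  set w : Finset α → ℝ := fun A => (∏ i ∈ A, π i) * ∏ i ∈ S \ A, (1 - π i) with hw
  have hw0 : ∀ A ∈ S.powerset, 0 ≤ w A := fun A hA => EP_weight_nonneg hπ (mem_powerset.mp hA)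
  -- weights `w |g|`, extended by zero outside the powerset
  have hu0 : ∀ A, 0 ≤ |w A| * |g A| := fun A => mul_nonneg (abs_nonneg _) (abs_nonneg _)
  have key := Real.inner_le_weight_mul_Lp_of_nonneg S.powerset (p := (6 : ℝ)) (by norm_num)
    (fun A => |w A| * |g A|) (fun A => |Q A|) hu0 (fun A => abs_nonneg _)
  have hX : ∑ A ∈ S.powerset, |w A| * |g A| = EP π S (fun A => |g A|) := by
    unfold EP
    apply sum_congr rfl
    intro A hA
    rw [abs_of_nonneg (hw0 A hA)]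
  have hY : ∑ A ∈ S.powerset, |w A| * |g A| * |Q A| ^ (6 : ℝ) ≤ EP π S (fun A => Q A ^ 6) := by
    unfold EP
    apply sum_le_sum
    intro A hA
    have e1 : |Q A| ^ (6 : ℝ) = Q A ^ 6 := by
      have : (6 : ℝ) = ((6 : ℕ) : ℝ) := by norm_num
      rw [this, Real.rpow_natCast, Even.pow_abs (by decide)]
    rw [e1, abs_of_nonneg (hw0 A hA)]
    have h6 : 0 ≤ Q A ^ 6 := Even.pow_nonneg (by decide) _
    calc w A * |g A| * Q A ^ 6 ≤ w A * 1 * Q A ^ 6 := by
          apply mul_le_mul_of_nonneg_right _ h6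
          exact mul_le_mul_of_nonneg_left (hg A (mem_powerset.mp hA)) (hw0 A hA)
      _ = w A * Q A ^ 6 := by ring
  have hZ : |EP π S (fun A => g A * Q A)| ≤ ∑ A ∈ S.powerset, |w A| * |g A| * |Q A| := by
    refine (EP_abs_le hπ _).trans (le_of_eq ?_)
    unfold EP
    apply sum_congr rfl
    intro A hA
    have e1 : |w A| = (∏ i ∈ A, π i) * ∏ i ∈ S \ A, (1 - π i) := abs_of_nonneg (hw0 A hA)
    rw [e1]
    change _ * |g A * Q A| = _
    rw [abs_mul]
    ring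
  have hX0 : 0 ≤ EP π S (fun A => |g A|) := EP_nonneg hπ (fun A _ => abs_nonneg _)
  have hY0 : 0 ≤ ∑ A ∈ S.powerset, |w A| * |g A| * |Q A| ^ (6 : ℝ) :=
    sum_nonneg (fun A _ => mul_nonneg (hu0 A) (Real.rpow_nonneg (abs_nonneg _) _))
  rw [hX] at key
  have h1 : |EP π S (fun A => g A * Q A)| ^ 6 ≤
      ((EP π S (fun A => |g A|)) ^ (1 - (6 : ℝ)⁻¹) *
        (∑ A ∈ S.powerset, |w A| * |g A| * |Q A| ^ (6 : ℝ)) ^ (6 : ℝ)⁻¹) ^ 6 :=
    pow_le_pow_left₀ (abs_nonneg _) (hZ.trans key) 6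
  have e1 : ((EP π S (fun A => |g A|)) ^ (1 - (6 : ℝ)⁻¹)) ^ 6 =
      (EP π S (fun A => |g A|)) ^ 5 := by
    rw [← Real.rpow_natCast, ← Real.rpow_mul hX0, ← Real.rpow_natCast]
    congr 1
    norm_num
  have e2 : ((∑ A ∈ S.powerset, |w A| * |g A| * |Q A| ^ (6 : ℝ)) ^ (6 : ℝ)⁻¹) ^ 6 =
      ∑ A ∈ S.powerset, |w A| * |g A| * |Q A| ^ (6 : ℝ) := by
    rw [← Real.rpow_natCast, ← Real.rpow_mul hY0]
    have : (6 : ℝ)⁻¹ * ((6 : ℕ) : ℝ) = 1 := by norm_num
    rw [this, Real.rpow_one]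
  rw [Even.pow_abs (by decide), mul_pow, e1, e2] at h1
  exact h1.trans (mul_le_mul_of_nonneg_left hY (pow_nonneg hX0 5))

theorem VP_eq (π : α → ℝ) (S : Finset α) (f : Finset α → ℝ) :
    VP π S f = EP π S (fun A => f A ^ 2) - (EP π S f) ^ 2 := by
  unfold VP
  have h1 : EP π S (fun A => (f A - EP π S f) ^ 2) =
      EP π S (fun A => (f A ^ 2 - (2 * EP π S f) * f A) + (EP π S f) ^ 2) := by
    apply EP_congr
    intro A _
    ring
  rw [h1, EP_add, EP_sub, EP_const_mul, EP_const]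
  ring

theorem VP_nonneg {π : α → ℝ} {S : Finset α} (hπ : Good π S) (f : Finset α → ℝ) :
    0 ≤ VP π S f := EP_nonneg hπ (fun _ _ => sq_nonneg _)

theorem VP_le_sq {π : α → ℝ} {S : Finset α} (hπ : Good π S) (f : Finset α → ℝ) (c : ℝ) :
    VP π S f ≤ EP π S (fun A => (f A - c) ^ 2) := by
  have h1 : EP π S (fun A => (f A - c) ^ 2) =
      EP π S (fun A => (f A ^ 2 - (2 * c) * f A) + c ^ 2) := by
    apply EP_congr
    intro A _
    ring
  rw [h1, EP_add, EP_sub, EP_const_mul, EP_const, VP_eq]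
  nlinarith [sq_nonneg (EP π S f - c)]

theorem VP_add_le {π : α → ℝ} {S : Finset α} (hπ : Good π S) (f g : Finset α → ℝ) :
    VP π S (fun A => f A + g A) ≤ 2 * VP π S f + 2 * VP π S g := by
  unfold VP
  rw [← EP_const_mul, ← EP_const_mul, ← EP_add]
  apply EP_mono hπ
  intro A _
  rw [EP_add]
  nlinarith [sq_nonneg ((f A - EP π S f) - (g A - EP π S g))]

theorem PP_nonneg {π : α → ℝ} {S : Finset α} (hπ : Good π S) (P : Finset α → Prop) :
    0 ≤ PP π S P := by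
  unfold PP
  apply EP_nonneg hπ
  intro A _
  split_ifs <;> norm_num

theorem PP_mono {π : α → ℝ} {S : Finset α} (hπ : Good π S) {P Q : Finset α → Prop}
    (h : ∀ A ⊆ S, P A → Q A) : PP π S P ≤ PP π S Q := by
  unfold PP
  apply EP_mono hπ
  intro A hA
  by_cases hP : P A
  · rw [if_pos hP, if_pos (h A hA hP)]
  · rw [if_neg hP]
    split_ifs <;> norm_num

theorem PP_or_le {π : α → ℝ} {S : Finset α} (hπ : Good π S) (P Q : Finset α → Prop) :
    PP π S (fun A => P A ∨ Q A) ≤ PP π S P + PP π S Q := by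
  unfold PP
  rw [← EP_add]
  apply EP_mono hπ
  intro A _
  by_cases hP : P A <;> by_cases hQ : Q A <;> simp [hP, hQ]

theorem PP_le_one {π : α → ℝ} {S : Finset α} (hπ : Good π S) (P : Finset α → Prop) :
    PP π S P ≤ 1 := by
  have h : PP π S P ≤ EP π S (fun _ => 1) := by
    unfold PP
    apply EP_mono hπ
    intro A _
    split_ifs <;> norm_num
  rwa [EP_const] at h

/-- Markov: `t P(f ≥ t) ≤ E f` for `f ≥ 0`. -/
theorem PP_markov {π : α → ℝ} {S : Finset α} (hπ : Good π S) (f : Finset α → ℝ)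
    (hf : ∀ A ⊆ S, 0 ≤ f A) (t : ℝ) (ht : 0 ≤ t) :
    t * PP π S (fun A => t ≤ f A) ≤ EP π S f := by
  unfold PP
  rw [← EP_const_mul]
  apply EP_mono hπ
  intro A hA
  by_cases h : t ≤ f A
  · rw [if_pos h, mul_one]; exact h
  · rw [if_neg h, mul_zero]; exact hf A hA

/-- Chebyshev, both sides. -/
theorem PP_chebyshev {π : α → ℝ} {S : Finset α} (hπ : Good π S) (f : Finset α → ℝ)
    (t : ℝ) (ht : 0 < t) :
    PP π S (fun A => t ≤ |f A - EP π S f|) ≤ VP π S f / t ^ 2 := by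
  rw [le_div_iff₀ (by positivity), mul_comm]
  have h1 := PP_markov hπ (fun A => (f A - EP π S f) ^ 2) (fun _ _ => sq_nonneg _) (t ^ 2)
    (sq_nonneg t)
  have h2 : PP π S (fun A => t ≤ |f A - EP π S f|) ≤
      PP π S (fun A => t ^ 2 ≤ (f A - EP π S f) ^ 2) := by
    apply PP_mono hπ
    intro A _ h
    rw [← sq_abs (f A - EP π S f)]
    exact pow_le_pow_left₀ ht.le h 2
  exact (mul_le_mul_of_nonneg_left h2 (sq_nonneg t)).trans h1

end T1b

end Pool.Agent.LPP
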