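import Pool.Agent.Lib.MP_6b8a80_h32.T1a_EP

/-!
# T1c: number of points, covariance formula, exponential moment, monotone coupling
-/

set_option autoImplicit false

namespace Pool.Agent.LPP

open Finset

section T1

variable {α : Type*} [DecidableEq α]

/-- centred indicator times a function -/
theorem EP_ind_sub_mul (π : α → ℝ) {S : Finset α} {i : α} (hi : i ∈ S) (f : Finset α → ℝ) :
    EP π S (fun A => ((if i ∈ A then (1 : ℝ) else 0) - π i) * f A) =
      π i * (1 - π i) * EP π S (Dx i f) := by
  have hS : insert i (S.erase i) = S := insert_erase hi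
  have hn : i ∉ S.erase i := notMem_erase i S
  rw [← hS, EP_insert π hn, EP_insert π hn]
  have hA : ∀ A ⊆ S.erase i, i ∉ A := fun A hA h => hn (hA h)
  have e1 : EP π (S.erase i) (fun A => ((if i ∈ insert i A then (1 : ℝ) else 0) - π i) *
      f (insert i A)) = (1 - π i) * EP π (S.erase i) (fun A => f (insert i A)) := by
    rw [← EP_const_mul]
    exact EP_congr π _ fun A _ => by simp
  have e2 : EP π (S.erase i) (fun A => ((if i ∈ A then (1 : ℝ) else 0) - π i) * f A) =
      (- π i) * EP π (S.erase i) f := by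
    rw [← EP_const_mul]
    exact EP_congr π _ fun A h => by simp [hA A h]
  have e3 : EP π (S.erase i) (fun A => Dx i f (insert i A)) =
      EP π (S.erase i) (fun A => f (insert i A)) - EP π (S.erase i) f := by
    rw [← EP_sub]
    exact EP_congr π _ fun A h => by simp [Dx, hA A h]
  have e4 : EP π (S.erase i) (Dx i f) =
      EP π (S.erase i) (fun A => f (insert i A)) - EP π (S.erase i) f := by
    rw [← EP_sub]
    exact EP_congr π _ fun A h => by simp [Dx, hA A h]
  rw [e1, e2, e3, e4]
  ring

theorem card_inter_eq_sum (A T : Finset α) :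
    (#(A ∩ T) : ℝ) = ∑ i ∈ T, (if i ∈ A then (1 : ℝ) else 0) := by
  rw [sum_ite_mem, sum_const, nsmul_eq_mul, mul_one, inter_comm]

/-- Covariance of the number of points in `T` with `f`. -/
theorem EP_cov_card (π : α → ℝ) {S T : Finset α} (hT : T ⊆ S) (f : Finset α → ℝ) :
    EP π S (fun A => ((#(A ∩ T) : ℝ) - ∑ i ∈ T, π i) * f A) =
      ∑ i ∈ T, π i * (1 - π i) * EP π S (Dx i f) := by
  rw [EP_congr π S (g := fun A => ∑ i ∈ T, ((if i ∈ A then (1 : ℝ) else 0) - π i) * f A)
    (fun A _ => by rw [card_inter_eq_sum, ← sum_sub_distrib, sum_mul])]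
  rw [EP_sum π S T (fun i A => ((if i ∈ A then (1 : ℝ) else 0) - π i) * f A)]
  exact sum_congr rfl fun i hi => EP_ind_sub_mul π (hT hi) f

theorem EP_card (π : α → ℝ) {S T : Finset α} (hT : T ⊆ S) :
    EP π S (fun A => (#(A ∩ T) : ℝ)) = ∑ i ∈ T, π i := by
  have h := EP_cov_card π hT (fun _ => (1 : ℝ))
  have h1 : ∑ i ∈ T, π i * (1 - π i) * EP π S (Dx i (fun _ => (1 : ℝ))) = 0 := by
    refine sum_eq_zero fun i _ => ?_
    have : EP π S (Dx i (fun _ => (1 : ℝ))) = 0 := by
      have h2 : EP π S (Dx i (fun _ => (1 : ℝ))) = EP π S (fun _ => (0 : ℝ)) :=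
        EP_congr π S fun A _ => by simp [Dx]
      rw [h2, EP_const]
    rw [this, mul_zero]
  rw [h1] at h
  have h3 : EP π S (fun A => ((#(A ∩ T) : ℝ) - ∑ i ∈ T, π i) * 1) =
      EP π S (fun A => (#(A ∩ T) : ℝ)) - EP π S (fun _ => ∑ i ∈ T, π i) := by
    rw [← EP_sub]
    exact EP_congr π S fun A _ => by ring
  rw [h3, EP_const] at h
  linarith

theorem VP_card (π : α → ℝ) {S T : Finset α} (hT : T ⊆ S) :
    VP π S (fun A => (#(A ∩ T) : ℝ)) = ∑ i ∈ T, π i * (1 - π i) := by
  unfold VP
  rw [EP_card π hT]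
  have h := EP_cov_card π hT (fun A => (#(A ∩ T) : ℝ) - ∑ i ∈ T, π i)
  rw [EP_congr π S (g := fun A => ((#(A ∩ T) : ℝ) - ∑ i ∈ T, π i) *
    ((#(A ∩ T) : ℝ) - ∑ i ∈ T, π i)) (fun A _ => by ring), h]
  refine sum_congr rfl fun i hi => ?_
  have h2 : EP π S (Dx i (fun A => (#(A ∩ T) : ℝ) - ∑ i ∈ T, π i)) = EP π S (fun _ => (1 : ℝ)) := by
    refine EP_congr π S fun A _ => ?_
    have h3 : #(insert i A ∩ T) = #(A.erase i ∩ T) + 1 := by
      rw [insert_inter_of_mem hi]
      have : insert i (A ∩ T) = insert i (A.erase i ∩ T) := by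
        ext y
        simp only [mem_insert, mem_inter, mem_erase]
        by_cases h : y = i <;> simp [h]
      rw [this, card_insert_of_notMem]
      simp
    simp only [Dx, h3]
    push_cast
    ring
  rw [h2, EP_const, mul_one]

/-- Exponential moment of the number of points. -/
theorem EP_exp_card {π : α → ℝ} {S T : Finset α} (hπ : Good π S) (hT : T ⊆ S) (θ : ℝ) :
    EP π S (fun A => Real.exp (θ * #(A ∩ T))) ≤
      Real.exp ((Real.exp θ - 1) * ∑ i ∈ T, π i) := by
  rw [EP_inter π hT (fun A => Real.exp (θ * #A))]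
  have hπ' : Good π T := fun i hi => hπ i (hT hi)
  clear hT hπ
  induction T using Finset.induction_on with
  | empty => rw [EP_empty]; simp
  | insert i T hi ih =>
    have hG : Good π T := fun j hj => hπ' j (mem_insert_of_mem hj)
    obtain ⟨p0, p1⟩ := hπ' i (mem_insert_self i T)
    have ih' := ih hG
    rw [EP_insert π hi, sum_insert hi]
    have e1 : EP π T (fun A => Real.exp (θ * #(insert i A))) =
        Real.exp θ * EP π T (fun A => Real.exp (θ * #A)) := by
      rw [← EP_const_mul]
      refine EP_congr π T fun A hA => ?_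
      have : i ∉ A := fun h => hi (hA h)
      rw [card_insert_of_notMem this, ← Real.exp_add]
      congr 1
      push_cast; ring
    rw [e1]
    have hE : 0 < Real.exp ((Real.exp θ - 1) * ∑ i ∈ T, π i) := Real.exp_pos _
    have h1 : π i * (Real.exp θ * EP π T (fun A => Real.exp (θ * #A))) +
        (1 - π i) * EP π T (fun A => Real.exp (θ * #A)) =
        (π i * Real.exp θ + (1 - π i)) * EP π T (fun A => Real.exp (θ * #A)) := by ring
    rw [h1]
    have h2 : 0 ≤ π i * Real.exp θ + (1 - π i) :=
      add_nonneg (mul_nonneg p0 (Real.exp_pos _).le) (by linarith)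
    have h3 : π i * Real.exp θ + (1 - π i) ≤ Real.exp ((Real.exp θ - 1) * π i) := by
      have := Real.add_one_le_exp ((Real.exp θ - 1) * π i)
      linarith
    calc (π i * Real.exp θ + (1 - π i)) * EP π T (fun A => Real.exp (θ * #A))
        ≤ (π i * Real.exp θ + (1 - π i)) * Real.exp ((Real.exp θ - 1) * ∑ i ∈ T, π i) :=
          mul_le_mul_of_nonneg_left ih' h2
      _ ≤ Real.exp ((Real.exp θ - 1) * π i) * Real.exp ((Real.exp θ - 1) * ∑ i ∈ T, π i) :=
          mul_le_mul_of_nonneg_right h3 hE.le
      _ = Real.exp ((Real.exp θ - 1) * (π i + ∑ i ∈ T, π i)) := by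
          rw [← Real.exp_add]; congr 1; ring

open Classical in
/-- One-site weight of the monotone coupling. -/
noncomputable def cw (p p' : ℝ) (a b : Prop) : ℝ :=
  if a then (if b then min p p' else max (p - p') 0)
  else (if b then max (p' - p) 0 else 1 - max p p')

theorem cw_nonneg {p p' : ℝ} (hp : 0 ≤ p ∧ p ≤ 1) (hp' : 0 ≤ p' ∧ p' ≤ 1) (a b : Prop) :
    0 ≤ cw p p' a b := by
  unfold cw
  split_ifs
  · exact le_min hp.1 hp'.1
  · exact le_max_right _ _
  · exact le_max_right _ _
  · have := max_le hp.2 hp'.2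
    linarith

/-- Weight of the monotone coupling. -/
noncomputable def cW (π π' : α → ℝ) (S A B : Finset α) : ℝ :=
  ∏ i ∈ S, cw (π i) (π' i) (i ∈ A) (i ∈ B)

theorem cW_insert (π π' : α → ℝ) {S : Finset α} {i : α} (hi : i ∉ S) (A B A' B' : Finset α)
    (hA : ∀ j ∈ S, j ∈ A' ↔ j ∈ A) (hB : ∀ j ∈ S, j ∈ B' ↔ j ∈ B) :
    cW π π' (insert i S) A' B' = cw (π i) (π' i) (i ∈ A') (i ∈ B') * cW π π' S A B := by
  unfold cW
  rw [prod_insert hi]
  congr 1
  refine prod_congr rfl fun j hj => ?_
  rw [propext (hA j hj), propext (hB j hj)]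

theorem cW_sum (π π' : α → ℝ) (S : Finset α) :
    (∀ f : Finset α → ℝ, ∑ A ∈ S.powerset, ∑ B ∈ S.powerset, cW π π' S A B * f A = EP π S f) ∧
    (∀ f : Finset α → ℝ, ∑ A ∈ S.powerset, ∑ B ∈ S.powerset, cW π π' S A B * f B = EP π' S f) := by
  induction S using Finset.induction_on with
  | empty =>
    constructor
    · intro f; rw [EP_empty]; simp [cW]
    · intro f; rw [EP_empty]; simp [cW]
  | insert i S hi ih =>
    obtain ⟨ih1, ih2⟩ := ih
    have hmem : ∀ A ∈ S.powerset, i ∉ A := fun A hA h => hi (mem_powerset.1 hA h)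
    have q1 : ∀ A ∈ S.powerset, ∀ B ∈ S.powerset,
        cW π π' (insert i S) A B = (1 - max (π i) (π' i)) * cW π π' S A B := by
      intro A hA B hB
      rw [cW_insert π π' hi A B A B (fun _ _ => Iff.rfl) (fun _ _ => Iff.rfl)]
      simp [cw, hmem A hA, hmem B hB]
    have hins : ∀ A : Finset α, ∀ j ∈ S, j ∈ insert i A ↔ j ∈ A := by
      intro A j hj
      rw [mem_insert]
      exact ⟨fun h => h.resolve_left (fun h => hi (h ▸ hj)), Or.inr⟩
    have q2 : ∀ A ∈ S.powerset, ∀ B ∈ S.powerset,
        cW π π' (insert i S) A (insert i B) = max (π' i - π i) 0 * cW π π' S A B := by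
      intro A hA B hB
      rw [cW_insert π π' hi A B A (insert i B) (fun _ _ => Iff.rfl) (hins B)]
      simp [cw, hmem A hA]
    have q3 : ∀ A ∈ S.powerset, ∀ B ∈ S.powerset,
        cW π π' (insert i S) (insert i A) B = max (π i - π' i) 0 * cW π π' S A B := by
      intro A hA B hB
      rw [cW_insert π π' hi A B (insert i A) B (hins A) (fun _ _ => Iff.rfl)]
      simp [cw, hmem B hB]
    have q4 : ∀ A ∈ S.powerset, ∀ B ∈ S.powerset,
        cW π π' (insert i S) (insert i A) (insert i B) = min (π i) (π' i) * cW π π' S A B := by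
      intro A hA B hB
      rw [cW_insert π π' hi A B (insert i A) (insert i B) (hins A) (hins B)]
      simp [cw]
    have m1 : (1 - max (π i) (π' i)) + max (π' i - π i) 0 = 1 - π i := by
      rcases le_total (π i) (π' i) with h | h
      · rw [max_eq_right h, max_eq_left (by linarith)]; ring
      · rw [max_eq_left h, max_eq_right (by linarith)]; ring
    have m2 : max (π i - π' i) 0 + min (π i) (π' i) = π i := by
      rcases le_total (π i) (π' i) with h | h
      · rw [min_eq_left h, max_eq_right (by linarith)]; ring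
      · rw [min_eq_right h, max_eq_left (by linarith)]; ring
    have m3 : (1 - max (π i) (π' i)) + max (π i - π' i) 0 = 1 - π' i := by
      rcases le_total (π i) (π' i) with h | h
      · rw [max_eq_right h, max_eq_right (by linarith)]; ring
      · rw [max_eq_left h, max_eq_left (by linarith)]; ring
    have m4 : max (π' i - π i) 0 + min (π i) (π' i) = π' i := by
      rcases le_total (π i) (π' i) with h | h
      · rw [min_eq_left h, max_eq_left (by linarith)]; ring
      · rw [min_eq_right h, max_eq_right (by linarith)]; ring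
    constructor
    · intro f
      have e : EP π (insert i S) f = EP π S (fun A => π i * f (insert i A) + (1 - π i) * f A) := by
        rw [EP_insert π hi, EP_add, EP_const_mul, EP_const_mul]
      rw [e, ← ih1, sum_powerset_insert hi]
      rw [← sum_add_distrib]
      refine sum_congr rfl fun A hA => ?_
      rw [sum_powerset_insert hi, sum_powerset_insert hi, ← sum_add_distrib, ← sum_add_distrib,
        ← sum_add_distrib]
      refine sum_congr rfl fun B hB => ?_
      rw [q1 A hA B hB, q2 A hA B hB, q3 A hA B hB, q4 A hA B hB, ← m1]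
      nth_rewrite 5 [← m2]
      ring
    · intro f
      have e : EP π' (insert i S) f =
          EP π' S (fun A => π' i * f (insert i A) + (1 - π' i) * f A) := by
        rw [EP_insert π' hi, EP_add, EP_const_mul, EP_const_mul]
      rw [e, ← ih2, sum_powerset_insert hi]
      rw [← sum_add_distrib]
      refine sum_congr rfl fun A hA => ?_
      rw [sum_powerset_insert hi, sum_powerset_insert hi, ← sum_add_distrib, ← sum_add_distrib,
        ← sum_add_distrib]
      refine sum_congr rfl fun B hB => ?_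
      rw [q1 A hA B hB, q2 A hA B hB, q3 A hA B hB, q4 A hA B hB, ← m3]
      nth_rewrite 5 [← m4]
      ring

/-- Monotone coupling of two product laws on the same finite set. -/
theorem exists_coupling {π π' : α → ℝ} {S : Finset α} (hπ : Good π S) (hπ' : Good π' S) :
    ∃ W : Finset α → Finset α → ℝ, (∀ A B, 0 ≤ W A B) ∧
      (∀ f : Finset α → ℝ, ∑ A ∈ S.powerset, ∑ B ∈ S.powerset, W A B * f A = EP π S f) ∧
      (∀ f : Finset α → ℝ, ∑ A ∈ S.powerset, ∑ B ∈ S.powerset, W A B * f B = EP π' S f) ∧
      (∀ A ∈ S.powerset, ∀ B ∈ S.powerset, W A B ≠ 0 →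
        ∀ i ∈ S, (π i ≤ π' i → i ∈ A → i ∈ B) ∧ (π' i ≤ π i → i ∈ B → i ∈ A)) := by
  refine ⟨cW π π' S, fun A B => prod_nonneg fun i hi => cw_nonneg (hπ i hi) (hπ' i hi) _ _,
    (cW_sum π π' S).1, (cW_sum π π' S).2, ?_⟩
  intro A _ B _ hW i hi
  unfold cW at hW
  rw [prod_ne_zero_iff] at hW
  have h := hW i hi
  constructor
  · intro h1 h2
    by_contra h3
    apply h
    simp [cw, h2, h3, h1]
  · intro h1 h2
    by_contra h3
    apply h
    simp [cw, h2, h3, h1]

end T1

end Pool.Agent.LPP
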