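import Pool.Agent.Lib.MP_6b8a80_h32.T1a_EP
import Pool.Agent.Lib.MP_6b8a80_h32.T1b_VP
import Pool.Agent.Lib.MP_6b8a80_h32.T1c_Card

/-!
# MP_6b8a80, T1: all basic facts about `EP`
-/
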