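import Pool.Agent.Lib.MP_6b8a80_h32.Defs

/-!
# MP_6b8a80, T1a: basic properties of the expectation `EP`
-/

set_option autoImplicit false

namespace Pool.Agent.LPP

open Finset

section T1a

variable {α : Type*} [DecidableEq α]

theorem EP_empty (π : α → ℝ) (f : Finset α → ℝ) : EP π ∅ f = f ∅ := by
  simp [EP]

theorem EP_insert (π : α → ℝ) {S : Finset α} {i : α} (hi : i ∉ S) (f : Finset α → ℝ) :
    EP π (insert i S) f = π i * EP π S (fun A => f (insert i A)) + (1 - π i) * EP π S f := by
  unfold EP
  rw [sum_powerset_insert hi, add_comm]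
  congr 1
  · rw [mul_sum]
    apply sum_congr rfl
    intro A hA
    have hA' : A ⊆ S := mem_powerset.mp hA
    have hiA : i ∉ A := fun h => hi (hA' h)
    have e1 : insert i S \ insert i A = S \ A := by
      ext x
      simp only [mem_sdiff, mem_insert, not_or]
      constructor
      · rintro ⟨h1 | h1, h2, h3⟩
        · exact absurd h1 h2
        · exact ⟨h1, h3⟩
      · rintro ⟨h1, h2⟩
        exact ⟨Or.inr h1, fun h => hi (h ▸ h1), h2⟩
    rw [e1, prod_insert hiA]
    ring
  · rw [mul_sum]
    apply sum_congr rfl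
    intro A hA
    have hA' : A ⊆ S := mem_powerset.mp hA
    have hiA : i ∉ A := fun h => hi (hA' h)
    have e1 : insert i S \ A = insert i (S \ A) := by
      rw [insert_sdiff_of_notMem _ hiA]
    have h2 : i ∉ S \ A := fun h => hi (mem_sdiff.mp h).1
    rw [e1, prod_insert h2]
    ring

theorem EP_congr (π : α → ℝ) (S : Finset α) {f g : Finset α → ℝ} (h : ∀ A ⊆ S, f A = g A) :
    EP π S f = EP π S g := by
  unfold EP
  apply sum_congr rfl
  intro A hA
  rw [h A (mem_powerset.mp hA)]

theorem EP_congr_par {π π' : α → ℝ} {S : Finset α} (h : ∀ i ∈ S, π i = π' i) (f : Finset α → ℝ) :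
    EP π S f = EP π' S f := by
  unfold EP
  apply sum_congr rfl
  intro A hA
  have hA' : A ⊆ S := mem_powerset.mp hA
  rw [prod_congr rfl (fun i hi => h i (hA' hi)),
    prod_congr rfl (fun i hi => by rw [h i (mem_sdiff.mp hi).1] : ∀ i ∈ S \ A, 1 - π i = 1 - π' i)]

theorem EP_const (π : α → ℝ) (S : Finset α) (c : ℝ) : EP π S (fun _ => c) = c := by
  induction S using Finset.induction_on with
  | empty => rw [EP_empty]
  | insert i S hi ih => rw [EP_insert π hi, ih]; ring

theorem EP_add (π : α → ℝ) (S : Finset α) (f g : Finset α → ℝ) :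
    EP π S (fun A => f A + g A) = EP π S f + EP π S g := by
  unfold EP
  rw [← sum_add_distrib]
  apply sum_congr rfl
  intro A _
  ring

theorem EP_sub (π : α → ℝ) (S : Finset α) (f g : Finset α → ℝ) :
    EP π S (fun A => f A - g A) = EP π S f - EP π S g := by
  unfold EP
  rw [← sum_sub_distrib]
  apply sum_congr rfl
  intro A _
  ring

theorem EP_const_mul (π : α → ℝ) (S : Finset α) (c : ℝ) (f : Finset α → ℝ) :
    EP π S (fun A => c * f A) = c * EP π S f := by
  unfold EP
  rw [mul_sum]
  apply sum_congr rfl
  intro A _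
  ring

theorem EP_sum {β : Type*} (π : α → ℝ) (S : Finset α) (T : Finset β) (f : β → Finset α → ℝ) :
    EP π S (fun A => ∑ b ∈ T, f b A) = ∑ b ∈ T, EP π S (f b) := by
  unfold EP
  rw [sum_comm]
  apply sum_congr rfl
  intro A _
  rw [mul_sum]

/-- `0 ≤ π ≤ 1` on `S`. -/
def Good (π : α → ℝ) (S : Finset α) : Prop := ∀ i ∈ S, 0 ≤ π i ∧ π i ≤ 1

theorem EP_weight_nonneg {π : α → ℝ} {S : Finset α} (hπ : Good π S) {A : Finset α} (hA : A ⊆ S) :
    0 ≤ (∏ i ∈ A, π i) * ∏ i ∈ S \ A, (1 - π i) :=
  mul_nonneg (prod_nonneg (fun i hi => (hπ i (hA hi)).1))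
    (prod_nonneg (fun i hi => sub_nonneg.mpr (hπ i (mem_sdiff.mp hi).1).2))

theorem EP_mono {π : α → ℝ} {S : Finset α} (hπ : Good π S) {f g : Finset α → ℝ}
    (h : ∀ A ⊆ S, f A ≤ g A) : EP π S f ≤ EP π S g := by
  unfold EP
  apply sum_le_sum
  intro A hA
  exact mul_le_mul_of_nonneg_left (h A (mem_powerset.mp hA))
    (EP_weight_nonneg hπ (mem_powerset.mp hA))

theorem EP_nonneg {π : α → ℝ} {S : Finset α} (hπ : Good π S) {f : Finset α → ℝ}
    (h : ∀ A ⊆ S, 0 ≤ f A) : 0 ≤ EP π S f := by
  unfold EP
  apply sum_nonneg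
  intro A hA
  exact mul_nonneg (EP_weight_nonneg hπ (mem_powerset.mp hA)) (h A (mem_powerset.mp hA))

theorem EP_abs_le {π : α → ℝ} {S : Finset α} (hπ : Good π S) (f : Finset α → ℝ) :
    |EP π S f| ≤ EP π S (fun A => |f A|) := by
  unfold EP
  refine (abs_sum_le_sum_abs _ _).trans (sum_le_sum ?_)
  intro A hA
  rw [abs_mul, abs_of_nonneg (EP_weight_nonneg hπ (mem_powerset.mp hA))]

theorem EP_union (π : α → ℝ) {S T : Finset α} (hd : Disjoint S T) (f : Finset α → ℝ) :
    EP π (S ∪ T) f = EP π S (fun A => EP π T (fun B => f (A ∪ B))) := by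
  induction S using Finset.induction_on generalizing f with
  | empty =>
    rw [empty_union, EP_empty]
    apply EP_congr
    intro A _
    rw [empty_union]
  | insert i S hi ih =>
    rw [disjoint_insert_left] at hd
    have hi' : i ∉ S ∪ T := by
      rw [mem_union, not_or]; exact ⟨hi, hd.1⟩
    rw [insert_union, EP_insert π hi', EP_insert π hi, ih hd.2, ih hd.2]
    simp only [insert_union]

theorem EP_inter (π : α → ℝ) {S T : Finset α} (hT : T ⊆ S) (f : Finset α → ℝ) :
    EP π S (fun A => f (A ∩ T)) = EP π T f := by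
  have h1 : T ∪ (S \ T) = S := union_sdiff_of_subset hT
  have hd : Disjoint T (S \ T) := disjoint_sdiff
  rw [← h1, EP_union π hd]
  apply EP_congr
  intro A hA
  have h2 : EP π (S \ T) (fun B => f ((A ∪ B) ∩ T)) = EP π (S \ T) (fun _ => f A) := by
    apply EP_congr
    intro B hB
    congr 1
    ext x
    simp only [mem_inter, mem_union]
    constructor
    · rintro ⟨h | h, h'⟩
      · exact h
      · exact absurd h' (mem_sdiff.mp (hB h)).2
    · intro h
      exact ⟨Or.inl h, hA h⟩
  rw [h2, EP_const]

theorem EP_indep (π : α → ℝ) {S T : Finset α} (hd : Disjoint S T) (f g : Finset α → ℝ) :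
    EP π (S ∪ T) (fun A => f (A ∩ S) * g (A ∩ T)) = EP π S f * EP π T g := by
  rw [EP_union π hd]
  have h1 : EP π S (fun A => EP π T (fun B => f ((A ∪ B) ∩ S) * g ((A ∪ B) ∩ T))) =
      EP π S (fun A => EP π T g * f A) := by
    apply EP_congr
    intro A hA
    rw [mul_comm (EP π T g), ← EP_const_mul]
    apply EP_congr
    intro B hB
    have e1 : (A ∪ B) ∩ S = A := by
      ext x
      simp only [mem_inter, mem_union]
      constructor
      · rintro ⟨h | h, h'⟩
        · exact h
        · exact absurd (hB h) (disjoint_left.mp hd h')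
      · intro h
        exact ⟨Or.inl h, hA h⟩
    have e2 : (A ∪ B) ∩ T = B := by
      ext x
      simp only [mem_inter, mem_union]
      constructor
      · rintro ⟨h | h, h'⟩
        · exact absurd h' (disjoint_left.mp hd (hA h))
        · exact h
      · intro h
        exact ⟨Or.inr h, hB h⟩
    rw [e1, e2]
  rw [h1, EP_const_mul, mul_comm]

theorem EP_map {β : Type*} [DecidableEq β] (π : α → ℝ) (e : β ↪ α) (S : Finset β)
    (f : Finset α → ℝ) :
    EP π (S.map e) f = EP (fun x => π (e x)) S (fun A => f (A.map e)) := by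
  induction S using Finset.induction_on generalizing f with
  | empty => simp [EP_empty]
  | insert i S hi ih =>
    have hi' : e i ∉ S.map e := by
      rw [mem_map' e]; exact hi
    rw [map_insert, EP_insert π hi', EP_insert _ hi, ih, ih]
    simp only [map_insert]

/-- Mecke formula. -/
theorem EP_mecke (π : α → ℝ) {S X : Finset α} (hX : X ⊆ S) (f : Finset α → ℝ) :
    EP π S (fun A => if X ⊆ A then f A else 0) = (∏ i ∈ X, π i) * EP π S (fun A => f (A ∪ X)) := by
  induction X using Finset.induction_on generalizing f with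
  | empty => simp
  | insert x X hx ih =>
    obtain ⟨hxS, hXS⟩ := insert_subset_iff.mp hX
    have key : ∀ g : Finset α → ℝ, EP π S (fun A => if x ∈ A then g A else 0) =
        π x * EP π S (fun A => g (insert x A)) := by
      intro g
      have h1 : insert x (S.erase x) = S := insert_erase hxS
      have hn : x ∉ S.erase x := notMem_erase x S
      rw [← h1, EP_insert π hn, EP_insert π hn]
      have e1 : EP π (S.erase x) (fun A => if x ∈ A then g A else 0) = 0 := by
        have : EP π (S.erase x) (fun A => if x ∈ A then g A else 0) =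
            EP π (S.erase x) (fun _ => 0) := by
          apply EP_congr
          intro A hA
          rw [if_neg (fun h => hn (hA h))]
        rw [this, EP_const]
      have e2 : EP π (S.erase x) (fun A => if x ∈ insert x A then g (insert x A) else 0) =
          EP π (S.erase x) (fun A => g (insert x A)) := by
        apply EP_congr
        intro A _
        rw [if_pos (mem_insert_self x A)]
      have e3 : EP π (S.erase x) (fun A => g (insert x (insert x A))) =
          EP π (S.erase x) (fun A => g (insert x A)) := by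
        apply EP_congr
        intro A _
        rw [insert_idem]
      rw [e1, e2, e3]
      ring
    have h1 : EP π S (fun A => if insert x X ⊆ A then f A else 0) =
        EP π S (fun A => if X ⊆ A then (if x ∈ A then f A else 0) else 0) := by
      apply EP_congr
      intro A _
      by_cases h1 : X ⊆ A
      · by_cases h2 : x ∈ A
        · rw [if_pos (insert_subset h2 h1), if_pos h1, if_pos h2]
        · rw [if_neg (fun h => h2 (insert_subset_iff.mp h).1), if_pos h1, if_neg h2]
      · rw [if_neg (fun h => h1 (insert_subset_iff.mp h).2), if_neg h1]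
    rw [h1, ih hXS, prod_insert hx]
    have h2 : EP π S (fun A => if x ∈ A ∪ X then f (A ∪ X) else 0) =
        EP π S (fun A => if x ∈ A then f (A ∪ X) else 0) := by
      apply EP_congr
      intro A _
      have : (x ∈ A ∪ X) ↔ x ∈ A := by
        rw [mem_union]
        exact ⟨fun h => h.resolve_right hx, Or.inl⟩
      simp only [this]
    rw [h2, key]
    have h3 : EP π S (fun A => f (insert x A ∪ X)) = EP π S (fun A => f (A ∪ insert x X)) := by
      apply EP_congr
      intro A _
      rw [insert_union, union_insert]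
    rw [h3]
    ring

end T1a

end Pool.Agent.LPP
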