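import Pool.Agent.Lib.MP_6b8a80_h32.Defs

/-!
# T2, part 1: longest strictly increasing chains
-/

set_option autoImplicit false

namespace Pool.Agent.LPP

open Finset

theorem SChain.subset {s t : Finset (ℕ × ℕ)} (ht : SChain t) (h : s ⊆ t) : SChain s :=
  fun x hx y hy hxy => ht x (h hx) y (h hy) hxy

theorem schain_empty : SChain ∅ := fun x hx => absurd hx (notMem_empty x)

theorem schain_singleton (z : ℕ × ℕ) : SChain {z} := by
  intro x hx y hy hxy
  rw [mem_singleton] at hx hy
  exact absurd (hx.trans hy.symm) hxy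

theorem card_le_ell {A s : Finset (ℕ × ℕ)} (hs : s ⊆ A) (hc : SChain s) : #s ≤ ell A :=
  le_sup (f := card) (mem_filter.2 ⟨mem_powerset.2 hs, hc⟩)

theorem exists_chain (A : Finset (ℕ × ℕ)) : ∃ s ⊆ A, SChain s ∧ #s = ell A := by
  obtain ⟨s, hs, he⟩ := exists_mem_eq_sup (A.powerset.filter SChain)
    ⟨∅, mem_filter.2 ⟨empty_mem_powerset A, schain_empty⟩⟩ card
  rw [mem_filter, mem_powerset] at hs
  exact ⟨s, hs.1, hs.2, he.symm⟩

theorem ell_mono {A B : Finset (ℕ × ℕ)} (h : A ⊆ B) : ell A ≤ ell B := by
  obtain ⟨s, hs, hc, he⟩ := exists_chain A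
  rw [← he]
  exact card_le_ell (hs.trans h) hc

theorem ell_le_card (A : Finset (ℕ × ℕ)) : ell A ≤ #A := by
  obtain ⟨s, hs, _, he⟩ := exists_chain A
  rw [← he]
  exact card_le_card hs

theorem ell_empty : ell ∅ = 0 := by
  have := ell_le_card ∅
  simpa using this

theorem ell_single (z : ℕ × ℕ) : ell {z} = 1 := by
  have h1 := ell_le_card {z}
  have h2 := card_le_ell (subset_refl {z}) (schain_singleton z)
  rw [card_singleton] at h1 h2
  omega

theorem ell_union_le (A B : Finset (ℕ × ℕ)) : ell (A ∪ B) ≤ ell A + ell B := by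
  obtain ⟨s, hs, hc, he⟩ := exists_chain (A ∪ B)
  have h1 := card_le_ell (inter_subset_right (s₁ := s) (s₂ := A)) (hc.subset inter_subset_left)
  have h2 := card_le_ell (inter_subset_right (s₁ := s) (s₂ := B)) (hc.subset inter_subset_left)
  have h3 : s = s ∩ A ∪ s ∩ B := by
    rw [← inter_union_distrib_left]
    exact (inter_eq_left.2 hs).symm
  have h4 := card_union_le (s ∩ A) (s ∩ B)
  rw [← h3] at h4
  omega

theorem ell_insert_le (x : ℕ × ℕ) (A : Finset (ℕ × ℕ)) : ell (insert x A) ≤ ell A + 1 := by
  have h := ell_union_le {x} A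
  rw [ell_single, ← insert_eq] at h
  omega

theorem ell_add_le {A B : Finset (ℕ × ℕ)} (h : ∀ x ∈ A, ∀ y ∈ B, x.1 < y.1 ∧ x.2 < y.2) :
    ell A + ell B ≤ ell (A ∪ B) := by
  obtain ⟨s, hs, hc, he⟩ := exists_chain A
  obtain ⟨t, ht, hd, hf⟩ := exists_chain B
  rw [← he, ← hf]
  have hdis : Disjoint s t := by
    rw [disjoint_left]
    intro x hx hx'
    exact absurd (h x (hs hx) x (ht hx')).1 (lt_irrefl _)
  rw [← card_union_of_disjoint hdis]
  refine card_le_ell (union_subset_union hs ht) ?_
  intro x hx y hy hxy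
  rcases mem_union.1 hx with hx | hx <;> rcases mem_union.1 hy with hy | hy
  · exact hc x hx y hy hxy
  · exact Or.inl (h x (hs hx) y (ht hy))
  · exact Or.inr (h y (hs hy) x (ht hx))
  · exact hd x hx y hy hxy

theorem mem_below {z : ℕ × ℕ} {A : Finset (ℕ × ℕ)} {x : ℕ × ℕ} :
    x ∈ below z A ↔ x ∈ A ∧ x.1 < z.1 ∧ x.2 < z.2 := mem_filter

theorem mem_above {z : ℕ × ℕ} {A : Finset (ℕ × ℕ)} {x : ℕ × ℕ} :
    x ∈ above z A ↔ x ∈ A ∧ z.1 < x.1 ∧ z.2 < x.2 := mem_filter

theorem below_subset (z : ℕ × ℕ) (A : Finset (ℕ × ℕ)) : below z A ⊆ A := filter_subset _ _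

theorem above_subset (z : ℕ × ℕ) (A : Finset (ℕ × ℕ)) : above z A ⊆ A := filter_subset _ _

theorem ell_below_above (z : ℕ × ℕ) (A : Finset (ℕ × ℕ)) :
    ell (below z A) + ell (above z A) ≤ ell A := by
  refine (ell_add_le ?_).trans (ell_mono (union_subset (below_subset z A) (above_subset z A)))
  intro x hx y hy
  rw [mem_below] at hx
  rw [mem_above] at hy
  omega

theorem ell_below_insert_above (z : ℕ × ℕ) (A : Finset (ℕ × ℕ)) :
    ell (below z A) + 1 + ell (above z A) ≤ ell (insert z A) := by
  have h1 : ell (below z A) + ell {z} ≤ ell (below z A ∪ {z}) := ell_add_le (by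
    intro x hx y hy
    rw [mem_below] at hx
    rw [mem_singleton] at hy
    rw [hy]
    exact hx.2)
  have h2 : ell (below z A ∪ {z}) + ell (above z A) ≤ ell (below z A ∪ {z} ∪ above z A) :=
    ell_add_le (by
      intro x hx y hy
      rw [mem_above] at hy
      rcases mem_union.1 hx with hx | hx
      · rw [mem_below] at hx
        omega
      · rw [mem_singleton] at hx
        rw [hx]
        exact hy.2)
  have h3 : ell (below z A ∪ {z} ∪ above z A) ≤ ell (insert z A) := ell_mono (by
    refine union_subset (union_subset ((below_subset z A).trans (subset_insert z A)) ?_)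
      ((above_subset z A).trans (subset_insert z A))
    rw [singleton_subset_iff]
    exact mem_insert_self z A)
  rw [ell_single] at h1
  omega

theorem ell_insert_eq (z : ℕ × ℕ) (A : Finset (ℕ × ℕ)) :
    ell (insert z A) = max (ell A) (ell (below z A) + 1 + ell (above z A)) := by
  apply le_antisymm
  · obtain ⟨s, hs, hc, he⟩ := exists_chain (insert z A)
    rw [← he]
    by_cases hz : z ∈ s
    · apply le_max_of_le_right
      have h1 : s ⊆ insert z (below z s ∪ above z s) := by
        intro x hx
        rw [mem_insert]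
        by_cases hxz : x = z
        · exact Or.inl hxz
        · right
          rw [mem_union, mem_below, mem_above]
          rcases hc x hx z hz hxz with h | h
          · exact Or.inl ⟨hx, h⟩
          · exact Or.inr ⟨hx, h⟩
      have h2 := (card_le_card h1).trans (card_insert_le _ _)
      have h3 := card_union_le (below z s) (above z s)
      have h4 : #(below z s) ≤ ell (below z A) := card_le_ell (by
        intro x hx
        rw [mem_below] at hx ⊢
        refine ⟨?_, hx.2⟩
        rcases mem_insert.1 (hs hx.1) with h | h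
        · exfalso
          rw [h] at hx
          exact absurd hx.2.1 (lt_irrefl _)
        · exact h) (hc.subset (below_subset z s))
      have h5 : #(above z s) ≤ ell (above z A) := card_le_ell (by
        intro x hx
        rw [mem_above] at hx ⊢
        refine ⟨?_, hx.2⟩
        rcases mem_insert.1 (hs hx.1) with h | h
        · exfalso
          rw [h] at hx
          exact absurd hx.2.1 (lt_irrefl _)
        · exact h) (hc.subset (above_subset z s))
      omega
    · apply le_max_of_le_left
      refine card_le_ell ?_ hc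
      intro x hx
      rcases mem_insert.1 (hs hx) with h | h
      · rw [h] at hx
        exact absurd hx hz
      · exact h
  · exact max_le (ell_mono (subset_insert z A)) (ell_below_insert_above z A)

/-- last point of an optimal chain below `z` -/
theorem exists_last (z : ℕ × ℕ) (A : Finset (ℕ × ℕ)) (h : (below z A).Nonempty) :
    ∃ a ∈ below z A, ell (below z A) = ell (below a A) + 1 := by
  obtain ⟨s, hs, hc, he⟩ := exists_chain (below z A)
  have hne : s.Nonempty := by
    rw [← card_pos, he]
    obtain ⟨x, hx⟩ := h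
    have := ell_mono (singleton_subset_iff.2 hx)
    rw [ell_single] at this
    omega
  obtain ⟨a, ha, hmax⟩ := exists_max_image s (fun x => x.1) hne
  refine ⟨a, hs ha, le_antisymm ?_ ?_⟩
  · rw [← he, ← card_erase_add_one ha, Nat.add_le_add_iff_right]
    refine card_le_ell ?_ (hc.subset (erase_subset a s))
    intro x hx
    have hx' := mem_of_mem_erase hx
    rw [mem_below]
    refine ⟨(mem_below.1 (hs hx')).1, ?_⟩
    rcases hc x hx' a ha (ne_of_mem_erase hx) with h1 | h1
    · exact h1
    · have := hmax x hx'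
      omega
  · have haz := mem_below.1 (hs ha)
    have h1 : ell (below a A) + ell {a} ≤ ell (below a A ∪ {a}) := ell_add_le (by
      intro x hx y hy
      rw [mem_below] at hx
      rw [mem_singleton] at hy
      rw [hy]
      exact hx.2)
    rw [ell_single] at h1
    refine h1.trans (ell_mono ?_)
    intro x hx
    rcases mem_union.1 hx with hx | hx
    · rw [mem_below] at hx ⊢
      refine ⟨hx.1, ?_, ?_⟩ <;> omega
    · rw [mem_singleton] at hx
      rw [hx]
      exact hs ha

/-- first point of an optimal chain above `z` -/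
theorem exists_first (z : ℕ × ℕ) (A : Finset (ℕ × ℕ)) (h : (above z A).Nonempty) :
    ∃ b ∈ above z A, ell (above z A) = ell (above b A) + 1 := by
  obtain ⟨s, hs, hc, he⟩ := exists_chain (above z A)
  have hne : s.Nonempty := by
    rw [← card_pos, he]
    obtain ⟨x, hx⟩ := h
    have := ell_mono (singleton_subset_iff.2 hx)
    rw [ell_single] at this
    omega
  obtain ⟨a, ha, hmin⟩ := exists_min_image s (fun x => x.1) hne
  refine ⟨a, hs ha, le_antisymm ?_ ?_⟩
  · rw [← he, ← card_erase_add_one ha, Nat.add_le_add_iff_right]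
    refine card_le_ell ?_ (hc.subset (erase_subset a s))
    intro x hx
    have hx' := mem_of_mem_erase hx
    rw [mem_above]
    refine ⟨(mem_above.1 (hs hx')).1, ?_⟩
    rcases hc x hx' a ha (ne_of_mem_erase hx) with h1 | h1
    · have := hmin x hx'
      omega
    · exact h1
  · have haz := mem_above.1 (hs ha)
    have h1 : ell {a} + ell (above a A) ≤ ell ({a} ∪ above a A) := ell_add_le (by
      intro x hx y hy
      rw [mem_above] at hy
      rw [mem_singleton] at hx
      rw [hx]
      exact hy.2)
    rw [ell_single, add_comm] at h1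
    refine h1.trans (ell_mono ?_)
    intro x hx
    rcases mem_union.1 hx with hx | hx
    · rw [mem_singleton] at hx
      rw [hx]
      exact hs ha
    · rw [mem_above] at hx ⊢
      refine ⟨hx.1, ?_, ?_⟩ <;> omega

theorem sum_pivotal_le (A : Finset (ℕ × ℕ)) :
    ∑ x ∈ A, (ell A - ell (A.erase x)) ≤ ell A := by
  obtain ⟨s, hs, hc, he⟩ := exists_chain A
  calc ∑ x ∈ A, (ell A - ell (A.erase x)) ≤ ∑ x ∈ A, (if x ∈ s then 1 else 0) := by
        refine sum_le_sum ?_
        intro x hx
        split_ifs with hxs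
        · have h := ell_insert_le x (A.erase x)
          rw [insert_erase hx] at h
          omega
        · have h : #s ≤ ell (A.erase x) := card_le_ell (by
            intro y hy
            rw [mem_erase]
            refine ⟨?_, hs hy⟩
            rintro rfl
            exact hxs hy) hc
          omega
    _ = #s := by
        rw [sum_boole, filter_mem_eq_inter, inter_eq_right.2 hs]
        rfl
    _ = ell A := he

/-- order isomorphisms do not change `ell`. -/
theorem ell_map (A : Finset (ℕ × ℕ)) (e : (ℕ × ℕ) ↪ (ℕ × ℕ))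
    (he : ∀ x ∈ A, ∀ y ∈ A, (x.1 < y.1 ∧ x.2 < y.2) ↔ ((e x).1 < (e y).1 ∧ (e x).2 < (e y).2)) :
    ell (A.map e) = ell A := by
  apply le_antisymm
  · obtain ⟨s, hs, hc, hcard⟩ := exists_chain (A.map e)
    obtain ⟨u, hu, rfl⟩ := subset_map_iff.1 hs
    rw [← hcard, card_map]
    refine card_le_ell hu ?_
    intro x hx y hy hxy
    rw [he x (hu hx) y (hu hy), he y (hu hy) x (hu hx)]
    exact hc (e x) (mem_map_of_mem e hx) (e y) (mem_map_of_mem e hy) (fun h => hxy (e.injective h))
  · obtain ⟨s, hs, hc, hcard⟩ := exists_chain A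
    rw [← hcard, ← card_map e]
    refine card_le_ell (map_subset_map.2 hs) ?_
    intro x hx y hy hxy
    obtain ⟨x, hx', rfl⟩ := mem_map.1 hx
    obtain ⟨y, hy', rfl⟩ := mem_map.1 hy
    rw [← he x (hs hx') y (hs hy'), ← he y (hs hy') x (hs hx')]
    exact hc x hx' y hy' (fun h => hxy (by rw [h]))

/-- order reversing bijections do not change `ell`. -/
theorem ell_map_rev (A : Finset (ℕ × ℕ)) (e : (ℕ × ℕ) ↪ (ℕ × ℕ))
    (he : ∀ x ∈ A, ∀ y ∈ A, (x.1 < y.1 ∧ x.2 < y.2) ↔ ((e y).1 < (e x).1 ∧ (e y).2 < (e x).2)) :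
    ell (A.map e) = ell A := by
  apply le_antisymm
  · obtain ⟨s, hs, hc, hcard⟩ := exists_chain (A.map e)
    obtain ⟨u, hu, rfl⟩ := subset_map_iff.1 hs
    rw [← hcard, card_map]
    refine card_le_ell hu ?_
    intro x hx y hy hxy
    rw [he x (hu hx) y (hu hy), he y (hu hy) x (hu hx)]
    exact (hc (e x) (mem_map_of_mem e hx) (e y) (mem_map_of_mem e hy)
      (fun h => hxy (e.injective h))).symm
  · obtain ⟨s, hs, hc, hcard⟩ := exists_chain A
    rw [← hcard, ← card_map e]
    refine card_le_ell (map_subset_map.2 hs) ?_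
    intro x hx y hy hxy
    obtain ⟨x, hx', rfl⟩ := mem_map.1 hx
    obtain ⟨y, hy', rfl⟩ := mem_map.1 hy
    rw [← he y (hs hy') x (hs hx'), ← he x (hs hx') y (hs hy')]
    exact (hc x hx' y hy' (fun h => hxy (by rw [h]))).symm

end Pool.Agent.LPP
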