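import Pool.Agent.Lib.MP_6b8a80_h32.T2c_Path

/-!
# T2, part 2: last passage times with boundary (re-export of T2b_G and T2c_Path, plus a few extras)
-/

set_option autoImplicit false

namespace Pool.Agent.LPP

open Finset

theorem mem_full_iff {a b : ℕ} {x : ℕ × ℕ} : x ∈ full a b ↔ x.1 ≤ a ∧ x.2 ≤ b ∧ x ≠ (0, 0) := by
  obtain ⟨i, j⟩ := x
  simp only [full, bot, lef, box, mem_union, mem_product, mem_Icc, mem_singleton, Prod.mk.injEq,
    ne_eq]
  omega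

theorem G_zero_eq_card_lef (A : Finset (ℕ × ℕ)) (b : ℕ) : G A 0 b = #(A ∩ lef b) :=
  G_zero_eq A b

theorem G_zero_eq_card_bot (A : Finset (ℕ × ℕ)) (a : ℕ) : G A a 0 = #(A ∩ bot a) :=
  G_eq_zero A a

theorem topInc_inter_Ioc_zero (A : Finset (ℕ × ℕ)) (a b : ℕ) :
    topInc A a b ∩ Ioc 0 a = topInc A a b := by
  rw [inter_eq_left]
  intro i hi
  simp only [topInc, mem_filter, mem_Icc] at hi
  rw [mem_Ioc]
  omega

theorem rightInc_inter_Ioc_zero (A : Finset (ℕ × ℕ)) (a b : ℕ) :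
    rightInc A a b ∩ Ioc 0 b = rightInc A a b := by
  rw [inter_eq_left]
  intro i hi
  simp only [rightInc, mem_filter, mem_Icc] at hi
  rw [mem_Ioc]
  omega

theorem mem_map_swap {A : Finset (ℕ × ℕ)} {i j : ℕ} :
    (i, j) ∈ A.map (Equiv.prodComm ℕ ℕ).toEmbedding ↔ (j, i) ∈ A := by
  rw [mem_map_equiv]
  rfl

theorem noLef_map_swap (A : Finset (ℕ × ℕ)) :
    noLef (A.map (Equiv.prodComm ℕ ℕ).toEmbedding) =
      (noBot A).map (Equiv.prodComm ℕ ℕ).toEmbedding := by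
  ext ⟨i, j⟩
  rw [mem_map_swap]
  simp only [noLef, noBot, mem_filter, mem_map_swap]

theorem noBot_map_swap (A : Finset (ℕ × ℕ)) :
    noBot (A.map (Equiv.prodComm ℕ ℕ).toEmbedding) =
      (noLef A).map (Equiv.prodComm ℕ ℕ).toEmbedding := by
  ext ⟨i, j⟩
  rw [mem_map_swap]
  simp only [noLef, noBot, mem_filter, mem_map_swap]

theorem ell_map_swap (A : Finset (ℕ × ℕ)) :
    ell (A.map (Equiv.prodComm ℕ ℕ).toEmbedding) = ell A := by
  apply ell_map
  rintro ⟨i, j⟩ _ ⟨k, l⟩ _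
  show i < k ∧ j < l ↔ j < l ∧ i < k
  tauto

theorem ell_rect_self_left (A : Finset (ℕ × ℕ)) (i : ℕ) (S : Finset ℕ) :
    ell (A ∩ (Ioc i i ×ˢ S)) = 0 := by
  rw [Ioc_self, empty_product, inter_empty, ell_empty]

theorem ell_rect_self_right (A : Finset (ℕ × ℕ)) (j : ℕ) (S : Finset ℕ) :
    ell (A ∩ (S ×ˢ Ioc j j)) = 0 := by
  rw [Ioc_self, product_empty, inter_empty, ell_empty]

end Pool.Agent.LPP
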