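import Pool.Agent.Lib.MP_6b8a80_h32.Defs

/-!
# MP_6b8a80, task T2b: the last passage recursion with boundary
-/

set_option autoImplicit false

namespace Pool.Agent.LPP

open Finset

theorem G_zero_zero (A : Finset (ℕ × ℕ)) : G A 0 0 = 0 := by unfold G; rfl

theorem G_succ_zero (A : Finset (ℕ × ℕ)) (i : ℕ) :
    G A (i + 1) 0 = G A i 0 + (if (i + 1, 0) ∈ A then 1 else 0) := by rw [G]

theorem G_zero_succ (A : Finset (ℕ × ℕ)) (j : ℕ) :
    G A 0 (j + 1) = G A 0 j + (if (0, j + 1) ∈ A then 1 else 0) := by rw [G]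

theorem G_succ_succ (A : Finset (ℕ × ℕ)) (i j : ℕ) :
    G A (i + 1) (j + 1) = max (max (G A i (j + 1)) (G A (i + 1) j))
      (G A i j + (if (i + 1, j + 1) ∈ A then 1 else 0)) := by rw [G]

/-- Induction principle over the quadrant. -/
theorem quad_induction {P : ℕ → ℕ → Prop} (h00 : P 0 0) (h10 : ∀ i, P i 0 → P (i + 1) 0)
    (h01 : ∀ j, P 0 j → P 0 (j + 1))
    (h11 : ∀ i j, P i j → P (i + 1) j → P i (j + 1) → P (i + 1) (j + 1)) : ∀ i j, P i j := by
  intro i j
  induction j generalizing i with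
  | zero =>
      induction i with
      | zero => exact h00
      | succ i ih => exact h10 i ih
  | succ j ihj =>
      induction i with
      | zero => exact h01 j (ihj 0)
      | succ i ih => exact h11 i j (ihj i) (ihj (i + 1)) ih

theorem G_congr {A B : Finset (ℕ × ℕ)} (a b : ℕ)
    (h : ∀ x : ℕ × ℕ, x.1 ≤ a → x.2 ≤ b → x ≠ (0, 0) → (x ∈ A ↔ x ∈ B)) :
    ∀ i j, i ≤ a → j ≤ b → G A i j = G B i j := by
  apply quad_induction
  · intro _ _; rw [G_zero_zero, G_zero_zero]
  · intro i ih hi hj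
    rw [G_succ_zero, G_succ_zero, ih (by omega) hj]
    have := h (i + 1, 0) hi hj (by simp)
    simp only [this]
  · intro j ih hi hj
    rw [G_zero_succ, G_zero_succ, ih hi (by omega)]
    have := h (0, j + 1) hi hj (by simp)
    simp only [this]
  · intro i j h1 h2 h3 hi hj
    rw [G_succ_succ, G_succ_succ, h1 (by omega) (by omega), h2 hi (by omega), h3 (by omega) hj]
    have := h (i + 1, j + 1) hi hj (by simp)
    simp only [this]

theorem G_inter_full (A : Finset (ℕ × ℕ)) (a b : ℕ) : G (A ∩ full a b) a b = G A a b := by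
  apply G_congr a b _ a b le_rfl le_rfl
  rintro ⟨x, y⟩ hx hy hne
  simp only [ne_eq, Prod.mk.injEq] at hne
  simp only [full, bot, lef, box, mem_inter, mem_union, mem_product, mem_Icc, mem_singleton,
    and_iff_left_iff_imp]
  intro _
  simp only at hx hy
  omega

theorem G_mono {A B : Finset (ℕ × ℕ)} (h : A ⊆ B) (a b : ℕ) : G A a b ≤ G B a b := by
  have hm : ∀ x : ℕ × ℕ, (if x ∈ A then 1 else 0) ≤ (if x ∈ B then 1 else 0 : ℕ) := by
    intro x
    by_cases hx : x ∈ A
    · simp [hx, h hx]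
    · simp [hx]
  revert a b
  apply quad_induction
  · rw [G_zero_zero, G_zero_zero]
  · intro i ih
    rw [G_succ_zero, G_succ_zero]
    exact Nat.add_le_add ih (hm _)
  · intro j ih
    rw [G_zero_succ, G_zero_succ]
    exact Nat.add_le_add ih (hm _)
  · intro i j h1 h2 h3
    rw [G_succ_succ, G_succ_succ]
    exact max_le_max (max_le_max h3 h2) (Nat.add_le_add h1 (hm _))

theorem ind_le_one (P : Prop) [Decidable P] : (if P then 1 else 0 : ℕ) ≤ 1 := by
  split_ifs <;> omega

theorem G_succ_both (A : Finset (ℕ × ℕ)) (i j : ℕ) :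
    (G A i j ≤ G A (i + 1) j ∧ G A (i + 1) j ≤ G A i j + 1) ∧
    (G A i j ≤ G A i (j + 1) ∧ G A i (j + 1) ≤ G A i j + 1) := by
  revert i j
  apply quad_induction
  · rw [G_succ_zero, G_zero_succ]
    have h1 := ind_le_one ((0 + 1, 0) ∈ A)
    have h2 := ind_le_one ((0, 0 + 1) ∈ A)
    omega
  · intro i ih
    have e1 := G_succ_zero A (i + 1)
    have h1 := ind_le_one ((i + 1 + 1, 0) ∈ A)
    have e2 := G_succ_succ A i 0
    have h2 := ind_le_one ((i + 1, 0 + 1) ∈ A)
    omega
  · intro j ih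
    have e1 := G_zero_succ A (j + 1)
    have h1 := ind_le_one ((0, j + 1 + 1) ∈ A)
    have e2 := G_succ_succ A 0 j
    have h2 := ind_le_one ((0 + 1, j + 1) ∈ A)
    omega
  · intro i j h1 h2 h3
    have e1 := G_succ_succ A (i + 1) j
    have e2 := G_succ_succ A i (j + 1)
    have e3 := G_succ_succ A i j
    have g1 := ind_le_one ((i + 1 + 1, j + 1) ∈ A)
    have g2 := ind_le_one ((i + 1, j + 1 + 1) ∈ A)
    have g3 := ind_le_one ((i + 1, j + 1) ∈ A)
    omega

theorem G_succ_left (A : Finset (ℕ × ℕ)) (i j : ℕ) :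
    G A i j ≤ G A (i + 1) j ∧ G A (i + 1) j ≤ G A i j + 1 := (G_succ_both A i j).1

theorem G_succ_right (A : Finset (ℕ × ℕ)) (i j : ℕ) :
    G A i j ≤ G A i (j + 1) ∧ G A i (j + 1) ≤ G A i j + 1 := (G_succ_both A i j).2

theorem mem_bulk_iff {A B : Finset (ℕ × ℕ)} (hbulk : bulk A = bulk B) (i j : ℕ) :
    (i + 1, j + 1) ∈ A ↔ (i + 1, j + 1) ∈ B := by
  have h := Finset.ext_iff.1 hbulk (i + 1, j + 1)
  simpa [bulk] using h

/-- Attractiveness. -/
theorem G_attractive {A B : Finset (ℕ × ℕ)} (hbulk : bulk A = bulk B)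
    (hbot : ∀ i, (i + 1, 0) ∈ A → (i + 1, 0) ∈ B) (hlef : ∀ j, (0, j + 1) ∈ B → (0, j + 1) ∈ A)
    (i j : ℕ) :
    (G A (i + 1) j + G B i j ≤ G A i j + G B (i + 1) j) ∧
    (G B i (j + 1) + G A i j ≤ G B i j + G A i (j + 1)) := by
  have b1 : ∀ i, (if (i + 1, 0) ∈ A then 1 else 0) ≤ (if (i + 1, 0) ∈ B then 1 else 0 : ℕ) := by
    intro i
    by_cases h : (i + 1, 0) ∈ A
    · simp [h, hbot i h]
    · simp [h]
  have b2 : ∀ j, (if (0, j + 1) ∈ B then 1 else 0) ≤ (if (0, j + 1) ∈ A then 1 else 0 : ℕ) := by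
    intro j
    by_cases h : (0, j + 1) ∈ B
    · simp [h, hlef j h]
    · simp [h]
  have b3 : ∀ i j, (if (i + 1, j + 1) ∈ A then 1 else 0 : ℕ) =
      (if (i + 1, j + 1) ∈ B then 1 else 0) := by
    intro i j
    simp only [mem_bulk_iff hbulk i j]
  -- one cell
  have cell : ∀ i j, ((G A (i + 1) j + G B i j ≤ G A i j + G B (i + 1) j) ∧
      (G B i (j + 1) + G A i j ≤ G B i j + G A i (j + 1))) →
      (G A (i + 1) (j + 1) + G B i (j + 1) ≤ G A i (j + 1) + G B (i + 1) (j + 1)) ∧
      (G B (i + 1) (j + 1) + G A (i + 1) j ≤ G B (i + 1) j + G A (i + 1) (j + 1)) := by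
    intro i j h
    have hA := G_succ_both A i j
    have hB := G_succ_both B i j
    have eA := G_succ_succ A i j
    have eB := G_succ_succ B i j
    have e := b3 i j
    have g := ind_le_one ((i + 1, j + 1) ∈ A)
    rw [← e] at eB
    omega
  revert i j
  apply quad_induction
  · have e1 := G_succ_zero A 0
    have e2 := G_succ_zero B 0
    have e3 := G_zero_succ A 0
    have e4 := G_zero_succ B 0
    have e5 := b1 0
    have e6 := b2 0
    omega
  · intro i ih
    have h := (cell i 0 ih).2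
    have e1 := G_succ_zero A (i + 1)
    have e2 := G_succ_zero B (i + 1)
    have e5 := b1 (i + 1)
    omega
  · intro j ih
    have h := (cell 0 j ih).1
    have e1 := G_zero_succ A (j + 1)
    have e2 := G_zero_succ B (j + 1)
    have e5 := b2 (j + 1)
    omega
  · intro i j h1 h2 h3
    exact ⟨(cell (i + 1) j h2).1, (cell i (j + 1) h3).2⟩

theorem G_noBot_zero (A : Finset (ℕ × ℕ)) (i : ℕ) : G (noBot A) i 0 = 0 := by
  induction i with
  | zero => exact G_zero_zero _
  | succ i ih => rw [G_succ_zero, ih]; simp [noBot]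

theorem G_noLef_zero (A : Finset (ℕ × ℕ)) (j : ℕ) : G (noLef A) 0 j = 0 := by
  induction j with
  | zero => exact G_zero_zero _
  | succ i ih => rw [G_zero_succ, ih]; simp [noLef]

theorem G_max_aux (a1 a2 a3 b1 b2 b3 c : ℕ) :
    max (max (max a1 b1) (max a2 b2)) (max a3 b3 + c) =
      max (max (max a1 a2) (a3 + c)) (max (max b1 b2) (b3 + c)) := by
  rw [← Nat.add_max_add_right]
  ac_rfl

theorem G_eq_max (A : Finset (ℕ × ℕ)) (a b : ℕ) :
    G A a b = max (G (noLef A) a b) (G (noBot A) a b) := by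
  revert a b
  apply quad_induction
  · rw [G_zero_zero, G_zero_zero, G_zero_zero]; rfl
  · intro i ih
    rw [G_noBot_zero, Nat.max_zero] at ih ⊢
    rw [G_succ_zero, G_succ_zero, ih]
    simp [noLef]
  · intro j ih
    rw [G_noLef_zero, Nat.zero_max] at ih ⊢
    rw [G_zero_succ, G_zero_succ, ih]
    simp [noBot]
  · intro i j h1 h2 h3
    have m1 : (i + 1, j + 1) ∈ noLef A ↔ (i + 1, j + 1) ∈ A := by simp [noLef]
    have m2 : (i + 1, j + 1) ∈ noBot A ↔ (i + 1, j + 1) ∈ A := by simp [noBot]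
    have e0 := G_succ_succ A i j
    have e1 := G_succ_succ (noLef A) i j
    have e2 := G_succ_succ (noBot A) i j
    simp only [m1] at e1
    simp only [m2] at e2
    rw [e0, e1, e2, h1, h2, h3]
    exact G_max_aux _ _ _ _ _ _ _

/-- transposition -/
theorem G_swap (A : Finset (ℕ × ℕ)) (a b : ℕ) :
    G (A.map (Equiv.prodComm ℕ ℕ).toEmbedding) b a = G A a b := by
  have hm : ∀ x y : ℕ, (y, x) ∈ A.map (Equiv.prodComm ℕ ℕ).toEmbedding ↔ (x, y) ∈ A := by
    intro x y
    simp
  revert a b
  apply quad_induction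
  · rw [G_zero_zero, G_zero_zero]
  · intro i ih
    rw [G_succ_zero, G_zero_succ, ih]
    simp only [hm]
  · intro j ih
    rw [G_succ_zero, G_zero_succ, ih]
    simp only [hm]
  · intro i j h1 h2 h3
    rw [G_succ_succ, G_succ_succ, h1, h2, h3]
    simp only [hm]
    rw [max_comm (G A (i + 1) j)]

theorem G_sub_eq_topInc (A : Finset (ℕ × ℕ)) (a w b : ℕ) :
    G A (a + w) b = G A a b + #(topInc A (a + w) b ∩ Ioc a (a + w)) := by
  induction w with
  | zero => simp
  | succ w ih =>
      have h := G_succ_left A (a + w) b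
      have hset : topInc A (a + (w + 1)) b ∩ Ioc a (a + (w + 1)) =
          if G A (a + w + 1) b = G A (a + w) b + 1 then
            insert (a + w + 1) (topInc A (a + w) b ∩ Ioc a (a + w)) else
            topInc A (a + w) b ∩ Ioc a (a + w) := by
        ext i
        split_ifs with hc
        · simp only [topInc, mem_inter, mem_filter, mem_Icc, mem_Ioc, mem_insert]
          constructor
          · rintro ⟨⟨⟨h1, h2⟩, h3⟩, h4, h5⟩
            by_cases hi : i = a + w + 1
            · exact Or.inl hi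
            · exact Or.inr ⟨⟨⟨h1, by omega⟩, h3⟩, h4, by omega⟩
          · rintro (h1 | ⟨⟨⟨h1, h2⟩, h3⟩, h4, h5⟩)
            · subst h1
              refine ⟨⟨⟨by omega, by omega⟩, ?_⟩, by omega, by omega⟩
              simpa using hc
            · exact ⟨⟨⟨h1, by omega⟩, h3⟩, h4, by omega⟩
        · simp only [topInc, mem_inter, mem_filter, mem_Icc, mem_Ioc]
          constructor
          · rintro ⟨⟨⟨h1, h2⟩, h3⟩, h4, h5⟩
            by_cases hi : i = a + w + 1
            · subst hi
              exact absurd (by simpa using h3) hc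
            · exact ⟨⟨⟨h1, by omega⟩, h3⟩, h4, by omega⟩
          · rintro ⟨⟨⟨h1, h2⟩, h3⟩, h4, h5⟩
            exact ⟨⟨⟨h1, by omega⟩, h3⟩, h4, by omega⟩
      rw [hset]
      have e : a + (w + 1) = a + w + 1 := by omega
      rw [e]
      split_ifs with hc
      · rw [card_insert_of_notMem, hc, ih]
        · ring
        · simp
      · omega

theorem G_sub_eq_rightInc (A : Finset (ℕ × ℕ)) (a b w : ℕ) :
    G A a (b + w) = G A a b + #(rightInc A a (b + w) ∩ Ioc b (b + w)) := by
  have h := G_sub_eq_topInc (A.map (Equiv.prodComm ℕ ℕ).toEmbedding) b w a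
  rw [G_swap, G_swap] at h
  rw [h]
  congr 2
  unfold topInc rightInc
  simp only [G_swap]

theorem G_zero_eq (A : Finset (ℕ × ℕ)) (b : ℕ) : G A 0 b = #(A ∩ lef b) := by
  induction b with
  | zero => simp [G_zero_zero, lef]
  | succ b ih =>
      rw [G_zero_succ, ih]
      have hl : lef (b + 1) = insert (0, b + 1) (lef b) := by
        ext ⟨x, y⟩
        simp only [lef, mem_product, mem_singleton, mem_Icc, mem_insert, Prod.mk.injEq]
        omega
      rw [hl]
      split_ifs with h
      · rw [inter_insert_of_mem h, card_insert_of_notMem]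
        simp [lef]
      · rw [inter_insert_of_notMem h, add_zero]

theorem G_eq_zero (A : Finset (ℕ × ℕ)) (a : ℕ) : G A a 0 = #(A ∩ bot a) := by
  induction a with
  | zero => simp [G_zero_zero, bot]
  | succ b ih =>
      rw [G_succ_zero, ih]
      have hl : bot (b + 1) = insert (b + 1, 0) (bot b) := by
        ext ⟨x, y⟩
        simp only [bot, mem_product, mem_singleton, mem_Icc, mem_insert, Prod.mk.injEq]
        omega
      rw [hl]
      split_ifs with h
      · rw [inter_insert_of_mem h, card_insert_of_notMem]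
        simp [bot]
      · rw [inter_insert_of_notMem h, add_zero]

theorem G_eq_lef_add_top (A : Finset (ℕ × ℕ)) (a b : ℕ) :
    G A a b = #(A ∩ lef b) + #(topInc A a b) := by
  have h := G_sub_eq_topInc A 0 a b
  rw [zero_add, G_zero_eq] at h
  rw [h]
  congr 2
  apply inter_eq_left.2
  intro i hi
  simp only [topInc, mem_filter, mem_Icc, mem_Ioc] at hi ⊢
  omega

theorem G_eq_bot_add_right (A : Finset (ℕ × ℕ)) (a b : ℕ) :
    G A a b = #(A ∩ bot a) + #(rightInc A a b) := by
  have h := G_sub_eq_rightInc A a 0 b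
  rw [zero_add, G_eq_zero] at h
  rw [h]
  congr 2
  apply inter_eq_left.2
  intro i hi
  simp only [rightInc, mem_filter, mem_Icc, mem_Ioc] at hi ⊢
  omega

end Pool.Agent.LPP
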