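import Pool.Agent.Lib.MP_6b8a80_h32.T2_Ell
import Pool.Agent.Lib.MP_6b8a80_h32.T2b_G

/-!
# MP_6b8a80, task T2c: `G` and longest chains
-/

set_option autoImplicit false

namespace Pool.Agent.LPP

open Finset

/-- Recursion for the longest chain in a rectangle. -/
theorem ell_rect_succ (A : Finset (ℕ × ℕ)) {i j a b : ℕ} (hi : i ≤ a) (hj : j ≤ b) :
    ell (A ∩ (Ioc i (a + 1) ×ˢ Ioc j (b + 1))) =
      max (max (ell (A ∩ (Ioc i a ×ˢ Ioc j (b + 1)))) (ell (A ∩ (Ioc i (a + 1) ×ˢ Ioc j b))))
        (ell (A ∩ (Ioc i a ×ˢ Ioc j b)) + (if (a + 1, b + 1) ∈ A then 1 else 0)) := by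
  have mem_rect : ∀ (i a j b : ℕ) (x : ℕ × ℕ), x ∈ A ∩ (Ioc i a ×ˢ Ioc j b) ↔
      x ∈ A ∧ (i < x.1 ∧ x.1 ≤ a) ∧ (j < x.2 ∧ x.2 ≤ b) := by
    intro i a j b x
    simp only [mem_inter, mem_product, mem_Ioc]
  apply le_antisymm
  · obtain ⟨s, hs, hc, hcard⟩ := exists_chain (A ∩ (Ioc i (a + 1) ×ˢ Ioc j (b + 1)))
    rw [← hcard]
    by_cases h1 : ∃ x ∈ s, x.1 = a + 1
    · obtain ⟨x, hx, hx1⟩ := h1
      have hxr := (mem_rect _ _ _ _ _).1 (hs hx)
      by_cases h2 : x.2 = b + 1
      · -- the corner belongs to the chain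
        have hxe : x = (a + 1, b + 1) := Prod.ext hx1 h2
        have hcorner : (a + 1, b + 1) ∈ A := by rw [← hxe]; exact hxr.1
        have hsub : s.erase x ⊆ A ∩ (Ioc i a ×ˢ Ioc j b) := by
          intro y hy
          rw [mem_erase] at hy
          have hyr := (mem_rect _ _ _ _ _).1 (hs hy.2)
          rw [mem_rect]
          have := hc y hy.2 x hx hy.1
          refine ⟨hyr.1, ⟨hyr.2.1.1, ?_⟩, hyr.2.2.1, ?_⟩ <;> omega
        have hc' : SChain (s.erase x) := hc.subset (erase_subset _ _)
        have h3 := card_le_ell hsub hc'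
        rw [card_erase_of_mem hx] at h3
        have : 0 < #s := card_pos.2 ⟨x, hx⟩
        rw [if_pos hcorner]
        apply le_max_of_le_right
        omega
      · have hsub : s ⊆ A ∩ (Ioc i (a + 1) ×ˢ Ioc j b) := by
          intro y hy
          have hyr := (mem_rect _ _ _ _ _).1 (hs hy)
          rw [mem_rect]
          refine ⟨hyr.1, hyr.2.1, hyr.2.2.1, ?_⟩
          by_cases hyx : y = x
          · subst hyx; omega
          · have := hc y hy x hx hyx
            omega
        apply le_max_of_le_left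
        apply le_max_of_le_right
        exact card_le_ell hsub hc
    · push Not at h1
      have hsub : s ⊆ A ∩ (Ioc i a ×ˢ Ioc j (b + 1)) := by
        intro y hy
        have hyr := (mem_rect _ _ _ _ _).1 (hs hy)
        rw [mem_rect]
        have := h1 y hy
        refine ⟨hyr.1, ⟨hyr.2.1.1, ?_⟩, hyr.2.2⟩
        omega
      apply le_max_of_le_left
      apply le_max_of_le_left
      exact card_le_ell hsub hc
  · apply max_le
    · apply max_le
      · apply ell_mono
        intro x hx
        rw [mem_rect] at hx ⊢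
        exact ⟨hx.1, by omega, by omega⟩
      · apply ell_mono
        intro x hx
        rw [mem_rect] at hx ⊢
        exact ⟨hx.1, by omega, by omega⟩
    · split_ifs with h
      · have h1 := ell_add_le (A := A ∩ (Ioc i a ×ˢ Ioc j b)) (B := {(a + 1, b + 1)}) (by
          intro x hx y hy
          rw [mem_rect] at hx
          rw [mem_singleton] at hy
          subst hy
          simp only
          omega)
        rw [ell_single] at h1
        refine h1.trans (ell_mono ?_)
        intro x hx
        rw [mem_union, mem_singleton] at hx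
        rw [mem_rect]
        rcases hx with hx | hx
        · rw [mem_rect] at hx
          exact ⟨hx.1, by omega, by omega⟩
        · subst hx
          simp only
          exact ⟨h, by omega, by omega⟩
      · rw [add_zero]
        apply ell_mono
        intro x hx
        rw [mem_rect] at hx ⊢
        exact ⟨hx.1, by omega, by omega⟩

theorem Icc_one_eq (a : ℕ) : Icc 1 a = Ioc 0 a := by
  ext i; simp only [mem_Icc, mem_Ioc]; omega

/-- Without boundary, `G` is `ell`. -/
theorem G_bulk (A : Finset (ℕ × ℕ)) (a b : ℕ) : G (bulk A) a b = ell (A ∩ box a b) := by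
  unfold box
  rw [Icc_one_eq, Icc_one_eq]
  revert a b
  apply quad_induction
  · simp [G_zero_zero, ell_empty]
  · intro i ih
    rw [G_succ_zero, ih]
    simp [bulk, ell_empty]
  · intro j ih
    rw [G_zero_succ, ih]
    simp [bulk, ell_empty]
  · intro i j h1 h2 h3
    rw [G_succ_succ, h1, h2, h3, ell_rect_succ A (Nat.zero_le i) (Nat.zero_le j)]
    have : (i + 1, j + 1) ∈ bulk A ↔ (i + 1, j + 1) ∈ A := by simp [bulk]
    simp only [this]

theorem card_bot_succ (A : Finset (ℕ × ℕ)) (a : ℕ) :
    #(A ∩ bot (a + 1)) = #(A ∩ bot a) + (if (a + 1, 0) ∈ A then 1 else 0) := by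
  rw [← G_eq_zero, ← G_eq_zero, G_succ_zero]

/-- Path decomposition over the exit point on the bottom. -/
theorem G_noLef (A : Finset (ℕ × ℕ)) (a b : ℕ) :
    G (noLef A) a b =
      (range (a + 1)).sup (fun i => #(A ∩ bot i) + ell (A ∩ (Ioc i a ×ˢ Icc 1 b))) := by
  rw [Icc_one_eq]
  revert a b
  apply quad_induction
  · simp [G_zero_zero, ell_empty, bot]
  · intro i _
    have h1 : G (noLef A) (i + 1) 0 = #(A ∩ bot (i + 1)) := by
      rw [G_eq_zero]
      congr 1
      ext x
      simp only [noLef, bot, mem_inter, mem_filter, mem_product, mem_Icc, mem_singleton]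
      constructor
      · rintro ⟨⟨h1, _⟩, h2⟩
        exact ⟨h1, h2⟩
      · rintro ⟨h1, h2⟩
        exact ⟨⟨h1, by omega⟩, h2⟩
    rw [h1]
    apply le_antisymm
    · have h2 : #(A ∩ bot (i + 1)) ≤ #(A ∩ bot (i + 1)) +
          ell (A ∩ (Ioc (i + 1) (i + 1) ×ˢ Ioc 0 0)) := Nat.le_add_right _ _
      exact h2.trans (le_sup (f := fun k => #(A ∩ bot k) + ell (A ∩ (Ioc k (i + 1) ×ˢ Ioc 0 0)))
        (mem_range.2 (Nat.lt_succ_self (i + 1))))
    · apply Finset.sup_le
      intro k hk
      rw [mem_range] at hk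
      have h3 : A ∩ (Ioc k (i + 1) ×ˢ Ioc 0 0) = ∅ := by
        ext x
        simp
      rw [h3, ell_empty, add_zero]
      apply card_le_card
      apply inter_subset_inter_left
      intro x hx
      simp only [bot, mem_product, mem_Icc, mem_singleton] at hx ⊢
      omega
  · intro j _
    rw [G_noLef_zero]
    simp [ell_empty, bot]
  · intro i j h1 h2 h3
    have hm : (i + 1, j + 1) ∈ noLef A ↔ (i + 1, j + 1) ∈ A := by simp [noLef]
    rw [G_succ_succ, h1, h2, h3]
    simp only [hm]
    set w : ℕ := if (i + 1, j + 1) ∈ A then 1 else 0 with hw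
    have hrec : ∀ k ≤ i, ell (A ∩ (Ioc k (i + 1) ×ˢ Ioc 0 (j + 1))) =
        max (max (ell (A ∩ (Ioc k i ×ˢ Ioc 0 (j + 1)))) (ell (A ∩ (Ioc k (i + 1) ×ˢ Ioc 0 j))))
          (ell (A ∩ (Ioc k i ×ˢ Ioc 0 j)) + w) := fun k hk => ell_rect_succ A hk (Nat.zero_le j)
    have hemp : ∀ J, ell (A ∩ (Ioc (i + 1) (i + 1) ×ˢ Ioc 0 J)) = 0 := by
      intro J
      simp [ell_empty]
    set F := fun (a b k : ℕ) => #(A ∩ bot k) + ell (A ∩ (Ioc k a ×ˢ Ioc 0 b)) with hF
    have hle : ∀ a b k, k ∈ range (a + 1) → F a b k ≤ (range (a + 1)).sup (F a b) :=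
      fun a b k hk => le_sup (f := F a b) hk
    change max (max ((range (i + 1)).sup (F i (j + 1))) ((range (i + 1 + 1)).sup (F (i + 1) j)))
      ((range (i + 1)).sup (F i j) + w) = (range (i + 1 + 1)).sup (F (i + 1) (j + 1))
    have hmon : ∀ k ≤ i, F (i + 1) (j + 1) k = max (max (F i (j + 1) k) (F (i + 1) j k))
        (F i j k + w) := by
      intro k hk
      simp only [hF]
      rw [hrec k hk]
      omega
    have hlast : ∀ J, F (i + 1) J (i + 1) = #(A ∩ bot (i + 1)) := by
      intro J
      simp only [hF]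
      rw [hemp, add_zero]
    apply le_antisymm
    · apply max_le
      · apply max_le
        · apply Finset.sup_le
          intro k hk
          rw [mem_range] at hk
          have h4 := hle (i + 1) (j + 1) k (by rw [mem_range]; omega)
          have h5 := hmon k (by omega)
          omega
        · apply Finset.sup_le
          intro k hk
          have h4 := hle (i + 1) (j + 1) k hk
          rw [mem_range] at hk
          by_cases hki : k ≤ i
          · have h5 := hmon k hki
            omega
          · have : k = i + 1 := by omega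
            subst this
            rw [hlast] at h4 ⊢
            exact h4
      · obtain ⟨k, hk, hk2⟩ := exists_mem_eq_sup (range (i + 1)) ⟨0, by simp⟩ (F i j)
        rw [hk2]
        rw [mem_range] at hk
        have h4 := hle (i + 1) (j + 1) k (by rw [mem_range]; omega)
        have h5 := hmon k (by omega)
        omega
    · apply Finset.sup_le
      intro k hk
      rw [mem_range] at hk
      by_cases hki : k ≤ i
      · have h5 := hmon k hki
        have h6 := hle i (j + 1) k (by rw [mem_range]; omega)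
        have h7 := hle (i + 1) j k (by rw [mem_range]; omega)
        have h8 := hle i j k (by rw [mem_range]; omega)
        omega
      · have : k = i + 1 := by omega
        subst this
        have h7 := hle (i + 1) j (i + 1) (by rw [mem_range]; omega)
        rw [hlast] at h7 ⊢
        omega

theorem swap_noLef (A : Finset (ℕ × ℕ)) :
    noLef (A.map (Equiv.prodComm ℕ ℕ).toEmbedding) =
      (noBot A).map (Equiv.prodComm ℕ ℕ).toEmbedding := by
  ext ⟨x, y⟩
  simp [noLef, noBot]

theorem G_noBot (A : Finset (ℕ × ℕ)) (a b : ℕ) :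
    G (noBot A) a b =
      (range (b + 1)).sup (fun j => #(A ∩ lef j) + ell (A ∩ (Icc 1 a ×ˢ Ioc j b))) := by
  have h := G_noLef (A.map (Equiv.prodComm ℕ ℕ).toEmbedding) b a
  rw [swap_noLef, G_swap] at h
  rw [h]
  congr 1
  ext j
  have h1 : A.map (Equiv.prodComm ℕ ℕ).toEmbedding ∩ bot j =
      (A ∩ lef j).map (Equiv.prodComm ℕ ℕ).toEmbedding := by
    ext ⟨x, y⟩
    simp only [mem_inter, mem_map, lef, bot, mem_product, mem_Icc, mem_singleton]
    simp
    tauto
  have h2 : A.map (Equiv.prodComm ℕ ℕ).toEmbedding ∩ (Ioc j b ×ˢ Icc 1 a) =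
      (A ∩ (Icc 1 a ×ˢ Ioc j b)).map (Equiv.prodComm ℕ ℕ).toEmbedding := by
    ext ⟨x, y⟩
    simp only [mem_inter, mem_map, mem_product, mem_Icc, mem_Ioc]
    simp
    tauto
  rw [h1, h2, card_map, ell_map]
  intro x _ y _
  simp
  tauto

end Pool.Agent.LPP
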