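import Pool.Agent.Lib.MP_6b8a80_h32.Defs
import Pool.Agent.Lib.MP_6b8a80_h32.T1a_EP

/-!
# MP_6b8a80, task T3: Burke property of the discrete Hammersley process with sources and sinks
-/

set_option autoImplicit false

namespace Pool.Agent.LPP

open Finset

namespace T3

/-! ### Recursion equations and locality of `G` -/

theorem G_zero_zero (A : Finset (ℕ × ℕ)) : G A 0 0 = 0 := by rw [G]

theorem G_succ_zero (A : Finset (ℕ × ℕ)) (i : ℕ) :
    G A (i + 1) 0 = G A i 0 + (if (i + 1, 0) ∈ A then 1 else 0) := by rw [G]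

theorem G_zero_succ (A : Finset (ℕ × ℕ)) (j : ℕ) :
    G A 0 (j + 1) = G A 0 j + (if (0, j + 1) ∈ A then 1 else 0) := by rw [G]

theorem G_succ_succ (A : Finset (ℕ × ℕ)) (i j : ℕ) :
    G A (i + 1) (j + 1) = max (max (G A i (j + 1)) (G A (i + 1) j))
      (G A i j + (if (i + 1, j + 1) ∈ A then 1 else 0)) := by rw [G]

theorem G_local {A B : Finset (ℕ × ℕ)} : ∀ (j i : ℕ),
    (∀ x : ℕ × ℕ, x.1 ≤ i → x.2 ≤ j → (x ∈ A ↔ x ∈ B)) → G A i j = G B i j := by
  intro j
  induction j with
  | zero =>
    intro i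
    induction i with
    | zero => intro _; rw [G_zero_zero, G_zero_zero]
    | succ i ih =>
      intro h
      rw [G_succ_zero, G_succ_zero, ih (fun x h1 h2 => h x (by omega) h2)]
      simp only [h (i + 1, 0) le_rfl le_rfl]
  | succ j ihj =>
    intro i
    induction i with
    | zero =>
      intro h
      rw [G_zero_succ, G_zero_succ, ihj 0 (fun x h1 h2 => h x h1 (by omega))]
      simp only [h (0, j + 1) le_rfl le_rfl]
    | succ i ih =>
      intro h
      rw [G_succ_succ, G_succ_succ, ih (fun x h1 h2 => h x (by omega) h2),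
        ihj (i + 1) (fun x h1 h2 => h x h1 (by omega)),
        ihj i (fun x h1 h2 => h x (by omega) (by omega))]
      simp only [h (i + 1, j + 1) le_rfl le_rfl]

theorem quad_ind {P : ℕ → ℕ → Prop} (h00 : P 0 0) (h10 : ∀ i, P i 0 → P (i + 1) 0)
    (h01 : ∀ j, P 0 j → P 0 (j + 1))
    (h11 : ∀ i j, P i j → P (i + 1) j → P i (j + 1) → P (i + 1) (j + 1)) : ∀ i j, P i j := by
  intro i j
  induction j generalizing i with
  | zero =>
      induction i with
      | zero => exact h00
      | succ i ih => exact h10 i ih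
  | succ j ihj =>
      induction i with
      | zero => exact h01 j (ihj 0)
      | succ i ih => exact h11 i j (ihj i) (ihj (i + 1)) ih

theorem ind_le_one (P : Prop) [Decidable P] : (if P then 1 else 0 : ℕ) ≤ 1 := by
  split_ifs <;> omega

/-- both increments of `G` are `0` or `1`. -/
theorem G_inc' (A : Finset (ℕ × ℕ)) (i j : ℕ) :
    (G A i j ≤ G A (i + 1) j ∧ G A (i + 1) j ≤ G A i j + 1) ∧
    (G A i j ≤ G A i (j + 1) ∧ G A i (j + 1) ≤ G A i j + 1) := by
  revert i j
  apply quad_ind
  · rw [G_succ_zero, G_zero_succ]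
    have h1 := ind_le_one ((0 + 1, 0) ∈ A)
    have h2 := ind_le_one ((0, 0 + 1) ∈ A)
    omega
  · intro i ih
    have e1 := G_succ_zero A (i + 1)
    have h1 := ind_le_one ((i + 1 + 1, 0) ∈ A)
    have e2 := G_succ_succ A i 0
    have h2 := ind_le_one ((i + 1, 0 + 1) ∈ A)
    omega
  · intro j ih
    have e1 := G_zero_succ A (j + 1)
    have h1 := ind_le_one ((0, j + 1 + 1) ∈ A)
    have e2 := G_succ_succ A 0 j
    have h2 := ind_le_one ((0 + 1, j + 1) ∈ A)
    omega
  · intro i j h1 h2 h3
    have e1 := G_succ_succ A (i + 1) j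
    have e2 := G_succ_succ A i (j + 1)
    have e3 := G_succ_succ A i j
    have g1 := ind_le_one ((i + 1 + 1, j + 1) ∈ A)
    have g2 := ind_le_one ((i + 1, j + 1 + 1) ∈ A)
    have g3 := ind_le_one ((i + 1, j + 1) ∈ A)
    omega

theorem G_inc (A : Finset (ℕ × ℕ)) : ∀ (j i : ℕ),
    (G A i j ≤ G A (i + 1) j ∧ G A (i + 1) j ≤ G A i j + 1) ∧
    (G A i j ≤ G A i (j + 1) ∧ G A i (j + 1) ≤ G A i j + 1) := fun j i => G_inc' A i j

/-! ### One row -/

theorem full_succ_one (a : ℕ) :
    full (a + 1) 1 = insert (a + 1, 0) (insert (a + 1, 1) (full a 1)) := by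
  ext ⟨x, y⟩
  simp only [full, bot, lef, box, mem_union, mem_insert, mem_product, mem_Icc, mem_singleton,
    Prod.mk.injEq]
  omega

theorem notMem_full_one_a (a : ℕ) : (a + 1, 0) ∉ insert (a + 1, 1) (full a 1) := by
  simp only [full, bot, lef, box, mem_union, mem_insert, mem_product, mem_Icc, mem_singleton,
    Prod.mk.injEq]
  omega

theorem notMem_full_one_b (a : ℕ) : (a + 1, 1) ∉ full a 1 := by
  simp only [full, bot, lef, box, mem_union, mem_product, mem_Icc, mem_singleton]
  omega

theorem mem_full {a b : ℕ} {x : ℕ × ℕ} : x ∈ full a b ↔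
    x.1 ≤ a ∧ x.2 ≤ b ∧ x ≠ (0, 0) := by
  obtain ⟨x, y⟩ := x
  simp only [full, bot, lef, box, mem_union, mem_product, mem_Icc, mem_singleton,
    Prod.mk.injEq, ne_eq]
  omega

theorem topInc_succ (A : Finset (ℕ × ℕ)) (a b : ℕ) :
    topInc A (a + 1) b =
      if G A (a + 1) b = G A a b + 1 then insert (a + 1) (topInc A a b) else topInc A a b := by
  unfold topInc
  split_ifs with h
  · ext i
    simp only [mem_filter, mem_Icc, mem_insert]
    constructor
    · rintro ⟨⟨h1, h2⟩, h3⟩
      by_cases hi : i = a + 1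
      · left; exact hi
      · right; exact ⟨⟨h1, by omega⟩, h3⟩
    · rintro (rfl | ⟨⟨h1, h2⟩, h3⟩)
      · exact ⟨⟨by omega, le_rfl⟩, by simpa using h⟩
      · exact ⟨⟨h1, by omega⟩, h3⟩
  · ext i
    simp only [mem_filter, mem_Icc]
    constructor
    · rintro ⟨⟨h1, h2⟩, h3⟩
      by_cases hi : i = a + 1
      · subst hi
        exact absurd (by simpa using h3) h
      · exact ⟨⟨h1, by omega⟩, h3⟩
    · rintro ⟨⟨h1, h2⟩, h3⟩
      exact ⟨⟨h1, by omega⟩, h3⟩

theorem topInc_local {A B : Finset (ℕ × ℕ)} (a b : ℕ)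
    (h : ∀ x : ℕ × ℕ, x.1 ≤ a → x.2 ≤ b → (x ∈ A ↔ x ∈ B)) : topInc A a b = topInc B a b := by
  unfold topInc
  apply filter_congr
  intro i hi
  rw [mem_Icc] at hi
  rw [G_local b i (fun x h1 h2 => h x (by omega) h2),
    G_local b (i - 1) (fun x h1 h2 => h x (by omega) h2)]

/-- Update of the top increments and of the right increment by one cell. -/
theorem row_step {A : Finset (ℕ × ℕ)} {a : ℕ} (hA : A ⊆ full a 1) (x w : Bool)
    (A' : Finset (ℕ × ℕ))
    (hA' : A' = A ∪ ((if x then {(a + 1, 0)} else ∅) ∪ (if w then {(a + 1, 1)} else ∅))) :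
    topInc A' (a + 1) 1 = (if G A a 1 - G A a 0 = 0 ∧ (x = true ∨ w = true)
        then insert (a + 1) (topInc A a 1) else topInc A a 1) ∧
      G A' (a + 1) 1 - G A' (a + 1) 0 =
        (if x then 0 else if w then 1 else G A a 1 - G A a 0) := by
  have hmem : ∀ y : ℕ × ℕ, y.1 ≤ a → (y ∈ A' ↔ y ∈ A) := by
    rintro ⟨y1, y2⟩ hy
    subst hA'
    simp only at hy
    rw [mem_union, mem_union]
    constructor
    · rintro (h | h | h)
      · exact h
      · split_ifs at h
        · rw [mem_singleton, Prod.mk.injEq] at h; omega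
        · simp at h
      · split_ifs at h
        · rw [mem_singleton, Prod.mk.injEq] at h; omega
        · simp at h
    · intro h; exact Or.inl h
  have h10 : ((a + 1, 0) ∈ A') ↔ x = true := by
    subst hA'
    rw [mem_union, mem_union]
    have : (a + 1, 0) ∉ A := fun h => by
      have := mem_full.1 (hA h); simp at this
    cases x <;> cases w <;> simp [this]
  have h11 : ((a + 1, 1) ∈ A') ↔ w = true := by
    subst hA'
    rw [mem_union, mem_union]
    have : (a + 1, 1) ∉ A := fun h => by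
      have := mem_full.1 (hA h); simp at this
    cases x <;> cases w <;> simp [this]
  have g1 : G A' a 1 = G A a 1 := G_local 1 a (fun y h1 _ => hmem y h1)
  have g0 : G A' a 0 = G A a 0 := G_local 0 a (fun y h1 _ => hmem y h1)
  have t1 : topInc A' a 1 = topInc A a 1 := topInc_local a 1 (fun y h1 _ => hmem y h1)
  have e0 := G_succ_zero A' a
  have e1 := G_succ_succ A' a 0
  have hi := (G_inc A 0 a).2
  rw [topInc_succ, t1]
  rw [zero_add] at e1 hi
  simp only [h10, h11] at e0 e1
  rw [g0] at e0 e1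
  rw [g1] at e1
  rw [g1]
  constructor
  · congr 1
    rw [e1, e0]
    cases x <;> cases w <;> simp <;> omega
  · rw [e1, e0]
    cases x <;> cases w <;> simp <;> omega

theorem sα_sβ {lam q : ℝ} (hl : 0 < lam) (hq : 0 < q) :
    sα lam q * sβ lam q = q ^ 2 * ((1 - sα lam q) * (1 - sβ lam q)) := by
  unfold sα sβ
  have h1 : 1 + lam * q ≠ 0 := by positivity
  have h2 : lam + q ≠ 0 := by positivity
  field_simp
  ring

/-- Joint law of the top increments and the right increment of one row. -/
theorem row_law {lam q : ℝ} (hl : 0 < lam) (hq : 0 < q) (a : ℕ) : ∀ (Φ : Finset ℕ → ℕ → ℝ),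
    EP (par lam q) (full a 1) (fun A => Φ (topInc A a 1) (G A a 1 - G A a 0)) =
      EP (fun _ => sα lam q) (Icc 1 a)
        (fun B => sβ lam q * Φ B 1 + (1 - sβ lam q) * Φ B 0) := by
  induction a with
  | zero =>
    intro Φ
    have h0 : full 0 1 = insert (0, 1) ∅ := by
      ext ⟨x, y⟩
      simp only [mem_full, mem_insert, notMem_empty, Prod.mk.injEq, ne_eq, or_false]
      omega
    rw [h0, EP_insert _ (notMem_empty _), EP_empty, EP_empty]
    have h1 : Icc 1 0 = (∅ : Finset ℕ) := rfl
    rw [h1, EP_empty]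
    have ht : ∀ A : Finset (ℕ × ℕ), topInc A 0 1 = ∅ := fun A => by
      unfold topInc; rw [h1]; rfl
    simp only [ht]
    have hp : par lam q (0, 1) = sβ lam q := by unfold par; simp
    have k1 : G (insert (0, 1) ∅) 0 1 - G (insert (0, 1) ∅) 0 0 = 1 := by
      have e := G_zero_succ (insert (0, 1) ∅) 0
      rw [zero_add] at e
      rw [e, G_zero_zero]; simp
    have k2 : G ∅ 0 1 - G ∅ 0 0 = 0 := by
      have e := G_zero_succ ∅ 0
      rw [zero_add] at e
      rw [e, G_zero_zero]; simp
    rw [k1, k2, hp]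
  | succ a ih =>
    intro Φ
    have hS : insert (a + 1) (Icc 1 a) = Icc 1 (a + 1) := by
      ext i; simp only [mem_insert, mem_Icc]; omega
    have hS' : a + 1 ∉ Icc 1 a := by simp
    rw [full_succ_one, EP_insert _ (notMem_full_one_a a), EP_insert _ (notMem_full_one_b a),
      EP_insert _ (notMem_full_one_b a), ← hS, EP_insert _ hS']
    have p1 : par lam q (a + 1, 0) = sα lam q := by unfold par; simp
    have p2 : par lam q (a + 1, 1) = q ^ 2 := by unfold par; simp
    rw [p1, p2]
    -- the four configurations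
    have key : ∀ x w : Bool, ∀ A' : Finset (ℕ × ℕ) → Finset (ℕ × ℕ),
        (∀ A, A' A = A ∪ ((if x then {(a + 1, 0)} else ∅) ∪ (if w then {(a + 1, 1)} else ∅))) →
        EP (par lam q) (full a 1) (fun A => Φ (topInc (A' A) (a + 1) 1)
          (G (A' A) (a + 1) 1 - G (A' A) (a + 1) 0)) =
        EP (fun _ => sα lam q) (Icc 1 a) (fun B => sβ lam q *
            Φ B (if x then 0 else 1) +
          (1 - sβ lam q) * Φ (if x = true ∨ w = true then insert (a + 1) B else B)
            (if x then 0 else if w then 1 else 0)) := by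
      intro x w A' hA'
      have e := ih (fun B y => Φ (if y = 0 ∧ (x = true ∨ w = true) then insert (a + 1) B else B)
        (if x then 0 else if w then 1 else y))
      have e' : EP (par lam q) (full a 1) (fun A => Φ (topInc (A' A) (a + 1) 1)
          (G (A' A) (a + 1) 1 - G (A' A) (a + 1) 0)) =
          EP (par lam q) (full a 1) (fun A => Φ (if G A a 1 - G A a 0 = 0 ∧ (x = true ∨ w = true)
            then insert (a + 1) (topInc A a 1) else topInc A a 1)
            (if x then 0 else if w then 1 else G A a 1 - G A a 0)) := by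
        apply EP_congr
        intro A hA
        have h := row_step hA x w (A' A) (hA' A)
        rw [h.1, h.2]
      rw [e', e]
      congr 1
      funext B
      cases x <;> cases w <;> simp
    have k11 := key true true (fun A => insert (a + 1, 0) (insert (a + 1, 1) A))
      (fun A => by ext ⟨x, y⟩; simp only [if_true, mem_insert, mem_union, mem_singleton]; tauto)
    have k10 := key true false (fun A => insert (a + 1, 0) A) (fun A => by
      ext ⟨x, y⟩; simp only [if_true, mem_insert, mem_union, mem_singleton, Bool.false_eq_true,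
        if_false, notMem_empty]; tauto)
    have k01 := key false true (fun A => insert (a + 1, 1) A) (fun A => by
      ext ⟨x, y⟩; simp only [if_true, mem_insert, mem_union, mem_singleton, Bool.false_eq_true,
        if_false, notMem_empty]; tauto)
    have k00 := key false false (fun A => A) (fun A => by simp)
    rw [k11, k10, k01, k00]
    simp only [EP_add, EP_const_mul]
    simp only [if_true, or_true, true_or, or_self, Bool.false_eq_true, if_false]
    have hab := sα_sβ hl hq
    linear_combination (EP (fun _ => sα lam q) (Icc 1 a) (fun B => Φ B 0) -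
      EP (fun _ => sα lam q) (Icc 1 a) (fun B => Φ (insert (a + 1) B) 1)) * hab

/-! ### Shifting down by one row -/

/-- move a column index to the bottom boundary. -/
def toBot : ℕ ↪ ℕ × ℕ := ⟨fun i => (i, 0), fun _ _ h => (Prod.mk.inj h).1⟩

/-- move up by one row. -/
def up : ℕ × ℕ ↪ ℕ × ℕ := ⟨fun x => (x.1, x.2 + 1), fun x y h => by
  have := Prod.mk.inj h
  ext
  · exact this.1
  · simpa using this.2⟩

theorem toBot_apply (i : ℕ) : toBot i = (i, 0) := rfl

theorem up_apply (x y : ℕ) : up (x, y) = (x, y + 1) := rfl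

theorem mem_map_toBot {X : Finset ℕ} {x y : ℕ} : (x, y) ∈ X.map toBot ↔ y = 0 ∧ x ∈ X := by
  rw [mem_map]
  constructor
  · rintro ⟨i, h, e⟩
    rw [toBot_apply, Prod.mk.injEq] at e
    obtain ⟨rfl, rfl⟩ := e
    exact ⟨rfl, h⟩
  · rintro ⟨rfl, h⟩
    exact ⟨x, h, rfl⟩

theorem mem_map_up {B : Finset (ℕ × ℕ)} {x y : ℕ} :
    (x, y) ∈ B.map up ↔ 1 ≤ y ∧ (x, y - 1) ∈ B := by
  rw [mem_map]
  constructor
  · rintro ⟨⟨x', y'⟩, h, e⟩
    rw [up_apply, Prod.mk.injEq] at e
    obtain ⟨rfl, rfl⟩ := e
    exact ⟨by omega, by simpa using h⟩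
  · rintro ⟨h1, h2⟩
    refine ⟨(x, y - 1), h2, ?_⟩
    rw [up_apply, Prod.mk.injEq]
    exact ⟨rfl, by omega⟩

/-- The configuration seen from the first row. -/
def sh (a : ℕ) (A : Finset (ℕ × ℕ)) : Finset (ℕ × ℕ) :=
  (topInc A a 1).map toBot ∪ ((A.filter (fun x => 2 ≤ x.2)).image (fun x => (x.1, x.2 - 1)))

theorem mem_sh {a : ℕ} {A : Finset (ℕ × ℕ)} {i j : ℕ} : (i, j) ∈ sh a A ↔
    (j = 0 ∧ i ∈ topInc A a 1) ∨ (1 ≤ j ∧ (i, j + 1) ∈ A) := by
  unfold sh
  rw [mem_union, mem_map_toBot, mem_image]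
  constructor
  · rintro (h | ⟨⟨x, y⟩, h, e⟩)
    · exact Or.inl h
    · right
      rw [mem_filter] at h
      simp only [Prod.mk.injEq] at h e
      obtain ⟨rfl, rfl⟩ := e
      refine ⟨by omega, ?_⟩
      have : y - 1 + 1 = y := by omega
      rw [this]; exact h.1
  · rintro (h | ⟨h1, h2⟩)
    · exact Or.inl h
    · refine Or.inr ⟨(i, j + 1), ?_, ?_⟩
      · rw [mem_filter]; exact ⟨h2, by simp only; omega⟩
      · simp

theorem G_sh (A : Finset (ℕ × ℕ)) (a : ℕ) : ∀ j i : ℕ, i ≤ a →
    G A i (j + 1) = G A 0 1 + G (sh a A) i j := by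
  intro j
  induction j with
  | zero =>
    intro i
    induction i with
    | zero => intro _; rw [G_zero_zero]; rfl
    | succ i ih =>
      intro hi
      have h := (G_inc A 1 i).1
      rw [G_succ_zero, ← add_assoc, ← ih (by omega)]
      have hm : (i + 1, 0) ∈ sh a A ↔ G A (i + 1) 1 = G A i 1 + 1 := by
        rw [mem_sh, topInc, mem_filter, mem_Icc, add_tsub_cancel_right]
        constructor
        · rintro (⟨_, _, h⟩ | ⟨h, _⟩)
          · exact h
          · omega
        · intro h
          exact Or.inl ⟨rfl, ⟨by omega, hi⟩, h⟩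
      simp only [hm, zero_add]
      split_ifs <;> omega
  | succ j ihj =>
    intro i
    induction i with
    | zero =>
      intro _
      have hm : (0, j + 1) ∈ sh a A ↔ (0, j + 1 + 1) ∈ A := by
        rw [mem_sh]; constructor
        · rintro (⟨h, _⟩ | ⟨_, h⟩)
          · omega
          · exact h
        · intro h; exact Or.inr ⟨by omega, h⟩
      rw [G_zero_succ A (j + 1), G_zero_succ (sh a A) j, ihj 0 (by omega)]
      simp only [hm, add_assoc]
    | succ i ih =>
      intro hi
      have hm : (i + 1, j + 1) ∈ sh a A ↔ (i + 1, j + 1 + 1) ∈ A := by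
        rw [mem_sh]; constructor
        · rintro (⟨h, _⟩ | ⟨_, h⟩)
          · omega
          · exact h
        · intro h; exact Or.inr ⟨by omega, h⟩
      rw [G_succ_succ A i (j + 1), G_succ_succ (sh a A) i j, ih (by omega), ihj (i + 1) hi,
        ihj i (by omega)]
      simp only [hm]
      omega

theorem topInc_sh (A : Finset (ℕ × ℕ)) (a b : ℕ) :
    topInc (sh a A) a b = topInc A a (b + 1) := by
  unfold topInc
  apply filter_congr
  intro i hi
  rw [mem_Icc] at hi
  rw [G_sh A a b i hi.2, G_sh A a b (i - 1) (by omega)]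
  omega

theorem rightInc_sh (A : Finset (ℕ × ℕ)) (a c b : ℕ) (hc : c ≤ a) (j : ℕ) :
    j + 1 ∈ rightInc A c (b + 1) ∧ 1 ≤ j ↔ j ∈ rightInc (sh a A) c b := by
  unfold rightInc
  rw [mem_filter, mem_filter, mem_Icc, mem_Icc]
  rcases j with _ | j
  · simp
  · simp only [add_tsub_cancel_right]
    rw [G_sh A a (j + 1) c hc, G_sh A a j c hc]
    constructor
    · rintro ⟨⟨⟨_, h1⟩, h2⟩, _⟩
      exact ⟨⟨by omega, by omega⟩, by omega⟩
    · rintro ⟨⟨_, h1⟩, h2⟩
      exact ⟨⟨⟨by omega, by omega⟩, by omega⟩, by omega⟩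

theorem mem_lef_box {a b x y : ℕ} : (x, y) ∈ lef b ∪ box a b ↔ x ≤ a ∧ 1 ≤ y ∧ y ≤ b := by
  simp only [lef, box, mem_union, mem_product, mem_Icc, mem_singleton]
  omega

theorem full_succ (a b : ℕ) : full a (b + 1) = full a 1 ∪ (lef b ∪ box a b).map up := by
  ext ⟨x, y⟩
  rw [mem_union, mem_map_up, mem_lef_box, mem_full, mem_full]
  simp only [ne_eq, Prod.mk.injEq]
  omega

theorem disjoint_up (a b : ℕ) : Disjoint (full a 1) ((lef b ∪ box a b).map up) := by
  rw [disjoint_left]
  rintro ⟨x, y⟩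
  rw [mem_map_up, mem_lef_box, mem_full]
  simp only [ne_eq, Prod.mk.injEq]
  omega

theorem sh_union {a b : ℕ} {A B : Finset (ℕ × ℕ)} (hA : A ⊆ full a 1) (hB : B ⊆ lef b ∪ box a b) :
    sh a (A ∪ B.map up) = (topInc A a 1).map toBot ∪ B := by
  have hB' : ∀ x y : ℕ, (x, y) ∈ B → 1 ≤ y := by
    intro x y h
    exact (mem_lef_box.1 (hB h)).2.1
  have ht : topInc (A ∪ B.map up) a 1 = topInc A a 1 := by
    apply topInc_local
    rintro ⟨x, y⟩ _ h2
    simp only at h2
    rw [mem_union, mem_map_up]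
    constructor
    · rintro (h | ⟨h3, h4⟩)
      · exact h
      · have := hB' _ _ h4; omega
    · intro h; exact Or.inl h
  ext ⟨x, y⟩
  rw [mem_sh, mem_union, ht, mem_union, mem_map_up, mem_map_toBot]
  have hA2 : 1 ≤ y → (x, y + 1) ∉ A := by
    intro hy h
    have := (mem_full.1 (hA h)).2.1
    simp only at this
    omega
  constructor
  · rintro (h | ⟨h1, h2 | ⟨_, h3⟩⟩)
    · exact Or.inl h
    · exact absurd h2 (hA2 h1)
    · exact Or.inr (by simpa using h3)
  · rintro (h | h)
    · exact Or.inl h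
    · exact Or.inr ⟨hB' _ _ h, Or.inr ⟨by omega, by simpa using h⟩⟩

theorem bot_eq_map (a : ℕ) : bot a = (Icc 1 a).map toBot := by
  ext ⟨x, y⟩
  rw [mem_map_toBot, bot, mem_product, mem_singleton]
  tauto

theorem row_law_top {lam q : ℝ} (hl : 0 < lam) (hq : 0 < q) (a : ℕ) (Ψ : Finset ℕ → ℝ) :
    EP (par lam q) (full a 1) (fun A => Ψ (topInc A a 1)) =
      EP (fun _ => sα lam q) (Icc 1 a) Ψ := by
  rw [row_law hl hq a (fun B _ => Ψ B)]
  congr 1
  funext B
  ring

/-- The configuration seen from the first row has the law of the original one. -/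
theorem EP_sh {lam q : ℝ} (hl : 0 < lam) (hq : 0 < q) (a b : ℕ) (Φ : Finset (ℕ × ℕ) → ℝ) :
    EP (par lam q) (full a (b + 1)) (fun A => Φ (sh a A)) = EP (par lam q) (full a b) Φ := by
  have hd : Disjoint (bot a) (lef b ∪ box a b) := by
    rw [disjoint_left]
    rintro ⟨x, y⟩
    simp only [bot, lef, box, mem_union, mem_product, mem_Icc, mem_singleton]
    omega
  have hf : full a b = bot a ∪ (lef b ∪ box a b) := by
    unfold full; rw [union_assoc]
  rw [full_succ, EP_union _ (disjoint_up a b)]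
  have e1 : EP (par lam q) (full a 1) (fun A => EP (par lam q) ((lef b ∪ box a b).map up)
      (fun B => Φ (sh a (A ∪ B)))) =
      EP (par lam q) (full a 1) (fun A => (fun X => EP (par lam q) (lef b ∪ box a b)
        (fun B => Φ (X.map toBot ∪ B))) (topInc A a 1)) := by
    apply EP_congr
    intro A hA
    rw [EP_map]
    have e2 : EP (fun x => par lam q (up x)) (lef b ∪ box a b)
        (fun B => Φ (sh a (A ∪ B.map up))) = EP (par lam q) (lef b ∪ box a b)
        (fun B => Φ (sh a (A ∪ B.map up))) := by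
      apply EP_congr_par
      rintro ⟨x, y⟩ h
      have h := (mem_lef_box.1 h).2.1
      have hy : y ≠ 0 := by omega
      simp only [up_apply]
      unfold par
      simp [hy]
    rw [e2]
    apply EP_congr
    intro B hB
    rw [sh_union hA hB]
  rw [e1, row_law_top hl hq a (fun X => EP (par lam q) (lef b ∪ box a b)
        (fun B => Φ (X.map toBot ∪ B))), hf, EP_union _ hd, bot_eq_map, EP_map]
  apply EP_congr_par
  intro i _
  rw [toBot_apply]
  unfold par
  simp

end T3

open T3 in
theorem burke_top {lam q : ℝ} (hl : 0 < lam) (hq : 0 < q) (a b : ℕ) (F : Finset ℕ → ℝ) :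
    EP (par lam q) (full a b) (fun A => F (topInc A a b)) =
      EP (fun _ => sα lam q) (Icc 1 a) F := by
  induction b with
  | zero =>
    have hf : full a 0 = bot a := by
      ext ⟨x, y⟩
      simp only [mem_full, bot, mem_product, mem_Icc, mem_singleton, ne_eq, Prod.mk.injEq]
      omega
    rw [hf, bot_eq_map, EP_map]
    have e : EP (fun x => par lam q (toBot x)) (Icc 1 a) (fun A => F (topInc (A.map toBot) a 0)) =
        EP (fun _ => sα lam q) (Icc 1 a) (fun A => F (topInc (A.map toBot) a 0)) := by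
      apply EP_congr_par
      intro i _
      rw [toBot_apply]
      unfold par
      simp
    rw [e]
    apply EP_congr
    intro A hA
    congr 1
    ext i
    simp only [topInc, mem_filter, mem_Icc]
    constructor
    · rintro ⟨⟨h1, h2⟩, h3⟩
      obtain ⟨k, rfl⟩ : ∃ k, i = k + 1 := ⟨i - 1, by omega⟩
      rw [G_succ_zero, add_tsub_cancel_right] at h3
      split_ifs at h3 with h
      · exact (mem_map_toBot.1 h).2
      · omega
    · intro h
      have h' := hA h
      rw [mem_Icc] at h'
      refine ⟨h', ?_⟩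
      obtain ⟨k, rfl⟩ : ∃ k, i = k + 1 := ⟨i - 1, by omega⟩
      rw [G_succ_zero, add_tsub_cancel_right, if_pos (mem_map_toBot.2 ⟨rfl, h⟩)]
  | succ b ih =>
    rw [← ih, ← EP_sh hl hq a b (fun A => F (topInc A a b))]
    simp only [topInc_sh]

namespace T3

theorem sα_inv {lam q : ℝ} (hl : 0 < lam) (hq : 0 < q) : sα (1 / lam) q = sβ lam q := by
  unfold sα sβ
  have h2 : lam + q ≠ 0 := by positivity
  field_simp

theorem sβ_inv {lam q : ℝ} (hl : 0 < lam) (hq : 0 < q) : sβ (1 / lam) q = sα lam q := by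
  unfold sα sβ
  have h2 : 1 + lam * q ≠ 0 := by positivity
  field_simp

/-- transposition of cells -/
def tr : ℕ × ℕ ↪ ℕ × ℕ := (Equiv.prodComm ℕ ℕ).toEmbedding

theorem tr_apply (x y : ℕ) : tr (x, y) = (y, x) := rfl

theorem mem_map_tr {A : Finset (ℕ × ℕ)} {x y : ℕ} : (x, y) ∈ A.map tr ↔ (y, x) ∈ A := by
  rw [mem_map]
  constructor
  · rintro ⟨⟨x', y'⟩, h, e⟩
    rw [tr_apply, Prod.mk.injEq] at e
    obtain ⟨rfl, rfl⟩ := e
    exact h
  · intro h
    exact ⟨(y, x), h, rfl⟩

theorem G_tr (A : Finset (ℕ × ℕ)) : ∀ j i : ℕ, G (A.map tr) j i = G A i j := by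
  intro j
  induction j with
  | zero =>
    intro i
    induction i with
    | zero => rw [G_zero_zero, G_zero_zero]
    | succ i ih => rw [G_succ_zero, G_zero_succ, ih]; simp only [mem_map_tr]
  | succ j ihj =>
    intro i
    induction i with
    | zero => rw [G_succ_zero, G_zero_succ, ihj]; simp only [mem_map_tr]
    | succ i ih =>
      rw [G_succ_succ, G_succ_succ, ih, ihj, ihj, max_comm (G A i (j + 1))]
      simp only [mem_map_tr]

theorem rightInc_eq (A : Finset (ℕ × ℕ)) (a b : ℕ) :
    rightInc A a b = topInc (A.map tr) b a := by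
  unfold rightInc topInc
  apply filter_congr
  intro j _
  rw [G_tr, G_tr]

theorem full_map_tr (a b : ℕ) : (full a b).map tr = full b a := by
  ext ⟨x, y⟩
  rw [mem_map_tr, mem_full, mem_full]
  simp only [ne_eq, Prod.mk.injEq]
  omega

end T3

open T3 in
theorem burke_right {lam q : ℝ} (hl : 0 < lam) (hq : 0 < q) (a b : ℕ) (F : Finset ℕ → ℝ) :
    EP (par lam q) (full a b) (fun A => F (rightInc A a b)) =
      EP (fun _ => sβ lam q) (Icc 1 b) F := by
  have h := burke_top (lam := 1 / lam) (by positivity) hq b a F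
  rw [sα_inv hl hq] at h
  rw [← h, ← full_map_tr a b, EP_map]
  simp only [rightInc_eq]
  apply EP_congr_par
  rintro ⟨x, y⟩ hx
  have hx := mem_full.1 hx
  simp only [ne_eq, Prod.mk.injEq] at hx
  rw [tr_apply]
  unfold par
  simp only
  rw [sα_inv hl hq, sβ_inv hl hq]
  split_ifs <;> first | rfl | omega

namespace T3

/-- `j ↦ j + 1` -/
def sc : ℕ ↪ ℕ := ⟨fun j => j + 1, fun _ _ h => Nat.succ.inj h⟩

theorem sc_apply (j : ℕ) : sc j = j + 1 := rfl

/-- `j ↦ a` cells at height zero -/
theorem mem_topInc_zero {A : Finset (ℕ × ℕ)} {a i : ℕ} :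
    i ∈ topInc A a 0 ↔ (1 ≤ i ∧ i ≤ a) ∧ (i, 0) ∈ A := by
  rw [topInc, mem_filter, mem_Icc]
  apply and_congr_right
  rintro ⟨h1, h2⟩
  obtain ⟨k, rfl⟩ : ∃ k, i = k + 1 := ⟨i - 1, by omega⟩
  rw [G_succ_zero, add_tsub_cancel_right]
  split_ifs with h
  · simp [h]
  · simp [h]

theorem G_inter_full' (A : Finset (ℕ × ℕ)) (a b i j : ℕ) (hi : i ≤ a) (hj : j ≤ b) :
    G (A ∩ full a b) i j = G A i j := by
  -- `(0,0)` never matters
  have key : ∀ (j i : ℕ), i ≤ a → j ≤ b → G (A ∩ full a b) i j = G A i j := by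
    intro j
    induction j with
    | zero =>
      intro i
      induction i with
      | zero => intro _ _; rw [G_zero_zero, G_zero_zero]
      | succ i ih =>
        intro h1 h2
        rw [G_succ_zero, G_succ_zero, ih (by omega) h2]
        have : (i + 1, 0) ∈ full a b := mem_full.2 ⟨h1, h2, by simp⟩
        simp only [mem_inter, this, and_true]
    | succ j ihj =>
      intro i
      induction i with
      | zero =>
        intro h1 h2
        rw [G_zero_succ, G_zero_succ, ihj 0 h1 (by omega)]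
        have : (0, j + 1) ∈ full a b := mem_full.2 ⟨h1, h2, by simp⟩
        simp only [mem_inter, this, and_true]
      | succ i ih =>
        intro h1 h2
        rw [G_succ_succ, G_succ_succ, ih (by omega) h2, ihj (i + 1) h1 (by omega),
          ihj i (by omega) (by omega)]
        have : (i + 1, j + 1) ∈ full a b := mem_full.2 ⟨h1, h2, by simp⟩
        simp only [mem_inter, this, and_true]
  exact key j i hi hj

theorem rightInc_inter_full (A : Finset (ℕ × ℕ)) (a b : ℕ) :
    rightInc (A ∩ full a b) a b = rightInc A a b := by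
  unfold rightInc
  apply filter_congr
  intro j hj
  rw [mem_Icc] at hj
  rw [G_inter_full' A a b a j le_rfl hj.2, G_inter_full' A a b a (j - 1) le_rfl (by omega)]

theorem burke_corner_zero {lam q : ℝ} (hl : 0 < lam) (hq : 0 < q) (a w w' : ℕ)
    (F K : Finset ℕ → ℝ) :
    EP (par lam q) (full (a + w) w')
      (fun A => F (topInc A (a + w) 0 ∩ Ioc a (a + w)) * K (rightInc A a w' ∩ Ioc 0 w')) =
      EP (fun _ => sα lam q) (Ioc a (a + w)) F * EP (fun _ => sβ lam q) (Ioc 0 w') K := by
  have hd : Disjoint ((Ioc a (a + w)).map toBot) (full a w') := by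
    rw [disjoint_left]
    rintro ⟨x, y⟩
    rw [mem_map_toBot, mem_Ioc, mem_full]
    rintro ⟨_, h, _⟩ ⟨h', _, _⟩
    simp only at h'
    omega
  have hsub : (Ioc a (a + w)).map toBot ∪ full a w' ⊆ full (a + w) w' := by
    rintro ⟨x, y⟩
    rw [mem_union, mem_map_toBot, mem_Ioc, mem_full, mem_full]
    simp only [ne_eq, Prod.mk.injEq]
    omega
  -- rewrite the function through the intersections
  have e1 : ∀ A : Finset (ℕ × ℕ),
      F (topInc A (a + w) 0 ∩ Ioc a (a + w)) * K (rightInc A a w' ∩ Ioc 0 w') =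
      (fun B => (fun X => F ((Ioc a (a + w)).filter (fun i => (i, 0) ∈ X)))
          (B ∩ (Ioc a (a + w)).map toBot) *
        (fun X => K (rightInc X a w' ∩ Ioc 0 w')) (B ∩ full a w'))
        (A ∩ ((Ioc a (a + w)).map toBot ∪ full a w')) := by
    intro A
    have f1 : A ∩ ((Ioc a (a + w)).map toBot ∪ full a w') ∩ (Ioc a (a + w)).map toBot =
        A ∩ (Ioc a (a + w)).map toBot := by
      ext x; simp only [mem_inter, mem_union]; tauto
    have f2 : A ∩ ((Ioc a (a + w)).map toBot ∪ full a w') ∩ full a w' = A ∩ full a w' := by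
      ext x; simp only [mem_inter, mem_union]; tauto
    simp only [f1, f2, rightInc_inter_full]
    congr 2
    ext i
    rw [mem_inter, mem_filter, mem_topInc_zero, mem_inter, mem_map_toBot, mem_Ioc]
    constructor
    · rintro ⟨⟨_, h1⟩, h2⟩
      exact ⟨h2, h1, rfl, h2⟩
    · rintro ⟨h2, h1, _⟩
      exact ⟨⟨⟨by omega, by omega⟩, h1⟩, h2⟩
  simp only [e1]
  rw [EP_inter _ hsub (fun B => (fun X => F ((Ioc a (a + w)).filter (fun i => (i, 0) ∈ X)))
          (B ∩ (Ioc a (a + w)).map toBot) *
        (fun X => K (rightInc X a w' ∩ Ioc 0 w')) (B ∩ full a w')),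
    EP_indep _ hd (fun X => F ((Ioc a (a + w)).filter (fun i => (i, 0) ∈ X)))
      (fun X => K (rightInc X a w' ∩ Ioc 0 w'))]
  have hI : Ioc 0 w' = Icc 1 w' := by ext i; rw [mem_Ioc, mem_Icc]; omega
  congr 1
  · rw [EP_map]
    have e : EP (fun x => par lam q (toBot x)) (Ioc a (a + w)) (fun A =>
        F ((Ioc a (a + w)).filter (fun i => (i, 0) ∈ A.map toBot))) =
        EP (fun _ => sα lam q) (Ioc a (a + w)) (fun A =>
        F ((Ioc a (a + w)).filter (fun i => (i, 0) ∈ A.map toBot))) := by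
      apply EP_congr_par
      intro i _
      rw [toBot_apply]
      unfold par
      simp
    rw [e]
    apply EP_congr
    intro A hA
    congr 1
    ext i
    rw [mem_filter, mem_map_toBot]
    constructor
    · exact fun h => h.2.2
    · exact fun h => ⟨hA h, rfl, h⟩
  · rw [burke_right hl hq a w' (fun X => K (X ∩ Ioc 0 w')), hI]
    apply EP_congr
    intro A hA
    rw [inter_eq_left.2 hA]

theorem rightInc_sh_inter (A : Finset (ℕ × ℕ)) (a c b w : ℕ) (hc : c ≤ a) :
    rightInc A c (b + 1 + w) ∩ Ioc (b + 1) (b + 1 + w) =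
      (rightInc (sh a A) c (b + w) ∩ Ioc b (b + w)).map sc := by
  ext j
  rw [mem_inter, mem_Ioc, mem_map]
  have hb : b + 1 + w = b + w + 1 := by omega
  constructor
  · rintro ⟨h1, h2, h3⟩
    refine ⟨j - 1, ?_, by rw [sc_apply]; omega⟩
    rw [mem_inter, mem_Ioc]
    refine ⟨?_, by omega, by omega⟩
    rw [← rightInc_sh A a c (b + w) hc]
    have hj : j - 1 + 1 = j := by omega
    rw [hj, ← hb]
    exact ⟨h1, by omega⟩
  · rintro ⟨i, h, rfl⟩
    rw [mem_inter, mem_Ioc] at h
    rw [sc_apply, hb]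
    have := (rightInc_sh A a c (b + w) hc i).2 h.1
    exact ⟨this.1, by omega, by omega⟩

end T3

open T3 in
theorem burke_corner {lam q : ℝ} (hl : 0 < lam) (hq : 0 < q) (a b w w' : ℕ)
    (F K : Finset ℕ → ℝ) :
    EP (par lam q) (full (a + w) (b + w'))
      (fun A => F (topInc A (a + w) b ∩ Ioc a (a + w)) *
        K (rightInc A a (b + w') ∩ Ioc b (b + w'))) =
      EP (fun _ => sα lam q) (Ioc a (a + w)) F * EP (fun _ => sβ lam q) (Ioc b (b + w')) K := by
  induction b generalizing K with
  | zero =>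
    rw [zero_add]
    exact burke_corner_zero hl hq a w w' F K
  | succ b ih =>
    have hI : Ioc (b + 1) (b + 1 + w') = (Ioc b (b + w')).map sc := by
      ext j
      rw [mem_map, mem_Ioc]
      constructor
      · rintro ⟨h1, h2⟩
        exact ⟨j - 1, by rw [mem_Ioc]; omega, by rw [sc_apply]; omega⟩
      · rintro ⟨i, h, rfl⟩
        rw [mem_Ioc] at h
        rw [sc_apply]
        omega
    have hb : b + 1 + w' = b + w' + 1 := by omega
    have e := (EP_sh hl hq (a + w) (b + w') (fun A => F (topInc A (a + w) b ∩ Ioc a (a + w)) *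
        K ((rightInc A a (b + w') ∩ Ioc b (b + w')).map sc))).trans (ih (fun X => K (X.map sc)))
    simp only [topInc_sh] at e
    simp only [← rightInc_sh_inter _ (a + w) a b w' (by omega)] at e
    rw [← hb] at e
    rw [e, hI, EP_map]

end Pool.Agent.LPP
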