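import Pool.Agent.Lib.MP_6b8a80_h32.T4_Var

/-!
# T4: the Cator and Groeneboom variance bound
-/

set_option autoImplicit false

namespace Pool.Agent.LPP

open Finset

namespace CG

theorem sα_one (q : ℝ) : sα 1 q = q / (1 + q) := by unfold sα; simp

theorem sβ_one (q : ℝ) : sβ 1 q = q / (1 + q) := by unfold sβ; simp

theorem sα_le {l q : ℝ} (hl : 0 < l) (hq : 0 < q) : sα l q ≤ l * q := by
  unfold sα
  exact div_le_self (by positivity) (by nlinarith [mul_pos hl hq])

theorem sβ_le {l q : ℝ} (hl : 0 < l) (hq : 0 < q) : sβ l q ≤ q / l := by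
  unfold sβ
  exact div_le_div_of_nonneg_left hq.le hl (by linarith)

theorem sα_sub {e q : ℝ} (he : 0 ≤ e) (hq : 0 < q) :
    sα (1 + e) q - sα 1 q = e * q / ((1 + (1 + e) * q) * (1 + q)) := by
  unfold sα
  have h1 : 0 < 1 + (1 + e) * q := by positivity
  have h2 : 0 < 1 + q := by positivity
  field_simp
  ring

theorem sβ_sub {e q : ℝ} (he : 0 ≤ e) (hq : 0 < q) :
    sβ 1 q - sβ (1 + e) q = e * q / ((1 + e + q) * (1 + q)) := by
  unfold sβ
  have h1 : 0 < 1 + e + q := by positivity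
  have h2 : 0 < 1 + q := by positivity
  field_simp
  ring

/-- The gap between the means of the compared functionals. -/
theorem gap_bound {q a i : ℝ} (hq : 0 < q) (hq' : q ≤ 1 / 4) (ha : 0 < a) (hi : 0 < i)
    (hia : i ≤ a) :
    (a * sα (1 + i / (2 * a)) q + a * sβ (1 + i / (2 * a)) q - i * sα (1 + i / (2 * a)) q) +
      q * i ^ 2 / (8 * a) ≤ a * sα 1 q + a * sβ 1 q - i * sα 1 q := by
  set e := i / (2 * a) with he
  have he0 : 0 < e := by positivity
  have he1 : e ≤ 1 / 2 := by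
    rw [he, div_le_iff₀ (by positivity)]; linarith only [hia]
  have hae : a * e = i / 2 := by rw [he]; field_simp
  have h1 := sα_sub he0.le hq
  have h2 := sβ_sub he0.le hq
  set D := (1 + (1 + e) * q) * (1 + q) with hD
  have hD0 : 0 < D := by positivity
  have hD2 : D ≤ 2 := by
    rw [hD]
    have : (1 + e) * q ≤ 3 / 8 := by nlinarith only [he0, he1, hq, hq']
    nlinarith only [this, hq, hq', he0]
  -- the sum
  have hs : e * q / ((1 + e + q) * (1 + q)) ≥ e * q / D - e ^ 2 * q / D := by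
    have h3 : e * q / ((1 + e + q) * (1 + q)) - (e * q / D - e ^ 2 * q / D) =
        e * q * ((1 + (1 + e) * q) - (1 - e) * (1 + e + q)) /
          ((1 + e + q) * (1 + q) * (1 + (1 + e) * q)) := by
      rw [hD]
      have : 0 < 1 + e + q := by positivity
      have : 0 < 1 + q := by positivity
      have : 0 < 1 + (1 + e) * q := by positivity
      field_simp
    have h4 : (1 + (1 + e) * q) - (1 - e) * (1 + e + q) = e ^ 2 + 2 * e * q := by ring
    have h5 : 0 ≤ e * q / ((1 + e + q) * (1 + q)) - (e * q / D - e ^ 2 * q / D) := by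
      rw [h3, h4]; positivity
    linarith only [h5]
  have k1 : e * q / D ≥ e * q / 2 := div_le_div_of_nonneg_left (by positivity) hD0 hD2
  have k2 : i * (e * q / D) - a * (e ^ 2 * q / D) = i / 2 * (e * q / D) := by
    have : a * (e ^ 2 * q / D) = (a * e) * (e * q / D) := by ring
    rw [this, hae]; ring
  have k3 : i / 2 * (e * q / D) ≥ i / 2 * (e * q / 2) :=
    mul_le_mul_of_nonneg_left k1 (by positivity)
  have k4 : i / 2 * (e * q / 2) = q * i ^ 2 / (8 * a) := by
    rw [he]; field_simp; ring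
  have k5 : a * (e * q / D) - a * (e ^ 2 * q / D) ≤ a * (e * q / ((1 + e + q) * (1 + q))) := by
    rw [← mul_sub]
    exact mul_le_mul_of_nonneg_left hs ha.le
  rw [← h1] at k2 k3 k5
  rw [← h2] at k5
  linarith only [k2, k3, k4, k5]

theorem par_gap {q a i : ℝ} (hq : 0 < q) (hq' : q ≤ 1 / 4) (ha : 0 < a) (hi : 0 < i)
    (hia : i ≤ a) :
    a * (sα (1 + i / (2 * a)) q * (1 - sα (1 + i / (2 * a)) q) -
      sβ (1 + i / (2 * a)) q * (1 - sβ (1 + i / (2 * a)) q)) ≤ q * i := by
  set e := i / (2 * a) with he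
  have he0 : 0 < e := by positivity
  have he1 : e ≤ 1 / 2 := by
    rw [he, div_le_iff₀ (by positivity)]; linarith only [hia]
  have hae : a * e = i / 2 := by rw [he]; field_simp
  have h1 := sα_sub he0.le hq
  have h2 := sβ_sub he0.le hq
  have e0 : sα 1 q = sβ 1 q := by rw [sα_one, sβ_one]
  have h3 : sα (1 + e) q - sβ (1 + e) q ≤ 2 * e * q := by
    have h4 : e * q / ((1 + (1 + e) * q) * (1 + q)) ≤ e * q :=
      div_le_self (by positivity) (by nlinarith only [mul_pos he0 hq, he0, hq])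
    have h5 : e * q / ((1 + e + q) * (1 + q)) ≤ e * q :=
      div_le_self (by positivity) (by nlinarith only [mul_pos he0 hq, he0, hq])
    linarith only [h1, h2, e0, h4, h5]
  have h3' : 0 ≤ sα (1 + e) q - sβ (1 + e) q := by
    have h4 : 0 ≤ e * q / ((1 + (1 + e) * q) * (1 + q)) := by positivity
    have h5 : 0 ≤ e * q / ((1 + e + q) * (1 + q)) := by positivity
    linarith only [h1, h2, e0, h4, h5]
  have h6 := sα_nonneg (lam := 1 + e) (by positivity) hq
  have h7 := sβ_nonneg (lam := 1 + e) (by positivity) hq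
  have h8 : sα (1 + e) q * (1 - sα (1 + e) q) - sβ (1 + e) q * (1 - sβ (1 + e) q) ≤
      2 * e * q := by
    have : sα (1 + e) q * (1 - sα (1 + e) q) - sβ (1 + e) q * (1 - sβ (1 + e) q) =
      (sα (1 + e) q - sβ (1 + e) q) * (1 - (sα (1 + e) q + sβ (1 + e) q)) := by ring
    rw [this]
    refine le_trans (mul_le_of_le_one_right h3' (by linarith only [h6, h7])) h3
  have h9 := mul_le_mul_of_nonneg_left h8 ha.le
  have : a * (2 * e * q) = q * i := by
    have : a * (2 * e * q) = 2 * (a * e) * q := by ring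
    rw [this, hae]; ring
  linarith only [h9, this]

theorem EP_sub_bot {l q : ℝ} (hl : 0 < l) (hq : 0 < q) {a b i : ℕ} (hi : i ≤ a) :
    EP (par l q) (full a b) (fun A => (G A a b : ℝ) - (#(A ∩ bot i) : ℝ)) =
      a * sα l q + b * sβ l q - i * sα l q := by
  rw [EP_sub, EP_G hl hq, EP_card _ ((bot_mono hi).trans (bot_subset_full a b)), sum_par_bot]

theorem VP_sub_bot {l q : ℝ} (hl : 0 < l) (hq : 0 < q) (hq1 : q ≤ 1) {a b i : ℕ} (hi : i ≤ a) :
    VP (par l q) (full a b) (fun A => (G A a b : ℝ) - (#(A ∩ bot i) : ℝ)) ≤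
      2 * VP (par l q) (full a b) (fun A => (G A a b : ℝ)) + 2 * (i * (l * q)) := by
  refine le_trans (VP_sub_le (good_par hl hq hq1 _) _ _) ?_
  rw [VP_card _ ((bot_mono hi).trans (bot_subset_full a b)), sum_var_bot]
  have h0 := sα_nonneg hl hq
  have h1 := sα_le hl hq
  have h2 : sα l q * (1 - sα l q) ≤ l * q := by nlinarith only [h1, sq_nonneg (sα l q)]
  have h3 : (i : ℝ) * (sα l q * (1 - sα l q)) ≤ i * (l * q) :=
    mul_le_mul_of_nonneg_left h2 (by positivity)
  linarith only [h3]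

/-- Bound for the probability that the source `i` is pivotal. -/
theorem ps_bound {q : ℝ} (hq : 0 < q) (hq' : q ≤ 1 / 4) {a i : ℕ} (hi : 1 ≤ i) (hia : i ≤ a) :
    ps 1 q a a i ≤ (8 * VP (par 1 q) (full a a) (fun A => (G A a a : ℝ)) + 14 * (q * i)) /
      (q * i ^ 2 / (8 * a)) ^ 2 := by
  have hq1 : q ≤ 1 := by linarith only [hq, hq']
  have ha0 : (0 : ℝ) < a := by exact_mod_cast (by omega : 0 < a)
  have hi0 : (0 : ℝ) < i := by exact_mod_cast (by omega : 0 < i)
  have hia' : (i : ℝ) ≤ a := by exact_mod_cast hia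
  set e := (i : ℝ) / (2 * a) with he
  have he0 : 0 < e := by positivity
  have he1 : e ≤ 1 / 2 := by
    rw [he, div_le_iff₀ (by positivity)]; linarith only [hia']
  have hl : 0 < 1 + e := by positivity
  have hgap := gap_bound hq hq' ha0 hi0 hia'
  have hpar := par_gap hq hq' ha0 hi0 hia'
  rw [← he] at hgap hpar
  set V := VP (par 1 q) (full a a) (fun A => (G A a a : ℝ)) with hV
  have hV' : VP (par (1 + e) q) (full a a) (fun A => (G A a a : ℝ)) ≤ V + q * i := by
    have h1 := VP_G_le (l := 1) (l' := 1 + e) (q := q) one_pos (by linarith only [he0]) hq hq1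
      (by rw [sβ_one, div_le_iff₀ (by positivity)]; linarith only [hq, hq']) a a
    have e0 : sα 1 q = sβ 1 q := by rw [sα_one, sβ_one]
    rw [e0] at h1
    linarith only [h1, hpar]
  have key := PP_le_of_cpl (good_par one_pos hq hq1 (full a a)) (good_par hl hq hq1 (full a a))
    (fun A => G (A.erase (i, 0)) a a < G (insert (i, 0) A) a a)
    (fun A => (G A a a : ℝ) - (#(A ∩ bot i) : ℝ)) (fun A => (G A a a : ℝ) - (#(A ∩ bot i) : ℝ))
    (Δ := q * i ^ 2 / (8 * a)) (by positivity)
    (by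
      intro A hA B hB hc hP
      obtain ⟨h1, h2, -⟩ := cpl_par one_pos (by linarith only [he0]) hq hA hB hc
      have h3 := compare_of_pivotal hi h1 h2 hP
      have h4 : (G A a a : ℝ) + #(B ∩ bot i) ≤ G B a a + #(A ∩ bot i) := by exact_mod_cast h3
      linarith only [h4])
    (by
      rw [EP_sub_bot hl hq hia, EP_sub_bot one_pos hq hia]
      exact hgap)
  refine le_trans key ?_
  apply div_le_div_of_nonneg_right _ (by positivity)
  have v1 := VP_sub_bot (b := a) hl hq hq1 hia
  have v2 := VP_sub_bot (b := a) (l := 1) one_pos hq hq1 hia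
  rw [← hV] at v2
  have v3 : (i : ℝ) * ((1 + e) * q) ≤ 3 / 2 * (q * i) := by
    have : (i : ℝ) * ((1 + e) * q) = (1 + e) * (q * i) := by ring
    rw [this]
    exact mul_le_mul_of_nonneg_right (by linarith only [he1]) (by positivity)
  have v4 : (i : ℝ) * (1 * q) = q * i := by ring
  rw [v4] at v2
  linarith only [v1, v2, v3, hV']

/-- The sum of the pivotal probabilities. -/
theorem sum_ps_le {q : ℝ} (hq : 0 < q) (hq' : q ≤ 1 / 4) {a m : ℕ} (hm : 1 ≤ m) (V : ℝ)
    (hV : V = VP (par 1 q) (full a a) (fun A => (G A a a : ℝ))) (hV0 : 0 ≤ V) :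
    ∑ i ∈ Icc 1 a, ps 1 q a a i ≤
      m + (512 * a ^ 2 * V / (q ^ 2 * m ^ 2) + 896 * a ^ 2 / (q * m)) * (1 / m) := by
  have hq1 : q ≤ 1 := by linarith only [hq, hq']
  have hm0 : (0 : ℝ) < m := by exact_mod_cast (by omega : 0 < m)
  set K := 512 * a ^ 2 * V / (q ^ 2 * m ^ 2) + 896 * a ^ 2 / (q * m) with hK
  have hK0 : 0 ≤ K := by positivity
  have h1 : ∑ i ∈ Icc 1 a, ps 1 q a a i ≤
      ∑ i ∈ Icc 1 m ∪ Ioc m a, ps 1 q a a i := by
    refine sum_le_sum_of_subset_of_nonneg ?_ fun i _ _ => ps_nonneg one_pos hq hq1 a a i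
    intro i hi
    simp only [mem_union, mem_Icc, mem_Ioc] at hi ⊢
    omega
  have hd : Disjoint (Icc 1 m) (Ioc m a) := by
    rw [disjoint_left]
    intro i h1 h2
    simp only [mem_Icc, mem_Ioc] at h1 h2
    omega
  rw [sum_union hd] at h1
  have h2 : ∑ i ∈ Icc 1 m, ps 1 q a a i ≤ m := by
    refine le_trans (sum_le_sum fun i _ => ps_le_one one_pos hq hq1 a a i) ?_
    simp
  have h3 : ∑ i ∈ Ioc m a, ps 1 q a a i ≤ K * (1 / m) := by
    have h4 : ∀ i ∈ Ioc m a, ps 1 q a a i ≤ K * ((i : ℝ) ^ 2)⁻¹ := by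
      intro i hi
      rw [mem_Ioc] at hi
      refine le_trans (ps_bound hq hq' (by omega) hi.2) ?_
      rw [← hV]
      have hi0 : (0 : ℝ) < i := by exact_mod_cast (by omega : 0 < i)
      have hmi : (m : ℝ) ≤ i := by exact_mod_cast hi.1.le
      have ha0 : (0 : ℝ) < a := by exact_mod_cast (by omega : 0 < a)
      have e1 : (8 * V + 14 * (q * i)) / (q * i ^ 2 / (8 * a)) ^ 2 =
          (512 * a ^ 2 * V / (q ^ 2 * i ^ 2) + 896 * a ^ 2 / (q * i)) * ((i : ℝ) ^ 2)⁻¹ := by
        field_simp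
        ring
      rw [e1]
      refine mul_le_mul_of_nonneg_right ?_ (inv_nonneg.2 (sq_nonneg _))
      refine add_le_add ?_ ?_
      · refine div_le_div_of_nonneg_left (mul_nonneg (mul_nonneg (by norm_num) (sq_nonneg _)) hV0)
          (mul_pos (pow_pos hq 2) (pow_pos hm0 2)) ?_
        exact mul_le_mul_of_nonneg_left (pow_le_pow_left₀ hm0.le hmi 2) (sq_nonneg _)
      · refine div_le_div_of_nonneg_left (mul_nonneg (by norm_num) (sq_nonneg _))
          (mul_pos hq hm0) ?_
        exact mul_le_mul_of_nonneg_left hmi hq.le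
    refine le_trans (sum_le_sum h4) ?_
    rw [← mul_sum]
    refine mul_le_mul_of_nonneg_left ?_ hK0
    rcases le_or_gt m a with hma | hma
    · refine le_trans (sum_Ioc_inv_sq_le_sub (by omega) hma) ?_
      have : (0 : ℝ) ≤ (a : ℝ)⁻¹ := by positivity
      rw [one_div]; linarith only [this]
    · rw [Ioc_eq_empty (by omega)]
      simp
  linarith only [h1, h2, h3]

end CG

open CG

theorem cg_var {q : ℝ} (hq : 0 < q) (hq' : q ≤ 1 / 4) (a : ℕ) (ha : 1 ≤ q * a) :
    VP (par 1 q) (full a a) (fun A => (G A a a : ℝ)) ≤ 100 * (q * a) ^ ((2 : ℝ) / 3) := by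
  have hq1 : q ≤ 1 := by linarith
  set V := VP (par 1 q) (full a a) (fun A => (G A a a : ℝ)) with hV
  have hV0 : 0 ≤ V := VP_nonneg (good_par one_pos hq hq1 _) _
  set N := q * a with hN
  set c := N ^ ((2 : ℝ) / 3) with hc
  have hN0 : 0 < N := by linarith only [ha]
  have hc1 : 1 ≤ c := Real.one_le_rpow ha (by norm_num)
  have hc3 : c ^ 3 = N ^ 2 := by
    rw [hc, ← Real.rpow_natCast, ← Real.rpow_mul hN0.le]
    norm_num
  -- choice of m
  set m := ⌈14 * c / q⌉₊ with hm
  have hm1 : 1 ≤ m := by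
    rw [hm]
    exact Nat.one_le_iff_ne_zero.2 (Nat.pos_iff_ne_zero.1 (Nat.ceil_pos.2 (div_pos (mul_pos (by norm_num) (one_pos.trans_le hc1)) hq)))
  have hmlo : 14 * c ≤ q * m := by
    have := Nat.le_ceil (14 * c / q)
    rw [← hm, div_le_iff₀ hq] at this
    linarith only [this]
  have hmhi : q * m ≤ 14 * c + q := by
    have := (Nat.ceil_lt_add_one (show 0 ≤ 14 * c / q from
      div_nonneg (mul_nonneg (by norm_num) (zero_le_one.trans hc1)) hq.le)).le
    rw [← hm] at this
    have h2 := mul_le_mul_of_nonneg_left this hq.le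
    have h3 : q * (14 * c / q + 1) = 14 * c + q := by field_simp
    linarith only [h2, h3]
  have hm0 : (0 : ℝ) < m := by exact_mod_cast (by omega : 0 < m)
  have hsum := sum_ps_le hq hq' (a := a) hm1 V hV hV0
  have hvar := VP_G_bot (lam := 1) one_pos hq a a
  rw [← hV, sα_one, sβ_one] at hvar
  have hα : q / (1 + q) * (1 - q / (1 + q)) ≤ q := by
    have h1 : q / (1 + q) ≤ q := div_le_self hq.le (by linarith only [hq])
    have h2 : 0 ≤ q / (1 + q) := div_nonneg hq.le (by linarith only [hq])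
    nlinarith only [h1, h2]
  have hs0 : 0 ≤ ∑ i ∈ Icc 1 a, ps 1 q a a i :=
    sum_nonneg fun i _ => ps_nonneg one_pos hq hq1 a a i
  have hV1 : V ≤ 2 * (q * ∑ i ∈ Icc 1 a, ps 1 q a a i) := by
    have := mul_le_mul_of_nonneg_right hα hs0
    linarith only [this, hvar]
  have hV2 : V ≤ 2 * (q * m) + 2 * (512 * N ^ 2 * V / (q * m) ^ 3) +
      2 * (896 * N ^ 2 / (q * m) ^ 2) := by
    have h1 := mul_le_mul_of_nonneg_left hsum hq.le
    have h2 : q * (m + (512 * a ^ 2 * V / (q ^ 2 * m ^ 2) + 896 * a ^ 2 / (q * m)) * (1 / m)) =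
        q * m + 512 * N ^ 2 * V / (q * m) ^ 3 + 896 * N ^ 2 / (q * m) ^ 2 := by
      rw [hN]
      field_simp
      ring
    rw [h2] at h1
    linarith only [h1, hV1]
  have hqm : 0 < q * m := mul_pos hq hm0
  have t1 : 512 * N ^ 2 * V / (q * m) ^ 3 ≤ 512 / 2744 * V := by
    rw [div_le_iff₀ (pow_pos hqm 3)]
    have h1 : 2744 * N ^ 2 ≤ (q * m) ^ 3 := by
      have := pow_le_pow_left₀ (mul_nonneg (by norm_num) (zero_le_one.trans hc1)) hmlo 3
      rw [mul_pow, hc3] at this
      norm_num at this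
      linarith only [this]
    have h2 := mul_le_mul_of_nonneg_left h1 (show 0 ≤ 512 / 2744 * V from
      mul_nonneg (by norm_num) hV0)
    linarith only [h2]
  have t2 : 896 * N ^ 2 / (q * m) ^ 2 ≤ 896 / 196 * c := by
    rw [div_le_iff₀ (pow_pos hqm 2)]
    have h1 : 196 * c ^ 2 ≤ (q * m) ^ 2 := by
      have := pow_le_pow_left₀ (mul_nonneg (by norm_num) (zero_le_one.trans hc1)) hmlo 2
      rw [mul_pow] at this
      norm_num at this
      linarith only [this]
    have h2 := mul_le_mul_of_nonneg_left h1 (show 0 ≤ 896 / 196 * c from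
      mul_nonneg (by norm_num) (zero_le_one.trans hc1))
    have h3 : 896 / 196 * c * (196 * c ^ 2) = 896 * N ^ 2 := by rw [← hc3]; ring
    linarith only [h2, h3]
  linarith only [hV2, t1, t2, hmhi, hc1, hq']

end Pool.Agent.LPP
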