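import Pool.Agent.Lib.MP_6b8a80_h32.T1_EP
import Pool.Agent.Lib.MP_6b8a80_h32.T2c_Path
import Pool.Agent.Lib.MP_6b8a80_h32.T3_Burke

/-!
# T4, general probabilistic lemmas: comparison through the monotone coupling
-/

set_option autoImplicit false

namespace Pool.Agent.LPP

open Finset

namespace CG

section general

variable {α : Type*} [DecidableEq α]

/-- The relation satisfied by the monotone coupling. -/
def Cpl (π π' : α → ℝ) (S A B : Finset α) : Prop :=
  ∀ i ∈ S, (π i ≤ π' i → i ∈ A → i ∈ B) ∧ (π' i ≤ π i → i ∈ B → i ∈ A)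

theorem EP_le_of_cpl {π π' : α → ℝ} {S : Finset α} (hπ : Good π S) (hπ' : Good π' S)
    (f g : Finset α → ℝ) (h : ∀ A ⊆ S, ∀ B ⊆ S, Cpl π π' S A B → f A ≤ g B) :
    EP π S f ≤ EP π' S g := by
  obtain ⟨W, hW0, hW1, hW2, hW3⟩ := exists_coupling hπ hπ'
  rw [← hW1 f, ← hW2 g]
  refine sum_le_sum fun A hA => sum_le_sum fun B hB => ?_
  by_cases hw : W A B = 0
  · simp [hw]
  · exact mul_le_mul_of_nonneg_left
      (h A (mem_powerset.1 hA) B (mem_powerset.1 hB) (hW3 A hA B hB hw)) (hW0 A B)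

theorem PP_le_of_cpl {π π' : α → ℝ} {S : Finset α} (hπ : Good π S) (hπ' : Good π' S)
    (P : Finset α → Prop) (H F : Finset α → ℝ) {Δ : ℝ} (hΔ : 0 < Δ)
    (h : ∀ A ⊆ S, ∀ B ⊆ S, Cpl π π' S A B → P A → H A ≤ F B)
    (hgap : EP π' S F + Δ ≤ EP π S H) :
    PP π S P ≤ (2 * VP π' S F + 2 * VP π S H) / Δ ^ 2 := by
  classical
  obtain ⟨W, hW0, hW1, hW2, hW3⟩ := exists_coupling hπ hπ'
  rw [le_div_iff₀ (by positivity)]
  have e1 : PP π S P * Δ ^ 2 = ∑ A ∈ S.powerset, ∑ B ∈ S.powerset,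
      W A B * ((if P A then 1 else 0) * Δ ^ 2) := by
    unfold PP
    rw [← hW1, sum_mul]
    refine sum_congr rfl fun A _ => ?_
    rw [sum_mul]
    refine sum_congr rfl fun B _ => ?_
    rw [mul_assoc]
  have e2 : 2 * VP π' S F + 2 * VP π S H = ∑ A ∈ S.powerset, ∑ B ∈ S.powerset,
      W A B * (2 * (F B - EP π' S F) ^ 2 + 2 * (H A - EP π S H) ^ 2) := by
    unfold VP
    rw [← hW1 (fun A => (H A - EP π S H) ^ 2), ← hW2 (fun B => (F B - EP π' S F) ^ 2)]
    rw [mul_sum, mul_sum, ← sum_add_distrib]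
    refine sum_congr rfl fun A _ => ?_
    rw [mul_sum, mul_sum, ← sum_add_distrib]
    refine sum_congr rfl fun B _ => ?_
    ring
  rw [e1, e2]
  refine sum_le_sum fun A hA => sum_le_sum fun B hB => ?_
  by_cases hw : W A B = 0
  · simp [hw]
  · refine mul_le_mul_of_nonneg_left ?_ (hW0 A B)
    by_cases hP : P A
    · have h1 := h A (mem_powerset.1 hA) B (mem_powerset.1 hB) (hW3 A hA B hB hw) hP
      rw [if_pos hP, one_mul]
      have h2 : Δ ≤ (F B - EP π' S F) - (H A - EP π S H) := by linarith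
      have h3 : Δ ^ 2 ≤ ((F B - EP π' S F) - (H A - EP π S H)) ^ 2 :=
        pow_le_pow_left₀ hΔ.le h2 2
      have h4 : 0 ≤ ((F B - EP π' S F) + (H A - EP π S H)) ^ 2 := sq_nonneg _
      linarith [h3, h4]
    · rw [if_neg hP, zero_mul]
      positivity

/-- `Var X = Var (X - Y) - Var Y + 2 Cov (Y, X)`. -/
theorem VP_split (π : α → ℝ) (S : Finset α) (X Y Z : Finset α → ℝ)
    (h : ∀ A ⊆ S, X A = Y A + Z A) :
    VP π S X = VP π S Z - VP π S Y + 2 * EP π S (fun A => (Y A - EP π S Y) * X A) := by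
  have hX : EP π S X = EP π S Y + EP π S Z := by
    rw [EP_congr π S h, EP_add]
  have e : EP π S (fun A => (Y A - EP π S Y) * X A) =
      EP π S (fun A => Y A * X A) - EP π S Y * EP π S X := by
    rw [← EP_const_mul, ← EP_sub]
    refine EP_congr π S fun A _ => by ring
  rw [e, VP_eq, VP_eq, VP_eq, hX]
  have e2 : EP π S (fun A => Z A ^ 2) = EP π S (fun A => X A ^ 2) -
      2 * EP π S (fun A => Y A * X A) + EP π S (fun A => Y A ^ 2) := by
    rw [← EP_const_mul, ← EP_sub, ← EP_add]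
    refine EP_congr π S fun A hA => ?_
    rw [h A hA]; ring
  rw [e2]; ring

theorem VP_congr (π : α → ℝ) (S : Finset α) {f g : Finset α → ℝ} (h : ∀ A ⊆ S, f A = g A) :
    VP π S f = VP π S g := by
  unfold VP
  rw [EP_congr π S h]
  exact EP_congr π S fun A hA => by rw [h A hA]

theorem VP_inter (π : α → ℝ) {S T : Finset α} (hT : T ⊆ S) (f : Finset α → ℝ) :
    VP π S (fun A => f (A ∩ T)) = VP π T f := by
  unfold VP
  rw [EP_inter π hT f]
  exact EP_inter π hT (fun A => (f A - EP π T f) ^ 2)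

theorem VP_neg (π : α → ℝ) (S : Finset α) (f : Finset α → ℝ) :
    VP π S (fun A => - f A) = VP π S f := by
  unfold VP
  have : EP π S (fun A => - f A) = - EP π S f := by
    have := EP_const_mul π S (-1) f
    simpa using this
  rw [this]
  exact EP_congr π S fun A _ => by ring

theorem VP_sub_le {π : α → ℝ} {S : Finset α} (hπ : Good π S) (f g : Finset α → ℝ) :
    VP π S (fun A => f A - g A) ≤ 2 * VP π S f + 2 * VP π S g := by
  have := VP_add_le hπ f (fun A => - g A)
  rw [VP_neg] at this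
  simpa [sub_eq_add_neg] using this

/-- Expectation of a `0`-`1` derivative. -/
theorem EP_Dx_eq (π : α → ℝ) (S : Finset α) (x : α) (g : Finset α → ℕ)
    (h1 : ∀ A ⊆ S, g (A.erase x) ≤ g (insert x A))
    (h2 : ∀ A ⊆ S, g (insert x A) ≤ g (A.erase x) + 1) :
    EP π S (Dx x (fun A => (g A : ℝ))) = PP π S (fun A => g (A.erase x) < g (insert x A)) := by
  classical
  unfold PP
  refine EP_congr π S fun A hA => ?_
  have h1' := h1 A hA
  have h2' := h2 A hA
  unfold Dx
  by_cases h : g (A.erase x) < g (insert x A)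
  · have : (g (insert x A) : ℝ) = g (A.erase x) + 1 := by
      exact_mod_cast (by omega : g (insert x A) = g (A.erase x) + 1)
    rw [if_pos h]
    simp only [this]
    ring
  · have : (g (insert x A) : ℝ) = g (A.erase x) := by
      exact_mod_cast (by omega : g (insert x A) = g (A.erase x))
    rw [if_neg h]
    simp only [this]
    ring

theorem PP_le_of_cpl_imp {π π' : α → ℝ} {S : Finset α} (hπ : Good π S) (hπ' : Good π' S)
    (P Q : Finset α → Prop) (h : ∀ A ⊆ S, ∀ B ⊆ S, Cpl π π' S A B → P A → Q B) :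
    PP π S P ≤ PP π' S Q := by
  classical
  unfold PP
  refine EP_le_of_cpl hπ hπ' _ _ fun A hA B hB hc => ?_
  by_cases hP : P A
  · rw [if_pos hP, if_pos (h A hA B hB hc hP)]
  · rw [if_neg hP]
    split_ifs <;> norm_num

end general

/-! ### The stationary model -/

theorem sα_nonneg {lam q : ℝ} (hl : 0 < lam) (hq : 0 < q) : 0 ≤ sα lam q := by
  unfold sα; positivity

theorem sα_le_one {lam q : ℝ} (hl : 0 < lam) (hq : 0 < q) : sα lam q ≤ 1 := by
  unfold sα
  rw [div_le_one (by positivity)]; linarith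

theorem sβ_nonneg {lam q : ℝ} (hl : 0 < lam) (hq : 0 < q) : 0 ≤ sβ lam q := by
  unfold sβ; positivity

theorem sβ_le_one {lam q : ℝ} (hl : 0 < lam) (hq : 0 < q) : sβ lam q ≤ 1 := by
  unfold sβ
  rw [div_le_one (by positivity)]; linarith

theorem good_par {lam q : ℝ} (hl : 0 < lam) (hq : 0 < q) (hq1 : q ≤ 1) (S : Finset (ℕ × ℕ)) :
    Good (par lam q) S := by
  intro x _
  unfold par
  split_ifs
  · exact ⟨sα_nonneg hl hq, sα_le_one hl hq⟩
  · exact ⟨sβ_nonneg hl hq, sβ_le_one hl hq⟩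
  · exact ⟨by positivity, by nlinarith⟩

theorem bot_subset_full (a b : ℕ) : bot a ⊆ full a b := by
  intro x hx; simp only [full, mem_union]; tauto

theorem lef_subset_full (a b : ℕ) : lef b ⊆ full a b := by
  intro x hx; simp only [full, mem_union]; tauto

theorem bot_mono {i a : ℕ} (h : i ≤ a) : bot i ⊆ bot a := by
  intro x hx
  simp only [bot, mem_product, mem_Icc, mem_singleton] at hx ⊢
  omega

theorem lef_mono {i a : ℕ} (h : i ≤ a) : lef i ⊆ lef a := by
  intro x hx
  simp only [lef, mem_product, mem_Icc, mem_singleton] at hx ⊢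
  omega

theorem full_mono {a a' b b' : ℕ} (h : a ≤ a') (h' : b ≤ b') : full a b ⊆ full a' b' := by
  intro x hx
  simp only [full, bot, lef, box, mem_union, mem_product, mem_Icc, mem_singleton] at hx ⊢
  omega

theorem card_bot (a : ℕ) : #(bot a) = a := by
  simp only [bot, card_product, Nat.card_Icc, card_singleton]; omega

theorem card_lef (b : ℕ) : #(lef b) = b := by
  simp only [lef, card_product, Nat.card_Icc, card_singleton]; omega

theorem par_bot {lam q : ℝ} {a : ℕ} {x : ℕ × ℕ} (hx : x ∈ bot a) : par lam q x = sα lam q := by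
  simp only [bot, mem_product, mem_Icc, mem_singleton] at hx
  unfold par
  rw [if_pos hx.2]

theorem par_lef {lam q : ℝ} {b : ℕ} {x : ℕ × ℕ} (hx : x ∈ lef b) : par lam q x = sβ lam q := by
  simp only [lef, mem_product, mem_Icc, mem_singleton] at hx
  unfold par
  rw [if_neg (by omega), if_pos hx.1]

theorem sum_par_bot (lam q : ℝ) (a : ℕ) : ∑ x ∈ bot a, par lam q x = a * sα lam q := by
  rw [sum_congr rfl fun x hx => par_bot hx, sum_const, card_bot, nsmul_eq_mul]

theorem sum_par_lef (lam q : ℝ) (b : ℕ) : ∑ x ∈ lef b, par lam q x = b * sβ lam q := by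
  rw [sum_congr rfl fun x hx => par_lef hx, sum_const, card_lef, nsmul_eq_mul]

theorem sum_var_bot (lam q : ℝ) (a : ℕ) :
    ∑ x ∈ bot a, par lam q x * (1 - par lam q x) = a * (sα lam q * (1 - sα lam q)) := by
  rw [sum_congr rfl fun x hx => by rw [par_bot hx], sum_const, card_bot, nsmul_eq_mul]

theorem sum_var_lef (lam q : ℝ) (b : ℕ) :
    ∑ x ∈ lef b, par lam q x * (1 - par lam q x) = b * (sβ lam q * (1 - sβ lam q)) := by
  rw [sum_congr rfl fun x hx => by rw [par_lef hx], sum_const, card_lef, nsmul_eq_mul]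

/-- mean and variance of a number of increments -/
theorem EP_rightInc {lam q : ℝ} (hl : 0 < lam) (hq : 0 < q) (a b : ℕ) :
    EP (par lam q) (full a b) (fun A => (#(rightInc A a b) : ℝ)) = b * sβ lam q := by
  rw [burke_right hl hq a b (fun R => (#R : ℝ))]
  have := EP_card (fun _ : ℕ => sβ lam q) (S := Icc 1 b) (T := Icc 1 b) (Subset.refl _)
  rw [sum_const, Nat.card_Icc, nsmul_eq_mul] at this
  rw [EP_congr _ _ (g := fun A => (#(A ∩ Icc 1 b) : ℝ)), this]
  · norm_num
  · intro A hA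
    rw [inter_eq_left.2 hA]

theorem VP_of_burke {ι : Type*} [DecidableEq ι] {π : ι → ℝ} {S : Finset ι} {K : Finset ℕ}
    {ρ : ℕ → ℝ} (R : Finset ι → Finset ℕ)
    (h : ∀ F : Finset ℕ → ℝ, EP π S (fun A => F (R A)) = EP ρ K F) (F : Finset ℕ → ℝ) :
    VP π S (fun A => F (R A)) = VP ρ K F := by
  unfold VP
  rw [h F]
  exact h (fun X => (F X - EP ρ K F) ^ 2)

theorem VP_rightInc {lam q : ℝ} (hl : 0 < lam) (hq : 0 < q) (a b : ℕ) :
    VP (par lam q) (full a b) (fun A => (#(rightInc A a b) : ℝ)) =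
      b * (sβ lam q * (1 - sβ lam q)) := by
  rw [VP_of_burke (fun A => rightInc A a b) (fun F => burke_right hl hq a b F) (fun R => (#R : ℝ))]
  have := VP_card (fun _ : ℕ => sβ lam q) (S := Icc 1 b) (T := Icc 1 b) (Subset.refl _)
  rw [sum_const, Nat.card_Icc, nsmul_eq_mul] at this
  rw [VP_congr _ _ (g := fun A => (#(A ∩ Icc 1 b) : ℝ)), this]
  · norm_num
  · intro A hA
    rw [inter_eq_left.2 hA]

theorem VP_topInc {lam q : ℝ} (hl : 0 < lam) (hq : 0 < q) (a b : ℕ) :
    VP (par lam q) (full a b) (fun A => (#(topInc A a b) : ℝ)) =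
      a * (sα lam q * (1 - sα lam q)) := by
  rw [VP_of_burke (fun A => topInc A a b) (fun F => burke_top hl hq a b F) (fun R => (#R : ℝ))]
  have := VP_card (fun _ : ℕ => sα lam q) (S := Icc 1 a) (T := Icc 1 a) (Subset.refl _)
  rw [sum_const, Nat.card_Icc, nsmul_eq_mul] at this
  rw [VP_congr _ _ (g := fun A => (#(A ∩ Icc 1 a) : ℝ)), this]
  · norm_num
  · intro A hA
    rw [inter_eq_left.2 hA]

/-- Mean of the stationary passage time. -/
theorem EP_G {lam q : ℝ} (hl : 0 < lam) (hq : 0 < q) (a b : ℕ) :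
    EP (par lam q) (full a b) (fun A => (G A a b : ℝ)) = a * sα lam q + b * sβ lam q := by
  rw [EP_congr _ _ (g := fun A => (#(A ∩ bot a) : ℝ) + (#(rightInc A a b) : ℝ))
    (fun A _ => by rw [G_eq_bot_add_right A a b]; push_cast; rfl)]
  rw [EP_add, EP_card _ (bot_subset_full a b), sum_par_bot, EP_rightInc hl hq]

end CG

end Pool.Agent.LPP
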