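import Pool.Agent.Lib.MP_6b8a80_h32.T4_CG

/-!
# T4: exit point probabilities
-/

set_option autoImplicit false

namespace Pool.Agent.LPP

open Finset

namespace CG

theorem noBot_sub {A B : Finset (ℕ × ℕ)} {a b : ℕ} (hA : A ⊆ full a b) (hbulk : bulk A = bulk B)
    (hlef : ∀ j, 1 ≤ j → j ≤ b → (0, j) ∈ A → (0, j) ∈ B) : noBot A ⊆ B := by
  intro x hx
  simp only [noBot, mem_filter] at hx
  have hf := hA hx.1
  by_cases h1 : x.1 = 0
  · simp only [full, bot, lef, box, mem_union, mem_product, mem_Icc, mem_singleton] at hf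
    have hx2 : x = (0, x.2) := Prod.ext h1 rfl
    rw [hx2]
    refine hlef x.2 (by omega) (by omega) ?_
    rw [← hx2]; exact hx.1
  · have : x ∈ bulk A := by
      simp only [bulk, mem_filter]
      exact ⟨hx.1, h1, hx.2⟩
    rw [hbulk] at this
    simp only [bulk, mem_filter] at this
    exact this.1

/-- Variance in the box `a × b` at the critical parameter. -/
theorem VP_G_ab {q : ℝ} (hq : 0 < q) (hq' : q ≤ 1 / 4) {a b : ℕ} (ha : 1 ≤ q * a) (hab : a ≤ b) :
    VP (par 1 q) (full a b) (fun A => (G A a b : ℝ)) ≤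
      200 * (q * a) ^ ((2 : ℝ) / 3) + 2 * (q * ((b : ℝ) - a)) := by
  have hq1 : q ≤ 1 := by linarith
  obtain ⟨w, rfl⟩ := Nat.exists_eq_add_of_le hab
  have h1 : ∀ A ⊆ full a (a + w), (G A a (a + w) : ℝ) =
      (G A a a : ℝ) + (#(rightInc A a (a + w) ∩ Ioc a (a + w)) : ℝ) := by
    intro A _
    rw [G_sub_eq_rightInc A a a w]; push_cast; rfl
  rw [VP_congr _ _ h1]
  refine le_trans (VP_add_le (good_par one_pos hq hq1 _) _ _) ?_
  have h2 : VP (par 1 q) (full a (a + w)) (fun A => (G A a a : ℝ)) =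
      VP (par 1 q) (full a a) (fun A => (G A a a : ℝ)) := by
    have := VP_inter (par 1 q) (full_mono (le_refl a) (Nat.le_add_right a w))
      (fun A => (G A a a : ℝ))
    rw [← this]
    exact VP_congr _ _ fun A _ => by rw [G_inter_full]
  have h3 : VP (par 1 q) (full a (a + w))
      (fun A => (#(rightInc A a (a + w) ∩ Ioc a (a + w)) : ℝ)) ≤ q * w := by
    rw [VP_of_burke (fun A => rightInc A a (a + w)) (fun F => burke_right one_pos hq a (a + w) F)
      (fun R => (#(R ∩ Ioc a (a + w)) : ℝ))]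
    have hs : Ioc a (a + w) ⊆ Icc 1 (a + w) := by
      intro x hx; rw [mem_Ioc] at hx; rw [mem_Icc]; omega
    have := VP_card (fun _ : ℕ => sβ 1 q) hs
    rw [this, sum_const, Nat.card_Ioc, nsmul_eq_mul, sβ_one]
    have e : ((a + w - a : ℕ) : ℝ) = w := by rw [Nat.add_sub_cancel_left]
    rw [e]
    have h5 : q / (1 + q) ≤ q := div_le_self hq.le (by linarith)
    have h6 : 0 ≤ q / (1 + q) := by positivity
    have h7 : q / (1 + q) * (1 - q / (1 + q)) ≤ q := by nlinarith only [h5, h6]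
    have := mul_le_mul_of_nonneg_left h7 (Nat.cast_nonneg (α := ℝ) w)
    linarith only [this]
  have h4 := cg_var hq hq' a ha
  rw [h2]
  push_cast
  have e : (a : ℝ) + w - a = w := by ring
  rw [e]
  linarith only [h4, h3]

theorem exit_gap {q δ a b : ℝ} (hq : 0 < q) (hq' : q ≤ 1 / 4) (hδ : 0 < δ)
    (hlam : (1 + δ) * q ≤ 1 / 4) (ha : 0 < a) (hba : b - a ≤ a * δ / 10) :
    (a * sα 1 q + b * sβ 1 q) + q * a * δ ^ 2 / (4 * (1 + δ)) ≤
      a * sα (1 + δ) q + b * sβ (1 + δ) q := by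
  have h1 := sα_sub hδ.le hq
  have h2 := sβ_sub hδ.le hq
  have p1 : 0 < 1 + (1 + δ) * q := by positivity
  have p2 : 0 < 1 + q := by positivity
  have p3 : 0 < 1 + δ + q := by positivity
  have p4 : 0 < 1 + δ := by positivity
  have key : a * (δ * q / ((1 + (1 + δ) * q) * (1 + q))) - b * (δ * q / ((1 + δ + q) * (1 + q))) =
      δ * q * (a * δ * (1 - q) - (b - a) * (1 + (1 + δ) * q)) /
        ((1 + (1 + δ) * q) * (1 + δ + q) * (1 + q)) := by
    field_simp
    ring
  have n1 : 5 / 8 * (a * δ) ≤ a * δ * (1 - q) - (b - a) * (1 + (1 + δ) * q) := by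
    have m1 : a * δ * (1 - q) ≥ a * δ * (3 / 4) :=
      mul_le_mul_of_nonneg_left (by linarith only [hq']) (by positivity)
    have m2 : (b - a) * (1 + (1 + δ) * q) ≤ a * δ / 10 * (5 / 4) :=
      mul_le_mul hba (by linarith only [hlam]) p1.le (by positivity)
    linarith only [m1, m2]
  have n2 : (1 + (1 + δ) * q) * (1 + δ + q) * (1 + q) ≤ 2 * (1 + δ) := by
    have m1 : (1 + (1 + δ) * q) * (1 + q) ≤ 5 / 4 * (5 / 4) :=
      mul_le_mul (by linarith only [hlam]) (by linarith only [hq']) p2.le (by norm_num)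
    have m2 : 1 + δ + q ≤ 5 / 4 * (1 + δ) := by linarith only [hδ, hq']
    have m3 : (1 + (1 + δ) * q) * (1 + q) * (1 + δ + q) ≤ 5 / 4 * (5 / 4) * (5 / 4 * (1 + δ)) :=
      mul_le_mul m1 m2 p3.le (by norm_num)
    linarith only [m3, p4]
  have n3 : q * a * δ ^ 2 / (4 * (1 + δ)) ≤
      δ * q * (a * δ * (1 - q) - (b - a) * (1 + (1 + δ) * q)) /
        ((1 + (1 + δ) * q) * (1 + δ + q) * (1 + q)) := by
    rw [div_le_div_iff₀ (by positivity) (by positivity)]
    have m1 : q * a * δ ^ 2 * ((1 + (1 + δ) * q) * (1 + δ + q) * (1 + q)) ≤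
        q * a * δ ^ 2 * (2 * (1 + δ)) := mul_le_mul_of_nonneg_left n2 (by positivity)
    have m2 : δ * q * (5 / 8 * (a * δ)) * (4 * (1 + δ)) ≤
        δ * q * (a * δ * (1 - q) - (b - a) * (1 + (1 + δ) * q)) * (4 * (1 + δ)) :=
      mul_le_mul_of_nonneg_right (mul_le_mul_of_nonneg_left n1 (by positivity)) (by positivity)
    have m3 : q * a * δ ^ 2 * (2 * (1 + δ)) ≤ δ * q * (5 / 8 * (a * δ)) * (4 * (1 + δ)) := by
      have : 0 ≤ q * a * δ ^ 2 * (1 + δ) := by positivity
      linarith only [this]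
    linarith only [m1, m2, m3]
  rw [← key, ← h1, ← h2] at n3
  linarith only [n3]

end CG

open CG

theorem exit_left {q δ : ℝ} (hq : 0 < q) (a b : ℕ) (ha : 1 ≤ q * a)
    (hlam : (1 + δ) * q ≤ 1 / 4) (hab : a ≤ b) (hba : q * ((b : ℝ) - a) ≤ q * a * δ / 10)
    (hδ : (q * a) ^ (-(1 : ℝ) / 3) ≤ δ) :
    PP (par (1 + δ) q) (full a b) (fun A => G (noLef A) a b < G (noBot A) a b) ≤
      20000 * (1 + δ) ^ 2 / (q * a * δ ^ 3) := by
  have hN0 : 0 < q * a := by linarith only [ha]
  have hδ0 : 0 < δ := lt_of_lt_of_le (Real.rpow_pos_of_pos hN0 _) hδ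
  have hq' : q ≤ 1 / 4 := by nlinarith only [mul_pos hδ0 hq, hlam]
  have hq1 : q ≤ 1 := by linarith only [hq']
  have ha0 : (0 : ℝ) < a := by
    by_contra h
    have := mul_nonneg hq.le (show (0 : ℝ) ≤ -(a : ℝ) by linarith only [h])
    linarith only [this, ha]
  have hab' : (a : ℝ) ≤ b := by exact_mod_cast hab
  have hba' : (b : ℝ) - a ≤ a * δ / 10 := by
    have h1 : q * ((b : ℝ) - a) ≤ q * (a * δ / 10) := by linarith only [hba]
    exact le_of_mul_le_mul_left h1 hq
  have hl : 0 < 1 + δ := by positivity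
  -- variance at 1
  have hN23 : (q * a) ^ ((2 : ℝ) / 3) ≤ q * a * δ := by
    have e : (q * a) ^ ((2 : ℝ) / 3) = q * a * (q * a) ^ (-(1 : ℝ) / 3) := by
      nth_rewrite 2 [← Real.rpow_one (q * a)]
      rw [← Real.rpow_add hN0]
      norm_num
    rw [e]
    exact mul_le_mul_of_nonneg_left hδ hN0.le
  have v1 : VP (par 1 q) (full a b) (fun A => (G A a b : ℝ)) ≤ 1001 / 5 * (q * a * δ) := by
    have := VP_G_ab hq hq' ha hab
    linarith only [this, hN23, hba]
  have v2 : VP (par (1 + δ) q) (full a b) (fun A => (G A a b : ℝ)) ≤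
      1011 / 5 * (q * a * δ) := by
    have h1 := VP_G_le (l := 1) (l' := 1 + δ) (q := q) one_pos (by linarith only [hδ0]) hq hq1
      (by rw [sβ_one, div_le_iff₀ (by positivity)]; linarith only [hq, hq']) a b
    have s1 := sα_sub hδ0.le hq
    have s2 := sβ_sub hδ0.le hq
    have a0 := sα_nonneg (lam := 1) one_pos hq
    have b0 := sβ_nonneg (lam := 1 + δ) hl hq
    have s1' : δ * q / ((1 + (1 + δ) * q) * (1 + q)) ≤ δ * q :=
      div_le_self (by positivity) (by nlinarith only [mul_pos hl hq, hq, hl])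
    have s1'' : 0 ≤ δ * q / ((1 + (1 + δ) * q) * (1 + q)) := by positivity
    have s2' : δ * q / ((1 + δ + q) * (1 + q)) ≤ δ * q / (1 + δ) :=
      div_le_div_of_nonneg_left (by positivity) hl (by nlinarith only [mul_pos hl hq, hq, hl])
    have s2'' : 0 ≤ δ * q / ((1 + δ + q) * (1 + q)) := by positivity
    have k1 : sα (1 + δ) q * (1 - sα (1 + δ) q) - sα 1 q * (1 - sα 1 q) ≤ δ * q := by
      have : sα (1 + δ) q * (1 - sα (1 + δ) q) - sα 1 q * (1 - sα 1 q) =
        (sα (1 + δ) q - sα 1 q) * (1 - (sα (1 + δ) q + sα 1 q)) := by ring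
      rw [this, s1]
      exact le_trans (mul_le_of_le_one_right s1'' (by linarith only [a0, s1, s1''])) s1'
    have k2 : sβ 1 q * (1 - sβ 1 q) - sβ (1 + δ) q * (1 - sβ (1 + δ) q) ≤ δ * q / (1 + δ) := by
      have : sβ 1 q * (1 - sβ 1 q) - sβ (1 + δ) q * (1 - sβ (1 + δ) q) =
        (sβ 1 q - sβ (1 + δ) q) * (1 - (sβ 1 q + sβ (1 + δ) q)) := by ring
      rw [this, s2]
      exact le_trans (mul_le_of_le_one_right s2'' (by linarith only [b0, s2, s2''])) s2'
    have k3 := mul_le_mul_of_nonneg_left k1 ha0.le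
    have k4 := mul_le_mul_of_nonneg_left k2 (ha0.le.trans hab')
    have k5 : (b : ℝ) * (δ * q / (1 + δ)) ≤ a * (δ * q) := by
      have hb : (b : ℝ) ≤ a * (1 + δ) := by linarith only [mul_pos ha0 hδ0, hba']
      calc (b : ℝ) * (δ * q / (1 + δ)) ≤ a * (1 + δ) * (δ * q / (1 + δ)) :=
            mul_le_mul_of_nonneg_right hb (by positivity)
        _ = a * (δ * q) := by field_simp
    linarith only [h1, v1, k3, k4, k5]
  have hgap := exit_gap hq hq' hδ0 hlam ha0 hba'
  have key := PP_le_of_cpl (good_par hl hq hq1 (full a b)) (good_par one_pos hq hq1 (full a b))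
    (fun A => G (noLef A) a b < G (noBot A) a b)
    (fun A => (G A a b : ℝ)) (fun A => (G A a b : ℝ))
    (Δ := q * a * δ ^ 2 / (4 * (1 + δ))) (by positivity)
    (by
      intro A hA B hB hc hP
      have hc' : Cpl (par 1 q) (par (1 + δ) q) (full a b) B A :=
        fun i hi => ⟨(hc i hi).2, (hc i hi).1⟩
      obtain ⟨h1, -, h3⟩ := cpl_par one_pos (by linarith only [hδ0]) hq hB hA hc'
      have h4 := G_mono (noBot_sub hA h1.symm h3) a b
      have h5 : G A a b = G (noBot A) a b := by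
        rw [G_eq_max A a b]
        exact max_eq_right hP.le
      have : G A a b ≤ G B a b := by omega
      exact_mod_cast this)
    (by
      rw [EP_G one_pos hq, EP_G hl hq]
      exact hgap)
  refine le_trans key ?_
  have e : (q * a * δ ^ 2 / (4 * (1 + δ))) ^ 2 = q * a * δ * (q * a * δ ^ 3) / (16 * (1 + δ) ^ 2) := by
    field_simp
    norm_num
  rw [div_le_div_iff₀ (by positivity) (by positivity), e]
  have h1 : 2 * VP (par 1 q) (full a b) (fun A => (G A a b : ℝ)) +
      2 * VP (par (1 + δ) q) (full a b) (fun A => (G A a b : ℝ)) ≤ 4024 / 5 * (q * a * δ) := by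
    linarith only [v1, v2]
  refine le_trans (mul_le_mul_of_nonneg_right h1 (by positivity)) ?_
  have e2 : 20000 * (1 + δ) ^ 2 * (q * a * δ * (q * a * δ ^ 3) / (16 * (1 + δ) ^ 2)) =
      1250 * (q * a * δ * (q * a * δ ^ 3)) := by
    field_simp
    norm_num
  rw [e2]
  have : 0 ≤ q * a * δ * (q * a * δ ^ 3) := by positivity
  linarith only [this]

theorem exit_bottom {q δ : ℝ} (hq : 0 < q) (a b : ℕ) (ha : 1 ≤ q * a)
    (hlam : (1 + δ) * q ≤ 1 / 4) (hab : a ≤ b) (hba : q * ((b : ℝ) - a) ≤ q * a * δ / 10)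
    (hδ : (q * a) ^ (-(1 : ℝ) / 3) ≤ δ) :
    PP (par (1 / (1 + δ)) q) (full b a) (fun A => G (noBot A) b a < G (noLef A) b a) ≤
      20000 * (1 + δ) ^ 2 / (q * a * δ ^ 3) := by
  have hN0 : 0 < q * a := by linarith only [ha]
  have hδ0 : 0 < δ := lt_of_lt_of_le (Real.rpow_pos_of_pos hN0 _) hδ
  have hl : 0 < 1 + δ := by positivity
  refine le_trans (le_of_eq ?_) (exit_left hq a b ha hlam hab hba hδ)
  classical
  have hS : full b a = (full a b).map (Equiv.prodComm ℕ ℕ).toEmbedding := by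
    ext x
    simp only [full, bot, lef, box, mem_union, mem_product, mem_Icc, mem_singleton, mem_map,
      Equiv.coe_toEmbedding, Equiv.prodComm_apply]
    constructor
    · intro h
      exact ⟨x.swap, by simp only [Prod.fst_swap, Prod.snd_swap]; omega, by simp⟩
    · rintro ⟨y, hy, rfl⟩
      simp only [Prod.fst_swap, Prod.snd_swap]
      omega
  have hLB : ∀ A : Finset (ℕ × ℕ), noBot (A.map (Equiv.prodComm ℕ ℕ).toEmbedding) =
      (noLef A).map (Equiv.prodComm ℕ ℕ).toEmbedding := by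
    intro A
    ext x
    simp only [noBot, noLef, mem_filter, mem_map, Equiv.coe_toEmbedding, Equiv.prodComm_apply]
    constructor
    · rintro ⟨⟨y, hy, rfl⟩, h⟩
      exact ⟨y, ⟨hy, by simpa using h⟩, rfl⟩
    · rintro ⟨y, ⟨hy, h⟩, rfl⟩
      exact ⟨⟨y, hy, rfl⟩, by simpa using h⟩
  have hBL : ∀ A : Finset (ℕ × ℕ), noLef (A.map (Equiv.prodComm ℕ ℕ).toEmbedding) =
      (noBot A).map (Equiv.prodComm ℕ ℕ).toEmbedding := by
    intro A
    ext x
    simp only [noBot, noLef, mem_filter, mem_map, Equiv.coe_toEmbedding, Equiv.prodComm_apply]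
    constructor
    · rintro ⟨⟨y, hy, rfl⟩, h⟩
      exact ⟨y, ⟨hy, by simpa using h⟩, rfl⟩
    · rintro ⟨y, ⟨hy, h⟩, rfl⟩
      exact ⟨⟨y, hy, rfl⟩, by simpa using h⟩
  unfold PP
  rw [hS, EP_map]
  rw [EP_congr_par (π' := par (1 + δ) q)]
  · refine EP_congr _ _ fun A _ => ?_
    simp only [hLB, hBL, G_swap]
    by_cases h : G (noLef A) a b < G (noBot A) a b
    · rw [if_pos h, if_pos h]
    · rw [if_neg h, if_neg h]
  · intro x hx
    simp only [full, bot, lef, box, mem_union, mem_product, mem_Icc, mem_singleton] at hx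
    simp only [Equiv.coe_toEmbedding, Equiv.prodComm_apply, par, Prod.fst_swap, Prod.snd_swap]
    have e1 : sα (1 / (1 + δ)) q = sβ (1 + δ) q := by
      unfold sα sβ; field_simp
    have e2 : sβ (1 / (1 + δ)) q = sα (1 + δ) q := by
      unfold sα sβ; field_simp
    rw [e1, e2]
    by_cases h1 : x.1 = 0 <;> by_cases h2 : x.2 = 0
    · omega
    · simp [h1, h2]
    · simp [h1, h2]
    · simp [h1, h2]

end Pool.Agent.LPP
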