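import Pool.Agent.Lib.MP_6b8a80_h32.T2c_Path

/-!
# T4, deterministic part: exit points of optimal paths
-/

set_option autoImplicit false

namespace Pool.Agent.LPP

open Finset

namespace CG

/-- Best path leaving the bottom boundary after column `i`. -/
def btm (A : Finset (ℕ × ℕ)) (a b i : ℕ) : ℕ :=
  #(A ∩ bot i) + ell (A ∩ (Ioc i a ×ˢ Icc 1 b))

/-- Best path leaving the left boundary after row `j`. -/
def lft (A : Finset (ℕ × ℕ)) (a b j : ℕ) : ℕ :=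
  #(A ∩ lef j) + ell (A ∩ (Icc 1 a ×ˢ Ioc j b))

theorem btm_le (A : Finset (ℕ × ℕ)) {a b i : ℕ} (hi : i ≤ a) : btm A a b i ≤ G A a b := by
  rw [G_eq_max, G_noLef, G_noBot]
  exact le_max_of_le_left (le_sup (f := fun i => #(A ∩ bot i) + ell (A ∩ (Ioc i a ×ˢ Icc 1 b)))
    (mem_range.2 (by omega)))

theorem lft_le (A : Finset (ℕ × ℕ)) {a b j : ℕ} (hj : j ≤ b) : lft A a b j ≤ G A a b := by
  rw [G_eq_max, G_noLef, G_noBot]
  exact le_max_of_le_right (le_sup (f := fun j => #(A ∩ lef j) + ell (A ∩ (Icc 1 a ×ˢ Ioc j b)))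
    (mem_range.2 (by omega)))

theorem G_cases (A : Finset (ℕ × ℕ)) (a b : ℕ) :
    (∃ i ≤ a, G A a b = btm A a b i) ∨ ∃ j ≤ b, G A a b = lft A a b j := by
  obtain ⟨i, hi, h1⟩ := exists_mem_eq_sup (range (a + 1)) ⟨0, by simp⟩
    (fun i => #(A ∩ bot i) + ell (A ∩ (Ioc i a ×ˢ Icc 1 b)))
  obtain ⟨j, hj, h2⟩ := exists_mem_eq_sup (range (b + 1)) ⟨0, by simp⟩
    (fun j => #(A ∩ lef j) + ell (A ∩ (Icc 1 a ×ˢ Ioc j b)))
  rw [G_eq_max, G_noLef, G_noBot, h1, h2]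
  rcases le_total (#(A ∩ bot i) + ell (A ∩ (Ioc i a ×ˢ Icc 1 b)))
    (#(A ∩ lef j) + ell (A ∩ (Icc 1 a ×ˢ Ioc j b))) with h | h
  · exact Or.inr ⟨j, by have := mem_range.1 hj; omega, by simp [lft, h]⟩
  · exact Or.inl ⟨i, by have := mem_range.1 hi; omega, by simp [btm, h]⟩

theorem inter_eq_of_bulk {A B T : Finset (ℕ × ℕ)} (h : bulk A = bulk B)
    (hT : ∀ x ∈ T, x.1 ≠ 0 ∧ x.2 ≠ 0) : A ∩ T = B ∩ T := by
  ext x
  have hx : x ∈ bulk A ↔ x ∈ bulk B := by rw [h]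
  simp only [bulk, mem_filter, mem_inter] at hx ⊢
  constructor
  · rintro ⟨h1, h2⟩
    exact ⟨(hx.1 ⟨h1, hT x h2⟩).1, h2⟩
  · rintro ⟨h1, h2⟩
    exact ⟨(hx.2 ⟨h1, hT x h2⟩).1, h2⟩

theorem bot_part (i a b : ℕ) : ∀ x ∈ Ioc i a ×ˢ Icc 1 b, x.1 ≠ 0 ∧ x.2 ≠ 0 := by
  intro x hx
  simp only [mem_product, mem_Ioc, mem_Icc] at hx
  omega

theorem lef_part (j a b : ℕ) : ∀ x ∈ Icc 1 a ×ˢ Ioc j b, x.1 ≠ 0 ∧ x.2 ≠ 0 := by
  intro x hx
  simp only [mem_product, mem_Ioc, mem_Icc] at hx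
  omega

theorem bulk_insert {A : Finset (ℕ × ℕ)} {x : ℕ × ℕ} (hx : x.1 = 0 ∨ x.2 = 0) :
    bulk (insert x A) = bulk A := by
  ext y
  simp only [bulk, mem_filter, mem_insert]
  constructor
  · rintro ⟨h1 | h1, h2⟩
    · subst h1; tauto
    · exact ⟨h1, h2⟩
  · rintro ⟨h1, h2⟩
    exact ⟨Or.inr h1, h2⟩

theorem bulk_erase {A : Finset (ℕ × ℕ)} {x : ℕ × ℕ} (hx : x.1 = 0 ∨ x.2 = 0) :
    bulk (A.erase x) = bulk A := by
  ext y
  simp only [bulk, mem_filter, mem_erase]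
  constructor
  · rintro ⟨⟨h1, h1'⟩, h2⟩
    exact ⟨h1', h2⟩
  · rintro ⟨h1, h2⟩
    refine ⟨⟨?_, h1⟩, h2⟩
    rintro rfl
    tauto

theorem mem_bot {x : ℕ × ℕ} {i : ℕ} : x ∈ bot i ↔ (1 ≤ x.1 ∧ x.1 ≤ i) ∧ x.2 = 0 := by
  simp only [bot, mem_product, mem_Icc, mem_singleton]

theorem mem_lef {x : ℕ × ℕ} {j : ℕ} : x ∈ lef j ↔ x.1 = 0 ∧ (1 ≤ x.2 ∧ x.2 ≤ j) := by
  simp only [lef, mem_product, mem_Icc, mem_singleton]

/-- cards under insertion -/
theorem card_insert_inter {A T : Finset (ℕ × ℕ)} {x : ℕ × ℕ} (hx : x ∈ T) :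
    #(insert x A ∩ T) = #(A.erase x ∩ T) + 1 := by
  rw [insert_inter_of_mem hx]
  have : insert x (A ∩ T) = insert x (A.erase x ∩ T) := by
    ext y
    simp only [mem_insert, mem_inter, mem_erase]
    by_cases h : y = x <;> simp [h]
  rw [this, card_insert_of_notMem]
  simp

theorem inter_insert_eq {A T : Finset (ℕ × ℕ)} {x : ℕ × ℕ} (hx : x ∉ T) :
    insert x A ∩ T = A.erase x ∩ T := by
  ext y
  simp only [mem_insert, mem_inter, mem_erase]
  by_cases h : y = x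
  · subst h; simp [hx]
  · simp [h]

/-- source cells: values of the path functionals -/
theorem btm_insert_of_le {A : Finset (ℕ × ℕ)} {a b i i0 : ℕ} (h0 : 1 ≤ i0) (h : i0 ≤ i) :
    btm (insert (i0, 0) A) a b i = btm (A.erase (i0, 0)) a b i + 1 := by
  have h1 := card_insert_inter (A := A) (T := bot i) (x := (i0, 0)) (mem_bot.2 ⟨⟨h0, h⟩, rfl⟩)
  have h2 : insert (i0, 0) A ∩ (Ioc i a ×ˢ Icc 1 b) = A.erase (i0, 0) ∩ (Ioc i a ×ˢ Icc 1 b) :=
    inter_insert_eq (by simp)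
  unfold btm
  rw [h1, h2]; ring

theorem btm_insert_of_lt {A : Finset (ℕ × ℕ)} {a b i i0 : ℕ} (h : i < i0) :
    btm (insert (i0, 0) A) a b i = btm (A.erase (i0, 0)) a b i := by
  have h1 : insert (i0, 0) A ∩ bot i = A.erase (i0, 0) ∩ bot i :=
    inter_insert_eq (by rw [mem_bot]; simp; omega)
  have h2 : insert (i0, 0) A ∩ (Ioc i a ×ˢ Icc 1 b) = A.erase (i0, 0) ∩ (Ioc i a ×ˢ Icc 1 b) :=
    inter_insert_eq (by simp)
  unfold btm
  rw [h1, h2]

theorem lft_insert_source {A : Finset (ℕ × ℕ)} {a b j i0 : ℕ} :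
    lft (insert (i0, 0) A) a b j = lft (A.erase (i0, 0)) a b j := by
  have h1 : insert (i0, 0) A ∩ lef j = A.erase (i0, 0) ∩ lef j :=
    inter_insert_eq (by rw [mem_lef]; simp)
  have h2 : insert (i0, 0) A ∩ (Icc 1 a ×ˢ Ioc j b) = A.erase (i0, 0) ∩ (Icc 1 a ×ˢ Ioc j b) :=
    inter_insert_eq (by simp)
  unfold lft
  rw [h1, h2]

theorem lft_insert_of_le {A : Finset (ℕ × ℕ)} {a b j j0 : ℕ} (h0 : 1 ≤ j0) (h : j0 ≤ j) :
    lft (insert (0, j0) A) a b j = lft (A.erase (0, j0)) a b j + 1 := by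
  have h1 := card_insert_inter (A := A) (T := lef j) (x := (0, j0)) (mem_lef.2 ⟨rfl, h0, h⟩)
  have h2 : insert (0, j0) A ∩ (Icc 1 a ×ˢ Ioc j b) = A.erase (0, j0) ∩ (Icc 1 a ×ˢ Ioc j b) :=
    inter_insert_eq (by simp)
  unfold lft
  rw [h1, h2]; ring

theorem lft_insert_of_lt {A : Finset (ℕ × ℕ)} {a b j j0 : ℕ} (h : j < j0) :
    lft (insert (0, j0) A) a b j = lft (A.erase (0, j0)) a b j := by
  have h1 : insert (0, j0) A ∩ lef j = A.erase (0, j0) ∩ lef j :=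
    inter_insert_eq (by rw [mem_lef]; simp; omega)
  have h2 : insert (0, j0) A ∩ (Icc 1 a ×ˢ Ioc j b) = A.erase (0, j0) ∩ (Icc 1 a ×ˢ Ioc j b) :=
    inter_insert_eq (by simp)
  unfold lft
  rw [h1, h2]

theorem btm_insert_sink {A : Finset (ℕ × ℕ)} {a b i j0 : ℕ} :
    btm (insert (0, j0) A) a b i = btm (A.erase (0, j0)) a b i := by
  have h1 : insert (0, j0) A ∩ bot i = A.erase (0, j0) ∩ bot i :=
    inter_insert_eq (by rw [mem_bot]; simp)
  have h2 : insert (0, j0) A ∩ (Ioc i a ×ˢ Icc 1 b) = A.erase (0, j0) ∩ (Ioc i a ×ˢ Icc 1 b) :=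
    inter_insert_eq (by simp)
  unfold btm
  rw [h1, h2]

theorem G_erase_le_insert (A : Finset (ℕ × ℕ)) (x : ℕ × ℕ) (a b : ℕ) :
    G (A.erase x) a b ≤ G (insert x A) a b :=
  G_mono ((erase_subset x A).trans (subset_insert x A)) a b

theorem G_insert_source_le (A : Finset (ℕ × ℕ)) {i0 a b : ℕ} (h0 : 1 ≤ i0) :
    G (insert (i0, 0) A) a b ≤ G (A.erase (i0, 0)) a b + 1 := by
  rcases G_cases (insert (i0, 0) A) a b with ⟨i, hi, h⟩ | ⟨j, hj, h⟩
  · have := btm_le (A.erase (i0, 0)) (b := b) hi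
    rcases le_or_gt i0 i with hh | hh
    · rw [h, btm_insert_of_le h0 hh]; omega
    · rw [h, btm_insert_of_lt hh]; omega
  · have := lft_le (A.erase (i0, 0)) (a := a) hj
    rw [h, lft_insert_source]; omega

theorem G_insert_sink_le (A : Finset (ℕ × ℕ)) {j0 a b : ℕ} (h0 : 1 ≤ j0) :
    G (insert (0, j0) A) a b ≤ G (A.erase (0, j0)) a b + 1 := by
  rcases G_cases (insert (0, j0) A) a b with ⟨i, hi, h⟩ | ⟨j, hj, h⟩
  · have := btm_le (A.erase (0, j0)) (b := b) hi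
    rw [h, btm_insert_sink]; omega
  · have := lft_le (A.erase (0, j0)) (a := a) hj
    rcases le_or_gt j0 j with hh | hh
    · rw [h, lft_insert_of_le h0 hh]; omega
    · rw [h, lft_insert_of_lt hh]; omega

/-- If the source `i0` is pivotal, some optimal path uses the bottom up to a column `≥ i0`. -/
theorem exit_of_pivotal {A : Finset (ℕ × ℕ)} {i0 a b : ℕ} (h0 : 1 ≤ i0)
    (h : G (A.erase (i0, 0)) a b < G (insert (i0, 0) A) a b) :
    ∃ i, i0 ≤ i ∧ i ≤ a ∧ G A a b = btm A a b i := by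
  rcases G_cases (insert (i0, 0) A) a b with ⟨i, hi, hG⟩ | ⟨j, hj, hG⟩
  · rcases le_or_gt i0 i with hh | hh
    · refine ⟨i, hh, hi, ?_⟩
      by_cases hx : (i0, 0) ∈ A
      · rw [insert_eq_of_mem hx] at hG; exact hG
      · have e1 : A.erase (i0, 0) = A := erase_eq_of_notMem hx
        rw [btm_insert_of_le h0 hh, e1] at hG
        rw [e1] at h
        have h2 := G_insert_source_le A (a := a) (b := b) h0
        rw [e1] at h2
        omega
    · exfalso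
      have := btm_le (A.erase (i0, 0)) (b := b) hi
      rw [btm_insert_of_lt hh] at hG
      omega
  · exfalso
    have := lft_le (A.erase (i0, 0)) (a := a) hj
    rw [lft_insert_source] at hG
    omega

/-- Cator and Groeneboom comparison. -/
theorem compare_of_pivotal {A B : Finset (ℕ × ℕ)} {i0 a b : ℕ} (h0 : 1 ≤ i0) (hbulk : bulk A = bulk B)
    (hbot : ∀ i, 1 ≤ i → i ≤ a → (i, 0) ∈ A → (i, 0) ∈ B)
    (h : G (A.erase (i0, 0)) a b < G (insert (i0, 0) A) a b) :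
    G A a b + #(B ∩ bot i0) ≤ G B a b + #(A ∩ bot i0) := by
  obtain ⟨i, hi0, hia, hG⟩ := exit_of_pivotal h0 h
  have hB := btm_le B (b := b) hia
  have e1 : A ∩ (Ioc i a ×ˢ Icc 1 b) = B ∩ (Ioc i a ×ˢ Icc 1 b) :=
    inter_eq_of_bulk hbulk (bot_part i a b)
  unfold btm at hG hB
  rw [e1] at hG
  -- cards
  have hsub : A ∩ bot i ⊆ B ∩ bot i := by
    intro x hx
    simp only [mem_inter, mem_bot] at hx ⊢
    refine ⟨?_, hx.2⟩
    have := hbot x.1 hx.2.1.1 (hx.2.1.2.trans hia)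
    have hx2 : x = (x.1, 0) := Prod.ext rfl hx.2.2
    rw [hx2] at hx ⊢
    exact this hx.1
  have hsub0 : A ∩ bot i0 ⊆ B ∩ bot i0 := by
    intro x hx
    have hx' : x ∈ A ∩ bot i := by
      simp only [mem_inter, mem_bot] at hx ⊢
      exact ⟨hx.1, ⟨hx.2.1.1, hx.2.1.2.trans hi0⟩, hx.2.2⟩
    simp only [mem_inter] at hx ⊢
    exact ⟨(mem_inter.1 (hsub hx')).1, hx.2⟩
  have c1 := card_sdiff_add_card_eq_card hsub
  have c0 := card_sdiff_add_card_eq_card hsub0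
  have c2 : #((B ∩ bot i0) \ (A ∩ bot i0)) ≤ #((B ∩ bot i) \ (A ∩ bot i)) := by
    apply card_le_card
    intro x hx
    simp only [mem_sdiff, mem_inter, mem_bot] at hx ⊢
    refine ⟨⟨hx.1.1, ⟨hx.1.2.1.1, hx.1.2.1.2.trans hi0⟩, hx.1.2.2⟩, ?_⟩
    intro hc
    exact hx.2 ⟨hc.1, hx.1.2⟩
  omega

/-- Two configurations with the same bulk; `B0` has more sources and fewer sinks. -/
theorem sink_mono_aux {A0 B0 : Finset (ℕ × ℕ)} {j0 js a b : ℕ}
    (hbulk0 : bulk A0 = bulk B0)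
    (hbot0 : ∀ i, 1 ≤ i → i ≤ a → (i, 0) ∈ A0 → (i, 0) ∈ B0)
    (hlef0 : ∀ j, 1 ≤ j → j ≤ b → (0, j) ∈ B0 → (0, j) ∈ A0)
    (hjs0 : j0 ≤ js) (hjsb : js ≤ b) (hall : G B0 a b = lft B0 a b js) :
    ∃ j, j0 ≤ j ∧ j ≤ b ∧ G A0 a b = lft A0 a b j := by
  have hkey : ∀ j ≤ js, #(A0 ∩ lef j) + #(B0 ∩ lef js) ≤ #(A0 ∩ lef js) + #(B0 ∩ lef j) := by
    intro j hj
    have hs : ∀ k ≤ b, B0 ∩ lef k ⊆ A0 ∩ lef k := by
      intro k hk x hx
      simp only [mem_inter, mem_lef] at hx ⊢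
      refine ⟨?_, hx.2⟩
      have hx2 : x = (0, x.2) := Prod.ext hx.2.1 rfl
      rw [hx2]
      exact hlef0 x.2 hx.2.2.1 (hx.2.2.2.trans hk) (by rw [← hx2]; exact hx.1)
    have c1 := card_sdiff_add_card_eq_card (hs js hjsb)
    have c0 := card_sdiff_add_card_eq_card (hs j (hj.trans hjsb))
    have c2 : #((A0 ∩ lef j) \ (B0 ∩ lef j)) ≤ #((A0 ∩ lef js) \ (B0 ∩ lef js)) := by
      apply card_le_card
      intro x hx
      simp only [mem_sdiff, mem_inter, mem_lef] at hx ⊢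
      refine ⟨⟨hx.1.1, hx.1.2.1, hx.1.2.2.1, hx.1.2.2.2.trans hj⟩, ?_⟩
      intro hc
      exact hx.2 ⟨hc.1, hx.1.2⟩
    omega
  have eB : ∀ j, A0 ∩ (Icc 1 a ×ˢ Ioc j b) = B0 ∩ (Icc 1 a ×ˢ Ioc j b) :=
    fun j => inter_eq_of_bulk hbulk0 (lef_part j a b)
  have eB' : ∀ i, A0 ∩ (Ioc i a ×ˢ Icc 1 b) = B0 ∩ (Ioc i a ×ˢ Icc 1 b) :=
    fun i => inter_eq_of_bulk hbulk0 (bot_part i a b)
  have hjsA := lft_le A0 (a := a) hjsb
  rcases G_cases A0 a b with ⟨i, hi, hG⟩ | ⟨j, hj, hG⟩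
  · -- bottom term
    refine ⟨js, hjs0, hjsb, ?_⟩
    have t1 : btm A0 a b i ≤ btm B0 a b i := by
      unfold btm
      rw [eB' i]
      have : A0 ∩ bot i ⊆ B0 ∩ bot i := by
        intro x hx
        simp only [mem_inter, mem_bot] at hx ⊢
        refine ⟨?_, hx.2⟩
        have hx2 : x = (x.1, 0) := Prod.ext rfl hx.2.2
        rw [hx2]
        exact hbot0 x.1 hx.2.1.1 (hx.2.1.2.trans hi) (by rw [← hx2]; exact hx.1)
      have := card_le_card this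
      omega
    have t2 := btm_le B0 (b := b) hi
    have t3 : lft B0 a b js ≤ lft A0 a b js := by
      have := hkey 0 (Nat.zero_le _)
      have z1 : A0 ∩ lef 0 = ∅ := by ext x; simp [mem_lef]; intros; omega
      have z2 : B0 ∩ lef 0 = ∅ := by ext x; simp [mem_lef]; intros; omega
      rw [z1, z2] at this
      unfold lft
      rw [eB js]
      simp at this
      omega
    omega
  · rcases le_or_gt j0 j with hh | hh
    · exact ⟨j, hh, hj, hG⟩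
    · refine ⟨js, hjs0, hjsb, ?_⟩
      have t2 := lft_le B0 (a := a) hj
      have hk := hkey j (by omega)
      unfold lft at t2 hG hall hjsA ⊢
      rw [eB j] at hG
      rw [eB js] at hjsA ⊢
      omega

/-- Monotonicity of the sink derivative. -/
theorem sink_mono {A B : Finset (ℕ × ℕ)} {j0 a b : ℕ} (h0 : 1 ≤ j0)
    (hbulk : bulk A = bulk B)
    (hbot : ∀ i, 1 ≤ i → i ≤ a → (i, 0) ∈ A → (i, 0) ∈ B)
    (hlef : ∀ j, 1 ≤ j → j ≤ b → (0, j) ∈ B → (0, j) ∈ A)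
    (h : G (B.erase (0, j0)) a b < G (insert (0, j0) B) a b) :
    G (A.erase (0, j0)) a b < G (insert (0, j0) A) a b := by
  obtain ⟨js, hjs0, hjsb, hall⟩ : ∃ js, j0 ≤ js ∧ js ≤ b ∧
      G (B.erase (0, j0)) a b = lft (B.erase (0, j0)) a b js := by
    have hle := G_insert_sink_le B (a := a) (b := b) h0
    rcases G_cases (insert (0, j0) B) a b with ⟨i, hi, hG⟩ | ⟨j, hj, hG⟩
    · exfalso
      have := btm_le (B.erase (0, j0)) (b := b) hi
      rw [btm_insert_sink] at hG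
      omega
    · rcases le_or_gt j0 j with hh | hh
      · refine ⟨j, hh, hj, ?_⟩
        rw [lft_insert_of_le h0 hh] at hG
        omega
      · exfalso
        have := lft_le (B.erase (0, j0)) (a := a) hj
        rw [lft_insert_of_lt hh] at hG
        omega
  obtain ⟨j, h1, h2, h3⟩ := sink_mono_aux (A0 := A.erase (0, j0)) (B0 := B.erase (0, j0))
    (j0 := j0) (js := js) (a := a) (b := b)
    (by rw [bulk_erase (Or.inl rfl), bulk_erase (Or.inl rfl), hbulk])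
    (by
      intro i h1 h2 h3
      rw [mem_erase] at h3 ⊢
      exact ⟨by simp; omega, hbot i h1 h2 h3.2⟩)
    (by
      intro j h1 h2 h3
      rw [mem_erase] at h3 ⊢
      exact ⟨h3.1, hlef j h1 h2 h3.2⟩) hjs0 hjsb hall
  have h4 := lft_le (insert (0, j0) A) (a := a) h2
  rw [lft_insert_of_le h0 h1] at h4
  omega

end CG

end Pool.Agent.LPP
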