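import Pool.Agent.Lib.MP_6b8a80_h32.T4_Coupling
import Pool.Agent.Lib.MP_6b8a80_h32.T4_Path

/-!
# T4: variance identities of the stationary model
-/

set_option autoImplicit false

namespace Pool.Agent.LPP

open Finset

namespace CG

/-- Probability that the source `i` is pivotal. -/
noncomputable def ps (lam q : ℝ) (a b i : ℕ) : ℝ :=
  PP (par lam q) (full a b) (fun A => G (A.erase (i, 0)) a b < G (insert (i, 0) A) a b)

/-- Probability that the sink `j` is pivotal. -/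
noncomputable def pt (lam q : ℝ) (a b j : ℕ) : ℝ :=
  PP (par lam q) (full a b) (fun A => G (A.erase (0, j)) a b < G (insert (0, j) A) a b)

theorem sum_bot {f : ℕ × ℕ → ℝ} (a : ℕ) : ∑ x ∈ bot a, f x = ∑ i ∈ Icc 1 a, f (i, 0) := by
  rw [bot, sum_product]; simp

theorem sum_lef {f : ℕ × ℕ → ℝ} (b : ℕ) : ∑ x ∈ lef b, f x = ∑ j ∈ Icc 1 b, f (0, j) := by
  rw [lef, sum_product]; simp

theorem cov_bot (lam q : ℝ) (a b : ℕ) :
    EP (par lam q) (full a b) (fun A => ((#(A ∩ bot a) : ℝ) -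
      EP (par lam q) (full a b) (fun A => (#(A ∩ bot a) : ℝ))) * (G A a b : ℝ)) =
      sα lam q * (1 - sα lam q) * ∑ i ∈ Icc 1 a, ps lam q a b i := by
  rw [EP_card _ (bot_subset_full a b), EP_cov_card _ (bot_subset_full a b)
    (fun A => (G A a b : ℝ)), sum_bot, mul_sum]
  refine sum_congr rfl fun i hi => ?_
  rw [mem_Icc] at hi
  rw [par_bot (a := a) (x := (i, 0)) (mem_bot.2 ⟨hi, rfl⟩)]
  congr 1
  exact EP_Dx_eq _ _ (i, 0) (fun A => G A a b)
    (fun A _ => G_erase_le_insert A _ a b)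
    (fun A _ => G_insert_source_le A hi.1)

theorem cov_lef (lam q : ℝ) (a b : ℕ) :
    EP (par lam q) (full a b) (fun A => ((#(A ∩ lef b) : ℝ) -
      EP (par lam q) (full a b) (fun A => (#(A ∩ lef b) : ℝ))) * (G A a b : ℝ)) =
      sβ lam q * (1 - sβ lam q) * ∑ j ∈ Icc 1 b, pt lam q a b j := by
  rw [EP_card _ (lef_subset_full a b), EP_cov_card _ (lef_subset_full a b)
    (fun A => (G A a b : ℝ)), sum_lef, mul_sum]
  refine sum_congr rfl fun j hj => ?_
  rw [mem_Icc] at hj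
  rw [par_lef (b := b) (x := (0, j)) (mem_lef.2 ⟨rfl, hj⟩)]
  congr 1
  exact EP_Dx_eq _ _ (0, j) (fun A => G A a b)
    (fun A _ => G_erase_le_insert A _ a b)
    (fun A _ => G_insert_sink_le A hj.1)

/-- Variance through the sources. -/
theorem VP_G_bot {lam q : ℝ} (hl : 0 < lam) (hq : 0 < q) (a b : ℕ) :
    VP (par lam q) (full a b) (fun A => (G A a b : ℝ)) =
      b * (sβ lam q * (1 - sβ lam q)) - a * (sα lam q * (1 - sα lam q)) +
      2 * (sα lam q * (1 - sα lam q) * ∑ i ∈ Icc 1 a, ps lam q a b i) := by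
  rw [VP_split (par lam q) (full a b) (fun A => (G A a b : ℝ)) (fun A => (#(A ∩ bot a) : ℝ))
    (fun A => (#(rightInc A a b) : ℝ))
    (fun A _ => by rw [G_eq_bot_add_right A a b]; push_cast; rfl)]
  rw [VP_rightInc hl hq, VP_card _ (bot_subset_full a b), sum_var_bot, cov_bot]

/-- Variance through the sinks. -/
theorem VP_G_lef {lam q : ℝ} (hl : 0 < lam) (hq : 0 < q) (a b : ℕ) :
    VP (par lam q) (full a b) (fun A => (G A a b : ℝ)) =
      a * (sα lam q * (1 - sα lam q)) - b * (sβ lam q * (1 - sβ lam q)) +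
      2 * (sβ lam q * (1 - sβ lam q) * ∑ j ∈ Icc 1 b, pt lam q a b j) := by
  rw [VP_split (par lam q) (full a b) (fun A => (G A a b : ℝ)) (fun A => (#(A ∩ lef b) : ℝ))
    (fun A => (#(topInc A a b) : ℝ))
    (fun A _ => by rw [G_eq_lef_add_top A a b]; push_cast; rfl)]
  rw [VP_topInc hl hq, VP_card _ (lef_subset_full a b), sum_var_lef, cov_lef]

/-- Parameters: sources increase, sinks decrease with `lam`. -/
theorem sα_mono {l l' q : ℝ} (hl : 0 < l) (h : l ≤ l') (hq : 0 < q) : sα l q ≤ sα l' q := by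
  unfold sα
  rw [div_le_div_iff₀ (by positivity) (by have : 0 < l' := by linarith
                                          positivity)]
  nlinarith [mul_le_mul_of_nonneg_right h hq.le]

theorem sβ_anti {l l' q : ℝ} (hl : 0 < l) (h : l ≤ l') (hq : 0 < q) : sβ l' q ≤ sβ l q := by
  unfold sβ
  exact div_le_div_of_nonneg_left hq.le (by positivity) (by linarith)

/-- What the coupling says for the stationary models with `l ≤ l'`. -/
theorem cpl_par {l l' q : ℝ} (hl : 0 < l) (h : l ≤ l') (hq : 0 < q) {a b : ℕ}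
    {A B : Finset (ℕ × ℕ)} (hA : A ⊆ full a b) (hB : B ⊆ full a b)
    (hc : Cpl (par l q) (par l' q) (full a b) A B) :
    bulk A = bulk B ∧ (∀ i, 1 ≤ i → i ≤ a → (i, 0) ∈ A → (i, 0) ∈ B) ∧
      (∀ j, 1 ≤ j → j ≤ b → (0, j) ∈ B → (0, j) ∈ A) := by
  refine ⟨?_, ?_, ?_⟩
  · ext x
    simp only [bulk, mem_filter]
    constructor
    · rintro ⟨h1, h2⟩
      refine ⟨(hc x (hA h1)).1 ?_ h1, h2⟩
      unfold par
      rw [if_neg h2.2, if_neg h2.1, if_neg h2.2, if_neg h2.1]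
    · rintro ⟨h1, h2⟩
      refine ⟨(hc x (hB h1)).2 ?_ h1, h2⟩
      unfold par
      rw [if_neg h2.2, if_neg h2.1, if_neg h2.2, if_neg h2.1]
  · intro i h1 h2 h3
    refine (hc (i, 0) (hA h3)).1 ?_ h3
    have hm : (i, 0) ∈ bot a := mem_bot.2 ⟨⟨h1, h2⟩, rfl⟩
    rw [par_bot hm, par_bot hm]
    exact sα_mono hl h hq
  · intro j h1 h2 h3
    refine (hc (0, j) (hB h3)).2 ?_ h3
    have hm : (0, j) ∈ lef b := mem_lef.2 ⟨rfl, ⟨h1, h2⟩⟩
    rw [par_lef hm, par_lef hm]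
    exact sβ_anti hl h hq

/-- The sink pivotal probability decreases with `lam`. -/
theorem pt_anti {l l' q : ℝ} (hl : 0 < l) (h : l ≤ l') (hq : 0 < q) (hq1 : q ≤ 1) (a b : ℕ)
    {j : ℕ} (hj : 1 ≤ j) : pt l' q a b j ≤ pt l q a b j := by
  have hl' : 0 < l' := by linarith
  unfold pt
  refine PP_le_of_cpl_imp (good_par hl' hq hq1 _) (good_par hl hq hq1 _) _ _
    fun B hB A hA hc hP => ?_
  have hc' : Cpl (par l q) (par l' q) (full a b) A B := fun i hi => ⟨(hc i hi).2, (hc i hi).1⟩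
  obtain ⟨h1, h2, h3⟩ := cpl_par hl h hq hA hB hc'
  exact sink_mono hj h1 h2 h3 hP

theorem pt_nonneg {l q : ℝ} (hl : 0 < l) (hq : 0 < q) (hq1 : q ≤ 1) (a b j : ℕ) :
    0 ≤ pt l q a b j := PP_nonneg (good_par hl hq hq1 _) _

theorem ps_nonneg {l q : ℝ} (hl : 0 < l) (hq : 0 < q) (hq1 : q ≤ 1) (a b j : ℕ) :
    0 ≤ ps l q a b j := PP_nonneg (good_par hl hq hq1 _) _

theorem ps_le_one {l q : ℝ} (hl : 0 < l) (hq : 0 < q) (hq1 : q ≤ 1) (a b j : ℕ) :
    ps l q a b j ≤ 1 := PP_le_one (good_par hl hq hq1 _) _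

/-- Comparison of the variances for two parameters. -/
theorem VP_G_le {l l' q : ℝ} (hl : 0 < l) (h : l ≤ l') (hq : 0 < q) (hq1 : q ≤ 1)
    (hb : sβ l q ≤ 1 / 2) (a b : ℕ) :
    VP (par l' q) (full a b) (fun A => (G A a b : ℝ)) ≤
      VP (par l q) (full a b) (fun A => (G A a b : ℝ)) +
      a * (sα l' q * (1 - sα l' q) - sα l q * (1 - sα l q)) +
      b * (sβ l q * (1 - sβ l q) - sβ l' q * (1 - sβ l' q)) := by
  have hl' : 0 < l' := by linarith
  rw [VP_G_lef hl' hq, VP_G_lef hl hq]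
  have h1 : sβ l' q ≤ sβ l q := sβ_anti hl h hq
  have h0 : 0 ≤ sβ l' q := sβ_nonneg hl' hq
  have h2 : sβ l' q * (1 - sβ l' q) ≤ sβ l q * (1 - sβ l q) := by nlinarith
  have h3 : 0 ≤ sβ l' q * (1 - sβ l' q) := mul_nonneg h0 (by linarith)
  have h4 : ∑ j ∈ Icc 1 b, pt l' q a b j ≤ ∑ j ∈ Icc 1 b, pt l q a b j :=
    sum_le_sum fun j hj => pt_anti hl h hq hq1 a b (mem_Icc.1 hj).1
  have h5 : 0 ≤ ∑ j ∈ Icc 1 b, pt l' q a b j :=
    sum_nonneg fun j _ => pt_nonneg hl' hq hq1 a b j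
  have h6 := mul_le_mul h2 h4 h5 (by linarith)
  linarith

end CG

end Pool.Agent.LPP
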