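import Pool.Agent.Lib.MP_6b8a80_h32.T4_Exit

/-!
# MP_6b8a80, task T5a, part 1: comparison of increments with the stationary model
-/

set_option autoImplicit false

namespace Pool.Agent.LPP.T5a

open Finset Pool.Agent.LPP

theorem bulk_noLef (A : Finset (ℕ × ℕ)) : bulk (noLef A) = bulk A := by
  ext x
  simp only [bulk, noLef, mem_filter]
  tauto

theorem bulk_noBot (A : Finset (ℕ × ℕ)) : bulk (noBot A) = bulk A := by
  ext x
  simp only [bulk, noBot, mem_filter]
  tauto

theorem bulk_bulk (A : Finset (ℕ × ℕ)) : bulk (bulk A) = bulk A := by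
  ext x
  simp only [bulk, mem_filter]
  tauto

theorem noLef_subset (A : Finset (ℕ × ℕ)) : noLef A ⊆ A := filter_subset _ _

theorem noBot_subset (A : Finset (ℕ × ℕ)) : noBot A ⊆ A := filter_subset _ _

theorem bulk_subset (A : Finset (ℕ × ℕ)) : bulk A ⊆ A := filter_subset _ _

/-- Attractiveness over `w` steps to the right. -/
theorem G_attractive_right {A B : Finset (ℕ × ℕ)} (hbulk : bulk A = bulk B)
    (hbot : ∀ i, (i + 1, 0) ∈ A → (i + 1, 0) ∈ B) (hlef : ∀ j, (0, j + 1) ∈ B → (0, j + 1) ∈ A)
    (i j w : ℕ) :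
    G A (i + w) j + G B i j ≤ G A i j + G B (i + w) j := by
  induction w with
  | zero => simp
  | succ w ih =>
      have h := (G_attractive hbulk hbot hlef (i + w) j).1
      have e : i + (w + 1) = i + w + 1 := by omega
      rw [e]
      omega

/-- Attractiveness over `w` steps upwards. -/
theorem G_attractive_up {A B : Finset (ℕ × ℕ)} (hbulk : bulk A = bulk B)
    (hbot : ∀ i, (i + 1, 0) ∈ A → (i + 1, 0) ∈ B) (hlef : ∀ j, (0, j + 1) ∈ B → (0, j + 1) ∈ A)
    (i j w : ℕ) :
    G B i (j + w) + G A i j ≤ G B i j + G A i (j + w) := by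
  induction w with
  | zero => simp [add_comm]
  | succ w ih =>
      have h := (G_attractive hbulk hbot hlef i (j + w)).2
      have e : j + (w + 1) = j + w + 1 := by omega
      rw [e]
      omega

/-- Horizontal increment, upper comparison: no exit through the left boundary at `(a, b)`. -/
theorem inc_le_top {A : Finset (ℕ × ℕ)} {a b : ℕ} (h : G (noBot A) a b ≤ G (noLef A) a b) (w : ℕ) :
    G (bulk A) (a + w) b ≤ G (bulk A) a b + #(topInc A (a + w) b ∩ Ioc a (a + w)) := by
  have h1 := G_attractive_right (A := bulk A) (B := noLef A)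
    (by rw [bulk_bulk, bulk_noLef]) (by intro i hi; simp [bulk] at hi)
    (by intro j hj; simp [noLef] at hj) a b w
  have h2 : G (noLef A) (a + w) b ≤ G A (a + w) b := G_mono (noLef_subset A) _ _
  have h3 := G_eq_max A a b
  have h4 := G_sub_eq_topInc A a w b
  have h5 : G A a b = G (noLef A) a b := by rw [h3]; exact max_eq_left h
  omega

/-- Horizontal increment, lower comparison: no exit through the bottom at `(a + w, b)`. -/
theorem top_le_inc {A : Finset (ℕ × ℕ)} {a b w : ℕ}
    (h : G (noLef A) (a + w) b ≤ G (noBot A) (a + w) b) :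
    G (bulk A) a b + #(topInc A (a + w) b ∩ Ioc a (a + w)) ≤ G (bulk A) (a + w) b := by
  have h1 := G_attractive_right (A := noBot A) (B := bulk A)
    (by rw [bulk_bulk, bulk_noBot]) (by intro i hi; simp [noBot] at hi)
    (by intro j hj; simp [bulk] at hj) a b w
  have h2 : G (noBot A) a b ≤ G A a b := G_mono (noBot_subset A) _ _
  have h3 := G_eq_max A (a + w) b
  have h4 := G_sub_eq_topInc A a w b
  have h5 : G A (a + w) b = G (noBot A) (a + w) b := by rw [h3]; exact max_eq_right h
  omega

/-- Vertical increment, lower comparison: no exit through the left boundary at `(a, b + w)`. -/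
theorem right_le_inc {A : Finset (ℕ × ℕ)} {a b w : ℕ}
    (h : G (noBot A) a (b + w) ≤ G (noLef A) a (b + w)) :
    G (bulk A) a b + #(rightInc A a (b + w) ∩ Ioc b (b + w)) ≤ G (bulk A) a (b + w) := by
  have h1 := G_attractive_up (A := bulk A) (B := noLef A)
    (by rw [bulk_bulk, bulk_noLef]) (by intro i hi; simp [bulk] at hi)
    (by intro j hj; simp [noLef] at hj) a b w
  have h2 : G (noLef A) a b ≤ G A a b := G_mono (noLef_subset A) _ _
  have h3 := G_eq_max A a (b + w)
  have h4 := G_sub_eq_rightInc A a b w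
  have h5 : G A a (b + w) = G (noLef A) a (b + w) := by rw [h3]; exact max_eq_left h
  omega

/-- Vertical increment, upper comparison: no exit through the bottom at `(a, b)`. -/
theorem inc_le_right {A : Finset (ℕ × ℕ)} {a b : ℕ}
    (h : G (noLef A) a b ≤ G (noBot A) a b) (w : ℕ) :
    G (bulk A) a (b + w) ≤ G (bulk A) a b + #(rightInc A a (b + w) ∩ Ioc b (b + w)) := by
  have h1 := G_attractive_up (A := noBot A) (B := bulk A)
    (by rw [bulk_bulk, bulk_noBot]) (by intro i hi; simp [noBot] at hi)
    (by intro j hj; simp [bulk] at hj) a b w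
  have h2 : G (noBot A) a (b + w) ≤ G A a (b + w) := G_mono (noBot_subset A) _ _
  have h3 := G_eq_max A a b
  have h4 := G_sub_eq_rightInc A a b w
  have h5 : G A a b = G (noBot A) a b := by rw [h3]; exact max_eq_right h
  omega

theorem box_subset_full (a b : ℕ) : box a b ⊆ full a b := by
  intro x hx
  simp only [full, mem_union]
  exact Or.inr hx

theorem box_mono {a b a' b' : ℕ} (ha : a ≤ a') (hb : b ≤ b') : box a b ⊆ box a' b' := by
  intro x hx
  simp only [box, mem_product, mem_Icc] at hx ⊢
  omega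

theorem full_mono {a b a' b' : ℕ} (ha : a ≤ a') (hb : b ≤ b') : full a b ⊆ full a' b' := by
  intro x hx
  simp only [full, bot, lef, box, mem_union, mem_product, mem_Icc, mem_singleton] at hx ⊢
  omega

theorem box_inter_box {a b a' b' : ℕ} (ha : a ≤ a') (hb : b ≤ b') :
    box a' b' ∩ box a b = box a b := inter_eq_right.2 (box_mono ha hb)

theorem bulk_inter_box (A : Finset (ℕ × ℕ)) (a b : ℕ) : bulk A ∩ box a b = A ∩ box a b := by
  ext x
  simp only [bulk, box, mem_inter, mem_filter, mem_product, mem_Icc]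
  constructor
  · rintro ⟨⟨h1, _⟩, h2⟩
    exact ⟨h1, h2⟩
  · rintro ⟨h1, h2⟩
    exact ⟨⟨h1, by omega, by omega⟩, h2⟩

/-- the bulk field inside the full stationary field -/
theorem EP_box_eq_full (lam q : ℝ) (a b : ℕ) (f : Finset (ℕ × ℕ) → ℝ) :
    EP (fun _ => q ^ 2) (box a b) f =
      EP (par lam q) (full a b) (fun A => f (A ∩ box a b)) := by
  rw [EP_inter (par lam q) (box_subset_full a b) f]
  apply EP_congr_par
  intro x hx
  simp only [box, mem_product, mem_Icc] at hx
  have h1 : x.1 ≠ 0 := by omega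
  have h2 : x.2 ≠ 0 := by omega
  simp [par, h1, h2]

theorem Good_par {lam q : ℝ} (hl : 0 < lam) (hq : 0 < q) (hq1 : q ≤ 1) (S : Finset (ℕ × ℕ)) :
    Good (par lam q) S := by
  intro x _
  have h1 : 0 < lam * q := mul_pos hl hq
  have h2 : 0 ≤ sα lam q ∧ sα lam q ≤ 1 := by
    unfold sα
    constructor
    · positivity
    · rw [div_le_one (by positivity)]; linarith
  have h3 : 0 ≤ sβ lam q ∧ sβ lam q ≤ 1 := by
    unfold sβ
    constructor
    · positivity
    · rw [div_le_one (by positivity)]; linarith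
  have h4 : 0 ≤ q ^ 2 ∧ q ^ 2 ≤ 1 := ⟨by positivity, pow_le_one₀ hq.le hq1⟩
  unfold par
  split_ifs <;> assumption

theorem Good_const {α : Type*} [DecidableEq α] {p : ℝ} (h0 : 0 ≤ p) (h1 : p ≤ 1) (S : Finset α) :
    Good (fun _ => p) S := fun _ _ => ⟨h0, h1⟩

theorem noLef_inter (A B : Finset (ℕ × ℕ)) : noLef (A ∩ B) = noLef A ∩ B := by
  ext x
  simp only [noLef, mem_filter, mem_inter]
  tauto

theorem noBot_inter (A B : Finset (ℕ × ℕ)) : noBot (A ∩ B) = noBot A ∩ B := by
  ext x
  simp only [noBot, mem_filter, mem_inter]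
  tauto

theorem PP_congr {α : Type*} [DecidableEq α] (π : α → ℝ) (S : Finset α)
    {P Q : Finset α → Prop} (h : ∀ A ⊆ S, P A ↔ Q A) : PP π S P = PP π S Q := by
  classical
  unfold PP
  apply EP_congr
  intro A hA
  simp only [h A hA]

theorem PP_inter {α : Type*} [DecidableEq α] (π : α → ℝ) {S T : Finset α} (hT : T ⊆ S)
    (P : Finset α → Prop) : PP π S (fun A => P (A ∩ T)) = PP π T P := by
  classical
  unfold PP
  exact EP_inter π hT (fun A => if P A then 1 else 0)

/-- the exit event at `(a, b)` in a bigger box -/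
theorem PP_exit_left (π : ℕ × ℕ → ℝ) {a b a' b' : ℕ} (ha : a ≤ a') (hb : b ≤ b') :
    PP π (full a' b') (fun A => G (noLef A) a b < G (noBot A) a b) =
      PP π (full a b) (fun A => G (noLef A) a b < G (noBot A) a b) := by
  rw [← PP_inter π (full_mono ha hb)]
  apply PP_congr
  intro A _
  rw [noLef_inter, noBot_inter, G_inter_full, G_inter_full]

theorem PP_exit_bottom (π : ℕ × ℕ → ℝ) {a b a' b' : ℕ} (ha : a ≤ a') (hb : b ≤ b') :
    PP π (full a' b') (fun A => G (noBot A) a b < G (noLef A) a b) =
      PP π (full a b) (fun A => G (noBot A) a b < G (noLef A) a b) := by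
  rw [← PP_inter π (full_mono ha hb)]
  apply PP_congr
  intro A _
  rw [noLef_inter, noBot_inter, G_inter_full, G_inter_full]

/-- law of the horizontal increments on the top side, last `w` columns -/
theorem PP_topInc {lam q : ℝ} (hl : 0 < lam) (hq : 0 < q) (a w b : ℕ) (P : Finset ℕ → Prop) :
    PP (par lam q) (full (a + w) b) (fun A => P (topInc A (a + w) b ∩ Ioc a (a + w))) =
      PP (fun _ => sα lam q) (Ioc a (a + w)) P := by
  classical
  have hs : Ioc a (a + w) ⊆ Icc 1 (a + w) := by
    intro i hi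
    simp only [mem_Ioc, mem_Icc] at hi ⊢
    omega
  rw [← PP_inter _ hs P]
  unfold PP
  exact burke_top hl hq (a + w) b (fun F => if P (F ∩ Ioc a (a + w)) then 1 else 0)

end Pool.Agent.LPP.T5a
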