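import Pool.Agent.Lib.MP_6b8a80_h32.T5a_Tail

/-!
# MP_6b8a80, task T5a: second moment of a horizontal increment
-/

set_option autoImplicit false

namespace Pool.Agent.LPP.T5a

open Finset Pool.Agent.LPP

/-- Exponential moment of the last passage time. -/
theorem exp_moment {q : ℝ} {a b : ℕ} (hq : 0 < q) (hq1 : q ≤ 1) :
    EP (fun _ => q ^ 2) (box a b) (fun A => Real.exp (ell A)) ≤
      Real.exp (6.4 * (q * a)) / 2 + Real.exp (6.4 * (q * b)) / 2 := by
  have hG := Good_par (lam := 1) one_pos hq hq1 (full a b)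
  have he2 : Real.exp 2 - 1 ≤ 6.4 := by
    have h1 := Real.exp_one_lt_d9
    have h2 : Real.exp 2 = Real.exp 1 ^ 2 := by
      rw [← Real.exp_nat_mul]; norm_num
    have h3 := Real.exp_pos 1
    rw [h2]
    nlinarith only [h1, h3]
  have he0 : 0 ≤ Real.exp 2 - 1 := by
    have := Real.add_one_le_exp (2 : ℝ)
    linarith
  have hα := sα_bounds (lam := 1) one_pos hq
  have hα' := sα_le (lam := 1) one_pos hq
  have hβ := sβ_bounds (lam := 1) one_pos hq
  have hβ' := sβ_le (lam := 1) one_pos hq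
  rw [one_mul] at hα'
  rw [div_one] at hβ'
  have e1 : EP (fun _ => q ^ 2) (box a b) (fun A => Real.exp (ell A)) =
      EP (par 1 q) (full a b) (fun A => Real.exp (ell (A ∩ box a b))) := EP_box_eq_full 1 q a b _
  have e2 : EP (par 1 q) (full a b) (fun A => Real.exp (ell (A ∩ box a b))) ≤
      EP (par 1 q) (full a b) (fun A => (1 / 2) * Real.exp (2 * #(A ∩ bot a)) +
        (1 / 2) * Real.exp (2 * #(rightInc A a b))) := by
    apply EP_mono hG
    intro A _
    have h1 : ell (A ∩ box a b) ≤ #(A ∩ bot a) + #(rightInc A a b) := by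
      rw [← G_bulk, ← G_eq_bot_add_right]
      exact G_mono (bulk_subset A) _ _
    have h2 : (ell (A ∩ box a b) : ℝ) ≤ #(A ∩ bot a) + #(rightInc A a b) := by exact_mod_cast h1
    have h3 : Real.exp (ell (A ∩ box a b)) ≤
        Real.exp (#(A ∩ bot a)) * Real.exp (#(rightInc A a b)) := by
      rw [← Real.exp_add]
      exact Real.exp_le_exp.2 h2
    have h4 : Real.exp (2 * (#(A ∩ bot a) : ℝ)) = Real.exp (#(A ∩ bot a)) ^ 2 := by
      rw [← Real.exp_nat_mul]; norm_num
    have h5 : Real.exp (2 * (#(rightInc A a b) : ℝ)) = Real.exp (#(rightInc A a b)) ^ 2 := by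
      rw [← Real.exp_nat_mul]; norm_num
    rw [h4, h5]
    nlinarith only [h3,
      sq_nonneg (Real.exp (#(A ∩ bot a) : ℝ) - Real.exp (#(rightInc A a b) : ℝ))]
  have hbot : bot a ⊆ full a b := by
    intro x hx
    simp only [full, mem_union]
    exact Or.inl (Or.inl hx)
  have e3 : EP (par 1 q) (full a b) (fun A => Real.exp (2 * #(A ∩ bot a))) ≤
      Real.exp (6.4 * (q * a)) := by
    refine (EP_exp_card hG hbot 2).trans (Real.exp_le_exp.2 ?_)
    have h1 : ∑ i ∈ bot a, par 1 q i = a * sα 1 q := by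
      have h2 : ∀ i ∈ bot a, par 1 q i = sα 1 q := by
        intro i hi
        simp only [bot, mem_product, mem_singleton] at hi
        simp [par, hi.2]
      rw [sum_congr rfl h2, sum_const]
      simp [bot]
    rw [h1]
    have ha : (0 : ℝ) ≤ a := Nat.cast_nonneg _
    calc (Real.exp 2 - 1) * (a * sα 1 q) ≤ 6.4 * (a * q) := by
          apply mul_le_mul he2 (by gcongr) (mul_nonneg ha hα.1) (by norm_num)
      _ = 6.4 * (q * a) := by ring
  have e4 : EP (par 1 q) (full a b) (fun A => Real.exp (2 * #(rightInc A a b))) ≤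
      Real.exp (6.4 * (q * b)) := by
    have h0 := burke_right (lam := 1) one_pos hq a b (fun F => Real.exp (2 * #F))
    rw [h0]
    refine (bin_exp hβ.1 hβ.2 (Icc 1 b) 2).trans (Real.exp_le_exp.2 ?_)
    have hb : (0 : ℝ) ≤ b := Nat.cast_nonneg _
    have hc : (#(Icc 1 b) : ℝ) = b := by simp
    rw [hc]
    calc (Real.exp 2 - 1) * (b * sβ 1 q) ≤ 6.4 * (b * q) := by
          apply mul_le_mul he2 (by gcongr) (mul_nonneg hb hβ.1) (by norm_num)
      _ = 6.4 * (q * b) := by ring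
  rw [e1]
  refine e2.trans ?_
  rw [EP_add, EP_const_mul, EP_const_mul]
  linarith only [e3, e4]

/-- Pointwise dyadic decomposition of a square. -/
theorem dyadic_sq {X σ N L : ℝ} {n : ℕ} (hσ : 1 ≤ σ) (hX0 : 0 ≤ X)
    (hn : 64 * N < 2 ^ (n + 1) * Real.sqrt σ) (hL : 64 * N ≤ X → X ≤ L) :
    X ^ 2 ≤ σ + (∑ j ∈ range (n + 1), 4 * (2 ^ j * Real.sqrt σ) ^ 2 *
      (if 2 ^ j * Real.sqrt σ ≤ X then (1 : ℝ) else 0)) + 8 * Real.exp (-(32 * N)) * Real.exp L := by
  have hσ0 : 0 < σ := by linarith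
  set t := Real.sqrt σ with ht
  have ht0 : 0 < t := Real.sqrt_pos.2 hσ0
  have ht2 : t ^ 2 = σ := Real.sq_sqrt hσ0.le
  have hsum0 : 0 ≤ ∑ j ∈ range (n + 1), 4 * (2 ^ j * t) ^ 2 *
      (if 2 ^ j * t ≤ X then (1 : ℝ) else 0) := by
    apply sum_nonneg
    intro j _
    split_ifs <;> positivity
  have hexp0 : 0 ≤ 8 * Real.exp (-(32 * N)) * Real.exp L := by positivity
  by_cases h1 : X < t
  · have : X ^ 2 ≤ σ := by rw [← ht2]; gcongr
    linarith only [this, hsum0, hexp0]
  push Not at h1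
  by_cases h2 : 64 * N ≤ X
  · have hXL := hL h2
    have h3 : X ^ 2 ≤ 8 * Real.exp (X / 2) := by
      have := Real.quadratic_le_exp_of_nonneg (x := X / 2) (by positivity)
      nlinarith only [this, hX0]
    have h4 : Real.exp (X / 2) ≤ Real.exp (-(32 * N)) * Real.exp L := by
      rw [← Real.exp_add]
      apply Real.exp_le_exp.2
      linarith only [h2, hXL]
    linarith only [h3, h4, hσ0, hsum0]
  · push Not at h2
    have h3 : 1 ≤ X / t := by rw [le_div_iff₀ ht0]; linarith only [h1]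
    obtain ⟨j, hj1, hj2⟩ := exists_nat_pow_near h3 (by norm_num : (1 : ℝ) < 2)
    rw [le_div_iff₀ ht0] at hj1
    rw [div_lt_iff₀ ht0] at hj2
    have hjn : j ∈ range (n + 1) := by
      rw [mem_range]
      by_contra hcon
      push Not at hcon
      have : (2 : ℝ) ^ (n + 1) ≤ 2 ^ j := pow_le_pow_right₀ (by norm_num) hcon
      have : (2 : ℝ) ^ (n + 1) * t ≤ 2 ^ j * t := by gcongr
      linarith only [this, hj1, h2, hn]
    have h4 : X ^ 2 ≤ 4 * (2 ^ j * t) ^ 2 := by
      calc X ^ 2 ≤ (2 ^ (j + 1) * t) ^ 2 := by gcongr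
        _ = 4 * (2 ^ j * t) ^ 2 := by ring
    have h5 : 4 * (2 ^ j * t) ^ 2 * (if 2 ^ j * t ≤ X then (1 : ℝ) else 0) ≤
        ∑ j ∈ range (n + 1), 4 * (2 ^ j * t) ^ 2 *
        (if 2 ^ j * t ≤ X then (1 : ℝ) else 0) := by
      apply single_le_sum (f := fun j => 4 * (2 ^ j * t) ^ 2 *
        (if 2 ^ j * t ≤ X then (1 : ℝ) else 0)) _ hjn
      intro i _
      show (0 : ℝ) ≤ 4 * (2 ^ i * t) ^ 2 * (if 2 ^ i * t ≤ X then (1 : ℝ) else 0)
      split_ifs <;> positivity
    rw [if_pos hj1, mul_one] at h5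
    linarith only [h4, h5, hσ0, hexp0]

end Pool.Agent.LPP.T5a

namespace Pool.Agent.LPP

open Finset T5a

/-- E1 -/
theorem inc_sq : ∃ C N₀ : ℝ, 0 < C ∧ 1 ≤ N₀ ∧ ∀ (q : ℝ) (a s : ℕ), 0 < q → N₀ ≤ q * a →
    q * (q * a) ^ 10 ≤ 1 → q * s ≤ (q * a) ^ ((2 : ℝ) / 3) / 16 →
    EP (fun _ => q ^ 2) (box (a + s) a)
      (fun A => ((ell A : ℝ) - ell (A ∩ box a a) - s * (q / (1 + q))) ^ 2) ≤
      C * max 1 (q * s) * (1 + Real.log (q * a)) := by
  classical
  refine ⟨10 ^ 9, 64, by norm_num, by norm_num, ?_⟩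
  intro q a s hq hN hqN hs
  set N := q * a with hNdef
  set σ := max 1 (q * s) with hσdef
  have hN0 : 0 < N := by linarith only [hN]
  have hσ1 : 1 ≤ σ := le_max_left _ _
  have hσ0 : 0 < σ := by linarith only [hσ1]
  have hσs : q * s ≤ σ := le_max_right _ _
  have h23 : (16 : ℝ) ≤ N ^ ((2 : ℝ) / 3) := by
    calc (16 : ℝ) = (64 : ℝ) ^ ((2 : ℝ) / 3) := by
          rw [show (64 : ℝ) = 4 ^ (3 : ℝ) by norm_num, ← Real.rpow_mul (by norm_num)]
          norm_num
      _ ≤ N ^ ((2 : ℝ) / 3) := Real.rpow_le_rpow (by norm_num) hN (by norm_num)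
  have hσN : σ ≤ N ^ ((2 : ℝ) / 3) / 16 := by
    apply max_le _ hs
    linarith only [h23]
  have h23N : N ^ ((2 : ℝ) / 3) ≤ N := by
    calc N ^ ((2 : ℝ) / 3) ≤ N ^ (1 : ℝ) :=
          Real.rpow_le_rpow_of_exponent_le (by linarith only [hN]) (by norm_num)
      _ = N := Real.rpow_one N
  have hσN' : σ ≤ N / 16 := by linarith only [hσN, h23N]
  have hq1 : q ≤ 1 := by
    have h1 : (1 : ℝ) ≤ N ^ 10 := one_le_pow₀ (by linarith only [hN])
    nlinarith only [h1, hqN, hq]
  set c : ℝ := s * (q / (1 + q)) with hc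
  have hc0 : 0 ≤ c := mul_nonneg (Nat.cast_nonneg s) (div_nonneg hq.le (by linarith only [hq]))
  have hcσ : c ≤ σ := by
    have h1 : q / (1 + q) ≤ q := div_le_self hq.le (by linarith only [hq])
    calc c ≤ s * q := by rw [hc]; gcongr
      _ = q * s := by ring
      _ ≤ σ := hσs
  -- the dyadic scale
  set t := Real.sqrt σ with ht
  have ht1 : 1 ≤ t := Real.one_le_sqrt.2 hσ1
  have ht0 : 0 < t := by linarith only [ht1]
  have htσ : t ≤ σ := by
    have : t ^ 2 = σ := Real.sq_sqrt hσ0.le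
    nlinarith only [this, ht1]
  have hx1 : 1 ≤ 64 * N / t := by
    rw [le_div_iff₀ ht0]
    linarith only [htσ, hσN', hN0]
  obtain ⟨n, hn1, hn2⟩ := exists_nat_pow_near hx1 (by norm_num : (1 : ℝ) < 2)
  rw [le_div_iff₀ ht0] at hn1
  rw [div_lt_iff₀ ht0] at hn2
  have hG : Good (fun _ : ℕ × ℕ => q ^ 2) (box (a + s) a) :=
    Good_const (sq_nonneg q) (pow_le_one₀ hq.le hq1) _
  let X : Finset (ℕ × ℕ) → ℝ := fun A => |(ell A : ℝ) - ell (A ∩ box a a) - c|
  have hXdef : ∀ A, X A = |(ell A : ℝ) - ell (A ∩ box a a) - c| := fun A => rfl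
  have hpt : ∀ A ⊆ box (a + s) a, ((ell A : ℝ) - ell (A ∩ box a a) - c) ^ 2 ≤
      (σ + (∑ j ∈ range (n + 1), 4 * (2 ^ j * t) ^ 2 *
      (if 2 ^ j * t ≤ X A then (1 : ℝ) else 0))) + 8 * Real.exp (-(32 * N)) * Real.exp (ell A) := by
    intro A _
    rw [← sq_abs, ← hXdef]
    apply dyadic_sq hσ1 (abs_nonneg _) hn2
    intro hbig
    have hmono : (ell (A ∩ box a a) : ℝ) ≤ ell A := by exact_mod_cast ell_mono inter_subset_left
    have h0 : (0 : ℝ) ≤ ell (A ∩ box a a) := Nat.cast_nonneg _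
    rcases abs_cases ((ell A : ℝ) - ell (A ∩ box a a) - c) with ⟨h1, _⟩ | ⟨h1, _⟩
    · rw [h1]; linarith only [h0, hc0]
    · rw [h1] at hbig ⊢
      linarith only [hbig, hmono, hcσ, hσN', hN0, h0, hc0]
  have htail : ∀ j ∈ range (n + 1), 4 * (2 ^ j * t) ^ 2 *
      PP (fun _ => q ^ 2) (box (a + s) a) (fun A => 2 ^ j * t ≤ X A) ≤ 43520096 * σ := by
    intro j hj
    rw [mem_range] at hj
    set y := 2 ^ j * t with hy
    have hpow1 : (1 : ℝ) ≤ 2 ^ j := one_le_pow₀ (by norm_num)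
    have hy1 : t ≤ y := by rw [hy]; nlinarith only [hpow1, ht0]
    have hy2 : y ≤ 64 * N := by
      have h1 : (2 : ℝ) ^ j ≤ 2 ^ n := pow_le_pow_right₀ (by norm_num) (by omega)
      calc y ≤ 2 ^ n * t := by rw [hy]; gcongr
        _ ≤ 64 * N := hn1
    have hup := tail_up hq hN hqN hσ1 hσs hσN hy1 hy2
    have hlow := tail_low hq hN hqN hσ1 hσs hσN hy1 hy2
    have hor : PP (fun _ => q ^ 2) (box (a + s) a) (fun A => y ≤ X A) ≤
        PP (fun _ => q ^ 2) (box (a + s) a)
          (fun A => y ≤ (ell A : ℝ) - ell (A ∩ box a a) - s * (q / (1 + q))) +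
        PP (fun _ => q ^ 2) (box (a + s) a)
          (fun A => y ≤ s * (q / (1 + q)) - ((ell A : ℝ) - ell (A ∩ box a a))) := by
      refine (PP_mono hG ?_).trans (PP_or_le hG _ _)
      intro A _ hA
      rw [hXdef] at hA
      rcases le_abs.1 hA with h | h
      · exact Or.inl h
      · right
        linarith only [h, hc]
    calc 4 * y ^ 2 * PP (fun _ => q ^ 2) (box (a + s) a) (fun A => y ≤ X A)
        ≤ 4 * y ^ 2 * (PP (fun _ => q ^ 2) (box (a + s) a)
          (fun A => y ≤ (ell A : ℝ) - ell (A ∩ box a a) - s * (q / (1 + q))) +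
        PP (fun _ => q ^ 2) (box (a + s) a)
          (fun A => y ≤ s * (q / (1 + q)) - ((ell A : ℝ) - ell (A ∩ box a a)))) := by gcongr
      _ ≤ 4 * (5440020 * σ + 5440004 * σ) := by
          rw [mul_assoc, mul_add]
          gcongr
      _ = 43520096 * σ := by ring
  have hexp : 8 * Real.exp (-(32 * N)) *
      EP (fun _ => q ^ 2) (box (a + s) a) (fun A => Real.exp (ell A)) ≤ 8 := by
    have h1 := exp_moment (a := a + s) (b := a) hq hq1
    have h2 : q * ((a + s : ℕ) : ℝ) ≤ 2 * N := by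
      push_cast
      rw [mul_add, ← hNdef]
      linarith only [hσs, hσN', hN0]
    have h3 : Real.exp (6.4 * (q * ((a + s : ℕ) : ℝ))) ≤ Real.exp (32 * N) := by
      apply Real.exp_le_exp.2
      linarith only [h2, hN0]
    have h4 : Real.exp (6.4 * (q * a)) ≤ Real.exp (32 * N) := by
      apply Real.exp_le_exp.2
      linarith only [hNdef, hN0]
    calc 8 * Real.exp (-(32 * N)) *
        EP (fun _ => q ^ 2) (box (a + s) a) (fun A => Real.exp (ell A))
        ≤ 8 * Real.exp (-(32 * N)) * Real.exp (32 * N) := by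
          gcongr
          linarith only [h1, h3, h4]
      _ = 8 := by rw [mul_assoc, ← Real.exp_add]; simp
  have hmain : EP (fun _ => q ^ 2) (box (a + s) a)
      (fun A => ((ell A : ℝ) - ell (A ∩ box a a) - c) ^ 2) ≤
      σ + (n + 1) * (43520096 * σ) + 8 := by
    refine (EP_mono hG hpt).trans ?_
    rw [EP_add, EP_add, EP_const, EP_const_mul, EP_sum]
    have h1 : ∑ j ∈ range (n + 1), EP (fun _ => q ^ 2) (box (a + s) a)
        (fun A => 4 * (2 ^ j * t) ^ 2 * (if 2 ^ j * t ≤ X A then (1 : ℝ) else 0)) ≤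
        ∑ _j ∈ range (n + 1), 43520096 * σ := by
      apply sum_le_sum
      intro j hj
      rw [EP_const_mul]
      have := htail j hj
      unfold PP at this
      convert this using 3
    rw [sum_const, card_range, nsmul_eq_mul] at h1
    push_cast at h1
    linarith only [h1, hexp]
  refine hmain.trans ?_
  have hlogN : 0 ≤ Real.log N := Real.log_nonneg (by linarith only [hN])
  have hn : (n : ℝ) ≤ 6 + 2 * Real.log N := by
    have h1 : (2 : ℝ) ^ n ≤ 64 * N := by
      have : (1 : ℝ) ≤ 2 ^ n := one_le_pow₀ (by norm_num)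
      nlinarith only [hn1, this, ht1]
    have h2 : (n : ℝ) * Real.log 2 ≤ Real.log (64 * N) := by
      rw [← Real.log_pow]
      exact Real.log_le_log (by positivity) h1
    have h3 : Real.log (64 * N) = 6 * Real.log 2 + Real.log N := by
      rw [Real.log_mul (by norm_num) hN0.ne']
      rw [show (64 : ℝ) = 2 ^ 6 by norm_num, Real.log_pow]
      norm_num
    rw [h3] at h2
    have h4 := Real.log_two_gt_d9
    by_contra hcon
    push Not at hcon
    have : (6 + 2 * Real.log N) * Real.log 2 < n * Real.log 2 := by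
      apply mul_lt_mul_of_pos_right hcon
      linarith only [h4]
    nlinarith only [h2, this, h4, hlogN]
  have h5 : (n : ℝ) + 1 ≤ 7 * (1 + Real.log N) := by linarith only [hn, hlogN]
  have h6 : (n + 1 : ℝ) * (43520096 * σ) ≤ 7 * (1 + Real.log N) * (43520096 * σ) := by gcongr
  have h7 : σ + 8 ≤ 9 * σ * (1 + Real.log N) := by
    nlinarith only [mul_nonneg hσ0.le hlogN, hσ1]
  have h8 : 0 ≤ σ * (1 + Real.log N) := mul_nonneg hσ0.le (by linarith only [hlogN])
  linarith only [h6, h7, h8]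

end Pool.Agent.LPP
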