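import Pool.Agent.Lib.MP_6b8a80_h32.T5a_Tail

/-!
# MP_6b8a80, task T5: mean of the last passage time
-/

set_option autoImplicit false

namespace Pool.Agent.LPP

open Finset T5a

/-- mean -/
theorem mean_le {q : ℝ} (hq : 0 < q) (hq1 : q ≤ 1) (a b : ℕ) :
    EP (fun _ => q ^ 2) (box a b) (fun A => (ell A : ℝ)) ≤ q * a + q * b := by
  have hG := Good_par (lam := 1) one_pos hq hq1 (full a b)
  have hα := sα_bounds (lam := 1) one_pos hq
  have hα' := sα_le (lam := 1) one_pos hq
  have hβ := sβ_bounds (lam := 1) one_pos hq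
  have hβ' := sβ_le (lam := 1) one_pos hq
  rw [one_mul] at hα'
  rw [div_one] at hβ'
  have e1 : EP (fun _ => q ^ 2) (box a b) (fun A => (ell A : ℝ)) =
      EP (par 1 q) (full a b) (fun A => (ell (A ∩ box a b) : ℝ)) := EP_box_eq_full 1 q a b _
  have e2 : EP (par 1 q) (full a b) (fun A => (ell (A ∩ box a b) : ℝ)) ≤
      EP (par 1 q) (full a b) (fun A => (#(A ∩ bot a) : ℝ) + #(rightInc A a b)) := by
    apply EP_mono hG
    intro A _
    have h1 : ell (A ∩ box a b) ≤ #(A ∩ bot a) + #(rightInc A a b) := by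
      rw [← G_bulk, ← G_eq_bot_add_right]
      exact G_mono (bulk_subset A) _ _
    exact_mod_cast h1
  have hbot : bot a ⊆ full a b := by
    intro x hx
    simp only [full, mem_union]
    exact Or.inl (Or.inl hx)
  have e3 : EP (par 1 q) (full a b) (fun A => (#(A ∩ bot a) : ℝ)) ≤ q * a := by
    rw [EP_card _ hbot]
    have h1 : ∑ i ∈ bot a, par 1 q i = a * sα 1 q := by
      have h2 : ∀ i ∈ bot a, par 1 q i = sα 1 q := by
        intro i hi
        simp only [bot, mem_product, mem_singleton] at hi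
        simp [par, hi.2]
      rw [sum_congr rfl h2, sum_const]
      simp [bot]
    rw [h1, mul_comm]
    gcongr
  have e4 : EP (par 1 q) (full a b) (fun A => (#(rightInc A a b) : ℝ)) ≤ q * b := by
    have h0 := burke_right (lam := 1) one_pos hq a b (fun F => (#F : ℝ))
    rw [h0]
    have h1 : EP (fun _ => sβ 1 q) (Icc 1 b) (fun F => (#F : ℝ)) =
        EP (fun _ => sβ 1 q) (Icc 1 b) (fun F => (#(F ∩ Icc 1 b) : ℝ)) := by
      apply EP_congr
      intro A hA
      rw [inter_eq_left.2 hA]
    rw [h1, EP_card _ (Finset.Subset.refl _)]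
    simp only [sum_const, Nat.card_Icc, add_tsub_cancel_right, nsmul_eq_mul]
    rw [mul_comm]
    gcongr
  rw [e1]
  refine e2.trans ?_
  rw [EP_add]
  linarith

end Pool.Agent.LPP
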