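import Pool.Agent.Lib.MP_6b8a80_h32.T5a_Compare

/-!
# MP_6b8a80, task T5a, part 2: tail bound for the horizontal increment
-/

set_option autoImplicit false

namespace Pool.Agent.LPP.T5a

open Finset Pool.Agent.LPP

theorem bin_cheb {α t : ℝ} (h0 : 0 ≤ α) (h1 : α ≤ 1) (T : Finset ℕ) (ht : 0 < t) :
    PP (fun _ => α) T (fun B => t ≤ |(#B : ℝ) - #T * α|) ≤ #T * α / t ^ 2 := by
  have hG : Good (fun _ : ℕ => α) T := Good_const h0 h1 T
  have hE : EP (fun _ => α) T (fun A => (#(A ∩ T) : ℝ)) = #T * α := by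
    rw [EP_card (fun _ => α) (Finset.Subset.refl T)]
    simp
  have hV : VP (fun _ => α) T (fun A => (#(A ∩ T) : ℝ)) = #T * (α * (1 - α)) := by
    rw [VP_card (fun _ => α) (Finset.Subset.refl T)]
    simp
  have h := PP_chebyshev hG (fun A => (#(A ∩ T) : ℝ)) t ht
  rw [hE, hV] at h
  have h2 : PP (fun _ => α) T (fun B => t ≤ |(#B : ℝ) - #T * α|) =
      PP (fun _ => α) T (fun A => t ≤ |(#(A ∩ T) : ℝ) - #T * α|) := by
    apply PP_congr
    intro A hA
    rw [inter_eq_left.2 hA]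
  rw [h2]
  refine h.trans ?_
  have h3 : (#T : ℝ) * (α * (1 - α)) ≤ #T * α := by
    have : (0 : ℝ) ≤ #T := Nat.cast_nonneg _
    apply mul_le_mul_of_nonneg_left _ this
    nlinarith only [h0, h1]
  gcongr

theorem bin_exp {α : ℝ} (h0 : 0 ≤ α) (h1 : α ≤ 1) (T : Finset ℕ) (θ : ℝ) :
    EP (fun _ => α) T (fun B => Real.exp (θ * #B)) ≤ Real.exp ((Real.exp θ - 1) * (#T * α)) := by
  have hG : Good (fun _ : ℕ => α) T := Good_const h0 h1 T
  have h := EP_exp_card hG (Finset.Subset.refl T) θ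
  have h2 : EP (fun _ => α) T (fun B => Real.exp (θ * #B)) =
      EP (fun _ => α) T (fun A => Real.exp (θ * #(A ∩ T))) := by
    apply EP_congr
    intro A hA
    rw [inter_eq_left.2 hA]
  rw [h2]
  simpa using h

theorem sα_bounds {lam q : ℝ} (hl : 0 < lam) (hq : 0 < q) : 0 ≤ sα lam q ∧ sα lam q ≤ 1 := by
  have h1 : 0 < lam * q := mul_pos hl hq
  unfold sα
  constructor
  · positivity
  · rw [div_le_one (by positivity)]; linarith

theorem sα_le {lam q : ℝ} (hl : 0 < lam) (hq : 0 < q) : sα lam q ≤ lam * q := by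
  have h1 : 0 < lam * q := mul_pos hl hq
  unfold sα
  apply div_le_self h1.le
  linarith

theorem sβ_bounds {lam q : ℝ} (hl : 0 < lam) (hq : 0 < q) : 0 ≤ sβ lam q ∧ sβ lam q ≤ 1 := by
  unfold sβ
  constructor
  · positivity
  · rw [div_le_one (by positivity)]; linarith

theorem sβ_le {lam q : ℝ} (hl : 0 < lam) (hq : 0 < q) : sβ lam q ≤ q / lam := by
  unfold sβ
  apply div_le_div_of_nonneg_left hq.le hl
  linarith

theorem sα_up {δ q : ℝ} (hδ : 0 ≤ δ) (hq : 0 < q) :
    sα (1 + δ) q - q / (1 + q) ≤ q * δ := by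
  have h : q / (1 + q) = sα 1 q := by unfold sα; ring_nf
  unfold sα
  have e1 : 0 < 1 + (1 + δ) * q := by positivity
  have e2 : 0 < 1 + q := by positivity
  rw [div_sub_div _ _ e1.ne' e2.ne', div_le_iff₀ (by positivity)]
  have : (1 + δ) * q * (1 + q) - (1 + (1 + δ) * q) * q = q * δ := by ring
  rw [this]
  have h3 : 0 ≤ q * δ := by positivity
  have h4 : 1 ≤ (1 + (1 + δ) * q) * (1 + q) := by
    nlinarith only [mul_pos hq hq, mul_nonneg hδ hq.le, mul_nonneg (mul_nonneg hδ hq.le) hq.le, hq, h3, hδ]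
  nlinarith only [h3, h4]

theorem sα_low {δ q : ℝ} (hδ : 0 ≤ δ) (hq : 0 < q) :
    q / (1 + q) - sα (1 / (1 + δ)) q ≤ q * δ := by
  unfold sα
  have e0 : 0 < 1 + δ := by positivity
  have e : 1 / (1 + δ) * q / (1 + 1 / (1 + δ) * q) = q / (1 + δ + q) := by
    field_simp
  rw [e]
  have e1 : 0 < 1 + δ + q := by positivity
  have e2 : 0 < 1 + q := by positivity
  rw [div_sub_div _ _ e2.ne' e1.ne', div_le_iff₀ (by positivity)]
  have : q * (1 + δ + q) - (1 + q) * q = q * δ := by ring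
  rw [this]
  have h3 : 0 ≤ q * δ := by positivity
  have h4 : 1 ≤ (1 + q) * (1 + δ + q) := by
    nlinarith only [mul_pos hq hq, mul_nonneg hδ hq.le, hδ, hq, h3]
  nlinarith only [h3, h4]

theorem bin_up {q y σ : ℝ} (a s : ℕ) (hq : 0 < q) (hσ1 : 1 ≤ σ) (hσ : q * s ≤ σ) (hy : 0 < y) :
    y ^ 2 * PP (fun _ => sα (1 + y / (4 * σ)) q) (Ioc a (a + s))
      (fun B => y ≤ (#B : ℝ) - s * (q / (1 + q))) ≤ 20 * σ := by
  have hσ0 : 0 < σ := by linarith
  set δ := y / (4 * σ) with hδdef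
  have hδ : 0 < δ := by positivity
  have hyδ : y = 4 * σ * δ := by rw [hδdef]; field_simp
  set α := sα (1 + δ) q with hα
  obtain ⟨hα0, hα1⟩ := sα_bounds (lam := 1 + δ) (by positivity) hq
  rw [← hα] at hα0 hα1
  have hαle : α ≤ (1 + δ) * q := sα_le (by positivity) hq
  have hs0 : (0 : ℝ) ≤ s := Nat.cast_nonneg _
  have hcard : #(Ioc a (a + s)) = s := by simp
  have hG : Good (fun _ : ℕ => α) (Ioc a (a + s)) := Good_const hα0 hα1 _
  have hsα : (s : ℝ) * α ≤ σ * (1 + δ) := by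
    calc (s : ℝ) * α ≤ s * ((1 + δ) * q) := by gcongr
      _ = (q * s) * (1 + δ) := by ring
      _ ≤ σ * (1 + δ) := by gcongr
  by_cases hcase : y ≤ 16 * σ
  · have h1 : PP (fun _ => α) (Ioc a (a + s)) (fun B => y ≤ (#B : ℝ) - s * (q / (1 + q))) ≤
        PP (fun _ => α) (Ioc a (a + s)) (fun B => y / 2 ≤ |(#B : ℝ) - #(Ioc a (a + s)) * α|) := by
      apply PP_mono hG
      intro B _ hB
      rw [hcard]
      have h2 : (s : ℝ) * (α - q / (1 + q)) ≤ s * (q * δ) := by
        apply mul_le_mul_of_nonneg_left _ hs0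
        exact sα_up hδ.le hq
      have h3 : (s : ℝ) * (q * δ) ≤ σ * δ := by
        calc (s : ℝ) * (q * δ) = (q * s) * δ := by ring
          _ ≤ σ * δ := by gcongr
      have h4 : y / 2 ≤ (#B : ℝ) - s * α := by linarith only [hB, h2, h3, hyδ, hy]
      exact h4.trans (le_abs_self _)
    have h2 := bin_cheb hα0 hα1 (Ioc a (a + s)) (t := y / 2) (by positivity)
    rw [hcard] at h2
    calc y ^ 2 * PP (fun _ => α) (Ioc a (a + s)) (fun B => y ≤ (#B : ℝ) - s * (q / (1 + q)))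
        ≤ y ^ 2 * (s * α / (y / 2) ^ 2) := by
          apply mul_le_mul_of_nonneg_left _ (by positivity)
          rw [hcard] at h1
          exact h1.trans h2
      _ = 4 * (s * α) := by field_simp; ring
      _ ≤ 4 * (σ * (1 + δ)) := by gcongr
      _ ≤ 4 * (σ * 5) := by
          have : δ ≤ 4 := by
            rw [hδdef, div_le_iff₀ (by positivity)]
            linarith only [hcase]
          gcongr
          linarith only [this]
      _ = 20 * σ := by ring
  · push Not at hcase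
    have h1 : PP (fun _ => α) (Ioc a (a + s)) (fun B => y ≤ (#B : ℝ) - s * (q / (1 + q))) ≤
        EP (fun _ => α) (Ioc a (a + s)) (fun B => Real.exp (-y) * Real.exp (1 * #B)) := by
      classical
      unfold PP
      apply EP_mono hG
      intro B _
      by_cases hB : y ≤ (#B : ℝ) - s * (q / (1 + q))
      · simp only [hB, if_true]
        rw [← Real.exp_add]
        apply Real.one_le_exp
        have : 0 ≤ (s : ℝ) * (q / (1 + q)) := by positivity
        linarith only [this, hB]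
      · simp only [hB, if_false]
        positivity
    have h2 : EP (fun _ => α) (Ioc a (a + s)) (fun B => Real.exp (-y) * Real.exp (1 * #B)) ≤
        Real.exp (-(3 / 8 * y)) := by
      rw [EP_const_mul]
      have h3 := bin_exp hα0 hα1 (Ioc a (a + s)) 1
      rw [hcard] at h3
      have h4 : (Real.exp 1 - 1) * (s * α) ≤ 5 / 8 * y := by
        have h5 : Real.exp 1 - 1 ≤ 2 := by
          have := Real.exp_one_lt_d9
          linarith
        have h6 : 0 ≤ Real.exp 1 - 1 := by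
          have := Real.add_one_le_exp (1 : ℝ)
          linarith
        calc (Real.exp 1 - 1) * (s * α) ≤ 2 * (σ * (1 + δ)) := by
              apply mul_le_mul h5 hsα (by positivity) (by norm_num)
          _ = 2 * σ + y / 2 := by rw [hyδ]; ring
          _ ≤ 5 / 8 * y := by linarith only [hcase]
      calc Real.exp (-y) * EP (fun _ => α) (Ioc a (a + s)) (fun B => Real.exp (1 * #B))
          ≤ Real.exp (-y) * Real.exp (5 / 8 * y) := by
            apply mul_le_mul_of_nonneg_left _ (Real.exp_pos _).le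
            exact h3.trans (Real.exp_le_exp.2 h4)
        _ = Real.exp (-(3 / 8 * y)) := by rw [← Real.exp_add]; congr 1; ring
    have h3 : y ^ 2 * Real.exp (-(3 / 8 * y)) ≤ 15 := by
      have h4 := Real.quadratic_le_exp_of_nonneg (x := 3 / 8 * y) (by positivity)
      rw [Real.exp_neg]
      rw [← div_eq_mul_inv, div_le_iff₀ (Real.exp_pos _)]
      nlinarith only [h4, hy]
    calc y ^ 2 * PP (fun _ => α) (Ioc a (a + s)) (fun B => y ≤ (#B : ℝ) - s * (q / (1 + q)))
        ≤ y ^ 2 * Real.exp (-(3 / 8 * y)) := by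
          apply mul_le_mul_of_nonneg_left _ (by positivity)
          exact h1.trans h2
      _ ≤ 15 := h3
      _ ≤ 20 * σ := by linarith only [hσ1]

theorem bin_low {q y σ : ℝ} (a s : ℕ) (hq : 0 < q) (hσ1 : 1 ≤ σ) (hσ : q * s ≤ σ) (hy : 0 < y) :
    y ^ 2 * PP (fun _ => sα (1 / (1 + y / (4 * σ))) q) (Ioc a (a + s))
      (fun B => y ≤ s * (q / (1 + q)) - (#B : ℝ)) ≤ 4 * σ := by
  have hσ0 : 0 < σ := by linarith
  set δ := y / (4 * σ) with hδdef
  have hδ : 0 < δ := by positivity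
  have hyδ : y = 4 * σ * δ := by rw [hδdef]; field_simp
  set α := sα (1 / (1 + δ)) q with hα
  obtain ⟨hα0, hα1⟩ := sα_bounds (lam := 1 / (1 + δ)) (by positivity) hq
  rw [← hα] at hα0 hα1
  have hαle : α ≤ q := by
    refine (sα_le (lam := 1 / (1 + δ)) (by positivity) hq).trans ?_
    have : 1 / (1 + δ) ≤ 1 := by rw [div_le_one (by positivity)]; linarith
    nlinarith only [this, hq]
  have hs0 : (0 : ℝ) ≤ s := Nat.cast_nonneg _
  have hcard : #(Ioc a (a + s)) = s := by simp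
  have hG : Good (fun _ : ℕ => α) (Ioc a (a + s)) := Good_const hα0 hα1 _
  have hsα : (s : ℝ) * α ≤ σ := by
    calc (s : ℝ) * α ≤ s * q := by gcongr
      _ = q * s := by ring
      _ ≤ σ := hσ
  have h1 : PP (fun _ => α) (Ioc a (a + s)) (fun B => y ≤ s * (q / (1 + q)) - (#B : ℝ)) ≤
      PP (fun _ => α) (Ioc a (a + s)) (fun B => y / 2 ≤ |(#B : ℝ) - #(Ioc a (a + s)) * α|) := by
    apply PP_mono hG
    intro B _ hB
    rw [hcard]
    have h2 : (s : ℝ) * (q / (1 + q) - α) ≤ s * (q * δ) := by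
      apply mul_le_mul_of_nonneg_left _ hs0
      exact sα_low hδ.le hq
    have h3 : (s : ℝ) * (q * δ) ≤ σ * δ := by
      calc (s : ℝ) * (q * δ) = (q * s) * δ := by ring
        _ ≤ σ * δ := by gcongr
    have h4 : y / 2 ≤ -((#B : ℝ) - s * α) := by linarith only [hB, h2, h3, hyδ, hy]
    exact h4.trans (neg_le_abs _)
  have h2 := bin_cheb hα0 hα1 (Ioc a (a + s)) (t := y / 2) (by positivity)
  rw [hcard] at h2
  calc y ^ 2 * PP (fun _ => α) (Ioc a (a + s)) (fun B => y ≤ s * (q / (1 + q)) - (#B : ℝ))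
      ≤ y ^ 2 * (s * α / (y / 2) ^ 2) := by
        apply mul_le_mul_of_nonneg_left _ (by positivity)
        rw [hcard] at h1
        exact h1.trans h2
    _ = 4 * (s * α) := by field_simp; ring
    _ ≤ 4 * σ := by gcongr

/-- Numerical facts about `δ = y / (4 σ)`. -/
theorem num_facts {q N σ y : ℝ} (hq : 0 < q) (hN : 64 ≤ N) (hqN : q * N ^ 10 ≤ 1)
    (hσ1 : 1 ≤ σ) (hσN : σ ≤ N ^ ((2 : ℝ) / 3) / 16) (hy : Real.sqrt σ ≤ y) (hy2 : y ≤ 64 * N) :
    N ^ (-(1 : ℝ) / 3) ≤ y / (4 * σ) ∧ (1 + y / (4 * σ)) * q ≤ 1 / 4 ∧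
    σ ≤ N * (y / (4 * σ)) / 10 ∧
    y ^ 2 * (20000 * (1 + y / (4 * σ)) ^ 2 / (N * (y / (4 * σ)) ^ 3)) ≤ 5440000 * σ := by
  have hN0 : 0 < N := by linarith
  have hσ0 : 0 < σ := by linarith
  set r := N ^ ((1 : ℝ) / 3) with hr
  have hr0 : 0 < r := by positivity
  have hr3 : r ^ 3 = N := by
    rw [hr, ← Real.rpow_natCast, ← Real.rpow_mul hN0.le]
    norm_num
  have hr2 : N ^ ((2 : ℝ) / 3) = r ^ 2 := by
    rw [hr, ← Real.rpow_natCast, ← Real.rpow_mul hN0.le]
    norm_num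
  have hrinv : N ^ (-(1 : ℝ) / 3) = r⁻¹ := by
    rw [hr, ← Real.rpow_neg hN0.le]
    norm_num
  rw [hr2] at hσN
  rw [hrinv]
  set t := Real.sqrt σ with ht
  have ht2 : t ^ 2 = σ := Real.sq_sqrt hσ0.le
  have ht1 : 1 ≤ t := by rw [ht]; exact Real.one_le_sqrt.2 hσ1
  have ht0 : 0 < t := by linarith only [ht1]
  have htr : t ≤ r / 4 := by
    apply le_of_sq_le_sq _ (by positivity)
    rw [ht2]
    linarith only [hσN]
  have hy0 : 0 < y := by linarith only [hy, ht1]
  have ht3 : t ^ 3 ≤ N / 64 := by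
    have : t ^ 3 ≤ (r / 4) ^ 3 := by gcongr
    calc t ^ 3 ≤ (r / 4) ^ 3 := this
      _ = N / 64 := by rw [← hr3]; ring
  have h64 : 64 * σ ^ 2 ≤ N * y := by
    calc 64 * σ ^ 2 = 64 * t ^ 3 * t := by rw [← ht2]; ring
      _ ≤ N * t := by nlinarith only [ht3, ht0]
      _ ≤ N * y := by gcongr
  set δ := y / (4 * σ) with hδdef
  have hδ : 0 < δ := by positivity
  have hyδ : y = 4 * σ * δ := by rw [hδdef]; field_simp
  have hσδ : σ ≤ N * δ / 16 := by
    rw [hyδ] at h64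
    nlinarith only [h64, hσ0]
  have hσN2 : σ ≤ N / 64 := by
    calc σ = t ^ 2 := ht2.symm
      _ ≤ t ^ 3 := by nlinarith only [sq_nonneg t, ht1]
      _ ≤ N / 64 := ht3
  have hδN : δ ≤ 16 * N := by
    rw [hδdef, div_le_iff₀ (by positivity)]
    nlinarith only [hy2, hσ1, hN0]
  refine ⟨?_, ?_, ?_, ?_⟩
  · rw [inv_le_iff_one_le_mul₀ hr0, hδdef, div_mul_eq_mul_div, le_div_iff₀ (by positivity)]
    calc 1 * (4 * σ) = 4 * t * t := by rw [← ht2]; ring
      _ ≤ r * t := by nlinarith only [htr, ht0]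
      _ ≤ r * y := by gcongr
      _ = y * r := by ring
  · have h1 : (68 : ℝ) * N ≤ N ^ 10 := by
      have h2 : (68 : ℝ) ≤ N ^ 9 := by
        calc (68 : ℝ) ≤ 64 ^ 9 := by norm_num
          _ ≤ N ^ 9 := by gcongr
      calc (68 : ℝ) * N ≤ N ^ 9 * N := by gcongr
        _ = N ^ 10 := by ring
    have h2 : q * (68 * N) ≤ 1 := (mul_le_mul_of_nonneg_left h1 hq.le).trans hqN
    have h3 : (1 + δ) * q ≤ (17 * N) * q := by
      apply mul_le_mul_of_nonneg_right _ hq.le
      linarith only [hδN, hN]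
    linarith only [h2, h3]
  · linarith only [hσδ, mul_pos hN0 hδ]
  · have e : y ^ 2 * (20000 * (1 + δ) ^ 2 / (N * δ ^ 3)) =
        320000 * σ * (σ * (1 + δ) ^ 2 / (N * δ)) := by
      rw [hyδ]
      field_simp
      ring
    rw [e]
    have h1 : σ * (1 + δ) ^ 2 / (N * δ) ≤ 17 := by
      rw [div_le_iff₀ (by positivity)]
      have h2 : σ * δ ≤ N / 64 * δ := by gcongr
      have h3 : σ * δ ^ 2 ≤ 16 * (N * δ) := by
        have : σ * δ = y / 4 := by rw [hyδ]; ring
        calc σ * δ ^ 2 = (σ * δ) * δ := by ring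
          _ = y / 4 * δ := by rw [this]
          _ ≤ (64 * N) / 4 * δ := by gcongr
          _ = 16 * (N * δ) := by ring
      linarith only [h2, h3, hσδ, mul_pos hN0 hδ]
    calc 320000 * σ * (σ * (1 + δ) ^ 2 / (N * δ)) ≤ 320000 * σ * 17 := by gcongr
      _ = 5440000 * σ := by ring

theorem tail_up {q σ y : ℝ} {a s : ℕ} (hq : 0 < q) (hN : 64 ≤ q * a) (hqN : q * (q * a) ^ 10 ≤ 1)
    (hσ1 : 1 ≤ σ) (hσ : q * s ≤ σ) (hσN : σ ≤ (q * a) ^ ((2 : ℝ) / 3) / 16)
    (hy : Real.sqrt σ ≤ y) (hy2 : y ≤ 64 * (q * a)) :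
    y ^ 2 * PP (fun _ => q ^ 2) (box (a + s) a)
      (fun A => y ≤ (ell A : ℝ) - ell (A ∩ box a a) - s * (q / (1 + q))) ≤ 5440020 * σ := by
  obtain ⟨f1, f2, f3, f4⟩ := num_facts hq hN hqN hσ1 hσN hy hy2
  have hσ0 : 0 < σ := by linarith only [hσ1]
  have hy0 : 0 < y := lt_of_lt_of_le (Real.sqrt_pos.2 hσ0) hy
  have hb := bin_up a s hq hσ1 hσ hy0
  set δ := y / (4 * σ) with hδdef
  have hδ : 0 < δ := by positivity
  have hq1 : q ≤ 1 := by nlinarith only [f2, hδ, hq]
  have hG := Good_par (lam := 1 + δ) (by positivity) hq hq1 (full (a + s) a)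
  have hex := exit_left hq a a (by linarith only [hN]) f2 le_rfl
    (by rw [sub_self, mul_zero]; positivity) f1
  have key : PP (fun _ => q ^ 2) (box (a + s) a)
      (fun A => y ≤ (ell A : ℝ) - ell (A ∩ box a a) - s * (q / (1 + q))) ≤
      PP (par (1 + δ) q) (full a a) (fun A => G (noLef A) a a < G (noBot A) a a) +
      PP (fun _ => sα (1 + δ) q) (Ioc a (a + s)) (fun B => y ≤ (#B : ℝ) - s * (q / (1 + q))) := by
    classical
    have e1 : PP (fun _ => q ^ 2) (box (a + s) a)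
      (fun A => y ≤ (ell A : ℝ) - ell (A ∩ box a a) - s * (q / (1 + q))) =
      PP (par (1 + δ) q) (full (a + s) a) (fun A => y ≤ (ell (A ∩ box (a + s) a) : ℝ) -
        ell ((A ∩ box (a + s) a) ∩ box a a) - s * (q / (1 + q))) := by
      unfold PP
      exact EP_box_eq_full (1 + δ) q (a + s) a _
    rw [e1, ← PP_exit_left (par (1 + δ) q) (Nat.le_add_right a s) (le_refl a),
      ← PP_topInc (lam := 1 + δ) (by positivity) hq a s a]
    refine (PP_mono hG ?_).trans (PP_or_le hG _ _)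
    intro A _ hA
    by_cases hE : G (noLef A) a a < G (noBot A) a a
    · exact Or.inl hE
    · right
      push Not at hE
      have h1 := inc_le_top hE s
      rw [G_bulk, G_bulk] at h1
      rw [inter_assoc, box_inter_box (Nat.le_add_right a s) (le_refl a)] at hA
      have h2 : (ell (A ∩ box (a + s) a) : ℝ) ≤ ell (A ∩ box a a) +
        #(topInc A (a + s) a ∩ Ioc a (a + s)) := by exact_mod_cast h1
      linarith only [hA, h2]
  calc y ^ 2 * PP (fun _ => q ^ 2) (box (a + s) a)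
        (fun A => y ≤ (ell A : ℝ) - ell (A ∩ box a a) - s * (q / (1 + q)))
      ≤ y ^ 2 * (PP (par (1 + δ) q) (full a a) (fun A => G (noLef A) a a < G (noBot A) a a) +
      PP (fun _ => sα (1 + δ) q) (Ioc a (a + s)) (fun B => y ≤ (#B : ℝ) - s * (q / (1 + q)))) := by
        gcongr
    _ ≤ y ^ 2 * (20000 * (1 + δ) ^ 2 / (q * a * δ ^ 3)) + 20 * σ := by
        rw [mul_add]
        gcongr
    _ ≤ 5440000 * σ + 20 * σ := by gcongr
    _ = 5440020 * σ := by ring

theorem tail_low {q σ y : ℝ} {a s : ℕ} (hq : 0 < q) (hN : 64 ≤ q * a) (hqN : q * (q * a) ^ 10 ≤ 1)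
    (hσ1 : 1 ≤ σ) (hσ : q * s ≤ σ) (hσN : σ ≤ (q * a) ^ ((2 : ℝ) / 3) / 16)
    (hy : Real.sqrt σ ≤ y) (hy2 : y ≤ 64 * (q * a)) :
    y ^ 2 * PP (fun _ => q ^ 2) (box (a + s) a)
      (fun A => y ≤ s * (q / (1 + q)) - ((ell A : ℝ) - ell (A ∩ box a a))) ≤ 5440004 * σ := by
  obtain ⟨f1, f2, f3, f4⟩ := num_facts hq hN hqN hσ1 hσN hy hy2
  have hσ0 : 0 < σ := by linarith only [hσ1]
  have hy0 : 0 < y := lt_of_lt_of_le (Real.sqrt_pos.2 hσ0) hy
  have hb := bin_low a s hq hσ1 hσ hy0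
  set δ := y / (4 * σ) with hδdef
  have hδ : 0 < δ := by positivity
  have hq1 : q ≤ 1 := by nlinarith only [f2, hδ, hq]
  have hG := Good_par (lam := 1 / (1 + δ)) (by positivity) hq hq1 (full (a + s) a)
  have hex := exit_bottom hq a (a + s) (by linarith only [hN]) f2 (Nat.le_add_right a s)
    (by push_cast; rw [add_sub_cancel_left]; exact hσ.trans f3) f1
  have key : PP (fun _ => q ^ 2) (box (a + s) a)
      (fun A => y ≤ s * (q / (1 + q)) - ((ell A : ℝ) - ell (A ∩ box a a))) ≤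
      PP (par (1 / (1 + δ)) q) (full (a + s) a)
        (fun A => G (noBot A) (a + s) a < G (noLef A) (a + s) a) +
      PP (fun _ => sα (1 / (1 + δ)) q) (Ioc a (a + s))
        (fun B => y ≤ s * (q / (1 + q)) - (#B : ℝ)) := by
    classical
    have e1 : PP (fun _ => q ^ 2) (box (a + s) a)
      (fun A => y ≤ s * (q / (1 + q)) - ((ell A : ℝ) - ell (A ∩ box a a))) =
      PP (par (1 / (1 + δ)) q) (full (a + s) a) (fun A => y ≤ s * (q / (1 + q)) -
        ((ell (A ∩ box (a + s) a) : ℝ) - ell ((A ∩ box (a + s) a) ∩ box a a))) := by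
      unfold PP
      exact EP_box_eq_full (1 / (1 + δ)) q (a + s) a _
    rw [e1, ← PP_topInc (lam := 1 / (1 + δ)) (by positivity) hq a s a]
    refine (PP_mono hG ?_).trans (PP_or_le hG _ _)
    intro A _ hA
    by_cases hE : G (noBot A) (a + s) a < G (noLef A) (a + s) a
    · exact Or.inl hE
    · right
      push Not at hE
      have h1 := top_le_inc hE
      rw [G_bulk, G_bulk] at h1
      rw [inter_assoc, box_inter_box (Nat.le_add_right a s) (le_refl a)] at hA
      have h2 : (ell (A ∩ box a a) : ℝ) + #(topInc A (a + s) a ∩ Ioc a (a + s)) ≤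
        ell (A ∩ box (a + s) a) := by exact_mod_cast h1
      linarith only [hA, h2]
  calc y ^ 2 * PP (fun _ => q ^ 2) (box (a + s) a)
        (fun A => y ≤ s * (q / (1 + q)) - ((ell A : ℝ) - ell (A ∩ box a a)))
      ≤ y ^ 2 * (PP (par (1 / (1 + δ)) q) (full (a + s) a)
        (fun A => G (noBot A) (a + s) a < G (noLef A) (a + s) a) +
      PP (fun _ => sα (1 / (1 + δ)) q) (Ioc a (a + s))
        (fun B => y ≤ s * (q / (1 + q)) - (#B : ℝ))) := by
        gcongr
    _ ≤ y ^ 2 * (20000 * (1 + δ) ^ 2 / (q * a * δ ^ 3)) + 4 * σ := by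
        rw [mul_add]
        gcongr
    _ ≤ 5440000 * σ + 4 * σ := by gcongr
    _ = 5440004 * σ := by ring

end Pool.Agent.LPP.T5a
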