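import Pool.Agent.Lib.MP_6b8a80_h32.T5a_Compare
import Pool.Agent.Lib.MP_6b8a80_h32.T4_Exit

/-!
# MP_6b8a80, T5b: moments of binomial variables, second moment method, corner law
-/

set_option autoImplicit false

namespace Pool.Agent.LPP.T5b

open Finset Pool.Agent.LPP.T5a

/-- One step: adding an independent centred Bernoulli variable. -/
theorem mom_step (p : ℝ) {S : Finset ℕ} {i : ℕ} (hi : i ∉ S) (k : ℕ) :
    EP (fun _ => p) (insert i S) (fun A => ((#A : ℝ) - #(insert i S) * p) ^ k) =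
      EP (fun _ => p) S (fun A => p * ((#A : ℝ) - #S * p + (1 - p)) ^ k +
        (1 - p) * ((#A : ℝ) - #S * p - p) ^ k) := by
  rw [EP_insert _ hi, EP_add, EP_const_mul, EP_const_mul]
  congr 2
  · apply EP_congr
    intro A hA
    have hiA : i ∉ A := fun h => hi (hA h)
    rw [card_insert_of_notMem hiA, card_insert_of_notMem hi]
    congr 1
    push_cast
    ring
  · apply EP_congr
    intro A _
    rw [card_insert_of_notMem hi]
    congr 1
    push_cast
    ring

theorem mom1 (p : ℝ) (S : Finset ℕ) :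
    EP (fun _ => p) S (fun A => (#A : ℝ) - #S * p) = 0 := by
  induction S using Finset.induction_on with
  | empty => simp [EP_empty]
  | insert i S hi ih =>
    have h := mom_step p hi 1
    simp only [pow_one] at h
    rw [h]
    have h2 : EP (fun _ => p) S (fun A => p * ((#A : ℝ) - #S * p + (1 - p)) +
        (1 - p) * ((#A : ℝ) - #S * p - p)) = EP (fun _ => p) S (fun A => (#A : ℝ) - #S * p) := by
      apply EP_congr
      intro A _
      ring
    rw [h2, ih]

theorem mom2 (p : ℝ) (S : Finset ℕ) :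
    EP (fun _ => p) S (fun A => ((#A : ℝ) - #S * p) ^ 2) = #S * (p * (1 - p)) := by
  induction S using Finset.induction_on with
  | empty => simp [EP_empty]
  | insert i S hi ih =>
    rw [mom_step p hi 2]
    have h2 : EP (fun _ => p) S (fun A => p * ((#A : ℝ) - #S * p + (1 - p)) ^ 2 +
        (1 - p) * ((#A : ℝ) - #S * p - p) ^ 2) =
        EP (fun _ => p) S (fun A => ((#A : ℝ) - #S * p) ^ 2 + p * (1 - p)) := by
      apply EP_congr
      intro A _
      ring
    rw [h2, EP_add, EP_const, ih, card_insert_of_notMem hi]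
    push_cast
    ring

theorem mom4 {p : ℝ} (h0 : 0 ≤ p) (h1 : p ≤ 1) (S : Finset ℕ) :
    EP (fun _ => p) S (fun A => ((#A : ℝ) - #S * p) ^ 4) ≤
      3 * (#S * (p * (1 - p))) ^ 2 + #S * (p * (1 - p)) := by
  induction S using Finset.induction_on with
  | empty => simp [EP_empty]
  | insert i S hi ih =>
    rw [mom_step p hi 4]
    have h2 : EP (fun _ => p) S (fun A => p * ((#A : ℝ) - #S * p + (1 - p)) ^ 4 +
        (1 - p) * ((#A : ℝ) - #S * p - p) ^ 4) =
        EP (fun _ => p) S (fun A => (((#A : ℝ) - #S * p) ^ 4 +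
          (6 * (p * (1 - p))) * ((#A : ℝ) - #S * p) ^ 2) +
          (4 * (p * (1 - p)) * (1 - 2 * p)) * ((#A : ℝ) - #S * p)) +
          p * (1 - p) * (1 - 3 * (p * (1 - p))) := by
      rw [← EP_const (fun _ => p) S (p * (1 - p) * (1 - 3 * (p * (1 - p)))), ← EP_add]
      apply EP_congr
      intro A _
      ring
    rw [h2, EP_add, EP_add, EP_const_mul, EP_const_mul, mom1, mom2, card_insert_of_notMem hi]
    push_cast
    have hv : 0 ≤ p * (1 - p) := mul_nonneg h0 (sub_nonneg.mpr h1)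
    nlinarith [mul_nonneg hv hv]

/-- Corner law for functions of both increments. -/
theorem EP_corner {lam q : ℝ} (hl : 0 < lam) (hq : 0 < q) (a b w w' : ℕ)
    (Φ : Finset ℕ → Finset ℕ → ℝ) :
    EP (par lam q) (full (a + w) (b + w'))
      (fun A => Φ (topInc A (a + w) b ∩ Ioc a (a + w)) (rightInc A a (b + w') ∩ Ioc b (b + w'))) =
      EP (fun _ => sα lam q) (Ioc a (a + w)) (fun T =>
        EP (fun _ => sβ lam q) (Ioc b (b + w')) (fun R => Φ T R)) := by
  classical
  have h1 : ∀ A : Finset (ℕ × ℕ),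
      Φ (topInc A (a + w) b ∩ Ioc a (a + w)) (rightInc A a (b + w') ∩ Ioc b (b + w')) =
      ∑ T ∈ (Ioc a (a + w)).powerset,
        (fun T' => if T' = T then (1 : ℝ) else 0) (topInc A (a + w) b ∩ Ioc a (a + w)) *
        Φ T (rightInc A a (b + w') ∩ Ioc b (b + w')) := by
    intro A
    have hm : topInc A (a + w) b ∩ Ioc a (a + w) ∈ (Ioc a (a + w)).powerset :=
      mem_powerset.mpr inter_subset_right
    rw [sum_eq_single_of_mem _ hm]
    · simp
    · intro T _ hT
      have : topInc A (a + w) b ∩ Ioc a (a + w) ≠ T := fun h => hT h.symm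
      simp [this]
  rw [EP_congr _ _ (fun A _ => h1 A), EP_sum]
  have h2 : ∀ T ∈ (Ioc a (a + w)).powerset, EP (par lam q) (full (a + w) (b + w'))
      (fun A => (fun T' => if T' = T then (1 : ℝ) else 0) (topInc A (a + w) b ∩ Ioc a (a + w)) *
        Φ T (rightInc A a (b + w') ∩ Ioc b (b + w'))) =
      EP (fun _ => sα lam q) (Ioc a (a + w)) (fun T' =>
        (if T' = T then (1 : ℝ) else 0) * EP (fun _ => sβ lam q) (Ioc b (b + w')) (Φ T)) := by
    intro T _
    rw [burke_corner hl hq a b w w' (fun T' => if T' = T then (1 : ℝ) else 0) (Φ T), mul_comm,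
      ← EP_const_mul]
    apply EP_congr
    intro T' _
    ring
  rw [sum_congr rfl h2, ← EP_sum]
  apply EP_congr
  intro T hT
  rw [sum_eq_single_of_mem T (mem_powerset.mpr hT)]
  · simp
  · intro T' _ hT'
    have : T ≠ T' := fun h => hT' h.symm
    simp [this]

/-- Second moment method. -/
theorem pz {α : Type*} [DecidableEq α] {π : α → ℝ} {S : Finset α} (hπ : Good π S)
    (X : Finset α → ℝ) {τ : ℝ} (hτ : 0 < τ) (h1 : EP π S X = 0)
    (h2 : EP π S (fun A => X A ^ 2) = τ ^ 2) (h4 : EP π S (fun A => X A ^ 4) ≤ 4 * τ ^ 4) :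
    1 / 64 ≤ PP π S (fun A => τ / 8 ≤ X A) := by
  classical
  have key : ∀ x : ℝ, x / 2 + 3 / 8 * x ^ 2 / τ - x ^ 4 / (32 * τ ^ 3) - τ / 8 -
      x ^ 2 / (16 * τ) ≤ 4 * τ * (if τ / 8 ≤ x then 1 else 0) := by
    intro x
    obtain ⟨y, rfl⟩ : ∃ y, x = τ * y := ⟨x / τ, by field_simp⟩
    have e1 : τ * y / 2 + 3 / 8 * (τ * y) ^ 2 / τ - (τ * y) ^ 4 / (32 * τ ^ 3) - τ / 8 -
      (τ * y) ^ 2 / (16 * τ) = τ * (y / 2 + 3 / 8 * y ^ 2 - y ^ 4 / 32 - 1 / 8 - y ^ 2 / 16) := by
      field_simp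
    rw [e1]
    have e2 : (τ / 8 ≤ τ * y) ↔ (1 / 8 ≤ y) := by
      constructor
      · intro h
        by_contra hc
        push Not at hc
        nlinarith
      · intro h
        nlinarith
    rw [if_congr e2 rfl rfl]
    have e3 : y / 2 + 3 / 8 * y ^ 2 - y ^ 4 / 32 - 1 / 8 - y ^ 2 / 16 ≤
        4 * (if 1 / 8 ≤ y then 1 else 0) := by
      by_cases h : 1 / 8 ≤ y
      · rw [if_pos h]
        have h3 : 0 ≤ y * ((y - 2) ^ 2 * (y + 4)) := by positivity
        nlinarith [sq_nonneg (y - 8)]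
      · rw [if_neg h]
        push Not at h
        rcases le_or_gt 0 y with hy | hy
        · have h3 : 0 ≤ y * ((y - 2) ^ 2 * (y + 4)) := by positivity
          nlinarith [sq_nonneg y]
        · have h3 : 0 ≤ (-y) * (((-y) - 2) ^ 2 * ((-y) + 4)) := by
            have : 0 < -y := by linarith
            positivity
          nlinarith [sq_nonneg y]
    nlinarith
  have h5 := EP_mono hπ (f := fun A => X A / 2 + 3 / 8 * X A ^ 2 / τ - X A ^ 4 / (32 * τ ^ 3) -
    τ / 8 - X A ^ 2 / (16 * τ)) (g := fun A => 4 * τ * (if τ / 8 ≤ X A then 1 else 0))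
    (fun A _ => key (X A))
  have h6 : EP π S (fun A => 4 * τ * (if τ / 8 ≤ X A then 1 else 0)) =
      4 * τ * PP π S (fun A => τ / 8 ≤ X A) := by
    rw [EP_const_mul]
    unfold PP
    congr 1
  have h7 : EP π S (fun A => X A / 2 + 3 / 8 * X A ^ 2 / τ - X A ^ 4 / (32 * τ ^ 3) -
      τ / 8 - X A ^ 2 / (16 * τ)) =
      1 / 2 * EP π S X + (3 / (8 * τ) - 1 / (16 * τ)) * EP π S (fun A => X A ^ 2) -
        1 / (32 * τ ^ 3) * EP π S (fun A => X A ^ 4) - τ / 8 := by
    rw [← EP_const_mul, ← EP_const_mul, ← EP_const_mul, ← EP_add, ← EP_sub,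
      ← EP_const π S (τ / 8), ← EP_sub]
    apply EP_congr
    intro A _
    rw [EP_const]
    field_simp
    ring
  rw [h6, h7, h1, h2] at h5
  have h8 : 1 / (32 * τ ^ 3) * EP π S (fun A => X A ^ 4) ≤ τ / 8 := by
    calc 1 / (32 * τ ^ 3) * EP π S (fun A => X A ^ 4) ≤ 1 / (32 * τ ^ 3) * (4 * τ ^ 4) :=
          mul_le_mul_of_nonneg_left h4 (by positivity)
      _ = τ / 8 := by field_simp; ring
  have h9 : (3 / (8 * τ) - 1 / (16 * τ)) * τ ^ 2 = 5 / 16 * τ := by
    field_simp
    ring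
  rw [h9] at h5
  have h10 : τ * (1 / 16) ≤ τ * (4 * PP π S (fun A => τ / 8 ≤ X A)) := by linarith
  have h11 := le_of_mul_le_mul_left h10 hτ
  linarith

end Pool.Agent.LPP.T5b
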