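import Pool.Agent.Lib.MP_6b8a80_h32.T1_EP
import Pool.Agent.Lib.MP_6b8a80_h32.T2_G

set_option autoImplicit false

namespace Pool.Agent.LPP

open Finset

/-! ### symmetries -/

/-- translation of cells -/
def trEmb (s : ℕ × ℕ) : (ℕ × ℕ) ↪ (ℕ × ℕ) :=
  ⟨fun x => (x.1 + s.1, x.2 + s.2), by
    intro x y h
    simp only [Prod.mk.injEq] at h
    exact Prod.ext (by omega) (by omega)⟩

@[simp] theorem trEmb_apply (s x : ℕ × ℕ) : trEmb s x = (x.1 + s.1, x.2 + s.2) := rfl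

theorem box_map_tr (s : ℕ × ℕ) (a b : ℕ) : (box a b).map (trEmb s) = sbox s a b := by
  ext ⟨x, y⟩
  simp only [box, sbox, mem_map, mem_product, mem_Icc, mem_Ioc, trEmb_apply,
    Prod.exists, Prod.mk.injEq]
  constructor
  · rintro ⟨u, v, ⟨⟨h1, h2⟩, h3, h4⟩, h5, h6⟩
    omega
  · rintro ⟨⟨h1, h2⟩, h3, h4⟩
    exact ⟨x - s.1, y - s.2, ⟨⟨by omega, by omega⟩, by omega, by omega⟩, by omega, by omega⟩

theorem ell_tr (s : ℕ × ℕ) (A : Finset (ℕ × ℕ)) : ell (A.map (trEmb s)) = ell A := by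
  apply ell_map
  intro x _ y _
  simp only [trEmb_apply]
  omega

theorem below_tr (s z : ℕ × ℕ) (A : Finset (ℕ × ℕ)) :
    below (z.1 + s.1, z.2 + s.2) (A.map (trEmb s)) = (below z A).map (trEmb s) := by
  ext ⟨x, y⟩
  simp only [below, trEmb_apply, mem_map, mem_filter, Prod.exists,
    Prod.mk.injEq]
  constructor
  · rintro ⟨⟨u, v, h, h1, h2⟩, h3, h4⟩
    exact ⟨u, v, ⟨h, by omega, by omega⟩, h1, h2⟩
  · rintro ⟨u, v, ⟨h, h3, h4⟩, h1, h2⟩
    exact ⟨⟨u, v, h, h1, h2⟩, by omega, by omega⟩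

theorem above_tr (s z : ℕ × ℕ) (A : Finset (ℕ × ℕ)) :
    above (z.1 + s.1, z.2 + s.2) (A.map (trEmb s)) = (above z A).map (trEmb s) := by
  ext ⟨x, y⟩
  simp only [above, trEmb_apply, mem_map, mem_filter, Prod.exists,
    Prod.mk.injEq]
  constructor
  · rintro ⟨⟨u, v, h, h1, h2⟩, h3, h4⟩
    exact ⟨u, v, ⟨h, by omega, by omega⟩, h1, h2⟩
  · rintro ⟨u, v, ⟨h, h3, h4⟩, h1, h2⟩
    exact ⟨⟨u, v, h, h1, h2⟩, by omega, by omega⟩

theorem dfc_tr (k : ℕ) (s z : ℕ × ℕ) (A : Finset (ℕ × ℕ)) :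
    dfc k (z.1 + s.1, z.2 + s.2) (A.map (trEmb s)) ↔ dfc k z A := by
  simp only [dfc, below_tr, above_tr, ell_tr]

/-- translation invariance -/
theorem EP_tr (p : ℝ) (s : ℕ × ℕ) (a b : ℕ) (f : Finset (ℕ × ℕ) → ℝ) :
    EP (fun _ => p) (sbox s a b) f = EP (fun _ => p) (box a b) (fun A => f (A.map (trEmb s))) := by
  rw [← box_map_tr, EP_map]

/-- reflection `i ↦ n + 1 - i` of `{1, …, n}` extended by the identity -/
def rflFun (n i : ℕ) : ℕ := if 1 ≤ i ∧ i ≤ n then n + 1 - i else i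

theorem rflFun_invol (n : ℕ) : Function.Involutive (rflFun n) := by
  intro i
  unfold rflFun
  split_ifs <;> omega

def rflEmb (n m : ℕ) : (ℕ × ℕ) ↪ (ℕ × ℕ) :=
  ⟨fun x => (rflFun n x.1, rflFun m x.2), by
    intro x y h
    simp only [Prod.mk.injEq] at h
    exact Prod.ext ((rflFun_invol n).injective h.1) ((rflFun_invol m).injective h.2)⟩

@[simp] theorem rflEmb_apply (n m : ℕ) (x : ℕ × ℕ) :
    rflEmb n m x = (rflFun n x.1, rflFun m x.2) := rfl

theorem box_map_rfl (n m : ℕ) : (box n m).map (rflEmb n m) = box n m := by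
  ext ⟨x, y⟩
  simp only [box, rflEmb_apply, mem_map, mem_product, mem_Icc,
    Prod.exists, Prod.mk.injEq]
  constructor
  · rintro ⟨u, v, ⟨⟨h1, h2⟩, h3, h4⟩, h5, h6⟩
    unfold rflFun at h5 h6
    rw [if_pos (by omega)] at h5 h6
    omega
  · rintro ⟨⟨h1, h2⟩, h3, h4⟩
    refine ⟨rflFun n x, rflFun m y, ?_, rflFun_invol n x, rflFun_invol m y⟩
    unfold rflFun
    rw [if_pos (by omega), if_pos (by omega)]
    omega

theorem ell_rfl (n m : ℕ) {A : Finset (ℕ × ℕ)} (hA : A ⊆ box n m) :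
    ell (A.map (rflEmb n m)) = ell A := by
  apply ell_map_rev
  intro x hx y hy
  have h1 := hA hx
  have h2 := hA hy
  simp only [box, mem_product, mem_Icc] at h1 h2
  simp only [rflEmb_apply, rflFun]
  rw [if_pos (by omega), if_pos (by omega), if_pos (by omega), if_pos (by omega)]
  omega

/-- reflection maps the right box to the left box -/
theorem rfl_inter (a s : ℕ) {A : Finset (ℕ × ℕ)} (hA : A ⊆ box (a + s) a) :
    (A.map (rflEmb (a + s) a)) ∩ sbox (s, 0) a a = (A ∩ box a a).map (rflEmb (a + s) a) := by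
  ext ⟨x, y⟩
  simp only [mem_inter, mem_map, Prod.exists]
  constructor
  · rintro ⟨⟨u, v, h, h1⟩, h2⟩
    refine ⟨u, v, ⟨h, ?_⟩, h1⟩
    have h3 := hA h
    simp only [box, sbox, mem_product, mem_Icc, mem_Ioc, rflEmb_apply,
      rflFun, Prod.mk.injEq] at h3 h1 h2 ⊢
    rw [if_pos (by omega), if_pos (by omega)] at h1
    omega
  · rintro ⟨u, v, ⟨h, h2⟩, h1⟩
    refine ⟨⟨u, v, h, h1⟩, ?_⟩
    have h3 := hA h
    simp only [box, sbox, mem_product, mem_Icc, mem_Ioc, rflEmb_apply,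
      rflFun, Prod.mk.injEq] at h3 h1 h2 ⊢
    rw [if_pos (by omega), if_pos (by omega)] at h1
    omega

/-- transposition -/
def swEmb : (ℕ × ℕ) ↪ (ℕ × ℕ) := (Equiv.prodComm ℕ ℕ).toEmbedding

@[simp] theorem swEmb_apply (x : ℕ × ℕ) : swEmb x = (x.2, x.1) := rfl

theorem ell_sw (A : Finset (ℕ × ℕ)) : ell (A.map swEmb) = ell A := by
  apply ell_map
  intro x _ y _
  simp only [swEmb_apply]
  tauto

theorem sbox_sw (s : ℕ × ℕ) (a b : ℕ) : (sbox s a b).map swEmb = sbox (s.2, s.1) b a := by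
  ext ⟨x, y⟩
  simp only [swEmb_apply, sbox, mem_map, mem_product, mem_Ioc, Prod.exists, Prod.mk.injEq]
  constructor
  · rintro ⟨u, v, ⟨⟨h1, h2⟩, h3, h4⟩, h5, h6⟩
    omega
  · rintro ⟨⟨h1, h2⟩, h3, h4⟩
    exact ⟨y, x, by omega, rfl, rfl⟩

theorem map_inter_sw (A : Finset (ℕ × ℕ)) (s : ℕ × ℕ) (a b : ℕ) :
    (A.map swEmb) ∩ sbox s a b = (A ∩ sbox (s.2, s.1) b a).map swEmb := by
  rw [map_inter, sbox_sw]

end Pool.Agent.LPP
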