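import Pool.Agent.Lib.MP_6b8a80_h32.T5b_Moments
import Pool.Agent.Lib.MP_6b8a80_h32.T8a_Sym

/-!
# MP_6b8a80, T5b: lower bound for the variance
-/

set_option autoImplicit false

namespace Pool.Agent.LPP.T5b

open Finset Pool.Agent.LPP.T5a

theorem exit_mono {A : Finset (ℕ × ℕ)} {a w : ℕ}
    (h : G (noBot A) a (a + w) ≤ G (noLef A) a (a + w)) : G (noBot A) a a ≤ G (noLef A) a a := by
  have h1 := G_attractive_up (A := noBot A) (B := noLef A)
    (by rw [bulk_noBot, bulk_noLef]) (by intro i hi; simp [noBot] at hi)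
    (by intro j hj; simp [noLef] at hj) a a w
  omega

/-- Comparison of the difference of the two passage times with the stationary increments. -/
theorem compare {A : Finset (ℕ × ℕ)} {a w : ℕ}
    (h : ¬ G (noLef A) a (a + w) < G (noBot A) a (a + w)) :
    ((#(rightInc A a (a + w) ∩ Ioc a (a + w)) : ℝ) - #(topInc A (a + w) a ∩ Ioc a (a + w))) ≤
      (ell (A ∩ box a (a + w)) : ℝ) - ell (A ∩ box (a + w) a) := by
  push Not at h
  have h1 := right_le_inc (A := A) (a := a) (b := a) (w := w) h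
  have h2 := inc_le_top (exit_mono h) w
  rw [← G_bulk, ← G_bulk]
  have h3 : #(rightInc A a (a + w) ∩ Ioc a (a + w)) + G (bulk A) (a + w) a ≤
      G (bulk A) a (a + w) + #(topInc A (a + w) a ∩ Ioc a (a + w)) := by omega
  have h4 : ((#(rightInc A a (a + w) ∩ Ioc a (a + w)) + G (bulk A) (a + w) a : ℕ) : ℝ) ≤
      ((G (bulk A) a (a + w) + #(topInc A (a + w) a ∩ Ioc a (a + w)) : ℕ) : ℝ) := by
    exact_mod_cast h3
  push_cast at h4
  linarith

theorem EP_transpose (p : ℝ) (a b : ℕ) (F : ℝ → ℝ) :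
    EP (fun _ => p) (box a b) (fun A => F (ell A)) =
      EP (fun _ => p) (box b a) (fun A => F (ell A)) := by
  have h1 : (box b a).map swEmb = box a b := by
    ext ⟨x, y⟩
    simp only [box, mem_map, mem_product, mem_Icc, Prod.exists, swEmb_apply, Prod.mk.injEq]
    constructor
    · rintro ⟨u, v, ⟨⟨h1, h2⟩, h3, h4⟩, h5, h6⟩
      omega
    · rintro ⟨⟨h1, h2⟩, h3, h4⟩
      exact ⟨y, x, by omega, rfl, rfl⟩
  rw [← h1, EP_map]
  apply EP_congr
  intro A _
  rw [ell_sw]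

/-- The variance dominates the mean square of the difference. -/
theorem diff_sq_le {p : ℝ} (h0 : 0 ≤ p) (h1 : p ≤ 1) (a w : ℕ) :
    EP (fun _ => p) (box (a + w) (a + w))
      (fun A => ((ell (A ∩ box a (a + w)) : ℝ) - ell (A ∩ box (a + w) a)) ^ 2) ≤
      4 * VP (fun _ => p) (box (a + w) a) (fun A => (ell A : ℝ)) := by
  have hG := Good_const h0 h1 (box (a + w) (a + w))
  set m : ℝ := EP (fun _ => p) (box (a + w) a) (fun A => (ell A : ℝ)) with hm
  have h2 : EP (fun _ => p) (box (a + w) (a + w))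
      (fun A => ((ell (A ∩ box a (a + w)) : ℝ) - ell (A ∩ box (a + w) a)) ^ 2) ≤
      EP (fun _ => p) (box (a + w) (a + w)) (fun A =>
        2 * ((ell (A ∩ box a (a + w)) : ℝ) - m) ^ 2 +
        2 * ((ell (A ∩ box (a + w) a) : ℝ) - m) ^ 2) := by
    apply EP_mono hG
    intro A _
    nlinarith [sq_nonneg (((ell (A ∩ box a (a + w)) : ℝ) - m) +
      ((ell (A ∩ box (a + w) a) : ℝ) - m))]
  have h3 : EP (fun _ => p) (box (a + w) (a + w))
      (fun A => ((ell (A ∩ box a (a + w)) : ℝ) - m) ^ 2) =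
      EP (fun _ => p) (box (a + w) a) (fun A => ((ell A : ℝ) - m) ^ 2) := by
    rw [EP_inter (fun _ => p) (box_mono (Nat.le_add_right a w) le_rfl)
      (fun A => ((ell A : ℝ) - m) ^ 2)]
    exact EP_transpose p a (a + w) (fun x => (x - m) ^ 2)
  have h4 : EP (fun _ => p) (box (a + w) (a + w))
      (fun A => ((ell (A ∩ box (a + w) a) : ℝ) - m) ^ 2) =
      EP (fun _ => p) (box (a + w) a) (fun A => ((ell A : ℝ) - m) ^ 2) :=
    EP_inter (fun _ => p) (box_mono le_rfl (Nat.le_add_right a w))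
      (fun A => ((ell A : ℝ) - m) ^ 2)
  rw [EP_add, EP_const_mul, EP_const_mul, h3, h4] at h2
  have h5 : VP (fun _ => p) (box (a + w) a) (fun A => (ell A : ℝ)) =
      EP (fun _ => p) (box (a + w) a) (fun A => ((ell A : ℝ) - m) ^ 2) := rfl
  rw [h5]
  linarith only [h2]

theorem EP_diff_full (lam q : ℝ) (a w : ℕ) :
    EP (par lam q) (full (a + w) (a + w))
      (fun A => ((ell (A ∩ box a (a + w)) : ℝ) - ell (A ∩ box (a + w) a)) ^ 2) =
    EP (fun _ => q ^ 2) (box (a + w) (a + w))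
      (fun A => ((ell (A ∩ box a (a + w)) : ℝ) - ell (A ∩ box (a + w) a)) ^ 2) := by
  rw [EP_box_eq_full lam q]
  apply EP_congr
  intro A _
  rw [inter_assoc, inter_assoc, box_inter_box (Nat.le_add_right a w) le_rfl,
    box_inter_box le_rfl (Nat.le_add_right a w)]

/-- Moments of the difference of two independent binomial variables. -/
theorem mom_diff {lam q : ℝ} (hl : 0 < lam) (hq : 0 < q) (a w : ℕ)
    (hα0 : 0 ≤ sα lam q) (hα1 : sα lam q ≤ 1) (hβ0 : 0 ≤ sβ lam q) (hβ1 : sβ lam q ≤ 1) {τ : ℝ}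
    (hτ : τ ^ 2 = w * (sα lam q * (1 - sα lam q)) + w * (sβ lam q * (1 - sβ lam q)))
    (hτ1 : 1 ≤ τ ^ 2) :
    let X : Finset (ℕ × ℕ) → ℝ := fun A =>
      ((#(rightInc A a (a + w) ∩ Ioc a (a + w)) : ℝ) - w * sβ lam q) -
      ((#(topInc A (a + w) a ∩ Ioc a (a + w)) : ℝ) - w * sα lam q)
    EP (par lam q) (full (a + w) (a + w)) X = 0 ∧
    EP (par lam q) (full (a + w) (a + w)) (fun A => X A ^ 2) = τ ^ 2 ∧
    EP (par lam q) (full (a + w) (a + w)) (fun A => X A ^ 4) ≤ 4 * τ ^ 4 := by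
  intro X
  set α := sα lam q with hα
  set β := sβ lam q with hβ
  have hc : (#(Ioc a (a + w)) : ℝ) = w := by
    rw [Nat.card_Ioc]
    congr 1
    omega
  have mα1 := mom1 α (Ioc a (a + w))
  have mα2 := mom2 α (Ioc a (a + w))
  have mα4 := mom4 hα0 hα1 (Ioc a (a + w))
  have mβ1 := mom1 β (Ioc a (a + w))
  have mβ2 := mom2 β (Ioc a (a + w))
  have mβ4 := mom4 hβ0 hβ1 (Ioc a (a + w))
  rw [hc] at mα1 mα2 mα4 mβ1 mβ2 mβ4
  refine ⟨?_, ?_, ?_⟩
  · have h := EP_corner hl hq a a w w (fun T R => ((#R : ℝ) - w * β) - ((#T : ℝ) - w * α))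
    refine h.trans ?_
    have h2 : ∀ T : Finset ℕ, EP (fun _ => sβ lam q) (Ioc a (a + w))
        (fun R => ((#R : ℝ) - w * β) - ((#T : ℝ) - w * α)) = 0 - ((#T : ℝ) - w * α) := by
      intro T
      rw [EP_sub, mβ1, EP_const]
    rw [EP_congr _ _ (fun T _ => h2 T), EP_sub, EP_const, mα1, sub_zero]
  · have h := EP_corner hl hq a a w w (fun T R => (((#R : ℝ) - w * β) - ((#T : ℝ) - w * α)) ^ 2)
    refine h.trans ?_
    have h2 : ∀ T : Finset ℕ, EP (fun _ => sβ lam q) (Ioc a (a + w))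
        (fun R => (((#R : ℝ) - w * β) - ((#T : ℝ) - w * α)) ^ 2) =
        ((#T : ℝ) - w * α) ^ 2 + w * (β * (1 - β)) := by
      intro T
      have h3 : EP (fun _ => sβ lam q) (Ioc a (a + w))
          (fun R => (((#R : ℝ) - w * β) - ((#T : ℝ) - w * α)) ^ 2) =
          EP (fun _ => β) (Ioc a (a + w)) (fun R => (((#R : ℝ) - w * β) ^ 2 +
            (-2 * ((#T : ℝ) - w * α)) * ((#R : ℝ) - w * β)) + ((#T : ℝ) - w * α) ^ 2) := by
        apply EP_congr
        intro R _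
        ring
      rw [h3, EP_add, EP_add, EP_const_mul, mβ1, mβ2, EP_const]
      ring
    rw [EP_congr _ _ (fun T _ => h2 T), EP_add, EP_const, mα2, hτ]
  · have h := EP_corner hl hq a a w w (fun T R => (((#R : ℝ) - w * β) - ((#T : ℝ) - w * α)) ^ 4)
    have h2 : ∀ T : Finset ℕ, EP (fun _ => sβ lam q) (Ioc a (a + w))
        (fun R => (((#R : ℝ) - w * β) - ((#T : ℝ) - w * α)) ^ 4) =
        ((#T : ℝ) - w * α) ^ 4 + (6 * (w * (β * (1 - β)))) * ((#T : ℝ) - w * α) ^ 2 +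
        (-4 * EP (fun _ => β) (Ioc a (a + w)) (fun R => ((#R : ℝ) - w * β) ^ 3)) *
          ((#T : ℝ) - w * α) +
        EP (fun _ => β) (Ioc a (a + w)) (fun R => ((#R : ℝ) - w * β) ^ 4) := by
      intro T
      have h3 : EP (fun _ => sβ lam q) (Ioc a (a + w))
          (fun R => (((#R : ℝ) - w * β) - ((#T : ℝ) - w * α)) ^ 4) =
          EP (fun _ => β) (Ioc a (a + w)) (fun R => ((((#R : ℝ) - w * β) ^ 4 +
            (-4 * ((#T : ℝ) - w * α)) * ((#R : ℝ) - w * β) ^ 3) +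
            (6 * ((#T : ℝ) - w * α) ^ 2) * ((#R : ℝ) - w * β) ^ 2) +
            (-4 * ((#T : ℝ) - w * α) ^ 3) * ((#R : ℝ) - w * β) + ((#T : ℝ) - w * α) ^ 4) := by
        apply EP_congr
        intro R _
        ring
      rw [h3, EP_add, EP_add, EP_add, EP_add, EP_const_mul, EP_const_mul, EP_const_mul, mβ1, mβ2,
        EP_const]
      ring
    have h5 : EP (par lam q) (full (a + w) (a + w)) (fun A => X A ^ 4) =
        EP (fun _ => α) (Ioc a (a + w)) (fun T => ((#T : ℝ) - w * α) ^ 4) +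
        (6 * (w * (β * (1 - β)))) * (w * (α * (1 - α))) +
        EP (fun _ => β) (Ioc a (a + w)) (fun R => ((#R : ℝ) - w * β) ^ 4) := by
      refine h.trans ?_
      rw [EP_congr _ _ (fun T _ => h2 T), EP_add, EP_add, EP_add, EP_const_mul, EP_const_mul, mα1,
        mα2, EP_const]
      ring
    rw [h5]
    have hsq : τ ^ 4 = (w * (α * (1 - α)) + w * (β * (1 - β))) ^ 2 := by
      rw [← hτ]; ring
    rw [hτ] at hτ1
    rw [hsq]
    nlinarith only [mα4, mβ4, hτ1, hα0, hα1, hβ0, hβ1]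

end Pool.Agent.LPP.T5b

namespace Pool.Agent.LPP.T5b

open Finset Pool.Agent.LPP.T5a

theorem main_bound {q δ : ℝ} (hq : 0 < q) (hq1 : q ≤ 1 / 1000) (hδ0 : 0 < δ) (hδ1 : δ ≤ 1)
    {a w : ℕ} (ha : 1 ≤ q * a) {u : ℝ} (hu : 0 < u) (hu2 : q * w = u ^ 2) (hu1 : 2 ≤ u ^ 2)
    (hδu : δ * u ≤ 1 / 64) (hba : q * w ≤ q * a * δ / 10)
    (hδ : (q * a) ^ (-(1 : ℝ) / 3) ≤ δ)
    (hex : 20000 * (1 + δ) ^ 2 / (q * a * δ ^ 3) ≤ 1 / 128) :
    u ^ 2 / 524288 ≤ VP (fun _ => q ^ 2) (box (a + w) a) (fun A => (ell A : ℝ)) := by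
  set lam : ℝ := 1 + δ with hlam
  have hl : 0 < lam := by positivity
  have hl1 : 1 ≤ lam := by linarith
  have hl2 : lam ≤ 2 := by linarith
  have hG := Good_par hl hq (by linarith : q ≤ 1) (full (a + w) (a + w))
  -- the two densities
  have hden1 : 0 < 1 + lam * q := by positivity
  have hden2 : 0 < lam + q := by positivity
  have hα0 : 0 ≤ sα lam q := by unfold sα; positivity
  have hα1 : sα lam q ≤ 1 := by
    unfold sα
    rw [div_le_one hden1]
    linarith
  have hβ0 : 0 ≤ sβ lam q := by unfold sβ; positivity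
  have hβ1 : sβ lam q ≤ 1 := by
    unfold sβ
    rw [div_le_one hden2]
    linarith
  have hvα : q / 2 ≤ sα lam q * (1 - sα lam q) := by
    have e : sα lam q * (1 - sα lam q) = lam * q / (1 + lam * q) ^ 2 := by
      unfold sα
      field_simp
      ring
    rw [e, le_div_iff₀ (by positivity)]
    have h1 : lam * q ≤ 1 / 10 := by nlinarith only [hq, hq1, hl1, hl2]
    have h2 : (1 + lam * q) ^ 2 ≤ 2 := by nlinarith only [mul_pos hl hq, h1]
    nlinarith only [h2, hq, hl1]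
  have hvβ : 0 ≤ sβ lam q * (1 - sβ lam q) := mul_nonneg hβ0 (sub_nonneg.mpr hβ1)
  have hdiff : -(2 * δ * q) ≤ sβ lam q - sα lam q := by
    have e : sβ lam q - sα lam q = -(q * (lam ^ 2 - 1) / ((1 + lam * q) * (lam + q))) := by
      unfold sα sβ
      field_simp
      ring
    rw [e, neg_le_neg_iff, div_le_iff₀ (by positivity)]
    have h1 : lam ^ 2 - 1 = δ * (lam + 1) := by rw [hlam]; ring
    rw [h1]
    have h2 : lam ≤ (1 + lam * q) * (lam + q) := by nlinarith only [mul_pos hl hq, mul_pos hl hl, hl1, hq]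
    have h3 : lam + 1 ≤ 2 * ((1 + lam * q) * (lam + q)) := by linarith only [h2, hl1]
    have h4 : 0 < δ * q := by positivity
    linarith only [mul_le_mul_of_nonneg_left h3 h4.le]
  -- the variance
  set s2 : ℝ := w * (sα lam q * (1 - sα lam q)) + w * (sβ lam q * (1 - sβ lam q)) with hs2
  have hw : (0 : ℝ) ≤ w := Nat.cast_nonneg w
  have hs2' : u ^ 2 / 2 ≤ s2 := by
    have h1 : u ^ 2 / 2 = w * (q / 2) := by rw [← hu2]; ring
    rw [h1, hs2]
    have h2 := mul_le_mul_of_nonneg_left hvα hw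
    have h3 := mul_nonneg hw hvβ
    linarith only [h2, h3]
  have hs2pos : 0 < s2 := by linarith only [hs2', hu1]
  set τ : ℝ := Real.sqrt s2 with hτ
  have hτ0 : 0 < τ := Real.sqrt_pos.mpr hs2pos
  have hτ2 : τ ^ 2 = s2 := Real.sq_sqrt hs2pos.le
  have hτ1 : 1 ≤ τ ^ 2 := by rw [hτ2]; linarith only [hs2', hu1]
  have hτu : u / 2 ≤ τ := by
    have h1 : (u / 2) ^ 2 ≤ τ ^ 2 := by rw [hτ2, div_pow]; linarith only [hs2', hu1]
    exact le_of_sq_le_sq h1 hτ0.le
  obtain ⟨m1, m2, m4⟩ := mom_diff hl hq a w hα0 hα1 hβ0 hβ1 (hτ2.trans hs2) hτ1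
  have hpz := pz hG _ hτ0 m1 m2 m4
  -- from the stationary increments to the difference
  have hexit : PP (par lam q) (full (a + w) (a + w))
      (fun A => G (noLef A) a (a + w) < G (noBot A) a (a + w)) ≤ 1 / 128 := by
    rw [PP_exit_left (par lam q) (Nat.le_add_right a w) le_rfl]
    refine (exit_left hq a (a + w) ha (by nlinarith only [hq, hq1, hδ0, hδ1]) (Nat.le_add_right a w) ?_ hδ).trans hex
    push_cast
    have : q * ((a : ℝ) + w - a) = q * w := by ring
    rw [this]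
    exact hba
  have hcmp : PP (par lam q) (full (a + w) (a + w)) (fun A => τ / 8 ≤
      ((#(rightInc A a (a + w) ∩ Ioc a (a + w)) : ℝ) - w * sβ lam q) -
      ((#(topInc A (a + w) a ∩ Ioc a (a + w)) : ℝ) - w * sα lam q)) ≤
      PP (par lam q) (full (a + w) (a + w)) (fun A =>
        u / 32 ≤ (ell (A ∩ box a (a + w)) : ℝ) - ell (A ∩ box (a + w) a)) +
      PP (par lam q) (full (a + w) (a + w))
        (fun A => G (noLef A) a (a + w) < G (noBot A) a (a + w)) := by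
    refine (PP_mono hG ?_).trans (PP_or_le hG _ _)
    intro A _ h
    by_cases he : G (noLef A) a (a + w) < G (noBot A) a (a + w)
    · exact Or.inr he
    · left
      have h1 := compare he
      have h2 : w * (-(2 * δ * q)) ≤ w * (sβ lam q - sα lam q) :=
        mul_le_mul_of_nonneg_left hdiff hw
      have h3 : (w : ℝ) * (-(2 * δ * q)) = -(2 * δ * u ^ 2) := by rw [← hu2]; ring
      have h4 : 2 * δ * u ^ 2 ≤ u / 32 := by linarith only [mul_le_mul_of_nonneg_right hδu hu.le]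
      linarith only [h, h1, h2, h3, h4, hτu]
  have hP : 1 / 128 ≤ PP (par lam q) (full (a + w) (a + w)) (fun A =>
        u / 32 ≤ (ell (A ∩ box a (a + w)) : ℝ) - ell (A ∩ box (a + w) a)) := by
    linarith only [hpz, hcmp, hexit]
  have hM := PP_markov hG (fun A => ((ell (A ∩ box a (a + w)) : ℝ) -
    ell (A ∩ box (a + w) a)) ^ 2) (fun _ _ => sq_nonneg _) ((u / 32) ^ 2) (sq_nonneg _)
  have hM2 : PP (par lam q) (full (a + w) (a + w)) (fun A =>
        u / 32 ≤ (ell (A ∩ box a (a + w)) : ℝ) - ell (A ∩ box (a + w) a)) ≤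
      PP (par lam q) (full (a + w) (a + w)) (fun A =>
        (u / 32) ^ 2 ≤ ((ell (A ∩ box a (a + w)) : ℝ) - ell (A ∩ box (a + w) a)) ^ 2) := by
    apply PP_mono hG
    intro A _ h
    exact pow_le_pow_left₀ (by positivity) h 2
  rw [EP_diff_full] at hM
  have hD := diff_sq_le (p := q ^ 2) (sq_nonneg q) (pow_le_one₀ hq.le (by linarith only [hq1])) a w
  have h5 : (u / 32) ^ 2 * (1 / 128) ≤ (u / 32) ^ 2 * PP (par lam q) (full (a + w) (a + w)) (fun A =>
        (u / 32) ^ 2 ≤ ((ell (A ∩ box a (a + w)) : ℝ) - ell (A ∩ box (a + w) a)) ^ 2) :=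
    mul_le_mul_of_nonneg_left (hP.trans hM2) (sq_nonneg _)
  have h6 : (u / 32) ^ 2 * (1 / 128) = 4 * (u ^ 2 / 524288) := by ring
  linarith only [hM, hD, h5, h6]

end Pool.Agent.LPP.T5b

namespace Pool.Agent.LPP

open Finset

/-- E2 -/
theorem var_lower : ∃ c c₀ N₀ : ℝ, 0 < c ∧ 0 < c₀ ∧ 1 ≤ N₀ ∧ ∀ (q : ℝ) (a w : ℕ), 0 < q →
    N₀ ≤ q * a → q * (q * a) ^ 10 ≤ 1 → c₀ / 2 * (q * a) ^ ((2 : ℝ) / 3) ≤ q * w →
    q * w ≤ c₀ * (q * a) ^ ((2 : ℝ) / 3) →
    c * (q * a) ^ ((2 : ℝ) / 3) ≤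
      VP (fun _ => q ^ 2) (box (a + w) a) (fun A => (ell A : ℝ)) := by
  refine ⟨(1 / 16384) ^ 2 / 1048576, (1 / 16384) ^ 2, 10 ^ 15, by positivity, by positivity,
    by norm_num, ?_⟩
  intro q a w hq hN hqN hw1 hw2
  set N : ℝ := q * a with hNdef
  have hN0 : 0 < N := lt_of_lt_of_le (by norm_num) hN
  set M : ℝ := N ^ ((1 : ℝ) / 3) with hM
  have hM0 : 0 < M := Real.rpow_pos_of_pos hN0 _
  have hM3 : M ^ 3 = N := by
    rw [hM, ← Real.rpow_natCast, ← Real.rpow_mul hN0.le]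
    norm_num
  have hM2 : N ^ ((2 : ℝ) / 3) = M ^ 2 := by
    rw [hM, ← Real.rpow_natCast, ← Real.rpow_mul hN0.le]
    norm_num
  have hMinv : N ^ (-(1 : ℝ) / 3) = M⁻¹ := by
    rw [hM, ← Real.rpow_neg hN0.le]
    norm_num
  have hMbig : 10 ^ 5 ≤ M := by
    by_contra hc
    push Not at hc
    have h1 : M ^ 3 < (10 ^ 5) ^ 3 := pow_lt_pow_left₀ hc hM0.le (by norm_num)
    rw [hM3] at h1
    norm_num at h1
    linarith only [h1, hN]
  have hq1 : q ≤ 1 / 1000 := by
    have h1 : (1000 : ℝ) ≤ N ^ 10 := by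
      have h2 : (1000 : ℝ) ^ 10 ≤ N ^ 10 :=
        pow_le_pow_left₀ (by norm_num) (le_trans (by norm_num) hN) 10
      exact le_trans (by norm_num) h2
    have h3 : q * 1000 ≤ q * N ^ 10 := mul_le_mul_of_nonneg_left h1 hq.le
    linarith only [h3, hqN]
  rw [hM2] at hw1 hw2 ⊢
  have hqw : 0 < q * w := lt_of_lt_of_le (by positivity) hw1
  set u : ℝ := Real.sqrt (q * w) with hu
  have hu0 : 0 < u := Real.sqrt_pos.mpr hqw
  have hu2 : q * w = u ^ 2 := (Real.sq_sqrt hqw.le).symm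
  rw [hu2] at hw1 hw2
  have huM : u ≤ 1 / 16384 * M := by
    have h1 : u ^ 2 ≤ (1 / 16384 * M) ^ 2 := by rw [mul_pow]; exact hw2
    exact le_of_sq_le_sq h1 (by positivity)
  have hu1 : 2 ≤ u ^ 2 := by
    have h1 : (10 ^ 5 : ℝ) ^ 2 ≤ M ^ 2 := pow_le_pow_left₀ (by norm_num) hMbig 2
    have h2 : (1 / 16384 : ℝ) ^ 2 / 2 * (10 ^ 5) ^ 2 ≤ (1 / 16384) ^ 2 / 2 * M ^ 2 :=
      mul_le_mul_of_nonneg_left h1 (by norm_num)
    have h3 : (2 : ℝ) ≤ (1 / 16384 : ℝ) ^ 2 / 2 * (10 ^ 5) ^ 2 := by norm_num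
    linarith only [h2, h3, hw1]
  have hu1' : 1 ≤ u := by nlinarith only [hu1, hu0]
  have hδ0 : 0 < 1 / (64 * u) := by positivity
  have hmain := T5b.main_bound (q := q) (δ := 1 / (64 * u)) hq hq1 hδ0
    (by rw [div_le_one (by positivity)]; linarith only [hu1']) (a := a) (w := w)
    (le_trans (by norm_num) hN) hu0 hu2 hu1
    (by
      have : 1 / (64 * u) * u = 1 / 64 := by field_simp
      rw [this])
    (by
      rw [hu2]
      change u ^ 2 ≤ N * (1 / (64 * u)) / 10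
      have h1 : u ^ 3 ≤ (1 / 16384 * M) ^ 3 := pow_le_pow_left₀ hu0.le huM 3
      rw [mul_pow, hM3] at h1
      have h2 : N * (1 / (64 * u)) / 10 = N / (640 * u) := by
        field_simp
        ring
      rw [h2, le_div_iff₀ (by positivity)]
      nlinarith only [h1, hN0, hu0])
    (by
      change N ^ (-(1 : ℝ) / 3) ≤ _
      rw [hMinv, inv_eq_one_div]
      apply one_div_le_one_div_of_le (by positivity)
      linarith only [huM, hM0])
    (by
      change 20000 * (1 + 1 / (64 * u)) ^ 2 / (N * (1 / (64 * u)) ^ 3) ≤ 1 / 128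
      have h1 : u ^ 3 ≤ (1 / 16384 * M) ^ 3 := pow_le_pow_left₀ hu0.le huM 3
      rw [mul_pow, hM3] at h1
      have h2 : (1 + 1 / (64 * u)) ^ 2 ≤ 4 := by
        have h3 : 1 / (64 * u) ≤ 1 := by rw [div_le_one (by positivity)]; linarith only [hu1']
        nlinarith only [h3, hδ0]
      have h4 : N * (1 / (64 * u)) ^ 3 = N / (262144 * u ^ 3) := by
        field_simp
        ring
      rw [h4, div_div_eq_mul_div, div_le_iff₀ hN0]
      have h5 : 0 < u ^ 3 := by positivity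
      have h6 : 20000 * (1 + 1 / (64 * u)) ^ 2 * (262144 * u ^ 3) ≤
          20000 * 4 * (262144 * u ^ 3) := by
        apply mul_le_mul_of_nonneg_right _ (by positivity)
        linarith only [h2]
      refine h6.trans ?_
      have h7 : 20000 * 4 * (262144 * u ^ 3) ≤ 20000 * 4 * (262144 * ((1 / 16384) ^ 3 * N)) := by
        linarith only [h1]
      refine h7.trans ?_
      have h8 : (20000 : ℝ) * 4 * (262144 * ((1 / 16384) ^ 3 * N)) =
          (20000 * 4 * 262144 * (1 / 16384) ^ 3) * N := by ring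
      rw [h8]
      apply mul_le_mul_of_nonneg_right _ hN0.le
      norm_num)
  refine le_trans ?_ hmain
  have h9 : (1 / 16384 : ℝ) ^ 2 / 1048576 * M ^ 2 = ((1 / 16384) ^ 2 / 2 * M ^ 2) / 524288 := by
    ring
  rw [h9]
  exact div_le_div_of_nonneg_right hw1 (by norm_num)

end Pool.Agent.LPP
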