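import Pool.Agent.Lib.MP_6b8a80_h32.T1_EP

/-!
# MP_6b8a80, T6a (first part): discrete derivatives and the Walsh expansion
-/

set_option autoImplicit false

namespace Pool.Agent.LPP

open Finset

section T6a1

variable {α : Type} [DecidableEq α]

/-- Walsh character -/
noncomputable def chi (p : ℝ) (V A : Finset α) : ℝ := ∏ i ∈ V, ((if i ∈ A then (1 : ℝ) else 0) - p)

/-- Walsh coefficient (w.r.t. the unnormalised characters `chi`) -/
noncomputable def coef (p : ℝ) (S : Finset α) (f : Finset α → ℝ) (V : Finset α) : ℝ :=
  EP (fun _ => p) S (DU V f)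

theorem DU_empty (f : Finset α → ℝ) : DU ∅ f = f := by
  funext A
  simp [DU]

theorem DU_insert {x : α} {U : Finset α} (hx : x ∉ U) (f : Finset α → ℝ) :
    DU (insert x U) f = DU U (Dx x f) := by
  funext A
  unfold DU Dx
  rw [sum_powerset_insert hx, ← sum_add_distrib]
  apply sum_congr rfl
  intro V hV
  have hV' : V ⊆ U := mem_powerset.mp hV
  have hxV : x ∉ V := fun h => hx (hV' h)
  have e1 : insert x U \ V = insert x (U \ V) := insert_sdiff_of_notMem _ hxV
  have e2 : insert x U \ insert x V = U \ V := by
    ext y
    simp only [mem_sdiff, mem_insert, not_or]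
    constructor
    · rintro ⟨h1 | h1, h2, h3⟩
      · exact absurd h1 h2
      · exact ⟨h1, h3⟩
    · rintro ⟨h1, h2⟩
      exact ⟨Or.inr h1, fun h => hx (h ▸ h1), h2⟩
  have e3 : x ∉ U \ V := fun h => hx (mem_sdiff.mp h).1
  have e4 : A \ insert x U ∪ insert x V = insert x (A \ U ∪ V) := by
    ext y
    simp only [mem_union, mem_sdiff, mem_insert, not_or]
    tauto
  have e5 : A \ insert x U ∪ V = (A \ U ∪ V).erase x := by
    ext y
    simp only [mem_union, mem_sdiff, mem_insert, not_or, mem_erase]
    constructor
    · rintro (⟨h1, h2, h3⟩ | h)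
      · exact ⟨h2, Or.inl ⟨h1, h3⟩⟩
      · exact ⟨fun e => hxV (e ▸ h), Or.inr h⟩
    · rintro ⟨h2, ⟨h1, h3⟩ | h⟩
      · exact Or.inl ⟨h1, h2, h3⟩
      · exact Or.inr h
  rw [e1, e2, card_insert_of_notMem e3, e4, e5, pow_succ]
  ring

theorem DU_singleton (x : α) (f : Finset α → ℝ) : DU {x} f = Dx x f := by
  rw [← insert_empty_eq, DU_insert (notMem_empty x), DU_empty]

theorem Dx_DU {x : α} {V : Finset α} (hx : x ∉ V) (f : Finset α → ℝ) :
    Dx x (DU V f) = DU V (Dx x f) := by
  funext A
  unfold Dx DU
  rw [← sum_sub_distrib]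
  apply sum_congr rfl
  intro W hW
  have hW' : W ⊆ V := mem_powerset.mp hW
  have hxW : x ∉ W := fun h => hx (hW' h)
  have e1 : insert x A \ V ∪ W = insert x (A \ V ∪ W) := by
    rw [insert_sdiff_of_notMem _ hx, insert_union]
  have e2 : A.erase x \ V ∪ W = (A \ V ∪ W).erase x := by
    ext y
    simp only [mem_union, mem_sdiff, mem_erase]
    constructor
    · rintro (⟨⟨h1, h2⟩, h3⟩ | h)
      · exact ⟨h1, Or.inl ⟨h2, h3⟩⟩
      · exact ⟨fun e => hxW (e ▸ h), Or.inr h⟩
    · rintro ⟨h1, ⟨h2, h3⟩ | h⟩
      · exact Or.inl ⟨⟨h1, h2⟩, h3⟩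
      · exact Or.inr h
  rw [e1, e2]
  ring

theorem DU_DU {U V : Finset α} (hd : Disjoint U V) (f : Finset α → ℝ) :
    DU U (DU V f) = DU (U ∪ V) f := by
  induction U using Finset.induction_on generalizing f with
  | empty => rw [DU_empty, empty_union]
  | insert x U hx ih =>
    rw [disjoint_insert_left] at hd
    have hx' : x ∉ U ∪ V := by
      rw [mem_union, not_or]; exact ⟨hx, hd.1⟩
    rw [DU_insert hx, Dx_DU hd.1, ih hd.2, insert_union, DU_insert hx']

theorem Dx_Dx (x : α) (f : Finset α → ℝ) : Dx x (Dx x f) = fun _ => 0 := by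
  funext A
  unfold Dx
  have e1 : (insert x A).erase x = A.erase x := erase_insert_eq_erase A x
  have e2 : insert x (A.erase x) = insert x A := by
    ext y
    simp only [mem_insert, mem_erase]
    tauto
  rw [insert_idem, e1, e2, erase_idem]
  ring

theorem DU_zero (U : Finset α) : DU U (fun _ => (0 : ℝ)) = fun _ => 0 := by
  funext A
  simp [DU]

theorem coef_DU (p : ℝ) {S U V : Finset α} (hd : Disjoint U V) (f : Finset α → ℝ) :
    coef p S (DU U f) V = coef p S f (U ∪ V) := by
  unfold coef
  rw [DU_DU hd.symm, union_comm]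

theorem coef_DU_of_not_disjoint (p : ℝ) {S U V : Finset α} (hd : ¬ Disjoint U V)
    (f : Finset α → ℝ) : coef p S (DU U f) V = 0 := by
  obtain ⟨x, hxU, hxV⟩ := not_disjoint_iff.mp hd
  have h1 : DU V (DU U f) = fun _ => 0 := by
    rw [← insert_erase hxV, DU_insert (notMem_erase x V), ← insert_erase hxU,
      DU_insert (notMem_erase x U), ← Dx_DU (notMem_erase x U), Dx_Dx, DU_zero]
  unfold coef
  rw [h1, EP_const]

theorem DU_comp_insert {x : α} {V : Finset α} (hx : x ∉ V) (f : Finset α → ℝ) (A : Finset α) :
    DU V f (insert x A) = DU V (fun B => f (insert x B)) A := by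
  unfold DU
  apply sum_congr rfl
  intro W _
  rw [insert_sdiff_of_notMem _ hx, insert_union]

theorem coef_insert_of_notMem (p : ℝ) {S V : Finset α} {i : α} (hi : i ∉ S) (hV : i ∉ V)
    (f : Finset α → ℝ) :
    coef p (insert i S) f V = p * coef p S (fun A => f (insert i A)) V +
      (1 - p) * coef p S f V := by
  unfold coef
  rw [EP_insert _ hi]
  congr 2
  apply EP_congr
  intro A _
  exact DU_comp_insert hV f A

theorem coef_insert_insert (p : ℝ) {S V : Finset α} {i : α} (hi : i ∉ S) (hV : i ∉ V)
    (f : Finset α → ℝ) :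
    coef p (insert i S) f (insert i V) = coef p S (Dx i f) V := by
  unfold coef
  rw [EP_insert _ hi, DU_insert hV]
  have h1 : EP (fun _ => p) S (fun A => DU V (Dx i f) (insert i A)) =
      EP (fun _ => p) S (DU V (Dx i f)) := by
    apply EP_congr
    intro A _
    rw [DU_comp_insert hV]
    congr 1
    funext B
    unfold Dx
    rw [insert_idem, erase_insert_eq_erase]
  rw [h1]
  ring

theorem chi_congr (p : ℝ) {V A B : Finset α} (h : ∀ i ∈ V, i ∈ A ↔ i ∈ B) :
    chi p V A = chi p V B := by
  unfold chi
  apply prod_congr rfl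
  intro i hi
  simp only [h i hi]

theorem chi_insert (p : ℝ) {V : Finset α} {i : α} (hi : i ∉ V) (A : Finset α) :
    chi p (insert i V) A = ((if i ∈ A then (1 : ℝ) else 0) - p) * chi p V A := by
  unfold chi
  rw [prod_insert hi]

theorem walsh (p : ℝ) (S : Finset α) (f : Finset α → ℝ) {A : Finset α} (hA : A ⊆ S) :
    f A = ∑ V ∈ S.powerset, coef p S f V * chi p V A := by
  induction S using Finset.induction_on generalizing A f with
  | empty =>
    rw [subset_empty.mp hA]
    simp [coef, chi, DU_empty, EP_empty]
  | insert i S hi ih =>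
    have hA' : A.erase i ⊆ S := by
      intro x hx
      rcases mem_insert.mp (hA (mem_of_mem_erase hx)) with h | h
      · exact absurd h (ne_of_mem_erase hx)
      · exact h
    have h1 := ih (fun A => f (insert i A)) hA'
    have h2 := ih f hA'
    have h3 := ih (Dx i f) hA'
    rw [sum_powerset_insert hi]
    have e1 : ∑ V ∈ S.powerset, coef p (insert i S) f V * chi p V A =
        p * ∑ V ∈ S.powerset, coef p S (fun A => f (insert i A)) V * chi p V (A.erase i) +
        (1 - p) * ∑ V ∈ S.powerset, coef p S f V * chi p V (A.erase i) := by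
      rw [mul_sum, mul_sum, ← sum_add_distrib]
      apply sum_congr rfl
      intro V hV
      have hV' : i ∉ V := fun h => hi (mem_powerset.mp hV h)
      have hc : chi p V A = chi p V (A.erase i) := by
        apply chi_congr
        intro j hj
        have : j ≠ i := fun e => hV' (e ▸ hj)
        simp [this]
      rw [coef_insert_of_notMem p hi hV', hc]
      ring
    have e2 : ∑ V ∈ S.powerset, coef p (insert i S) f (insert i V) * chi p (insert i V) A =
        ((if i ∈ A then (1 : ℝ) else 0) - p) *
          ∑ V ∈ S.powerset, coef p S (Dx i f) V * chi p V (A.erase i) := by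
      rw [mul_sum]
      apply sum_congr rfl
      intro V hV
      have hV' : i ∉ V := fun h => hi (mem_powerset.mp hV h)
      have hc : chi p V A = chi p V (A.erase i) := by
        apply chi_congr
        intro j hj
        have : j ≠ i := fun e => hV' (e ▸ hj)
        simp [this]
      rw [coef_insert_insert p hi hV', chi_insert p hV', hc]
      ring
    rw [e1, e2, ← h1, ← h2, ← h3]
    unfold Dx
    rw [erase_idem]
    by_cases h : i ∈ A
    · rw [insert_erase h, if_pos h]
      ring
    · rw [erase_eq_of_notMem h, if_neg h]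
      ring

theorem EP_chi_chi (p : ℝ) {S U V : Finset α} (hU : U ⊆ S) (hV : V ⊆ S) :
    EP (fun _ => p) S (fun A => chi p U A * chi p V A) =
      if U = V then (p * (1 - p)) ^ #U else 0 := by
  induction S using Finset.induction_on generalizing U V with
  | empty =>
    rw [subset_empty.mp hU, subset_empty.mp hV]
    simp [chi, EP_empty]
  | insert i S hi ih =>
    have her : ∀ {W : Finset α}, W ⊆ insert i S → W.erase i ⊆ S := by
      intro W hW x hx
      rcases mem_insert.mp (hW (mem_of_mem_erase hx)) with h | h
      · exact absurd h (ne_of_mem_erase hx)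
      · exact h
    have hin : ∀ (W A : Finset α), A ⊆ S →
        chi p W (insert i A) = (if i ∈ W then 1 - p else 1) * chi p (W.erase i) A := by
      intro W A _
      have hc : chi p (W.erase i) (insert i A) = chi p (W.erase i) A := by
        apply chi_congr
        intro j hj
        have : j ≠ i := ne_of_mem_erase hj
        simp [this]
      by_cases h : i ∈ W
      · rw [if_pos h, ← hc]
        conv_lhs => rw [← insert_erase h]
        rw [chi_insert p (notMem_erase i W), if_pos (mem_insert_self i A)]
      · rw [if_neg h, one_mul, ← hc, erase_eq_of_notMem h]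
    have hout : ∀ (W A : Finset α), A ⊆ S →
        chi p W A = (if i ∈ W then -p else 1) * chi p (W.erase i) A := by
      intro W A hA
      have hiA : i ∉ A := fun h => hi (hA h)
      by_cases h : i ∈ W
      · rw [if_pos h]
        conv_lhs => rw [← insert_erase h]
        rw [chi_insert p (notMem_erase i W), if_neg hiA]
        ring
      · rw [if_neg h, one_mul, erase_eq_of_notMem h]
    rw [EP_insert _ hi]
    have e1 : EP (fun _ => p) S (fun A => chi p U (insert i A) * chi p V (insert i A)) =
        ((if i ∈ U then 1 - p else 1) * (if i ∈ V then 1 - p else 1)) *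
          EP (fun _ => p) S (fun A => chi p (U.erase i) A * chi p (V.erase i) A) := by
      rw [← EP_const_mul]
      apply EP_congr
      intro A hA
      rw [hin U A hA, hin V A hA]
      ring
    have e2 : EP (fun _ => p) S (fun A => chi p U A * chi p V A) =
        ((if i ∈ U then -p else 1) * (if i ∈ V then -p else 1)) *
          EP (fun _ => p) S (fun A => chi p (U.erase i) A * chi p (V.erase i) A) := by
      rw [← EP_const_mul]
      apply EP_congr
      intro A hA
      rw [hout U A hA, hout V A hA]
      ring
    rw [e1, e2, ih (her hU) (her hV)]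
    by_cases h1 : i ∈ U <;> by_cases h2 : i ∈ V
    · have hiff : U.erase i = V.erase i ↔ U = V := by
        constructor
        · intro h
          rw [← insert_erase h1, h, insert_erase h2]
        · intro h; rw [h]
      simp only [h1, h2, if_true, hiff]
      by_cases h : U = V
      · simp only [h, if_true]
        have hc : #V = #(V.erase i) + 1 := (card_erase_add_one h2).symm
        rw [hc, pow_succ]
        ring
      · simp only [h, if_false]
        ring
    · have hne : U ≠ V := fun h => h2 (h ▸ h1)
      simp only [h1, h2, if_true, if_false, hne]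
      ring
    · have hne : U ≠ V := fun h => h1 (h ▸ h2)
      simp only [h1, h2, if_true, if_false, hne]
      ring
    · rw [erase_eq_of_notMem h1, erase_eq_of_notMem h2]
      simp only [h1, h2, if_false]
      ring

theorem EP_mul_chi (p : ℝ) {S V : Finset α} (hV : V ⊆ S) (f : Finset α → ℝ) :
    EP (fun _ => p) S (fun A => f A * chi p V A) = (p * (1 - p)) ^ #V * coef p S f V := by
  have h1 : EP (fun _ => p) S (fun A => f A * chi p V A) =
      EP (fun _ => p) S (fun A => ∑ U ∈ S.powerset, coef p S f U * (chi p U A * chi p V A)) := by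
    apply EP_congr
    intro A hA
    rw [walsh p S f hA, sum_mul]
    apply sum_congr rfl
    intro U _
    ring
  rw [h1, EP_sum]
  have h2 : ∀ U ∈ S.powerset, EP (fun _ => p) S
      (fun A => coef p S f U * (chi p U A * chi p V A)) =
      if U = V then (p * (1 - p)) ^ #V * coef p S f V else 0 := by
    intro U hU
    rw [EP_const_mul, EP_chi_chi p (mem_powerset.mp hU) hV]
    by_cases h : U = V
    · rw [if_pos h, if_pos h, h]
      ring
    · rw [if_neg h, if_neg h, mul_zero]
  rw [sum_congr rfl h2, sum_ite_eq', if_pos (mem_powerset.mpr hV)]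

end T6a1

end Pool.Agent.LPP
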