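import Pool.Agent.Lib.MP_6b8a80_h32.T6a1_Walsh

/-!
# MP_6b8a80, T6a (second part): level weights
-/

set_option autoImplicit false

namespace Pool.Agent.LPP

open Finset

section T6a2

variable {α : Type} [DecidableEq α]

theorem coef_empty (p : ℝ) (S : Finset α) (f : Finset α → ℝ) :
    coef p S f ∅ = EP (fun _ => p) S f := by
  unfold coef
  rw [DU_empty]

theorem Wk_nonneg {p : ℝ} (h0 : 0 ≤ p) (h1 : p ≤ 1) (S : Finset α) (k : ℕ) (f : Finset α → ℝ) :
    0 ≤ Wk p S k f := by
  unfold Wk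
  apply sum_nonneg
  intro U _
  exact mul_nonneg (pow_nonneg (mul_nonneg h0 (sub_nonneg.mpr h1)) _) (sq_nonneg _)

theorem EP_sq_eq (p : ℝ) (S : Finset α) (f : Finset α → ℝ) :
    EP (fun _ => p) S (fun A => f A ^ 2) =
      ∑ V ∈ S.powerset, (p * (1 - p)) ^ #V * coef p S f V ^ 2 := by
  have h1 : EP (fun _ => p) S (fun A => f A ^ 2) =
      EP (fun _ => p) S (fun A => ∑ V ∈ S.powerset, coef p S f V * (f A * chi p V A)) := by
    apply EP_congr
    intro A hA
    have h2 : f A ^ 2 = f A * ∑ V ∈ S.powerset, coef p S f V * chi p V A := by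
      rw [← walsh p S f hA, sq]
    rw [h2, mul_sum]
    apply sum_congr rfl
    intro V _
    ring
  rw [h1, EP_sum]
  apply sum_congr rfl
  intro V hV
  rw [EP_const_mul, EP_mul_chi p (mem_powerset.mp hV)]
  ring

theorem sum_levels (p : ℝ) (S : Finset α) (f : Finset α → ℝ) (r : ℕ → ℝ) :
    ∑ V ∈ S.powerset, r #V * ((p * (1 - p)) ^ #V * coef p S f V ^ 2) =
      ∑ k ∈ range (#S + 1), r k * Wk p S k f := by
  rw [sum_powerset]
  apply sum_congr rfl
  intro k _
  unfold Wk
  rw [mul_sum]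
  apply sum_congr rfl
  intro U hU
  rw [(mem_powersetCard.mp hU).2]
  rfl

theorem Wk_zero (p : ℝ) (S : Finset α) (f : Finset α → ℝ) :
    Wk p S 0 f = (EP (fun _ => p) S f) ^ 2 := by
  unfold Wk
  rw [powersetCard_zero, sum_singleton, DU_empty, pow_zero, one_mul]

theorem range_succ_sum (n : ℕ) (g : ℕ → ℝ) :
    ∑ k ∈ range (n + 1), g k = g 0 + ∑ k ∈ Icc 1 n, g k := by
  rw [sum_range_succ']
  have : Icc 1 n = (range n).image (fun k => k + 1) := by
    ext x
    simp only [mem_Icc, mem_image, mem_range]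
    constructor
    · rintro ⟨h1, h2⟩
      exact ⟨x - 1, by omega, by omega⟩
    · rintro ⟨k, hk, rfl⟩
      omega
  rw [this, sum_image (fun a _ b _ h => by simpa using h), add_comm]

theorem VP_eq_sum_Wk (p : ℝ) (S : Finset α) (f : Finset α → ℝ) :
    VP (fun _ => p) S f = ∑ k ∈ Icc 1 #S, Wk p S k f := by
  rw [VP_eq, EP_sq_eq]
  have h := sum_levels p S f (fun _ => 1)
  simp only [one_mul] at h
  rw [h, range_succ_sum, Wk_zero]
  ring

theorem DU_sub (U : Finset α) (f g : Finset α → ℝ) :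
    DU U (fun A => f A - g A) = fun A => DU U f A - DU U g A := by
  funext A
  unfold DU
  rw [← sum_sub_distrib]
  apply sum_congr rfl
  intro V _
  ring

theorem Wk_eq_zero (p : ℝ) (S : Finset α) {k : ℕ} (hk : #S < k) (f : Finset α → ℝ) :
    Wk p S k f = 0 := by
  unfold Wk
  rw [powersetCard_eq_empty.mpr hk, sum_empty]

theorem Wk_le_VP {p : ℝ} (h0 : 0 ≤ p) (h1 : p ≤ 1) (S : Finset α) {k : ℕ} (hk : 1 ≤ k)
    (f : Finset α → ℝ) : Wk p S k f ≤ VP (fun _ => p) S f := by
  rw [VP_eq_sum_Wk]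
  by_cases h : k ≤ #S
  · exact single_le_sum (f := fun k => Wk p S k f) (fun j _ => Wk_nonneg h0 h1 S j f)
      (mem_Icc.mpr ⟨hk, h⟩)
  · rw [Wk_eq_zero p S (by omega)]
    exact sum_nonneg (fun j _ => Wk_nonneg h0 h1 S j f)

theorem Wk_le_add {p : ℝ} (h0 : 0 ≤ p) (h1 : p ≤ 1) (S : Finset α) {k : ℕ} (hk : 1 ≤ k)
    (f g : Finset α → ℝ) :
    Wk p S k f ≤ 2 * Wk p S k g + 2 * VP (fun _ => p) S (fun A => f A - g A) := by
  have h2 := Wk_le_VP h0 h1 S hk (fun A => f A - g A)
  have h3 : Wk p S k f ≤ 2 * Wk p S k g + 2 * Wk p S k (fun A => f A - g A) := by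
    unfold Wk
    rw [mul_sum, mul_sum, ← sum_add_distrib]
    apply sum_le_sum
    intro U _
    rw [DU_sub, EP_sub]
    have hv : 0 ≤ (p * (1 - p)) ^ k := pow_nonneg (mul_nonneg h0 (sub_nonneg.mpr h1)) _
    nlinarith [mul_nonneg hv (sq_nonneg (EP (fun _ => p) S (DU U f) -
      2 * EP (fun _ => p) S (DU U g)))]
  linarith

theorem Wk_inter (p : ℝ) {S T : Finset α} (hT : T ⊆ S) (k : ℕ) (f : Finset α → ℝ) :
    Wk p S k (fun A => f (A ∩ T)) = Wk p T k f := by
  unfold Wk
  symm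
  have hsub : T.powersetCard k ⊆ S.powersetCard k := powersetCard_mono hT
  rw [← sum_subset hsub]
  · apply sum_congr rfl
    intro U hU
    have hUT : U ⊆ T := (mem_powersetCard.mp hU).1
    congr 2
    rw [← EP_inter (fun _ => p) hT]
    apply EP_congr
    intro A _
    unfold DU
    apply sum_congr rfl
    intro V hV
    congr 2
    ext x
    have hV' : V ⊆ U := mem_powerset.mp hV
    simp only [mem_union, mem_sdiff, mem_inter]
    constructor
    · rintro (⟨⟨h1, h2⟩, h3⟩ | h)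
      · exact ⟨Or.inl ⟨h1, h3⟩, h2⟩
      · exact ⟨Or.inr h, hUT (hV' h)⟩
    · rintro ⟨⟨h1, h3⟩ | h, h2⟩
      · exact Or.inl ⟨⟨h1, h2⟩, h3⟩
      · exact Or.inr h
  · intro U hU hU'
    have hUS := mem_powersetCard.mp hU
    have hnot : ¬ U ⊆ T := fun h => hU' (mem_powersetCard.mpr ⟨h, hUS.2⟩)
    obtain ⟨x, hxU, hxT⟩ := not_subset.mp hnot
    have h1 : DU U (fun A => f (A ∩ T)) = fun _ => 0 := by
      have h2 : (U.erase x) ∪ {x} = U := by
        rw [union_comm, ← insert_eq, insert_erase hxU]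
      have hd : Disjoint (U.erase x) {x} := by
        rw [disjoint_singleton_right]; exact notMem_erase x U
      rw [← h2, ← DU_DU hd, DU_singleton]
      have h3 : Dx x (fun A => f (A ∩ T)) = fun _ => 0 := by
        funext A
        unfold Dx
        have : insert x A ∩ T = A.erase x ∩ T := by
          ext y
          simp only [mem_inter, mem_insert, mem_erase]
          constructor
          · rintro ⟨h | h, h'⟩
            · exact absurd h' (h ▸ hxT)
            · exact ⟨⟨fun e => hxT (e ▸ h'), h⟩, h'⟩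
          · rintro ⟨⟨_, h⟩, h'⟩
            exact ⟨Or.inr h, h'⟩
        simp only [this, sub_self]
      rw [h3, DU_zero]
    rw [h1, EP_const]
    ring

end T6a2

end Pool.Agent.LPP
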