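import Pool.Agent.Lib.MP_6b8a80_h32.T1_EP

/-!
# T6a, part 3: the noise formula (direct induction on the ground set)
-/

set_option autoImplicit false

namespace Pool.Agent.LPP

open Finset

section T6a

variable {α : Type} [DecidableEq α]

namespace EJaux

theorem DU_empty (f : Finset α → ℝ) : DU ∅ f = f := by
  funext A; simp [DU]

/-- `DU U f` at a set with the extra point `i ∉ U`. -/
theorem DU_apply_insert {U : Finset α} {i : α} (hi : i ∉ U) (f : Finset α → ℝ) (A : Finset α) :
    DU U f (insert i A) = DU U (fun B => f (insert i B)) A := by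
  unfold DU
  refine sum_congr rfl fun V _ => ?_
  congr 2
  rw [insert_sdiff_of_notMem _ hi, insert_union]

theorem DU_lin (U : Finset α) (a b : ℝ) (f g : Finset α → ℝ) (A : Finset α) :
    DU U (fun B => a * f B + b * g B) A = a * DU U f A + b * DU U g A := by
  unfold DU
  rw [mul_sum, mul_sum, ← sum_add_distrib]
  exact sum_congr rfl fun V _ => by ring

theorem DU_insert_apply {U : Finset α} {i : α} (hi : i ∉ U) (f : Finset α → ℝ) (A : Finset α)
    (hA : i ∉ A) :
    DU (insert i U) f A = DU U (fun B => f (insert i B)) A - DU U f A := by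
  unfold DU
  rw [sum_powerset_insert hi, ← sum_sub_distrib, ← sum_add_distrib]
  refine sum_congr rfl fun V hV => ?_
  rw [mem_powerset] at hV
  have hiV : i ∉ V := fun h => hi (hV h)
  have e1 : A \ insert i U = A \ U := by
    ext y; simp only [mem_sdiff, mem_insert]
    constructor
    · rintro ⟨h1, h2⟩; exact ⟨h1, fun h => h2 (Or.inr h)⟩
    · rintro ⟨h1, h2⟩; exact ⟨h1, fun h => h.elim (fun h => hA (h ▸ h1)) h2⟩
  have e2 : insert i U \ V = insert i (U \ V) := insert_sdiff_of_notMem _ hiV
  have e3 : insert i U \ insert i V = U \ V := by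
    ext y; simp only [mem_sdiff, mem_insert]
    constructor
    · rintro ⟨h1, h2⟩
      exact ⟨h1.resolve_left (fun h => h2 (Or.inl h)), fun h => h2 (Or.inr h)⟩
    · rintro ⟨h1, h2⟩
      exact ⟨Or.inr h1, fun h => h.elim (fun h => hi (h ▸ h1)) h2⟩
  have e4 : #(insert i (U \ V)) = #(U \ V) + 1 :=
    card_insert_of_notMem fun h => hi (mem_sdiff.1 h).1
  have e5 : (A \ U) ∪ insert i V = insert i ((A \ U) ∪ V) := by
    rw [union_insert]
  rw [e1, e2, e3, e4, e5, pow_succ]
  ring

theorem DU_insert_apply' {U : Finset α} {i : α} (hi : i ∉ U) (f : Finset α → ℝ) (A : Finset α)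
    (hA : i ∉ A) :
    DU (insert i U) f (insert i A) = DU U (fun B => f (insert i B)) A - DU U f A := by
  rw [← DU_insert_apply hi f A hA]
  unfold DU
  refine sum_congr rfl fun V _ => ?_
  congr 3
  ext y; simp only [mem_sdiff, mem_insert]
  constructor
  · rintro ⟨h1, h2⟩; exact ⟨h1.resolve_left fun h => h2 (Or.inl h), h2⟩
  · rintro ⟨h1, h2⟩; exact ⟨Or.inr h1, h2⟩

theorem EP_DU (p : ℝ) {S U : Finset α} {i : α} (hi : i ∉ S) (hU : U ⊆ S) (f : Finset α → ℝ) :
    EP (fun _ => p) (insert i S) (DU U f) =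
      EP (fun _ => p) S (DU U (fun B => p * f (insert i B) + (1 - p) * f B)) := by
  have hiU : i ∉ U := fun h => hi (hU h)
  rw [EP_insert _ hi]
  have e : EP (fun _ => p) S (DU U (fun B => p * f (insert i B) + (1 - p) * f B)) =
      EP (fun _ => p) S (fun A => p * DU U (fun B => f (insert i B)) A + (1 - p) * DU U f A) :=
    EP_congr _ _ fun A _ => DU_lin U p (1 - p) (fun B => f (insert i B)) f A
  rw [e, EP_add, EP_const_mul, EP_const_mul]
  congr 2
  exact EP_congr _ _ fun A _ => DU_apply_insert hiU f A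

theorem EP_DU_insert (p : ℝ) {S U : Finset α} {i : α} (hi : i ∉ S) (hU : U ⊆ S)
    (f : Finset α → ℝ) :
    EP (fun _ => p) (insert i S) (DU (insert i U) f) =
      EP (fun _ => p) S (DU U (fun B => f (insert i B) - f B)) := by
  have hiU : i ∉ U := fun h => hi (hU h)
  rw [EP_insert _ hi]
  have e1 : EP (fun _ => p) S (fun A => DU (insert i U) f (insert i A)) =
      EP (fun _ => p) S (DU U (fun B => f (insert i B) - f B)) := by
    refine EP_congr _ _ fun A hA => ?_
    rw [DU_insert_apply' hiU f A fun h => hi (hA h)]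
    have := DU_lin U 1 (-1) (fun B => f (insert i B)) f A
    simp only [one_mul, neg_mul, ← sub_eq_add_neg] at this
    rw [this]
  have e2 : EP (fun _ => p) S (DU (insert i U) f) =
      EP (fun _ => p) S (DU U (fun B => f (insert i B) - f B)) := by
    refine EP_congr _ _ fun A hA => ?_
    rw [DU_insert_apply hiU f A fun h => hi (hA h)]
    have := DU_lin U 1 (-1) (fun B => f (insert i B)) f A
    simp only [one_mul, neg_mul, ← sub_eq_add_neg] at this
    rw [this]
  rw [e1, e2]
  ring

/-- weight of a pair of sets -/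
noncomputable def wJ (p ρ : ℝ) (S A B : Finset α) : ℝ :=
  (∏ _i ∈ A ∩ B, (p ^ 2 + ρ * (p * (1 - p)))) *
     (∏ _i ∈ (A \ B) ∪ (B \ A), ((1 - ρ) * (p * (1 - p)))) *
     (∏ _i ∈ S \ (A ∪ B), ((1 - p) ^ 2 + ρ * (p * (1 - p))))

theorem EJ_eq (p ρ : ℝ) (S : Finset α) (F : Finset α → Finset α → ℝ) :
    EJ p ρ S F = ∑ A ∈ S.powerset, ∑ B ∈ S.powerset, wJ p ρ S A B * F A B := rfl

theorem wJ_00 (p ρ : ℝ) {S A B : Finset α} {i : α} (hS : i ∉ S) (hA : i ∉ A) (hB : i ∉ B) :
    wJ p ρ (insert i S) A B = ((1 - p) ^ 2 + ρ * (p * (1 - p))) * wJ p ρ S A B := by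
  have e : insert i S \ (A ∪ B) = insert i (S \ (A ∪ B)) :=
    insert_sdiff_of_notMem _ (by simp [hA, hB])
  unfold wJ
  rw [e, prod_insert (by simp [hS])]
  ring

theorem wJ_10 (p ρ : ℝ) {S A B : Finset α} {i : α} (hS : i ∉ S) (hA : i ∉ A) (hB : i ∉ B) :
    wJ p ρ (insert i S) (insert i A) B = ((1 - ρ) * (p * (1 - p))) * wJ p ρ S A B := by
  have e1 : insert i A ∩ B = A ∩ B := insert_inter_of_notMem hB
  have e2 : (insert i A \ B) ∪ (B \ insert i A) = insert i ((A \ B) ∪ (B \ A)) := by
    ext y; simp only [mem_union, mem_sdiff, mem_insert]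
    by_cases h : y = i
    · subst h; simp [hA, hB]
    · simp [h]
  have e3 : insert i S \ (insert i A ∪ B) = S \ (A ∪ B) := by
    ext y; simp only [mem_union, mem_sdiff, mem_insert]
    by_cases h : y = i
    · subst h; simp [hS]
    · simp [h]
  unfold wJ
  rw [e1, e2, e3, prod_insert (by simp [hA, hB])]
  ring

theorem wJ_01 (p ρ : ℝ) {S A B : Finset α} {i : α} (hS : i ∉ S) (hA : i ∉ A) (hB : i ∉ B) :
    wJ p ρ (insert i S) A (insert i B) = ((1 - ρ) * (p * (1 - p))) * wJ p ρ S A B := by
  have e1 : A ∩ insert i B = A ∩ B := inter_insert_of_notMem hA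
  have e2 : (A \ insert i B) ∪ (insert i B \ A) = insert i ((A \ B) ∪ (B \ A)) := by
    ext y; simp only [mem_union, mem_sdiff, mem_insert]
    by_cases h : y = i
    · subst h; simp [hA, hB]
    · simp [h]
  have e3 : insert i S \ (A ∪ insert i B) = S \ (A ∪ B) := by
    ext y; simp only [mem_union, mem_sdiff, mem_insert]
    by_cases h : y = i
    · subst h; simp [hS]
    · simp [h]
  unfold wJ
  rw [e1, e2, e3, prod_insert (by simp [hA, hB])]
  ring

theorem wJ_11 (p ρ : ℝ) {S A B : Finset α} {i : α} (hS : i ∉ S) (hA : i ∉ A) (hB : i ∉ B) :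
    wJ p ρ (insert i S) (insert i A) (insert i B) =
      (p ^ 2 + ρ * (p * (1 - p))) * wJ p ρ S A B := by
  have e1 : insert i A ∩ insert i B = insert i (A ∩ B) := (insert_inter_distrib A B i).symm
  have e2 : (insert i A \ insert i B) ∪ (insert i B \ insert i A) = (A \ B) ∪ (B \ A) := by
    ext y; simp only [mem_union, mem_sdiff, mem_insert]
    by_cases h : y = i
    · subst h; simp [hA, hB]
    · simp [h]
  have e3 : insert i S \ (insert i A ∪ insert i B) = S \ (A ∪ B) := by
    ext y; simp only [mem_union, mem_sdiff, mem_insert]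
    by_cases h : y = i
    · subst h; simp [hS]
    · simp [h]
  unfold wJ
  rw [e1, e2, e3, prod_insert (by simp [hA])]
  ring

theorem EJ_insert (p ρ : ℝ) {S : Finset α} {i : α} (hS : i ∉ S)
    (F : Finset α → Finset α → ℝ) :
    EJ p ρ (insert i S) F =
      (p ^ 2 + ρ * (p * (1 - p))) * EJ p ρ S (fun A B => F (insert i A) (insert i B)) +
      ((1 - ρ) * (p * (1 - p))) * EJ p ρ S (fun A B => F (insert i A) B) +
      ((1 - ρ) * (p * (1 - p))) * EJ p ρ S (fun A B => F A (insert i B)) +
      ((1 - p) ^ 2 + ρ * (p * (1 - p))) * EJ p ρ S F := by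
  simp only [EJ_eq]
  rw [sum_powerset_insert hS]
  simp only [mul_sum]
  rw [← sum_add_distrib, ← sum_add_distrib, ← sum_add_distrib, ← sum_add_distrib]
  refine sum_congr rfl fun A hA => ?_
  rw [sum_powerset_insert hS, sum_powerset_insert hS]
  rw [← sum_add_distrib, ← sum_add_distrib, ← sum_add_distrib, ← sum_add_distrib,
    ← sum_add_distrib, ← sum_add_distrib]
  refine sum_congr rfl fun B hB => ?_
  have hA' : i ∉ A := fun h => hS (mem_powerset.1 hA h)
  have hB' : i ∉ B := fun h => hS (mem_powerset.1 hB h)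
  rw [wJ_00 p ρ hS hA' hB', wJ_10 p ρ hS hA' hB', wJ_01 p ρ hS hA' hB', wJ_11 p ρ hS hA' hB']
  ring

/-- The noise formula in bilinear form. -/
theorem EJ_mul (p ρ : ℝ) (S : Finset α) (f g : Finset α → ℝ) :
    EJ p ρ S (fun A B => f A * g B) = ∑ U ∈ S.powerset, (ρ * (p * (1 - p))) ^ #U *
      (EP (fun _ => p) S (DU U f) * EP (fun _ => p) S (DU U g)) := by
  induction S using Finset.induction_on generalizing f g with
  | empty =>
    simp only [EJ_eq, powerset_empty, sum_singleton, card_empty, pow_zero, EP_empty, DU_empty]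
    simp [wJ]
  | insert i S hi ih =>
    rw [EJ_insert p ρ hi, sum_powerset_insert hi]
    have e0 : ∀ U ∈ S.powerset, (ρ * (p * (1 - p))) ^ #U *
        (EP (fun _ => p) (insert i S) (DU U f) * EP (fun _ => p) (insert i S) (DU U g)) =
        (ρ * (p * (1 - p))) ^ #U *
        (EP (fun _ => p) S (DU U (fun B => p * f (insert i B) + (1 - p) * f B)) *
          EP (fun _ => p) S (DU U (fun B => p * g (insert i B) + (1 - p) * g B))) := by
      intro U hU
      rw [EP_DU p hi (mem_powerset.1 hU), EP_DU p hi (mem_powerset.1 hU)]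
    have e1 : ∀ U ∈ S.powerset, (ρ * (p * (1 - p))) ^ #(insert i U) *
        (EP (fun _ => p) (insert i S) (DU (insert i U) f) *
          EP (fun _ => p) (insert i S) (DU (insert i U) g)) =
        (ρ * (p * (1 - p))) * ((ρ * (p * (1 - p))) ^ #U *
        (EP (fun _ => p) S (DU U (fun B => f (insert i B) - f B)) *
          EP (fun _ => p) S (DU U (fun B => g (insert i B) - g B)))) := by
      intro U hU
      rw [EP_DU_insert p hi (mem_powerset.1 hU), EP_DU_insert p hi (mem_powerset.1 hU),
        card_insert_of_notMem fun h => hi (mem_powerset.1 hU h), pow_succ]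
      ring
    rw [sum_congr rfl e0, sum_congr rfl e1, ← mul_sum,
      ← ih (fun B => p * f (insert i B) + (1 - p) * f B)
        (fun B => p * g (insert i B) + (1 - p) * g B),
      ← ih (fun B => f (insert i B) - f B) (fun B => g (insert i B) - g B)]
    simp only [EJ_eq, mul_sum]
    rw [← sum_add_distrib, ← sum_add_distrib, ← sum_add_distrib, ← sum_add_distrib]
    refine sum_congr rfl fun A _ => ?_
    rw [← sum_add_distrib, ← sum_add_distrib, ← sum_add_distrib, ← sum_add_distrib]
    refine sum_congr rfl fun B _ => ?_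
    ring

omit [DecidableEq α] in
theorem sum_levels (S : Finset α) (v : ℝ) (h : Finset α → ℝ) :
    ∑ U ∈ S.powerset, v ^ #U * h U = h ∅ + ∑ k ∈ Icc 1 #S, v ^ k * ∑ U ∈ S.powersetCard k, h U := by
  rw [sum_powerset]
  have e : range (#S + 1) = insert 0 (Icc 1 #S) := by
    ext k; simp only [mem_range, mem_insert, mem_Icc]; omega
  rw [e, sum_insert (by simp)]
  congr 1
  · simp
  · refine sum_congr rfl fun k _ => ?_
    rw [mul_sum]
    refine sum_congr rfl fun U hU => ?_
    rw [(mem_powersetCard.1 hU).2]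

/-- Parseval in bilinear form. -/
theorem EP_mul_eq (p : ℝ) (S : Finset α) (f g : Finset α → ℝ) :
    EP (fun _ => p) S (fun A => f A * g A) = ∑ U ∈ S.powerset, (p * (1 - p)) ^ #U *
      (EP (fun _ => p) S (DU U f) * EP (fun _ => p) S (DU U g)) := by
  induction S using Finset.induction_on generalizing f g with
  | empty => simp [EP_empty, DU_empty]
  | insert i S hi ih =>
    rw [EP_insert _ hi, sum_powerset_insert hi]
    have e0 : ∀ U ∈ S.powerset, (p * (1 - p)) ^ #U *
        (EP (fun _ => p) (insert i S) (DU U f) * EP (fun _ => p) (insert i S) (DU U g)) =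
        (p * (1 - p)) ^ #U *
        (EP (fun _ => p) S (DU U (fun B => p * f (insert i B) + (1 - p) * f B)) *
          EP (fun _ => p) S (DU U (fun B => p * g (insert i B) + (1 - p) * g B))) := by
      intro U hU
      rw [EP_DU p hi (mem_powerset.1 hU), EP_DU p hi (mem_powerset.1 hU)]
    have e1 : ∀ U ∈ S.powerset, (p * (1 - p)) ^ #(insert i U) *
        (EP (fun _ => p) (insert i S) (DU (insert i U) f) *
          EP (fun _ => p) (insert i S) (DU (insert i U) g)) =
        (p * (1 - p)) * ((p * (1 - p)) ^ #U *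
        (EP (fun _ => p) S (DU U (fun B => f (insert i B) - f B)) *
          EP (fun _ => p) S (DU U (fun B => g (insert i B) - g B)))) := by
      intro U hU
      rw [EP_DU_insert p hi (mem_powerset.1 hU), EP_DU_insert p hi (mem_powerset.1 hU),
        card_insert_of_notMem fun h => hi (mem_powerset.1 hU h), pow_succ]
      ring
    rw [sum_congr rfl e0, sum_congr rfl e1, ← mul_sum,
      ← ih (fun B => p * f (insert i B) + (1 - p) * f B)
        (fun B => p * g (insert i B) + (1 - p) * g B),
      ← ih (fun B => f (insert i B) - f B) (fun B => g (insert i B) - g B),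
      ← EP_const_mul, ← EP_const_mul, ← EP_const_mul, ← EP_add, ← EP_add]
    exact EP_congr _ _ fun A _ => by ring

theorem VP_eq_sum_Wk (p : ℝ) (S : Finset α) (f : Finset α → ℝ) :
    VP (fun _ => p) S f = ∑ k ∈ Icc 1 #S, Wk p S k f := by
  have h1 : VP (fun _ => p) S f = EP (fun _ => p) S (fun A => f A * f A) -
      (EP (fun _ => p) S f) ^ 2 := by
    rw [VP_eq]
    congr 1
    exact EP_congr _ _ fun A _ => by ring
  rw [h1, EP_mul_eq, sum_levels, DU_empty]
  have : ∀ k ∈ Icc 1 #S, (p * (1 - p)) ^ k * ∑ U ∈ S.powersetCard k,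
      EP (fun _ => p) S (DU U f) * EP (fun _ => p) S (DU U f) = Wk p S k f := by
    intro k _
    unfold Wk
    rw [mul_sum]
    exact sum_congr rfl fun U _ => by ring
  rw [sum_congr rfl this]
  ring

end EJaux

open EJaux

theorem EJ_eq_sum_Wk (p ρ : ℝ) (S : Finset α) (f : Finset α → ℝ) :
    EJ p ρ S (fun A B => f A * f B) = (EP (fun _ => p) S f) ^ 2 +
      ∑ k ∈ Icc 1 #S, ρ ^ k * Wk p S k f := by
  rw [EJ_mul, sum_levels, DU_empty]
  congr 1
  · ring
  · refine sum_congr rfl fun k _ => ?_
    unfold Wk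
    rw [mul_sum, mul_sum]
    refine sum_congr rfl fun U _ => ?_
    rw [mul_pow]
    ring

theorem EJ_fst (p ρ : ℝ) (S : Finset α) (f : Finset α → ℝ) :
    EJ p ρ S (fun A _ => f A) = EP (fun _ => p) S f := by
  induction S using Finset.induction_on generalizing f with
  | empty => rw [EP_empty]; simp [EJ]
  | insert i S hi ih =>
    rw [EJ_insert p ρ hi, ih (fun A => f (insert i A)), ih f, EP_insert _ hi]
    ring

theorem EJ_snd (p ρ : ℝ) (S : Finset α) (f : Finset α → ℝ) :
    EJ p ρ S (fun _ B => f B) = EP (fun _ => p) S f := by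
  induction S using Finset.induction_on generalizing f with
  | empty => rw [EP_empty]; simp [EJ]
  | insert i S hi ih =>
    rw [EJ_insert p ρ hi, ih (fun A => f (insert i A)), ih f, EP_insert _ hi]
    ring

end T6a

end Pool.Agent.LPP
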