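import Pool.Agent.Lib.MP_6b8a80_h32.T6a1_Walsh
import Pool.Agent.Lib.MP_6b8a80_h32.T6a2_Wk
import Pool.Agent.Lib.MP_6b8a80_h32.T6a3_EJ

/-!
# MP_6b8a80, T6a: all facts about the Walsh expansion
-/
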