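import Mathlib

set_option autoImplicit false

/-!
# MP_6b8a80, task T6b: one-coordinate inequality for the sixth moment
-/

namespace Pool.Agent.LPP

namespace OneStep

theorem sq3 (a b c : ℝ) : (a + b + c)^2 ≤ 3 * (a^2 + b^2 + c^2) := by
  have h : 3 * (a^2 + b^2 + c^2) - (a + b + c)^2 = (a-b)^2 + (a-c)^2 + (b-c)^2 := by ring
  have : 0 ≤ (a-b)^2 + (a-c)^2 + (b-c)^2 := by positivity
  linarith

theorem pair3 (a b c : ℝ) : a*b + a*c + b*c ≤ a^2 + b^2 + c^2 := by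
  have h : 2 * (a^2 + b^2 + c^2) - 2 * (a*b + a*c + b*c) = (a-b)^2 + (a-c)^2 + (b-c)^2 := by ring
  have : 0 ≤ (a-b)^2 + (a-c)^2 + (b-c)^2 := by positivity
  linarith

theorem pair3' (a b c : ℝ) : -(a^2 + b^2 + c^2) ≤ a*b + a*c + b*c := by
  have h : 2 * (a*b + a*c + b*c) + (a^2 + b^2 + c^2) = (a+b+c)^2 := by ring
  have h2 : 0 ≤ (a+b+c)^2 := by positivity
  have h3 : 0 ≤ a^2 + b^2 + c^2 := by positivity
  linarith

theorem two_mul_abs (a b : ℝ) : |2 * (a * b)| ≤ a^2 + b^2 := by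
  rw [abs_le]
  constructor
  · have h : a^2 + b^2 + 2 * (a*b) = (a+b)^2 := by ring
    have : 0 ≤ (a+b)^2 := by positivity
    linarith
  · have h : a^2 + b^2 - 2 * (a*b) = (a-b)^2 := by ring
    have : 0 ≤ (a-b)^2 := by positivity
    linarith

theorem mul_le_of_abs {t B C : ℝ} (ht : |t| ≤ 1) (hB : |B| ≤ C) : t * B ≤ C := by
  calc t * B ≤ |t * B| := le_abs_self _
    _ = |t| * |B| := abs_mul _ _
    _ ≤ 1 * C := by gcongr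
    _ = C := one_mul _

theorem g2 (x1 x2 x3 : ℝ) :
    (x1+x2+x3)^2 + 2 * (x1*x2 + x1*x3 + x2*x3) ≤ 5 * (x1^2+x2^2+x3^2) := by
  have := sq3 x1 x2 x3
  have := pair3 x1 x2 x3
  linarith

theorem g3 (x1 x2 x3 y1 y2 y3 : ℝ) :
    |2 * ((x1+x2+x3) * (y1+y2+y3)) + 2 * (x1 * y1)| ≤
      4 * ((x1^2+x2^2+x3^2) + (y1^2+y2^2+y3^2)) := by
  have h1 := two_mul_abs (x1+x2+x3) (y1+y2+y3)
  have h2 := two_mul_abs x1 y1
  have h3 := sq3 x1 x2 x3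
  have h4 := sq3 y1 y2 y3
  have h5 : 0 ≤ x2^2 := sq_nonneg _
  have h6 : 0 ≤ x3^2 := sq_nonneg _
  have h7 : 0 ≤ y2^2 := sq_nonneg _
  have h8 : 0 ≤ y3^2 := sq_nonneg _
  have h9 := abs_add_le (2 * ((x1+x2+x3) * (y1+y2+y3))) (2 * (x1 * y1))
  linarith

theorem g4 (y1 y2 y3 : ℝ) :
    |(y1+y2+y3)^2 + 2 * (y2*y3 + y1*y3 + y1*y2)| ≤ 5 * (y1^2+y2^2+y3^2) := by
  have h1 := sq3 y1 y2 y3
  have h2 := pair3 y1 y2 y3
  have h3 := pair3' y1 y2 y3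
  have h4 : 0 ≤ (y1+y2+y3)^2 := sq_nonneg _
  have h5 : 0 ≤ y1^2 + y2^2 + y3^2 := by positivity
  rw [abs_le]
  constructor <;> linarith

theorem g5 (y1 y2 y3 z : ℝ) :
    |2 * ((y1+y2+y3) * z)| ≤ (y1^2+y2^2+y3^2) + 3 * z^2 := by
  have h1 := two_mul_abs y1 z
  have h2 := two_mul_abs y2 z
  have h3 := two_mul_abs y3 z
  have e : 2 * ((y1+y2+y3) * z) = 2 * (y1*z) + 2 * (y2*z) + 2 * (y3*z) := by ring
  rw [e]
  have h4 := abs_add_le (2 * (y1*z) + 2 * (y2*z)) (2 * (y3*z))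
  have h5 := abs_add_le (2 * (y1*z)) (2 * (y2*z))
  linarith

theorem moments (p w s1 s2 z : ℝ) :
    p * (w + 1/3 * (1-p) * s1 + 1/9 * (1-p)^2 * s2 + 1/27 * (1-p)^3 * z)^2
      + (1-p) * (w - 1/3 * p * s1 + 1/9 * p^2 * s2 - 1/27 * p^3 * z)^2
      = w^2 + p*(1-p) * (1/9 * (s1^2 + 2 * (w * s2))
          + 1/27 * ((1 - 2*p) * (2 * (s1 * s2) + 2 * (w * z)))
          + 1/81 * ((1 - 3*p*(1-p)) * (s2^2 + 2 * (s1 * z)))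
          + 1/243 * (((1 - 2*p) * ((1-p)^2 + p^2)) * (2 * (s2 * z)))
          + 1/729 * (((1-p)^5 + p^5) * z^2)) := by
  ring

theorem p5 {p : ℝ} (hp0 : 0 ≤ p) (hp1 : p ≤ 1) : (1-p)^5 + p^5 ≤ 1 := by
  have h2 : (1-p)^5 ≤ (1-p) := by
    calc (1-p)^5 = (1-p) * (1-p)^4 := by ring
      _ ≤ (1-p) * 1 := by
        have : (1-p)^4 ≤ 1 := pow_le_one₀ (by linarith) (by linarith)
        have h : 0 ≤ 1 - p := by linarith
        gcongr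
      _ = (1-p) := mul_one _
  have h3 : p^5 ≤ p := by
    calc p^5 = p * p^4 := by ring
      _ ≤ p * 1 := by
        have : p^4 ≤ 1 := pow_le_one₀ hp0 hp1
        gcongr
      _ = p := mul_one _
  linarith

theorem core {p w x1 x2 x3 y1 y2 y3 z : ℝ} (hp0 : 0 ≤ p) (hp1 : p ≤ 1)
    (hws : w * (y1+y2+y3) = x1*x2 + x1*x3 + x2*x3) (hwz : w * z = x1 * y1)
    (hsz : (x1+x2+x3) * z = y2*y3 + y1*y3 + y1*y2) :
    p * (w + 1/3 * (1-p) * (x1+x2+x3) + 1/9 * (1-p)^2 * (y1+y2+y3) + 1/27 * (1-p)^3 * z)^2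
      + (1-p) * (w - 1/3 * p * (x1+x2+x3) + 1/9 * p^2 * (y1+y2+y3) - 1/27 * p^3 * z)^2
    ≤ w^2 + p*(1-p) * ((x1^2+x2^2+x3^2) + (y1^2+y2^2+y3^2) + z^2) := by
  rw [moments, hws, hwz, hsz]
  have hv : 0 ≤ p * (1-p) := mul_nonneg hp0 (by linarith)
  have hv4 : p * (1-p) ≤ 1 := by nlinarith only [hp0, hp1]
  have i2 := g2 x1 x2 x3
  have i3 : (1 - 2*p) * (2 * ((x1+x2+x3) * (y1+y2+y3)) + 2 * (x1 * y1)) ≤
      4 * ((x1^2+x2^2+x3^2) + (y1^2+y2^2+y3^2)) :=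
    mul_le_of_abs (by rw [abs_le]; constructor <;> linarith only [hp0, hp1]) (g3 x1 x2 x3 y1 y2 y3)
  have i4 : (1 - 3*p*(1-p)) * ((y1+y2+y3)^2 + 2 * (y2*y3 + y1*y3 + y1*y2)) ≤
      5 * (y1^2+y2^2+y3^2) :=
    mul_le_of_abs (by rw [abs_le]; constructor <;> nlinarith only [sq_nonneg (1 - 2*p), hv])
      (g4 y1 y2 y3)
  have i5 : ((1 - 2*p) * ((1-p)^2 + p^2)) * (2 * ((y1+y2+y3) * z)) ≤
      (y1^2+y2^2+y3^2) + 3 * z^2 := by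
    refine mul_le_of_abs ?_ (g5 y1 y2 y3 z)
    rw [abs_mul]
    have a1 : |1 - 2*p| ≤ 1 := by rw [abs_le]; constructor <;> linarith only [hp0, hp1]
    have a2 : |(1-p)^2 + p^2| ≤ 1 := by
      rw [abs_of_nonneg (by positivity)]; nlinarith only [hv]
    calc |1 - 2*p| * |(1-p)^2 + p^2| ≤ 1 * 1 := by gcongr
      _ = 1 := one_mul _
  have i6 : ((1-p)^5 + p^5) * z^2 ≤ z^2 := by
    have := mul_le_mul_of_nonneg_right (p5 hp0 hp1) (sq_nonneg z)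
    linarith only [this]
  have hX : 0 ≤ x1^2+x2^2+x3^2 := by positivity
  have hY : 0 ≤ y1^2+y2^2+y3^2 := by positivity
  have hz : 0 ≤ z^2 := by positivity
  have key : 1/9 * ((x1+x2+x3)^2 + 2 * (x1*x2 + x1*x3 + x2*x3))
      + 1/27 * ((1 - 2*p) * (2 * ((x1+x2+x3) * (y1+y2+y3)) + 2 * (x1 * y1)))
      + 1/81 * ((1 - 3*p*(1-p)) * ((y1+y2+y3)^2 + 2 * (y2*y3 + y1*y3 + y1*y2)))
      + 1/243 * (((1 - 2*p) * ((1-p)^2 + p^2)) * (2 * ((y1+y2+y3) * z)))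
      + 1/729 * (((1-p)^5 + p^5) * z^2) ≤
      (x1^2+x2^2+x3^2) + (y1^2+y2^2+y3^2) + z^2 := by
    linarith only [i2, i3, i4, i5, i6, hX, hY, hz]
  have := mul_le_mul_of_nonneg_left key hv
  linarith only [this]

end OneStep

/-- One-coordinate inequality (`ρ = 1/3`). -/
theorem one_step {p : ℝ} (hp0 : 0 ≤ p) (hp1 : p ≤ 1) (a1 a2 a3 d1 d2 d3 : ℝ) :
    p * ((a1 + 1/3 * (1 - p) * d1)^2 * (a2 + 1/3 * (1 - p) * d2)^2
          * (a3 + 1/3 * (1 - p) * d3)^2)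
      + (1 - p) * ((a1 - 1/3 * p * d1)^2 * (a2 - 1/3 * p * d2)^2
          * (a3 - 1/3 * p * d3)^2)
    ≤ a1^2*a2^2*a3^2
      + p * (1 - p) * ((d1^2*a2^2*a3^2 + a1^2*d2^2*a3^2 + a1^2*a2^2*d3^2)
        + (a1^2*d2^2*d3^2 + d1^2*a2^2*d3^2 + d1^2*d2^2*a3^2) + d1^2*d2^2*d3^2) := by
  have h := OneStep.core (p := p) (w := a1*a2*a3) (x1 := d1*a2*a3) (x2 := a1*d2*a3)
    (x3 := a1*a2*d3) (y1 := a1*d2*d3) (y2 := d1*a2*d3) (y3 := d1*d2*a3) (z := d1*d2*d3)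
    hp0 hp1 (by ring) (by ring) (by ring)
  have e1 : (a1 + 1/3 * (1 - p) * d1)^2 * (a2 + 1/3 * (1 - p) * d2)^2
          * (a3 + 1/3 * (1 - p) * d3)^2 = (a1*a2*a3 + 1/3 * (1-p) * (d1*a2*a3+a1*d2*a3+a1*a2*d3)
          + 1/9 * (1-p)^2 * (a1*d2*d3+d1*a2*d3+d1*d2*a3) + 1/27 * (1-p)^3 * (d1*d2*d3))^2 := by
    rw [← mul_pow, ← mul_pow]
    congr 1
    ring
  have e2 : (a1 - 1/3 * p * d1)^2 * (a2 - 1/3 * p * d2)^2
          * (a3 - 1/3 * p * d3)^2 = (a1*a2*a3 - 1/3 * p * (d1*a2*a3+a1*d2*a3+a1*a2*d3)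
          + 1/9 * p^2 * (a1*d2*d3+d1*a2*d3+d1*d2*a3) - 1/27 * p^3 * (d1*d2*d3))^2 := by
    rw [← mul_pow, ← mul_pow]
    congr 1
    ring
  rw [e1, e2]
  refine h.trans (le_of_eq ?_)
  ring

end Pool.Agent.LPP
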