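import Pool.Agent.Lib.MP_6b8a80_h32.T6b_trip

/-!
# MP_6b8a80, task T6b: main consequence of the sixth moment inequality
-/

set_option autoImplicit false

namespace Pool.Agent.LPP

open Finset

variable {α : Type} [DecidableEq α]

/-- Level `j` part of the Walsh coefficients. -/
noncomputable def lev (p : ℝ) (S : Finset α) (j : ℕ) (g : Finset α → ℝ) (V : Finset α) : ℝ :=
  if #V = j then coef p S g V else 0

theorem lev_eq_zero (p : ℝ) (S : Finset α) (j : ℕ) (g : Finset α → ℝ) (V : Finset α)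
    (h : #V ≠ j) : lev p S j g V = 0 := by
  unfold lev
  rw [if_neg h]

theorem Wk_eq_coef (p : ℝ) (S : Finset α) (j : ℕ) (g : Finset α → ℝ) :
    Wk p S j g = ∑ V ∈ S.powersetCard j, (p * (1 - p)) ^ j * coef p S g V ^ 2 := rfl

theorem sum_lev (p : ℝ) (S : Finset α) (j : ℕ) (g : Finset α → ℝ) (F : Finset α → ℝ → ℝ)
    (hF : ∀ V, F V 0 = 0) :
    ∑ V ∈ S.powerset, F V (lev p S j g V) = ∑ V ∈ S.powersetCard j, F V (coef p S g V) := by
  have h1 : S.powersetCard j = S.powerset.filter (fun V => #V = j) := by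
    ext V
    rw [mem_powersetCard, mem_filter, mem_powerset]
  rw [h1, sum_filter]
  refine sum_congr rfl fun V _ => ?_
  by_cases h : #V = j
  · rw [if_pos h]; unfold lev; rw [if_pos h]
  · rw [if_neg h, lev_eq_zero p S j g V h, hF]

theorem Nc_lev_empty (p : ℝ) (S : Finset α) (j : ℕ) (g : Finset α → ℝ) :
    Nc (p * (1 - p)) S (lev p S j g) ∅ = Wk p S j g := by
  unfold Nc
  rw [sdiff_empty, Wk_eq_coef]
  have h := sum_lev p S j g (fun V x => (p * (1 - p)) ^ #V * x ^ 2) (fun V => by simp)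
  simp only [empty_union]
  rw [h]
  refine sum_congr rfl fun V hV => ?_
  rw [mem_powersetCard] at hV
  rw [hV.2]

theorem Nc_lev_le {p : ℝ} (h0 : 0 ≤ p) (h1 : p ≤ 1) (S : Finset α) (j : ℕ) (g : Finset α → ℝ)
    {A : Finset α} (hj : #A ≤ j) :
    Nc (p * (1 - p)) S (lev p S j g) A ≤ Wk p S (j - #A) (DU A g) := by
  have hv : 0 ≤ p * (1 - p) := mul_nonneg h0 (by linarith)
  unfold Nc
  rw [Wk_eq_coef]
  have h2 : ∑ V ∈ (S \ A).powerset, (p * (1 - p)) ^ #V * lev p S j g (A ∪ V) ^ 2 =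
      ∑ V ∈ (S \ A).powersetCard (j - #A), (p * (1 - p)) ^ (j - #A) * coef p S (DU A g) V ^ 2 := by
    have h3 : (S \ A).powersetCard (j - #A) =
        (S \ A).powerset.filter (fun V => #V = j - #A) := by
      ext V
      rw [mem_powersetCard, mem_filter, mem_powerset]
    rw [h3, sum_filter]
    refine sum_congr rfl fun V hV => ?_
    rw [mem_powerset] at hV
    have hd : Disjoint A V := by
      rw [disjoint_left]
      intro i hi hiV
      exact (mem_sdiff.1 (hV hiV)).2 hi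
    by_cases h : #V = j - #A
    · rw [if_pos h, h, coef_DU p hd]
      unfold lev
      rw [if_pos (by rw [card_union_of_disjoint hd]; omega)]
    · rw [if_neg h, lev_eq_zero p S j g _ (by rw [card_union_of_disjoint hd]; omega)]
      simp
  rw [h2]
  refine sum_le_sum_of_subset_of_nonneg (powersetCard_mono sdiff_subset) fun V _ _ => ?_
  positivity

theorem level_bound {p : ℝ} (h0 : 0 ≤ p) (h1 : p ≤ 1) (S : Finset α) (j : ℕ) (g : Finset α → ℝ)
    (hg : ∀ A ⊆ S, |g A| ≤ 1) (M : ℝ)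
    (hM : ∀ A ⊆ S, Nc (p * (1 - p)) S (lev p S j g) A ≤ M) :
    (Wk p S j g) ^ 5 ≤ 11664 ^ j * (EP (fun _ => p) S (fun A => |g A|)) ^ 5 * M ^ 2 := by
  have hv : 0 ≤ p * (1 - p) := mul_nonneg h0 (by linarith)
  have hG : Good (fun _ : α => p) S := fun i _ => ⟨h0, h1⟩
  have ha : 0 ≤ EP (fun _ => p) S (fun A => |g A|) := EP_nonneg hG fun A _ => abs_nonneg _
  have hW : 0 ≤ Wk p S j g := Wk_nonneg h0 h1 S j g
  set W := Wk p S j g with hWdef
  set a := EP (fun _ => p) S (fun A => |g A|) with hadef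
  set c := lev p S j g with hcdef
  set Q : Finset α → ℝ := fun A => ∑ V ∈ S.powerset, c V * chi p V A with hQdef
  have hEQ : EP (fun _ => p) S (fun A => g A * Q A) = W := by
    have e1 : EP (fun _ => p) S (fun A => g A * Q A) =
        EP (fun _ => p) S (fun A => ∑ V ∈ S.powerset, c V * (g A * chi p V A)) := by
      refine EP_congr _ S fun A _ => ?_
      rw [hQdef]
      simp only
      rw [mul_sum]
      refine sum_congr rfl fun V _ => ?_
      ring
    rw [e1, EP_sum]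
    have e2 : ∀ V ∈ S.powerset, EP (fun _ => p) S (fun A => c V * (g A * chi p V A)) =
        lev p S j g V * ((p * (1 - p)) ^ #V * coef p S g V) := by
      intro V hV
      rw [mem_powerset] at hV
      rw [EP_const_mul, EP_mul_chi p hV]
    have e2' := sum_lev p S j g (fun V x => x * ((p * (1 - p)) ^ #V * coef p S g V))
      (fun V => by simp)
    rw [sum_congr rfl e2, e2', hWdef, Wk_eq_coef]
    refine sum_congr rfl fun V hV => ?_
    rw [mem_powersetCard] at hV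
    rw [hV.2]
    ring
  have hH := EP_holder6 hG g Q hg
  rw [hEQ, ← hadef] at hH
  have hQ6 : EP (fun _ => p) S (fun A => Q A ^ 6) ≤ 729 ^ j * (16 ^ j * M ^ 2 * W) := by
    have e3 : ∀ A, ∑ V ∈ S.powerset, (1 / 3 : ℝ) ^ #V * c V * chi p V A = (1 / 3) ^ j * Q A := by
      intro A
      rw [hQdef]
      simp only
      rw [mul_sum]
      refine sum_congr rfl fun V _ => ?_
      by_cases h : #V = j
      · rw [h]; ring
      · rw [hcdef, lev_eq_zero p S j g V h]; ring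
    have e4 : ∀ A, Q A ^ 6 = 729 ^ j * (((1 / 3) ^ j * Q A) ^ 2 * ((1 / 3) ^ j * Q A) ^ 2 *
        ((1 / 3) ^ j * Q A) ^ 2) := by
      intro A
      have : (729 : ℝ) ^ j * (((1 / 3) ^ j) ^ 2 * ((1 / 3) ^ j) ^ 2 * ((1 / 3) ^ j) ^ 2) = 1 := by
        rw [← pow_add, ← pow_add, ← pow_mul, mul_comm j, pow_mul, ← mul_pow]
        norm_num
      calc Q A ^ 6 = 1 * Q A ^ 6 := (one_mul _).symm
        _ = ((729 : ℝ) ^ j * (((1 / 3) ^ j) ^ 2 * ((1 / 3) ^ j) ^ 2 * ((1 / 3) ^ j) ^ 2)) *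
            Q A ^ 6 := by rw [this]
        _ = _ := by ring
    have e5 : EP (fun _ => p) S (fun A => Q A ^ 6) =
        729 ^ j * EP (fun _ => p) S (fun A => ((1 / 3) ^ j * Q A) ^ 2 * ((1 / 3) ^ j * Q A) ^ 2 *
        ((1 / 3) ^ j * Q A) ^ 2) := by
      rw [← EP_const_mul]
      exact EP_congr _ S fun A _ => e4 A
    rw [e5]
    refine mul_le_mul_of_nonneg_left ?_ (by positivity)
    have h6 := sixth_moment h0 h1 S c c c
    simp only [e3] at h6
    refine h6.trans ?_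
    have h7 := trip_sum_le hv S j M c (fun V hV => lev_eq_zero p S j g V hV) hM
    rw [hcdef, Nc_lev_empty, ← hWdef, ← hcdef] at h7
    exact h7
  have hfin : W ^ 6 ≤ (11664 ^ j * a ^ 5 * M ^ 2) * W := by
    calc W ^ 6 ≤ a ^ 5 * EP (fun _ => p) S (fun A => Q A ^ 6) := hH
      _ ≤ a ^ 5 * (729 ^ j * (16 ^ j * M ^ 2 * W)) :=
          mul_le_mul_of_nonneg_left hQ6 (by positivity)
      _ = ((729 ^ j * 16 ^ j) * a ^ 5 * M ^ 2) * W := by ring
      _ = (11664 ^ j * a ^ 5 * M ^ 2) * W := by rw [← mul_pow]; norm_num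
  rcases hW.eq_or_lt with h | h
  · rw [← h]
    have : 0 ≤ (11664 : ℝ) ^ j * a ^ 5 * M ^ 2 := by positivity
    simpa using this
  · have : W ^ 5 * W ≤ (11664 ^ j * a ^ 5 * M ^ 2) * W := by
      calc W ^ 5 * W = W ^ 6 := by ring
        _ ≤ _ := hfin
    exact le_of_mul_le_mul_right this h

theorem Dx_Dx_self (x : α) (f : Finset α → ℝ) (A : Finset α) : Dx x (Dx x f) A = 0 := by
  unfold Dx
  have h1 : (insert x A).erase x = A.erase x := by
    ext i; simp only [mem_erase, mem_insert]; tauto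
  have h2 : insert x (A.erase x) = insert x A := by
    ext i; simp only [mem_erase, mem_insert]; tauto
  rw [insert_idem, h1, h2, erase_idem]
  ring

theorem DU_eq_zero_of_zero (U A : Finset α) (f : Finset α → ℝ) (hf : ∀ B, f B = 0) :
    DU U f A = 0 := by
  unfold DU
  simp [hf]

theorem DU_DU_of_not_disjoint {U V : Finset α} (hd : ¬ Disjoint U V) (f : Finset α → ℝ)
    (A : Finset α) : DU U (DU V f) A = 0 := by
  rw [disjoint_left] at hd
  push Not at hd
  obtain ⟨x, hxU, hxV⟩ := hd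
  have hd1 : Disjoint (U.erase x) {x} := by simp
  have hd2 : Disjoint {x} (V.erase x) := by simp
  have h1 : DU U (DU V f) = DU (U.erase x) (DU {x} (DU V f)) := by
    rw [DU_DU hd1, union_comm, ← insert_eq, insert_erase hxU]
  have h2 : DU V f = DU {x} (DU (V.erase x) f) := by
    rw [DU_DU hd2, ← insert_eq, insert_erase hxV]
  rw [h1]
  refine DU_eq_zero_of_zero _ _ _ fun B => ?_
  rw [DU_singleton, h2, DU_singleton]
  exact Dx_Dx_self x _ B

theorem DU_abs_le {S U A : Finset α} (hU : U ⊆ S) (hA : A ⊆ S) (g : Finset α → ℝ)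
    (hg : ∀ B ⊆ S, |g B| ≤ 1) : |DU U g A| ≤ 2 ^ #U := by
  unfold DU
  refine (abs_sum_le_sum_abs _ _).trans ?_
  have : ∀ V ∈ U.powerset, |(-1 : ℝ) ^ #(U \ V) * g (A \ U ∪ V)| ≤ 1 := by
    intro V hV
    rw [mem_powerset] at hV
    rw [abs_mul, abs_pow, abs_neg, abs_one, one_pow, one_mul]
    exact hg _ (union_subset (sdiff_subset.trans hA) (hV.trans hU))
  refine (sum_le_sum this).trans ?_
  rw [sum_const, card_powerset]
  simp

theorem DU_const_mul (c : ℝ) (U : Finset α) (f : Finset α → ℝ) (A : Finset α) :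
    DU U (fun B => c * f B) A = c * DU U f A := by
  unfold DU
  rw [mul_sum]
  refine sum_congr rfl fun V _ => ?_
  ring

theorem Wk_const_mul (p : ℝ) (S : Finset α) (j : ℕ) (c : ℝ) (f : Finset α → ℝ) :
    Wk p S j (fun B => c * f B) = c ^ 2 * Wk p S j f := by
  unfold Wk
  rw [mul_sum]
  refine sum_congr rfl fun V _ => ?_
  have : EP (fun _ => p) S (DU V (fun B => c * f B)) = c * EP (fun _ => p) S (DU V f) := by
    rw [← EP_const_mul]
    exact EP_congr _ S fun A _ => DU_const_mul c V f A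
  rw [this]
  ring

/-- Pure inequality: first case. -/
theorem case_one {W a κ K : ℝ} (hW : 0 ≤ W) (ha : 0 ≤ a) (haκ : a ≤ κ) (hK : 0 ≤ K)
    (h : W ^ 5 ≤ K * a ^ 5 * W ^ 2) : W ^ 3 ≤ K * (a ^ 3 * κ ^ 2) := by
  have h1 : a ^ 5 ≤ a ^ 3 * κ ^ 2 := by
    have : a ^ 2 ≤ κ ^ 2 := pow_le_pow_left₀ ha haκ 2
    calc a ^ 5 = a ^ 3 * a ^ 2 := by ring
      _ ≤ a ^ 3 * κ ^ 2 := mul_le_mul_of_nonneg_left this (by positivity)
  rcases hW.eq_or_lt with h0 | h0
  · rw [← h0]
    have : 0 ≤ K * (a ^ 3 * κ ^ 2) := by positivity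
    simpa using this
  · have h2 : W ^ 3 * W ^ 2 ≤ (K * a ^ 5) * W ^ 2 := by
      calc W ^ 3 * W ^ 2 = W ^ 5 := by ring
        _ ≤ _ := h
    have h3 := le_of_mul_le_mul_right h2 (by positivity : 0 < W ^ 2)
    exact h3.trans (mul_le_mul_of_nonneg_left h1 hK)

/-- Pure inequality: second case. -/
theorem case_two {W a κ K L M : ℝ} (hW : 0 ≤ W) (ha : 0 ≤ a)
    (hK : 1 ≤ K) (hL : 1 ≤ L) (hM0 : 0 ≤ M)
    (h : W ^ 5 ≤ K * a ^ 5 * M ^ 2) (hM : M ^ 3 ≤ L * κ ^ 5) :
    W ^ 3 ≤ K ^ 3 * L ^ 2 * (a ^ 3 * κ ^ 2) := by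
  have h1 : (W ^ 3) ^ 5 ≤ (K ^ 3 * L ^ 2 * (a ^ 3 * κ ^ 2)) ^ 5 := by
    calc (W ^ 3) ^ 5 = (W ^ 5) ^ 3 := by ring
      _ ≤ (K * a ^ 5 * M ^ 2) ^ 3 := pow_le_pow_left₀ (by positivity) h 3
      _ = K ^ 3 * a ^ 15 * (M ^ 3) ^ 2 := by ring
      _ ≤ K ^ 3 * a ^ 15 * (L * κ ^ 5) ^ 2 :=
          mul_le_mul_of_nonneg_left (pow_le_pow_left₀ (by positivity) hM 2) (by positivity)
      _ = (K ^ 3 * L ^ 2) * (a ^ 3 * κ ^ 2) ^ 5 := by ring
      _ ≤ (K ^ 3 * L ^ 2) ^ 5 * (a ^ 3 * κ ^ 2) ^ 5 := by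
          refine mul_le_mul_of_nonneg_right ?_ (by positivity)
          have hKL : 1 ≤ K ^ 3 * L ^ 2 := by
            have h2 : 1 ≤ K ^ 3 := one_le_pow₀ hK
            have h3 : 1 ≤ L ^ 2 := one_le_pow₀ hL
            nlinarith
          exact le_self_pow₀ hKL (by norm_num)
      _ = _ := by ring
  exact le_of_pow_le_pow_left₀ (by norm_num) (by positivity) h1

/-- The level inequality for bounded functions with small derivatives. -/
theorem level_claim (j : ℕ) : ∃ C : ℝ, 1 ≤ C ∧ ∀ (p κ : ℝ) (S : Finset α) (g : Finset α → ℝ),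
    0 ≤ p → p ≤ 1 → 0 ≤ κ → κ ≤ 1 → (∀ A ⊆ S, |g A| ≤ 1) →
    (∀ U ⊆ S, #U ≤ j → EP (fun _ => p) S (fun A => |DU U g A|) ≤ κ) →
    (Wk p S j g) ^ 3 ≤ C * ((EP (fun _ => p) S (fun A => |g A|)) ^ 3 * κ ^ 2) := by
  induction j using Nat.strong_induction_on with
  | _ j ih =>
  -- a common constant for all smaller levels
  have hD : ∃ D : ℝ, 1 ≤ D ∧ ∀ i < j, ∀ (p κ : ℝ) (S : Finset α) (g : Finset α → ℝ),
      0 ≤ p → p ≤ 1 → 0 ≤ κ → κ ≤ 1 → (∀ A ⊆ S, |g A| ≤ 1) →
      (∀ U ⊆ S, #U ≤ i → EP (fun _ => p) S (fun A => |DU U g A|) ≤ κ) →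
      (Wk p S i g) ^ 3 ≤ D * ((EP (fun _ => p) S (fun A => |g A|)) ^ 3 * κ ^ 2) := by
    choose! Cf hC1 hC2 using ih
    refine ⟨1 + ∑ i ∈ range j, Cf i, ?_, ?_⟩
    · have : 0 ≤ ∑ i ∈ range j, Cf i :=
        sum_nonneg fun i hi => by linarith [hC1 i (mem_range.1 hi)]
      linarith
    · intro i hi p κ S g hp0 hp1 hκ0 hκ1 hg hU
      refine (hC2 i hi p κ S g hp0 hp1 hκ0 hκ1 hg hU).trans ?_
      have hG : Good (fun _ : α => p) S := fun i _ => ⟨hp0, hp1⟩
      have ha : 0 ≤ EP (fun _ => p) S (fun A => |g A|) := EP_nonneg hG fun A _ => abs_nonneg _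
      refine mul_le_mul_of_nonneg_right ?_ (by positivity)
      have : Cf i ≤ ∑ i ∈ range j, Cf i :=
        single_le_sum (f := Cf) (fun i hi => by linarith [hC1 i (mem_range.1 hi)])
          (mem_range.2 hi)
      linarith
  obtain ⟨D, hD1, hD2⟩ := hD
  have hK1 : (1 : ℝ) ≤ 11664 ^ j := one_le_pow₀ (by norm_num)
  have hL1 : (1 : ℝ) ≤ 64 ^ j * D := by
    have : (1 : ℝ) ≤ 64 ^ j := one_le_pow₀ (by norm_num)
    nlinarith
  refine ⟨(11664 ^ j) ^ 3 * (64 ^ j * D) ^ 2, ?_, ?_⟩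
  · have h2 : (1 : ℝ) ≤ (11664 ^ j) ^ 3 := one_le_pow₀ hK1
    have h3 : (1 : ℝ) ≤ (64 ^ j * D) ^ 2 := one_le_pow₀ hL1
    nlinarith
  intro p κ S g hp0 hp1 hκ0 hκ1 hg hU
  have hv : 0 ≤ p * (1 - p) := mul_nonneg hp0 (by linarith)
  have hG : Good (fun _ : α => p) S := fun i _ => ⟨hp0, hp1⟩
  have ha : 0 ≤ EP (fun _ => p) S (fun A => |g A|) := EP_nonneg hG fun A _ => abs_nonneg _
  have haκ : EP (fun _ => p) S (fun A => |g A|) ≤ κ := by
    have := hU ∅ (empty_subset _) (by simp)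
    simpa only [DU_empty] using this
  have hW : 0 ≤ Wk p S j g := Wk_nonneg hp0 hp1 S j g
  obtain ⟨A, hA, hmax⟩ := exists_max_image S.powerset
    (fun A => Nc (p * (1 - p)) S (lev p S j g) A) ⟨∅, by simp⟩
  rw [mem_powerset] at hA
  have hb := level_bound hp0 hp1 S j g hg (Nc (p * (1 - p)) S (lev p S j g) A)
    (fun B hB => hmax B (mem_powerset.2 hB))
  have hN0 : 0 ≤ Nc (p * (1 - p)) S (lev p S j g) A := Nc_nonneg hv S _ A
  rcases A.eq_empty_or_nonempty with hAe | hAne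
  · subst hAe
    rw [Nc_lev_empty] at hb
    have h1 := case_one hW ha haκ (by positivity) hb
    refine h1.trans (mul_le_mul_of_nonneg_right ?_ (by positivity))
    have h2 : (11664 : ℝ) ^ j ≤ (11664 ^ j) ^ 3 := le_self_pow₀ hK1 (by norm_num)
    have h3 : (1 : ℝ) ≤ (64 ^ j * D) ^ 2 := one_le_pow₀ hL1
    nlinarith
  · refine case_two hW ha hK1 hL1 hN0 hb ?_
    by_cases hAj : #A ≤ j
    · have hm : 0 < #A := hAne.card_pos
      set m := #A with hmdef
      have hlt : j - m < j := by omega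
      have hcpos : (0 : ℝ) < 2 ^ m := by positivity
      set g' : Finset α → ℝ := fun B => (1 / 2 ^ m : ℝ) * DU A g B with hg'
      have hDU : ∀ B ⊆ S, |g' B| ≤ 1 := by
        intro B hB
        rw [hg']
        simp only
        rw [abs_mul, abs_of_nonneg (by positivity : (0 : ℝ) ≤ 1 / 2 ^ m)]
        have := DU_abs_le hA hB g hg
        rw [← hmdef] at this
        calc (1 / 2 ^ m : ℝ) * |DU A g B| ≤ 1 / 2 ^ m * 2 ^ m := by gcongr
          _ = 1 := by field_simp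
      have hDE : ∀ U ⊆ S, #U ≤ j - m → EP (fun _ => p) S (fun B => |DU U g' B|) ≤ κ := by
        intro U hUS hUj
        by_cases hd : Disjoint U A
        · have h1 : EP (fun _ => p) S (fun B => |DU U g' B|) ≤
              EP (fun _ => p) S (fun B => |DU (U ∪ A) g B|) := by
            refine EP_mono hG fun B _ => ?_
            rw [hg', DU_const_mul, DU_DU hd, abs_mul,
              abs_of_nonneg (by positivity : (0 : ℝ) ≤ 1 / 2 ^ m)]
            have : (1 : ℝ) / 2 ^ m ≤ 1 := by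
              rw [div_le_one hcpos]
              exact one_le_pow₀ (by norm_num)
            exact mul_le_of_le_one_left (abs_nonneg _) this
          refine h1.trans (hU _ (union_subset hUS hA) ?_)
          rw [card_union_of_disjoint hd]
          omega
        · have h1 : EP (fun _ => p) S (fun B => |DU U g' B|) =
              EP (fun _ => p) S (fun _ => 0) := by
            refine EP_congr _ S fun B _ => ?_
            rw [hg', DU_const_mul, DU_DU_of_not_disjoint hd]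
            simp
          rw [h1, EP_const]
          exact hκ0
      have h5 := hD2 (j - m) hlt p κ S g' hp0 hp1 hκ0 hκ1 hDU hDE
      have ha' : 0 ≤ EP (fun _ => p) S (fun B => |g' B|) := EP_nonneg hG fun B _ => abs_nonneg _
      have haκ' : EP (fun _ => p) S (fun B => |g' B|) ≤ κ := by
        have := hDE ∅ (empty_subset _) (by simp)
        simpa only [DU_empty] using this
      have h6 : Wk p S (j - m) (DU A g) = 4 ^ m * Wk p S (j - m) g' := by
        rw [hg', Wk_const_mul]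
        have : (4 : ℝ) ^ m * (1 / 2 ^ m) ^ 2 = 1 := by
          rw [div_pow, one_pow, ← pow_mul, mul_comm m 2, pow_mul]
          norm_num
        rw [← mul_assoc, this, one_mul]
      have h7 : Nc (p * (1 - p)) S (lev p S j g) A ≤ 4 ^ m * Wk p S (j - m) g' := by
        rw [← h6]
        exact Nc_lev_le hp0 hp1 S j g hAj
      calc (Nc (p * (1 - p)) S (lev p S j g) A) ^ 3 ≤ (4 ^ m * Wk p S (j - m) g') ^ 3 :=
            pow_le_pow_left₀ hN0 h7 3
        _ = 64 ^ m * (Wk p S (j - m) g') ^ 3 := by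
            rw [mul_pow, ← pow_mul, mul_comm m 3, pow_mul]; norm_num
        _ ≤ 64 ^ m * (D * ((EP (fun _ => p) S (fun B => |g' B|)) ^ 3 * κ ^ 2)) := by gcongr
        _ ≤ 64 ^ j * (D * (κ ^ 3 * κ ^ 2)) := by
            gcongr
            norm_num
        _ = 64 ^ j * D * κ ^ 5 := by ring
    · have h8 : Nc (p * (1 - p)) S (lev p S j g) A = 0 :=
        Nc_eq_zero S j _ (fun V hV => lev_eq_zero p S j g V hV) (by omega)
      rw [h8]
      have : 0 ≤ 64 ^ j * D * κ ^ 5 := by positivity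
      simpa using this

theorem Wk_succ_le {p : ℝ} (h0 : 0 ≤ p) (h1 : p ≤ 1) (S : Finset α) (k : ℕ)
    (f : Finset α → ℝ) :
    Wk p S (k + 1) f ≤ ∑ x ∈ S, p * (1 - p) * Wk p S k (Dx x f) := by
  have hv : 0 ≤ p * (1 - p) := mul_nonneg h0 (by linarith)
  have e1 : ∀ x ∈ S, ∑ U ∈ (S.powersetCard (k + 1)).filter (fun U => x ∈ U),
      (p * (1 - p)) ^ (k + 1) * coef p S f U ^ 2 ≤ p * (1 - p) * Wk p S k (Dx x f) := by
    intro x hx
    rw [Wk_eq_coef, mul_sum]
    have e2 : ∑ U ∈ (S.powersetCard (k + 1)).filter (fun U => x ∈ U),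
        (p * (1 - p)) ^ (k + 1) * coef p S f U ^ 2 =
        ∑ V ∈ (S.powersetCard k).filter (fun V => x ∉ V),
          p * (1 - p) * ((p * (1 - p)) ^ k * coef p S (Dx x f) V ^ 2) := by
      refine sum_nbij' (fun U => U.erase x) (fun V => insert x V) ?_ ?_ ?_ ?_ ?_
      · intro U hU
        rw [mem_filter, mem_powersetCard] at hU ⊢
        refine ⟨⟨(erase_subset _ _).trans hU.1.1, ?_⟩, notMem_erase _ _⟩
        rw [card_erase_of_mem hU.2, hU.1.2]
        rfl
      · intro V hV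
        rw [mem_filter, mem_powersetCard] at hV ⊢
        refine ⟨⟨insert_subset hx hV.1.1, ?_⟩, mem_insert_self _ _⟩
        rw [card_insert_of_notMem hV.2, hV.1.2]
      · intro U hU
        rw [mem_filter, mem_powersetCard] at hU
        exact insert_erase hU.2
      · intro V hV
        rw [mem_filter, mem_powersetCard] at hV
        exact erase_insert hV.2
      · intro U hU
        rw [mem_filter, mem_powersetCard] at hU
        have hd : Disjoint {x} (U.erase x) := by simp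
        have e3 : coef p S (Dx x f) (U.erase x) = coef p S f U := by
          rw [← DU_singleton, coef_DU p hd]
          congr 1
          rw [← insert_eq, insert_erase hU.2]
        rw [e3, pow_succ]
        ring
    rw [e2]
    refine sum_le_sum_of_subset_of_nonneg (filter_subset _ _) fun V _ _ => ?_
    positivity
  refine le_trans ?_ (sum_le_sum e1)
  have e4 : ∑ x ∈ S, ∑ U ∈ (S.powersetCard (k + 1)).filter (fun U => x ∈ U),
      (p * (1 - p)) ^ (k + 1) * coef p S f U ^ 2 =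
      ∑ U ∈ S.powersetCard (k + 1), ∑ x ∈ S.filter (fun x => x ∈ U),
        (p * (1 - p)) ^ (k + 1) * coef p S f U ^ 2 := by
    simp only [sum_filter]
    exact sum_comm
  rw [e4, Wk_eq_coef]
  refine sum_le_sum fun U hU => ?_
  rw [mem_powersetCard] at hU
  rw [sum_const, nsmul_eq_mul]
  have e5 : S.filter (fun x => x ∈ U) = U := by
    ext i
    rw [mem_filter]
    exact ⟨fun h => h.2, fun h => ⟨hU.1 h, h⟩⟩
  rw [e5, hU.2]
  have e6 : 0 ≤ (p * (1 - p)) ^ (k + 1) * coef p S f U ^ 2 := by positivity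
  have e7 : (1 : ℝ) ≤ ((k + 1 : ℕ) : ℝ) := by
    rw [Nat.one_le_cast]; omega
  nlinarith

/-- Main consequence of global hypercontractivity. -/
theorem hc_main (k : ℕ) : ∃ C : ℝ, 0 < C ∧ ∀ (p κ : ℝ) (S : Finset α) (f : Finset α → ℝ),
    0 ≤ p → p ≤ 1 → 0 ≤ κ → κ ≤ 1 →
    (∀ x ∈ S, ∀ A ⊆ S, |Dx x f A| ≤ 1) →
    (∀ x ∈ S, ∀ U ⊆ S, #U ≤ k → EP (fun _ => p) S (fun A => |DU U (Dx x f) A|) ≤ κ) →
    Wk p S (k + 1) f ≤
      C * κ ^ ((2 : ℝ) / 3) * ∑ x ∈ S, p * (1 - p) * EP (fun _ => p) S (fun A => |Dx x f A|) := by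
  obtain ⟨C, hC1, hC2⟩ := level_claim (α := α) k
  refine ⟨C, by linarith, ?_⟩
  intro p κ S f hp0 hp1 hκ0 hκ1 hD hU
  have hv : 0 ≤ p * (1 - p) := mul_nonneg hp0 (by linarith)
  have hG : Good (fun _ : α => p) S := fun i _ => ⟨hp0, hp1⟩
  refine (Wk_succ_le hp0 hp1 S k f).trans ?_
  rw [mul_sum]
  refine sum_le_sum fun x hx => ?_
  have h1 := hC2 p κ S (Dx x f) hp0 hp1 hκ0 hκ1 (hD x hx) (hU x hx)
  have ha : 0 ≤ EP (fun _ => p) S (fun A => |Dx x f A|) := EP_nonneg hG fun A _ => abs_nonneg _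
  set a := EP (fun _ => p) S (fun A => |Dx x f A|) with hadef
  have hr : 0 ≤ κ ^ ((2 : ℝ) / 3) := Real.rpow_nonneg hκ0 _
  have hr3 : (κ ^ ((2 : ℝ) / 3)) ^ 3 = κ ^ 2 := by
    rw [← Real.rpow_natCast, ← Real.rpow_mul hκ0]
    norm_num
  have h2 : Wk p S k (Dx x f) ≤ C * a * κ ^ ((2 : ℝ) / 3) := by
    refine le_of_pow_le_pow_left₀ (n := 3) (by norm_num) (by positivity) ?_
    calc (Wk p S k (Dx x f)) ^ 3 ≤ C * (a ^ 3 * κ ^ 2) := h1
      _ ≤ C ^ 3 * (a ^ 3 * κ ^ 2) := by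
          refine mul_le_mul_of_nonneg_right ?_ (by positivity)
          exact le_self_pow₀ hC1 (by norm_num)
      _ = (C * a * κ ^ ((2 : ℝ) / 3)) ^ 3 := by
          rw [mul_pow, mul_pow, hr3]; ring
  calc p * (1 - p) * Wk p S k (Dx x f) ≤ p * (1 - p) * (C * a * κ ^ ((2 : ℝ) / 3)) :=
        mul_le_mul_of_nonneg_left h2 hv
    _ = _ := by ring

end Pool.Agent.LPP
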