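import Pool.Agent.Lib.MP_6b8a80_h32.T6a2_Wk
import Pool.Agent.Lib.MP_6b8a80_h32.T6b_OneStep

/-!
# MP_6b8a80, task T6b: the sixth moment inequality
-/

set_option autoImplicit false

namespace Pool.Agent.LPP

open Finset

variable {α : Type} [DecidableEq α]

/-- squared norm of the derivative `D_A` of `∑ c(V) chi_V` -/
noncomputable def Nc (v : ℝ) (S : Finset α) (c : Finset α → ℝ) (A : Finset α) : ℝ :=
  ∑ V ∈ (S \ A).powerset, v ^ #V * c (A ∪ V) ^ 2

/-- triples of subsets of `S` covering every element of their union at least twice -/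
def trip (S : Finset α) : Finset (Finset α × Finset α × Finset α) :=
  (S.powerset ×ˢ S.powerset ×ˢ S.powerset).filter (fun T => ∀ i ∈ S,
    (i ∈ T.1 → i ∈ T.2.1 ∨ i ∈ T.2.2) ∧ (i ∈ T.2.1 → i ∈ T.1 ∨ i ∈ T.2.2) ∧
    (i ∈ T.2.2 → i ∈ T.1 ∨ i ∈ T.2.1))

theorem Nc_nonneg {v : ℝ} (hv : 0 ≤ v) (S : Finset α) (c : Finset α → ℝ) (A : Finset α) :
    0 ≤ Nc v S c A :=
  Finset.sum_nonneg fun _ _ => mul_nonneg (pow_nonneg hv _) (sq_nonneg _)

theorem Nc_insert_of_notMem {v : ℝ} {S : Finset α} {i : α} (hi : i ∉ S) (c : Finset α → ℝ)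
    {A : Finset α} (hA : A ⊆ S) :
    Nc v (insert i S) c A = Nc v S c A + v * Nc v S (fun V => c (insert i V)) A := by
  have hiA : i ∉ A := fun h => hi (hA h)
  have h1 : insert i S \ A = insert i (S \ A) := insert_sdiff_of_notMem _ hiA
  have h2 : i ∉ S \ A := fun h => hi (mem_sdiff.1 h).1
  unfold Nc
  rw [h1, sum_powerset_insert h2, mul_sum]
  congr 1
  refine sum_congr rfl fun V hV => ?_
  have hiV : i ∉ V := fun h => h2 (mem_powerset.1 hV h)
  rw [card_insert_of_notMem hiV, union_insert, pow_succ]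
  ring

theorem Nc_insert_of_mem {v : ℝ} {S : Finset α} {i : α} (hi : i ∉ S) (c : Finset α → ℝ)
    (A : Finset α) :
    Nc v (insert i S) c (insert i A) = Nc v S (fun V => c (insert i V)) A := by
  have h1 : insert i S \ insert i A = S \ A := by
    ext j
    simp only [mem_sdiff, mem_insert, not_or]
    constructor
    · rintro ⟨h1 | h1, h2, h3⟩
      · exact absurd h1 h2
      · exact ⟨h1, h3⟩
    · rintro ⟨h1, h2⟩
      exact ⟨Or.inr h1, fun h => hi (h ▸ h1), h2⟩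
  unfold Nc
  rw [h1]
  refine sum_congr rfl fun V _ => ?_
  rw [insert_union]

/-- the condition defining `trip` -/
def tc (S A B C : Finset α) : Prop := ∀ i ∈ S,
    (i ∈ A → i ∈ B ∨ i ∈ C) ∧ (i ∈ B → i ∈ A ∨ i ∈ C) ∧
    (i ∈ C → i ∈ A ∨ i ∈ B)

instance (S A B C : Finset α) : Decidable (tc S A B C) := by unfold tc; infer_instance

theorem trip_sum (S : Finset α) (g : Finset α → Finset α → Finset α → ℝ) :
    ∑ T ∈ trip S, g T.1 T.2.1 T.2.2 =
      ∑ A ∈ S.powerset, ∑ B ∈ S.powerset, ∑ C ∈ S.powerset,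
        if tc S A B C then g A B C else 0 := by
  unfold trip
  rw [sum_filter, sum_product]
  refine sum_congr rfl fun A _ => ?_
  rw [sum_product]
  rfl

theorem tc_insert_iff {S : Finset α} {i : α} {A B C A' B' C' : Finset α}
    (hA : ∀ j ∈ S, (j ∈ A' ↔ j ∈ A)) (hB : ∀ j ∈ S, (j ∈ B' ↔ j ∈ B))
    (hC : ∀ j ∈ S, (j ∈ C' ↔ j ∈ C))
    (h : (i ∈ A' → i ∈ B' ∨ i ∈ C') ∧ (i ∈ B' → i ∈ A' ∨ i ∈ C') ∧
      (i ∈ C' → i ∈ A' ∨ i ∈ B')) :
    tc (insert i S) A' B' C' ↔ tc S A B C := by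
  unfold tc
  rw [forall_mem_insert]
  constructor
  · rintro ⟨_, h2⟩ j hj
    have := h2 j hj
    rwa [hA j hj, hB j hj, hC j hj] at this
  · intro h2
    refine ⟨h, fun j hj => ?_⟩
    have := h2 j hj
    rwa [← hA j hj, ← hB j hj, ← hC j hj] at this

theorem not_tc_insert {S : Finset α} {i : α} {A' B' C' : Finset α}
    (h : ¬ ((i ∈ A' → i ∈ B' ∨ i ∈ C') ∧ (i ∈ B' → i ∈ A' ∨ i ∈ C') ∧
      (i ∈ C' → i ∈ A' ∨ i ∈ B'))) :
    ¬ tc (insert i S) A' B' C' := fun h2 => h (h2 i (mem_insert_self _ _))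

theorem trip_sum_insert {S : Finset α} {i : α} (hi : i ∉ S)
    (g : Finset α → Finset α → Finset α → ℝ) :
    ∑ T ∈ trip (insert i S), g T.1 T.2.1 T.2.2 =
      ∑ T ∈ trip S, (g T.1 T.2.1 T.2.2 + g (insert i T.1) (insert i T.2.1) T.2.2
        + g (insert i T.1) T.2.1 (insert i T.2.2) + g T.1 (insert i T.2.1) (insert i T.2.2)
        + g (insert i T.1) (insert i T.2.1) (insert i T.2.2)) := by
  rw [trip_sum, trip_sum S (fun A B C => g A B C + g (insert i A) (insert i B) C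
        + g (insert i A) B (insert i C) + g A (insert i B) (insert i C)
        + g (insert i A) (insert i B) (insert i C))]
  simp only [sum_powerset_insert hi, ← sum_add_distrib]
  refine sum_congr rfl fun A hA => sum_congr rfl fun B hB => sum_congr rfl fun C hC => ?_
  have hiA : i ∉ A := fun h => hi (mem_powerset.1 hA h)
  have hiB : i ∉ B := fun h => hi (mem_powerset.1 hB h)
  have hiC : i ∉ C := fun h => hi (mem_powerset.1 hC h)
  have hins : ∀ (X : Finset α) (j : α), j ∈ S → (j ∈ insert i X ↔ j ∈ X) := by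
    intro X j hj
    have : j ≠ i := fun h => hi (h ▸ hj)
    simp [this]
  have c0 : tc (insert i S) A B C ↔ tc S A B C :=
    tc_insert_iff (fun _ _ => Iff.rfl) (fun _ _ => Iff.rfl) (fun _ _ => Iff.rfl)
      (by simp [hiA, hiB, hiC])
  have c12 : tc (insert i S) (insert i A) (insert i B) C ↔ tc S A B C :=
    tc_insert_iff (hins A) (hins B) (fun _ _ => Iff.rfl) (by simp)
  have c13 : tc (insert i S) (insert i A) B (insert i C) ↔ tc S A B C :=
    tc_insert_iff (hins A) (fun _ _ => Iff.rfl) (hins C) (by simp)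
  have c23 : tc (insert i S) A (insert i B) (insert i C) ↔ tc S A B C :=
    tc_insert_iff (fun _ _ => Iff.rfl) (hins B) (hins C) (by simp)
  have c123 : tc (insert i S) (insert i A) (insert i B) (insert i C) ↔ tc S A B C :=
    tc_insert_iff (hins A) (hins B) (hins C) (by simp)
  have n1 : ¬ tc (insert i S) (insert i A) B C := not_tc_insert (by simp [hiB, hiC])
  have n2 : ¬ tc (insert i S) A (insert i B) C := not_tc_insert (by simp [hiA, hiC])
  have n3 : ¬ tc (insert i S) A B (insert i C) := not_tc_insert (by simp [hiA, hiB])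
  simp only [c0, c12, c13, c23, c123, n1, n2, n3, if_false]
  by_cases h : tc S A B C
  · simp only [h, if_true]; ring
  · simp only [h, if_false]; ring

theorem chi_insert_set {p : ℝ} {V A : Finset α} {i : α} (hi : i ∉ V) :
    chi p V (insert i A) = chi p V A := by
  unfold chi
  refine prod_congr rfl fun j hj => ?_
  have : j ≠ i := fun h => hi (h ▸ hj)
  simp [this]

theorem chi_insert_idx {p : ℝ} {V A : Finset α} {i : α} (hi : i ∉ V) :
    chi p (insert i V) A = ((if i ∈ A then (1 : ℝ) else 0) - p) * chi p V A := by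
  unfold chi
  rw [prod_insert hi]

/-- the function with (damped) coefficients `c` -/
noncomputable def Fd (p : ℝ) (S : Finset α) (c : Finset α → ℝ) (A : Finset α) : ℝ :=
  ∑ V ∈ S.powerset, (1 / 3 : ℝ) ^ #V * c V * chi p V A

theorem Fd_insert {p : ℝ} {S : Finset α} {i : α} (hi : i ∉ S) (c : Finset α → ℝ)
    (A : Finset α) :
    Fd p (insert i S) c A = Fd p S c A +
      1/3 * ((if i ∈ A then (1 : ℝ) else 0) - p) * Fd p S (fun V => c (insert i V)) A := by
  unfold Fd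
  rw [sum_powerset_insert hi, mul_sum]
  congr 1
  refine sum_congr rfl fun V hV => ?_
  have hiV : i ∉ V := fun h => hi (mem_powerset.1 hV h)
  rw [card_insert_of_notMem hiV, chi_insert_idx hiV, pow_succ]
  ring

theorem Fd_insert_set {p : ℝ} {S : Finset α} {i : α} (hi : i ∉ S) (c : Finset α → ℝ)
    (A : Finset α) : Fd p S c (insert i A) = Fd p S c A := by
  unfold Fd
  refine sum_congr rfl fun V hV => ?_
  rw [chi_insert_set (fun h => hi (mem_powerset.1 hV h))]

theorem un12 (i : α) (A B C : Finset α) :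
    insert i A ∪ insert i B ∪ C = insert i (A ∪ B ∪ C) := by
  rw [insert_union, union_insert, insert_idem, insert_union]

theorem un13 (i : α) (A B C : Finset α) :
    insert i A ∪ B ∪ insert i C = insert i (A ∪ B ∪ C) := by
  rw [insert_union, union_insert, insert_union, insert_idem]

theorem un23 (i : α) (A B C : Finset α) :
    A ∪ insert i B ∪ insert i C = insert i (A ∪ B ∪ C) := by
  rw [union_insert, union_insert, insert_union, insert_idem]

theorem un123 (i : α) (A B C : Finset α) :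
    insert i A ∪ insert i B ∪ insert i C = insert i (A ∪ B ∪ C) := by
  simp only [insert_union, union_insert, insert_idem]

theorem sixth_pos {m v N1 N2 N3 M1 M2 M3 : ℝ} (hm : 0 ≤ m) (hv : 0 ≤ v) (a1 : 0 ≤ N1)
    (a2 : 0 ≤ N2) (a3 : 0 ≤ N3) (b1 : 0 ≤ M1) (b2 : 0 ≤ M2) (b3 : 0 ≤ M3) :
    0 ≤ m * (v^2 * (M1*M2*N3 + M1*N2*M3 + N1*M2*M3) + v^3 * (M1*M2*M3)
          + 3 * v^2 * (M1*M2*M3)) := by positivity

theorem sixth_aux {p : ℝ} (h0 : 0 ≤ p) (h1 : p ≤ 1) (S : Finset α) :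
    ∀ (c₁ c₂ c₃ : Finset α → ℝ),
    EP (fun _ => p) S (fun A => Fd p S c₁ A ^ 2 * Fd p S c₂ A ^ 2 * Fd p S c₃ A ^ 2) ≤
    ∑ T ∈ trip S, (p * (1 - p)) ^ #(T.1 ∪ T.2.1 ∪ T.2.2) *
      (Nc (p * (1 - p)) S c₁ T.1 * Nc (p * (1 - p)) S c₂ T.2.1 *
        Nc (p * (1 - p)) S c₃ T.2.2) := by
  have hv : 0 ≤ p * (1 - p) := mul_nonneg h0 (by linarith)
  induction S using Finset.induction_on with
  | empty =>
    intro c₁ c₂ c₃
    rw [EP_empty]
    have : trip (∅ : Finset α) = {(∅, ∅, ∅)} := by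
      unfold trip
      simp
    rw [this, sum_singleton]
    simp [Fd, Nc, chi]
  | insert i S hi ih =>
    intro c₁ c₂ c₃
    set v := p * (1 - p) with hvdef
    set e₁ : Finset α → ℝ := fun V => c₁ (insert i V) with he1
    set e₂ : Finset α → ℝ := fun V => c₂ (insert i V) with he2
    set e₃ : Finset α → ℝ := fun V => c₃ (insert i V) with he3
    have hG : Good (fun _ : α => p) S := fun _ _ => ⟨h0, h1⟩
    -- pointwise bound
    have hpt : EP (fun _ => p) (insert i S)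
        (fun A => Fd p (insert i S) c₁ A ^ 2 * Fd p (insert i S) c₂ A ^ 2 *
          Fd p (insert i S) c₃ A ^ 2) ≤
        EP (fun _ => p) S (fun A =>
          Fd p S c₁ A ^ 2 * Fd p S c₂ A ^ 2 * Fd p S c₃ A ^ 2
          + v * ((Fd p S e₁ A ^ 2 * Fd p S c₂ A ^ 2 * Fd p S c₃ A ^ 2
              + Fd p S c₁ A ^ 2 * Fd p S e₂ A ^ 2 * Fd p S c₃ A ^ 2
              + Fd p S c₁ A ^ 2 * Fd p S c₂ A ^ 2 * Fd p S e₃ A ^ 2)
            + (Fd p S c₁ A ^ 2 * Fd p S e₂ A ^ 2 * Fd p S e₃ A ^ 2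
              + Fd p S e₁ A ^ 2 * Fd p S c₂ A ^ 2 * Fd p S e₃ A ^ 2
              + Fd p S e₁ A ^ 2 * Fd p S e₂ A ^ 2 * Fd p S c₃ A ^ 2)
            + Fd p S e₁ A ^ 2 * Fd p S e₂ A ^ 2 * Fd p S e₃ A ^ 2)) := by
      rw [EP_insert _ hi, ← EP_const_mul, ← EP_const_mul, ← EP_add]
      refine EP_mono hG fun A hA => ?_
      have hiA : i ∉ A := fun h => hi (hA h)
      have hstep := one_step h0 h1 (Fd p S c₁ A) (Fd p S c₂ A) (Fd p S c₃ A)
        (Fd p S e₁ A) (Fd p S e₂ A) (Fd p S e₃ A)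
      simp only [Fd_insert hi, Fd_insert_set hi, mem_insert_self, hiA, if_true, if_false,
        ← he1, ← he2, ← he3]
      refine le_trans (le_of_eq ?_) hstep
      ring
    refine hpt.trans ?_
    rw [EP_add, EP_const_mul, EP_add, EP_add, EP_add, EP_add, EP_add, EP_add]
    have i0 := ih c₁ c₂ c₃
    have i1 := ih e₁ c₂ c₃
    have i2 := ih c₁ e₂ c₃
    have i3 := ih c₁ c₂ e₃
    have i23 := ih c₁ e₂ e₃
    have i13 := ih e₁ c₂ e₃
    have i12 := ih e₁ e₂ c₃
    have i123 := ih e₁ e₂ e₃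
    have hsum := add_le_add (add_le_add (add_le_add (add_le_add i1 i2) i3)
      (add_le_add (add_le_add i23 i13) i12)) i123
    have hsum' := add_le_add i0 (mul_le_mul_of_nonneg_left hsum hv)
    refine hsum'.trans ?_
    rw [trip_sum_insert hi (fun A B C => v ^ #(A ∪ B ∪ C) *
      (Nc v (insert i S) c₁ A * Nc v (insert i S) c₂ B * Nc v (insert i S) c₃ C))]
    simp only [← sum_add_distrib, mul_sum]
    refine sum_le_sum fun T hT => ?_
    obtain ⟨A, B, C⟩ := T
    have hT' : A ⊆ S ∧ B ⊆ S ∧ C ⊆ S := by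
      unfold trip at hT
      simp only [mem_filter, mem_product, mem_powerset] at hT
      exact ⟨hT.1.1, hT.1.2.1, hT.1.2.2⟩
    obtain ⟨hA, hB, hC⟩ := hT'
    have hiA : i ∉ A := fun h => hi (hA h)
    have hiB : i ∉ B := fun h => hi (hB h)
    have hiC : i ∉ C := fun h => hi (hC h)
    have hiU : i ∉ A ∪ B ∪ C := by simp [hiA, hiB, hiC]
    have u12 : insert i A ∪ insert i B ∪ C = insert i (A ∪ B ∪ C) := by
      exact un12 i A B C
    have u13 : insert i A ∪ B ∪ insert i C = insert i (A ∪ B ∪ C) := by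
      exact un13 i A B C
    have u23 : A ∪ insert i B ∪ insert i C = insert i (A ∪ B ∪ C) := by
      exact un23 i A B C
    have u123 : insert i A ∪ insert i B ∪ insert i C = insert i (A ∪ B ∪ C) := by
      exact un123 i A B C
    simp only [u12, u13, u23, u123, card_insert_of_notMem hiU, Nc_insert_of_mem hi,
      Nc_insert_of_notMem hi _ hA, Nc_insert_of_notMem hi _ hB, Nc_insert_of_notMem hi _ hC,
      ← he1, ← he2, ← he3, pow_succ v #(A ∪ B ∪ C)]
    have hvm : 0 ≤ v ^ #(A ∪ B ∪ C) := pow_nonneg hv _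
    have a1 := Nc_nonneg hv S c₁ A
    have a2 := Nc_nonneg hv S c₂ B
    have a3 := Nc_nonneg hv S c₃ C
    have b1 := Nc_nonneg hv S e₁ A
    have b2 := Nc_nonneg hv S e₂ B
    have b3 := Nc_nonneg hv S e₃ C
    generalize Nc v S c₁ A = N1 at *
    generalize Nc v S c₂ B = N2 at *
    generalize Nc v S c₃ C = N3 at *
    generalize Nc v S e₁ A = M1 at *
    generalize Nc v S e₂ B = M2 at *
    generalize Nc v S e₃ C = M3 at *
    generalize v ^ #(A ∪ B ∪ C) = m at *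
    have hd : (m * ((N1 + v * M1) * (N2 + v * M2) * (N3 + v * M3))
        + m * v * (M1 * M2 * (N3 + v * M3)) + m * v * (M1 * (N2 + v * M2) * M3)
        + m * v * ((N1 + v * M1) * M2 * M3) + m * v * (M1 * M2 * M3))
        - (m * (N1 * N2 * N3) + v * (m * (M1 * N2 * N3) + m * (N1 * M2 * N3)
          + m * (N1 * N2 * M3) + (m * (N1 * M2 * M3) + m * (M1 * N2 * M3) + m * (M1 * M2 * N3))
          + m * (M1 * M2 * M3)))
        = m * (v^2 * (M1*M2*N3 + M1*N2*M3 + N1*M2*M3) + v^3 * (M1*M2*M3)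
          + 3 * v^2 * (M1*M2*M3)) := by ring
    have hnn : 0 ≤ m * (v^2 * (M1*M2*N3 + M1*N2*M3 + N1*M2*M3) + v^3 * (M1*M2*M3)
          + 3 * v^2 * (M1*M2*M3)) := sixth_pos (by assumption) hv a1 a2 a3 b1 b2 b3
    rw [← hd] at hnn
    exact sub_nonneg.1 hnn

theorem sixth_moment {p : ℝ} (h0 : 0 ≤ p) (h1 : p ≤ 1) (S : Finset α) (c₁ c₂ c₃ : Finset α → ℝ) :
    EP (fun _ => p) S (fun A =>
      (∑ V ∈ S.powerset, (1 / 3 : ℝ) ^ #V * c₁ V * chi p V A) ^ 2 *
      (∑ V ∈ S.powerset, (1 / 3 : ℝ) ^ #V * c₂ V * chi p V A) ^ 2 *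
      (∑ V ∈ S.powerset, (1 / 3 : ℝ) ^ #V * c₃ V * chi p V A) ^ 2) ≤
    ∑ T ∈ trip S, (p * (1 - p)) ^ #(T.1 ∪ T.2.1 ∪ T.2.2) *
      (Nc (p * (1 - p)) S c₁ T.1 * Nc (p * (1 - p)) S c₂ T.2.1 * Nc (p * (1 - p)) S c₃ T.2.2) :=
  sixth_aux h0 h1 S c₁ c₂ c₃

end Pool.Agent.LPP
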