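import Pool.Agent.Lib.MP_6b8a80_h32.T6b_sixth

/-!
# MP_6b8a80, task T6b: the triple sum
-/

set_option autoImplicit false

namespace Pool.Agent.LPP

open Finset

variable {α : Type} [DecidableEq α]

theorem pow_mul_Nc {v : ℝ} (S : Finset α) (c : Finset α → ℝ) {I B : Finset α}
    (hB : B ⊆ S \ I) :
    v ^ #B * Nc v S c (I ∪ B) =
      ∑ W ∈ (S \ I).powerset with B ⊆ W, v ^ #W * c (I ∪ W) ^ 2 := by
  unfold Nc
  rw [mul_sum]
  refine sum_nbij' (fun V => B ∪ V) (fun W => W \ B) ?_ ?_ ?_ ?_ ?_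
  · intro V hV
    rw [mem_powerset] at hV
    rw [mem_filter, mem_powerset]
    refine ⟨union_subset hB (fun i hi => ?_), subset_union_left⟩
    have := hV hi
    simp only [mem_sdiff, mem_union, not_or] at this ⊢
    exact ⟨this.1, this.2.1⟩
  · intro W hW
    rw [mem_filter, mem_powerset] at hW
    rw [mem_powerset]
    intro i hi
    rw [mem_sdiff] at hi
    have := hW.1 hi.1
    simp only [mem_sdiff, mem_union, not_or] at this ⊢
    exact ⟨this.1, this.2, hi.2⟩
  · intro V hV
    rw [mem_powerset] at hV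
    ext i
    simp only [mem_sdiff, mem_union]
    constructor
    · rintro ⟨h1 | h1, h2⟩
      · exact absurd h1 h2
      · exact h1
    · intro h
      have := hV h
      simp only [mem_sdiff, mem_union, not_or] at this
      exact ⟨Or.inr h, this.2.2⟩
  · intro W hW
    rw [mem_filter, mem_powerset] at hW
    exact union_sdiff_of_subset hW.2
  · intro V hV
    rw [mem_powerset] at hV
    have hd : Disjoint B V := by
      rw [disjoint_left]
      intro i hi hiV
      have := hV hiV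
      simp only [mem_sdiff, mem_union, not_or] at this
      exact this.2.2 hi
    rw [card_union_of_disjoint hd, pow_add, union_assoc]
    ring

theorem sum_pow_mul_Nc_le {v : ℝ} (hv : 0 ≤ v) (S : Finset α) (j : ℕ) (c : Finset α → ℝ)
    (hc : ∀ V, #V ≠ j → c V = 0) {I X : Finset α} (hX : X ⊆ S \ I) :
    ∑ B ∈ X.powerset, v ^ #B * Nc v S c (I ∪ B) ≤ 2 ^ j * Nc v S c I := by
  have h1 : ∑ B ∈ X.powerset, v ^ #B * Nc v S c (I ∪ B) =
      ∑ W ∈ (S \ I).powerset, ∑ B ∈ X.powerset,
        if B ⊆ W then v ^ #W * c (I ∪ W) ^ 2 else 0 := by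
    rw [sum_comm]
    refine sum_congr rfl fun B hB => ?_
    rw [pow_mul_Nc S c ((mem_powerset.1 hB).trans hX), sum_filter]
  rw [h1]
  unfold Nc
  rw [mul_sum]
  refine sum_le_sum fun W hW => ?_
  have hF : 0 ≤ v ^ #W * c (I ∪ W) ^ 2 := mul_nonneg (pow_nonneg hv _) (sq_nonneg _)
  have h2 : ∑ B ∈ X.powerset, (if B ⊆ W then v ^ #W * c (I ∪ W) ^ 2 else 0) ≤
      2 ^ #W * (v ^ #W * c (I ∪ W) ^ 2) := by
    rw [← sum_filter, sum_const, nsmul_eq_mul]
    have hsub : X.powerset.filter (fun B => B ⊆ W) ⊆ W.powerset := by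
      intro B hB
      rw [mem_filter] at hB
      exact mem_powerset.2 hB.2
    have hcard := card_le_card hsub
    rw [card_powerset] at hcard
    have : ((#(X.powerset.filter (fun B => B ⊆ W)) : ℕ) : ℝ) ≤ 2 ^ #W := by
      exact_mod_cast hcard
    exact mul_le_mul_of_nonneg_right this hF
  refine h2.trans ?_
  by_cases hj : #(I ∪ W) = j
  · have hWj : #W ≤ j := by
      rw [← hj]; exact card_le_card subset_union_right
    have : (2 : ℝ) ^ #W ≤ 2 ^ j := pow_le_pow_right₀ (by norm_num) hWj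
    exact mul_le_mul_of_nonneg_right this hF
  · rw [hc _ hj]
    simp

theorem Nc_eq_zero {v : ℝ} (S : Finset α) (j : ℕ) (c : Finset α → ℝ)
    (hc : ∀ V, #V ≠ j → c V = 0) {A : Finset α} (hA : j < #A) : Nc v S c A = 0 := by
  unfold Nc
  refine sum_eq_zero fun V _ => ?_
  rw [hc]
  · ring
  · have := card_le_card (subset_union_left (s₁ := A) (s₂ := V))
    omega

theorem sum_inter_le {v : ℝ} (hv : 0 ≤ v) (S : Finset α) (j : ℕ) (M : ℝ) (c : Finset α → ℝ)
    (hc : ∀ V, #V ≠ j → c V = 0) (hM : ∀ A ⊆ S, Nc v S c A ≤ M) {A : Finset α} (hA : A ⊆ S)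
    (hAj : #A ≤ j) :
    ∑ B ∈ S.powerset, v ^ #(B \ A) * 2 ^ #(A ∩ B) * Nc v S c B ≤ 6 ^ j * M := by
  have hM0 : 0 ≤ M := (Nc_nonneg hv S c ∅).trans (hM ∅ (empty_subset _))
  have h1 : ∑ B ∈ S.powerset, v ^ #(B \ A) * 2 ^ #(A ∩ B) * Nc v S c B =
      ∑ I ∈ A.powerset, ∑ B ∈ S.powerset with A ∩ B = I,
        v ^ #(B \ A) * 2 ^ #(A ∩ B) * Nc v S c B :=
    (sum_fiberwise_of_maps_to (fun B _ => mem_powerset.2 inter_subset_left) _).symm
  rw [h1]
  have h2 : ∀ I ∈ A.powerset, ∑ B ∈ S.powerset with A ∩ B = I,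
        v ^ #(B \ A) * 2 ^ #(A ∩ B) * Nc v S c B ≤ 2 ^ #I * (2 ^ j * M) := by
    intro I hI
    rw [mem_powerset] at hI
    have h3 : ∑ B ∈ S.powerset with A ∩ B = I,
        v ^ #(B \ A) * 2 ^ #(A ∩ B) * Nc v S c B =
        ∑ B ∈ (S \ A).powerset, 2 ^ #I * (v ^ #B * Nc v S c (I ∪ B)) := by
      refine sum_nbij' (fun B => B \ A) (fun B => I ∪ B) ?_ ?_ ?_ ?_ ?_
      · intro B hB
        rw [mem_filter, mem_powerset] at hB
        rw [mem_powerset]
        exact sdiff_subset_sdiff hB.1 subset_rfl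
      · intro B hB
        rw [mem_powerset] at hB
        rw [mem_filter, mem_powerset]
        refine ⟨union_subset (hI.trans hA) (hB.trans sdiff_subset), ?_⟩
        ext i
        simp only [mem_inter, mem_union]
        constructor
        · rintro ⟨h4, h5 | h5⟩
          · exact h5
          · exact absurd h4 (mem_sdiff.1 (hB h5)).2
        · intro h4
          exact ⟨hI h4, Or.inl h4⟩
      · intro B hB
        rw [mem_filter, mem_powerset] at hB
        rw [← hB.2]
        ext i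
        simp only [mem_union, mem_inter, mem_sdiff]
        tauto
      · intro B hB
        rw [mem_powerset] at hB
        ext i
        simp only [mem_union, mem_sdiff]
        constructor
        · rintro ⟨h4 | h4, h5⟩
          · exact absurd (hI h4) h5
          · exact h4
        · intro h4
          exact ⟨Or.inr h4, (mem_sdiff.1 (hB h4)).2⟩
      · intro B hB
        rw [mem_filter, mem_powerset] at hB
        have h4 : I ∪ B \ A = B := by
          rw [← hB.2]
          ext i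
          simp only [mem_union, mem_inter, mem_sdiff]
          tauto
        rw [h4, hB.2]
        ring
    rw [h3, ← mul_sum]
    have h5 := sum_pow_mul_Nc_le hv S j c hc (I := I) (X := S \ A)
      (sdiff_subset_sdiff subset_rfl hI)
    have h6 := hM I (hI.trans hA)
    have h7 : (0 : ℝ) ≤ 2 ^ #I := by positivity
    refine mul_le_mul_of_nonneg_left (h5.trans ?_) h7
    exact mul_le_mul_of_nonneg_left h6 (by positivity)
  refine (sum_le_sum h2).trans ?_
  rw [← sum_mul]
  have h8 : ∑ I ∈ A.powerset, (2 : ℝ) ^ #I = 3 ^ #A := by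
    have := Finset.sum_pow_mul_eq_add_pow (2 : ℝ) 1 A
    simp only [one_pow, mul_one] at this
    rw [this]
    norm_num
  rw [h8]
  have h9 : (3 : ℝ) ^ #A ≤ 3 ^ j := pow_le_pow_right₀ (by norm_num) hAj
  calc (3 : ℝ) ^ #A * (2 ^ j * M) ≤ 3 ^ j * (2 ^ j * M) := by gcongr
    _ = 6 ^ j * M := by
      rw [← mul_assoc, ← mul_pow]; norm_num

theorem trip_sum_le {v : ℝ} (hv : 0 ≤ v) (S : Finset α) (j : ℕ) (M : ℝ) (c : Finset α → ℝ)
    (hc : ∀ V, #V ≠ j → c V = 0) (hM : ∀ A ⊆ S, Nc v S c A ≤ M) :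
    ∑ T ∈ trip S, v ^ #(T.1 ∪ T.2.1 ∪ T.2.2) *
      (Nc v S c T.1 * Nc v S c T.2.1 * Nc v S c T.2.2) ≤ 16 ^ j * M ^ 2 * Nc v S c ∅ := by
  have hM0 : 0 ≤ M := (Nc_nonneg hv S c ∅).trans (hM ∅ (empty_subset _))
  rw [trip_sum S (fun A B C => v ^ #(A ∪ B ∪ C) * (Nc v S c A * Nc v S c B * Nc v S c C))]
  have h1 : ∀ A ∈ S.powerset, ∀ B ∈ S.powerset,
      (∑ C ∈ S.powerset, if tc S A B C then
        v ^ #(A ∪ B ∪ C) * (Nc v S c A * Nc v S c B * Nc v S c C) else 0) ≤
      v ^ #A * Nc v S c A * M * (v ^ #(B \ A) * 2 ^ #(A ∩ B) * Nc v S c B) := by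
    intro A hA B hB
    rw [mem_powerset] at hA hB
    rw [← sum_filter]
    have hNA := Nc_nonneg hv S c A
    have hNB := Nc_nonneg hv S c B
    have h2 : ∀ C ∈ S.powerset.filter (fun C => tc S A B C),
        v ^ #(A ∪ B ∪ C) * (Nc v S c A * Nc v S c B * Nc v S c C) ≤
        v ^ #(A ∪ B) * (Nc v S c A * Nc v S c B * M) := by
      intro C hC
      rw [mem_filter, mem_powerset] at hC
      have hCu : A ∪ B ∪ C = A ∪ B := by
        rw [union_eq_left]
        intro i hi
        exact mem_union.2 ((hC.2 i (hC.1 hi)).2.2 hi)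
      rw [hCu]
      have := hM C hC.1
      have hvp : 0 ≤ v ^ #(A ∪ B) := pow_nonneg hv _
      exact mul_le_mul_of_nonneg_left (mul_le_mul_of_nonneg_left this (mul_nonneg hNA hNB)) hvp
    refine (sum_le_sum h2).trans ?_
    rw [sum_const, nsmul_eq_mul]
    have hcard : #(S.powerset.filter (fun C => tc S A B C)) ≤ 2 ^ #(A ∩ B) := by
      rw [← card_powerset]
      refine card_le_card_of_injOn (fun C => C ∩ (A ∩ B)) ?_ ?_
      · intro C _
        exact mem_powerset.2 inter_subset_right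
      · intro C hC D hD hCD
        rw [mem_coe, mem_filter, mem_powerset] at hC hD
        simp only at hCD
        have hmem : ∀ (E : Finset α), E ⊆ S → tc S A B E → ∀ i, i ∈ E ↔
            (i ∈ S ∧ ((i ∈ A ∧ i ∉ B) ∨ (i ∈ B ∧ i ∉ A) ∨ i ∈ E ∩ (A ∩ B))) := by
          intro E hES hE i
          constructor
          · intro hi
            refine ⟨hES hi, ?_⟩
            have := (hE i (hES hi)).2.2 hi
            simp only [mem_inter]
            tauto
          · rintro ⟨hiS, h | h | h⟩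
            · have := (hE i hiS).1 h.1
              tauto
            · have := (hE i hiS).2.1 h.1
              tauto
            · exact (mem_inter.1 h).1
        ext i
        rw [hmem C hC.1 hC.2, hmem D hD.1 hD.2, hCD]
    have hcard' : ((#(S.powerset.filter (fun C => tc S A B C)) : ℕ) : ℝ) ≤ 2 ^ #(A ∩ B) := by
      exact_mod_cast hcard
    have hcu : #(A ∪ B) = #A + #(B \ A) := by
      rw [← union_sdiff_self_eq_union, card_union_of_disjoint disjoint_sdiff]
    have hvp : 0 ≤ v ^ #(A ∪ B) := pow_nonneg hv _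
    calc ((#(S.powerset.filter (fun C => tc S A B C)) : ℕ) : ℝ) *
          (v ^ #(A ∪ B) * (Nc v S c A * Nc v S c B * M))
        ≤ 2 ^ #(A ∩ B) * (v ^ #(A ∪ B) * (Nc v S c A * Nc v S c B * M)) := by
          refine mul_le_mul_of_nonneg_right hcard' ?_
          positivity
      _ = _ := by
          rw [hcu, pow_add]; ring
  refine (sum_le_sum fun A hA => sum_le_sum fun B hB => h1 A hA B hB).trans ?_
  have h3 : ∀ A ∈ S.powerset, (∑ B ∈ S.powerset,
      v ^ #A * Nc v S c A * M * (v ^ #(B \ A) * 2 ^ #(A ∩ B) * Nc v S c B)) ≤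
      (v ^ #A * Nc v S c A) * (6 ^ j * M ^ 2) := by
    intro A hA
    rw [mem_powerset] at hA
    rw [← mul_sum]
    have hvA : 0 ≤ v ^ #A := pow_nonneg hv _
    have hNA := Nc_nonneg hv S c A
    by_cases hAj : #A ≤ j
    · have := sum_inter_le hv S j M c hc hM hA hAj
      calc v ^ #A * Nc v S c A * M * ∑ B ∈ S.powerset, v ^ #(B \ A) * 2 ^ #(A ∩ B) * Nc v S c B
          ≤ v ^ #A * Nc v S c A * M * (6 ^ j * M) := by
            refine mul_le_mul_of_nonneg_left this ?_
            positivity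
        _ = _ := by ring
    · rw [Nc_eq_zero S j c hc (not_le.1 hAj)]
      simp
  refine (sum_le_sum h3).trans ?_
  rw [← sum_mul]
  have h4 := sum_pow_mul_Nc_le hv S j c hc (I := ∅) (X := S) (by simp)
  simp only [empty_union] at h4
  have hN0 := Nc_nonneg hv S c ∅
  calc (∑ A ∈ S.powerset, v ^ #A * Nc v S c A) * (6 ^ j * M ^ 2)
      ≤ (2 ^ j * Nc v S c ∅) * (6 ^ j * M ^ 2) := by
        refine mul_le_mul_of_nonneg_right h4 ?_
        positivity
    _ = 12 ^ j * (M ^ 2 * Nc v S c ∅) := by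
        have : (12 : ℝ) ^ j = 2 ^ j * 6 ^ j := by rw [← mul_pow]; norm_num
        rw [this]; ring
    _ ≤ 16 ^ j * (M ^ 2 * Nc v S c ∅) := by
        refine mul_le_mul_of_nonneg_right ?_ (by positivity)
        exact pow_le_pow_left₀ (by norm_num) (by norm_num) j
    _ = _ := by ring

end Pool.Agent.LPP
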