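import Pool.Agent.Lib.MP_6b8a80_h32.Defs

/-!
# MP_6b8a80: counting lemmas for the deficit lemma
-/

set_option autoImplicit false

namespace Pool.Agent.LPP

open Finset

/-- Harmonic sums. -/
theorem sum_inv_le_log {m n : ℕ} (hm : 1 ≤ m) (hmn : m ≤ n) :
    ∑ j ∈ Ioc m n, (1 : ℝ) / j ≤ Real.log n - Real.log m := by
  induction n, hmn using Nat.le_induction with
  | base => simp
  | succ n hn ih =>
    have hIoc : Ioc m (n + 1) = insert (n + 1) (Ioc m n) := by
      ext x
      simp only [mem_Ioc, mem_insert]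
      omega
    rw [hIoc, sum_insert (by simp)]
    have hn0 : (0 : ℝ) < n := by
      have : 1 ≤ n := hm.trans hn
      exact_mod_cast this
    have hn1 : (0 : ℝ) < ((n + 1 : ℕ) : ℝ) := by positivity
    have h := Real.one_sub_inv_le_log_of_pos (x := ((n + 1 : ℕ) : ℝ) / n) (by positivity)
    rw [Real.log_div hn1.ne' hn0.ne'] at h
    have h2 : 1 - (((n + 1 : ℕ) : ℝ) / n)⁻¹ = 1 / ((n + 1 : ℕ) : ℝ) := by
      rw [inv_div]
      field_simp
      push_cast
      ring
    rw [h2] at h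
    linarith only [ih, h]

/-- `∑_{1 ≤ j ≤ a} min x (c / j)` is of logarithmic size. -/
theorem sum_min_div_le {x c : ℝ} (hx : 0 < x) (hxc : x ≤ c) (a : ℕ) :
    ∑ j ∈ Ioc 0 a, min x (c / j) ≤ c * (1 + Real.log (1 + 2 * a * x / c)) := by
  have hc : 0 < c := hx.trans_le hxc
  have hlog : 0 ≤ Real.log (1 + 2 * a * x / c) :=
    Real.log_nonneg (by have : 0 ≤ 2 * a * x / c := by positivity
                        linarith)
  set m : ℕ := ⌊c / x⌋₊ with hm
  have hm1 : 1 ≤ m := by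
    rw [hm, Nat.one_le_floor_iff]
    rwa [le_div_iff₀ hx, one_mul]
  have hmle : (m : ℝ) ≤ c / x := Nat.floor_le (by positivity)
  have hmge : c / x < m + 1 := Nat.lt_floor_add_one _
  have hm1' : (1 : ℝ) ≤ m := by exact_mod_cast hm1
  have hmx : m * x ≤ c := by rwa [le_div_iff₀ hx] at hmle
  rcases le_or_gt a m with ham | ham
  · -- every term at most `x`
    calc ∑ j ∈ Ioc 0 a, min x (c / j) ≤ ∑ _j ∈ Ioc 0 a, x :=
          sum_le_sum fun j _ => min_le_left _ _
      _ = a * x := by simp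
      _ ≤ m * x := by
          have : (a : ℝ) ≤ m := by exact_mod_cast ham
          gcongr
      _ ≤ c := hmx
      _ ≤ c * (1 + Real.log (1 + 2 * a * x / c)) := by
          nlinarith only [hx, hlog, hxc]
  · have hsplit : Ioc 0 a = Ioc 0 m ∪ Ioc m a := by
      ext j
      simp only [mem_Ioc, mem_union]
      omega
    have hdisj : Disjoint (Ioc 0 m) (Ioc m a) := by
      rw [disjoint_left]
      intro j hj hj'
      simp only [mem_Ioc] at hj hj'
      omega
    rw [hsplit, sum_union hdisj]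
    have h1 : ∑ j ∈ Ioc 0 m, min x (c / j) ≤ c := by
      calc ∑ j ∈ Ioc 0 m, min x (c / j) ≤ ∑ _j ∈ Ioc 0 m, x :=
            sum_le_sum fun j _ => min_le_left _ _
        _ = m * x := by simp
        _ ≤ c := hmx
    have h2 : ∑ j ∈ Ioc m a, min x (c / j) ≤ c * Real.log (1 + 2 * a * x / c) := by
      calc ∑ j ∈ Ioc m a, min x (c / j) ≤ ∑ j ∈ Ioc m a, c * (1 / j) :=
            sum_le_sum fun j _ => (min_le_right _ _).trans (by rw [mul_one_div])
        _ = c * ∑ j ∈ Ioc m a, (1 : ℝ) / j := by rw [mul_sum]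
        _ ≤ c * (Real.log a - Real.log m) := by
            have := sum_inv_le_log hm1 ham.le
            gcongr
        _ ≤ c * Real.log (1 + 2 * a * x / c) := by
            have ha0 : (0 : ℝ) < a := by
              have : 0 < a := by omega
              exact_mod_cast this
            have hm0 : (0 : ℝ) < m := by linarith only [hm1']
            rw [← Real.log_div ha0.ne' hm0.ne']
            have : (a : ℝ) / m ≤ 1 + 2 * a * x / c := by
              have h3 : (a : ℝ) / m ≤ 2 * a * x / c := by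
                rw [div_le_div_iff₀ hm0 hc]
                have h4 : c ≤ 2 * m * x := by
                  rw [div_lt_iff₀ hx] at hmge
                  nlinarith only [hmge, hx, hm1']
                nlinarith only [h4]
              linarith only [h3]
            gcongr
    linarith only [h1, h2]

/-- Integers of absolute value at most `y` in `[-a, a]`. -/
noncomputable def absle (a : ℕ) (y : ℝ) : Finset ℤ :=
  (Icc (-(a : ℤ)) (a : ℤ)).filter (fun w : ℤ => |(w : ℝ)| ≤ y)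

/-- Number of integers of absolute value at most `y`. -/
theorem card_absle_le (a : ℕ) (y : ℝ) (hy : 0 ≤ y) :
    (#(absle a y) : ℝ) ≤ 2 * min (a : ℝ) y + 1 := by
  have h1 : absle a y ⊆ Icc (-((min a ⌊y⌋₊ : ℕ) : ℤ)) ((min a ⌊y⌋₊ : ℕ) : ℤ) := by
    intro w hw
    rw [absle, mem_filter, mem_Icc] at hw
    obtain ⟨⟨h2, h3⟩, h4⟩ := hw
    have h5 : w.natAbs ≤ ⌊y⌋₊ := by
      rw [Nat.le_floor_iff hy, Nat.cast_natAbs, Int.cast_abs]
      exact h4
    have h6 : w.natAbs ≤ a := by omega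
    have h7 : w.natAbs ≤ min a ⌊y⌋₊ := le_min h6 h5
    rw [mem_Icc]
    omega
  have h2 := card_le_card h1
  rw [Int.card_Icc] at h2
  have h3 : (((min a ⌊y⌋₊ : ℕ) : ℤ) + 1 - -((min a ⌊y⌋₊ : ℕ) : ℤ)).toNat =
      2 * (min a ⌊y⌋₊) + 1 := by omega
  rw [h3] at h2
  have h4 : (#(absle a y) : ℝ) ≤ ((2 * (min a ⌊y⌋₊) + 1 : ℕ) : ℝ) := by exact_mod_cast h2
  refine h4.trans ?_
  push_cast
  have h5 : (⌊y⌋₊ : ℝ) ≤ y := Nat.floor_le hy
  have h6 : min (a : ℝ) (⌊y⌋₊ : ℝ) ≤ min (a : ℝ) y := min_le_min le_rfl h5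
  linarith only [h6]

/-- Integers `j` with `|j| ≤ a` and `q²|i||j| ≤ c`. -/
noncomputable def hline (q c : ℝ) (a : ℕ) (i : ℤ) : Finset ℤ :=
  (Icc (-(a : ℤ)) (a : ℤ)).filter (fun j : ℤ => q ^ 2 * (|(i : ℝ)| * |(j : ℝ)|) ≤ c)

/-- Lattice vectors `w` with `|w_i| ≤ a` and `q²|w₁w₂| ≤ c`. -/
noncomputable def hyp (q c : ℝ) (a : ℕ) : Finset (ℤ × ℤ) :=
  (Icc (-(a : ℤ)) (a : ℤ) ×ˢ Icc (-(a : ℤ)) (a : ℤ)).filter
    (fun w : ℤ × ℤ => q ^ 2 * (|(w.1 : ℝ)| * |(w.2 : ℝ)|) ≤ c)

theorem sum_Icc_symm (a : ℕ) (F : ℤ → ℝ) : ∑ i ∈ Icc (-(a : ℤ)) (a : ℤ), F i =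
    F 0 + ∑ i ∈ Ioc 0 a, (F ((i : ℕ) : ℤ) + F (-((i : ℕ) : ℤ))) := by
  induction a with
  | zero => simp
  | succ n ih =>
    have h1 : Icc (-((n + 1 : ℕ) : ℤ)) ((n + 1 : ℕ) : ℤ) =
        insert (((n + 1 : ℕ) : ℤ)) (insert (-((n + 1 : ℕ) : ℤ)) (Icc (-(n : ℤ)) (n : ℤ))) := by
      ext x
      simp only [mem_Icc, mem_insert]
      push_cast
      omega
    have h2 : Ioc 0 (n + 1) = insert (n + 1) (Ioc 0 n) := by
      ext x
      simp only [mem_Ioc, mem_insert]
      omega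
    rw [h1, sum_insert, sum_insert, h2, sum_insert, ih]
    · ring
    · simp
    · simp
    · simp only [mem_insert, mem_Icc]
      push_cast
      omega

/-- The number of lattice vectors in the hyperbolic cross. -/
theorem card_hyp_le {q c : ℝ} (hq : 0 < q) (a : ℕ) (ha : 1 ≤ a) (hqa : q ^ 2 * a ≤ c) :
    q ^ 2 * #(hyp q c a) ≤ 9 * c * (1 + Real.log (1 + 2 * (q * a) ^ 2 / c)) := by
  have ha' : (1 : ℝ) ≤ a := by exact_mod_cast ha
  have hx : 0 < q ^ 2 * a := by positivity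
  have hc : 0 < c := hx.trans_le hqa
  -- fibre over the first coordinate
  have hcard : (#(hyp q c a) : ℝ) = ∑ i ∈ Icc (-(a : ℤ)) (a : ℤ), (#(hline q c a i) : ℝ) := by
    unfold hyp hline
    rw [card_filter, sum_product]
    push_cast
    refine sum_congr rfl fun i _ => ?_
    rw [card_filter]
    push_cast
    rfl
  have hfib0 : (#(hline q c a 0) : ℝ) ≤ 2 * a + 1 := by
    have h1 : #(hline q c a 0) ≤ #(Icc (-(a : ℤ)) (a : ℤ)) := card_filter_le _ _
    rw [Int.card_Icc] at h1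
    have h2 : ((a : ℤ) + 1 - -(a : ℤ)).toNat = 2 * a + 1 := by omega
    rw [h2] at h1
    exact_mod_cast h1
  have hfib : ∀ i : ℕ, 1 ≤ i →
      (#(hline q c a (i : ℤ)) : ℝ) ≤ 2 * min (a : ℝ) (c / (q ^ 2 * i)) + 1 := by
    intro i hi
    have hi' : (1 : ℝ) ≤ i := by exact_mod_cast hi
    refine le_trans ?_ (card_absle_le a (c / (q ^ 2 * i)) (by positivity))
    have : hline q c a (i : ℤ) ⊆ absle a (c / (q ^ 2 * i)) := by
      intro j hj
      rw [hline, mem_filter] at hj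
      rw [absle, mem_filter]
      refine ⟨hj.1, ?_⟩
      have h1 := hj.2
      rw [le_div_iff₀ (by positivity)]
      have h2 : |((i : ℤ) : ℝ)| = i := by simp
      rw [h2] at h1
      linarith only [h1]
    exact_mod_cast card_le_card this
  -- symmetry
  have hsym : ∀ i : ℤ, hline q c a (-i) = hline q c a i := by
    intro i
    unfold hline
    push_cast
    simp only [abs_neg]
  rw [hcard, sum_Icc_symm]
  have hstep : ∀ i ∈ Ioc 0 a,
      q ^ 2 * ((#(hline q c a (i : ℤ)) : ℝ) + (#(hline q c a (-(i : ℤ))) : ℝ)) ≤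
      4 * min (q ^ 2 * a) (c / i) + 2 * q ^ 2 := by
    intro i hi
    rw [mem_Ioc] at hi
    rw [hsym (i : ℤ)]
    have h1 := hfib i hi.1
    have hi' : (0 : ℝ) < i := by exact_mod_cast hi.1
    have h2 : q ^ 2 * min (a : ℝ) (c / (q ^ 2 * i)) = min (q ^ 2 * a) (c / i) := by
      rw [mul_min_of_nonneg _ _ (by positivity)]
      congr 1
      field_simp
    have h3 : q ^ 2 * (#(hline q c a (i : ℤ)) : ℝ) ≤
          q ^ 2 * (2 * min (a : ℝ) (c / (q ^ 2 * i)) + 1) := by gcongr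
    nlinarith only [h2, h3]
  have hmain := sum_min_div_le hx hqa a
  have h5 : 2 * (a : ℝ) * (q ^ 2 * a) / c = 2 * (q * a) ^ 2 / c := by ring
  rw [h5] at hmain
  have hlog : 0 ≤ Real.log (1 + 2 * (q * a) ^ 2 / c) :=
    Real.log_nonneg (by have : 0 ≤ 2 * (q * a) ^ 2 / c := by positivity
                        linarith only [this])
  calc q ^ 2 * ((#(hline q c a 0) : ℝ) + ∑ i ∈ Ioc 0 a,
        ((#(hline q c a (i : ℤ)) : ℝ) + (#(hline q c a (-(i : ℤ))) : ℝ)))
      ≤ q ^ 2 * (2 * a + 1) + ∑ i ∈ Ioc 0 a, (4 * min (q ^ 2 * a) (c / i) + 2 * q ^ 2) := by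
        rw [mul_add, mul_sum]
        exact add_le_add (by gcongr) (sum_le_sum hstep)
    _ = q ^ 2 * (2 * a + 1) + 4 * ∑ i ∈ Ioc 0 a, min (q ^ 2 * a) (c / i) + 2 * (q ^ 2 * a) := by
        rw [sum_add_distrib, ← mul_sum]
        simp
        ring
    _ ≤ 9 * c * (1 + Real.log (1 + 2 * (q * a) ^ 2 / c)) := by
        have h6 : q ^ 2 ≤ q ^ 2 * a := by nlinarith only [sq_nonneg q, ha']
        nlinarith only [hqa, hmain, h6, hlog, hx]

/-- At least `choose * choose` increasing chains of length `k` in a grid. -/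
theorem card_chains_ge (I J : Finset ℕ) (k : ℕ) :
    (#I).choose k * (#J).choose k ≤ #(((I ×ˢ J).powersetCard k).filter SChain) := by
  rw [← card_powersetCard, ← card_powersetCard, ← card_product]
  refine le_trans (card_le_card (t := (((I ×ˢ J).powersetCard k).filter SChain).image
    (fun x : Finset (ℕ × ℕ) => (x.image Prod.fst, x.image Prod.snd))) ?_) card_image_le
  rintro ⟨X, Y⟩ hXY
  rw [mem_product, mem_powersetCard, mem_powersetCard] at hXY
  obtain ⟨⟨hXI, hXk⟩, hYJ, hYk⟩ := hXY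
  simp only at hXI hXk hYJ hYk
  rw [mem_image]
  let e := X.orderEmbOfFin hXk
  let f := Y.orderEmbOfFin hYk
  have hinj : Function.Injective (fun i : Fin k => (e i, f i)) := by
    intro i j hij
    exact e.injective (Prod.ext_iff.1 hij).1
  refine ⟨(univ : Finset (Fin k)).image (fun i => (e i, f i)), ?_, ?_⟩
  · rw [mem_filter, mem_powersetCard]
    refine ⟨⟨?_, ?_⟩, ?_⟩
    · intro x hx
      rw [mem_image] at hx
      obtain ⟨i, _, rfl⟩ := hx
      rw [mem_product]
      exact ⟨hXI (orderEmbOfFin_mem X hXk i), hYJ (orderEmbOfFin_mem Y hYk i)⟩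
    · rw [card_image_of_injective _ hinj, card_univ, Fintype.card_fin]
    · intro x hx y hy hxy
      rw [mem_image] at hx hy
      obtain ⟨i, _, rfl⟩ := hx
      obtain ⟨j, _, rfl⟩ := hy
      have hij : i ≠ j := fun h => hxy (by rw [h])
      rcases lt_or_gt_of_ne hij with h | h
      · left
        exact ⟨e.strictMono h, f.strictMono h⟩
      · right
        exact ⟨e.strictMono h, f.strictMono h⟩
  · rw [Prod.mk.injEq, image_image, image_image]
    exact ⟨image_orderEmbOfFin_univ X hXk, image_orderEmbOfFin_univ Y hYk⟩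

/-- Lower bound for binomial coefficients. -/
theorem choose_ge (r k : ℕ) (h : 2 * k ≤ r) :
    ((r : ℝ) / 2) ^ k / k.factorial ≤ (r.choose k : ℝ) := by
  refine le_trans ?_ (Nat.pow_le_choose (α := ℝ) k r)
  have h1 : (r : ℝ) / 2 ≤ ((r + 1 - k : ℕ) : ℝ) := by
    have h2 : r ≤ 2 * (r + 1 - k) := by omega
    have h3 : (r : ℝ) ≤ 2 * ((r + 1 - k : ℕ) : ℝ) := by exact_mod_cast h2
    linarith only [h3]
  gcongr

end Pool.Agent.LPP
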