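import Pool.Agent.Lib.MP_6b8a80_h32.Defs

/-!
# MP_6b8a80: wide rectangles (definition shared by T7a and T7b)
-/

set_option autoImplicit false

namespace Pool.Agent.LPP

open Finset

/-- There is an open rectangle around `z` of area at least `θ` in which every inserted `(k+1)`-chain
increases `ell A`. -/
def wide (q θ : ℝ) (a k : ℕ) (z : ℕ × ℕ) (A : Finset (ℕ × ℕ)) : Prop :=
  ∃ u v : ℕ × ℕ, v.1 ≤ a + 1 ∧ v.2 ≤ a + 1 ∧ u.1 < z.1 ∧ z.1 < v.1 ∧ u.2 < z.2 ∧ z.2 < v.2 ∧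
    θ ≤ q ^ 2 * (((v.1 : ℝ) - u.1 - 1) * ((v.2 : ℝ) - u.2 - 1)) ∧
    ∀ x ⊆ Ioo u.1 v.1 ×ˢ Ioo u.2 v.2, SChain x → #x = k + 1 → ell A < ell (A ∪ x)

end Pool.Agent.LPP
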