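import Pool.Agent.Lib.MP_6b8a80_h32.T7_Wide
import Pool.Agent.Lib.MP_6b8a80_h32.T7_Count
import Pool.Agent.Lib.MP_6b8a80_h32.T1_EP
import Pool.Agent.Lib.MP_6b8a80_h32.T2_Ell
import Pool.Agent.Lib.MP_6b8a80_h32.T5a_Mean

/-!
# MP_6b8a80, T7a: deterministic part
-/

set_option autoImplicit false

namespace Pool.Agent.LPP

open Finset

/-- Sites of the box in the hyperbolic neighbourhood of `z`. -/
noncomputable def hnb (q : ℝ) (a : ℕ) (z : ℕ × ℕ) : Finset (ℕ × ℕ) :=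
  (box a a).filter (fun y => q ^ 2 * (|(y.1 : ℝ) - z.1| * |(y.2 : ℝ) - z.2|) ≤ 2)

/-- The difference vector. -/
def dvec (y z : ℕ × ℕ) : ℤ × ℤ := ((y.1 : ℤ) - z.1, (y.2 : ℤ) - z.2)

theorem dvec_mem_hyp {q : ℝ} {a : ℕ} {y z : ℕ × ℕ} (hz : z ∈ box a a) (hy : y ∈ hnb q a z) :
    dvec y z ∈ hyp q 2 a := by
  rw [hnb, mem_filter] at hy
  obtain ⟨h1, h2⟩ := hy
  rw [box, mem_product, mem_Icc, mem_Icc] at hz h1
  rw [hyp, mem_filter, mem_product, mem_Icc, mem_Icc]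
  unfold dvec
  refine ⟨⟨⟨by simp only; omega, by simp only; omega⟩, by simp only; omega, by simp only; omega⟩,
    ?_⟩
  push_cast
  exact h2

theorem card_hnb_le {q : ℝ} {a : ℕ} {z : ℕ × ℕ} (hz : z ∈ box a a) :
    #(hnb q a z) ≤ #(hyp q 2 a) := by
  refine card_le_card_of_injOn (fun y => dvec y z) (fun y hy => dvec_mem_hyp hz hy) ?_
  intro y _ y' _ h
  simp only [dvec, Prod.mk.injEq] at h
  ext
  · omega
  · omega

open Classical in
/-- If there is a wide rectangle around `z`, many chains in the hyperbolic neighbourhood of `z`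
increase `ell`. -/
theorem wide_count {q θ : ℝ} {a k : ℕ} {z : ℕ × ℕ} {A : Finset (ℕ × ℕ)} (hq : 0 < q)
    (hθ : 0 < θ) (hθ1 : θ ≤ 1) (hqa : q ^ 2 * a ≤ 1) (hbig : 2 * (k + 1) * (q ^ 2 * a) ≤ θ)
    (h : wide q θ a k z A) :
    1 ≤ (4 ^ (k + 1) * ((k + 1).factorial : ℝ) ^ 2) * θ⁻¹ ^ (k + 1) *
      ∑ X ∈ (hnb q a z).powersetCard (k + 1),
        (q ^ 2) ^ (k + 1) * (if ell A < ell (A ∪ X) then (1 : ℝ) else 0) := by
  obtain ⟨u, v, hv1, hv2, hu1, hz1, hu2, hz2, hθle, hch⟩ := h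
  obtain ⟨r1, hr1⟩ : ∃ r1 : ℕ, v.1 = u.1 + 1 + r1 := ⟨v.1 - u.1 - 1, by omega⟩
  obtain ⟨r2, hr2⟩ : ∃ r2 : ℕ, v.2 = u.2 + 1 + r2 := ⟨v.2 - u.2 - 1, by omega⟩
  have hr1a : (r1 : ℝ) ≤ a := by
    have : r1 ≤ a := by omega
    exact_mod_cast this
  have hr2a : (r2 : ℝ) ≤ a := by
    have : r2 ≤ a := by omega
    exact_mod_cast this
  have hr1pos : (0 : ℝ) < r1 := by
    have : 0 < r1 := by omega
    exact_mod_cast this
  have hr2pos : (0 : ℝ) < r2 := by
    have : 0 < r2 := by omega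
    exact_mod_cast this
  have hapos : (0 : ℝ) < a := hr1pos.trans_le hr1a
  have hq2 : 0 < q ^ 2 := by positivity
  have hθ2 : θ ≤ q ^ 2 * (r1 * r2) := by
    refine hθle.trans (le_of_eq ?_)
    rw [hr1, hr2]
    push_cast
    ring
  have hk0 : (0 : ℝ) ≤ 2 * (k + 1) := by positivity
  -- size of `r1`
  have hr1big : 2 * ((k : ℝ) + 1) ≤ r1 := by
    by_contra hcon
    push Not at hcon
    have h1 : q ^ 2 * (r1 * r2) ≤ q ^ 2 * (r1 * a) := by gcongr
    have h2 : q ^ 2 * ((r1 : ℝ) * a) < 2 * (k + 1) * (q ^ 2 * a) := by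
      have : q ^ 2 * ((r1 : ℝ) * a) = r1 * (q ^ 2 * a) := by ring
      rw [this]
      have h3 : 0 < q ^ 2 * (a : ℝ) := by positivity
      nlinarith only [hθ2, h1, hbig, hθ, hcon]
    linarith only [hbig, hθ2, h1, h2]
  -- the shrunk side
  set x : ℝ := θ / (q ^ 2 * r1) with hx
  have hq2r1 : 0 < q ^ 2 * (r1 : ℝ) := by positivity
  have hxr2 : x ≤ r2 := by
    rw [hx, div_le_iff₀ hq2r1]
    linarith only [hθ2]
  have hxbig : 2 * ((k : ℝ) + 1) ≤ x := by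
    rw [hx, le_div_iff₀ hq2r1]
    have h1 : q ^ 2 * (r1 : ℝ) ≤ q ^ 2 * a := by gcongr
    calc 2 * ((k : ℝ) + 1) * (q ^ 2 * r1) ≤ 2 * ((k : ℝ) + 1) * (q ^ 2 * a) := by gcongr
      _ ≤ θ := hbig
  set r : ℕ := ⌈x⌉₊ with hr
  have hxr : x ≤ r := Nat.le_ceil x
  have hrr2 : r ≤ r2 := Nat.ceil_le.2 hxr2
  have hrx : (r : ℝ) < x + 1 := Nat.ceil_lt_add_one (by linarith only [hxbig])
  have hrbig : 2 * ((k : ℝ) + 1) ≤ r := hxbig.trans hxr
  have hrbig' : 2 * (k + 1) ≤ r := by exact_mod_cast hrbig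
  have hr1big' : 2 * (k + 1) ≤ r1 := by exact_mod_cast hr1big
  have hqx : q ^ 2 * (r1 : ℝ) * x = θ := by
    rw [hx]
    field_simp
  have hlow : θ ≤ q ^ 2 * (r1 * r) := by
    calc θ = q ^ 2 * (r1 : ℝ) * x := hqx.symm
      _ ≤ q ^ 2 * (r1 : ℝ) * r := by gcongr
      _ = q ^ 2 * (r1 * r) := by ring
  have hup : q ^ 2 * ((r1 : ℝ) * r) ≤ 2 := by
    calc q ^ 2 * ((r1 : ℝ) * r) = q ^ 2 * (r1 : ℝ) * r := by ring
      _ ≤ q ^ 2 * (r1 : ℝ) * (x + 1) := by gcongr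
      _ = θ + q ^ 2 * r1 := by rw [mul_add, hqx, mul_one]
      _ ≤ 1 + q ^ 2 * a := by gcongr
      _ ≤ 2 := by linarith only [hqa]
  -- the rectangle
  set l : ℕ := max (u.2 + 1) (z.2 + 1 - r) with hl
  have hl1 : u.2 + 1 ≤ l := le_max_left _ _
  have hl2 : z.2 + 1 - r ≤ l := le_max_right _ _
  have hl3 : l ≤ z.2 := by
    rw [hl]
    exact max_le (by omega) (by omega)
  have hl4 : l + r ≤ v.2 := by
    rcases le_total (u.2 + 1) (z.2 + 1 - r) with h1 | h1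
    · have : l = z.2 + 1 - r := by rw [hl, max_eq_right h1]
      omega
    · have : l = u.2 + 1 := by rw [hl, max_eq_left h1]
      omega
  set I : Finset ℕ := Ioo u.1 v.1 with hI
  set J : Finset ℕ := Ico l (l + r) with hJ
  have hIc : #I = r1 := by rw [hI, Nat.card_Ioo]; omega
  have hJc : #J = r := by rw [hJ, Nat.card_Ico]; omega
  have hsub : I ×ˢ J ⊆ Ioo u.1 v.1 ×ˢ Ioo u.2 v.2 := by
    intro y hy
    rw [mem_product, hI, hJ, mem_Ioo, mem_Ico] at hy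
    rw [mem_product, mem_Ioo, mem_Ioo]
    exact ⟨hy.1, by omega, by omega⟩
  have hsubh : I ×ˢ J ⊆ hnb q a z := by
    intro y hy
    rw [mem_product, hI, hJ, mem_Ioo, mem_Ico] at hy
    rw [hnb, mem_filter, box, mem_product, mem_Icc, mem_Icc]
    refine ⟨⟨⟨by omega, by omega⟩, by omega, by omega⟩, ?_⟩
    have h1 : |(y.1 : ℝ) - z.1| ≤ r1 := by
      rw [abs_le]
      have e1 : z.1 ≤ y.1 + r1 := by omega
      have e2 : y.1 ≤ z.1 + r1 := by omega
      have e1' : (z.1 : ℝ) ≤ y.1 + r1 := by exact_mod_cast e1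
      have e2' : (y.1 : ℝ) ≤ z.1 + r1 := by exact_mod_cast e2
      constructor <;> linarith only [e1', e2']
    have h2 : |(y.2 : ℝ) - z.2| ≤ r := by
      rw [abs_le]
      have e1 : z.2 ≤ y.2 + r := by omega
      have e2 : y.2 ≤ z.2 + r := by omega
      have e1' : (z.2 : ℝ) ≤ y.2 + r := by exact_mod_cast e1
      have e2' : (y.2 : ℝ) ≤ z.2 + r := by exact_mod_cast e2
      constructor <;> linarith only [e1', e2']
    calc q ^ 2 * (|(y.1 : ℝ) - z.1| * |(y.2 : ℝ) - z.2|) ≤ q ^ 2 * (r1 * r) := by gcongr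
      _ ≤ 2 := hup
  -- lower bound for the sum
  have hcount := card_chains_ge I J (k + 1)
  rw [hIc, hJc] at hcount
  have hsum : (q ^ 2) ^ (k + 1) * (#(((I ×ˢ J).powersetCard (k + 1)).filter SChain) : ℝ) ≤
      ∑ X ∈ (hnb q a z).powersetCard (k + 1),
        (q ^ 2) ^ (k + 1) * (if ell A < ell (A ∪ X) then (1 : ℝ) else 0) := by
    rw [← mul_sum]
    refine mul_le_mul_of_nonneg_left ?_ (by positivity)
    rw [← sum_filter, sum_const, nsmul_eq_mul, mul_one]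
    have : ((I ×ˢ J).powersetCard (k + 1)).filter SChain ⊆
        ((hnb q a z).powersetCard (k + 1)).filter (fun X => ell A < ell (A ∪ X)) := by
      intro X hX
      rw [mem_filter, mem_powersetCard] at hX ⊢
      exact ⟨⟨hX.1.1.trans hsubh, hX.1.2⟩, hch X (hX.1.1.trans hsub) hX.2 hX.1.2⟩
    exact_mod_cast card_le_card this
  have hc1 := choose_ge r1 (k + 1) hr1big'
  have hc2 := choose_ge r (k + 1) hrbig'
  have hf : (0 : ℝ) < (k + 1).factorial := by exact_mod_cast Nat.factorial_pos _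
  have hmain : (θ / 4) ^ (k + 1) / ((k + 1).factorial : ℝ) ^ 2 ≤
      ∑ X ∈ (hnb q a z).powersetCard (k + 1),
        (q ^ 2) ^ (k + 1) * (if ell A < ell (A ∪ X) then (1 : ℝ) else 0) := by
    refine le_trans ?_ hsum
    have hcount' : ((r1.choose (k + 1) : ℕ) : ℝ) * ((r.choose (k + 1) : ℕ) : ℝ) ≤
        (#(((I ×ˢ J).powersetCard (k + 1)).filter SChain) : ℝ) := by exact_mod_cast hcount
    calc (θ / 4) ^ (k + 1) / ((k + 1).factorial : ℝ) ^ 2
        ≤ (q ^ 2 * (r1 * r) / 4) ^ (k + 1) / ((k + 1).factorial : ℝ) ^ 2 := by gcongr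
      _ = (q ^ 2) ^ (k + 1) * ((((r1 : ℝ) / 2) ^ (k + 1) / (k + 1).factorial) *
            (((r : ℝ) / 2) ^ (k + 1) / (k + 1).factorial)) := by
          have : q ^ 2 * ((r1 : ℝ) * r) / 4 = q ^ 2 * ((r1 / 2) * (r / 2)) := by ring
          rw [this, mul_pow, mul_pow]
          field_simp
      _ ≤ (q ^ 2) ^ (k + 1) * (((r1.choose (k + 1) : ℕ) : ℝ) * ((r.choose (k + 1) : ℕ) : ℝ)) := by
          gcongr
      _ ≤ _ := by gcongr
  calc (1 : ℝ) = (4 ^ (k + 1) * ((k + 1).factorial : ℝ) ^ 2) * θ⁻¹ ^ (k + 1) *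
        ((θ / 4) ^ (k + 1) / ((k + 1).factorial : ℝ) ^ 2) := by
        rw [div_pow, inv_pow]
        field_simp
    _ ≤ _ := by gcongr

/-- A chosen maximal chain. -/
noncomputable def geo (A : Finset (ℕ × ℕ)) : Finset (ℕ × ℕ) := Classical.choose (exists_chain A)

theorem geo_subset (A : Finset (ℕ × ℕ)) : geo A ⊆ A := (Classical.choose_spec (exists_chain A)).1

theorem geo_chain (A : Finset (ℕ × ℕ)) : SChain (geo A) :=
  (Classical.choose_spec (exists_chain A)).2.1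

theorem card_geo (A : Finset (ℕ × ℕ)) : #(geo A) = ell A :=
  (Classical.choose_spec (exists_chain A)).2.2

/-- A set whose removal decreases `ell` meets the chosen chain. -/
theorem geo_meets {A X : Finset (ℕ × ℕ)} (h : ell (A \ X) < ell A) : (geo A ∩ X).Nonempty := by
  by_contra hcon
  rw [not_nonempty_iff_eq_empty] at hcon
  have h1 : geo A ⊆ A \ X := by
    intro y hy
    rw [mem_sdiff]
    refine ⟨geo_subset A hy, fun hX => ?_⟩
    have : y ∈ geo A ∩ X := mem_inter.2 ⟨hy, hX⟩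
    rw [hcon] at this
    exact absurd this (notMem_empty y)
  have h2 := card_le_ell h1 (geo_chain A)
  rw [card_geo] at h2
  omega

open Classical in
/-- The number of `(k+1)`-sets in `A ∩ D` whose removal decreases `ell`. -/
theorem sum_pivotal_sets_le (A D : Finset (ℕ × ℕ)) (k : ℕ) :
    ∑ X ∈ D.powersetCard (k + 1),
      (if X ⊆ A then (if ell (A \ X) < ell A then (1 : ℝ) else 0) else 0) ≤
      (#(geo A ∩ D) : ℝ) * (#(A ∩ D) : ℝ) ^ k := by
  have h1 : ∑ X ∈ D.powersetCard (k + 1),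
      (if X ⊆ A then (if ell (A \ X) < ell A then (1 : ℝ) else 0) else 0) =
      (#((D.powersetCard (k + 1)).filter (fun X => X ⊆ A ∧ ell (A \ X) < ell A)) : ℝ) := by
    rw [card_filter]
    push_cast
    refine sum_congr rfl fun X _ => ?_
    by_cases h1 : X ⊆ A
    · by_cases h2 : ell (A \ X) < ell A
      · simp [h1, h2]
      · simp [h1, h2]
    · simp [h1]
  rw [h1]
  have h2 : (D.powersetCard (k + 1)).filter (fun X => X ⊆ A ∧ ell (A \ X) < ell A) ⊆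
      ((geo A ∩ D) ×ˢ (A ∩ D).powersetCard k).image (fun p => insert p.1 p.2) := by
    intro X hX
    rw [mem_filter, mem_powersetCard] at hX
    obtain ⟨⟨hXD, hXk⟩, hXA, hXell⟩ := hX
    obtain ⟨g, hg⟩ := geo_meets hXell
    rw [mem_inter] at hg
    rw [mem_image]
    refine ⟨(g, X.erase g), ?_, insert_erase hg.2⟩
    rw [mem_product, mem_inter, mem_powersetCard]
    refine ⟨⟨hg.1, hXD hg.2⟩, ?_, ?_⟩
    · intro y hy
      have hy' := mem_of_mem_erase hy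
      exact mem_inter.2 ⟨hXA hy', hXD hy'⟩
    · rw [card_erase_of_mem hg.2, hXk]
      rfl
  have h3 := (card_le_card h2).trans card_image_le
  rw [card_product, card_powersetCard] at h3
  have h4 : #(geo A ∩ D) * (#(A ∩ D)).choose k ≤ #(geo A ∩ D) * #(A ∩ D) ^ k :=
    Nat.mul_le_mul_left _ (Nat.choose_le_pow _ _)
  exact_mod_cast h3.trans h4

/-- Splitting according to the number of points. -/
theorem split_bound {c n : ℕ} (k : ℕ) (hcn : c ≤ n) {Λ : ℝ} (hΛ : 0 ≤ Λ) :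
    (c : ℝ) * (n : ℝ) ^ k ≤ Λ ^ k * c + (k + 1).factorial * (Real.exp (-Λ) * Real.exp (2 * n)) := by
  have hc0 : (0 : ℝ) ≤ c := Nat.cast_nonneg c
  have hn0 : (0 : ℝ) ≤ n := Nat.cast_nonneg n
  have hcn' : (c : ℝ) ≤ n := by exact_mod_cast hcn
  rcases le_or_gt (n : ℝ) Λ with h | h
  · have h1 : (n : ℝ) ^ k ≤ Λ ^ k := by gcongr
    have h2 : (0 : ℝ) ≤ (k + 1).factorial * (Real.exp (-Λ) * Real.exp (2 * n)) := by positivity
    nlinarith only [h2, h1]
  · have h1 : (c : ℝ) * (n : ℝ) ^ k ≤ (n : ℝ) ^ (k + 1) := by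
      rw [pow_succ, mul_comm]
      gcongr
    have h2 := Real.pow_div_factorial_le_exp (n : ℝ) hn0 (k + 1)
    have hf : (0 : ℝ) < (k + 1).factorial := by exact_mod_cast Nat.factorial_pos _
    rw [div_le_iff₀ hf] at h2
    have h3 : Real.exp (n : ℝ) ≤ Real.exp (-Λ) * Real.exp (2 * n) := by
      rw [← Real.exp_add]
      apply Real.exp_le_exp.2
      linarith
    have h4 : (0 : ℝ) ≤ Λ ^ k * c := by positivity
    calc (c : ℝ) * (n : ℝ) ^ k ≤ (n : ℝ) ^ (k + 1) := h1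
      _ ≤ Real.exp n * (k + 1).factorial := h2
      _ ≤ (Real.exp (-Λ) * Real.exp (2 * n)) * (k + 1).factorial := by gcongr
      _ ≤ _ := by linarith

/-- Corner of a translated box. -/
def cornr (s : ℕ × ℕ) (w : ℤ × ℤ) : ℕ × ℕ := (((s.1 : ℤ) + w.1).toNat, ((s.2 : ℤ) + w.2).toNat)

/-- Double counting: pairs (site of `Q`, point of `g` in its hyperbolic neighbourhood). -/
theorem sum_card_hnb_le {q : ℝ} {a M : ℕ} (s : ℕ × ℕ) {g : Finset (ℕ × ℕ)} (hg : g ⊆ box a a) :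
    ∑ z ∈ sbox s M M ∩ box a a, (#(g ∩ hnb q a z) : ℝ) ≤
      ∑ w ∈ hyp q 2 a, (#(g ∩ sbox (cornr s w) M M) : ℝ) := by
  have key : ∑ z ∈ sbox s M M ∩ box a a, #(g ∩ hnb q a z) ≤
      ∑ w ∈ hyp q 2 a, #(g ∩ sbox (cornr s w) M M) := by
    rw [← card_sigma, ← card_sigma]
    refine card_le_card_of_injOn (fun p => ⟨dvec p.2 p.1, p.2⟩) ?_ ?_
    · rintro ⟨z, y⟩ hzy
      simp only [coe_sigma, Set.mem_sigma_iff, mem_coe, mem_inter] at hzy ⊢
      obtain ⟨⟨hz1, hz2⟩, hy1, hy2⟩ := hzy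
      refine ⟨dvec_mem_hyp hz2 hy2, hy1, ?_⟩
      have hyb := hg hy1
      rw [box, mem_product, mem_Icc, mem_Icc] at hyb
      rw [sbox, mem_product, mem_Ioc, mem_Ioc] at hz1
      rw [sbox, mem_product, mem_Ioc, mem_Ioc]
      simp only [cornr, dvec]
      refine ⟨⟨by omega, by omega⟩, by omega, by omega⟩
    · rintro ⟨z, y⟩ _ ⟨z', y'⟩ _ h
      simp only [Sigma.mk.injEq, heq_eq_eq, dvec, Prod.mk.injEq] at h
      obtain ⟨⟨h1, h2⟩, h3⟩ := h
      subst h3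
      have : z = z' := by
        ext
        · omega
        · omega
      rw [this]
  exact_mod_cast key

end Pool.Agent.LPP
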