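import Pool.Agent.Lib.MP_6b8a80_h32.T7a_Det

/-!
# MP_6b8a80, T7a: the expected number of sites with a wide rectangle
-/

set_option autoImplicit false

namespace Pool.Agent.LPP

open Finset

theorem good_q2 {α : Type*} {q : ℝ} (hq : 0 ≤ q) (hq1 : q ≤ 1) (S : Finset α) :
    Good (fun _ => q ^ 2) S := fun _ _ => ⟨by positivity, by nlinarith only [hq1, hq]⟩

open Classical in
/-- Mecke formula for the increments. -/
theorem mecke_inc {q : ℝ} (hq : 0 ≤ q) (hq1 : q ≤ 1) {S X : Finset (ℕ × ℕ)} {k : ℕ} (hX : X ⊆ S)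
    (hXk : #X = k) :
    (q ^ 2) ^ k * EP (fun _ => q ^ 2) S (fun A => if ell A < ell (A ∪ X) then (1 : ℝ) else 0) ≤
      EP (fun _ => q ^ 2) S
        (fun A => if X ⊆ A then (if ell (A \ X) < ell A then (1 : ℝ) else 0) else 0) := by
  rw [EP_mecke (fun _ => q ^ 2) hX (fun A => if ell (A \ X) < ell A then (1 : ℝ) else 0)]
  rw [prod_const, hXk]
  refine mul_le_mul_of_nonneg_left (EP_mono (good_q2 hq hq1 S) fun A _ => ?_) (by positivity)
  by_cases h : ell A < ell (A ∪ X)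
  · have h1 : (A ∪ X) \ X ⊆ A := by
      intro y hy
      rw [mem_sdiff, mem_union] at hy
      tauto
    have h2 := (ell_mono h1).trans_lt h
    rw [if_pos h, if_pos h2]
  · rw [if_neg h]
    split_ifs <;> norm_num

open Classical in
/-- One site: the probability of a wide rectangle. -/
theorem wide_prob_le {q θ : ℝ} {a k : ℕ} {z : ℕ × ℕ} (hq : 0 < q) (hq1 : q ≤ 1)
    (hθ : 0 < θ) (hθ1 : θ ≤ 1) (hqa : q ^ 2 * a ≤ 1) (hbig : 2 * (k + 1) * (q ^ 2 * a) ≤ θ) :
    PP (fun _ => q ^ 2) (box a a) (wide q θ a k z) ≤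
      (4 ^ (k + 1) * ((k + 1).factorial : ℝ) ^ 2) * θ⁻¹ ^ (k + 1) *
      EP (fun _ => q ^ 2) (box a a)
        (fun A => (#(geo A ∩ hnb q a z) : ℝ) * (#(A ∩ hnb q a z) : ℝ) ^ k) := by
  have hG := good_q2 (α := ℕ × ℕ) hq.le hq1 (box a a)
  set K : ℝ := (4 ^ (k + 1) * ((k + 1).factorial : ℝ) ^ 2) * θ⁻¹ ^ (k + 1) with hK
  have hK0 : 0 ≤ K := by positivity
  have h1 : PP (fun _ => q ^ 2) (box a a) (wide q θ a k z) ≤
      EP (fun _ => q ^ 2) (box a a) (fun A => K * ∑ X ∈ (hnb q a z).powersetCard (k + 1),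
        (q ^ 2) ^ (k + 1) * (if ell A < ell (A ∪ X) then (1 : ℝ) else 0)) := by
    unfold PP
    refine EP_mono hG fun A _ => ?_
    have hnn : 0 ≤ K * ∑ X ∈ (hnb q a z).powersetCard (k + 1),
        (q ^ 2) ^ (k + 1) * (if ell A < ell (A ∪ X) then (1 : ℝ) else 0) := by
      refine mul_nonneg hK0 (sum_nonneg fun X _ => mul_nonneg (by positivity) ?_)
      split_ifs <;> norm_num
    split_ifs with h
    · exact wide_count hq hθ hθ1 hqa hbig h
    · exact hnn
  refine h1.trans ?_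
  rw [EP_const_mul]
  refine mul_le_mul_of_nonneg_left ?_ hK0
  rw [EP_sum]
  have h2 : ∀ X ∈ (hnb q a z).powersetCard (k + 1),
      EP (fun _ => q ^ 2) (box a a)
        (fun A => (q ^ 2) ^ (k + 1) * (if ell A < ell (A ∪ X) then (1 : ℝ) else 0)) ≤
      EP (fun _ => q ^ 2) (box a a)
        (fun A => if X ⊆ A then (if ell (A \ X) < ell A then (1 : ℝ) else 0) else 0) := by
    intro X hX
    rw [mem_powersetCard] at hX
    rw [EP_const_mul]
    exact mecke_inc hq.le hq1 (hX.1.trans (filter_subset _ _)) hX.2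
  refine (sum_le_sum h2).trans ?_
  rw [← EP_sum]
  exact EP_mono hG fun A _ => sum_pivotal_sets_le A _ k

/-- Translation. -/
def trl (s : ℕ × ℕ) : (ℕ × ℕ) ↪ (ℕ × ℕ) where
  toFun x := (s.1 + x.1, s.2 + x.2)
  inj' x y h := by
    simp only [Prod.mk.injEq] at h
    ext
    · omega
    · omega

theorem trl_apply (s x : ℕ × ℕ) : trl s x = (s.1 + x.1, s.2 + x.2) := rfl

theorem sbox_eq_map (s : ℕ × ℕ) (a b : ℕ) : sbox s a b = (box a b).map (trl s) := by
  ext ⟨x1, x2⟩
  simp only [sbox, box, mem_product, mem_Ioc, mem_map, mem_Icc, trl_apply, Prod.mk.injEq,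
    Prod.exists]
  constructor
  · intro h
    exact ⟨x1 - s.1, x2 - s.2, ⟨⟨by omega, by omega⟩, by omega, by omega⟩, by omega, by omega⟩
  · rintro ⟨y1, y2, ⟨⟨h1, h2⟩, h3, h4⟩, h5, h6⟩
    exact ⟨⟨by omega, by omega⟩, by omega, by omega⟩

theorem ell_trl (s : ℕ × ℕ) (A : Finset (ℕ × ℕ)) : ell (A.map (trl s)) = ell A := by
  refine ell_map A (trl s) fun x _ y _ => ?_
  simp only [trl_apply]
  omega

theorem EP_ell_sbox (q : ℝ) (s : ℕ × ℕ) (a b : ℕ) :
    EP (fun _ => q ^ 2) (sbox s a b) (fun A => (ell A : ℝ)) =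
      EP (fun _ => q ^ 2) (box a b) (fun A => (ell A : ℝ)) := by
  rw [sbox_eq_map, EP_map]
  refine EP_congr _ _ fun A _ => ?_
  rw [ell_trl]

/-- Expected number of points of the chosen chain in a small box. -/
theorem EP_geo_le {q : ℝ} (hq : 0 < q) (hq1 : q ≤ 1) (a M : ℕ) (s : ℕ × ℕ) :
    EP (fun _ => q ^ 2) (box a a) (fun A => (#(geo A ∩ sbox s M M) : ℝ)) ≤ 2 * (q * M) := by
  have hG := good_q2 (α := ℕ × ℕ) hq.le hq1 (box a a)
  have hG' := good_q2 (α := ℕ × ℕ) hq.le hq1 (sbox s M M)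
  set T : Finset (ℕ × ℕ) := box a a ∩ sbox s M M with hT
  have h1 : EP (fun _ => q ^ 2) (box a a) (fun A => (#(geo A ∩ sbox s M M) : ℝ)) ≤
      EP (fun _ => q ^ 2) (box a a) (fun A => (ell (A ∩ T) : ℝ)) := by
    refine EP_mono hG fun A hA => ?_
    have h2 : geo A ∩ sbox s M M ⊆ A ∩ T := by
      intro y hy
      rw [mem_inter] at hy
      have h3 := geo_subset A hy.1
      rw [mem_inter, hT, mem_inter]
      exact ⟨h3, hA h3, hy.2⟩
    exact_mod_cast card_le_ell h2 ((geo_chain A).subset inter_subset_left)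
  have h2 : EP (fun _ => q ^ 2) (box a a) (fun A => (ell (A ∩ T) : ℝ)) =
      EP (fun _ => q ^ 2) T (fun A => (ell A : ℝ)) :=
    EP_inter (fun _ => q ^ 2) (inter_subset_left : T ⊆ box a a) (fun A => (ell A : ℝ))
  have h3 : EP (fun _ => q ^ 2) T (fun A => (ell A : ℝ)) ≤
      EP (fun _ => q ^ 2) (sbox s M M) (fun A => (ell A : ℝ)) := by
    rw [← EP_inter (fun _ => q ^ 2) (inter_subset_right : T ⊆ sbox s M M)
      (fun A => (ell A : ℝ))]
    refine EP_mono hG' fun A _ => ?_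
    exact_mod_cast ell_mono inter_subset_left
  -- translation
  have h4 := EP_ell_sbox q s M M
  have h5 := mean_le hq hq1 M M
  rw [h2] at h1
  linarith

/-- Expected number of points in a hyperbolic neighbourhood: exponential moment. -/
theorem EP_exp_hnb_le {q E : ℝ} (hq : 0 < q) (hq1 : q ≤ 1) (a : ℕ) {z : ℕ × ℕ} (hz : z ∈ box a a)
    (hE : q ^ 2 * #(hyp q 2 a) ≤ E) :
    EP (fun _ => q ^ 2) (box a a) (fun A => Real.exp (2 * (#(A ∩ hnb q a z) : ℝ))) ≤
      Real.exp (7 * E) := by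
  have hG := good_q2 (α := ℕ × ℕ) hq.le hq1 (box a a)
  refine (EP_exp_card hG (filter_subset _ _) 2).trans (Real.exp_le_exp.2 ?_)
  rw [sum_const, nsmul_eq_mul]
  have h1 : (#(hnb q a z) : ℝ) ≤ #(hyp q 2 a) := by exact_mod_cast card_hnb_le hz
  have h2 : Real.exp 2 - 1 ≤ 7 := by
    have h3 : Real.exp 2 = Real.exp 1 * Real.exp 1 := by rw [← Real.exp_add]; norm_num
    have h4 := Real.exp_one_lt_d9
    have h5 := Real.exp_pos 1
    nlinarith only [h3, h4, h5]
  have h3 : (#(hnb q a z) : ℝ) * q ^ 2 ≤ E := by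
    calc (#(hnb q a z) : ℝ) * q ^ 2 ≤ #(hyp q 2 a) * q ^ 2 := by gcongr
      _ = q ^ 2 * #(hyp q 2 a) := by ring
      _ ≤ E := hE
  have h4 : (0 : ℝ) ≤ (#(hnb q a z) : ℝ) * q ^ 2 := by positivity
  calc (Real.exp 2 - 1) * ((#(hnb q a z) : ℝ) * q ^ 2) ≤ 7 * ((#(hnb q a z) : ℝ) * q ^ 2) := by
        gcongr
    _ ≤ 7 * E := by gcongr

/-- T7a -/
theorem wide_bound (k : ℕ) : ∃ C N₀ : ℝ, 0 < C ∧ 1 ≤ N₀ ∧
    ∀ (q θ : ℝ) (a M : ℕ) (s : ℕ × ℕ), 0 < q → N₀ ≤ q * a → q * (q * a) ^ 10 ≤ 1 → 1 ≤ q * M →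
    M ≤ a → 1 / (q * a) ≤ θ → θ ≤ 1 →
    q ^ 2 * ∑ z ∈ sbox s M M ∩ box a a, PP (fun _ => q ^ 2) (box a a) (wide q θ a k z) ≤
      C * θ⁻¹ ^ (k + 1) * (1 + Real.log (q * a)) ^ (k + 1) * (q * M) := by
  refine ⟨(4 ^ (k + 1) * ((k + 1).factorial : ℝ) ^ 2) *
    (72 * 253 ^ k + (k + 1).factorial), 2 * (k + 1), by positivity, ?_, ?_⟩
  · have : (0 : ℝ) ≤ k := Nat.cast_nonneg k
    linarith
  intro q θ a M s hq hN hqN hm hMa hθ0 hθ1
  set N : ℝ := q * a with hNdef
  set m : ℝ := q * M with hmdef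
  have hk0 : (0 : ℝ) ≤ k := Nat.cast_nonneg k
  have hN2 : 2 ≤ N := by nlinarith only [hN]
  have hN1 : 1 ≤ N := by linarith
  have hN0 : 0 < N := by linarith
  have hθ : 0 < θ := lt_of_lt_of_le (by positivity) hθ0
  have hq1 : q ≤ 1 := by
    have : q * 1 ≤ q * N ^ 10 := by
      have := one_le_pow₀ hN1 (n := 10)
      gcongr
    linarith
  have hqa0 : q ^ 2 * a = q * N := by rw [hNdef]; ring
  have hqN1 : q * N * N ^ 2 ≤ 1 := by
    have : q * N * N ^ 2 = q * N ^ 3 := by ring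
    rw [this]
    refine le_trans ?_ hqN
    exact mul_le_mul_of_nonneg_left (pow_le_pow_right₀ hN1 (by norm_num)) hq.le
  have hqa : q ^ 2 * a ≤ 1 := by
    rw [hqa0]
    have : q * N * 1 ≤ q * N * N ^ 2 := by
      have := one_le_pow₀ hN1 (n := 2)
      gcongr
    linarith
  have hbig : 2 * (k + 1) * (q ^ 2 * a) ≤ θ := by
    refine le_trans ?_ hθ0
    rw [hqa0, le_div_iff₀ hN0]
    calc 2 * ((k : ℝ) + 1) * (q * N) * N ≤ N * (q * N) * N := by gcongr
      _ = q * N * N ^ 2 := by ring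
      _ ≤ 1 := hqN1
  have ha1 : 1 ≤ a := by
    rcases Nat.eq_zero_or_pos a with h | h
    · rw [hNdef, h] at hN0
      simp at hN0
    · exact h
  set L : ℝ := 1 + Real.log N with hL
  have hlog : 0 ≤ Real.log N := Real.log_nonneg hN1
  have hL1 : 1 ≤ L := by linarith
  have hE : q ^ 2 * #(hyp q 2 a) ≤ 36 * L := by
    have h1 := card_hyp_le hq a ha1 (c := 2) (by linarith)
    rw [← hNdef] at h1
    have h2 : Real.log (1 + 2 * N ^ 2 / 2) ≤ 1 + 2 * Real.log N := by
      have h3 : 1 + 2 * N ^ 2 / 2 ≤ Real.exp 1 * N ^ 2 := by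
        have h4 := Real.add_one_le_exp (1 : ℝ)
        nlinarith only [hN, hqa, h4, hq]
      calc Real.log (1 + 2 * N ^ 2 / 2) ≤ Real.log (Real.exp 1 * N ^ 2) := by
            gcongr
        _ = 1 + 2 * Real.log N := by
            rw [Real.log_mul (Real.exp_pos 1).ne' (by positivity), Real.log_exp, Real.log_pow]
            norm_num
    nlinarith only [h1, h2]
  set K : ℝ := 4 ^ (k + 1) * ((k + 1).factorial : ℝ) ^ 2 with hK
  have hK0 : 0 < K := by positivity
  have hG := good_q2 (α := ℕ × ℕ) hq.le hq1 (box a a)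
  set Λ : ℝ := 253 * L with hΛ
  have hΛ0 : 0 ≤ Λ := by positivity
  -- one site
  have hsite : ∀ z ∈ sbox s M M ∩ box a a,
      PP (fun _ => q ^ 2) (box a a) (wide q θ a k z) ≤
        K * θ⁻¹ ^ (k + 1) * (Λ ^ k *
          EP (fun _ => q ^ 2) (box a a) (fun A => (#(geo A ∩ hnb q a z) : ℝ)) +
          (k + 1).factorial * N⁻¹) := by
    intro z hz
    rw [mem_inter] at hz
    refine (wide_prob_le hq hq1 hθ hθ1 hqa hbig).trans ?_
    refine mul_le_mul_of_nonneg_left ?_ (by positivity)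
    calc EP (fun _ => q ^ 2) (box a a)
            (fun A => (#(geo A ∩ hnb q a z) : ℝ) * (#(A ∩ hnb q a z) : ℝ) ^ k)
        ≤ EP (fun _ => q ^ 2) (box a a)
          (fun A => Λ ^ k * (#(geo A ∩ hnb q a z) : ℝ) + (k + 1).factorial *
            (Real.exp (-Λ) * Real.exp (2 * (#(A ∩ hnb q a z) : ℝ)))) := by
          refine EP_mono hG fun A _ => ?_
          exact split_bound k (card_le_card (inter_subset_inter_right (geo_subset A))) hΛ0
      _ = Λ ^ k * EP (fun _ => q ^ 2) (box a a) (fun A => (#(geo A ∩ hnb q a z) : ℝ)) +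
            (k + 1).factorial * (Real.exp (-Λ) *
            EP (fun _ => q ^ 2) (box a a) (fun A => Real.exp (2 * (#(A ∩ hnb q a z) : ℝ)))) := by
          rw [EP_add (fun _ => q ^ 2) (box a a) (fun A => Λ ^ k * (#(geo A ∩ hnb q a z) : ℝ))
            (fun A => (k + 1).factorial *
            (Real.exp (-Λ) * Real.exp (2 * (#(A ∩ hnb q a z) : ℝ)))),
            EP_const_mul, EP_const_mul, EP_const_mul]
      _ ≤ _ := by
          have h1 := EP_exp_hnb_le hq hq1 a hz.2 hE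
          have h2 : Real.exp (-Λ) *
            EP (fun _ => q ^ 2) (box a a) (fun A => Real.exp (2 * (#(A ∩ hnb q a z) : ℝ))) ≤
              N⁻¹ := by
            calc Real.exp (-Λ) * EP (fun _ => q ^ 2) (box a a)
                    (fun A => Real.exp (2 * (#(A ∩ hnb q a z) : ℝ)))
                ≤ Real.exp (-Λ) * Real.exp (7 * (36 * L)) := by gcongr
              _ = Real.exp (-L) := by
                  rw [← Real.exp_add]
                  congr 1
                  rw [hΛ]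
                  ring
              _ ≤ Real.exp (-Real.log N) := by
                  apply Real.exp_le_exp.2
                  linarith
              _ = N⁻¹ := by rw [Real.exp_neg, Real.exp_log hN0]
          gcongr
  -- sum over the sites
  have hsum1 : ∑ z ∈ sbox s M M ∩ box a a,
      EP (fun _ => q ^ 2) (box a a) (fun A => (#(geo A ∩ hnb q a z) : ℝ)) ≤
      #(hyp q 2 a) * (2 * m) := by
    calc ∑ z ∈ sbox s M M ∩ box a a,
            EP (fun _ => q ^ 2) (box a a) (fun A => (#(geo A ∩ hnb q a z) : ℝ))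
        = EP (fun _ => q ^ 2) (box a a)
          (fun A => ∑ z ∈ sbox s M M ∩ box a a, (#(geo A ∩ hnb q a z) : ℝ)) := by
          rw [EP_sum]
      _ ≤ EP (fun _ => q ^ 2) (box a a)
          (fun A => ∑ w ∈ hyp q 2 a, (#(geo A ∩ sbox (cornr s w) M M) : ℝ)) :=
          EP_mono hG fun A hA => sum_card_hnb_le s ((geo_subset A).trans hA)
      _ = ∑ w ∈ hyp q 2 a, EP (fun _ => q ^ 2) (box a a)
          (fun A => (#(geo A ∩ sbox (cornr s w) M M) : ℝ)) := by
          rw [EP_sum]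
      _ ≤ ∑ _w ∈ hyp q 2 a, 2 * m := sum_le_sum fun w _ => EP_geo_le hq hq1 a M _
      _ = _ := by rw [sum_const, nsmul_eq_mul]
  have hcard : (#(sbox s M M ∩ box a a) : ℝ) ≤ (M : ℝ) * M := by
    have h1 : #(sbox s M M ∩ box a a) ≤ #(sbox s M M) := card_le_card inter_subset_left
    have h2 : #(sbox s M M) = M * M := by
      rw [sbox, card_product, Nat.card_Ioc, Nat.card_Ioc]
      congr 1 <;> omega
    rw [h2] at h1
    exact_mod_cast h1
  have hmN : m ≤ N := by
    rw [hmdef, hNdef]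
    have : (M : ℝ) ≤ a := by exact_mod_cast hMa
    gcongr
  have hm0 : 0 < m := by linarith
  calc q ^ 2 * ∑ z ∈ sbox s M M ∩ box a a, PP (fun _ => q ^ 2) (box a a) (wide q θ a k z)
      ≤ q ^ 2 * ∑ z ∈ sbox s M M ∩ box a a, K * θ⁻¹ ^ (k + 1) * (Λ ^ k *
          EP (fun _ => q ^ 2) (box a a) (fun A => (#(geo A ∩ hnb q a z) : ℝ)) +
          (k + 1).factorial * N⁻¹) := by
        gcongr with z hz
        exact hsite z hz
    _ = K * θ⁻¹ ^ (k + 1) * (Λ ^ k * (q ^ 2 * ∑ z ∈ sbox s M M ∩ box a a,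
          EP (fun _ => q ^ 2) (box a a) (fun A => (#(geo A ∩ hnb q a z) : ℝ))) +
          (k + 1).factorial * N⁻¹ * (q ^ 2 * #(sbox s M M ∩ box a a))) := by
        rw [← mul_sum, sum_add_distrib, ← mul_sum, sum_const, nsmul_eq_mul]
        ring
    _ ≤ K * θ⁻¹ ^ (k + 1) * (Λ ^ k * (36 * L * (2 * m)) + (k + 1).factorial * m) := by
        have h1 : q ^ 2 * ∑ z ∈ sbox s M M ∩ box a a,
            EP (fun _ => q ^ 2) (box a a) (fun A => (#(geo A ∩ hnb q a z) : ℝ)) ≤
            36 * L * (2 * m) := by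
          calc q ^ 2 * ∑ z ∈ sbox s M M ∩ box a a,
                  EP (fun _ => q ^ 2) (box a a) (fun A => (#(geo A ∩ hnb q a z) : ℝ))
              ≤ q ^ 2 * (#(hyp q 2 a) * (2 * m)) := by gcongr
            _ = q ^ 2 * #(hyp q 2 a) * (2 * m) := by ring
            _ ≤ 36 * L * (2 * m) := by gcongr
        have h2 : (k + 1).factorial * N⁻¹ * (q ^ 2 * #(sbox s M M ∩ box a a)) ≤
            (k + 1).factorial * m := by
          have h3 : q ^ 2 * #(sbox s M M ∩ box a a) ≤ m * N := by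
            calc q ^ 2 * #(sbox s M M ∩ box a a) ≤ q ^ 2 * ((M : ℝ) * M) := by gcongr
              _ = m * m := by rw [hmdef]; ring
              _ ≤ m * N := by gcongr
          calc ((k + 1).factorial : ℝ) * N⁻¹ * (q ^ 2 * #(sbox s M M ∩ box a a)) ≤
                (k + 1).factorial * N⁻¹ * (m * N) := by gcongr
            _ = (k + 1).factorial * m := by field_simp
        gcongr
    _ = K * θ⁻¹ ^ (k + 1) * ((72 * 253 ^ k) * L ^ (k + 1) * m + (k + 1).factorial * 1 * m) := by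
        rw [hΛ, mul_pow, pow_succ L k]
        ring
    _ ≤ K * θ⁻¹ ^ (k + 1) * ((72 * 253 ^ k) * L ^ (k + 1) * m +
          (k + 1).factorial * L ^ (k + 1) * m) := by
        have := one_le_pow₀ hL1 (n := k + 1)
        gcongr
    _ = K * (72 * 253 ^ k + (k + 1).factorial) * θ⁻¹ ^ (k + 1) * L ^ (k + 1) * m := by ring

end Pool.Agent.LPP
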