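import Pool.Agent.Lib.MP_6b8a80_h32.T7b_count
import Pool.Agent.Lib.MP_6b8a80_h32.T1_EP
import Pool.Agent.Lib.MP_6b8a80_h32.T2_Ell
import Pool.Agent.Lib.MP_6b8a80_h32.T7_Wide

/-!
# T7b: the narrow case of the deficit lemma
-/

set_option autoImplicit false

namespace Pool.Agent.LPP

open Finset

namespace T7b

theorem ell_singleton (u : ℕ × ℕ) : 1 ≤ ell {u} := by
  have h : SChain {u} := by
    intro x hx y hy hxy
    rw [mem_singleton] at hx hy
    exact absurd (hx.trans hy.symm) hxy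
  have := card_le_ell (subset_refl {u}) h
  simpa using this

/-- lower end of the rectangle -/
theorem lower_end (z : ℕ × ℕ) {A : Finset (ℕ × ℕ)} (hz1 : 1 ≤ z.1) (hz2 : 1 ≤ z.2) :
    ∃ (u : ℕ × ℕ) (P : Finset (ℕ × ℕ)), P ⊆ A ∧ u.1 < z.1 ∧ u.2 < z.2 ∧
      (∀ p ∈ P, p.1 ≤ u.1 ∧ p.2 ≤ u.2) ∧ ell (below z A) ≤ ell P ∧
      (u = (0, 0) ∨ (u ∈ A ∧ ell (below z A) = ell (below u A) + 1)) := by
  by_cases h : (below z A).Nonempty
  · obtain ⟨u, hu, he⟩ := exists_last z A h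
    have hu' := mem_filter.mp hu
    refine ⟨u, insert u (below u A), ?_, hu'.2.1, hu'.2.2, ?_, ?_, Or.inr ⟨hu'.1, he⟩⟩
    · intro p hp
      rcases mem_insert.mp hp with rfl | hp
      · exact hu'.1
      · exact (mem_filter.mp hp).1
    · intro p hp
      rcases mem_insert.mp hp with rfl | hp
      · exact ⟨le_rfl, le_rfl⟩
      · have := (mem_filter.mp hp).2
        exact ⟨this.1.le, this.2.le⟩
    · rw [he]
      have h1 := ell_add_le (A := below u A) (B := {u}) (by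
        intro x hx y hy
        rw [mem_singleton] at hy
        rw [hy]
        exact (mem_filter.mp hx).2)
      have h2 := ell_singleton u
      have h3 : below u A ∪ {u} = insert u (below u A) := by
        rw [insert_eq, union_comm]
      rw [h3] at h1
      omega
  · rw [not_nonempty_iff_eq_empty] at h
    refine ⟨(0, 0), ∅, empty_subset _, by show 0 < z.1; omega, by show 0 < z.2; omega, ?_, ?_,
      Or.inl rfl⟩
    · intro p hp; simp at hp
    · rw [h]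

/-- upper end of the rectangle -/
theorem upper_end (z : ℕ × ℕ) {A : Finset (ℕ × ℕ)} {a : ℕ} (hA : A ⊆ box a a)
    (hz1 : z.1 ≤ a) (hz2 : z.2 ≤ a) :
    ∃ (v : ℕ × ℕ) (P : Finset (ℕ × ℕ)), P ⊆ A ∧ z.1 < v.1 ∧ z.2 < v.2 ∧ v.1 ≤ a + 1 ∧
      v.2 ≤ a + 1 ∧ (∀ p ∈ P, v.1 ≤ p.1 ∧ v.2 ≤ p.2) ∧ ell (above z A) ≤ ell P ∧
      (v = (a + 1, a + 1) ∨ v ∈ A) := by
  by_cases h : (above z A).Nonempty
  · obtain ⟨v, hv, he⟩ := exists_first z A h
    have hv' := mem_filter.mp hv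
    have hvb := hA hv'.1
    unfold box at hvb
    rw [mem_product, mem_Icc, mem_Icc] at hvb
    refine ⟨v, insert v (above v A), ?_, hv'.2.1, hv'.2.2, by omega, by omega, ?_, ?_,
      Or.inr hv'.1⟩
    · intro p hp
      rcases mem_insert.mp hp with rfl | hp
      · exact hv'.1
      · exact (mem_filter.mp hp).1
    · intro p hp
      rcases mem_insert.mp hp with rfl | hp
      · exact ⟨le_rfl, le_rfl⟩
      · have := (mem_filter.mp hp).2
        exact ⟨this.1.le, this.2.le⟩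
    · rw [he]
      have h1 := ell_add_le (A := {v}) (B := above v A) (by
        intro x hx y hy
        rw [mem_singleton] at hx
        rw [hx]
        exact (mem_filter.mp hy).2)
      have h2 := ell_singleton v
      rw [← insert_eq] at h1
      omega
  · rw [not_nonempty_iff_eq_empty] at h
    refine ⟨(a + 1, a + 1), ∅, empty_subset _, by show z.1 < a + 1; omega,
      by show z.2 < a + 1; omega, le_rfl, le_rfl, ?_, ?_, Or.inl rfl⟩
    · intro p hp; simp at hp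
    · rw [h]

/-- the deterministic trichotomy -/
theorem trichotomy {q θ : ℝ} {a k : ℕ} {z : ℕ × ℕ} {A : Finset (ℕ × ℕ)}
    (hA : A ⊆ box a a) (hz : z ∈ box a a) (hd : dfc k z A) (hw : ¬ wide q θ a k z A) :
    q ^ 2 * ((z.1 : ℝ) * z.2) < θ ∨
    q ^ 2 * (((a : ℝ) + 1 - z.1) * ((a : ℝ) + 1 - z.2)) < θ ∨
    ∃ u ∈ box a a, ∃ v ∈ box a a, u.1 < z.1 ∧ u.2 < z.2 ∧ z.1 < v.1 ∧ z.2 < v.2 ∧
      q ^ 2 * (((v.1 : ℝ) - u.1 - 1) * ((v.2 : ℝ) - u.2 - 1)) < θ ∧
      ({u, v} ⊆ A ∧ dfc (k + 1) u A) := by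
  have hzb := hz
  unfold box at hzb
  rw [mem_product, mem_Icc, mem_Icc] at hzb
  obtain ⟨⟨z1, z1'⟩, z2, z2'⟩ := hzb
  obtain ⟨u, P, hP, u1, u2, hPu, hPe, hu⟩ := lower_end z (A := A) z1 z2
  obtain ⟨v, P', hP', v1, v2, v1', v2', hPv, hPe', hv⟩ := upper_end z hA z1' z2'
  have harea : q ^ 2 * (((v.1 : ℝ) - u.1 - 1) * ((v.2 : ℝ) - u.2 - 1)) < θ := by
    by_contra hcon
    apply hw
    refine ⟨u, v, v1', v2', u1, v1, u2, v2, not_lt.mp hcon, ?_⟩
    intro x hx hxc hxk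
    have hx' : ∀ y ∈ x, (u.1 < y.1 ∧ y.1 < v.1) ∧ (u.2 < y.2 ∧ y.2 < v.2) := by
      intro y hy
      have := hx hy
      rwa [mem_product, mem_Ioo, mem_Ioo] at this
    have h1 := ell_add_le (A := P) (B := x) (by
      intro p hp y hy
      have a1 := hPu p hp
      have a2 := hx' y hy
      omega)
    have h2 := ell_add_le (A := P ∪ x) (B := P') (by
      intro p hp y hy
      have a3 := hPv y hy
      rcases mem_union.mp hp with hp | hp
      · have a1 := hPu p hp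
        omega
      · have a2 := hx' p hp
        omega)
    have h3 : ell (P ∪ x ∪ P') ≤ ell (A ∪ x) := ell_mono (by
      intro p hp
      rw [mem_union, mem_union] at hp
      rw [mem_union]
      rcases hp with (hp | hp) | hp
      · exact Or.inl (hP hp)
      · exact Or.inr hp
      · exact Or.inl (hP' hp))
    have h4 := card_le_ell (subset_refl x) hxc
    unfold dfc at hd
    omega
  have hq2 : 0 ≤ q ^ 2 := sq_nonneg q
  have cz1 : (1 : ℝ) ≤ z.1 := by exact_mod_cast z1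
  have cz2 : (1 : ℝ) ≤ z.2 := by exact_mod_cast z2
  have cz1' : (z.1 : ℝ) ≤ a := by exact_mod_cast z1'
  have cz2' : (z.2 : ℝ) ≤ a := by exact_mod_cast z2'
  have cu1 : (u.1 : ℝ) + 1 ≤ z.1 := by exact_mod_cast u1
  have cu2 : (u.2 : ℝ) + 1 ≤ z.2 := by exact_mod_cast u2
  have cv1 : (z.1 : ℝ) + 1 ≤ v.1 := by exact_mod_cast v1
  have cv2 : (z.2 : ℝ) + 1 ≤ v.2 := by exact_mod_cast v2
  rcases hu with rfl | ⟨huA, hue⟩
  · left
    refine lt_of_le_of_lt ?_ harea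
    apply mul_le_mul_of_nonneg_left _ hq2
    push_cast
    apply mul_le_mul <;> linarith only [cv1, cv2, cz2, cz1]
  · rcases hv with rfl | hvA
    · right; left
      refine lt_of_le_of_lt ?_ harea
      apply mul_le_mul_of_nonneg_left _ hq2
      push_cast at cv1 cv2 ⊢
      apply mul_le_mul <;> linarith only [cu1, cu2, cz2', cz1']
    · right; right
      refine ⟨u, hA huA, v, hA hvA, u1, u2, v1, v2, harea, ?_, ?_⟩
      · intro x hx
        rw [mem_insert, mem_singleton] at hx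
        rcases hx with rfl | rfl
        · exact huA
        · exact hvA
      · unfold dfc at hd ⊢
        have h5 : ell (above z A) ≤ ell (above u A) := ell_mono (by
          intro p hp
          rw [above, mem_filter] at hp ⊢
          exact ⟨hp.1, by omega, by omega⟩)
        omega

/-- adding two points -/
theorem dfc_union {k : ℕ} {u v : ℕ × ℕ} {A : Finset (ℕ × ℕ)} (h1 : u.1 < v.1) (h2 : u.2 < v.2)
    (hd : dfc (k + 1) u (A ∪ {u, v})) : dfc (k + 2) u A := by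
  unfold dfc at hd ⊢
  have e1 : ell A ≤ ell (A ∪ {u, v}) := ell_mono subset_union_left
  have e2 : below u (A ∪ {u, v}) = below u A := by
    ext p
    unfold below
    rw [mem_filter, mem_filter, mem_union, mem_insert, mem_singleton]
    constructor
    · rintro ⟨h3 | rfl | rfl, h4, h5⟩
      · exact ⟨h3, h4, h5⟩
      · omega
      · omega
    · rintro ⟨h3, h4, h5⟩
      exact ⟨Or.inl h3, h4, h5⟩
  have e3 : above u (A ∪ {u, v}) ⊆ insert v (above u A) := by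
    intro p hp
    unfold above at hp ⊢
    rw [mem_filter, mem_union, mem_insert, mem_singleton] at hp
    rw [mem_insert, mem_filter]
    obtain ⟨h3 | rfl | rfl, h4, h5⟩ := hp
    · exact Or.inr ⟨h3, h4, h5⟩
    · omega
    · exact Or.inl rfl
  have e4 := (ell_mono e3).trans (ell_insert_le v (above u A))
  rw [e2] at hd
  omega

theorem good_const {q : ℝ} (hq2 : q ^ 2 ≤ 1) (S : Finset (ℕ × ℕ)) :
    Good (fun _ : ℕ × ℕ => q ^ 2) S := fun _ _ => ⟨sq_nonneg q, hq2⟩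

/-- probability of the narrow event at one site -/
theorem site_bound {q θ : ℝ} {a k : ℕ} (hq2 : q ^ 2 ≤ 1) {z : ℕ × ℕ} (hz : z ∈ box a a) :
    PP (fun _ => q ^ 2) (box a a) (fun A => dfc k z A ∧ ¬ wide q θ a k z A) ≤
      (if q ^ 2 * ((z.1 : ℝ) * z.2) < θ then 1 else 0) +
      (if q ^ 2 * (((a : ℝ) + 1 - z.1) * ((a : ℝ) + 1 - z.2)) < θ then 1 else 0) +
      ∑ u ∈ (box a a).filter (fun u => u.1 < z.1 ∧ u.2 < z.2),
        (#((box a a).filter (fun v => z.1 < v.1 ∧ z.2 < v.2 ∧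
          q ^ 2 * (((v.1 : ℝ) - u.1 - 1) * ((v.2 : ℝ) - u.2 - 1)) < θ)) : ℝ) *
        (q ^ 4 * PP (fun _ => q ^ 2) (box a a) (dfc (k + 2) u)) := by
  classical
  set S := box a a with hS
  have hG := good_const hq2 S
  set I : Finset ((ℕ × ℕ) × (ℕ × ℕ)) := (S ×ˢ S).filter (fun w => w.1.1 < z.1 ∧ w.1.2 < z.2 ∧
    z.1 < w.2.1 ∧ z.2 < w.2.2 ∧
      q ^ 2 * (((w.2.1 : ℝ) - w.1.1 - 1) * ((w.2.2 : ℝ) - w.1.2 - 1)) < θ) with hI
  have step1 : PP (fun _ => q ^ 2) S (fun A => dfc k z A ∧ ¬ wide q θ a k z A) ≤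
      EP (fun _ => q ^ 2) S (fun A =>
        ((if q ^ 2 * ((z.1 : ℝ) * z.2) < θ then 1 else 0) +
        (if q ^ 2 * (((a : ℝ) + 1 - z.1) * ((a : ℝ) + 1 - z.2)) < θ then 1 else 0)) +
        ∑ w ∈ I, (if {w.1, w.2} ⊆ A then (if dfc (k + 1) w.1 A then (1 : ℝ) else 0) else 0)) := by
    unfold PP
    refine EP_mono hG fun A hA => ?_
    have hnn : 0 ≤ ∑ w ∈ I, (if {w.1, w.2} ⊆ A then
        (if dfc (k + 1) w.1 A then (1 : ℝ) else 0) else 0) := by
      refine sum_nonneg fun w _ => ?_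
      split_ifs <;> norm_num
    by_cases hev : dfc k z A ∧ ¬ wide q θ a k z A
    · rw [if_pos hev]
      rcases trichotomy hA hz hev.1 hev.2 with h1 | h1 | ⟨u, hu, v, hv, a1, a2, a3, a4, a5, a6, a7⟩
      · rw [if_pos h1]
        have : (0 : ℝ) ≤ (if q ^ 2 * (((a : ℝ) + 1 - z.1) * ((a : ℝ) + 1 - z.2)) < θ
          then 1 else 0) := by split_ifs <;> norm_num
        linarith
      · rw [if_pos h1]
        have : (0 : ℝ) ≤ (if q ^ 2 * ((z.1 : ℝ) * z.2) < θ then 1 else 0) := by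
          split_ifs <;> norm_num
        linarith
      · have hmem : (u, v) ∈ I := by
          rw [hI, mem_filter, mem_product]
          exact ⟨⟨hu, hv⟩, a1, a2, a3, a4, a5⟩
        have hone : (1 : ℝ) ≤ ∑ w ∈ I, (if {w.1, w.2} ⊆ A then
            (if dfc (k + 1) w.1 A then (1 : ℝ) else 0) else 0) := by
          refine le_trans (le_of_eq ?_) (single_le_sum (f := fun w : (ℕ × ℕ) × (ℕ × ℕ) =>
            (if {w.1, w.2} ⊆ A then (if dfc (k + 1) w.1 A then (1 : ℝ) else 0) else 0))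
            (fun w _ => by split_ifs <;> norm_num) hmem)
          simp only
          rw [if_pos a6, if_pos a7]
        have t1 : (0 : ℝ) ≤ (if q ^ 2 * (((a : ℝ) + 1 - z.1) * ((a : ℝ) + 1 - z.2)) < θ
          then 1 else 0) := by split_ifs <;> norm_num
        have t2 : (0 : ℝ) ≤ (if q ^ 2 * ((z.1 : ℝ) * z.2) < θ then 1 else 0) := by
          split_ifs <;> norm_num
        linarith
    · rw [if_neg hev]
      have t1 : (0 : ℝ) ≤ (if q ^ 2 * (((a : ℝ) + 1 - z.1) * ((a : ℝ) + 1 - z.2)) < θ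
        then 1 else 0) := by split_ifs <;> norm_num
      have t2 : (0 : ℝ) ≤ (if q ^ 2 * ((z.1 : ℝ) * z.2) < θ then 1 else 0) := by
        split_ifs <;> norm_num
      linarith
  refine step1.trans ?_
  rw [EP_add, EP_const, EP_sum]
  refine add_le_add le_rfl ?_
  -- each pair
  have step2 : ∀ w ∈ I, EP (fun _ => q ^ 2) S (fun A => if {w.1, w.2} ⊆ A then
      (if dfc (k + 1) w.1 A then (1 : ℝ) else 0) else 0) ≤
      q ^ 4 * PP (fun _ => q ^ 2) S (dfc (k + 2) w.1) := by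
    intro w hw
    rw [hI, mem_filter, mem_product] at hw
    obtain ⟨⟨hw1, hw2⟩, b1, b2, b3, b4, -⟩ := hw
    have hsub : {w.1, w.2} ⊆ S := by
      intro x hx
      rw [mem_insert, mem_singleton] at hx
      rcases hx with rfl | rfl
      · exact hw1
      · exact hw2
    have hne : w.1 ≠ w.2 := by
      intro he
      have := congrArg Prod.fst he
      omega
    rw [EP_mecke (fun _ => q ^ 2) hsub (fun A => if dfc (k + 1) w.1 A then (1 : ℝ) else 0)]
    have hprod : ∏ _i ∈ ({w.1, w.2} : Finset (ℕ × ℕ)), q ^ 2 = q ^ 4 := by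
      rw [prod_const, card_pair hne]; ring
    rw [hprod]
    apply mul_le_mul_of_nonneg_left _ (by positivity)
    unfold PP
    refine EP_mono hG fun A _ => ?_
    by_cases hd : dfc (k + 1) w.1 (A ∪ {w.1, w.2})
    · rw [if_pos hd, if_pos (dfc_union (by omega) (by omega) hd)]
    · rw [if_neg hd]
      split_ifs <;> norm_num
  refine (sum_le_sum step2).trans (le_of_eq ?_)
  -- reorganise the sum over pairs
  rw [hI]
  have e1 : ∀ F : ℕ × ℕ → ℝ,
      ∑ w ∈ (S ×ˢ S).filter (fun w => w.1.1 < z.1 ∧ w.1.2 < z.2 ∧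
        z.1 < w.2.1 ∧ z.2 < w.2.2 ∧
        q ^ 2 * (((w.2.1 : ℝ) - w.1.1 - 1) * ((w.2.2 : ℝ) - w.1.2 - 1)) < θ), F w.1 =
      ∑ u ∈ S.filter (fun u => u.1 < z.1 ∧ u.2 < z.2),
        (#(S.filter (fun v => z.1 < v.1 ∧ z.2 < v.2 ∧
          q ^ 2 * (((v.1 : ℝ) - u.1 - 1) * ((v.2 : ℝ) - u.2 - 1)) < θ)) : ℝ) * F u := by
    intro F
    rw [sum_filter, sum_product, sum_filter]
    refine sum_congr rfl fun u _ => ?_
    by_cases hu : u.1 < z.1 ∧ u.2 < z.2
    · rw [if_pos hu, ← nsmul_eq_mul, ← sum_const, sum_filter]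
      refine sum_congr rfl fun v _ => ?_
      have : (u.1 < z.1 ∧ u.2 < z.2 ∧ z.1 < v.1 ∧ z.2 < v.2 ∧
          q ^ 2 * (((v.1 : ℝ) - u.1 - 1) * ((v.2 : ℝ) - u.2 - 1)) < θ) ↔
          (z.1 < v.1 ∧ z.2 < v.2 ∧
          q ^ 2 * (((v.1 : ℝ) - u.1 - 1) * ((v.2 : ℝ) - u.2 - 1)) < θ) := by
        constructor
        · rintro ⟨-, -, h⟩; exact h
        · intro h; exact ⟨hu.1, hu.2, h⟩
      simp only [this]
    · rw [if_neg hu]
      refine sum_eq_zero fun v _ => ?_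
      rw [if_neg]
      rintro ⟨h1, h2, -⟩
      exact hu ⟨h1, h2⟩
  exact e1 (fun u => q ^ 4 * PP (fun _ => q ^ 2) S (dfc (k + 2) u))

/-- number of offsets -/
noncomputable def cnt (q θ : ℝ) (a : ℕ) (d : ℕ × ℕ) : ℝ :=
  #((box a a).filter (fun r => (d.1 ≤ r.1 ∧ d.2 ≤ r.2) ∧ q ^ 2 * ((r.1 : ℝ) * r.2) < θ))

theorem sum_cnt {q θ : ℝ} {a : ℕ} :
    ∑ d ∈ box a a, cnt q θ a d =
      ∑ r ∈ (box a a).filter (fun z => q ^ 2 * ((z.1 : ℝ) * z.2) < θ), ((r.1 : ℝ) * r.2) := by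
  classical
  unfold cnt
  have h1 : ∀ d : ℕ × ℕ, (#((box a a).filter (fun r => (d.1 ≤ r.1 ∧ d.2 ≤ r.2) ∧
      q ^ 2 * ((r.1 : ℝ) * r.2) < θ)) : ℝ) =
      ∑ r ∈ (box a a).filter (fun z => q ^ 2 * ((z.1 : ℝ) * z.2) < θ),
        (if d.1 ≤ r.1 ∧ d.2 ≤ r.2 then (1 : ℝ) else 0) := by
    intro d
    rw [← sum_filter, sum_const, nsmul_eq_mul, mul_one, filter_filter]
    congr 2
    ext r
    rw [mem_filter, mem_filter]
    tauto
  simp only [h1]
  rw [sum_comm]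
  refine sum_congr rfl fun r hr => ?_
  rw [mem_filter] at hr
  have hrb := hr.1
  unfold box at hrb ⊢
  rw [mem_product, mem_Icc, mem_Icc] at hrb
  rw [← sum_filter, sum_const, nsmul_eq_mul, mul_one]
  have h2 : (Icc 1 a ×ˢ Icc 1 a).filter (fun d : ℕ × ℕ => d.1 ≤ r.1 ∧ d.2 ≤ r.2) =
      Icc 1 r.1 ×ˢ Icc 1 r.2 := by
    ext d
    rw [mem_filter, mem_product, mem_product, mem_Icc, mem_Icc, mem_Icc, mem_Icc]
    omega
  rw [h2, card_product]
  push_cast
  simp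

end T7b

open T7b in
/-- T7b -/
theorem narrow_bound (k : ℕ) : ∃ C N₀ : ℝ, 0 < C ∧ 1 ≤ N₀ ∧
    ∀ (q θ B : ℝ) (a M : ℕ), 0 < q → N₀ ≤ q * a → q * (q * a) ^ 10 ≤ 1 → 1 ≤ q * M →
    M ≤ a → 1 / (q * a) ≤ θ → θ ≤ 1 →
    (∀ s : ℕ × ℕ, q ^ 2 * ∑ z ∈ sbox s M M ∩ box a a,
      PP (fun _ => q ^ 2) (box a a) (dfc (k + 2) z) ≤ B) →
    ∀ s : ℕ × ℕ, q ^ 2 * ∑ z ∈ sbox s M M ∩ box a a,
      PP (fun _ => q ^ 2) (box a a) (fun A => dfc k z A ∧ ¬ wide q θ a k z A) ≤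
      C * θ ^ 2 * (1 + Real.log (q * a)) * B + C * (1 + Real.log (q * a)) := by
  classical
  refine ⟨6, 1, by norm_num, le_rfl, ?_⟩
  intro q θ B a M hq hN hq10 hM hMa hθ hθ1 hB s
  set S := box a a with hS
  set L : ℝ := 1 + Real.log (q * a) with hL
  have hL1 : 1 ≤ L := by have := Real.log_nonneg hN; linarith
  have hθ0 : 0 < θ := lt_of_lt_of_le (by positivity) hθ
  have hq1 : q ≤ 1 := by
    have : (1 : ℝ) ≤ (q * a) ^ 10 := one_le_pow₀ hN
    nlinarith only [hq10, hq, this]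
  have hq2 : q ^ 2 ≤ 1 := pow_le_one₀ hq.le hq1
  have hG := good_const hq2 S
  set F : ℕ × ℕ → ℝ := fun u => PP (fun _ => q ^ 2) S (dfc (k + 2) u) with hF
  have hF0 : ∀ u, 0 ≤ F u := fun u => PP_nonneg hG _
  have hB0 : 0 ≤ B := le_trans (mul_nonneg (sq_nonneg q) (sum_nonneg fun z _ => hF0 z)) (hB s)
  set Q := sbox s M M ∩ S with hQ
  -- sum of the site bounds
  have h1 : ∑ z ∈ Q, PP (fun _ => q ^ 2) S (fun A => dfc k z A ∧ ¬ wide q θ a k z A) ≤
      ∑ z ∈ Q, (if q ^ 2 * ((z.1 : ℝ) * z.2) < θ then (1 : ℝ) else 0) +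
      ∑ z ∈ Q, (if q ^ 2 * (((a : ℝ) + 1 - z.1) * ((a : ℝ) + 1 - z.2)) < θ then (1 : ℝ) else 0) +
      ∑ z ∈ Q, ∑ u ∈ S.filter (fun u => u.1 < z.1 ∧ u.2 < z.2),
        (#(S.filter (fun v => z.1 < v.1 ∧ z.2 < v.2 ∧
          q ^ 2 * (((v.1 : ℝ) - u.1 - 1) * ((v.2 : ℝ) - u.2 - 1)) < θ)) : ℝ) *
        (q ^ 4 * F u) := by
    rw [← sum_add_distrib, ← sum_add_distrib]
    exact sum_le_sum fun z hz => site_bound hq2 (mem_inter.mp hz).2
  have h2 : ∑ z ∈ Q, (if q ^ 2 * ((z.1 : ℝ) * z.2) < θ then (1 : ℝ) else 0) ≤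
      3 * L * (θ / q ^ 2) := by
    rw [← sum_filter, sum_const, nsmul_eq_mul, mul_one]
    refine le_trans ?_ (count_le hq hN hq10 hθ hθ1)
    exact_mod_cast card_le_card (filter_subset_filter _ inter_subset_right)
  have h3 : ∑ z ∈ Q, (if q ^ 2 * (((a : ℝ) + 1 - z.1) * ((a : ℝ) + 1 - z.2)) < θ
      then (1 : ℝ) else 0) ≤ 3 * L * (θ / q ^ 2) := by
    rw [← sum_filter, sum_const, nsmul_eq_mul, mul_one]
    refine le_trans ?_ (count_le' hq hN hq10 hθ hθ1)
    exact_mod_cast card_le_card (filter_subset_filter _ inter_subset_right)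
  -- the third sum
  have h4 : ∀ z ∈ Q, ∑ u ∈ S.filter (fun u => u.1 < z.1 ∧ u.2 < z.2),
        (#(S.filter (fun v => z.1 < v.1 ∧ z.2 < v.2 ∧
          q ^ 2 * (((v.1 : ℝ) - u.1 - 1) * ((v.2 : ℝ) - u.2 - 1)) < θ)) : ℝ) *
        (q ^ 4 * F u) ≤
      ∑ d ∈ S.filter (fun d => d.1 < z.1 ∧ d.2 < z.2),
        cnt q θ a d * (q ^ 4 * F (z.1 - d.1, z.2 - d.2)) := by
    intro z hz
    have hzb := (mem_inter.mp hz).2
    rw [hS] at hzb
    unfold box at hzb
    rw [mem_product, mem_Icc, mem_Icc] at hzb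
    have hre : ∀ g : ℕ × ℕ → ℝ, ∑ u ∈ S.filter (fun u => u.1 < z.1 ∧ u.2 < z.2), g u =
        ∑ d ∈ S.filter (fun d => d.1 < z.1 ∧ d.2 < z.2), g (z.1 - d.1, z.2 - d.2) := by
      intro g
      refine sum_nbij' (fun u => (z.1 - u.1, z.2 - u.2)) (fun d => (z.1 - d.1, z.2 - d.2))
        ?_ ?_ ?_ ?_ ?_
      · intro u hu
        rw [hS, box, mem_filter, mem_product, mem_Icc, mem_Icc] at hu ⊢
        simp only
        omega
      · intro u hu
        rw [hS, box, mem_filter, mem_product, mem_Icc, mem_Icc] at hu ⊢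
        simp only
        omega
      · intro u hu
        rw [mem_filter] at hu
        ext <;> simp only <;> omega
      · intro u hu
        rw [mem_filter] at hu
        ext <;> simp only <;> omega
      · intro u hu
        rw [mem_filter] at hu
        congr 1
        ext <;> simp only <;> omega
    rw [hre]
    refine sum_le_sum fun d hd => ?_
    apply mul_le_mul_of_nonneg_right _ (mul_nonneg (by positivity) (hF0 _))
    rw [mem_filter] at hd
    unfold cnt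
    have : #(S.filter (fun v => z.1 < v.1 ∧ z.2 < v.2 ∧
        q ^ 2 * (((v.1 : ℝ) - ((z.1 - d.1 : ℕ) : ℝ) - 1) *
          ((v.2 : ℝ) - ((z.2 - d.2 : ℕ) : ℝ) - 1)) < θ)) ≤
        #((box a a).filter (fun r => (d.1 ≤ r.1 ∧ d.2 ≤ r.2) ∧
          q ^ 2 * ((r.1 : ℝ) * r.2) < θ)) := by
      refine card_le_card_of_injOn (fun v => (v.1 - (z.1 - d.1) - 1, v.2 - (z.2 - d.2) - 1)) ?_ ?_
      · intro v hv
        rw [mem_coe, mem_filter] at hv ⊢
        obtain ⟨c1, c2, c3, c4⟩ := hv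
        rw [hS] at c1
        have hdb := hd.1
        rw [hS] at hdb
        unfold box at c1 hdb ⊢
        rw [mem_product, mem_Icc, mem_Icc] at c1 hdb ⊢
        have r1 : (((v.1 - (z.1 - d.1) - 1 : ℕ)) : ℝ) =
            (v.1 : ℝ) - ((z.1 - d.1 : ℕ) : ℝ) - 1 := by
          rw [Nat.cast_sub (by omega), Nat.cast_sub (by omega)]; push_cast; ring
        have r2 : (((v.2 - (z.2 - d.2) - 1 : ℕ)) : ℝ) =
            (v.2 : ℝ) - ((z.2 - d.2 : ℕ) : ℝ) - 1 := by
          rw [Nat.cast_sub (by omega), Nat.cast_sub (by omega)]; push_cast; ring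
        refine ⟨⟨⟨by simp only; omega, by simp only; omega⟩,
          ⟨by simp only; omega, by simp only; omega⟩⟩, ⟨by simp only; omega, by simp only; omega⟩, ?_⟩
        simp only
        rw [r1, r2]
        exact c4
      · intro v hv w hw hvw
        rw [mem_coe, mem_filter] at hv hw
        simp only [Prod.mk.injEq] at hvw
        ext
        · omega
        · omega
    exact_mod_cast this
  have h5 : ∑ z ∈ Q, ∑ d ∈ S.filter (fun d => d.1 < z.1 ∧ d.2 < z.2),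
        cnt q θ a d * (q ^ 4 * F (z.1 - d.1, z.2 - d.2)) =
      ∑ d ∈ S, cnt q θ a d * q ^ 4 * ∑ z ∈ Q.filter (fun z => d.1 < z.1 ∧ d.2 < z.2),
        F (z.1 - d.1, z.2 - d.2) := by
    have e1 : ∀ z ∈ Q, ∑ d ∈ S.filter (fun d => d.1 < z.1 ∧ d.2 < z.2),
        cnt q θ a d * (q ^ 4 * F (z.1 - d.1, z.2 - d.2)) =
        ∑ d ∈ S, if d.1 < z.1 ∧ d.2 < z.2 then
          cnt q θ a d * (q ^ 4 * F (z.1 - d.1, z.2 - d.2)) else 0 := fun z _ => sum_filter _ _
    rw [sum_congr rfl e1, sum_comm]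
    refine sum_congr rfl fun d _ => ?_
    rw [← sum_filter, mul_sum]
    refine sum_congr rfl fun z _ => ?_
    ring
  have h6 : ∀ d ∈ S, q ^ 2 * ∑ z ∈ Q.filter (fun z => d.1 < z.1 ∧ d.2 < z.2),
      F (z.1 - d.1, z.2 - d.2) ≤ B := by
    intro d hd
    refine le_trans ?_ (hB (s.1 - d.1, s.2 - d.2))
    apply mul_le_mul_of_nonneg_left _ (sq_nonneg q)
    have e1 : ∑ z ∈ Q.filter (fun z => d.1 < z.1 ∧ d.2 < z.2), F (z.1 - d.1, z.2 - d.2) =
        ∑ u ∈ (Q.filter (fun z => d.1 < z.1 ∧ d.2 < z.2)).image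
          (fun z => (z.1 - d.1, z.2 - d.2)), F u := by
      rw [sum_image]
      intro z hz w hw hzw
      rw [mem_coe, mem_filter] at hz hw
      simp only [Prod.mk.injEq] at hzw
      ext
      · omega
      · omega
    rw [e1]
    refine sum_le_sum_of_subset_of_nonneg ?_ (fun u _ _ => hF0 u)
    intro u hu
    rw [mem_image] at hu
    obtain ⟨z, hz, rfl⟩ := hu
    rw [mem_filter, hQ, mem_inter, hS] at hz
    rw [hS] at hd
    rw [hS]
    unfold sbox box at hz ⊢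
    unfold box at hd
    rw [mem_product, mem_product, mem_Ioc, mem_Ioc, mem_Icc, mem_Icc] at hz
    rw [mem_product, mem_Icc, mem_Icc] at hd
    rw [mem_inter, mem_product, mem_product, mem_Ioc, mem_Ioc, mem_Icc, mem_Icc]
    simp only
    omega
  have h7 : q ^ 2 * ∑ d ∈ S, cnt q θ a d * q ^ 4 *
      ∑ z ∈ Q.filter (fun z => d.1 < z.1 ∧ d.2 < z.2), F (z.1 - d.1, z.2 - d.2) ≤
      3 * θ ^ 2 * L * B := by
    have hcnt0 : ∀ d, 0 ≤ cnt q θ a d := fun d => by unfold cnt; positivity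
    calc q ^ 2 * ∑ d ∈ S, cnt q θ a d * q ^ 4 *
        ∑ z ∈ Q.filter (fun z => d.1 < z.1 ∧ d.2 < z.2), F (z.1 - d.1, z.2 - d.2)
        = ∑ d ∈ S, cnt q θ a d * q ^ 4 *
          (q ^ 2 * ∑ z ∈ Q.filter (fun z => d.1 < z.1 ∧ d.2 < z.2),
            F (z.1 - d.1, z.2 - d.2)) := by
          rw [mul_sum]
          refine sum_congr rfl fun d _ => ?_
          ring
      _ ≤ ∑ d ∈ S, cnt q θ a d * q ^ 4 * B := by
          refine sum_le_sum fun d hd => ?_
          exact mul_le_mul_of_nonneg_left (h6 d hd) (mul_nonneg (hcnt0 d) (by positivity))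
      _ = (∑ d ∈ S, cnt q θ a d) * (q ^ 4 * B) := by
          rw [sum_mul]
          refine sum_congr rfl fun d _ => ?_
          ring
      _ ≤ (3 * L * (θ / q ^ 2) ^ 2) * (q ^ 4 * B) := by
          apply mul_le_mul_of_nonneg_right _ (by positivity)
          rw [hS, sum_cnt]
          exact sum_le hq hN hq10 hθ hθ1
      _ = 3 * θ ^ 2 * L * B := by field_simp
  have h8 : ∑ z ∈ Q, ∑ u ∈ S.filter (fun u => u.1 < z.1 ∧ u.2 < z.2),
        (#(S.filter (fun v => z.1 < v.1 ∧ z.2 < v.2 ∧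
          q ^ 2 * (((v.1 : ℝ) - u.1 - 1) * ((v.2 : ℝ) - u.2 - 1)) < θ)) : ℝ) *
        (q ^ 4 * F u) ≤ ∑ d ∈ S, cnt q θ a d * q ^ 4 *
      ∑ z ∈ Q.filter (fun z => d.1 < z.1 ∧ d.2 < z.2), F (z.1 - d.1, z.2 - d.2) := by
    rw [← h5]; exact sum_le_sum h4
  have h9 : q ^ 2 * (3 * L * (θ / q ^ 2)) ≤ 3 * L := by
    have : q ^ 2 * (3 * L * (θ / q ^ 2)) = 3 * L * θ := by field_simp
    rw [this]
    nlinarith only [hθ1, hL1]
  calc q ^ 2 * ∑ z ∈ Q, PP (fun _ => q ^ 2) S (fun A => dfc k z A ∧ ¬ wide q θ a k z A)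
      ≤ q ^ 2 * (3 * L * (θ / q ^ 2) + 3 * L * (θ / q ^ 2) +
          ∑ d ∈ S, cnt q θ a d * q ^ 4 *
            ∑ z ∈ Q.filter (fun z => d.1 < z.1 ∧ d.2 < z.2), F (z.1 - d.1, z.2 - d.2)) := by
        apply mul_le_mul_of_nonneg_left _ (sq_nonneg q)
        linarith only [h1, h2, h3, h8]
    _ ≤ 3 * L + 3 * L + 3 * θ ^ 2 * L * B := by
        rw [mul_add, mul_add]
        linarith only [h7, h9]
    _ ≤ 6 * θ ^ 2 * L * B + 6 * L := by
        have : 0 ≤ θ ^ 2 * L * B := by positivity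
        linarith

end Pool.Agent.LPP
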