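import Pool.Agent.Lib.MP_6b8a80_h32.Defs

/-!
# T7b, counting part: lattice points under a hyperbola
-/

set_option autoImplicit false

namespace Pool.Agent.LPP

open Finset

namespace T7b

theorem sum_inv_le {m : ℕ} (hm : 1 ≤ m) (a : ℕ) (ha : m ≤ a) :
    ∑ r ∈ Ioc m a, (1 : ℝ) / r ≤ Real.log a - Real.log m := by
  induction a, ha using Nat.le_induction with
  | base => simp
  | succ a ha ih =>
    have hins : Ioc m (a + 1) = insert (a + 1) (Ioc m a) := by
      ext r; simp only [mem_Ioc, mem_insert]; omega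
    rw [hins, sum_insert (by simp)]
    have ha0 : (0 : ℝ) < a := by exact_mod_cast (by omega : 0 < a)
    have h1 : (1 : ℝ) / ((a + 1 : ℕ) : ℝ) ≤ Real.log ((a + 1 : ℕ) : ℝ) - Real.log a := by
      rw [← Real.log_div (by positivity) ha0.ne']
      have h2 := Real.one_sub_inv_le_log_of_pos (x := (((a + 1 : ℕ) : ℝ) / a)) (by positivity)
      refine le_trans (le_of_eq ?_) h2
      push_cast
      field_simp
      ring
    linarith only [ih, h1]

theorem sum_min_le {a : ℕ} {X : ℝ} (ha : 1 ≤ a) (hX : (a : ℝ) ≤ X) (hX2 : X ≤ (a : ℝ) ^ 2) :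
    ∑ r ∈ Icc 1 a, min (a : ℝ) (X / r) ≤ X * (2 + Real.log ((a : ℝ) ^ 2 / X)) := by
  have ha0 : (0 : ℝ) < a := by exact_mod_cast ha
  have hX0 : 0 < X := ha0.trans_le hX
  set y : ℝ := X / a with hy
  have hy1 : 1 ≤ y := by rw [hy, le_div_iff₀ ha0]; linarith
  have hya : y ≤ a := by rw [hy, div_le_iff₀ ha0]; nlinarith only [hX2]
  set m : ℕ := ⌊y⌋₊ with hm
  have hm1 : 1 ≤ m := by rw [hm, Nat.one_le_floor_iff]; exact hy1
  have hmy : (m : ℝ) ≤ y := Nat.floor_le (by linarith)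
  have hmy' : y < m + 1 := Nat.lt_floor_add_one y
  have hma : m ≤ a := by exact_mod_cast hmy.trans hya
  have hmR : (1 : ℝ) ≤ m := by exact_mod_cast hm1
  have hsplit : Icc 1 a = Icc 1 m ∪ Ioc m a := by
    ext r; simp only [mem_Icc, mem_union, mem_Ioc]; omega
  have hdisj : Disjoint (Icc 1 m) (Ioc m a) := by
    rw [disjoint_left]; intro r; simp only [mem_Icc, mem_Ioc]; omega
  rw [hsplit, sum_union hdisj]
  have e1 : ∑ r ∈ Icc 1 m, min (a : ℝ) (X / r) ≤ X := by
    calc ∑ r ∈ Icc 1 m, min (a : ℝ) (X / r) ≤ ∑ _r ∈ Icc 1 m, (a : ℝ) :=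
          sum_le_sum fun r _ => min_le_left _ _
      _ = m * a := by simp
      _ ≤ y * a := mul_le_mul_of_nonneg_right hmy ha0.le
      _ = X := by rw [hy]; field_simp
  have e2 : ∑ r ∈ Ioc m a, min (a : ℝ) (X / r) ≤ X * (Real.log a - Real.log m) := by
    calc ∑ r ∈ Ioc m a, min (a : ℝ) (X / r) ≤ ∑ r ∈ Ioc m a, X * (1 / r) := by
          refine sum_le_sum fun r _ => (min_le_right _ _).trans (le_of_eq ?_)
          ring
      _ = X * ∑ r ∈ Ioc m a, (1 : ℝ) / r := by rw [mul_sum]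
      _ ≤ _ := mul_le_mul_of_nonneg_left (sum_inv_le hm1 a hma) hX0.le
  have e3 : Real.log y - Real.log 2 ≤ Real.log m := by
    rw [← Real.log_div (by linarith only [hy1]) (by norm_num)]
    apply Real.log_le_log (by linarith only [hy1])
    linarith only [hmy', hmR]
  have e4 : Real.log a - Real.log y = Real.log ((a : ℝ) ^ 2 / X) := by
    rw [← Real.log_div ha0.ne' (by linarith), hy]
    congr 1
    field_simp
  have e5 : Real.log 2 ≤ 1 := by
    have := Real.log_two_lt_d9; linarith only [this]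
  nlinarith only [e1, e2, e3, e4, e5, hX]

/-- number of lattice points under the hyperbola -/
theorem count_le {q θ : ℝ} {a : ℕ} (hq : 0 < q) (hN : 1 ≤ q * a) (hq10 : q * (q * a) ^ 10 ≤ 1)
    (hθ : 1 / (q * a) ≤ θ) (hθ1 : θ ≤ 1) :
    (#((box a a).filter (fun z => q ^ 2 * ((z.1 : ℝ) * z.2) < θ)) : ℝ) ≤
      3 * (1 + Real.log (q * a)) * (θ / q ^ 2) := by
  set N : ℝ := q * a with hNdef
  have hN0 : 0 < N := by linarith
  have ha : 1 ≤ a := by
    by_contra h
    have : a = 0 := by omega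
    rw [hNdef, this] at hN
    norm_num at hN
  have ha0 : (0 : ℝ) < a := by exact_mod_cast ha
  have hθ0 : 0 < θ := lt_of_lt_of_le (by positivity) hθ
  set X : ℝ := θ / q ^ 2 with hX
  have hX0 : 0 < X := by positivity
  have hqX : q ^ 2 * X = θ := by rw [hX]; field_simp
  have hqN2 : q * N ^ 2 ≤ 1 := by
    have : N ^ 2 ≤ N ^ 10 := pow_le_pow_right₀ hN (by norm_num)
    calc q * N ^ 2 ≤ q * N ^ 10 := mul_le_mul_of_nonneg_left this hq.le
      _ ≤ 1 := hq10
  have hθN : 1 ≤ θ * N := by rwa [div_le_iff₀ hN0] at hθ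
  have haX : (a : ℝ) ≤ X := by
    rw [hX, le_div_iff₀ (by positivity)]
    have e1 : (a : ℝ) * q ^ 2 = N * q := by rw [hNdef]; ring
    rw [e1]
    have e2 : N * q * N ≤ θ * N := by nlinarith only [hqN2, hθN]
    exact le_of_mul_le_mul_right e2 hN0
  have hX2 : X ≤ (a : ℝ) ^ 2 := by
    rw [hX, div_le_iff₀ (by positivity)]
    have e1 : (a : ℝ) ^ 2 * q ^ 2 = N ^ 2 := by rw [hNdef]; ring
    rw [e1]; nlinarith only [hθ1, hN]
  have hcard : (#((box a a).filter (fun z => q ^ 2 * ((z.1 : ℝ) * z.2) < θ)) : ℝ) ≤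
      ∑ r ∈ Icc 1 a, min (a : ℝ) (X / r) := by
    unfold box
    rw [card_filter, sum_product]
    push_cast
    refine sum_le_sum fun r hr => ?_
    have hr1 : 1 ≤ r := (mem_Icc.mp hr).1
    have hr0 : (0 : ℝ) < r := by exact_mod_cast hr1
    have hcf : ∑ x ∈ Icc 1 a, (if q ^ 2 * ((r : ℝ) * (x : ℝ)) < θ then (1 : ℝ) else 0) =
        (#((Icc 1 a).filter (fun x : ℕ => q ^ 2 * ((r : ℝ) * (x : ℝ)) < θ)) : ℝ) := by
      rw [card_filter]; push_cast; rfl
    rw [hcf]
    apply le_min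
    · have : #((Icc 1 a).filter (fun x : ℕ => q ^ 2 * ((r : ℝ) * (x : ℝ)) < θ)) ≤ a := by
        refine (card_filter_le _ _).trans ?_
        simp
      exact_mod_cast this
    · have hsub : (Icc 1 a).filter (fun x : ℕ => q ^ 2 * ((r : ℝ) * (x : ℝ)) < θ) ⊆
          Icc 1 ⌊X / r⌋₊ := by
        intro x hx
        rw [mem_filter, mem_Icc] at hx
        rw [mem_Icc]
        refine ⟨hx.1.1, Nat.le_floor ?_⟩
        rw [le_div_iff₀ hr0]
        have h1 := hx.2
        rw [← hqX] at h1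
        have h2 := lt_of_mul_lt_mul_left h1 (by positivity)
        linarith
      calc (#((Icc 1 a).filter (fun x : ℕ => q ^ 2 * ((r : ℝ) * (x : ℝ)) < θ)) : ℝ)
          ≤ (#(Icc 1 ⌊X / r⌋₊) : ℝ) := by exact_mod_cast card_le_card hsub
        _ = (⌊X / r⌋₊ : ℝ) := by simp
        _ ≤ X / r := Nat.floor_le (by positivity)
  refine hcard.trans ((sum_min_le ha haX hX2).trans ?_)
  have hlog : Real.log ((a : ℝ) ^ 2 / X) ≤ 3 * Real.log N := by
    have e1 : (a : ℝ) ^ 2 / X = N ^ 2 / θ := by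
      rw [hX, hNdef]; field_simp
    rw [e1, show (3 : ℝ) * Real.log N = Real.log (N ^ 3) by rw [Real.log_pow]; norm_num]
    apply Real.log_le_log (by positivity)
    rw [div_le_iff₀ hθ0]
    have : N ^ 2 * 1 ≤ N ^ 2 * (θ * N) := mul_le_mul_of_nonneg_left hθN (by positivity)
    nlinarith only [this]
  have hL0 : 0 ≤ Real.log N := Real.log_nonneg hN
  nlinarith only [hX0, hlog]

/-- sum of `r₁ r₂` under the hyperbola -/
theorem sum_le {q θ : ℝ} {a : ℕ} (hq : 0 < q) (hN : 1 ≤ q * a) (hq10 : q * (q * a) ^ 10 ≤ 1)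
    (hθ : 1 / (q * a) ≤ θ) (hθ1 : θ ≤ 1) :
    ∑ r ∈ (box a a).filter (fun z => q ^ 2 * ((z.1 : ℝ) * z.2) < θ), ((r.1 : ℝ) * r.2) ≤
      3 * (1 + Real.log (q * a)) * (θ / q ^ 2) ^ 2 := by
  have hX : 0 ≤ θ / q ^ 2 := by
    have : 0 < θ := lt_of_lt_of_le (by positivity) hθ
    positivity
  calc ∑ r ∈ (box a a).filter (fun z => q ^ 2 * ((z.1 : ℝ) * z.2) < θ), ((r.1 : ℝ) * r.2)
      ≤ ∑ _r ∈ (box a a).filter (fun z => q ^ 2 * ((z.1 : ℝ) * z.2) < θ), θ / q ^ 2 := by
        refine sum_le_sum fun r hr => ?_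
        rw [le_div_iff₀ (by positivity)]
        have := (mem_filter.mp hr).2
        linarith
    _ = (#((box a a).filter (fun z => q ^ 2 * ((z.1 : ℝ) * z.2) < θ)) : ℝ) * (θ / q ^ 2) := by
        rw [sum_const, nsmul_eq_mul]
    _ ≤ (3 * (1 + Real.log (q * a)) * (θ / q ^ 2)) * (θ / q ^ 2) :=
        mul_le_mul_of_nonneg_right (count_le hq hN hq10 hθ hθ1) hX
    _ = _ := by ring

/-- the reflected count -/
theorem count_le' {q θ : ℝ} {a : ℕ} (hq : 0 < q) (hN : 1 ≤ q * a) (hq10 : q * (q * a) ^ 10 ≤ 1)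
    (hθ : 1 / (q * a) ≤ θ) (hθ1 : θ ≤ 1) :
    (#((box a a).filter (fun z => q ^ 2 * (((a : ℝ) + 1 - z.1) * ((a : ℝ) + 1 - z.2)) < θ)) : ℝ) ≤
      3 * (1 + Real.log (q * a)) * (θ / q ^ 2) := by
  refine le_trans ?_ (count_le hq hN hq10 hθ hθ1)
  have : #((box a a).filter (fun z => q ^ 2 * (((a : ℝ) + 1 - z.1) * ((a : ℝ) + 1 - z.2)) < θ)) ≤
      #((box a a).filter (fun z => q ^ 2 * ((z.1 : ℝ) * z.2) < θ)) := by
    refine card_le_card_of_injOn (fun z => (a + 1 - z.1, a + 1 - z.2)) ?_ ?_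
    · intro z hz
      rw [mem_coe, mem_filter] at hz ⊢
      obtain ⟨h1, h2⟩ := hz
      unfold box at h1 ⊢
      rw [mem_product, mem_Icc, mem_Icc] at h1 ⊢
      refine ⟨⟨⟨by simp only; omega, by simp only; omega⟩,
        ⟨by simp only; omega, by simp only; omega⟩⟩, ?_⟩
      simp only
      rw [Nat.cast_sub (by omega), Nat.cast_sub (by omega)]
      push_cast
      exact h2
    · intro z hz w hw hzw
      rw [mem_coe, mem_filter] at hz hw
      have h1 := hz.1
      have h2 := hw.1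
      unfold box at h1 h2
      rw [mem_product, mem_Icc, mem_Icc] at h1 h2
      simp only [Prod.mk.injEq] at hzw
      ext
      · omega
      · omega
  exact_mod_cast this

end T7b

end Pool.Agent.LPP
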