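import Pool.Agent.Lib.MP_6b8a80_h32.T7b
import Pool.Agent.Lib.MP_6b8a80_h32.T7a_WideBound

/-!
# T7c: the deficit lemma by iteration
-/

set_option autoImplicit false

namespace Pool.Agent.LPP

open Finset

namespace T7b

/-- powers of logarithms are small -/
theorem log_pow_le (D : ℕ) {δ : ℝ} (hδ : 0 < δ) : ∃ C : ℝ, 0 < C ∧ ∀ N : ℝ, 1 ≤ N →
    (1 + Real.log N) ^ D ≤ C * N ^ δ := by
  set δ' : ℝ := δ / (D + 1) with hδ'
  have hδ'0 : 0 < δ' := by positivity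
  refine ⟨(1 + 1 / δ') ^ D, by positivity, fun N hN => ?_⟩
  have hL : 0 ≤ Real.log N := Real.log_nonneg hN
  have h1 : Real.log N ≤ N ^ δ' / δ' := Real.log_le_rpow_div (by linarith) hδ'0
  have h2 : 1 ≤ N ^ δ' := Real.one_le_rpow hN hδ'0.le
  have h3 : 1 + Real.log N ≤ (1 + 1 / δ') * N ^ δ' := by
    have : (1 + 1 / δ') * N ^ δ' = N ^ δ' + N ^ δ' / δ' := by ring
    rw [this]; linarith only [h1, h2]
  calc (1 + Real.log N) ^ D ≤ ((1 + 1 / δ') * N ^ δ') ^ D := pow_le_pow_left₀ (by linarith) h3 D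
    _ = (1 + 1 / δ') ^ D * (N ^ δ') ^ D := mul_pow _ _ _
    _ ≤ (1 + 1 / δ') ^ D * N ^ δ := by
        apply mul_le_mul_of_nonneg_left _ (by positivity)
        rw [← Real.rpow_natCast, ← Real.rpow_mul (by linarith)]
        apply Real.rpow_le_rpow_of_exponent_le hN
        rw [hδ', div_mul_eq_mul_div, div_le_iff₀ (by positivity)]
        nlinarith only [hδ]

theorem iter_bound (r : ℕ) : ∀ k : ℕ, ∃ (C N₀ : ℝ) (D : ℕ), 0 < C ∧ 1 ≤ N₀ ∧
    ∀ (q θ : ℝ) (a M : ℕ), 0 < q → N₀ ≤ q * a → q * (q * a) ^ 10 ≤ 1 → 1 ≤ q * M →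
    M ≤ a → 1 / (q * a) ≤ θ → θ ≤ 1 → ∀ s : ℕ × ℕ,
    q ^ 2 * ∑ z ∈ sbox s M M ∩ box a a, PP (fun _ => q ^ 2) (box a a) (dfc k z) ≤
      C * (θ⁻¹ ^ (k + 1) * (1 + Real.log (q * a)) ^ D * (q * M) +
        θ ^ (2 * r) * (1 + Real.log (q * a)) ^ D * (q * M) ^ 2) := by
  classical
  induction r with
  | zero =>
    intro k
    refine ⟨1, 1, 0, one_pos, le_rfl, ?_⟩
    intro q θ a M hq hN hq10 hM hMa hθ hθ1 s
    have hθ0 : 0 < θ := lt_of_lt_of_le (by positivity) hθ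
    have hq1 : q ≤ 1 := by
      have : (1 : ℝ) ≤ (q * a) ^ 10 := one_le_pow₀ hN
      nlinarith only [this, hq10, hq]
    have hq2 : q ^ 2 ≤ 1 := pow_le_one₀ hq.le hq1
    have hG := good_const hq2 (box a a)
    have h1 : ∑ z ∈ sbox s M M ∩ box a a, PP (fun _ => q ^ 2) (box a a) (dfc k z) ≤
        (M : ℝ) ^ 2 := by
      calc ∑ z ∈ sbox s M M ∩ box a a, PP (fun _ => q ^ 2) (box a a) (dfc k z)
          ≤ ∑ _z ∈ sbox s M M ∩ box a a, (1 : ℝ) := sum_le_sum fun z _ => PP_le_one hG _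
        _ = (#(sbox s M M ∩ box a a) : ℝ) := by simp
        _ ≤ (#(sbox s M M) : ℝ) := by exact_mod_cast card_le_card inter_subset_left
        _ = (M : ℝ) ^ 2 := by
            unfold sbox
            rw [card_product]
            simp
            ring
    have h2 := mul_le_mul_of_nonneg_left h1 (sq_nonneg q)
    have h3 : 0 ≤ θ⁻¹ ^ (k + 1) * (q * (M : ℝ)) := by positivity
    simp only [pow_zero, mul_one, mul_zero, one_mul]
    nlinarith only [h2, h3]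
  | succ r ih =>
    intro k
    obtain ⟨C₁, N₁, hC₁, hN₁, hw⟩ := wide_bound k
    obtain ⟨C₂, N₂, hC₂, hN₂, hn⟩ := narrow_bound k
    obtain ⟨C₃, N₃, D, hC₃, hN₃, hi⟩ := ih (k + 2)
    refine ⟨C₁ + C₂ * C₃ + C₂, max N₁ (max N₂ N₃), D + k + 2, by positivity,
      hN₁.trans (le_max_left _ _), ?_⟩
    intro q θ a M hq hN hq10 hM hMa hθ hθ1 s
    have hNN₁ : N₁ ≤ q * a := (le_max_left _ _).trans hN
    have hNN₂ : N₂ ≤ q * a := ((le_max_left _ _).trans (le_max_right _ _)).trans hN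
    have hNN₃ : N₃ ≤ q * a := ((le_max_right _ _).trans (le_max_right _ _)).trans hN
    have hN1 : 1 ≤ q * a := hN₁.trans hNN₁
    have hθ0 : 0 < θ := lt_of_lt_of_le (by positivity) hθ
    have hq1 : q ≤ 1 := by
      have : (1 : ℝ) ≤ (q * a) ^ 10 := one_le_pow₀ hN1
      nlinarith only [this, hq10, hq]
    have hq2 : q ^ 2 ≤ 1 := pow_le_one₀ hq.le hq1
    have hG := good_const hq2 (box a a)
    set L : ℝ := 1 + Real.log (q * a) with hL
    have hL1 : 1 ≤ L := by have := Real.log_nonneg hN1; linarith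
    set m : ℝ := q * M with hm
    have hm1 : 1 ≤ m := hM
    have A := hw q θ a M s hq hNN₁ hq10 hM hMa hθ hθ1
    set B : ℝ := C₃ * (θ⁻¹ ^ (k + 2 + 1) * L ^ D * m + θ ^ (2 * r) * L ^ D * m ^ 2) with hB
    have A' := hn q θ B a M hq hNN₂ hq10 hM hMa hθ hθ1
      (fun s => hi q θ a M hq hNN₃ hq10 hM hMa hθ hθ1 s) s
    have hsplit : ∑ z ∈ sbox s M M ∩ box a a, PP (fun _ => q ^ 2) (box a a) (dfc k z) ≤
        ∑ z ∈ sbox s M M ∩ box a a, PP (fun _ => q ^ 2) (box a a) (wide q θ a k z) +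
        ∑ z ∈ sbox s M M ∩ box a a,
          PP (fun _ => q ^ 2) (box a a) (fun A => dfc k z A ∧ ¬ wide q θ a k z A) := by
      rw [← sum_add_distrib]
      refine sum_le_sum fun z _ => ?_
      refine le_trans (PP_mono hG (fun A _ hd => ?_)) (PP_or_le hG _ _)
      by_cases hw' : wide q θ a k z A
      · exact Or.inl hw'
      · exact Or.inr ⟨hd, hw'⟩
    have h1 := mul_le_mul_of_nonneg_left hsplit (sq_nonneg q)
    rw [mul_add] at h1
    have hθi : 1 ≤ θ⁻¹ := (one_le_inv₀ hθ0).mpr hθ1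
    -- the three contributions
    have hLp : ∀ {i j : ℕ}, i ≤ j → L ^ i ≤ L ^ j := fun hij => pow_le_pow_right₀ hL1 hij
    have b1 : C₁ * θ⁻¹ ^ (k + 1) * L ^ (k + 1) * m ≤
        C₁ * (θ⁻¹ ^ (k + 1) * L ^ (D + k + 2) * m) := by
      have := hLp (show k + 1 ≤ D + k + 2 by omega)
      have h0 : 0 ≤ C₁ * θ⁻¹ ^ (k + 1) * m := by positivity
      linarith only [mul_le_mul_of_nonneg_left this h0]
    have hθθ : θ ^ 2 * θ⁻¹ ^ (k + 2 + 1) = θ⁻¹ ^ (k + 1) := by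
      rw [show k + 2 + 1 = 2 + (k + 1) by ring, pow_add, ← mul_assoc, ← mul_pow,
        mul_inv_cancel₀ hθ0.ne', one_pow, one_mul]
    have b2 : C₂ * θ ^ 2 * L * B = C₂ * C₃ * (θ⁻¹ ^ (k + 1) * L ^ (D + 1) * m +
        θ ^ (2 * (r + 1)) * L ^ (D + 1) * m ^ 2) := by
      rw [hB, ← hθθ]; ring
    have b3 : L ^ (D + 1) ≤ L ^ (D + k + 2) := hLp (by omega)
    have b4 : C₂ * C₃ * (θ⁻¹ ^ (k + 1) * L ^ (D + 1) * m +
        θ ^ (2 * (r + 1)) * L ^ (D + 1) * m ^ 2) ≤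
        C₂ * C₃ * (θ⁻¹ ^ (k + 1) * L ^ (D + k + 2) * m +
        θ ^ (2 * (r + 1)) * L ^ (D + k + 2) * m ^ 2) := by
      gcongr
    have b5 : C₂ * L ≤ C₂ * (θ⁻¹ ^ (k + 1) * L ^ (D + k + 2) * m) := by
      apply mul_le_mul_of_nonneg_left _ hC₂.le
      have h2 : 1 ≤ θ⁻¹ ^ (k + 1) := one_le_pow₀ hθi
      have h3 : L ≤ L ^ (D + k + 2) := le_self_pow₀ hL1 (by omega)
      have h4 : 0 ≤ L ^ (D + k + 2) := by positivity
      calc L = 1 * L * 1 := by ring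
        _ ≤ θ⁻¹ ^ (k + 1) * L ^ (D + k + 2) * m := by gcongr
    have b6 : 0 ≤ θ ^ (2 * (r + 1)) * L ^ (D + k + 2) * m ^ 2 := by positivity
    have b7 : 0 ≤ θ⁻¹ ^ (k + 1) * L ^ (D + k + 2) * m := by positivity
    rw [b2] at A'
    have A2 := h1.trans (add_le_add A A')
    refine A2.trans ?_
    clear h1 A A' A2 hsplit b2 hi hn hw
    generalize θ⁻¹ ^ (k + 1) * L ^ (D + k + 2) * m = U at *
    generalize θ ^ (2 * (r + 1)) * L ^ (D + k + 2) * m ^ 2 = V at *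
    have b8 : 0 ≤ (C₁ + C₂) * V := mul_nonneg (by positivity) b6
    linarith only [b1, b4, b5, b8]

end T7b

open T7b in
/-- T7c (from T7a, T7b by iteration) -/
theorem deficit_bound (k : ℕ) (ε : ℝ) (hε : 0 < ε) : ∃ C N₀ : ℝ, 0 < C ∧ 1 ≤ N₀ ∧
    ∀ (q : ℝ) (a M : ℕ) (s : ℕ × ℕ), 0 < q → N₀ ≤ q * a → q * (q * a) ^ 10 ≤ 1 → 1 ≤ q * M →
    M ≤ a →
    q ^ 2 * ∑ z ∈ sbox s M M ∩ box a a, PP (fun _ => q ^ 2) (box a a) (dfc k z) ≤
      C * (q * a) ^ ε * (q * M) := by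
  classical
  set e : ℝ := min 1 (ε / (2 * (k + 1))) with he
  have he0 : 0 < e := lt_min one_pos (by positivity)
  have he1 : e ≤ 1 := min_le_left _ _
  have he2 : e * (k + 1) ≤ ε / 2 := by
    have : e ≤ ε / (2 * (k + 1)) := min_le_right _ _
    rw [le_div_iff₀ (by positivity)] at this
    linarith only [this]
  obtain ⟨r, hr⟩ := exists_nat_gt (1 / e)
  rw [div_lt_iff₀ he0] at hr
  obtain ⟨C, N₀, D, hC, hN₀, hmain⟩ := iter_bound r k
  obtain ⟨C', hC', hlog⟩ := log_pow_le D (half_pos hε)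
  refine ⟨C * (C' + C'), N₀, by positivity, hN₀, ?_⟩
  intro q a M s hq hN hq10 hM hMa
  set N : ℝ := q * a with hNdef
  have hN1 : 1 ≤ N := hN₀.trans hN
  have hN0 : 0 < N := by linarith only [hN1]
  set θ : ℝ := N ^ (-e) with hθdef
  have hθ0 : 0 < θ := Real.rpow_pos_of_pos hN0 _
  have hθ1 : θ ≤ 1 := Real.rpow_le_one_of_one_le_of_nonpos hN1 (by linarith only [he0])
  have hθN : 1 / N ≤ θ := by
    rw [hθdef, one_div, ← Real.rpow_neg_one]
    exact Real.rpow_le_rpow_of_exponent_le hN1 (by linarith only [he1])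
  have h1 := hmain q θ a M hq hN hq10 hM hMa hθN hθ1 s
  refine h1.trans ?_
  rw [← hNdef]
  set L : ℝ := 1 + Real.log N with hL
  have hL1 : 1 ≤ L := by have := Real.log_nonneg hN1; linarith
  set m : ℝ := q * M with hm
  have hm0 : 0 < m := by linarith only [hM]
  have hmN : m ≤ N := by
    rw [hm, hNdef]
    exact mul_le_mul_of_nonneg_left (by exact_mod_cast hMa) hq.le
  have hLD := hlog N hN1
  rw [← hL] at hLD
  have e1 : θ⁻¹ ^ (k + 1) ≤ N ^ (ε / 2) := by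
    rw [hθdef, ← Real.rpow_neg hN0.le, neg_neg, ← Real.rpow_natCast, ← Real.rpow_mul hN0.le]
    apply Real.rpow_le_rpow_of_exponent_le hN1
    push_cast
    linarith only [he2]
  have e2 : θ ^ (2 * r) * m ≤ 1 := by
    have h2 : θ ^ (2 * r) ≤ N ^ (-1 : ℝ) := by
      rw [hθdef, ← Real.rpow_natCast, ← Real.rpow_mul hN0.le]
      apply Real.rpow_le_rpow_of_exponent_le hN1
      push_cast
      linarith only [hr]
    calc θ ^ (2 * r) * m ≤ N ^ (-1 : ℝ) * N := by gcongr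
      _ = 1 := by rw [Real.rpow_neg_one, inv_mul_cancel₀ hN0.ne']
  have e3 : N ^ (ε / 2) * N ^ (ε / 2) = N ^ ε := by
    rw [← Real.rpow_add hN0]; congr 1; ring
  have e4 : 1 ≤ N ^ (ε / 2) := Real.one_le_rpow hN1 (by linarith only [hε])
  have hLD0 : 0 ≤ L ^ D := by positivity
  have t1 : θ⁻¹ ^ (k + 1) * L ^ D * m ≤ C' * N ^ ε * m := by
    calc θ⁻¹ ^ (k + 1) * L ^ D * m ≤ N ^ (ε / 2) * (C' * N ^ (ε / 2)) * m := by gcongr
      _ = C' * (N ^ (ε / 2) * N ^ (ε / 2)) * m := by ring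
      _ = C' * N ^ ε * m := by rw [e3]
  have t2 : θ ^ (2 * r) * L ^ D * m ^ 2 ≤ C' * N ^ ε * m := by
    calc θ ^ (2 * r) * L ^ D * m ^ 2 = (θ ^ (2 * r) * m) * L ^ D * m := by ring
      _ ≤ 1 * (C' * N ^ (ε / 2)) * m := by gcongr
      _ = C' * (1 * N ^ (ε / 2)) * m := by ring
      _ ≤ C' * (N ^ (ε / 2) * N ^ (ε / 2)) * m := by gcongr
      _ = C' * N ^ ε * m := by rw [e3]
  calc C * (θ⁻¹ ^ (k + 1) * L ^ D * m + θ ^ (2 * r) * L ^ D * m ^ 2)
      ≤ C * (C' * N ^ ε * m + C' * N ^ ε * m) :=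
        mul_le_mul_of_nonneg_left (add_le_add t1 t2) hC.le
    _ = C * (C' + C') * N ^ ε * m := by ring

end Pool.Agent.LPP
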