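import Pool.Agent.Lib.MP_6b8a80_h32.T8a_Sym

set_option autoImplicit false

namespace Pool.Agent.LPP

open Finset

theorem goodConst {α : Type*} {p : ℝ} (h0 : 0 ≤ p) (h1 : p ≤ 1) (S : Finset α) :
    Good (fun _ : α => p) S := fun _ _ => ⟨h0, h1⟩

theorem box_sub_box {a b c d : ℕ} (h1 : a ≤ c) (h2 : b ≤ d) : box a b ⊆ box c d := by
  intro x hx
  simp only [box, mem_product, mem_Icc] at hx ⊢
  omega

theorem sbox_sub_box {s : ℕ × ℕ} {a b c d : ℕ} (h1 : s.1 + a ≤ c) (h2 : s.2 + b ≤ d) :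
    sbox s a b ⊆ box c d := by
  intro x hx
  simp only [box, sbox, mem_product, mem_Icc, mem_Ioc] at hx ⊢
  omega

theorem sbox_zero (a b : ℕ) : sbox (0, 0) a b = box a b := by
  ext x
  simp only [box, sbox, mem_product, mem_Icc, mem_Ioc]
  omega

/-- A function of `A ∩ T` has the same expectation over any larger box. -/
theorem EP_fun_inter {α : Type*} [DecidableEq α] (π : α → ℝ) {S T : Finset α} (hT : T ⊆ S)
    (f : Finset α → ℝ) (hf : ∀ A, f A = f (A ∩ T)) : EP π S f = EP π T f := by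
  rw [← EP_inter π hT f]
  exact EP_congr π S (fun A _ => hf A)

/-- horizontal shift of the box -/
theorem hor_shift {p : ℝ} (h0 : 0 ≤ p) (h1 : p ≤ 1) (a s : ℕ) (c : ℝ) :
    EP (fun _ => p) (box (a + s) a)
      (fun A => ((ell (A ∩ sbox (s, 0) a a) : ℝ) - ell (A ∩ box a a)) ^ 2) ≤
    4 * EP (fun _ => p) (box (a + s) a)
      (fun A => ((ell A : ℝ) - ell (A ∩ box a a) - c) ^ 2) := by
  have hG := goodConst h0 h1 (box (a + s) a)
  have hrefl : EP (fun _ => p) (box (a + s) a)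
      (fun A => ((ell A : ℝ) - ell (A ∩ sbox (s, 0) a a) - c) ^ 2) =
      EP (fun _ => p) (box (a + s) a)
      (fun A => ((ell A : ℝ) - ell (A ∩ box a a) - c) ^ 2) := by
    conv_lhs => rw [← box_map_rfl (a + s) a, EP_map]
    apply EP_congr
    intro A hA
    have hAB : A ∩ box a a ⊆ box (a + s) a := inter_subset_left.trans hA
    rw [ell_rfl (a + s) a hA, rfl_inter a s hA, ell_rfl (a + s) a hAB]
  have hstep : EP (fun _ => p) (box (a + s) a)
        (fun A => ((ell (A ∩ sbox (s, 0) a a) : ℝ) - ell (A ∩ box a a)) ^ 2) ≤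
      EP (fun _ => p) (box (a + s) a)
        (fun A => 2 * ((ell A : ℝ) - ell (A ∩ box a a) - c) ^ 2 +
          2 * ((ell A : ℝ) - ell (A ∩ sbox (s, 0) a a) - c) ^ 2) := by
    apply EP_mono hG
    intro A _
    nlinarith [sq_nonneg (((ell A : ℝ) - ell (A ∩ box a a) - c) +
      ((ell A : ℝ) - ell (A ∩ sbox (s, 0) a a) - c))]
  refine hstep.trans (le_of_eq ?_)
  rw [EP_add, EP_const_mul, EP_const_mul, hrefl]
  ring

theorem shift_sq_aux {p : ℝ} (h0 : 0 ≤ p) (h1 : p ≤ 1) (a M : ℕ) (s : ℕ × ℕ)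
    (hs1 : s.1 ≤ M) (hs2 : s.2 ≤ M) (c : ℕ → ℝ) :
    EP (fun _ => p) (box (a + M) (a + M))
      (fun A => ((ell (A ∩ sbox s a a) : ℝ) - ell (A ∩ box a a)) ^ 2) ≤
    8 * EP (fun _ => p) (box (a + s.1) a)
      (fun A => ((ell A : ℝ) - ell (A ∩ box a a) - c s.1) ^ 2) +
    8 * EP (fun _ => p) (box (a + s.2) a)
      (fun A => ((ell A : ℝ) - ell (A ∩ box a a) - c s.2) ^ 2) := by
  have hG := goodConst h0 h1 (box (a + M) (a + M))
  have e1 : EP (fun _ => p) (box (a + M) (a + M))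
      (fun A => ((ell (A ∩ sbox (s.1, 0) a a) : ℝ) - ell (A ∩ box a a)) ^ 2) =
      EP (fun _ => p) (box (a + s.1) a)
      (fun A => ((ell (A ∩ sbox (s.1, 0) a a) : ℝ) - ell (A ∩ box a a)) ^ 2) := by
    apply EP_fun_inter
    · exact box_sub_box (by omega) (by omega)
    · intro A
      rw [inter_assoc, inter_assoc,
        inter_eq_right.mpr (sbox_sub_box (s := (s.1, 0)) (a := a) (b := a) (by simp; omega) (by simp)),
        inter_eq_right.mpr (box_sub_box (by omega) le_rfl)]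
  have e2 : EP (fun _ => p) (box (a + M) (a + M))
      (fun A => ((ell (A ∩ sbox s a a) : ℝ) - ell (A ∩ sbox (s.1, 0) a a)) ^ 2) =
      EP (fun _ => p) (box (a + s.2) a)
      (fun A => ((ell (A ∩ sbox (s.2, 0) a a) : ℝ) - ell (A ∩ box a a)) ^ 2) := by
    rw [EP_fun_inter (T := sbox (s.1, 0) a (a + s.2))]
    · rw [EP_tr]
      have hb : box a (a + s.2) = (box (a + s.2) a).map swEmb := by
        rw [← sbox_zero, ← sbox_zero, sbox_sw]
      rw [hb, EP_map]
      apply EP_congr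
      intro A _
      have h3 : sbox s a a = (sbox (0, s.2) a a).map (trEmb (s.1, 0)) := by
        rw [← box_map_tr, ← box_map_tr, map_map]
        congr 1
      have h4 : sbox (s.1, 0) a a = (box a a).map (trEmb (s.1, 0)) := by
        rw [← box_map_tr]
      rw [h3, h4, ← map_inter, ← map_inter, ell_tr, ell_tr, map_inter_sw, ell_sw]
      rw [← sbox_zero a a, map_inter_sw, ell_sw]
    · exact sbox_sub_box (by simp; omega) (by simp; omega)
    · intro A
      have h5 : sbox (s.1, 0) a (a + s.2) ∩ sbox s a a = sbox s a a := by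
        rw [inter_eq_right]
        intro x hx
        simp only [sbox, mem_product, mem_Ioc] at hx ⊢
        omega
      have h6 : sbox (s.1, 0) a (a + s.2) ∩ sbox (s.1, 0) a a = sbox (s.1, 0) a a := by
        rw [inter_eq_right]
        intro x hx
        simp only [sbox, mem_product, mem_Ioc] at hx ⊢
        omega
      rw [inter_assoc, inter_assoc, h5, h6]
  have hstep : EP (fun _ => p) (box (a + M) (a + M))
        (fun A => ((ell (A ∩ sbox s a a) : ℝ) - ell (A ∩ box a a)) ^ 2) ≤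
      EP (fun _ => p) (box (a + M) (a + M))
        (fun A => 2 * ((ell (A ∩ sbox (s.1, 0) a a) : ℝ) - ell (A ∩ box a a)) ^ 2 +
          2 * ((ell (A ∩ sbox s a a) : ℝ) - ell (A ∩ sbox (s.1, 0) a a)) ^ 2) := by
    apply EP_mono hG
    intro A _
    nlinarith [sq_nonneg (((ell (A ∩ sbox (s.1, 0) a a) : ℝ) - ell (A ∩ box a a)) -
      ((ell (A ∩ sbox s a a) : ℝ) - ell (A ∩ sbox (s.1, 0) a a)))]
  refine hstep.trans ?_
  rw [EP_add, EP_const_mul, EP_const_mul, e1, e2]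
  have h3 := hor_shift h0 h1 a s.1 (c s.1)
  have h4 := hor_shift h0 h1 a s.2 (c s.2)
  linarith

/-- average over the shifts -/
noncomputable def Lt (a M : ℕ) (A : Finset (ℕ × ℕ)) : ℝ :=
  (∑ s ∈ range M ×ˢ range M, (ell (A ∩ sbox s a a) : ℝ)) / (M : ℝ) ^ 2

theorem avg_sq {M : ℕ} (hM : 1 ≤ M) (f : ℕ × ℕ → ℝ) :
    ((∑ s ∈ range M ×ˢ range M, f s) / (M : ℝ) ^ 2) ^ 2 ≤
      (∑ s ∈ range M ×ˢ range M, f s ^ 2) / (M : ℝ) ^ 2 := by
  have hM' : (0 : ℝ) < (M : ℝ) ^ 2 := by positivity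
  have h := sq_sum_le_card_mul_sum_sq (s := range M ×ˢ range M) (f := f)
  rw [card_product, card_range] at h
  rw [div_pow, div_le_div_iff₀ (by positivity) hM']
  push_cast at h
  nlinarith [h]

theorem Lt_sq {p : ℝ} (h0 : 0 ≤ p) (h1 : p ≤ 1) {a M : ℕ} (hM : 1 ≤ M) (B : ℝ)
    (hB : ∀ s ∈ range M ×ˢ range M, EP (fun _ => p) (box (a + M) (a + M))
      (fun A => ((ell (A ∩ sbox s a a) : ℝ) - ell (A ∩ box a a)) ^ 2) ≤ B) :
    VP (fun _ => p) (box (a + M) (a + M)) (fun A => (ell (A ∩ box a a) : ℝ) - Lt a M A) ≤ B := by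
  have hG := goodConst h0 h1 (box (a + M) (a + M))
  have hM' : (0 : ℝ) < (M : ℝ) ^ 2 := by positivity
  refine (VP_le_sq hG _ 0).trans ?_
  have hpt : ∀ A : Finset (ℕ × ℕ), ((ell (A ∩ box a a) : ℝ) - Lt a M A - 0) ^ 2 ≤
      (∑ s ∈ range M ×ˢ range M, ((ell (A ∩ sbox s a a) : ℝ) - ell (A ∩ box a a)) ^ 2) /
        (M : ℝ) ^ 2 := by
    intro A
    have h := avg_sq hM (fun s => (ell (A ∩ sbox s a a) : ℝ) - ell (A ∩ box a a))
    refine le_trans (le_of_eq ?_) h
    rw [sum_sub_distrib, sum_const, card_product, card_range, nsmul_eq_mul, Lt]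
    push_cast
    field_simp
    ring
  refine (EP_mono hG (fun A _ => hpt A)).trans ?_
  have : EP (fun _ => p) (box (a + M) (a + M)) (fun A =>
      (∑ s ∈ range M ×ˢ range M, ((ell (A ∩ sbox s a a) : ℝ) - ell (A ∩ box a a)) ^ 2) /
        (M : ℝ) ^ 2) = (1 / (M : ℝ) ^ 2) * ∑ s ∈ range M ×ˢ range M,
        EP (fun _ => p) (box (a + M) (a + M))
      (fun A => ((ell (A ∩ sbox s a a) : ℝ) - ell (A ∩ box a a)) ^ 2) := by
    rw [← EP_sum, ← EP_const_mul]
    apply EP_congr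
    intro A _
    ring
  rw [this]
  have h3 := sum_le_sum hB
  rw [sum_const, card_product, card_range, nsmul_eq_mul] at h3
  rw [one_div, inv_mul_le_iff₀ hM']
  push_cast at h3
  nlinarith [h3]

end Pool.Agent.LPP
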