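import Pool.Agent.Lib.MP_6b8a80_h32.T8b_Shift

set_option autoImplicit false

namespace Pool.Agent.LPP

open Finset

theorem below_mono (z : ℕ × ℕ) {A B : Finset (ℕ × ℕ)} (h : A ⊆ B) : below z A ⊆ below z B :=
  filter_subset_filter _ h

theorem above_mono (z : ℕ × ℕ) {A B : Finset (ℕ × ℕ)} (h : A ⊆ B) : above z A ⊆ above z B :=
  filter_subset_filter _ h

theorem below_union (z : ℕ × ℕ) (A B : Finset (ℕ × ℕ)) :
    below z (A ∪ B) = below z A ∪ below z B := filter_union _ _ _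

theorem above_union (z : ℕ × ℕ) (A B : Finset (ℕ × ℕ)) :
    above z (A ∪ B) = above z A ∪ above z B := filter_union _ _ _

theorem card_below_above (z : ℕ × ℕ) (V : Finset (ℕ × ℕ)) :
    #(below z V) + #(above z V) ≤ #V := by
  rw [← card_union_of_disjoint]
  · apply card_le_card
    exact union_subset (filter_subset _ _) (filter_subset _ _)
  · rw [disjoint_left]
    intro x hx hy
    simp only [below, above, mem_filter] at hx hy
    omega

section

variable (B : Finset (ℕ × ℕ))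

/-- last passage time in `B` -/
noncomputable def fB (A : Finset (ℕ × ℕ)) : ℝ := (ell (A ∩ B) : ℝ)

theorem Dx_fB_nonneg (x : ℕ × ℕ) (A : Finset (ℕ × ℕ)) : 0 ≤ Dx x (fB B) A := by
  unfold Dx fB
  rw [sub_nonneg, Nat.cast_le]
  apply ell_mono
  apply inter_subset_inter_right
  exact (erase_subset _ _).trans (subset_insert _ _)

theorem Dx_fB_of_not_mem {x : ℕ × ℕ} (hx : x ∉ B) (A : Finset (ℕ × ℕ)) : Dx x (fB B) A = 0 := by
  unfold Dx fB
  rw [sub_eq_zero, Nat.cast_inj]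
  congr 1
  ext y
  simp only [mem_inter, mem_insert, mem_erase]
  constructor
  · rintro ⟨h1, h2⟩
    refine ⟨⟨?_, ?_⟩, h2⟩
    · rintro rfl; exact hx h2
    · rcases h1 with rfl | h1
      · exact absurd h2 hx
      · exact h1
  · rintro ⟨⟨h1, h2⟩, h3⟩
    exact ⟨Or.inr h2, h3⟩

theorem insert_inter_eq {x : ℕ × ℕ} (hx : x ∈ B) (A : Finset (ℕ × ℕ)) :
    insert x A ∩ B = insert x (A.erase x ∩ B) := by
  ext y
  simp only [mem_inter, mem_insert, mem_erase]
  constructor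
  · rintro ⟨h1, h2⟩
    by_cases hy : y = x
    · exact Or.inl hy
    · exact Or.inr ⟨⟨hy, h1.resolve_left hy⟩, h2⟩
  · rintro (rfl | ⟨⟨h1, h2⟩, h3⟩)
    · exact ⟨Or.inl rfl, hx⟩
    · exact ⟨Or.inr h2, h3⟩

theorem Dx_fB_le_one (x : ℕ × ℕ) (A : Finset (ℕ × ℕ)) : Dx x (fB B) A ≤ 1 := by
  by_cases hx : x ∈ B
  · unfold Dx fB
    rw [insert_inter_eq B hx]
    have := ell_insert_le x (A.erase x ∩ B)
    have h2 : (ell (insert x (A.erase x ∩ B)) : ℝ) ≤ ell (A.erase x ∩ B) + 1 := by exact_mod_cast this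
    linarith
  · rw [Dx_fB_of_not_mem B hx]; exact zero_le_one

theorem dfc_of_Dx {x : ℕ × ℕ} {A U V : Finset (ℕ × ℕ)} (hV : V ⊆ U)
    (h : Dx x (fB B) ((A \ U) ∪ V) ≠ 0) : x ∈ B ∧ dfc (2 * #U + 1) x (A ∩ B) := by
  have hx : x ∈ B := by
    by_contra hx
    exact h (Dx_fB_of_not_mem B hx _)
  refine ⟨hx, ?_⟩
  set A' := (A \ U) ∪ V with hA'
  set E := A'.erase x ∩ B with hE
  have h1 : ell E ≠ ell (insert x E) := by
    intro h2
    apply h
    unfold Dx fB
    rw [insert_inter_eq B hx, ← hE, ← h2, sub_self]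
  have h2 := ell_insert_eq x E
  have h3 : ell E ≤ ell (below x E) + ell (above x E) := by
    rw [h2] at h1
    have : ell E < ell (below x E) + 1 + ell (above x E) := by
      by_contra h4
      push Not at h4
      exact h1 (max_eq_left h4).symm
    omega
  have h4 : ell (A ∩ B) ≤ ell E + (#U + 1) := by
    have hsub : A ∩ B ⊆ E ∪ insert x U := by
      intro y hy
      rw [mem_inter] at hy
      simp only [hE, hA', mem_union, mem_inter, mem_erase, mem_sdiff, mem_insert]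
      tauto
    calc ell (A ∩ B) ≤ ell (E ∪ insert x U) := ell_mono hsub
      _ ≤ ell E + ell (insert x U) := ell_union_le _ _
      _ ≤ ell E + (#U + 1) := by
        have := ell_le_card (insert x U)
        have := card_insert_le x U
        omega
  have hEsub : E ⊆ (A ∩ B) ∪ V := by
    intro y hy
    simp only [hE, hA', mem_union, mem_inter, mem_erase, mem_sdiff] at hy ⊢
    tauto
  have h5 : ell (below x E) ≤ ell (below x (A ∩ B)) + #(below x V) := by
    calc ell (below x E) ≤ ell (below x ((A ∩ B) ∪ V)) := ell_mono (below_mono x hEsub)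
      _ ≤ ell (below x (A ∩ B)) + ell (below x V) := by
        rw [below_union]; exact ell_union_le _ _
      _ ≤ _ := by have := ell_le_card (below x V); omega
  have h6 : ell (above x E) ≤ ell (above x (A ∩ B)) + #(above x V) := by
    calc ell (above x E) ≤ ell (above x ((A ∩ B) ∪ V)) := ell_mono (above_mono x hEsub)
      _ ≤ ell (above x (A ∩ B)) + ell (above x V) := by
        rw [above_union]; exact ell_union_le _ _
      _ ≤ _ := by have := ell_le_card (above x V); omega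
  have h7 := card_below_above x V
  have h8 := card_le_card hV
  unfold dfc
  omega

open Classical in
theorem abs_DU_fB_le (x : ℕ × ℕ) (U A : Finset (ℕ × ℕ)) :
    |DU U (Dx x (fB B)) A| ≤
      2 ^ #U * (if x ∈ B ∧ dfc (2 * #U + 1) x (A ∩ B) then 1 else 0) := by
  unfold DU
  calc |∑ V ∈ U.powerset, (-1 : ℝ) ^ #(U \ V) * Dx x (fB B) (A \ U ∪ V)|
      ≤ ∑ V ∈ U.powerset, |(-1 : ℝ) ^ #(U \ V) * Dx x (fB B) (A \ U ∪ V)| :=
        abs_sum_le_sum_abs _ _
    _ ≤ ∑ V ∈ U.powerset, (if x ∈ B ∧ dfc (2 * #U + 1) x (A ∩ B) then (1 : ℝ) else 0) := by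
        apply sum_le_sum
        intro V hV
        rw [abs_mul, abs_pow, abs_neg, abs_one, one_pow, one_mul]
        by_cases h0 : Dx x (fB B) (A \ U ∪ V) = 0
        · rw [h0, abs_zero]
          split_ifs <;> norm_num
        · rw [if_pos (dfc_of_Dx B (mem_powerset.mp hV) h0),
            abs_of_nonneg (Dx_fB_nonneg B x _)]
          exact Dx_fB_le_one B x _
    _ = _ := by
        rw [sum_const, card_powerset, nsmul_eq_mul]
        push_cast
        ring

end

theorem Lt_eq (a M : ℕ) (A : Finset (ℕ × ℕ)) :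
    Lt a M A = (∑ s ∈ range M ×ˢ range M, fB (sbox s a a) A) / (M : ℝ) ^ 2 := rfl

theorem Dx_Lt (a M : ℕ) (x : ℕ × ℕ) (A : Finset (ℕ × ℕ)) :
    Dx x (Lt a M) A = (∑ s ∈ range M ×ˢ range M, Dx x (fB (sbox s a a)) A) / (M : ℝ) ^ 2 := by
  unfold Dx
  rw [Lt_eq, Lt_eq, ← sub_div, ← sum_sub_distrib]

theorem DU_Dx_Lt (a M : ℕ) (x : ℕ × ℕ) (U A : Finset (ℕ × ℕ)) :
    DU U (Dx x (Lt a M)) A =
      (∑ s ∈ range M ×ˢ range M, DU U (Dx x (fB (sbox s a a))) A) / (M : ℝ) ^ 2 := by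
  unfold DU
  rw [sum_comm, sum_div]
  apply sum_congr rfl
  intro V _
  rw [Dx_Lt, ← mul_sum]
  ring

theorem Dx_Lt_nonneg (a M : ℕ) (x : ℕ × ℕ) (A : Finset (ℕ × ℕ)) : 0 ≤ Dx x (Lt a M) A := by
  rw [Dx_Lt]
  apply div_nonneg (sum_nonneg (fun s _ => Dx_fB_nonneg _ x A)) (by positivity)

theorem Dx_Lt_le_one (a M : ℕ) (x : ℕ × ℕ) (A : Finset (ℕ × ℕ)) : Dx x (Lt a M) A ≤ 1 := by
  rw [Dx_Lt]
  rcases Nat.eq_zero_or_pos M with rfl | hM
  · simp
  · have hM' : (0 : ℝ) < (M : ℝ) ^ 2 := by positivity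
    rw [div_le_one hM']
    calc ∑ s ∈ range M ×ˢ range M, Dx x (fB (sbox s a a)) A
        ≤ ∑ s ∈ range M ×ˢ range M, (1 : ℝ) := sum_le_sum (fun s _ => Dx_fB_le_one _ x A)
      _ = (M : ℝ) ^ 2 := by
        rw [sum_const, card_product, card_range, nsmul_eq_mul]; push_cast; ring

open Classical in
theorem PP_tr {p : ℝ} (K a : ℕ) (x s : ℕ × ℕ) (S : Finset (ℕ × ℕ)) (hS : sbox s a a ⊆ S) :
    EP (fun _ => p) S (fun A => if x ∈ sbox s a a ∧ dfc K x (A ∩ sbox s a a) then (1 : ℝ) else 0) =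
      if x ∈ sbox s a a then PP (fun _ => p) (box a a) (dfc K (x.1 - s.1, x.2 - s.2)) else 0 := by
  by_cases hx : x ∈ sbox s a a
  · rw [if_pos hx]
    simp only [hx, true_and]
    rw [EP_inter (fun _ => p) hS (fun A => if dfc K x A then (1 : ℝ) else 0), EP_tr]
    unfold PP
    apply EP_congr
    intro A _
    have h1 : dfc K x (A.map (trEmb s)) ↔ dfc K (x.1 - s.1, x.2 - s.2) A := by
      rw [← dfc_tr K s (x.1 - s.1, x.2 - s.2) A]
      simp only [sbox, mem_product, mem_Ioc] at hx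
      have : x = (x.1 - s.1 + s.1, x.2 - s.2 + s.2) := by
        ext <;> simp <;> omega
      rw [← this]
    simp only [h1]
  · rw [if_neg hx]
    simp only [hx, false_and, if_false]
    exact EP_const _ _ 0

/-- the influence bound -/
theorem infl_Lt {p : ℝ} (h0 : 0 ≤ p) (h1 : p ≤ 1) {a M : ℕ} (hM : 1 ≤ M) (x : ℕ × ℕ)
    (U : Finset (ℕ × ℕ)) (R : ℝ)
    (hR : ∀ σ : ℕ × ℕ, ∑ z ∈ sbox σ M M ∩ box a a,
      PP (fun _ => p) (box a a) (dfc (2 * #U + 1) z) ≤ R) :
    EP (fun _ => p) (box (a + M) (a + M)) (fun A => |DU U (Dx x (Lt a M)) A|) ≤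
      2 ^ #U * R / (M : ℝ) ^ 2 := by
  classical
  have hG := goodConst h0 h1 (box (a + M) (a + M))
  have hM' : (0 : ℝ) < (M : ℝ) ^ 2 := by positivity
  have hpt : ∀ A : Finset (ℕ × ℕ), |DU U (Dx x (Lt a M)) A| ≤
      (2 ^ #U / (M : ℝ) ^ 2) * ∑ s ∈ range M ×ˢ range M,
        (if x ∈ sbox s a a ∧ dfc (2 * #U + 1) x (A ∩ sbox s a a) then (1 : ℝ) else 0) := by
    intro A
    rw [DU_Dx_Lt, abs_div, abs_of_pos hM', div_mul_eq_mul_div]
    apply div_le_div_of_nonneg_right _ hM'.le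
    refine (abs_sum_le_sum_abs _ _).trans ?_
    rw [mul_sum]
    exact sum_le_sum (fun s _ => abs_DU_fB_le _ x U A)
  refine (EP_mono hG (fun A _ => hpt A)).trans ?_
  rw [EP_const_mul, EP_sum]
  have hsum : ∑ s ∈ range M ×ˢ range M, EP (fun _ => p) (box (a + M) (a + M)) (fun A =>
      if x ∈ sbox s a a ∧ dfc (2 * #U + 1) x (A ∩ sbox s a a) then (1 : ℝ) else 0) ≤ R := by
    refine le_trans ?_ (hR (x.1 - M, x.2 - M))
    have hterm : ∀ s ∈ range M ×ˢ range M, EP (fun _ => p) (box (a + M) (a + M)) (fun A =>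
        if x ∈ sbox s a a ∧ dfc (2 * #U + 1) x (A ∩ sbox s a a) then (1 : ℝ) else 0) =
        if x ∈ sbox s a a then
          PP (fun _ => p) (box a a) (dfc (2 * #U + 1) (x.1 - s.1, x.2 - s.2)) else 0 := by
      intro s hs
      rw [mem_product, mem_range, mem_range] at hs
      exact PP_tr _ a x s _ (sbox_sub_box (by omega) (by omega))
    rw [sum_congr rfl hterm, ← sum_filter]
    have hinj : Set.InjOn (fun s : ℕ × ℕ => (x.1 - s.1, x.2 - s.2))
        (((range M ×ˢ range M).filter (fun s => x ∈ sbox s a a) : Finset (ℕ × ℕ)) : Set (ℕ × ℕ)) := by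
      intro s hs t ht hst
      simp only [coe_filter, mem_product, mem_range, sbox, mem_Ioc, Set.mem_setOf_eq] at hs ht
      simp only [Prod.mk.injEq] at hst
      exact Prod.ext (by omega) (by omega)
    rw [← sum_image (f := fun z => PP (fun _ => p) (box a a) (dfc (2 * #U + 1) z)) hinj]
    apply sum_le_sum_of_subset_of_nonneg
    · intro z hz
      simp only [mem_image, mem_filter, mem_product, mem_range, sbox, mem_Ioc] at hz
      obtain ⟨s, ⟨⟨h2, h3⟩, ⟨h4, h5⟩, h6, h7⟩, rfl⟩ := hz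
      simp only [sbox, box, mem_inter, mem_product, mem_Ioc, mem_Icc]
      omega
    · intro z _ _
      exact PP_nonneg (goodConst h0 h1 _) _
  have h2U : (0 : ℝ) ≤ 2 ^ #U / (M : ℝ) ^ 2 := by positivity
  calc (2 ^ #U / (M : ℝ) ^ 2) * _ ≤ (2 ^ #U / (M : ℝ) ^ 2) * R := by
        apply mul_le_mul_of_nonneg_left _ h2U
        exact hsum
    _ = _ := by ring

end Pool.Agent.LPP
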