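import Pool.Agent.Lib.MP_6b8a80_h32.T8c_Infl
import Pool.Agent.Lib.MP_6b8a80_h32.T5a_IncSq
import Pool.Agent.Lib.MP_6b8a80_h32.T5a_Mean
import Pool.Agent.Lib.MP_6b8a80_h32.T6b_main
import Pool.Agent.Lib.MP_6b8a80_h32.T7c

set_option autoImplicit false

namespace Pool.Agent.LPP

open Finset

theorem p_mul_EP_Dx {α : Type*} [DecidableEq α] (p : ℝ) {S : Finset α} {x : α} (hx : x ∈ S)
    (f : Finset α → ℝ) :
    p * EP (fun _ => p) S (Dx x f) =
      EP (fun _ => p) S (fun A => if x ∈ A then f A - f (A.erase x) else 0) := by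
  have h := EP_mecke (fun _ : α => p) (S := S) (X := {x}) (by simpa using hx)
    (fun A => f A - f (A.erase x))
  simp only [singleton_subset_iff, prod_singleton] at h
  rw [h]
  congr 1
  apply EP_congr
  intro A _
  unfold Dx
  rw [union_comm, ← insert_eq, erase_insert_eq_erase]

theorem sum_piv (B A : Finset (ℕ × ℕ)) (S : Finset (ℕ × ℕ)) :
    ∑ x ∈ S, (if x ∈ A then fB B A - fB B (A.erase x) else 0) ≤ fB B A := by
  have hle : ∀ x, ell ((A ∩ B).erase x) ≤ ell (A ∩ B) := fun x => ell_mono (erase_subset _ _)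
  have h1 : ∀ x ∈ S, (if x ∈ A then fB B A - fB B (A.erase x) else 0) ≤
      if x ∈ A ∩ B then ((ell (A ∩ B) - ell ((A ∩ B).erase x) : ℕ) : ℝ) else 0 := by
    intro x _
    by_cases hxA : x ∈ A
    · rw [if_pos hxA]
      unfold fB
      have he : A.erase x ∩ B = (A ∩ B).erase x := by
        ext y; simp only [mem_inter, mem_erase]; tauto
      rw [he]
      by_cases hxB : x ∈ B
      · rw [if_pos (mem_inter.mpr ⟨hxA, hxB⟩), Nat.cast_sub (hle x)]
      · rw [if_neg (fun h => hxB (mem_inter.mp h).2), erase_eq_of_notMem, sub_self]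
        exact fun h => hxB (mem_inter.mp h).2
    · rw [if_neg hxA, if_neg (fun h => hxA (mem_inter.mp h).1)]
  refine (sum_le_sum h1).trans ?_
  rw [← sum_filter]
  have h2 : ∑ x ∈ S.filter (fun x => x ∈ A ∩ B), ((ell (A ∩ B) - ell ((A ∩ B).erase x) : ℕ) : ℝ) ≤
      ∑ x ∈ A ∩ B, ((ell (A ∩ B) - ell ((A ∩ B).erase x) : ℕ) : ℝ) := by
    apply sum_le_sum_of_subset_of_nonneg
    · intro x hx
      exact (mem_filter.mp hx).2
    · intro x _ _
      positivity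
  refine h2.trans ?_
  unfold fB
  exact_mod_cast sum_pivotal_le (A ∩ B)

theorem sum_infl {p : ℝ} (h0 : 0 ≤ p) (h1 : p ≤ 1) (S B : Finset (ℕ × ℕ)) :
    ∑ x ∈ S, p * EP (fun _ => p) S (Dx x (fB B)) ≤ EP (fun _ => p) S (fB B) := by
  have h2 : ∑ x ∈ S, p * EP (fun _ => p) S (Dx x (fB B)) =
      EP (fun _ => p) S (fun A => ∑ x ∈ S, (if x ∈ A then fB B A - fB B (A.erase x) else 0)) := by
    rw [EP_sum]
    exact sum_congr rfl (fun x hx => p_mul_EP_Dx p hx _)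
  rw [h2]
  exact EP_mono (goodConst h0 h1 S) (fun A _ => sum_piv B A S)

theorem EP_fB {p : ℝ} (s : ℕ × ℕ) (a : ℕ) (S : Finset (ℕ × ℕ)) (hS : sbox s a a ⊆ S) :
    EP (fun _ => p) S (fB (sbox s a a)) = EP (fun _ => p) (box a a) (fun A => (ell A : ℝ)) := by
  have : EP (fun _ => p) S (fB (sbox s a a)) =
      EP (fun _ => p) (sbox s a a) (fun A => (ell A : ℝ)) := by
    rw [← EP_inter (fun _ => p) hS]
    rfl
  rw [this, EP_tr]
  exact EP_congr _ _ (fun A _ => by rw [ell_tr])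

theorem sum_infl_Lt {q : ℝ} (hq : 0 < q) (hq1 : q ≤ 1) {a M : ℕ} (hM : 1 ≤ M) :
    ∑ x ∈ box (a + M) (a + M), q ^ 2 * (1 - q ^ 2) *
      EP (fun _ => q ^ 2) (box (a + M) (a + M)) (fun A => |Dx x (Lt a M) A|) ≤ 2 * (q * a) := by
  have hp0 : (0 : ℝ) ≤ q ^ 2 := by positivity
  have hp1 : q ^ 2 ≤ 1 := by nlinarith only [hq1, hq]
  have hG := goodConst hp0 hp1 (box (a + M) (a + M))
  have hM' : (0 : ℝ) < (M : ℝ) ^ 2 := by positivity
  have h1 : ∀ x ∈ box (a + M) (a + M), q ^ 2 * (1 - q ^ 2) *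
      EP (fun _ => q ^ 2) (box (a + M) (a + M)) (fun A => |Dx x (Lt a M) A|) ≤
      (1 / (M : ℝ) ^ 2) * ∑ s ∈ range M ×ˢ range M,
        q ^ 2 * EP (fun _ => q ^ 2) (box (a + M) (a + M)) (Dx x (fB (sbox s a a))) := by
    intro x _
    have he : EP (fun _ => q ^ 2) (box (a + M) (a + M)) (fun A => |Dx x (Lt a M) A|) =
        (1 / (M : ℝ) ^ 2) * ∑ s ∈ range M ×ˢ range M,
          EP (fun _ => q ^ 2) (box (a + M) (a + M)) (Dx x (fB (sbox s a a))) := by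
      rw [← EP_sum, ← EP_const_mul]
      apply EP_congr
      intro A _
      rw [abs_of_nonneg (Dx_Lt_nonneg a M x A), Dx_Lt]
      ring
    have hn : 0 ≤ EP (fun _ => q ^ 2) (box (a + M) (a + M)) (fun A => |Dx x (Lt a M) A|) :=
      EP_nonneg hG (fun A _ => abs_nonneg _)
    calc q ^ 2 * (1 - q ^ 2) *
        EP (fun _ => q ^ 2) (box (a + M) (a + M)) (fun A => |Dx x (Lt a M) A|)
        ≤ q ^ 2 * EP (fun _ => q ^ 2) (box (a + M) (a + M)) (fun A => |Dx x (Lt a M) A|) := by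
          apply mul_le_mul_of_nonneg_right _ hn
          nlinarith only []
      _ = _ := by rw [he, ← mul_sum]; ring
  refine (sum_le_sum h1).trans ?_
  rw [← mul_sum, sum_comm]
  have h2 : ∑ s ∈ range M ×ˢ range M, ∑ x ∈ box (a + M) (a + M),
      q ^ 2 * EP (fun _ => q ^ 2) (box (a + M) (a + M)) (Dx x (fB (sbox s a a))) ≤
      ∑ s ∈ range M ×ˢ range M, 2 * (q * a) := by
    apply sum_le_sum
    intro s hs
    rw [mem_product, mem_range, mem_range] at hs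
    refine (sum_infl hp0 hp1 _ _).trans ?_
    rw [EP_fB s a _ (sbox_sub_box (by omega) (by omega))]
    refine (mean_le hq hq1 a a).trans (le_of_eq (by ring))
  rw [sum_const, card_product, card_range, nsmul_eq_mul] at h2
  rw [one_div, inv_mul_le_iff₀ hM']
  push_cast at h2
  nlinarith only [h2]

theorem dfc_mono {k l : ℕ} (h : k ≤ l) (z : ℕ × ℕ) (A : Finset (ℕ × ℕ)) (hd : dfc k z A) :
    dfc l z A := by
  unfold dfc at *
  omega

/-- the bound for given parameters, before choosing `M` -/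
theorem level_bound8 (k : ℕ) : ∃ C₁ C₂ C₄ N₀ : ℝ, 0 < C₁ ∧ 0 < C₂ ∧ 0 < C₄ ∧ 1 ≤ N₀ ∧
    ∀ (q : ℝ) (a M : ℕ), 0 < q → N₀ ≤ q * a → q * (q * a) ^ 10 ≤ 1 → 1 ≤ q * M → M ≤ a →
    q * M ≤ (q * a) ^ ((2 : ℝ) / 3) / 16 →
    C₂ * (q * a) ^ ((1 : ℝ) / 16) / (q * M) ≤ 1 →
    Wk (q ^ 2) (box a a) (k + 1) (fun A => (ell A : ℝ)) ≤
      2 * (C₁ * (C₂ * (q * a) ^ ((1 : ℝ) / 16) / (q * M)) ^ ((2 : ℝ) / 3) * (2 * (q * a))) +
      2 * (C₄ * (q * M) * (1 + Real.log (q * a))) := by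
  obtain ⟨C₁, hC₁, hhc⟩ := hc_main (α := ℕ × ℕ) k
  obtain ⟨C₂, N₂, hC₂, hN₂, hdef⟩ := deficit_bound (2 * k + 1) (1 / 16) (by norm_num)
  obtain ⟨C₄, N₄, hC₄, hN₄, hinc⟩ := inc_sq
  refine ⟨C₁, 2 ^ k * C₂, 16 * C₄, max N₂ N₄, hC₁, by positivity, by positivity,
    le_max_of_le_left hN₂, ?_⟩
  intro q a M hq hN hsm hqM hMa hqM2 hκ
  have hN2 : N₂ ≤ q * a := le_trans (le_max_left _ _) hN
  have hN4 : N₄ ≤ q * a := le_trans (le_max_right _ _) hN
  have hN1 : 1 ≤ q * a := le_trans hN₂ hN2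
  have hq1 : q ≤ 1 := by
    have h1 : (1 : ℝ) ≤ (q * a) ^ 10 := one_le_pow₀ hN1
    nlinarith only [hsm, hq, h1]
  have hp0 : (0 : ℝ) ≤ q ^ 2 := by positivity
  have hp1 : q ^ 2 ≤ 1 := by nlinarith only [hq1, hq]
  have hM : 1 ≤ M := by
    rcases Nat.eq_zero_or_pos M with rfl | h
    · norm_num at hqM
    · exact h
  have hM' : (0 : ℝ) < (M : ℝ) := by positivity
  have hlog : 0 ≤ Real.log (q * a) := Real.log_nonneg hN1
  have hN0 : 0 < q * a := by linarith only [hN₂, hN2]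
  set S := box (a + M) (a + M) with hS
  have hbS : box a a ⊆ S := box_sub_box (by omega) (by omega)
  -- step 1, 2
  have e1 : Wk (q ^ 2) (box a a) (k + 1) (fun A => (ell A : ℝ)) =
      Wk (q ^ 2) S (k + 1) (fun A => (ell (A ∩ box a a) : ℝ)) :=
    (Wk_inter (q ^ 2) hbS (k + 1) (fun A => (ell A : ℝ))).symm
  rw [e1]
  refine (Wk_le_add hp0 hp1 S (Nat.succ_le_succ (Nat.zero_le k)) _ (Lt a M)).trans ?_
  apply add_le_add
  · apply mul_le_mul_of_nonneg_left _ (by norm_num)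
    have h := hhc (q ^ 2) (2 ^ k * C₂ * (q * a) ^ ((1 : ℝ) / 16) / (q * M)) S (Lt a M) hp0 hp1
      (by positivity) hκ
      (by
        intro x _ A _
        rw [abs_of_nonneg (Dx_Lt_nonneg a M x A)]
        exact Dx_Lt_le_one a M x A)
      (by
        intro x _ U _ hU
        have hb := infl_Lt (p := q ^ 2) hp0 hp1 (a := a) hM x U
          (C₂ * (q * a) ^ ((1 : ℝ) / 16) * (q * M) / q ^ 2)
          (by
            intro σ
            rw [le_div_iff₀ (by positivity), mul_comm]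
            refine le_trans ?_ (hdef q a M σ hq hN2 hsm hqM hMa)
            apply mul_le_mul_of_nonneg_left _ hp0
            apply sum_le_sum
            intro z _
            exact PP_mono (goodConst hp0 hp1 _)
              (fun A _ hd => dfc_mono (by omega) z A hd))
        refine hb.trans ?_
        have h2 : (2 : ℝ) ^ #U ≤ 2 ^ k := pow_le_pow_right₀ (by norm_num) hU
        have h3 : 0 ≤ C₂ * (q * a) ^ ((1 : ℝ) / 16) / (q * M) := by positivity
        calc 2 ^ #U * (C₂ * (q * a) ^ ((1 : ℝ) / 16) * (q * M) / q ^ 2) / (M : ℝ) ^ 2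
            = 2 ^ #U * (C₂ * (q * a) ^ ((1 : ℝ) / 16) / (q * M)) := by
              field_simp
          _ ≤ 2 ^ k * (C₂ * (q * a) ^ ((1 : ℝ) / 16) / (q * M)) :=
              mul_le_mul_of_nonneg_right h2 h3
          _ = _ := by ring)
    refine h.trans ?_
    apply mul_le_mul_of_nonneg_left (sum_infl_Lt hq hq1 hM) (by positivity)
  · apply mul_le_mul_of_nonneg_left _ (by norm_num)
    apply Lt_sq hp0 hp1 hM
    intro s hs
    rw [mem_product, mem_range, mem_range] at hs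
    have h3 := shift_sq_aux hp0 hp1 a M s hs.1.le hs.2.le (fun s => s * (q / (1 + q)))
    refine h3.trans ?_
    have hbd : ∀ s : ℕ, s < M → EP (fun _ => q ^ 2) (box (a + s) a)
        (fun A => ((ell A : ℝ) - ell (A ∩ box a a) - s * (q / (1 + q))) ^ 2) ≤
        C₄ * (q * M) * (1 + Real.log (q * a)) := by
      intro s hs
      have hsM : (s : ℝ) ≤ M := by exact_mod_cast hs.le
      have h5 : q * s ≤ q * M := mul_le_mul_of_nonneg_left hsM hq.le
      refine (hinc q a s hq hN4 hsm (h5.trans hqM2)).trans ?_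
      have h6 : max 1 (q * s) ≤ q * M := max_le hqM h5
      gcongr
    have := hbd s.1 hs.1
    have := hbd s.2 hs.2
    linarith

/-- T8 -/
theorem levels_small (k : ℕ) (hk : 1 ≤ k) : ∃ N₀ : ℝ, 1 ≤ N₀ ∧ ∀ (q : ℝ) (a : ℕ), 0 < q →
    N₀ ≤ q * a → q * (q * a) ^ 10 ≤ 1 →
    Wk (q ^ 2) (box a a) k (fun A => (ell A : ℝ)) ≤ (q * a) ^ ((13 : ℝ) / 20) := by
  obtain ⟨k, rfl⟩ : ∃ k', k = k' + 1 := ⟨k - 1, by omega⟩
  obtain ⟨C₁, C₂, C₄, N₀, hC₁, hC₂, hC₄, hN₀, hmain⟩ := level_bound8 k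
  -- asymptotics
  have hlo : ∀ C : ℝ, ∀ᶠ N : ℝ in Filter.atTop, C * (1 + Real.log N) ≤ N ^ ((1 : ℝ) / 40) := by
    intro C
    have h1 : (fun N : ℝ => C * (1 + Real.log N)) =o[Filter.atTop] (fun N : ℝ => N ^ ((1 : ℝ) / 40)) := by
      apply Asymptotics.IsLittleO.const_mul_left
      apply Asymptotics.IsLittleO.add
      · apply (Asymptotics.isLittleO_const_left).mpr
        right
        exact (tendsto_norm_atTop_atTop).comp (tendsto_rpow_atTop (by norm_num))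
      · exact isLittleO_log_rpow_atTop (by norm_num)
    filter_upwards [h1.bound (c := 1) one_pos, Filter.eventually_ge_atTop (0 : ℝ)] with N hN hN0
    rw [one_mul, Real.norm_eq_abs, Real.norm_eq_abs, abs_of_nonneg (Real.rpow_nonneg hN0 _)] at hN
    exact (le_abs_self _).trans hN
  have hpow : ∀ C e : ℝ, 0 < e → ∀ᶠ N : ℝ in Filter.atTop, C ≤ N ^ e := fun C e he =>
    (tendsto_rpow_atTop he).eventually_ge_atTop C
  set D : ℝ := 4 * C₁ * (2 * C₂) ^ ((2 : ℝ) / 3) + 2 * C₄ with hD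
  have hDpos : 0 < D := by positivity
  obtain ⟨N₁, hN₁⟩ := Filter.eventually_atTop.mp
    ((hlo D).and ((hpow 16 (1 / 24) (by norm_num)).and ((hpow (2 * C₂) (9 / 16) (by norm_num)).and
      ((hpow 2 (5 / 8) (by norm_num)).and (Filter.eventually_ge_atTop (max N₀ 2))))))
  refine ⟨max N₁ 1, le_max_right _ _, ?_⟩
  intro q a hq hN hsm
  set N : ℝ := q * a with hNdef
  obtain ⟨h1, h2, h3, h4, h5⟩ := hN₁ N (le_trans (le_max_left _ _) hN)
  have hNN₀ : N₀ ≤ N := le_trans (le_max_left _ _) h5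
  have hN2 : 2 ≤ N := le_trans (le_max_right _ _) h5
  have hNpos : 0 < N := by linarith only [hN2]
  have hN1 : 1 ≤ N := by linarith only [hN2]
  have hq1 : q ≤ 1 / 2 := by
    have h6 : (2 : ℝ) ≤ N ^ 10 := by
      calc (2 : ℝ) ≤ 2 ^ 10 := by norm_num
        _ ≤ N ^ 10 := pow_le_pow_left₀ (by norm_num) hN2 10
    nlinarith only [hsm, hq, h6]
  set M : ℕ := ⌊N ^ ((5 : ℝ) / 8) / q⌋₊ with hMdef
  have hqM_le : q * M ≤ N ^ ((5 : ℝ) / 8) := by
    have := Nat.floor_le (a := N ^ ((5 : ℝ) / 8) / q) (by positivity)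
    rw [← hMdef, le_div_iff₀ hq] at this
    linarith only [this]
  have hqM_ge : N ^ ((5 : ℝ) / 8) / 2 ≤ q * M := by
    have := Nat.lt_floor_add_one (N ^ ((5 : ℝ) / 8) / q)
    rw [← hMdef, div_lt_iff₀ hq] at this
    nlinarith only [hq, h4, hq1, this]
  have hqM1 : 1 ≤ q * M := by linarith only [h4, hqM_ge]
  have hMa : M ≤ a := by
    have h6 : N ^ ((5 : ℝ) / 8) ≤ N := by
      calc N ^ ((5 : ℝ) / 8) ≤ N ^ (1 : ℝ) :=
            Real.rpow_le_rpow_of_exponent_le hN1 (by norm_num)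
        _ = N := Real.rpow_one N
    have h7 : q * M ≤ q * a := hqM_le.trans h6
    have h8 : (M : ℝ) ≤ a := le_of_mul_le_mul_left h7 hq
    exact_mod_cast h8
  have hqM23 : q * M ≤ N ^ ((2 : ℝ) / 3) / 16 := by
    refine hqM_le.trans ?_
    rw [le_div_iff₀ (by norm_num)]
    calc N ^ ((5 : ℝ) / 8) * 16 ≤ N ^ ((5 : ℝ) / 8) * N ^ ((1 : ℝ) / 24) :=
          mul_le_mul_of_nonneg_left h2 (by positivity)
      _ = N ^ ((2 : ℝ) / 3) := by
          rw [← Real.rpow_add hNpos]; norm_num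
  have hκ0 : C₂ * N ^ ((1 : ℝ) / 16) / (q * M) ≤ 2 * C₂ * N ^ (-((9 : ℝ) / 16)) := by
    rw [div_le_iff₀ (by linarith only [hq, h4, hq1, hqM_ge])]
    calc C₂ * N ^ ((1 : ℝ) / 16) = 2 * C₂ * N ^ (-((9 : ℝ) / 16)) * (N ^ ((5 : ℝ) / 8) / 2) := by
          have : N ^ ((1 : ℝ) / 16) = N ^ (-((9 : ℝ) / 16)) * N ^ ((5 : ℝ) / 8) := by
            rw [← Real.rpow_add hNpos]; norm_num
          rw [this]; ring
      _ ≤ 2 * C₂ * N ^ (-((9 : ℝ) / 16)) * (q * M) :=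
          mul_le_mul_of_nonneg_left hqM_ge (by positivity)
  have hκ1 : C₂ * N ^ ((1 : ℝ) / 16) / (q * M) ≤ 1 := by
    refine hκ0.trans ?_
    rw [Real.rpow_neg hNpos.le, ← div_eq_mul_inv, div_le_one (by positivity)]
    exact h3
  have hb := hmain q a M hq hNN₀ hsm hqM1 hMa hqM23 hκ1
  refine hb.trans ?_
  rw [← hNdef]
  have hlogN : 0 ≤ Real.log N := Real.log_nonneg hN1
  have hterm1 : (C₂ * N ^ ((1 : ℝ) / 16) / (q * M)) ^ ((2 : ℝ) / 3) * N ≤
      (2 * C₂) ^ ((2 : ℝ) / 3) * N ^ ((5 : ℝ) / 8) := by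
    have h6 : (C₂ * N ^ ((1 : ℝ) / 16) / (q * M)) ^ ((2 : ℝ) / 3) ≤
        (2 * C₂ * N ^ (-((9 : ℝ) / 16))) ^ ((2 : ℝ) / 3) :=
      Real.rpow_le_rpow (by positivity) hκ0 (by norm_num)
    have h7 : (2 * C₂ * N ^ (-((9 : ℝ) / 16))) ^ ((2 : ℝ) / 3) =
        (2 * C₂) ^ ((2 : ℝ) / 3) * N ^ (-((3 : ℝ) / 8)) := by
      rw [Real.mul_rpow (by positivity) (by positivity), ← Real.rpow_mul hNpos.le]
      norm_num
    calc _ ≤ (2 * C₂ * N ^ (-((9 : ℝ) / 16))) ^ ((2 : ℝ) / 3) * N :=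
          mul_le_mul_of_nonneg_right h6 hNpos.le
      _ = (2 * C₂) ^ ((2 : ℝ) / 3) * (N ^ (-((3 : ℝ) / 8)) * N ^ (1 : ℝ)) := by
          rw [h7, Real.rpow_one]; ring
      _ = _ := by rw [← Real.rpow_add hNpos]; norm_num
  calc 2 * (C₁ * (C₂ * N ^ ((1 : ℝ) / 16) / (q * M)) ^ ((2 : ℝ) / 3) * (2 * N)) +
      2 * (C₄ * (q * M) * (1 + Real.log N))
      = 4 * C₁ * ((C₂ * N ^ ((1 : ℝ) / 16) / (q * M)) ^ ((2 : ℝ) / 3) * N) +
        2 * C₄ * ((q * M) * (1 + Real.log N)) := by ring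
    _ ≤ 4 * C₁ * ((2 * C₂) ^ ((2 : ℝ) / 3) * N ^ ((5 : ℝ) / 8)) +
        2 * C₄ * (N ^ ((5 : ℝ) / 8) * (1 + Real.log N)) := by
        apply add_le_add
        · exact mul_le_mul_of_nonneg_left hterm1 (by positivity)
        · apply mul_le_mul_of_nonneg_left _ (by positivity)
          exact mul_le_mul_of_nonneg_right hqM_le (by linarith only [hq, hq1, hlogN])
    _ ≤ D * (1 + Real.log N) * N ^ ((5 : ℝ) / 8) := by
        have h9 : 0 ≤ 4 * C₁ * (2 * C₂) ^ ((2 : ℝ) / 3) * N ^ ((5 : ℝ) / 8) * Real.log N := by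
          positivity
        rw [hD]
        nlinarith only [h9]
    _ ≤ N ^ ((1 : ℝ) / 40) * N ^ ((5 : ℝ) / 8) :=
        mul_le_mul_of_nonneg_right h1 (by positivity)
    _ = N ^ ((13 : ℝ) / 20) := by
        rw [← Real.rpow_add hNpos]; norm_num

end Pool.Agent.LPP
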