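import Pool.Agent.Lib.MP_6b8a80_h32.DefsP

/-!
# MP_6b8a80, task T9a: exact law of the pair of occupation sets
-/

set_option autoImplicit false

namespace Pool.Agent.LPP

open Finset MeasureTheory ProbabilityTheory

namespace T9

/-! ### Recursion for `EJ` -/

section EJ

variable {α : Type*} [DecidableEq α]

theorem EJ_empty (p ρ : ℝ) (F : Finset α → Finset α → ℝ) : EJ p ρ ∅ F = F ∅ ∅ := by
  simp [EJ]

theorem EJ_insert (p ρ : ℝ) {S : Finset α} {i : α} (hi : i ∉ S)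
    (F : Finset α → Finset α → ℝ) :
    EJ p ρ (insert i S) F =
      (p ^ 2 + ρ * (p * (1 - p))) * EJ p ρ S (fun A B => F (insert i A) (insert i B)) +
      ((1 - ρ) * (p * (1 - p))) * EJ p ρ S (fun A B => F (insert i A) B) +
      ((1 - ρ) * (p * (1 - p))) * EJ p ρ S (fun A B => F A (insert i B)) +
      ((1 - p) ^ 2 + ρ * (p * (1 - p))) * EJ p ρ S F := by
  classical
  have key : ∀ A ∈ S.powerset, ∀ B ∈ S.powerset,
      ((∏ _i ∈ A ∩ B, (p ^ 2 + ρ * (p * (1 - p)))) *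
        (∏ _i ∈ (A \ B) ∪ (B \ A), ((1 - ρ) * (p * (1 - p)))) *
        (∏ _i ∈ (insert i S) \ (A ∪ B), ((1 - p) ^ 2 + ρ * (p * (1 - p))))) * F A B +
      ((∏ _i ∈ A ∩ (insert i B), (p ^ 2 + ρ * (p * (1 - p)))) *
        (∏ _i ∈ (A \ (insert i B)) ∪ ((insert i B) \ A), ((1 - ρ) * (p * (1 - p)))) *
        (∏ _i ∈ (insert i S) \ (A ∪ (insert i B)), ((1 - p) ^ 2 + ρ * (p * (1 - p))))) *
          F A (insert i B) +
      (((∏ _i ∈ (insert i A) ∩ B, (p ^ 2 + ρ * (p * (1 - p)))) *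
        (∏ _i ∈ ((insert i A) \ B) ∪ (B \ (insert i A)), ((1 - ρ) * (p * (1 - p)))) *
        (∏ _i ∈ (insert i S) \ ((insert i A) ∪ B), ((1 - p) ^ 2 + ρ * (p * (1 - p))))) *
          F (insert i A) B +
      ((∏ _i ∈ (insert i A) ∩ (insert i B), (p ^ 2 + ρ * (p * (1 - p)))) *
        (∏ _i ∈ ((insert i A) \ (insert i B)) ∪ ((insert i B) \ (insert i A)),
          ((1 - ρ) * (p * (1 - p)))) *
        (∏ _i ∈ (insert i S) \ ((insert i A) ∪ (insert i B)),
          ((1 - p) ^ 2 + ρ * (p * (1 - p))))) *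
          F (insert i A) (insert i B)) =
      ((∏ _i ∈ A ∩ B, (p ^ 2 + ρ * (p * (1 - p)))) *
        (∏ _i ∈ (A \ B) ∪ (B \ A), ((1 - ρ) * (p * (1 - p)))) *
        (∏ _i ∈ S \ (A ∪ B), ((1 - p) ^ 2 + ρ * (p * (1 - p))))) *
      ((p ^ 2 + ρ * (p * (1 - p))) * F (insert i A) (insert i B) +
       ((1 - ρ) * (p * (1 - p))) * F (insert i A) B +
       ((1 - ρ) * (p * (1 - p))) * F A (insert i B) +
       ((1 - p) ^ 2 + ρ * (p * (1 - p))) * F A B) := by
    intro A hA B hB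
    rw [mem_powerset] at hA hB
    have hiA : i ∉ A := fun h => hi (hA h)
    have hiB : i ∉ B := fun h => hi (hB h)
    have e1 : (insert i S) \ (A ∪ B) = insert i (S \ (A ∪ B)) := by
      ext x; simp only [mem_sdiff, mem_insert, mem_union]
      constructor
      · rintro ⟨h1 | h1, h2⟩
        · exact Or.inl h1
        · exact Or.inr ⟨h1, h2⟩
      · rintro (h | ⟨h1, h2⟩)
        · subst h; exact ⟨Or.inl rfl, by simp [hiA, hiB]⟩
        · exact ⟨Or.inr h1, h2⟩
    have e1' : i ∉ S \ (A ∪ B) := by simp [hi]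
    have e2 : A ∩ (insert i B) = A ∩ B := by
      ext x; simp only [mem_inter, mem_insert]
      constructor
      · rintro ⟨h1, h2 | h2⟩
        · subst h2; exact absurd h1 hiA
        · exact ⟨h1, h2⟩
      · rintro ⟨h1, h2⟩; exact ⟨h1, Or.inr h2⟩
    have e3 : (A \ (insert i B)) ∪ ((insert i B) \ A) = insert i ((A \ B) ∪ (B \ A)) := by
      ext x; simp only [mem_sdiff, mem_insert, mem_union]
      by_cases hx : x = i
      · subst hx; simp [hiA]
      · simp [hx]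
    have e3' : i ∉ (A \ B) ∪ (B \ A) := by simp [hiA, hiB]
    have e4 : (insert i S) \ (A ∪ (insert i B)) = S \ (A ∪ B) := by
      ext x; simp only [mem_sdiff, mem_insert, mem_union]
      by_cases hx : x = i
      · subst hx; simp [hi]
      · simp [hx]
    have e5 : (insert i A) ∩ B = A ∩ B := by
      ext x; simp only [mem_inter, mem_insert]
      constructor
      · rintro ⟨h1 | h1, h2⟩
        · subst h1; exact absurd h2 hiB
        · exact ⟨h1, h2⟩
      · rintro ⟨h1, h2⟩; exact ⟨Or.inr h1, h2⟩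
    have e6 : ((insert i A) \ B) ∪ (B \ (insert i A)) = insert i ((A \ B) ∪ (B \ A)) := by
      ext x; simp only [mem_sdiff, mem_insert, mem_union]
      by_cases hx : x = i
      · subst hx; simp [hiB]
      · simp [hx]
    have e7 : (insert i S) \ ((insert i A) ∪ B) = S \ (A ∪ B) := by
      ext x; simp only [mem_sdiff, mem_insert, mem_union]
      by_cases hx : x = i
      · subst hx; simp [hi]
      · simp [hx]
    have e8 : (insert i A) ∩ (insert i B) = insert i (A ∩ B) := by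
      ext x; simp only [mem_inter, mem_insert]; tauto
    have e8' : i ∉ A ∩ B := by simp [hiA]
    have e9 : ((insert i A) \ (insert i B)) ∪ ((insert i B) \ (insert i A)) =
        (A \ B) ∪ (B \ A) := by
      ext x; simp only [mem_sdiff, mem_insert, mem_union]
      by_cases hx : x = i
      · subst hx; simp [hiA, hiB]
      · simp [hx]
    have e10 : (insert i S) \ ((insert i A) ∪ (insert i B)) = S \ (A ∪ B) := by
      ext x; simp only [mem_sdiff, mem_insert, mem_union]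
      by_cases hx : x = i
      · subst hx; simp [hi]
      · simp [hx]
    rw [e1, e2, e3, e4, e5, e6, e7, e8, e9, e10, prod_insert e1', prod_insert e3',
      prod_insert e8']
    ring
  unfold EJ
  rw [sum_powerset_insert hi]
  have h1 : ∀ f : Finset α → Finset α → ℝ,
      ∑ A ∈ S.powerset, ∑ B ∈ (insert i S).powerset, f A B =
      ∑ A ∈ S.powerset, ∑ B ∈ S.powerset, (f A B + f A (insert i B)) := by
    intro f
    refine sum_congr rfl fun A _ => ?_
    rw [sum_powerset_insert hi, sum_add_distrib]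
  rw [h1 (fun A B => ((∏ _i ∈ A ∩ B, (p ^ 2 + ρ * (p * (1 - p)))) *
        (∏ _i ∈ (A \ B) ∪ (B \ A), ((1 - ρ) * (p * (1 - p)))) *
        (∏ _i ∈ (insert i S) \ (A ∪ B), ((1 - p) ^ 2 + ρ * (p * (1 - p))))) * F A B),
    h1 (fun A B => ((∏ _i ∈ (insert i A) ∩ B, (p ^ 2 + ρ * (p * (1 - p)))) *
        (∏ _i ∈ ((insert i A) \ B) ∪ (B \ (insert i A)), ((1 - ρ) * (p * (1 - p)))) *
        (∏ _i ∈ (insert i S) \ ((insert i A) ∪ B), ((1 - p) ^ 2 + ρ * (p * (1 - p))))) *
          F (insert i A) B),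
    mul_sum, mul_sum, mul_sum, mul_sum, ← sum_add_distrib, ← sum_add_distrib, ← sum_add_distrib,
    ← sum_add_distrib]
  refine sum_congr rfl fun A hA => ?_
  rw [mul_sum, mul_sum, mul_sum, mul_sum, ← sum_add_distrib, ← sum_add_distrib,
    ← sum_add_distrib, ← sum_add_distrib]
  refine sum_congr rfl fun B hB => ?_
  have := key A hA B hB
  simp only at this ⊢
  rw [this]
  ring

/-- Avoidance probabilities of the correlated pair. -/
theorem EJ_avoid (p ρ : ℝ) (S U V : Finset α) :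
    EJ p ρ S (fun A B => if Disjoint A U ∧ Disjoint B V then (1 : ℝ) else 0) =
      ∏ i ∈ S, (if i ∈ U then (if i ∈ V then (1 - p) ^ 2 + ρ * (p * (1 - p)) else 1 - p)
        else (if i ∈ V then 1 - p else 1)) := by
  classical
  induction S using Finset.induction_on with
  | empty => simp [EJ_empty]
  | insert i S hi ih =>
    rw [EJ_insert p ρ hi, prod_insert hi]
    simp only [disjoint_insert_left]
    by_cases hU : i ∈ U <;> by_cases hV : i ∈ V <;>
      simp only [hU, hV, not_true_eq_false, not_false_eq_true, false_and, and_false, true_and,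
        if_true, if_false, ih] <;>
      (try simp only [EJ, mul_zero, sum_const_zero]) <;> ring

end EJ

/-! ### Inclusion-exclusion -/

section IE

variable {α : Type*} [DecidableEq α]

/-- Indicator of `A = A₀` on subsets of `S` as a combination of avoidance indicators. -/
theorem ind_eq (S A₀ A : Finset α) (hA : A ⊆ S) (hA₀ : A₀ ⊆ S) :
    (if A = A₀ then (1 : ℝ) else 0) =
      ∑ V ∈ A₀.powerset, (-1 : ℝ) ^ #V * (if Disjoint A ((S \ A₀) ∪ V) then 1 else 0) := by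
  classical
  by_cases h : A ⊆ A₀
  · have h1 : Disjoint A (S \ A₀) := by
      rw [Finset.disjoint_left]; intro x hx hx'; exact (mem_sdiff.mp hx').2 (h hx)
    have h2 : ∀ V ∈ A₀.powerset, (-1 : ℝ) ^ #V * (if Disjoint A ((S \ A₀) ∪ V) then 1 else 0) =
        if V ∈ (A₀ \ A).powerset then (-1 : ℝ) ^ #V else 0 := by
      intro V hV
      have : Disjoint A ((S \ A₀) ∪ V) ↔ V ∈ (A₀ \ A).powerset := by
        rw [disjoint_union_right, mem_powerset]
        constructor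
        · rintro ⟨_, h3⟩ x hx
          exact mem_sdiff.mpr ⟨(mem_powerset.mp hV) hx, fun hxA => (Finset.disjoint_left.mp h3) hxA hx⟩
        · intro h3
          refine ⟨h1, ?_⟩
          rw [Finset.disjoint_left]
          intro x hx hxV
          exact (mem_sdiff.mp (h3 hxV)).2 hx
      by_cases h4 : Disjoint A ((S \ A₀) ∪ V)
      · rw [if_pos h4, if_pos (this.mp h4), mul_one]
      · rw [if_neg h4, if_neg (fun h5 => h4 (this.mpr h5)), mul_zero]
    rw [sum_congr rfl h2, ← sum_filter]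
    have h3 : A₀.powerset.filter (fun V => V ∈ (A₀ \ A).powerset) = (A₀ \ A).powerset := by
      ext V; simp only [mem_filter, mem_powerset, and_iff_right_iff_imp]
      intro h; exact h.trans sdiff_subset
    rw [h3]
    have h4 : (∑ m ∈ (A₀ \ A).powerset, (-1 : ℝ) ^ #m) = if A₀ \ A = ∅ then 1 else 0 := by
      have := Finset.sum_powerset_neg_one_pow_card (x := A₀ \ A)
      have h5 : ((∑ m ∈ (A₀ \ A).powerset, (-1 : ℤ) ^ #m : ℤ) : ℝ) =
          ((if A₀ \ A = ∅ then 1 else 0 : ℤ) : ℝ) := by rw [this]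
      push_cast at h5
      exact h5
    rw [h4]
    by_cases h5 : A = A₀
    · subst h5; simp
    · rw [if_neg h5, if_neg]
      intro h6
      exact h5 (Subset.antisymm h (sdiff_eq_empty_iff_subset.mp h6))
  · have h0 : A ≠ A₀ := fun h' => h (h' ▸ Subset.refl _)
    rw [if_neg h0]
    symm
    refine sum_eq_zero fun V _ => ?_
    rw [if_neg, mul_zero]
    intro h1
    rw [disjoint_union_right] at h1
    apply h
    intro x hx
    by_contra hx'
    exact (Finset.disjoint_left.mp h1.1) hx (mem_sdiff.mpr ⟨hA hx, hx'⟩)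

/-- Any function of a pair of subsets as a combination of avoidance indicators. -/
theorem fun_eq (S : Finset α) (F : Finset α → Finset α → ℝ) (A B : Finset α) (hA : A ⊆ S)
    (hB : B ⊆ S) :
    F A B = ∑ A₀ ∈ S.powerset, ∑ B₀ ∈ S.powerset, ∑ V ∈ A₀.powerset, ∑ W ∈ B₀.powerset,
      F A₀ B₀ * ((-1 : ℝ) ^ #V * (-1 : ℝ) ^ #W) *
        (if Disjoint A ((S \ A₀) ∪ V) ∧ Disjoint B ((S \ B₀) ∪ W) then 1 else 0) := by
  classical
  have h1 : ∀ A₀ ∈ S.powerset, ∀ B₀ ∈ S.powerset,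
      ∑ V ∈ A₀.powerset, ∑ W ∈ B₀.powerset,
      F A₀ B₀ * ((-1 : ℝ) ^ #V * (-1 : ℝ) ^ #W) *
        (if Disjoint A ((S \ A₀) ∪ V) ∧ Disjoint B ((S \ B₀) ∪ W) then 1 else 0) =
      F A₀ B₀ * (if A = A₀ then 1 else 0) * (if B = B₀ then 1 else 0) := by
    intro A₀ hA₀ B₀ hB₀
    rw [ind_eq S A₀ A hA (mem_powerset.mp hA₀), ind_eq S B₀ B hB (mem_powerset.mp hB₀),
      mul_assoc, sum_mul_sum, mul_sum]
    refine sum_congr rfl fun V _ => ?_
    rw [mul_sum]
    refine sum_congr rfl fun W _ => ?_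
    by_cases h2 : Disjoint A ((S \ A₀) ∪ V) <;> by_cases h3 : Disjoint B ((S \ B₀) ∪ W) <;>
      simp [h2, h3]
  rw [sum_congr rfl fun A₀ hA₀ => sum_congr rfl fun B₀ hB₀ => h1 A₀ hA₀ B₀ hB₀]
  rw [sum_eq_single A, sum_eq_single B]
  · simp
  · intro B' _ hB'
    simp [hB'.symm]
  · intro h; exact absurd (mem_powerset.mpr hB) h
  · intro A' _ hA'
    refine sum_eq_zero fun B' _ => ?_
    simp [hA'.symm]
  · intro h; exact absurd (mem_powerset.mpr hA) h

end IE

/-! ### Law of the cell of a uniform point -/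

section Cell

/-- cell index on a line -/
noncomputable def cell1 (n a : ℕ) (x : ℝ) : ℕ := min a (⌊(a : ℝ) * x / n⌋₊ + 1)

theorem cellOf_eq (n a b : ℕ) (x : ℝ × ℝ) : cellOf n a b x = (cell1 n a x.1, cell1 n b x.2) := rfl

theorem cell1_mem {a : ℕ} (ha : 1 ≤ a) (n : ℕ) (x : ℝ) : cell1 n a x ∈ Icc 1 a := by
  rw [Finset.mem_Icc, cell1]
  exact ⟨le_min ha (by omega), min_le_left _ _⟩

theorem cellOf_mem {a b : ℕ} (ha : 1 ≤ a) (hb : 1 ≤ b) (n : ℕ) (x : ℝ × ℝ) :
    cellOf n a b x ∈ box a b := by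
  rw [cellOf_eq, box, Finset.mem_product]
  exact ⟨cell1_mem ha n _, cell1_mem hb n _⟩

theorem measurable_cell1 (n a : ℕ) : Measurable (cell1 n a) := by
  unfold cell1
  have h : Measurable (fun x : ℝ => ⌊(a : ℝ) * x / n⌋₊) :=
    Nat.measurable_floor.comp ((measurable_const.mul measurable_id).div_const _)
  exact (measurable_from_nat (f := fun k : ℕ => min a (k + 1))).comp h

theorem measurable_cellOf (n a b : ℕ) : Measurable (cellOf n a b) :=
  ((measurable_cell1 n a).comp measurable_fst).prodMk ((measurable_cell1 n b).comp measurable_snd)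

theorem volume_cell1 {n : ℕ} (hn : 1 ≤ n) {a i : ℕ} (ha : 1 ≤ a) (hi : i ∈ Icc 1 a) :
    volume (cell1 n a ⁻¹' {i} ∩ Set.Icc (0 : ℝ) n) = ENNReal.ofReal ((n : ℝ) / a) := by
  rw [Finset.mem_Icc] at hi
  have hn0 : (0 : ℝ) < n := by exact_mod_cast hn
  have ha0 : (0 : ℝ) < a := by exact_mod_cast ha
  have hi1 : (1 : ℝ) ≤ i := by exact_mod_cast hi.1
  have hia : (i : ℝ) ≤ a := by exact_mod_cast hi.2
  have key : ∀ x : ℝ, 0 ≤ x → ∀ k : ℕ, k ≤ ⌊(a : ℝ) * x / n⌋₊ ↔ (k : ℝ) * n / a ≤ x := by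
    intro x hx k
    rw [Nat.le_floor_iff (by positivity), le_div_iff₀ hn0, div_le_iff₀ ha0, mul_comm x]
  have hcast : ((i - 1 : ℕ) : ℝ) = (i : ℝ) - 1 := by
    rw [Nat.cast_sub hi.1]; simp
  rcases lt_or_eq_of_le hi.2 with h | h
  · have : cell1 n a ⁻¹' {i} ∩ Set.Icc (0 : ℝ) n = Set.Ico (((i : ℝ) - 1) * n / a) (i * n / a) := by
      ext x
      simp only [Set.mem_inter_iff, Set.mem_preimage, Set.mem_singleton_iff, Set.mem_Icc,
        Set.mem_Ico]
      constructor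
      · rintro ⟨h1, h2, h3⟩
        have h4 : ⌊(a : ℝ) * x / n⌋₊ + 1 = i := by
          unfold cell1 at h1
          rcases min_choice a (⌊(a : ℝ) * x / n⌋₊ + 1) with h5 | h5
          · omega
          · rw [← h1, h5]
        constructor
        · rw [← hcast, ← key x h2]; omega
        · by_contra h5
          rw [not_lt, ← key x h2] at h5
          omega
      · rintro ⟨h1, h2⟩
        have h3 : 0 ≤ x := le_trans (by
          apply div_nonneg _ ha0.le
          exact mul_nonneg (by linarith) hn0.le) h1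
        have h4 : x ≤ n := by
          have : (i : ℝ) * n / a ≤ n := by
            rw [div_le_iff₀ ha0, mul_comm (n : ℝ)]
            exact mul_le_mul_of_nonneg_right hia hn0.le
          linarith
        refine ⟨?_, h3, h4⟩
        rw [← hcast, ← key x h3] at h1
        have h5 : ¬ (i ≤ ⌊(a : ℝ) * x / n⌋₊) := by
          rw [key x h3]; exact not_le.mpr h2
        unfold cell1
        omega
    rw [this, Real.volume_Ico]
    congr 1
    field_simp
    ring
  · have : cell1 n a ⁻¹' {i} ∩ Set.Icc (0 : ℝ) n = Set.Icc (((i : ℝ) - 1) * n / a) n := by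
      ext x
      simp only [Set.mem_inter_iff, Set.mem_preimage, Set.mem_singleton_iff, Set.mem_Icc]
      constructor
      · rintro ⟨h1, h2, h3⟩
        refine ⟨?_, h3⟩
        rw [← hcast, ← key x h2]
        unfold cell1 at h1
        omega
      · rintro ⟨h1, h2⟩
        have h3 : 0 ≤ x := le_trans (by
          apply div_nonneg _ ha0.le
          exact mul_nonneg (by linarith) hn0.le) h1
        refine ⟨?_, h3, h2⟩
        rw [← hcast, ← key x h3] at h1
        unfold cell1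
        omega
    rw [this, Real.volume_Icc]
    congr 1
    have h' : (i : ℝ) = a := by exact_mod_cast h
    rw [h']
    field_simp
    ring

/-- The uniform law on `[0,n]²`, as in the frozen statement. -/
noncomputable def U2 (n : ℕ) : Measure (ℝ × ℝ) :=
  (ENNReal.ofReal ((n : ℝ) ^ 2))⁻¹ •
    volume.restrict (Set.Icc (0 : ℝ × ℝ) ((n : ℝ), (n : ℝ)))

theorem U2_cell {n : ℕ} (hn : 1 ≤ n) {a b : ℕ} (ha : 1 ≤ a) (hb : 1 ≤ b) {c : ℕ × ℕ}
    (hc : c ∈ box a b) :
    U2 n (cellOf n a b ⁻¹' {c}) = ENNReal.ofReal (1 / ((a : ℝ) * b)) := by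
  obtain ⟨i, j⟩ := c
  rw [box, Finset.mem_product] at hc
  have hn0 : (0 : ℝ) < n := by exact_mod_cast hn
  have ha0 : (0 : ℝ) < a := by exact_mod_cast ha
  have hb0 : (0 : ℝ) < b := by exact_mod_cast hb
  rw [U2, Measure.smul_apply, smul_eq_mul,
    Measure.restrict_apply ((measurable_cellOf n a b) (measurableSet_singleton _))]
  have : cellOf n a b ⁻¹' {(i, j)} ∩ Set.Icc (0 : ℝ × ℝ) ((n : ℝ), (n : ℝ)) =
      (cell1 n a ⁻¹' {i} ∩ Set.Icc (0 : ℝ) n) ×ˢ (cell1 n b ⁻¹' {j} ∩ Set.Icc (0 : ℝ) n) := by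
    ext x
    simp only [Set.mem_inter_iff, Set.mem_preimage, Set.mem_singleton_iff, cellOf_eq,
      Prod.mk.injEq, Set.Icc_prod_eq, Set.mem_prod, Prod.fst_zero, Prod.snd_zero]
    tauto
  rw [this, Measure.volume_eq_prod, Measure.prod_prod, volume_cell1 hn ha hc.1,
    volume_cell1 hn hb hc.2, ← ENNReal.ofReal_mul (by positivity),
    ← ENNReal.ofReal_inv_of_pos (by positivity), ← ENNReal.ofReal_mul (by positivity)]
  congr 1
  field_simp

theorem U2_cell_set {n : ℕ} (hn : 1 ≤ n) {a b : ℕ} (ha : 1 ≤ a) (hb : 1 ≤ b)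
    {S : Finset (ℕ × ℕ)} (hS : S ⊆ box a b) :
    U2 n (cellOf n a b ⁻¹' ↑S) = ENNReal.ofReal ((#S : ℝ) / ((a : ℝ) * b)) := by
  have h1 : U2 n (cellOf n a b ⁻¹' ↑S) = (Measure.map (cellOf n a b) (U2 n)) ↑S := by
    rw [Measure.map_apply (measurable_cellOf n a b) (Finset.measurableSet S)]
  rw [h1, ← sum_measure_singleton]
  have h2 : ∀ c ∈ S, (Measure.map (cellOf n a b) (U2 n)) {c} =
      ENNReal.ofReal (1 / ((a : ℝ) * b)) := by
    intro c hc
    rw [Measure.map_apply (measurable_cellOf n a b) (measurableSet_singleton _),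
      U2_cell hn ha hb (hS hc)]
  rw [sum_congr rfl h2, sum_const, nsmul_eq_mul, ← ENNReal.ofReal_natCast,
    ← ENNReal.ofReal_mul (by positivity)]
  congr 1
  ring

instance isProb_U2 {n : ℕ} [NeZero n] : IsProbabilityMeasure (U2 n) := by
  constructor
  have hn : 1 ≤ n := Nat.one_le_iff_ne_zero.mpr (NeZero.ne n)
  have h := U2_cell_set hn (le_refl 1) (le_refl 1) (S := box 1 1) (Subset.refl _)
  have h1 : cellOf n 1 1 ⁻¹' ↑(box 1 1) = Set.univ := by
    ext x; simp only [Set.mem_preimage, Set.mem_univ, iff_true]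
    exact cellOf_mem (le_refl 1) (le_refl 1) n x
  rw [h1] at h
  rw [h]
  simp [box]

/-- The uniform law on `[0,1]`. -/
noncomputable def U1 : Measure ℝ := volume.restrict (Set.Icc (0 : ℝ) 1)

instance isProb_U1 : IsProbabilityMeasure U1 := ⟨by simp [U1]⟩

theorem U1_Ici {t : ℝ} (h0 : 0 ≤ t) : U1 {u | t ≤ u} = ENNReal.ofReal (1 - t) := by
  have : {u : ℝ | t ≤ u} = Set.Ici t := rfl
  rw [this, U1, Measure.restrict_apply measurableSet_Ici]
  have h2 : Set.Ici t ∩ Set.Icc (0 : ℝ) 1 = Set.Icc t 1 := by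
    ext x; simp only [Set.mem_inter_iff, Set.mem_Ici, Set.mem_Icc]
    constructor
    · rintro ⟨h1, _, h3⟩; exact ⟨h1, h3⟩
    · rintro ⟨h1, h3⟩; exact ⟨h1, le_trans h0 h1, h3⟩
  rw [h2, Real.volume_Icc]

/-- Admissible marked points. -/
def D1 (n a b : ℕ) (t : ℝ) (S T : Finset (ℕ × ℕ)) : Set ((ℝ × ℝ) × ℝ) :=
  {z | cellOf n a b z.1 ∉ S ∧ (t ≤ z.2 → cellOf n a b z.1 ∉ T)}

/-- Admissible new points. -/
def D2 (n a b : ℕ) (T : Finset (ℕ × ℕ)) : Set (ℝ × ℝ) := {x | cellOf n a b x ∉ T}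

theorem D1_compl (n a b : ℕ) (t : ℝ) (S T : Finset (ℕ × ℕ)) :
    (D1 n a b t S T)ᶜ = ((cellOf n a b ⁻¹' ↑S) ×ˢ Set.univ) ∪
      ((cellOf n a b ⁻¹' ↑(T \ S)) ×ˢ {u | t ≤ u}) := by
  ext z
  simp only [D1, Set.mem_compl_iff, Set.mem_ofPred_eq, Set.mem_union, Set.mem_prod,
    Set.mem_preimage, Finset.mem_coe, Set.mem_univ, and_true, Finset.mem_sdiff]
  tauto

theorem measurableSet_D1 (n a b : ℕ) (t : ℝ) (S T : Finset (ℕ × ℕ)) :
    MeasurableSet (D1 n a b t S T) := by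
  rw [← MeasurableSet.compl_iff, D1_compl]
  exact (((measurable_cellOf n a b) (Finset.measurableSet S)).prod MeasurableSet.univ).union
    (((measurable_cellOf n a b) (Finset.measurableSet _)).prod measurableSet_Ici)

theorem measurableSet_D2 (n a b : ℕ) (T : Finset (ℕ × ℕ)) :
    MeasurableSet (D2 n a b T) := by
  have : D2 n a b T = (cellOf n a b ⁻¹' ↑T)ᶜ := rfl
  rw [this]
  exact ((measurable_cellOf n a b) (Finset.measurableSet T)).compl

theorem card_box (a b : ℕ) : #(box a b) = a * b := by simp [box]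

theorem prob_D2 {n : ℕ} [NeZero n] {a b : ℕ} (ha : 1 ≤ a) (hb : 1 ≤ b)
    {T : Finset (ℕ × ℕ)} (hT : T ⊆ box a b) :
    U2 n (D2 n a b T) = ENNReal.ofReal (1 - (#T : ℝ) / ((a : ℝ) * b)) := by
  have hn : 1 ≤ n := Nat.one_le_iff_ne_zero.mpr (NeZero.ne n)
  have : D2 n a b T = (cellOf n a b ⁻¹' ↑T)ᶜ := rfl
  rw [this, prob_compl_eq_one_sub ((measurable_cellOf n a b) (Finset.measurableSet T)),
    U2_cell_set hn ha hb hT, ENNReal.ofReal_sub _ (by positivity), ENNReal.ofReal_one]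

theorem prob_D1 {n : ℕ} [NeZero n] {a b : ℕ} (ha : 1 ≤ a) (hb : 1 ≤ b) {t : ℝ} (h0 : 0 ≤ t)
    (h1 : t ≤ 1) {S T : Finset (ℕ × ℕ)} (hS : S ⊆ box a b) (hT : T ⊆ box a b) :
    ((U2 n).prod U1) (D1 n a b t S T) =
      ENNReal.ofReal (1 - ((#S : ℝ) + #(T \ S) * (1 - t)) / ((a : ℝ) * b)) := by
  have hn : 1 ≤ n := Nat.one_le_iff_ne_zero.mpr (NeZero.ne n)
  have ht : 0 ≤ 1 - t := by linarith
  rw [← compl_compl (D1 n a b t S T),
    prob_compl_eq_one_sub (measurableSet_D1 n a b t S T).compl, D1_compl]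
  have hd : Disjoint ((cellOf n a b ⁻¹' ↑S) ×ˢ (Set.univ : Set ℝ))
      ((cellOf n a b ⁻¹' ↑(T \ S)) ×ˢ {u : ℝ | t ≤ u}) := by
    rw [Set.disjoint_left]
    rintro z hz hz'
    simp only [Set.mem_prod, Set.mem_preimage, Finset.mem_coe, Finset.mem_sdiff] at hz hz'
    exact hz'.1.2 hz.1
  rw [measure_union hd (((measurable_cellOf n a b) (Finset.measurableSet _)).prod
    measurableSet_Ici), Measure.prod_prod, Measure.prod_prod, measure_univ, mul_one,
    U2_cell_set hn ha hb hS, U2_cell_set hn ha hb (sdiff_subset.trans hT), U1_Ici h0,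
    ← ENNReal.ofReal_mul (by positivity), ← ENNReal.ofReal_add (by positivity) (by positivity),
    ENNReal.ofReal_sub _ (by positivity), ENNReal.ofReal_one]
  congr 2
  ring

end Cell

/-! ### The avoidance probabilities of the Poisson model -/

section Poisson

theorem poisson_toMeasure (r : NNReal) : (poissonPMF r).toMeasure = poissonMeasure r := by
  refine Measure.ext_of_singleton fun k => ?_
  rw [PMF.toMeasure_apply_singleton _ _ (measurableSet_singleton _), poissonMeasure_singleton,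
    ← poissonPMFReal_ofReal_eq_poissonPMF]
  rfl

theorem lint_poisson (r : NNReal) {x : ℝ} (hx : 0 ≤ x) :
    ∫⁻ k, ENNReal.ofReal x ^ k ∂(poissonPMF r).toMeasure =
      ENNReal.ofReal (Real.exp (r * (x - 1))) := by
  rw [poisson_toMeasure, lintegral_countable']
  have h1 : ∀ k : ℕ, ENNReal.ofReal x ^ k * poissonMeasure r {k} =
      ENNReal.ofReal (Real.exp (-r) * ((r * x) ^ k / (Nat.factorial k))) := by
    intro k
    rw [poissonMeasure_singleton, ← ENNReal.ofReal_pow hx, ← ENNReal.ofReal_mul (by positivity)]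
    congr 1
    rw [mul_pow]
    ring
  simp_rw [h1]
  have h2 : HasSum (fun k : ℕ => ((r : ℝ) * x) ^ k / (Nat.factorial k)) (Real.exp (r * x)) := by
    rw [Real.exp_eq_exp_ℝ]
    exact NormedSpace.expSeries_div_hasSum_exp _
  rw [← ENNReal.ofReal_tsum_of_nonneg (fun k => by positivity) (h2.summable.mul_left _),
    tsum_mul_left, h2.tsum_eq, ← Real.exp_add]
  congr 2
  ring

variable {n : ℕ} {t : NNReal} {Ω : Type} [MeasurableSpace Ω] {P : Measure Ω}
  [IsProbabilityMeasure P]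
  {C : Ω → ℕ × ℕ} {Z : ℕ → Ω → ((ℝ × ℝ) × ℝ) × (ℝ × ℝ)}

theorem law_Z' (hM : Model n t P C Z) (i : ℕ) :
    Measure.map (Z i) P = ((U2 n).prod U1).prod (U2 n) := hM.law_Z i

theorem aemeas_Z [NeZero n] (hM : Model n t P C Z) (i : ℕ) : AEMeasurable (Z i) P :=
  AEMeasurable.of_map_ne_zero (by rw [law_Z' hM]; exact IsProbabilityMeasure.ne_zero _)

theorem aemeas_C (hM : Model n t P C Z) : AEMeasurable C P :=
  AEMeasurable.of_map_ne_zero (by rw [hM.law_C]; exact IsProbabilityMeasure.ne_zero _)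

theorem aemeas_Zs [NeZero n] (hM : Model n t P C Z) : AEMeasurable (fun ω i => Z i ω) P :=
  aemeasurable_pi_lambda _ (fun i => aemeas_Z hM i)

theorem law_CZ [NeZero n] (hM : Model n t P C Z) :
    Measure.map (fun ω => (C ω, fun i => Z i ω)) P =
      (Measure.map C P).prod (Measure.map (fun ω i => Z i ω) P) :=
  (indepFun_iff_map_prod_eq_prod_map_map (aemeas_C hM) (aemeas_Zs hM)).mp hM.indep_CZ

theorem measurableSet_Wc {D : Set ((ℝ × ℝ) × ℝ)} {D' : Set (ℝ × ℝ)} (hD : MeasurableSet D)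
    (hD' : MeasurableSet D') (c : ℕ × ℕ) :
    MeasurableSet {z : ℕ → ((ℝ × ℝ) × ℝ) × (ℝ × ℝ) |
      (∀ i < c.1, (z i).1 ∈ D) ∧ ∀ j < c.2, (z j).2 ∈ D'} := by
  have : {z : ℕ → ((ℝ × ℝ) × ℝ) × (ℝ × ℝ) |
      (∀ i < c.1, (z i).1 ∈ D) ∧ ∀ j < c.2, (z j).2 ∈ D'} =
      (⋂ i ∈ range c.1, (fun z : ℕ → ((ℝ × ℝ) × ℝ) × (ℝ × ℝ) => (z i).1) ⁻¹' D) ∩
      (⋂ j ∈ range c.2, (fun z : ℕ → ((ℝ × ℝ) × ℝ) × (ℝ × ℝ) => (z j).2) ⁻¹' D') := by
    ext z
    simp
  rw [this]
  refine MeasurableSet.inter ?_ ?_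
  · exact Finset.measurableSet_biInter _ fun i _ => (by fun_prop : Measurable
      (fun z : ℕ → ((ℝ × ℝ) × ℝ) × (ℝ × ℝ) => (z i).1)) hD
  · exact Finset.measurableSet_biInter _ fun i _ => (by fun_prop : Measurable
      (fun z : ℕ → ((ℝ × ℝ) × ℝ) × (ℝ × ℝ) => (z i).2)) hD'

theorem law_Wc [NeZero n] (hM : Model n t P C Z) {D : Set ((ℝ × ℝ) × ℝ)} {D' : Set (ℝ × ℝ)}
    (hD : MeasurableSet D) (hD' : MeasurableSet D') (c : ℕ × ℕ) :
    Measure.map (fun ω i => Z i ω) P {z | (∀ i < c.1, (z i).1 ∈ D) ∧ ∀ j < c.2, (z j).2 ∈ D'} =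
      ((U2 n).prod U1) D ^ c.1 * (U2 n D') ^ c.2 := by
  classical
  rw [Measure.map_apply_of_aemeasurable (aemeas_Zs hM) (measurableSet_Wc hD hD' c)]
  set E : ℕ → Set (((ℝ × ℝ) × ℝ) × (ℝ × ℝ)) := fun i =>
    (if i < c.1 then D else Set.univ) ×ˢ (if i < c.2 then D' else Set.univ) with hE
  have hEm : ∀ i, MeasurableSet (E i) := by
    intro i
    simp only [hE]
    refine MeasurableSet.prod ?_ ?_
    · split_ifs
      exacts [hD, MeasurableSet.univ]
    · split_ifs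
      exacts [hD', MeasurableSet.univ]
  have h1 : (fun ω i => Z i ω) ⁻¹' {z | (∀ i < c.1, (z i).1 ∈ D) ∧ ∀ j < c.2, (z j).2 ∈ D'} =
      ⋂ i ∈ range (max c.1 c.2), Z i ⁻¹' (E i) := by
    ext ω
    simp only [Set.mem_preimage, Set.mem_iInter, Finset.mem_range, hE, Set.mem_prod]
    constructor
    · rintro ⟨h1, h2⟩ i _
      refine ⟨?_, ?_⟩
      · split_ifs with h
        exacts [h1 i h, trivial]
      · split_ifs with h
        exacts [h2 i h, trivial]
    · intro h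
      refine ⟨fun i hi => ?_, fun i hi => ?_⟩
      · have := (h i (lt_of_lt_of_le hi (le_max_left _ _))).1
        rwa [if_pos hi] at this
      · have := (h i (lt_of_lt_of_le hi (le_max_right _ _))).2
        rwa [if_pos hi] at this
  rw [h1, hM.indep_Z.measure_inter_preimage_eq_mul _ (fun i _ => hEm i)]
  have h2 : ∀ i ∈ range (max c.1 c.2), P (Z i ⁻¹' (E i)) =
      (if i < c.1 then ((U2 n).prod U1) D else 1) * (if i < c.2 then (U2 n) D' else 1) := by
    intro i _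
    rw [← Measure.map_apply_of_aemeasurable (aemeas_Z hM i) (hEm i), law_Z' hM, hE,
      Measure.prod_prod]
    congr 1
    · split_ifs
      exacts [rfl, measure_univ]
    · split_ifs
      exacts [rfl, measure_univ]
  rw [prod_congr rfl h2, prod_mul_distrib]
  have h3 : ∀ (k m : ℕ) (x : ENNReal), k ≤ m → ∏ i ∈ range m, (if i < k then x else 1) = x ^ k := by
    intro k m x hk
    rw [prod_ite, prod_const, prod_const_one, mul_one]
    congr 1
    have : (range m).filter (fun i => i < k) = range k := by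
      ext i; simp only [Finset.mem_filter, Finset.mem_range]; omega
    rw [this, card_range]
  rw [h3 _ _ _ (le_max_left _ _), h3 _ _ _ (le_max_right _ _)]

/-- The avoidance event in the product space. -/
def Wset (D : Set ((ℝ × ℝ) × ℝ)) (D' : Set (ℝ × ℝ)) :
    Set ((ℕ × ℕ) × (ℕ → ((ℝ × ℝ) × ℝ) × (ℝ × ℝ))) :=
  {w | (∀ i < w.1.1, (w.2 i).1 ∈ D) ∧ ∀ j < w.1.2, (w.2 j).2 ∈ D'}

theorem measurableSet_Wset {D : Set ((ℝ × ℝ) × ℝ)} {D' : Set (ℝ × ℝ)} (hD : MeasurableSet D)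
    (hD' : MeasurableSet D') : MeasurableSet (Wset D D') := by
  have : Wset D D' = ⋃ c : ℕ × ℕ, ({c} : Set (ℕ × ℕ)) ×ˢ
      {z : ℕ → ((ℝ × ℝ) × ℝ) × (ℝ × ℝ) | (∀ i < c.1, (z i).1 ∈ D) ∧ ∀ j < c.2, (z j).2 ∈ D'} := by
    ext w
    simp only [Wset, Set.mem_iUnion, Set.mem_prod, Set.mem_singleton_iff]
    constructor
    · intro h; exact ⟨w.1, rfl, h⟩
    · rintro ⟨c, hc, h⟩; subst hc; exact h
  rw [this]
  exact MeasurableSet.iUnion fun c => (measurableSet_singleton c).prod (measurableSet_Wc hD hD' c)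

theorem prob_Wset [NeZero n] (hM : Model n t P C Z) {D : Set ((ℝ × ℝ) × ℝ)} {D' : Set (ℝ × ℝ)}
    (hD : MeasurableSet D) (hD' : MeasurableSet D') {x y : ℝ} (hx0 : 0 ≤ x) (hy0 : 0 ≤ y)
    (hx : ((U2 n).prod U1) D = ENNReal.ofReal x) (hy : U2 n D' = ENNReal.ofReal y) :
    P ((fun ω => (C ω, fun i => Z i ω)) ⁻¹' Wset D D') =
      ENNReal.ofReal (Real.exp ((n : ℝ) ^ 2 * (x - 1) + t * (n : ℝ) ^ 2 * (y - 1))) := by
  rw [← Measure.map_apply_of_aemeasurable ((aemeas_C hM).prodMk (aemeas_Zs hM))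
    (measurableSet_Wset hD hD'), law_CZ hM, Measure.prod_apply (measurableSet_Wset hD hD')]
  have h1 : ∀ c : ℕ × ℕ, Measure.map (fun ω i => Z i ω) P (Prod.mk c ⁻¹' Wset D D') =
      ENNReal.ofReal x ^ c.1 * ENNReal.ofReal y ^ c.2 := by
    intro c
    rw [← hx, ← hy]
    exact law_Wc hM hD hD' c
  simp_rw [h1]
  rw [hM.law_C, lintegral_prod_mul (f := fun k : ℕ => ENNReal.ofReal x ^ k)
    (g := fun k : ℕ => ENNReal.ofReal y ^ k) (by fun_prop) (by fun_prop), lint_poisson _ hx0,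
    lint_poisson _ hy0, ← ENNReal.ofReal_mul (by positivity), ← Real.exp_add]
  congr 2

end Poisson

/-! ### Conclusion -/

section Lin

variable {α : Type*} [DecidableEq α]

theorem EJ_congr (p ρ : ℝ) (S : Finset α) {F F' : Finset α → Finset α → ℝ}
    (h : ∀ A ⊆ S, ∀ B ⊆ S, F A B = F' A B) : EJ p ρ S F = EJ p ρ S F' := by
  unfold EJ
  refine sum_congr rfl fun A hA => sum_congr rfl fun B hB => ?_
  rw [h A (mem_powerset.mp hA) B (mem_powerset.mp hB)]

theorem EJ_sum {β : Type*} (p ρ : ℝ) (S : Finset α) (s : Finset β)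
    (G : β → Finset α → Finset α → ℝ) :
    EJ p ρ S (fun A B => ∑ x ∈ s, G x A B) = ∑ x ∈ s, EJ p ρ S (G x) := by
  classical
  induction s using Finset.induction_on with
  | empty => simp [EJ]
  | insert x s hx ih =>
    rw [sum_insert hx, ← ih]
    simp only [sum_insert hx, EJ, mul_add, sum_add_distrib]

theorem EJ_const_mul (p ρ : ℝ) (S : Finset α) (c : ℝ) (G : Finset α → Finset α → ℝ) :
    EJ p ρ S (fun A B => c * G A B) = c * EJ p ρ S G := by
  unfold EJ
  rw [mul_sum]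
  refine sum_congr rfl fun A _ => ?_
  rw [mul_sum]
  refine sum_congr rfl fun B _ => ?_
  ring

end Lin

section Final

variable {n : ℕ} {t : NNReal} {Ω : Type} [MeasurableSpace Ω] {P : Measure Ω}
  [IsProbabilityMeasure P]
  {C : Ω → ℕ × ℕ} {Z : ℕ → Ω → ((ℝ × ℝ) × ℝ) × (ℝ × ℝ)}

theorem occ1_subset {a b : ℕ} (ha : 1 ≤ a) (hb : 1 ≤ b) (n : ℕ) (C : Ω → ℕ × ℕ)
    (Z : ℕ → Ω → ((ℝ × ℝ) × ℝ) × (ℝ × ℝ)) (ω : Ω) : occ1 n a b C Z ω ⊆ box a b := by
  intro x hx
  rw [occ1, Finset.mem_image] at hx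
  obtain ⟨i, _, rfl⟩ := hx
  exact cellOf_mem ha hb n _

theorem occ2_subset {a b : ℕ} (ha : 1 ≤ a) (hb : 1 ≤ b) (n : ℕ) (t : NNReal) (C : Ω → ℕ × ℕ)
    (Z : ℕ → Ω → ((ℝ × ℝ) × ℝ) × (ℝ × ℝ)) (ω : Ω) : occ2 n a b t C Z ω ⊆ box a b := by
  intro x hx
  rw [occ2, Finset.mem_union, Finset.mem_image, Finset.mem_image] at hx
  rcases hx with ⟨i, _, rfl⟩ | ⟨i, _, rfl⟩
  · exact cellOf_mem ha hb n _
  · exact cellOf_mem ha hb n _

theorem avoid_iff (n a b : ℕ) (t : NNReal) (C : Ω → ℕ × ℕ)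
    (Z : ℕ → Ω → ((ℝ × ℝ) × ℝ) × (ℝ × ℝ)) (S T : Finset (ℕ × ℕ)) (ω : Ω) :
    (Disjoint (occ1 n a b C Z ω) S ∧ Disjoint (occ2 n a b t C Z ω) T) ↔
      (C ω, fun i => Z i ω) ∈ Wset (D1 n a b t S T) (D2 n a b T) := by
  classical
  rw [occ1, occ2, Finset.disjoint_union_left, Finset.disjoint_left, Finset.disjoint_left,
    Finset.disjoint_left]
  simp only [Wset, D1, D2, Set.mem_ofPred_eq, Finset.mem_image, Finset.mem_filter,
    Finset.mem_range]
  constructor
  · rintro ⟨h1, h2, h3⟩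
    exact ⟨fun i hi => ⟨h1 ⟨i, hi, rfl⟩, fun ht => h2 ⟨i, ⟨hi, ht⟩, rfl⟩⟩,
      fun j hj => h3 ⟨j, hj, rfl⟩⟩
  · rintro ⟨h1, h2⟩
    refine ⟨?_, ?_, ?_⟩
    · rintro x ⟨i, hi, rfl⟩; exact (h1 i hi).1
    · rintro x ⟨i, ⟨hi, ht⟩, rfl⟩; exact (h1 i hi).2 ht
    · rintro x ⟨j, hj, rfl⟩; exact h2 j hj

theorem exp_prod {a b : ℕ} (t : ℝ) {S T : Finset (ℕ × ℕ)} (hS : S ⊆ box a b)
    (hT : T ⊆ box a b) (L : ℝ) :
    ∏ i ∈ box a b, Real.exp (-L * ((if i ∈ S then 1 else 0) +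
      (1 - t) * (if i ∈ T \ S then 1 else 0) + t * (if i ∈ T then 1 else 0))) =
    Real.exp (-L * (#S + (1 - t) * #(T \ S) + t * #T)) := by
  classical
  have h : ∀ V : Finset (ℕ × ℕ), V ⊆ box a b →
      ∑ i ∈ box a b, (if i ∈ V then (1 : ℝ) else 0) = #V := by
    intro V hV
    rw [Finset.sum_ite_mem, Finset.inter_eq_right.mpr hV]
    simp
  rw [← Real.exp_sum, ← mul_sum, sum_add_distrib, sum_add_distrib, ← mul_sum, ← mul_sum,
    h S hS, h _ (sdiff_subset.trans hT), h T hT]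

theorem avoid_value {n : ℕ} (hn : 1 ≤ n) {a b : ℕ} (ha : 1 ≤ a) (hb : 1 ≤ b) (t : ℝ)
    {S T : Finset (ℕ × ℕ)} (hS : S ⊆ box a b) (hT : T ⊆ box a b) :
    EJ (pcell n a b) (rcell n a b t) (box a b)
      (fun A B => if Disjoint A S ∧ Disjoint B T then (1 : ℝ) else 0) =
    Real.exp ((n : ℝ) ^ 2 * ((1 - ((#S : ℝ) + #(T \ S) * (1 - t)) / ((a : ℝ) * b)) - 1) +
      t * (n : ℝ) ^ 2 * ((1 - (#T : ℝ) / ((a : ℝ) * b)) - 1)) := by
  classical
  have hn0 : (0 : ℝ) < n := by exact_mod_cast hn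
  have ha0 : (0 : ℝ) < a := by exact_mod_cast ha
  have hb0 : (0 : ℝ) < b := by exact_mod_cast hb
  set L : ℝ := (n : ℝ) ^ 2 / (a * b) with hL
  have hLpos : 0 < L := by positivity
  have hp : 1 - pcell n a b = Real.exp (-L) := by rw [pcell]; ring
  have hEL : Real.exp L - 1 ≠ 0 := by
    have := Real.add_one_lt_exp hLpos.ne'
    intro h; linarith
  have hp0 : (1 - pcell n a b) ^ 2 + rcell n a b t * (pcell n a b * (1 - pcell n a b)) =
      Real.exp (-L * (1 + t)) := by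
    rw [hp]
    have h1 : pcell n a b = Real.exp (-L) * (Real.exp L - 1) := by
      rw [pcell, mul_sub, ← Real.exp_add]; simp [hL]
    rw [h1, rcell, ← hL]
    have h2 : (Real.exp (L * (1 - t)) - 1) / (Real.exp L - 1) *
        (Real.exp (-L) * (Real.exp L - 1) * Real.exp (-L)) =
        (Real.exp (L * (1 - t)) - 1) * Real.exp (-L) ^ 2 := by
      field_simp
    rw [h2, sub_mul, one_mul, add_sub_cancel, ← Real.exp_nat_mul, ← Real.exp_add]
    congr 1
    push_cast
    ring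
  rw [EJ_avoid, hp0, hp]
  have h3 : ∀ i ∈ box a b, (if i ∈ S then (if i ∈ T then Real.exp (-L * (1 + t))
        else Real.exp (-L)) else (if i ∈ T then Real.exp (-L) else 1)) =
      Real.exp (-L * ((if i ∈ S then 1 else 0) +
      (1 - t) * (if i ∈ T \ S then 1 else 0) + t * (if i ∈ T then 1 else 0))) := by
    intro i _
    by_cases h4 : i ∈ S <;> by_cases h5 : i ∈ T <;> simp [h4, h5]
  rw [prod_congr rfl h3, exp_prod t hS hT L]
  congr 1
  rw [hL]
  field_simp
  ring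

end Final

end T9

/-- T9a: exact law of the pair of occupation sets. -/
theorem occ_law (n : ℕ) (hn : 1 ≤ n) (t : NNReal) (ht : t ≤ 1) (a b : ℕ) (ha : 1 ≤ a) (hb : 1 ≤ b)
    {Ω : Type} [MeasurableSpace Ω] (P : Measure Ω) [IsProbabilityMeasure P]
    (C : Ω → ℕ × ℕ) (Z : ℕ → Ω → ((ℝ × ℝ) × ℝ) × (ℝ × ℝ)) (hM : Model n t P C Z)
    (F : Finset (ℕ × ℕ) → Finset (ℕ × ℕ) → ℝ) :
    Integrable (fun ω => F (occ1 n a b C Z ω) (occ2 n a b t C Z ω)) P ∧
    ∫ ω, F (occ1 n a b C Z ω) (occ2 n a b t C Z ω) ∂P =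
      EJ (pcell n a b) (rcell n a b t) (box a b) F := by
  have : NeZero n := ⟨by omega⟩
  have ht0 : (0 : ℝ) ≤ t := t.2
  have ht1 : (t : ℝ) ≤ 1 := by exact_mod_cast ht
  have ha0 : (0 : ℝ) < a := by exact_mod_cast ha
  have hb0 : (0 : ℝ) < b := by exact_mod_cast hb
  -- the avoidance events
  have hav : ∀ S T : Finset (ℕ × ℕ), S ⊆ box a b → T ⊆ box a b →
      Integrable (fun ω => if Disjoint (occ1 n a b C Z ω) S ∧ Disjoint (occ2 n a b t C Z ω) T
        then (1 : ℝ) else 0) P ∧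
      ∫ ω, (if Disjoint (occ1 n a b C Z ω) S ∧ Disjoint (occ2 n a b t C Z ω) T
        then (1 : ℝ) else 0) ∂P =
      EJ (pcell n a b) (rcell n a b t) (box a b)
        (fun A B => if Disjoint A S ∧ Disjoint B T then (1 : ℝ) else 0) := by
    intro S T hS hT
    have hm := T9.measurableSet_Wset (T9.measurableSet_D1 n a b t S T)
      (T9.measurableSet_D2 n a b T)
    have hae : AEMeasurable (fun ω => (C ω, fun i => Z i ω)) P :=
      (T9.aemeas_C hM).prodMk (T9.aemeas_Zs hM)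
    have hnull : NullMeasurableSet ((fun ω => (C ω, fun i => Z i ω)) ⁻¹'
        T9.Wset (T9.D1 n a b t S T) (T9.D2 n a b T)) P := hae.nullMeasurableSet_preimage hm
    have hfun : (fun ω => if Disjoint (occ1 n a b C Z ω) S ∧ Disjoint (occ2 n a b t C Z ω) T
        then (1 : ℝ) else 0) = ((fun ω => (C ω, fun i => Z i ω)) ⁻¹'
        T9.Wset (T9.D1 n a b t S T) (T9.D2 n a b T)).indicator 1 := by
      funext ω
      by_cases h : Disjoint (occ1 n a b C Z ω) S ∧ Disjoint (occ2 n a b t C Z ω) T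
      · have h' : ω ∈ (fun ω => (C ω, fun i => Z i ω)) ⁻¹'
            T9.Wset (T9.D1 n a b t S T) (T9.D2 n a b T) := (T9.avoid_iff n a b t C Z S T ω).mp h
        rw [if_pos h, Set.indicator_of_mem h']
        rfl
      · have h' : ω ∉ (fun ω => (C ω, fun i => Z i ω)) ⁻¹'
            T9.Wset (T9.D1 n a b t S T) (T9.D2 n a b T) :=
          fun h' => h ((T9.avoid_iff n a b t C Z S T ω).mpr h')
        rw [if_neg h, Set.indicator_of_notMem h']
    have hS' : (#S : ℝ) + #(T \ S) * (1 - t) ≤ (a : ℝ) * b := by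
      have h1 : #S + #(T \ S) ≤ a * b := by
        rw [← T9.card_box a b, ← card_union_of_disjoint disjoint_sdiff]
        exact card_le_card (union_subset hS (sdiff_subset.trans hT))
      have h2 : (#S : ℝ) + #(T \ S) ≤ (a : ℝ) * b := by exact_mod_cast h1
      have h3 : (#(T \ S) : ℝ) * (1 - t) ≤ #(T \ S) :=
        mul_le_of_le_one_right (by positivity) (by linarith)
      linarith
    have hT' : (#T : ℝ) ≤ (a : ℝ) * b := by
      have h1 : #T ≤ a * b := by
        rw [← T9.card_box a b]; exact card_le_card hT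
      exact_mod_cast h1
    have hprob := T9.prob_Wset hM (T9.measurableSet_D1 n a b t S T)
      (T9.measurableSet_D2 n a b T)
      (x := 1 - ((#S : ℝ) + #(T \ S) * (1 - t)) / ((a : ℝ) * b))
      (y := 1 - (#T : ℝ) / ((a : ℝ) * b))
      (by rw [sub_nonneg, div_le_one (by positivity)]; exact hS')
      (by rw [sub_nonneg, div_le_one (by positivity)]; exact hT')
      (T9.prob_D1 ha hb ht0 ht1 hS hT) (T9.prob_D2 ha hb hT)
    rw [hfun]
    refine ⟨(integrable_const (1 : ℝ)).indicator₀ hnull, ?_⟩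
    rw [integral_indicator₀ hnull]
    simp only [Pi.one_apply]
    rw [setIntegral_const, smul_eq_mul, mul_one, measureReal_def, hprob,
      ENNReal.toReal_ofReal (by positivity), T9.avoid_value hn ha hb t hS hT]
  -- expansion
  have hsub : ∀ {A V S : Finset (ℕ × ℕ)}, V ⊆ A → A ⊆ S → (S \ A) ∪ V ⊆ S :=
    fun hV hA => union_subset sdiff_subset (hV.trans hA)
  have hF : (fun ω => F (occ1 n a b C Z ω) (occ2 n a b t C Z ω)) = fun ω =>
      ∑ A₀ ∈ (box a b).powerset, ∑ B₀ ∈ (box a b).powerset, ∑ V ∈ A₀.powerset,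
        ∑ W ∈ B₀.powerset, F A₀ B₀ * ((-1 : ℝ) ^ #V * (-1 : ℝ) ^ #W) *
        (if Disjoint (occ1 n a b C Z ω) ((box a b \ A₀) ∪ V) ∧
          Disjoint (occ2 n a b t C Z ω) ((box a b \ B₀) ∪ W) then 1 else 0) := by
    funext ω
    exact T9.fun_eq (box a b) F _ _ (T9.occ1_subset ha hb n C Z ω)
      (T9.occ2_subset ha hb n t C Z ω)
  have hint : ∀ A₀ ∈ (box a b).powerset, ∀ B₀ ∈ (box a b).powerset, ∀ V ∈ A₀.powerset,
      ∀ W ∈ B₀.powerset, Integrable (fun ω => F A₀ B₀ * ((-1 : ℝ) ^ #V * (-1 : ℝ) ^ #W) *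
        (if Disjoint (occ1 n a b C Z ω) ((box a b \ A₀) ∪ V) ∧
          Disjoint (occ2 n a b t C Z ω) ((box a b \ B₀) ∪ W) then 1 else 0)) P := by
    intro A₀ hA₀ B₀ hB₀ V hV W hW
    rw [mem_powerset] at hA₀ hB₀ hV hW
    exact (hav _ _ (hsub hV hA₀) (hsub hW hB₀)).1.const_mul _
  rw [hF]
  refine ⟨integrable_finset_sum _ fun A₀ hA₀ => integrable_finset_sum _ fun B₀ hB₀ =>
    integrable_finset_sum _ fun V hV => integrable_finset_sum _ fun W hW =>
      hint A₀ hA₀ B₀ hB₀ V hV W hW, ?_⟩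
  rw [integral_finset_sum _ fun A₀ hA₀ => integrable_finset_sum _ fun B₀ hB₀ =>
    integrable_finset_sum _ fun V hV => integrable_finset_sum _ fun W hW =>
      hint A₀ hA₀ B₀ hB₀ V hV W hW]
  have hEJ : EJ (pcell n a b) (rcell n a b t) (box a b) F =
      ∑ A₀ ∈ (box a b).powerset, ∑ B₀ ∈ (box a b).powerset, ∑ V ∈ A₀.powerset,
        ∑ W ∈ B₀.powerset, F A₀ B₀ * ((-1 : ℝ) ^ #V * (-1 : ℝ) ^ #W) *
        EJ (pcell n a b) (rcell n a b t) (box a b) (fun A B =>
          (if Disjoint A ((box a b \ A₀) ∪ V) ∧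
          Disjoint B ((box a b \ B₀) ∪ W) then 1 else 0)) := by
    rw [T9.EJ_congr _ _ _ (fun A hA B hB => T9.fun_eq (box a b) F A B hA hB), T9.EJ_sum]
    refine sum_congr rfl fun A₀ _ => ?_
    rw [T9.EJ_sum]
    refine sum_congr rfl fun B₀ _ => ?_
    rw [T9.EJ_sum]
    refine sum_congr rfl fun V _ => ?_
    rw [T9.EJ_sum]
    refine sum_congr rfl fun W _ => ?_
    rw [T9.EJ_const_mul]
  rw [hEJ]
  refine sum_congr rfl fun A₀ hA₀ => ?_
  rw [integral_finset_sum _ fun B₀ hB₀ => integrable_finset_sum _ fun V hV =>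
    integrable_finset_sum _ fun W hW => hint A₀ hA₀ B₀ hB₀ V hV W hW]
  refine sum_congr rfl fun B₀ hB₀ => ?_
  rw [integral_finset_sum _ fun V hV => integrable_finset_sum _ fun W hW =>
    hint A₀ hA₀ B₀ hB₀ V hV W hW]
  refine sum_congr rfl fun V hV => ?_
  rw [integral_finset_sum _ fun W hW => hint A₀ hA₀ B₀ hB₀ V hV W hW]
  refine sum_congr rfl fun W hW => ?_
  rw [integral_const_mul]
  rw [mem_powerset] at hA₀ hB₀ hV hW
  congr 1
  exact (hav _ _ (hsub hV hA₀) (hsub hW hB₀)).2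

end Pool.Agent.LPP
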