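import Pool.Agent.Lib.MP_6b8a80_h32.T9b_Prob

/-!
# MP_6b8a80, task T9b: the discrete last passage times converge in `L²`
-/

set_option autoImplicit false
set_option linter.unusedSectionVars false
set_option linter.unusedVariables false
set_option linter.deprecated false

namespace Pool.Agent.LPP

open Finset MeasureTheory ProbabilityTheory
open scoped ENNReal

namespace T9b

/-- a marked point seen as an ordinary or as a new point -/
def pr (b : Bool) (x : X) : ℝ × ℝ := if b then x.2 else x.1.1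

theorem W_eq (z : ℕ → X) (u : Bool × ℕ) : W z u = pr u.1 (z u.2) := rfl

theorem measurable_pr (b : Bool) : Measurable (pr b) := by
  cases b
  · exact measurable_fst.comp measurable_fst
  · exact measurable_snd

/-- law of a mark -/
noncomputable def nu (n : ℕ) : Measure X :=
  ((mu n).prod (volume.restrict (Set.Icc (0 : ℝ) 1))).prod (mu n)

instance unif_prob : IsProbabilityMeasure (volume.restrict (Set.Icc (0 : ℝ) 1)) := by
  constructor
  simp

instance nu_prob (n : ℕ) [Fact (1 ≤ n)] : IsProbabilityMeasure (nu n) := by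
  unfold nu
  infer_instance

theorem map_pr_nu (n : ℕ) [Fact (1 ≤ n)] (b : Bool) : Measure.map (pr b) (nu n) = mu n := by
  cases b
  · have h1 : pr false = Prod.fst ∘ Prod.fst := rfl
    rw [h1, ← Measure.map_map measurable_fst measurable_fst, nu, Measure.map_fst_prod,
      measure_univ, one_smul, Measure.map_fst_prod, measure_univ, one_smul]
  · have h1 : pr true = Prod.snd := rfl
    rw [h1, nu, Measure.map_snd_prod, measure_univ, one_smul]

theorem map_pr_pair (n : ℕ) [Fact (1 ≤ n)] {b b' : Bool} (h : b ≠ b') :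
    Measure.map (fun x => (pr b x, pr b' x)) (nu n) = (mu n).prod (mu n) := by
  have h0 : Measure.map (fun x => (pr false x, pr true x)) (nu n) = (mu n).prod (mu n) := by
    have h1 : (fun x => (pr false x, pr true x)) = Prod.map (Prod.fst : (ℝ × ℝ) × ℝ → ℝ × ℝ)
      (id : ℝ × ℝ → ℝ × ℝ) := rfl
    rw [h1, nu, ← Measure.map_prod_map _ _ measurable_fst measurable_id, Measure.map_id,
      Measure.map_fst_prod, measure_univ, one_smul]
  have hb : (b = false ∧ b' = true) ∨ (b = true ∧ b' = false) := by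
    cases b <;> cases b' <;> simp_all
  rcases hb with ⟨rfl, rfl⟩ | ⟨rfl, rfl⟩
  · exact h0
  · have h2 : (fun x => (pr true x, pr false x)) =
        Prod.swap ∘ (fun x => (pr false x, pr true x)) := rfl
    rw [h2, ← Measure.map_map measurable_swap ((measurable_pr _).prodMk (measurable_pr _)), h0,
      Measure.prod_swap]

section

variable {n : ℕ} {t : NNReal} {Ω : Type} [MeasurableSpace Ω] {P : Measure Ω}
  [IsProbabilityMeasure P] {C : Ω → ℕ × ℕ} {Z : ℕ → Ω → X}

theorem aemeas_C (hM : Model n t P C Z) : AEMeasurable C P := by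
  apply AEMeasurable.of_map_ne_zero
  rw [hM.law_C]
  exact IsProbabilityMeasure.ne_zero _

theorem law_Z' (hM : Model n t P C Z) (i : ℕ) : Measure.map (Z i) P = nu n := hM.law_Z i

theorem aemeas_Z [Fact (1 ≤ n)] (hM : Model n t P C Z) (i : ℕ) : AEMeasurable (Z i) P := by
  apply AEMeasurable.of_map_ne_zero
  rw [law_Z' hM]
  exact IsProbabilityMeasure.ne_zero _

theorem aemeas_Zall [Fact (1 ≤ n)] (hM : Model n t P C Z) :
    AEMeasurable (fun ω i => Z i ω) P :=
  aemeasurable_pi_lambda _ (fun i => aemeas_Z hM i)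

/-- joint law of two labelled points -/
theorem joint_law [Fact (1 ≤ n)] (hM : Model n t P C Z) {u v : Bool × ℕ} (h : u ≠ v) :
    Measure.map (fun ω => (W (fun i => Z i ω) u, W (fun i => Z i ω) v)) P =
      (mu n).prod (mu n) := by
  have hmap : ∀ w : Bool × ℕ, Measure.map (fun ω => pr w.1 (Z w.2 ω)) P = mu n := by
    intro w
    have := AEMeasurable.map_map_of_aemeasurable (μ := P) (f := Z w.2) (g := pr w.1)
      (measurable_pr w.1).aemeasurable (aemeas_Z hM w.2)
    rw [law_Z' hM, map_pr_nu] at this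
    exact this.symm
  have haem : ∀ w : Bool × ℕ, AEMeasurable (fun ω => pr w.1 (Z w.2 ω)) P := fun w =>
    (measurable_pr w.1).comp_aemeasurable (aemeas_Z hM w.2)
  by_cases h2 : u.2 = v.2
  · have h1 : u.1 ≠ v.1 := fun he => h (Prod.ext he h2)
    have := AEMeasurable.map_map_of_aemeasurable (μ := P) (f := Z v.2)
      (g := fun x => (pr u.1 x, pr v.1 x))
      ((measurable_pr u.1).prodMk (measurable_pr v.1)).aemeasurable (aemeas_Z hM v.2)
    rw [law_Z' hM, map_pr_pair n h1] at this
    rw [this]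
    congr 1
    funext ω
    simp only [W_eq, Function.comp_apply, h2]
  · have hi : IndepFun (fun ω => pr u.1 (Z u.2 ω)) (fun ω => pr v.1 (Z v.2 ω)) P :=
      (hM.indep_Z.indepFun h2).comp (measurable_pr u.1) (measurable_pr v.1)
    have := (indepFun_iff_map_prod_eq_prod_map_map (haem u) (haem v)).mp hi
    rw [hmap, hmap] at this
    exact this

theorem coll_le [Fact (1 ≤ n)] (hM : Model n t P C Z) {a b : ℕ} (ha : 1 ≤ a) (hb : 1 ≤ b)
    {u v : Bool × ℕ} (h : u ≠ v) :
    P {ω | Coll (cellOf n a b) (W (fun i => Z i ω)) u v} ≤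
      ENNReal.ofReal (1 / a) + ENNReal.ofReal (1 / b) := by
  have hae : AEMeasurable (fun ω => (W (fun i => Z i ω) u, W (fun i => Z i ω) v)) P :=
    ((measurable_pr u.1).comp_aemeasurable (aemeas_Z hM u.2)).prodMk
      ((measurable_pr v.1).comp_aemeasurable (aemeas_Z hM v.2))
  have hms : MeasurableSet {p : (ℝ × ℝ) × (ℝ × ℝ) | (cellOf n a b p.1).1 =
      (cellOf n a b p.2).1 ∨ (cellOf n a b p.1).2 = (cellOf n a b p.2).2} := by
    have hm1 : Measurable (fun y : ℝ × ℝ => (cellOf n a b y).1) :=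
      measurable_fst.comp (measurable_cell n a b)
    have hm2 : Measurable (fun y : ℝ × ℝ => (cellOf n a b y).2) :=
      measurable_snd.comp (measurable_cell n a b)
    exact (measurableSet_eq_fun (hm1.comp measurable_fst) (hm1.comp measurable_snd)).union
      (measurableSet_eq_fun (hm2.comp measurable_fst) (hm2.comp measurable_snd))
  have h1 := coll_prob (n := n) (a := a) (b := b) Fact.out ha hb
  rw [← joint_law hM h, Measure.map_apply_of_aemeasurable hae hms] at h1
  exact h1

open Classical in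
/-- the dominating function, extended nonnegative version, as a function on the canonical space -/
noncomputable def De (n a b : ℕ) (y : (ℕ × ℕ) × (ℕ → X)) : ℝ≥0∞ :=
  (#(Lab y.1) : ℝ≥0∞) ^ 2 * ∑ u ∈ Lab y.1, ∑ v ∈ Lab y.1,
    if u ≠ v then Set.indicator {z | Coll (cellOf n a b) (W z) u v} 1 y.2 else 0

theorem ofReal_Dm (a b : ℕ) (y : (ℕ × ℕ) × (ℕ → X)) :
    ENNReal.ofReal (Dm (cellOf n a b) (W y.2) (Lab y.1)) = De n a b y := by
  classical
  unfold Dm De
  rw [ENNReal.ofReal_mul (by positivity), ENNReal.ofReal_pow (by positivity),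
    ENNReal.ofReal_natCast, ENNReal.ofReal_sum_of_nonneg
      (fun u _ => Finset.sum_nonneg fun v _ => by split_ifs <;> norm_num)]
  congr 1
  refine Finset.sum_congr rfl fun u _ => ?_
  rw [ENNReal.ofReal_sum_of_nonneg (fun v _ => by split_ifs <;> norm_num)]
  refine Finset.sum_congr rfl fun v _ => ?_
  by_cases h1 : u = v
  · simp [h1]
  · by_cases h2 : Coll (cellOf n a b) (W y.2) u v
    · simp [h1, h2]
    · simp [h1, h2]

theorem measurable_W (u : Bool × ℕ) : Measurable (fun z : ℕ → X => W z u) :=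
  (measurable_pr u.1).comp (measurable_pi_apply u.2)

theorem measurableSet_coll (a b : ℕ) (u v : Bool × ℕ) :
    MeasurableSet {z : ℕ → X | Coll (cellOf n a b) (W z) u v} := by
  have hm1 : Measurable (fun y : ℝ × ℝ => (cellOf n a b y).1) :=
    measurable_fst.comp (measurable_cell n a b)
  have hm2 : Measurable (fun y : ℝ × ℝ => (cellOf n a b y).2) :=
    measurable_snd.comp (measurable_cell n a b)
  exact (measurableSet_eq_fun (hm1.comp (measurable_W u)) (hm1.comp (measurable_W v))).union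
    (measurableSet_eq_fun (hm2.comp (measurable_W u)) (hm2.comp (measurable_W v)))

theorem measurable_De (a b : ℕ) : Measurable (De n a b) := by
  classical
  refine measurable_from_prod_countable_right fun c => ?_
  unfold De
  show Measurable fun z : ℕ → X => (#(Lab c) : ℝ≥0∞) ^ 2 * ∑ u ∈ Lab c, ∑ v ∈ Lab c,
    if u ≠ v then Set.indicator {z | Coll (cellOf n a b) (W z) u v} (1 : (ℕ → X) → ℝ≥0∞) z else 0
  refine Measurable.const_mul (f := fun z : ℕ → X => ∑ u ∈ Lab c, ∑ v ∈ Lab c,
    if u ≠ v then Set.indicator {z | Coll (cellOf n a b) (W z) u v} (1 : (ℕ → X) → ℝ≥0∞) z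
    else 0) ?_ _
  refine Finset.measurable_sum _ fun u _ => Finset.measurable_sum _ fun v _ => ?_
  by_cases h : u = v
  · simp [h]
  · simp only [ne_eq, h, not_false_eq_true, if_true]
    exact measurable_one.indicator (measurableSet_coll a b u v)

theorem lintegral_inner [Fact (1 ≤ n)] (hM : Model n t P C Z) {a b : ℕ} (ha : 1 ≤ a)
    (hb : 1 ≤ b) (c : ℕ × ℕ) :
    ∫⁻ z, De n a b (c, z) ∂(Measure.map (fun ω i => Z i ω) P) ≤
      (#(Lab c) : ℝ≥0∞) ^ 4 * (ENNReal.ofReal (1 / a) + ENNReal.ofReal (1 / b)) := by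
  classical
  unfold De
  simp only
  rw [lintegral_const_mul _ (by
    refine Finset.measurable_sum _ fun u _ => Finset.measurable_sum _ fun v _ => ?_
    by_cases h : u = v
    · simp [h]
    · simp only [ne_eq, h, not_false_eq_true, if_true]
      exact measurable_one.indicator (measurableSet_coll a b u v))]
  rw [lintegral_finset_sum _ (fun u _ => Finset.measurable_sum _ fun v _ => by
    by_cases h : u = v
    · simp [h]
    · simp only [ne_eq, h, not_false_eq_true, if_true]
      exact measurable_one.indicator (measurableSet_coll a b u v))]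
  have h1 : ∀ u ∈ Lab c, ∫⁻ z, ∑ v ∈ Lab c,
      (if u ≠ v then Set.indicator {z | Coll (cellOf n a b) (W z) u v} (1 : (ℕ → X) → ℝ≥0∞) z
        else 0) ∂(Measure.map (fun ω i => Z i ω) P) ≤
      (#(Lab c) : ℝ≥0∞) * (ENNReal.ofReal (1 / a) + ENNReal.ofReal (1 / b)) := by
    intro u _
    rw [lintegral_finset_sum _ (fun v _ => by
      by_cases h : u = v
      · simp [h]
      · simp only [ne_eq, h, not_false_eq_true, if_true]
        exact measurable_one.indicator (measurableSet_coll a b u v))]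
    rw [← nsmul_eq_mul]
    refine Finset.sum_le_card_nsmul _ _ _ fun v _ => ?_
    by_cases h : u = v
    · simp [h]
    · simp only [ne_eq, h, not_false_eq_true, if_true]
      rw [lintegral_indicator_one (measurableSet_coll a b u v),
        Measure.map_apply_of_aemeasurable (aemeas_Zall hM) (measurableSet_coll a b u v)]
      exact coll_le hM ha hb h
  calc (#(Lab c) : ℝ≥0∞) ^ 2 * ∑ u ∈ Lab c, ∫⁻ z, ∑ v ∈ Lab c,
      (if u ≠ v then Set.indicator {z | Coll (cellOf n a b) (W z) u v} (1 : (ℕ → X) → ℝ≥0∞) z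
        else 0) ∂(Measure.map (fun ω i => Z i ω) P)
      ≤ (#(Lab c) : ℝ≥0∞) ^ 2 * ((#(Lab c) : ℝ≥0∞) * ((#(Lab c) : ℝ≥0∞) *
        (ENNReal.ofReal (1 / a) + ENNReal.ofReal (1 / b)))) := by
        gcongr
        rw [← nsmul_eq_mul]
        exact Finset.sum_le_card_nsmul _ _ _ h1
    _ = _ := by ring

/-- fourth moment of the number of points -/
noncomputable def K4 (n : ℕ) (t : NNReal) : ℝ :=
  ∫ c : ℕ × ℕ, ((c.1 : ℝ) + c.2) ^ 4
    ∂((poissonMeasure ((n : NNReal) ^ 2)).prod (poissonMeasure (t * (n : NNReal) ^ 2)))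

theorem K4_nonneg (n : ℕ) (t : NNReal) : 0 ≤ K4 n t :=
  integral_nonneg fun c => by positivity

theorem law_C' (hM : Model n t P C Z) : Measure.map C P =
    (poissonMeasure ((n : NNReal) ^ 2)).prod (poissonMeasure (t * (n : NNReal) ^ 2)) := by
  rw [← toMeasure_poisson, ← toMeasure_poisson]
  exact hM.law_C

theorem lintegral_De [Fact (1 ≤ n)] (hM : Model n t P C Z) {a b : ℕ} (ha : 1 ≤ a)
    (hb : 1 ≤ b) :
    ∫⁻ ω, De n a b (C ω, fun i => Z i ω) ∂P ≤
      ENNReal.ofReal (16 * K4 n t * (1 / a + 1 / b)) := by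
  have hae : AEMeasurable (fun ω => (C ω, fun i => Z i ω)) P :=
    (aemeas_C hM).prodMk (aemeas_Zall hM)
  have h1 : ∫⁻ ω, De n a b (C ω, fun i => Z i ω) ∂P =
      ∫⁻ y, De n a b y ∂(Measure.map (fun ω => (C ω, fun i => Z i ω)) P) :=
    (lintegral_map' (measurable_De a b).aemeasurable hae).symm
  have h2 := (indepFun_iff_map_prod_eq_prod_map_map (aemeas_C hM) (aemeas_Zall hM)).mp hM.indep_CZ
  have : IsProbabilityMeasure (Measure.map (fun ω i => Z i ω) P) :=
    Measure.isProbabilityMeasure_map (aemeas_Zall hM)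
  have : IsProbabilityMeasure (Measure.map C P) :=
    Measure.isProbabilityMeasure_map (aemeas_C hM)
  rw [h1, h2, lintegral_prod _ (measurable_De a b).aemeasurable]
  calc ∫⁻ c, ∫⁻ z, De n a b (c, z) ∂(Measure.map (fun ω i => Z i ω) P) ∂(Measure.map C P)
      ≤ ∫⁻ c, (#(Lab c) : ℝ≥0∞) ^ 4 * (ENNReal.ofReal (1 / a) + ENNReal.ofReal (1 / b))
          ∂(Measure.map C P) := lintegral_mono fun c => lintegral_inner hM ha hb c
    _ = (∫⁻ c, (#(Lab c) : ℝ≥0∞) ^ 4 ∂(Measure.map C P)) *
          (ENNReal.ofReal (1 / a) + ENNReal.ofReal (1 / b)) :=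
        lintegral_mul_const _ Measurable.of_discrete
    _ = ENNReal.ofReal (16 * K4 n t) * ENNReal.ofReal (1 / a + 1 / b) := by
        rw [ENNReal.ofReal_add (by positivity) (by positivity)]
        congr 1
        rw [law_C' hM, K4, ← integral_const_mul,
          ofReal_integral_eq_lintegral_ofReal ((integrable_pow _ _ 4).const_mul 16)
            (Filter.Eventually.of_forall fun c => by positivity)]
        refine lintegral_congr fun c => ?_
        rw [card_Lab]
        have h3 : (16 : ℝ) * ((c.1 : ℝ) + c.2) ^ 4 = (((2 * (c.1 + c.2) : ℕ) : ℝ)) ^ 4 := by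
          push_cast; ring
        rw [h3, ENNReal.ofReal_pow (by positivity), ENNReal.ofReal_natCast]
    _ = _ := by
        rw [← ENNReal.ofReal_mul (by have := K4_nonneg n t; positivity)]

theorem integral_le_of_le {f : Ω → ℝ} (hf : ∀ ω, 0 ≤ f ω) {B : ℝ} (hB : 0 ≤ B)
    (h : ∫⁻ ω, ENNReal.ofReal (f ω) ∂P ≤ ENNReal.ofReal B) : ∫ ω, f ω ∂P ≤ B := by
  by_cases hi : Integrable f P
  · rw [integral_eq_lintegral_of_nonneg_ae (Filter.Eventually.of_forall hf)
      hi.aestronglyMeasurable]
    exact ENNReal.toReal_le_of_le_ofReal hB h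
  · rw [integral_undef hi]
    exact hB

/-- measurability of the longest chain -/
theorem measurable_Lp {Y : Type} [MeasurableSpace Y] (z : Y → ℕ → X) (hz : Measurable z)
    (I : Y → Finset (Bool × ℕ)) (hI : ∀ u, Measurable (fun y => u ∈ I y)) :
    Measurable (fun y => Lp (W (z y) '' (I y : Set (Bool × ℕ)))) := by
  classical
  refine measurable_of_Ici fun k => ?_
  have h1 : (fun y => Lp (W (z y) '' (I y : Set (Bool × ℕ)))) ⁻¹' Set.Ici k =
      {y | ∃ J : Finset (Bool × ℕ), (∀ u, u ∈ J → u ∈ I y) ∧ #J = k ∧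
        ∀ u, u ∈ J → ∀ v, v ∈ J → u ≠ v → W (z y) u ≠ W (z y) v ∧
          (W (z y) u ≤ W (z y) v ∨ W (z y) v ≤ W (z y) u)} := by
    ext y
    show k ≤ Lp (W (z y) '' (I y : Set (Bool × ℕ))) ↔ _
    rw [le_Lp_iff]
    rfl
  rw [h1]
  have hW : ∀ u, Measurable (fun y => W (z y) u) := fun u => (measurable_W u).comp hz
  have hle : ∀ u v, Measurable (fun y => W (z y) u ≤ W (z y) v) := fun u v =>
    measurableSet_setOfPred.mp (measurableSet_le (hW u) (hW v))
  have hne : ∀ u v, Measurable (fun y => W (z y) u ≠ W (z y) v) := fun u v =>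
    (measurableSet_setOfPred.mp (measurableSet_eq_fun (hW u) (hW v))).not
  refine measurableSet_setOfPred.mpr (Measurable.exists fun J => ?_)
  refine Measurable.and (Measurable.forall fun u => Measurable.imp measurable_const (hI u))
    (Measurable.and measurable_const (Measurable.forall fun u => Measurable.imp measurable_const
      (Measurable.forall fun v => Measurable.imp measurable_const
        (Measurable.imp measurable_const ((hne u v).and ((hle u v).or (hle v u)))))))

theorem measurable_I1 (u : Bool × ℕ) :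
    Measurable (fun y : (ℕ × ℕ) × (ℕ → X) => u ∈ I1 y.1) :=
  (Measurable.of_discrete (f := fun c : ℕ × ℕ => u ∈ I1 c)).comp measurable_fst

theorem measurable_I2 (t : NNReal) (u : Bool × ℕ) :
    Measurable (fun y : (ℕ × ℕ) × (ℕ → X) => u ∈ I2 t y.1 y.2) := by
  classical
  have h1 : (fun y : (ℕ × ℕ) × (ℕ → X) => u ∈ I2 t y.1 y.2) =
      fun y => (u ∈ I1 y.1 ∧ (t : ℝ) ≤ (y.2 u.2).1.2) ∨ u ∈ ({true} ×ˢ range y.1.2 :
        Finset (Bool × ℕ)) := by
    funext y
    simp only [I2, Finset.mem_union, Finset.mem_filter]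
  rw [h1]
  refine Measurable.or (Measurable.and (measurable_I1 u) ?_) ?_
  · have hm : Measurable (fun y : (ℕ × ℕ) × (ℕ → X) => (y.2 u.2).1.2) :=
      measurable_snd.comp (measurable_fst.comp ((measurable_pi_apply u.2).comp measurable_snd))
    exact measurableSet_setOfPred.mp (measurableSet_le measurable_const hm)
  · have hc : Measurable (fun c : ℕ × ℕ => u ∈ ({true} ×ˢ range c.2 :
      Finset (Bool × ℕ))) := Measurable.of_discrete
    exact hc.comp measurable_fst

theorem memLp_of [Fact (1 ≤ n)] (hM : Model n t P C Z)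
    {Φ : (ℕ × ℕ) × (ℕ → X) → ℕ} (hΦ : Measurable Φ) (hb : ∀ y, Φ y ≤ #(Lab y.1)) :
    MemLp (fun ω => (Φ (C ω, fun i => Z i ω) : ℝ)) 2 P := by
  have hae : AEMeasurable (fun ω => (C ω, fun i => Z i ω)) P :=
    (aemeas_C hM).prodMk (aemeas_Zall hM)
  have h1 : MemLp (fun c : ℕ × ℕ => (((2 * (c.1 + c.2) : ℕ)) : ℝ)) 2 (Measure.map C P) := by
    rw [law_C' hM, memLp_two_iff_integrable_sq Measurable.of_discrete.aestronglyMeasurable]
    refine ((integrable_pow _ _ 2).const_mul 4).congr (Filter.Eventually.of_forall fun c => ?_)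
    push_cast
    ring
  have h2 := (memLp_map_measure_iff Measurable.of_discrete.aestronglyMeasurable
    (aemeas_C hM)).mp h1
  refine h2.mono ?_ (Filter.Eventually.of_forall fun ω => ?_)
  · exact ((Measurable.of_discrete (f := fun k : ℕ => (k : ℝ))).comp
      hΦ).comp_aemeasurable hae |>.aestronglyMeasurable
  · rw [Real.norm_of_nonneg (Nat.cast_nonneg _)]
    simp only [Function.comp_apply]
    rw [Real.norm_of_nonneg (Nat.cast_nonneg _)]
    have := hb (C ω, fun i => Z i ω)
    rw [card_Lab] at this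
    exact_mod_cast this

end

end T9b

open T9b in
/-- T9b: the discrete last passage times converge in `L²`. -/
theorem approx (n : ℕ) (hn : 1 ≤ n) (t : NNReal) (ht : t ≤ 1)
    {Ω : Type} [MeasurableSpace Ω] (P : Measure Ω) [IsProbabilityMeasure P]
    (C : Ω → ℕ × ℕ) (Z : ℕ → Ω → ((ℝ × ℝ) × ℝ) × (ℝ × ℝ)) (hM : Model n t P C Z) :
    MemLp (L1 C Z) 2 P ∧ MemLp (L2 t C Z) 2 P ∧
    ∀ ε : ℝ, 0 < ε → ∃ K : ℕ, ∀ a b : ℕ, K ≤ a → K ≤ b →
      ∫ ω, (L1 C Z ω - ell (occ1 n a b C Z ω)) ^ 2 ∂P ≤ ε ∧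
      ∫ ω, (L2 t C Z ω - ell (occ2 n a b t C Z ω)) ^ 2 ∂P ≤ ε := by
  have : Fact (1 ≤ n) := ⟨hn⟩
  refine ⟨?_, ?_, fun ε hε => ?_⟩
  · have h1 := memLp_of hM (measurable_Lp (fun y : (ℕ × ℕ) × (ℕ → X) => y.2) measurable_snd
      (fun y => I1 y.1) measurable_I1) (fun y => (Lp_le_card _ _).trans
        (Finset.card_le_card (I1_subset y.1)))
    have h2 : L1 C Z = fun ω => (Lp (W (fun i => Z i ω) '' (I1 (C ω) : Set (Bool × ℕ))) : ℝ) :=
      funext fun ω => L1_eq C Z ω
    rw [h2]
    exact h1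
  · have h1 := memLp_of hM (measurable_Lp (fun y : (ℕ × ℕ) × (ℕ → X) => y.2) measurable_snd
      (fun y => I2 t y.1 y.2) (measurable_I2 t)) (fun y => (Lp_le_card _ _).trans
        (Finset.card_le_card (I2_subset t y.1 y.2)))
    have h2 : L2 t C Z = fun ω =>
        (Lp (W (fun i => Z i ω) '' (I2 t (C ω) (fun i => Z i ω) : Set (Bool × ℕ))) : ℝ) :=
      funext fun ω => L2_eq C Z t ω
    rw [h2]
    exact h1
  · obtain ⟨K, hK⟩ := exists_nat_gt (32 * K4 n t / ε)
    refine ⟨K + 1, fun a b ha hb => ?_⟩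
    have hK4 := K4_nonneg n t
    have ha1 : 1 ≤ a := by omega
    have hb1 : 1 ≤ b := by omega
    have hKa : (K : ℝ) ≤ a := by exact_mod_cast (by omega : K ≤ a)
    have hKb : (K : ℝ) ≤ b := by exact_mod_cast (by omega : K ≤ b)
    have ha0 : (0 : ℝ) < a := by exact_mod_cast ha1
    have hb0 : (0 : ℝ) < b := by exact_mod_cast hb1
    have hbound : 16 * K4 n t * (1 / a + 1 / b) ≤ ε := by
      rw [div_lt_iff₀ hε] at hK
      have e1 : 16 * K4 n t * (1 / a) ≤ ε / 2 := by
        rw [mul_one_div, div_le_iff₀ ha0]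
        nlinarith
      have e2 : 16 * K4 n t * (1 / b) ≤ ε / 2 := by
        rw [mul_one_div, div_le_iff₀ hb0]
        nlinarith
      linarith [mul_add (16 * K4 n t) (1 / (a : ℝ)) (1 / b)]
    have hDe : ∫⁻ ω, De n a b (C ω, fun i => Z i ω) ∂P ≤ ENNReal.ofReal ε :=
      (lintegral_De hM ha1 hb1).trans (ENNReal.ofReal_le_ofReal hbound)
    constructor
    · refine integral_le_of_le (fun ω => sq_nonneg _) hε.le (le_trans (lintegral_mono fun ω => ?_)
        hDe)
      rw [← ofReal_Dm]
      apply ENNReal.ofReal_le_ofReal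
      rw [L1_eq, occ1_eq]
      exact sq_sub_le (cellMap n a b) _ (I1_subset _)
    · refine integral_le_of_le (fun ω => sq_nonneg _) hε.le (le_trans (lintegral_mono fun ω => ?_)
        hDe)
      rw [← ofReal_Dm]
      apply ENNReal.ofReal_le_ofReal
      rw [L2_eq, occ2_eq]
      exact sq_sub_le (cellMap n a b) _ (I2_subset t _ _)

end Pool.Agent.LPP
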