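import Pool.Agent.Lib.MP_6b8a80_h32.DefsP

/-!
# MP_6b8a80, task T9b, deterministic part: cells and chains
-/

set_option autoImplicit false
set_option linter.unusedSectionVars false
set_option linter.unusedVariables false

namespace Pool.Agent.LPP.T9b

open Finset

/-- length of the longest chain in a set of points -/
noncomputable def Lp (s : Set (ℝ × ℝ)) : ℕ :=
  sSup {k : ℕ | ∃ S : Finset (ℝ × ℝ),
    (↑S : Set (ℝ × ℝ)) ⊆ s ∧ IsChain (· ≤ ·) (↑S : Set (ℝ × ℝ)) ∧ S.card = k}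

section

variable {Λ : Type*} [DecidableEq Λ]

/-- labelled points form a chain of distinct points -/
def GoodJ (W : Λ → ℝ × ℝ) (J : Finset Λ) : Prop :=
  ∀ u ∈ J, ∀ v ∈ J, u ≠ v → W u ≠ W v ∧ (W u ≤ W v ∨ W v ≤ W u)

theorem GoodJ.mono {W : Λ → ℝ × ℝ} {J J' : Finset Λ} (h : GoodJ W J) (hJ : J' ⊆ J) :
    GoodJ W J' := fun u hu v hv => h u (hJ hu) v (hJ hv)

theorem GoodJ.injOn {W : Λ → ℝ × ℝ} {J : Finset Λ} (h : GoodJ W J) :
    Set.InjOn W (J : Set Λ) := by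
  intro u hu v hv he
  by_contra hne
  exact (h u hu v hv hne).1 he

/-- a finite chain inside the image comes from labels -/
theorem exists_labels {W : Λ → ℝ × ℝ} {I : Finset Λ} {S : Finset (ℝ × ℝ)}
    (hS : (↑S : Set (ℝ × ℝ)) ⊆ W '' (I : Set Λ)) (hc : IsChain (· ≤ ·) (↑S : Set (ℝ × ℝ))) :
    ∃ J ⊆ I, #J = #S ∧ GoodJ W J := by
  classical
  obtain ⟨J, hJ, hinj, himg⟩ := Finset.exists_subset_injOn_image_eq_of_surjOn (f := W)
    (I : Set Λ) S hS
  have hJ' : J ⊆ I := by exact_mod_cast hJ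
  refine ⟨J, hJ', ?_, ?_⟩
  · rw [← himg, Finset.card_image_of_injOn hinj]
  · intro u hu v hv hne
    have h1 : W u ≠ W v := fun he => hne (hinj hu hv he)
    refine ⟨h1, ?_⟩
    have h2 : W u ∈ (S : Set (ℝ × ℝ)) := by
      rw [← himg]; exact_mod_cast Finset.mem_image_of_mem W hu
    have h3 : W v ∈ (S : Set (ℝ × ℝ)) := by
      rw [← himg]; exact_mod_cast Finset.mem_image_of_mem W hv
    exact hc h2 h3 h1

theorem bdd (W : Λ → ℝ × ℝ) (I : Finset Λ) : ∀ k ∈ {k : ℕ | ∃ S : Finset (ℝ × ℝ),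
    (↑S : Set (ℝ × ℝ)) ⊆ W '' (I : Set Λ) ∧ IsChain (· ≤ ·) (↑S : Set (ℝ × ℝ)) ∧ S.card = k},
    k ≤ #I := by
  rintro k ⟨S, hS, hc, rfl⟩
  obtain ⟨J, hJ, hcard, -⟩ := exists_labels hS hc
  rw [← hcard]
  exact Finset.card_le_card hJ

theorem le_Lp_iff (W : Λ → ℝ × ℝ) (I : Finset Λ) (k : ℕ) :
    k ≤ Lp (W '' (I : Set Λ)) ↔ ∃ J ⊆ I, #J = k ∧ GoodJ W J := by
  classical
  constructor
  · intro hk
    have hmem : Lp (W '' (I : Set Λ)) ∈ {k : ℕ | ∃ S : Finset (ℝ × ℝ),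
        (↑S : Set (ℝ × ℝ)) ⊆ W '' (I : Set Λ) ∧ IsChain (· ≤ ·) (↑S : Set (ℝ × ℝ)) ∧
        S.card = k} := by
      refine Nat.sSup_mem ⟨0, ∅, by simp, by simp, rfl⟩ ⟨#I, bdd W I⟩
    obtain ⟨S, hS, hc, hcard⟩ := hmem
    obtain ⟨J, hJ, hJc, hg⟩ := exists_labels hS hc
    obtain ⟨J', hJ', hJ'c⟩ := Finset.exists_subset_card_eq (s := J) (n := k) (by omega)
    exact ⟨J', hJ'.trans hJ, hJ'c, hg.mono hJ'⟩
  · rintro ⟨J, hJ, hJc, hg⟩
    refine le_csSup ⟨#I, bdd W I⟩ ⟨J.image W, ?_, ?_, ?_⟩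
    · intro p hp
      rw [Finset.coe_image] at hp
      exact Set.image_mono (by exact_mod_cast hJ) hp
    · intro p hp p' hp' hne
      rw [Finset.coe_image] at hp hp'
      obtain ⟨u, hu, rfl⟩ := hp
      obtain ⟨v, hv, rfl⟩ := hp'
      exact (hg u hu v hv (fun he => hne (by rw [he]))).2
    · rw [Finset.card_image_of_injOn hg.injOn, hJc]

theorem Lp_le_card (W : Λ → ℝ × ℝ) (I : Finset Λ) : Lp (W '' (I : Set Λ)) ≤ #I := by
  obtain ⟨J, hJ, hc, -⟩ := (le_Lp_iff W I _).mp le_rfl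
  rw [← hc]
  exact Finset.card_le_card hJ

/-- a collision: two labelled points share a row or a column of cells -/
def Coll (cl : ℝ × ℝ → ℕ × ℕ) (W : Λ → ℝ × ℝ) (u v : Λ) : Prop :=
  (cl (W u)).1 = (cl (W v)).1 ∨ (cl (W u)).2 = (cl (W v)).2

theorem le_ell_iff (A : Finset (ℕ × ℕ)) (k : ℕ) :
    k ≤ ell A ↔ ∃ s ⊆ A, SChain s ∧ #s = k := by
  constructor
  · intro hk
    obtain ⟨s, hs, he⟩ := Finset.exists_mem_eq_sup (A.powerset.filter SChain)
      ⟨∅, by simp [SChain]⟩ card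
    rw [Finset.mem_filter, Finset.mem_powerset] at hs
    have hk' : k ≤ #s := by
      have : ell A = #s := he
      omega
    obtain ⟨s', hs', hc⟩ := Finset.exists_subset_card_eq hk'
    exact ⟨s', hs'.trans hs.1, fun x hx y hy => hs.2 x (hs' hx) y (hs' hy), hc⟩
  · rintro ⟨s, hs, hc, rfl⟩
    exact Finset.le_sup (f := card) (Finset.mem_filter.mpr ⟨Finset.mem_powerset.mpr hs, hc⟩)

/-- monotone cell maps -/
structure CellMap (cl : ℝ × ℝ → ℕ × ℕ) : Prop where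
  mono₁ : ∀ x y : ℝ × ℝ, x.1 ≤ y.1 → (cl x).1 ≤ (cl y).1
  mono₂ : ∀ x y : ℝ × ℝ, x.2 ≤ y.2 → (cl x).2 ≤ (cl y).2

variable {cl : ℝ × ℝ → ℕ × ℕ}

theorem ell_le_Lp (hcl : CellMap cl) (W : Λ → ℝ × ℝ) (I : Finset Λ) :
    ell (I.image (fun u => cl (W u))) ≤ Lp (W '' (I : Set Λ)) := by
  classical
  obtain ⟨s, hs, hc, hk⟩ := (le_ell_iff _ _).mp (le_refl (ell (I.image (fun u => cl (W u)))))
  have hsurj : Set.SurjOn (fun u => cl (W u)) (I : Set Λ) (s : Set (ℕ × ℕ)) := by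
    intro x hx
    have := hs hx
    rw [Finset.mem_image] at this
    obtain ⟨u, hu, he⟩ := this
    exact ⟨u, hu, he⟩
  obtain ⟨J, hJ, hinj, himg⟩ := Finset.exists_subset_injOn_image_eq_of_surjOn _ s hsurj
  rw [le_Lp_iff]
  refine ⟨J, by exact_mod_cast hJ, ?_, ?_⟩
  · rw [← hk, ← himg, Finset.card_image_of_injOn hinj]
  · intro u hu v hv hne
    have h1 : cl (W u) ≠ cl (W v) := fun he => hne (hinj hu hv he)
    have hu' : cl (W u) ∈ s := by rw [← himg]; exact Finset.mem_image_of_mem _ hu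
    have hv' : cl (W v) ∈ s := by rw [← himg]; exact Finset.mem_image_of_mem _ hv
    refine ⟨fun he => h1 (by rw [he]), ?_⟩
    rcases hc _ hu' _ hv' h1 with h2 | h2
    · left
      constructor
      · by_contra hcon
        exact absurd h2.1 (not_lt.mpr (hcl.mono₁ _ _ (not_le.mp hcon).le))
      · by_contra hcon
        exact absurd h2.2 (not_lt.mpr (hcl.mono₂ _ _ (not_le.mp hcon).le))
    · right
      constructor
      · by_contra hcon
        exact absurd h2.1 (not_lt.mpr (hcl.mono₁ _ _ (not_le.mp hcon).le))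
      · by_contra hcon
        exact absurd h2.2 (not_lt.mpr (hcl.mono₂ _ _ (not_le.mp hcon).le))

theorem Lp_le_ell (hcl : CellMap cl) (W : Λ → ℝ × ℝ) (I : Finset Λ)
    (hn : ∀ u ∈ I, ∀ v ∈ I, u ≠ v → ¬ Coll cl W u v) :
    Lp (W '' (I : Set Λ)) ≤ ell (I.image (fun u => cl (W u))) := by
  classical
  obtain ⟨J, hJ, hc, hg⟩ := (le_Lp_iff W I _).mp le_rfl
  rw [← hc, le_ell_iff]
  have hinj : Set.InjOn (fun u => cl (W u)) (J : Set Λ) := by
    intro u hu v hv he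
    by_contra hne
    refine hn u (hJ hu) v (hJ hv) hne (Or.inl ?_)
    simp only at he
    rw [he]
  refine ⟨J.image (fun u => cl (W u)), Finset.image_subset_image hJ, ?_,
    Finset.card_image_of_injOn hinj⟩
  intro x hx y hy hne
  obtain ⟨u, hu, rfl⟩ := Finset.mem_image.mp hx
  obtain ⟨v, hv, rfl⟩ := Finset.mem_image.mp hy
  have huv : u ≠ v := fun he => hne (by rw [he])
  have h1 := hn u (hJ hu) v (hJ hv) huv
  simp only [Coll, not_or] at h1
  rcases (hg u hu v hv huv).2 with h2 | h2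
  · exact Or.inl ⟨lt_of_le_of_ne (hcl.mono₁ _ _ h2.1) h1.1,
      lt_of_le_of_ne (hcl.mono₂ _ _ h2.2) h1.2⟩
  · exact Or.inr ⟨lt_of_le_of_ne (hcl.mono₁ _ _ h2.1) (Ne.symm h1.1),
      lt_of_le_of_ne (hcl.mono₂ _ _ h2.2) (Ne.symm h1.2)⟩

open Classical in
/-- the dominating function -/
noncomputable def Dm (cl : ℝ × ℝ → ℕ × ℕ) (W : Λ → ℝ × ℝ) (Lab : Finset Λ) : ℝ :=
  (#Lab : ℝ) ^ 2 * ∑ u ∈ Lab, ∑ v ∈ Lab, if u ≠ v ∧ Coll cl W u v then 1 else 0

theorem sq_sub_le (hcl : CellMap cl) (W : Λ → ℝ × ℝ) {I Lab : Finset Λ} (hI : I ⊆ Lab) :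
    ((Lp (W '' (I : Set Λ)) : ℝ) - (ell (I.image (fun u => cl (W u))) : ℝ)) ^ 2 ≤
      Dm cl W Lab := by
  classical
  by_cases hn : ∀ u ∈ I, ∀ v ∈ I, u ≠ v → ¬ Coll cl W u v
  · have h1 := le_antisymm (Lp_le_ell hcl W I hn) (ell_le_Lp hcl W I)
    rw [h1, sub_self]
    unfold Dm
    rw [zero_pow two_ne_zero]
    refine mul_nonneg (sq_nonneg _) (Finset.sum_nonneg fun u _ => Finset.sum_nonneg fun v _ => ?_)
    split_ifs <;> norm_num
  · push Not at hn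
    obtain ⟨u, hu, v, hv, hne, hcol⟩ := hn
    have h1 : (Lp (W '' (I : Set Λ)) : ℝ) ≤ #Lab := by
      exact_mod_cast (Lp_le_card W I).trans (Finset.card_le_card hI)
    have h2 : (ell (I.image (fun u => cl (W u))) : ℝ) ≤ Lp (W '' (I : Set Λ)) := by
      exact_mod_cast ell_le_Lp hcl W I
    have h3 : (0 : ℝ) ≤ ell (I.image (fun u => cl (W u))) := Nat.cast_nonneg _
    have h4 : ((Lp (W '' (I : Set Λ)) : ℝ) - (ell (I.image (fun u => cl (W u))) : ℝ)) ^ 2 ≤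
        (#Lab : ℝ) ^ 2 := by
      apply pow_le_pow_left₀ <;> linarith
    refine h4.trans ?_
    unfold Dm
    have h5 : (1 : ℝ) ≤ ∑ u ∈ Lab, ∑ v ∈ Lab, if u ≠ v ∧ Coll cl W u v then 1 else 0 := by
      calc (1 : ℝ) = if u ≠ v ∧ Coll cl W u v then 1 else 0 := by rw [if_pos ⟨hne, hcol⟩]
        _ ≤ ∑ v ∈ Lab, if u ≠ v ∧ Coll cl W u v then 1 else 0 :=
            Finset.single_le_sum (f := fun v => if u ≠ v ∧ Coll cl W u v then (1 : ℝ) else 0)
              (fun v _ => by split_ifs <;> norm_num) (hI hv)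
        _ ≤ _ := Finset.single_le_sum
              (f := fun u => ∑ v ∈ Lab, if u ≠ v ∧ Coll cl W u v then (1 : ℝ) else 0)
              (fun u _ => Finset.sum_nonneg fun v _ => by split_ifs <;> norm_num) (hI hu)
    nlinarith only [sq_nonneg (#Lab : ℝ), h5]

end

/-! ## The labelled points of the model -/

/-- the space of marks -/
abbrev X : Type := ((ℝ × ℝ) × ℝ) × (ℝ × ℝ)

/-- labelled points -/
def W (z : ℕ → X) (u : Bool × ℕ) : ℝ × ℝ := if u.1 then (z u.2).2 else (z u.2).1.1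

/-- labels of the original points -/
def I1 (c : ℕ × ℕ) : Finset (Bool × ℕ) := {false} ×ˢ range c.1

open Classical in
/-- labels of the noisy points -/
noncomputable def I2 (t : NNReal) (c : ℕ × ℕ) (z : ℕ → X) : Finset (Bool × ℕ) :=
  (I1 c).filter (fun u => (t : ℝ) ≤ (z u.2).1.2) ∪ {true} ×ˢ range c.2

/-- all labels -/
def Lab (c : ℕ × ℕ) : Finset (Bool × ℕ) := Finset.univ ×ˢ range (c.1 + c.2)

theorem I1_subset (c : ℕ × ℕ) : I1 c ⊆ Lab c := by
  intro u hu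
  simp only [I1, Lab, Finset.mem_product, Finset.mem_range, Finset.mem_univ,
    true_and] at hu ⊢
  omega

theorem I2_subset (t : NNReal) (c : ℕ × ℕ) (z : ℕ → X) : I2 t c z ⊆ Lab c := by
  classical
  intro u hu
  simp only [I2, Finset.mem_union, Finset.mem_filter] at hu
  rcases hu with hu | hu
  · exact I1_subset c hu.1
  · simp only [Lab, Finset.mem_product, Finset.mem_range, Finset.mem_univ,
      true_and] at hu ⊢
    omega

theorem card_Lab (c : ℕ × ℕ) : #(Lab c) = 2 * (c.1 + c.2) := by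
  simp [Lab]

variable {Ω : Type} (C : Ω → ℕ × ℕ) (Z : ℕ → Ω → X)

theorem L1_eq (ω : Ω) : L1 C Z ω = (Lp (W (fun i => Z i ω) '' (I1 (C ω) : Set (Bool × ℕ))) : ℝ) := by
  unfold L1 Lp
  have : {p | ∃ i < (C ω).1, (Z i ω).1.1 = p} =
      W (fun i => Z i ω) '' (I1 (C ω) : Set (Bool × ℕ)) := by
    ext p
    simp only [Set.mem_ofPred_eq, Set.mem_image, I1, Finset.coe_product, Set.mem_prod]
    constructor
    · rintro ⟨i, hi, rfl⟩
      exact ⟨(false, i), ⟨by simp, by simpa using hi⟩, rfl⟩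
    · rintro ⟨⟨b, i⟩, ⟨hb, hi⟩, rfl⟩
      have hb' : b = false := by simpa using hb
      subst hb'
      exact ⟨i, by simpa using hi, rfl⟩
  rw [this]

theorem L2_eq (t : NNReal) (ω : Ω) : L2 t C Z ω =
    (Lp (W (fun i => Z i ω) '' (I2 t (C ω) (fun i => Z i ω) : Set (Bool × ℕ))) : ℝ) := by
  classical
  unfold L2 Lp
  have : {p | (∃ i < (C ω).1, (t : ℝ) ≤ (Z i ω).1.2 ∧ (Z i ω).1.1 = p) ∨
      (∃ j < (C ω).2, (Z j ω).2 = p)} =
      W (fun i => Z i ω) '' (I2 t (C ω) (fun i => Z i ω) : Set (Bool × ℕ)) := by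
    ext p
    simp only [Set.mem_ofPred_eq, Set.mem_image, Finset.mem_coe, I2, I1, Finset.mem_union,
      Finset.mem_filter, Finset.mem_product, Finset.mem_singleton, Finset.mem_range]
    constructor
    · rintro (⟨i, hi, ht, rfl⟩ | ⟨j, hj, rfl⟩)
      · exact ⟨(false, i), Or.inl ⟨⟨rfl, hi⟩, ht⟩, rfl⟩
      · exact ⟨(true, j), Or.inr ⟨rfl, hj⟩, rfl⟩
    · rintro ⟨⟨b, i⟩, h | h, rfl⟩
      · obtain ⟨⟨hb, hi⟩, ht⟩ := h
        simp only at hb hi ht
        subst hb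
        exact Or.inl ⟨i, hi, ht, rfl⟩
      · obtain ⟨hb, hi⟩ := h
        simp only at hb hi
        subst hb
        exact Or.inr ⟨i, hi, rfl⟩
  rw [this]

theorem occ1_eq (n a b : ℕ) (ω : Ω) : occ1 n a b C Z ω =
    (I1 (C ω)).image (fun u => cellOf n a b (W (fun i => Z i ω) u)) := by
  unfold occ1
  ext x
  simp only [Finset.mem_image, I1, Finset.mem_product, Finset.mem_singleton, Finset.mem_range]
  constructor
  · rintro ⟨i, hi, rfl⟩
    exact ⟨(false, i), ⟨rfl, hi⟩, rfl⟩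
  · rintro ⟨⟨b, i⟩, ⟨hb, hi⟩, rfl⟩
    simp only at hb hi
    subst hb
    exact ⟨i, hi, rfl⟩

theorem occ2_eq (n a b : ℕ) (t : NNReal) (ω : Ω) : occ2 n a b t C Z ω =
    (I2 t (C ω) (fun i => Z i ω)).image (fun u => cellOf n a b (W (fun i => Z i ω) u)) := by
  classical
  unfold occ2
  ext x
  simp only [Finset.mem_union, Finset.mem_image, Finset.mem_filter, Finset.mem_range, I2, I1,
    Finset.mem_product, Finset.mem_singleton]
  constructor
  · rintro (⟨i, ⟨hi, ht⟩, rfl⟩ | ⟨j, hj, rfl⟩)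
    · exact ⟨(false, i), Or.inl ⟨⟨rfl, hi⟩, ht⟩, rfl⟩
    · exact ⟨(true, j), Or.inr ⟨rfl, hj⟩, rfl⟩
  · rintro ⟨⟨b, i⟩, h | h, rfl⟩
    · obtain ⟨⟨hb, hi⟩, ht⟩ := h
      simp only at hb hi ht
      subst hb
      exact Or.inl ⟨i, ⟨hi, ht⟩, rfl⟩
    · obtain ⟨hb, hi⟩ := h
      simp only at hb hi
      subst hb
      exact Or.inr ⟨i, hi, rfl⟩

theorem cellMap (n a b : ℕ) : CellMap (cellOf n a b) where
  mono₁ := by
    intro x y h
    show min a (⌊(a : ℝ) * x.1 / n⌋₊ + 1) ≤ min a (⌊(a : ℝ) * y.1 / n⌋₊ + 1)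
    have : ⌊(a : ℝ) * x.1 / n⌋₊ ≤ ⌊(a : ℝ) * y.1 / n⌋₊ := by
      apply Nat.floor_mono
      apply div_le_div_of_nonneg_right _ (Nat.cast_nonneg n)
      exact mul_le_mul_of_nonneg_left h (Nat.cast_nonneg a)
    omega
  mono₂ := by
    intro x y h
    show min b (⌊(b : ℝ) * x.2 / n⌋₊ + 1) ≤ min b (⌊(b : ℝ) * y.2 / n⌋₊ + 1)
    have : ⌊(b : ℝ) * x.2 / n⌋₊ ≤ ⌊(b : ℝ) * y.2 / n⌋₊ := by
      apply Nat.floor_mono
      apply div_le_div_of_nonneg_right _ (Nat.cast_nonneg n)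
      exact mul_le_mul_of_nonneg_left h (Nat.cast_nonneg b)
    omega

end Pool.Agent.LPP.T9b
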