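import Pool.Agent.Lib.MP_6b8a80_h32.T9b_Det

/-!
# MP_6b8a80, task T9b, probabilistic part
-/

set_option autoImplicit false
set_option linter.unusedSectionVars false
set_option linter.unusedVariables false
set_option linter.deprecated false

namespace Pool.Agent.LPP.T9b

open Finset MeasureTheory ProbabilityTheory
open scoped ENNReal

/-! ## Moments of the Poisson law -/

theorem toMeasure_poisson (r : NNReal) : (poissonPMF r).toMeasure = poissonMeasure r := by
  refine Measure.ext_of_singleton fun n => ?_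
  rw [PMF.toMeasure_apply_singleton _ _ (measurableSet_singleton n), poissonMeasure_singleton,
    ← poissonPMFReal_ofReal_eq_poissonPMF]
  rfl

theorem integrable_exp (r : NNReal) :
    Integrable (fun k : ℕ => Real.exp (k : ℝ)) (poissonMeasure r) := by
  rw [integrable_poissonMeasure_iff]
  have h := (Real.summable_pow_div_factorial ((r : ℝ) * Real.exp 1)).mul_left (Real.exp (-(r : ℝ)))
  refine h.congr fun n => ?_
  rw [Real.norm_of_nonneg (Real.exp_pos _).le, mul_pow, ← Real.exp_nat_mul, mul_one]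
  ring

theorem integrable_pow (r s : NNReal) (p : ℕ) :
    Integrable (fun c : ℕ × ℕ => ((c.1 : ℝ) + c.2) ^ p)
      ((poissonMeasure r).prod (poissonMeasure s)) := by
  have h1 := ((integrable_exp r).mul_prod (integrable_exp s)).const_mul (p.factorial : ℝ)
  refine h1.mono (Measurable.of_discrete.aestronglyMeasurable) (Filter.Eventually.of_forall ?_)
  rintro ⟨x, y⟩
  have h2 : (0 : ℝ) ≤ (x : ℝ) + y := by positivity
  have h3 := Real.pow_div_factorial_le_exp ((x : ℝ) + y) h2 p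
  have h4 : (0 : ℝ) < p.factorial := by exact_mod_cast p.factorial_pos
  rw [Real.norm_of_nonneg (by positivity), Real.norm_of_nonneg (by positivity)]
  rw [div_le_iff₀ h4, Real.exp_add] at h3
  simp only
  linarith

/-! ## The uniform measure on the square and its cells -/

/-- uniform law on the square -/
noncomputable def mu (n : ℕ) : Measure (ℝ × ℝ) :=
  (ENNReal.ofReal ((n : ℝ) ^ 2))⁻¹ • volume.restrict (Set.Icc (0 : ℝ × ℝ) ((n : ℝ), (n : ℝ)))

theorem vol_rect (p q p' q' : ℝ) :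
    volume (Set.Icc p q ×ˢ Set.Icc p' q') = ENNReal.ofReal (q - p) * ENNReal.ofReal (q' - p') := by
  rw [Measure.volume_eq_prod, Measure.prod_prod, Real.volume_Icc, Real.volume_Icc]

theorem icc_eq (n : ℕ) : Set.Icc (0 : ℝ × ℝ) ((n : ℝ), (n : ℝ)) =
    Set.Icc (0 : ℝ) n ×ˢ Set.Icc (0 : ℝ) n := by
  rw [Set.Icc_prod_Icc]; rfl

theorem ofReal_sq_ne {n : ℕ} (hn : 1 ≤ n) : ENNReal.ofReal ((n : ℝ) ^ 2) ≠ 0 := by
  have : (0 : ℝ) < n := by exact_mod_cast hn
  rw [Ne, ENNReal.ofReal_eq_zero, not_le]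
  positivity

instance mu_prob (n : ℕ) [hn : Fact (1 ≤ n)] : IsProbabilityMeasure (mu n) := by
  constructor
  have h0 : (0 : ℝ) < n := by exact_mod_cast hn.out
  rw [mu, Measure.smul_apply, Measure.restrict_apply MeasurableSet.univ, Set.univ_inter, icc_eq,
    vol_rect, ← ENNReal.ofReal_mul (by simp), sub_zero, ← sq, smul_eq_mul]
  exact ENNReal.inv_mul_cancel (ofReal_sq_ne hn.out) ENNReal.ofReal_ne_top

theorem mu_le_of_subset {n : ℕ} (hn : 1 ≤ n) {a : ℕ} (ha : 1 ≤ a) {s : Set (ℝ × ℝ)}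
    (hs : MeasurableSet s) {p q p' q' : ℝ} (hpq : p ≤ q)
    (hsub : s ∩ Set.Icc (0 : ℝ × ℝ) ((n : ℝ), (n : ℝ)) ⊆ Set.Icc p q ×ˢ Set.Icc p' q')
    (harea : (q - p) * (q' - p') = (n : ℝ) ^ 2 / a) : mu n s ≤ ENNReal.ofReal (1 / a) := by
  have h0 : (0 : ℝ) < n := by exact_mod_cast hn
  have ha0 : (0 : ℝ) < a := by exact_mod_cast ha
  rw [mu, Measure.smul_apply, Measure.restrict_apply hs, smul_eq_mul]
  calc (ENNReal.ofReal ((n : ℝ) ^ 2))⁻¹ * volume (s ∩ Set.Icc (0 : ℝ × ℝ) ((n : ℝ), (n : ℝ)))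
      ≤ (ENNReal.ofReal ((n : ℝ) ^ 2))⁻¹ * ENNReal.ofReal ((n : ℝ) ^ 2 / a) := by
        gcongr
        refine (measure_mono hsub).trans ?_
        rw [vol_rect, ← ENNReal.ofReal_mul (by linarith), harea]
    _ = ENNReal.ofReal (1 / a) := by
        rw [← ENNReal.ofReal_inv_of_pos (by positivity), ← ENNReal.ofReal_mul (by positivity)]
        congr 1
        field_simp

theorem measurable_cell (n a b : ℕ) : Measurable (cellOf n a b) := by
  unfold cellOf
  have h1 : Measurable (fun x : ℝ × ℝ => ⌊(a : ℝ) * x.1 / n⌋₊) :=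
    Nat.measurable_floor.comp ((measurable_fst.const_mul _).div_const _)
  have h2 : Measurable (fun x : ℝ × ℝ => ⌊(b : ℝ) * x.2 / n⌋₊) :=
    Nat.measurable_floor.comp ((measurable_snd.const_mul _).div_const _)
  refine Measurable.prodMk ?_ ?_
  · exact (Measurable.of_discrete (f := fun k : ℕ => min a (k + 1))).comp h1
  · exact (Measurable.of_discrete (f := fun k : ℕ => min b (k + 1))).comp h2

/-- interval of the points with a given cell coordinate -/
theorem cell_coord {n a : ℕ} (hn : 1 ≤ n) (ha : 1 ≤ a) {x : ℝ} (hx0 : 0 ≤ x) (hxn : x ≤ n)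
    {r : ℕ} (h : min a (⌊(a : ℝ) * x / n⌋₊ + 1) = r) :
    x ∈ Set.Icc (((r : ℝ) - 1) * (n / a)) ((r : ℝ) * (n / a)) := by
  have h0 : (0 : ℝ) < n := by exact_mod_cast hn
  have ha0 : (0 : ℝ) < a := by exact_mod_cast ha
  have hnn : 0 ≤ (a : ℝ) * x / n := by positivity
  have hf1 := Nat.floor_le hnn
  have hf2 := Nat.lt_floor_add_one ((a : ℝ) * x / n)
  have hle : (a : ℝ) * x / n ≤ a := by
    rw [div_le_iff₀ h0]
    exact mul_le_mul_of_nonneg_left hxn ha0.le
  have hx : x = ((a : ℝ) * x / n) * (n / a) := by field_simp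
  have hpos : (0 : ℝ) < n / a := by positivity
  set y := (a : ℝ) * x / n with hy
  rw [hx]
  rcases le_or_gt (⌊y⌋₊ + 1) a with h1 | h1
  · have hr : (r : ℝ) = (⌊y⌋₊ : ℝ) + 1 := by
      rw [min_eq_right h1] at h
      rw [← h]; push_cast; ring
    constructor
    · apply mul_le_mul_of_nonneg_right _ hpos.le
      rw [hr]; linarith
    · apply mul_le_mul_of_nonneg_right _ hpos.le
      rw [hr]; linarith
  · have hr : r = a := by rw [min_eq_left h1.le] at h; exact h.symm
    have h2 : (a : ℝ) ≤ (⌊y⌋₊ : ℝ) := by exact_mod_cast Nat.lt_succ_iff.mp h1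
    subst hr
    constructor
    · apply mul_le_mul_of_nonneg_right _ hpos.le
      linarith
    · exact mul_le_mul_of_nonneg_right hle hpos.le

theorem mu_row {n a b : ℕ} (hn : 1 ≤ n) (ha : 1 ≤ a) (r : ℕ) :
    mu n {y | (cellOf n a b y).1 = r} ≤ ENNReal.ofReal (1 / a) := by
  have h0 : (0 : ℝ) < n := by exact_mod_cast hn
  have ha0 : (0 : ℝ) < a := by exact_mod_cast ha
  refine mu_le_of_subset hn ha ?_ (p := ((r : ℝ) - 1) * (n / a)) (q := (r : ℝ) * (n / a))
    (p' := 0) (q' := n) ?_ ?_ ?_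
  · exact (measurable_fst.comp (measurable_cell n a b)) (measurableSet_singleton r)
  · apply mul_le_mul_of_nonneg_right _ (by positivity); linarith
  · rintro y ⟨hy, hy'⟩
    rw [icc_eq] at hy'
    exact ⟨cell_coord hn ha hy'.1.1 hy'.1.2 hy, hy'.2⟩
  · field_simp; ring

theorem mu_col {n a b : ℕ} (hn : 1 ≤ n) (hb : 1 ≤ b) (r : ℕ) :
    mu n {y | (cellOf n a b y).2 = r} ≤ ENNReal.ofReal (1 / b) := by
  have h0 : (0 : ℝ) < n := by exact_mod_cast hn
  have hb0 : (0 : ℝ) < b := by exact_mod_cast hb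
  refine mu_le_of_subset hn hb ?_ (p := 0) (q := n) (p' := ((r : ℝ) - 1) * (n / b))
    (q' := (r : ℝ) * (n / b)) h0.le ?_ ?_
  · exact (measurable_snd.comp (measurable_cell n a b)) (measurableSet_singleton r)
  · rintro y ⟨hy, hy'⟩
    rw [icc_eq] at hy'
    exact ⟨hy'.1, cell_coord hn hb hy'.2.1 hy'.2.2 hy⟩
  · field_simp; ring

/-- a collision of two independent uniform points -/
theorem coll_prob {n a b : ℕ} (hn : 1 ≤ n) (ha : 1 ≤ a) (hb : 1 ≤ b) :
    ((mu n).prod (mu n)) {p | (cellOf n a b p.1).1 = (cellOf n a b p.2).1 ∨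
      (cellOf n a b p.1).2 = (cellOf n a b p.2).2} ≤
      ENNReal.ofReal (1 / a) + ENNReal.ofReal (1 / b) := by
  have : Fact (1 ≤ n) := ⟨hn⟩
  have hm1 : Measurable (fun y : ℝ × ℝ => (cellOf n a b y).1) :=
    measurable_fst.comp (measurable_cell n a b)
  have hm2 : Measurable (fun y : ℝ × ℝ => (cellOf n a b y).2) :=
    measurable_snd.comp (measurable_cell n a b)
  have key : ∀ (f : ℝ × ℝ → ℕ) (hf : Measurable f) (ε : ℝ≥0∞), (∀ r, mu n {y | f y = r} ≤ ε) →
      ((mu n).prod (mu n)) {p | f p.1 = f p.2} ≤ ε := by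
    intro f hf ε hε
    have hms : MeasurableSet {p : (ℝ × ℝ) × (ℝ × ℝ) | f p.1 = f p.2} :=
      measurableSet_eq_fun (hf.comp measurable_fst) (hf.comp measurable_snd)
    rw [Measure.prod_apply hms]
    calc ∫⁻ x, mu n (Prod.mk x ⁻¹' {p : (ℝ × ℝ) × (ℝ × ℝ) | f p.1 = f p.2}) ∂(mu n)
        ≤ ∫⁻ _x, ε ∂(mu n) := by
          refine lintegral_mono fun x => ?_
          refine le_trans (measure_mono ?_) (hε (f x))
          intro y hy
          exact (show f x = f y from hy).symm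
      _ = ε := by rw [lintegral_const, measure_univ, mul_one]
  refine (measure_mono (t := {p : (ℝ × ℝ) × (ℝ × ℝ) | (cellOf n a b p.1).1 =
    (cellOf n a b p.2).1} ∪ {p : (ℝ × ℝ) × (ℝ × ℝ) | (cellOf n a b p.1).2 =
    (cellOf n a b p.2).2}) (fun p hp => hp)).trans ?_
  refine (measure_union_le _ _).trans (add_le_add ?_ ?_)
  · exact key _ hm1 _ (mu_row hn ha)
  · exact key _ hm2 _ (mu_col hn hb)

end Pool.Agent.LPP.T9b
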