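import Pool.Agent.Lib.MP_6b8a80_h32.T9c_Lim
import Pool.Agent.Lib.MP_6b8a80_h32.T8d_Levels
import Pool.Agent.Lib.MP_6b8a80_h32.T5b_VarLower
import Pool.Agent.Lib.MP_6b8a80_h32.T6a_Walsh

set_option autoImplicit false

namespace Pool.Agent.LPP

open Finset MeasureTheory ProbabilityTheory

theorem pcell_pos {n a b : ℕ} (hn : 1 ≤ n) (ha : 1 ≤ a) (hb : 1 ≤ b) : 0 < pcell n a b := by
  unfold pcell
  have : 0 < (n : ℝ) ^ 2 / (a * b) := by positivity
  have h2 : Real.exp (-((n : ℝ) ^ 2 / (a * b))) < 1 :=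
    (Real.exp_lt_exp.mpr (by linarith : -((n : ℝ) ^ 2 / (a * b)) < 0)).trans_eq Real.exp_zero
  linarith

theorem pcell_le_one (n a b : ℕ) : pcell n a b ≤ 1 := by
  unfold pcell
  have := Real.exp_pos (-((n : ℝ) ^ 2 / (a * b)))
  linarith

theorem pcell_le (n a b : ℕ) : pcell n a b ≤ (n : ℝ) ^ 2 / (a * b) := by
  unfold pcell
  have := Real.add_one_le_exp (-((n : ℝ) ^ 2 / (a * b)))
  linarith

theorem pcell_ge {n a b : ℕ} (h : (n : ℝ) ^ 2 / (a * b) ≤ 1) :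
    (n : ℝ) ^ 2 / (a * b) / 2 ≤ pcell n a b := by
  unfold pcell
  set x : ℝ := (n : ℝ) ^ 2 / (a * b) with hx
  have hx0 : 0 ≤ x := by positivity
  -- e^{-x} ≤ 1/(1+x) ≤ 1 - x/2
  have h1 : 1 + x ≤ Real.exp x := by linarith [Real.add_one_le_exp x]
  have h2 : Real.exp (-x) ≤ 1 / (1 + x) := by
    rw [Real.exp_neg, one_div]
    exact inv_anti₀ (by linarith) h1
  have h3 : 1 / (1 + x) ≤ 1 - x / 2 := by
    rw [div_le_iff₀ (by linarith)]
    nlinarith only [h, hx0]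
  linarith

theorem rcell_nonneg {n a b : ℕ} (hn : 1 ≤ n) (ha : 1 ≤ a) (hb : 1 ≤ b) {t : ℝ} (ht : t ≤ 1) :
    0 ≤ rcell n a b t := by
  unfold rcell
  have hx : 0 < (n : ℝ) ^ 2 / (a * b) := by positivity
  apply div_nonneg
  · have : 0 ≤ (n : ℝ) ^ 2 / (a * b) * (1 - t) := mul_nonneg hx.le (by linarith)
    linarith [Real.one_le_exp this]
  · linarith [Real.one_le_exp hx.le]

theorem rcell_le {n a b : ℕ} (hn : 1 ≤ n) (ha : 1 ≤ a) (hb : 1 ≤ b) {t : ℝ} (ht0 : 0 ≤ t)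
    (ht : t ≤ 1) : rcell n a b t ≤ 1 - t := by
  unfold rcell
  set x : ℝ := (n : ℝ) ^ 2 / (a * b) with hx
  have hx0 : 0 < x := by positivity
  have h1 : 1 < Real.exp x := Real.one_lt_exp_iff.mpr hx0
  rw [div_le_iff₀ (by linarith)]
  have h2 := convexOn_exp.2 (Set.mem_univ x) (Set.mem_univ 0) (by linarith : 0 ≤ 1 - t) ht0
    (by ring)
  simp only [smul_eq_mul, mul_zero, add_zero, Real.exp_zero, mul_one] at h2
  rw [mul_comm (1 - t) x] at h2
  linarith

theorem T9c_mul_ge {m a w : ℝ} (h : m ≤ a) (ha : 1 ≤ a) (hw : 0 ≤ w) : m ≤ (a + w) * a := by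
  have h1 : 1 * a ≤ (a + w) * a := mul_le_mul_of_nonneg_right (by linarith) (by linarith)
  linarith

theorem T9c_half_sq (x : ℝ) : (x / 2) ^ 2 ≤ x ^ 2 / 2 := by
  have h := sq_nonneg x
  have e : (x / 2) ^ 2 = x ^ 2 / 4 := by ring
  rw [e]
  linarith

theorem T9c_quarter {ε V : ℝ} (hε : 0 < ε) (hV : 0 < V) : ε / 4 * V + ε / 4 * V < ε * V := by
  have h := mul_pos hε hV
  have e : ε / 4 * V + ε / 4 * V = ε * V / 2 := by ring
  rw [e]
  linarith

/-- discrete covariance bound -/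
theorem disc_cov (K : ℕ) : ∃ N₀ : ℝ, 1 ≤ N₀ ∧ ∀ (q : ℝ) (a : ℕ) (ρ : ℝ), 0 < q →
    N₀ ≤ q * a → q * (q * a) ^ 10 ≤ 1 → 0 ≤ ρ → ρ ≤ 1 →
    0 ≤ EJ (q ^ 2) ρ (box a a) (fun A B => (ell A : ℝ) * ell B) -
        (EP (fun _ => q ^ 2) (box a a) (fun A => (ell A : ℝ))) ^ 2 ∧
    EJ (q ^ 2) ρ (box a a) (fun A B => (ell A : ℝ) * ell B) -
        (EP (fun _ => q ^ 2) (box a a) (fun A => (ell A : ℝ))) ^ 2 ≤
      K * (q * a) ^ ((13 : ℝ) / 20) +
        ρ ^ (K + 1) * VP (fun _ => q ^ 2) (box a a) (fun A => (ell A : ℝ)) := by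
  -- thresholds for all levels up to `K`
  have hthr : ∀ K : ℕ, ∃ N₀ : ℝ, 1 ≤ N₀ ∧ ∀ k ∈ Icc 1 K, ∀ (q : ℝ) (a : ℕ), 0 < q →
      N₀ ≤ q * a → q * (q * a) ^ 10 ≤ 1 →
      Wk (q ^ 2) (box a a) k (fun A => (ell A : ℝ)) ≤ (q * a) ^ ((13 : ℝ) / 20) := by
    intro K
    induction K with
    | zero => exact ⟨1, le_rfl, by intro k hk; simp at hk⟩
    | succ K ih =>
      obtain ⟨N₁, h1, h2⟩ := ih
      obtain ⟨N₂, h3, h4⟩ := levels_small (K + 1) (by omega)
      refine ⟨max N₁ N₂, le_max_of_le_left h1, ?_⟩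
      intro k hk q a hq hN hsm
      rw [mem_Icc] at hk
      by_cases hkK : k ≤ K
      · exact h2 k (mem_Icc.mpr ⟨hk.1, hkK⟩) q a hq ((le_max_left _ _).trans hN) hsm
      · obtain rfl : k = K + 1 := by omega
        exact h4 q a hq ((le_max_right _ _).trans hN) hsm
  obtain ⟨N₀, hN₀, hW⟩ := hthr K
  refine ⟨N₀, hN₀, ?_⟩
  intro q a ρ hq hN hsm hρ0 hρ1
  have hN1 : 1 ≤ q * a := hN₀.trans hN
  have hq1 : q ≤ 1 := by
    have h1 : (1 : ℝ) ≤ (q * a) ^ 10 := one_le_pow₀ hN1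
    nlinarith only [hsm, hq, h1]
  have hp0 : (0 : ℝ) ≤ q ^ 2 := by positivity
  have hp1 : q ^ 2 ≤ 1 := by nlinarith only [hq1, hq]
  have hWn : ∀ k, 0 ≤ Wk (q ^ 2) (box a a) k (fun A => (ell A : ℝ)) := fun k =>
    Wk_nonneg hp0 hp1 _ k _
  have e : EJ (q ^ 2) ρ (box a a) (fun A B => (ell A : ℝ) * ell B) -
      (EP (fun _ => q ^ 2) (box a a) (fun A => (ell A : ℝ))) ^ 2 =
      ∑ k ∈ Icc 1 #(box a a), ρ ^ k * Wk (q ^ 2) (box a a) k (fun A => (ell A : ℝ)) := by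
    rw [EJ_eq_sum_Wk (q ^ 2) ρ (box a a) (fun A => (ell A : ℝ))]
    ring
  rw [e]
  constructor
  · exact sum_nonneg (fun k _ => mul_nonneg (pow_nonneg hρ0 k) (hWn k))
  · rw [VP_eq_sum_Wk, mul_sum]
    have hb : ∀ k ∈ Icc 1 #(box a a),
        ρ ^ k * Wk (q ^ 2) (box a a) k (fun A => (ell A : ℝ)) ≤
        (if k ∈ Icc 1 K then (q * a) ^ ((13 : ℝ) / 20) else 0) +
          ρ ^ (K + 1) * Wk (q ^ 2) (box a a) k (fun A => (ell A : ℝ)) := by
      intro k hk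
      rw [mem_Icc] at hk
      by_cases hkK : k ≤ K
      · rw [if_pos (mem_Icc.mpr ⟨hk.1, hkK⟩)]
        have h1 : ρ ^ k ≤ 1 := pow_le_one₀ hρ0 hρ1
        have h2 := hW k (mem_Icc.mpr ⟨hk.1, hkK⟩) q a hq hN hsm
        have h3 : ρ ^ k * Wk (q ^ 2) (box a a) k (fun A => (ell A : ℝ)) ≤
            1 * Wk (q ^ 2) (box a a) k (fun A => (ell A : ℝ)) :=
          mul_le_mul_of_nonneg_right h1 (hWn k)
        have h4 : 0 ≤ ρ ^ (K + 1) * Wk (q ^ 2) (box a a) k (fun A => (ell A : ℝ)) :=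
          mul_nonneg (pow_nonneg hρ0 _) (hWn k)
        linarith only [h2, h3, h4]
      · rw [if_neg (fun h => hkK (mem_Icc.mp h).2), zero_add]
        apply mul_le_mul_of_nonneg_right _ (hWn k)
        exact pow_le_pow_of_le_one hρ0 hρ1 (by omega)
    refine (sum_le_sum hb).trans ?_
    rw [sum_add_distrib]
    apply add_le_add _ le_rfl
    rw [← sum_filter, sum_const, nsmul_eq_mul]
    apply mul_le_mul_of_nonneg_right _ (by positivity)
    have : #(filter (fun k => k ∈ Icc 1 K) (Icc 1 #(box a a))) ≤ K := by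
      calc _ ≤ #(Icc 1 K) := card_le_card (fun k hk => (mem_filter.mp hk).2)
        _ = K := by simp
    exact_mod_cast this

theorem noise_sensitivity (t : NNReal) (ht0 : 0 < t) (ht1 : t ≤ 1) (ε : ℝ) (hε : 0 < ε) :
    ∃ n₀ : ℕ, ∀ n : ℕ, n₀ ≤ n → 1 ≤ n →
      ∀ (Ω : Type) [MeasurableSpace Ω] (P : Measure Ω) [IsProbabilityMeasure P]
        (C : Ω → ℕ × ℕ) (Z : ℕ → Ω → ((ℝ × ℝ) × ℝ) × (ℝ × ℝ)), Model n t P C Z →
      |covariance (L1 C Z) (L2 t C Z) P /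
        Real.sqrt (variance (L1 C Z) P * variance (L2 t C Z) P)| < ε := by
  have ht1' : (t : ℝ) ≤ 1 := by exact_mod_cast ht1
  have ht0' : (0 : ℝ) < t := by exact_mod_cast ht0
  -- choose K
  obtain ⟨K, hK⟩ : ∃ K : ℕ, (1 - (t : ℝ)) ^ (K + 1) < ε / 4 := by
    obtain ⟨K, hK⟩ := exists_pow_lt_of_lt_one (by positivity : 0 < ε / 4)
      (by linarith : 1 - (t : ℝ) < 1)
    exact ⟨K, lt_of_le_of_lt (pow_le_pow_of_le_one (by linarith) (by linarith) (by omega)) hK⟩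
  obtain ⟨N₁, hN₁, hcov⟩ := disc_cov K
  obtain ⟨c, c₀, N₂, hc, hc₀, hN₂, hvar⟩ := var_lower
  -- choose n₀
  have hev : ∀ᶠ x : ℝ in Filter.atTop, 2 * N₁ ≤ x ∧ 2 * N₂ ≤ x ∧
      3 / 4 * c₀ * x ^ (-(1 : ℝ) / 3) ≤ 1 ∧
      K * x ^ ((13 : ℝ) / 20) ≤ ε / 4 * (c * (x / 2) ^ ((2 : ℝ) / 3)) := by
    refine (Filter.eventually_ge_atTop _).and ((Filter.eventually_ge_atTop _).and
      (Filter.Eventually.and ?_ ?_))
    · have h1 : Filter.Tendsto (fun x : ℝ => 3 / 4 * c₀ * x ^ (-(1 : ℝ) / 3)) Filter.atTop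
          (nhds (3 / 4 * c₀ * 0)) := by
        apply Filter.Tendsto.const_mul
        have := tendsto_rpow_neg_atTop (y := (1 : ℝ) / 3) (by norm_num)
        simpa [neg_div] using this
      rw [mul_zero] at h1
      exact h1.eventually_le_const one_pos
    · have h1 : Filter.Tendsto (fun x : ℝ => x ^ ((1 : ℝ) / 60)) Filter.atTop Filter.atTop :=
        tendsto_rpow_atTop (by norm_num)
      have h2 := h1.eventually_ge_atTop (K / (ε / 4 * (c * (1 / 2) ^ ((2 : ℝ) / 3))))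
      filter_upwards [h2, Filter.eventually_gt_atTop (0 : ℝ)] with x hx hx0
      rw [div_le_iff₀ (by positivity)] at hx
      calc (K : ℝ) * x ^ ((13 : ℝ) / 20)
          ≤ x ^ ((1 : ℝ) / 60) * (ε / 4 * (c * (1 / 2) ^ ((2 : ℝ) / 3))) * x ^ ((13 : ℝ) / 20) :=
            mul_le_mul_of_nonneg_right hx (by positivity)
        _ = ε / 4 * (c * (1 / 2) ^ ((2 : ℝ) / 3) * (x ^ ((1 : ℝ) / 60) * x ^ ((13 : ℝ) / 20))) := by
            ring
        _ = ε / 4 * (c * (x / 2) ^ ((2 : ℝ) / 3)) := by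
            have e1 : x ^ ((1 : ℝ) / 60) * x ^ ((13 : ℝ) / 20) = x ^ ((2 : ℝ) / 3) := by
              rw [← Real.rpow_add hx0]; norm_num
            have e2 : (x / 2) ^ ((2 : ℝ) / 3) = (1 / 2) ^ ((2 : ℝ) / 3) * x ^ ((2 : ℝ) / 3) := by
              rw [← Real.mul_rpow (by norm_num) hx0.le]; congr 1; ring
            rw [e1, e2, mul_assoc]
  obtain ⟨x₀, hx₀⟩ := Filter.eventually_atTop.mp hev
  refine ⟨⌈x₀⌉₊, ?_⟩
  intro n hn0 hn Ω _ P _ C Z hM
  have hnR : (1 : ℝ) ≤ n := by exact_mod_cast hn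
  have hnpos : (0 : ℝ) < n := by linarith
  obtain ⟨g1, g2, g3, g4⟩ := hx₀ n ((Nat.le_ceil x₀).trans (by exact_mod_cast hn0))
  set V₁ := variance (L1 C Z) P with hV₁
  set V₂ := variance (L2 t C Z) P with hV₂
  set Cv := covariance (L1 C Z) (L2 t C Z) P with hCv
  -- V₁ = V₂
  have hVV : V₁ = V₂ := by
    have : ∀ η : ℝ, 0 < η → |V₁ - V₂| ≤ η := by
      intro η hη
      obtain ⟨K', hK'⟩ := model_close hn ht1 hM (half_pos hη)
      obtain ⟨_, h2, h3⟩ := hK' K' K' le_rfl le_rfl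
      rw [abs_le] at h2 h3 ⊢
      constructor <;> linarith only [h2.1, h2.2, h3.1, h3.2]
    have h0 : |V₁ - V₂| ≤ 0 := le_of_forall_pos_le_add (fun η hη => by simpa using this η hη)
    exact sub_eq_zero.mp (abs_nonpos_iff.mp h0)
  -- lower bound of the variance
  have hVlow : c * ((n : ℝ) / 2) ^ ((2 : ℝ) / 3) ≤ V₁ := by
    apply le_of_forall_pos_le_add
    intro η hη
    obtain ⟨K', hK'⟩ := model_close hn ht1 hM hη
    set τ : ℝ := 3 / 4 * c₀ * (n : ℝ) ^ (-(1 : ℝ) / 3) with hτ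
    have hτ0 : 0 < τ := by positivity
    -- choose a
    obtain ⟨a, ha⟩ := exists_nat_ge (max (K' : ℝ) (max ((n : ℝ) ^ 11)
      (max (100 / (c₀ * (n : ℝ) ^ (-(1 : ℝ) / 3))) ((n : ℝ) ^ 2))))
    have ha1 : (K' : ℝ) ≤ a := (le_max_left _ _).trans ha
    have ha2 : (n : ℝ) ^ 11 ≤ a := ((le_max_left _ _).trans (le_max_right _ _)).trans ha
    have ha3 : 100 / (c₀ * (n : ℝ) ^ (-(1 : ℝ) / 3)) ≤ a :=
      ((le_max_left _ _).trans ((le_max_right _ _).trans (le_max_right _ _))).trans ha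
    have ha4 : (n : ℝ) ^ 2 ≤ a :=
      ((le_max_right _ _).trans ((le_max_right _ _).trans (le_max_right _ _))).trans ha
    have haR : (1 : ℝ) ≤ a := le_trans (one_le_pow₀ hnR) ha2
    have hapos : (0 : ℝ) < a := lt_of_lt_of_le one_pos haR
    have haN : 1 ≤ a := by exact_mod_cast haR
    set w : ℕ := ⌊τ * a⌋₊ with hw
    have hw1 : (w : ℝ) ≤ τ * a := Nat.floor_le (by positivity)
    have hw2 : τ * a < w + 1 := Nat.lt_floor_add_one _
    have hw0 : (0 : ℝ) ≤ w := Nat.cast_nonneg w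
    obtain ⟨_, h2, _⟩ := hK' (a + w) a (le_trans (by exact_mod_cast ha1) (Nat.le_add_right a w))
      (by exact_mod_cast ha1)
    set p : ℝ := pcell n (a + w) a with hp
    have hppos : 0 < p := pcell_pos hn (by omega) haN
    set q : ℝ := Real.sqrt p with hq
    have hqpos : 0 < q := Real.sqrt_pos.mpr hppos
    have hq2 : q ^ 2 = p := Real.sq_sqrt hppos.le
    set x : ℝ := (n : ℝ) ^ 2 / (((a + w : ℕ) : ℝ) * a) with hx
    have hx1 : x ≤ 1 := by
      rw [hx, div_le_one (by positivity)]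
      push_cast
      exact T9c_mul_ge ha4 haR hw0
    have hp_le : p ≤ x := pcell_le n (a + w) a
    have hp_ge : x / 2 ≤ p := pcell_ge hx1
    have hxa : x * (a : ℝ) ^ 2 = (n : ℝ) ^ 2 * (a / (a + w)) := by
      rw [hx]; push_cast; field_simp
    have hra : (a : ℝ) / (a + w) ≤ 1 := by
      rw [div_le_one (by positivity)]; linarith only [hw0]
    have hra2 : 1 / 2 ≤ (a : ℝ) / (a + w) := by
      rw [div_le_div_iff₀ (by norm_num) (by positivity)]
      have : τ * a ≤ 1 * a := mul_le_mul_of_nonneg_right g3 hapos.le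
      linarith only [this, hw1]
    have hN2 : (q * a) ^ 2 = p * (a : ℝ) ^ 2 := by rw [mul_pow, hq2]
    have hNle : q * a ≤ n := by
      apply le_of_sq_le_sq _ hnpos.le
      rw [hN2]
      calc p * (a : ℝ) ^ 2 ≤ x * (a : ℝ) ^ 2 := mul_le_mul_of_nonneg_right hp_le (by positivity)
        _ = (n : ℝ) ^ 2 * (a / (a + w)) := hxa
        _ ≤ (n : ℝ) ^ 2 * 1 := mul_le_mul_of_nonneg_left hra (by positivity)
        _ = _ := mul_one _
    have hNge : (n : ℝ) / 2 ≤ q * a := by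
      apply le_of_sq_le_sq _ (by positivity)
      rw [hN2]
      calc ((n : ℝ) / 2) ^ 2 = (n : ℝ) ^ 2 * (1 / 2) / 2 := by ring
        _ ≤ (n : ℝ) ^ 2 * (a / (a + w)) / 2 := by
          apply div_le_div_of_nonneg_right _ (by norm_num)
          exact mul_le_mul_of_nonneg_left hra2 (by positivity)
        _ = x / 2 * (a : ℝ) ^ 2 := by rw [← hxa]; ring
        _ ≤ p * (a : ℝ) ^ 2 := mul_le_mul_of_nonneg_right hp_ge (by positivity)
    have hNpos : 0 < q * a := by positivity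
    have hsm : q * (q * a) ^ 10 ≤ 1 := by
      have h3 : q * (q * a) ^ 10 * a ≤ 1 * a := by
        calc q * (q * a) ^ 10 * a = (q * a) ^ 11 := by ring
          _ ≤ (n : ℝ) ^ 11 := pow_le_pow_left₀ hNpos.le hNle 11
          _ ≤ 1 * a := by linarith only [ha2]
      exact le_of_mul_le_mul_right h3 hapos
    -- powers
    have hpw1 : (q * a) ^ ((2 : ℝ) / 3) = (q * a) * (q * a) ^ (-(1 : ℝ) / 3) := by
      nth_rewrite 2 [← Real.rpow_one (q * a)]
      rw [← Real.rpow_add hNpos]; norm_num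
    have hmn : (n : ℝ) ^ (-(1 : ℝ) / 3) ≤ (q * a) ^ (-(1 : ℝ) / 3) := by
      apply Real.rpow_le_rpow_of_nonpos hNpos hNle (by norm_num)
    have hmn2 : (q * a) ^ (-(1 : ℝ) / 3) ≤ 13 / 10 * (n : ℝ) ^ (-(1 : ℝ) / 3) := by
      calc (q * a) ^ (-(1 : ℝ) / 3) ≤ ((n : ℝ) / 2) ^ (-(1 : ℝ) / 3) := by
            apply Real.rpow_le_rpow_of_nonpos (by positivity) hNge (by norm_num)
        _ = (1 / 2) ^ (-(1 : ℝ) / 3) * (n : ℝ) ^ (-(1 : ℝ) / 3) := by
            rw [← Real.mul_rpow (by norm_num) hnpos.le]; congr 1; ring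
        _ ≤ _ := by
            apply mul_le_mul_of_nonneg_right _ (by positivity)
            have h4 : ((1 : ℝ) / 2) ^ (-(1 : ℝ) / 3) = 2 ^ ((1 : ℝ) / 3) := by
              rw [one_div, Real.inv_rpow (by norm_num), ← Real.rpow_neg (by norm_num)]
              norm_num
            rw [h4]
            have h5 : (2 : ℝ) ≤ (13 / 10) ^ (3 : ℝ) := by
              rw [show (3 : ℝ) = ((3 : ℕ) : ℝ) by norm_num, Real.rpow_natCast]; norm_num
            calc (2 : ℝ) ^ ((1 : ℝ) / 3) ≤ ((13 / 10 : ℝ) ^ (3 : ℝ)) ^ ((1 : ℝ) / 3) :=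
                  Real.rpow_le_rpow (by norm_num) h5 (by norm_num)
              _ = 13 / 10 := by
                  rw [← Real.rpow_mul (by norm_num)]; norm_num
    have hqw : q * w = (q * a) * (w / a) := by field_simp
    have hup : q * w ≤ c₀ * (q * a) ^ ((2 : ℝ) / 3) := by
      rw [hqw, hpw1]
      have h3 : (w : ℝ) / a ≤ c₀ * (q * a) ^ (-(1 : ℝ) / 3) := by
        rw [div_le_iff₀ hapos]
        calc (w : ℝ) ≤ τ * a := hw1
          _ ≤ c₀ * (q * a) ^ (-(1 : ℝ) / 3) * a := by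
            apply mul_le_mul_of_nonneg_right _ hapos.le
            rw [hτ]
            have : 3 / 4 * c₀ * (n : ℝ) ^ (-(1 : ℝ) / 3) ≤ c₀ * (n : ℝ) ^ (-(1 : ℝ) / 3) := by
              have : 0 ≤ c₀ * (n : ℝ) ^ (-(1 : ℝ) / 3) := by positivity
              linarith only [this]
            exact this.trans (mul_le_mul_of_nonneg_left hmn hc₀.le)
      calc q * a * (w / a) ≤ q * a * (c₀ * (q * a) ^ (-(1 : ℝ) / 3)) :=
            mul_le_mul_of_nonneg_left h3 hNpos.le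
        _ = _ := by ring
    have hlow : c₀ / 2 * (q * a) ^ ((2 : ℝ) / 3) ≤ q * w := by
      rw [hqw, hpw1]
      have h3 : c₀ / 2 * (q * a) ^ (-(1 : ℝ) / 3) ≤ (w : ℝ) / a := by
        rw [le_div_iff₀ hapos]
        have h4 : 100 ≤ a * (c₀ * (n : ℝ) ^ (-(1 : ℝ) / 3)) := by
          rwa [div_le_iff₀ (by positivity)] at ha3
        have h5 : c₀ / 2 * (q * a) ^ (-(1 : ℝ) / 3) * a ≤
            c₀ / 2 * (13 / 10 * (n : ℝ) ^ (-(1 : ℝ) / 3)) * a := by
          gcongr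
        have h6 : τ * a = 3 / 4 * (a * (c₀ * (n : ℝ) ^ (-(1 : ℝ) / 3))) := by rw [hτ]; ring
        have h7 : c₀ / 2 * (13 / 10 * (n : ℝ) ^ (-(1 : ℝ) / 3)) * a =
            13 / 20 * (a * (c₀ * (n : ℝ) ^ (-(1 : ℝ) / 3))) := by ring
        linarith only [h4, h5, h6, h7, hw2]
      calc c₀ / 2 * (q * a * (q * a) ^ (-(1 : ℝ) / 3))
          = q * a * (c₀ / 2 * (q * a) ^ (-(1 : ℝ) / 3)) := by ring
        _ ≤ q * a * (w / a) := mul_le_mul_of_nonneg_left h3 hNpos.le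
    have hv := hvar q a w hqpos (by linarith only [g2, hNge]) hsm hlow hup
    rw [hq2] at hv
    have h8 : c * ((n : ℝ) / 2) ^ ((2 : ℝ) / 3) ≤ c * (q * a) ^ ((2 : ℝ) / 3) := by
      apply mul_le_mul_of_nonneg_left _ hc.le
      exact Real.rpow_le_rpow (by positivity) hNge (by norm_num)
    rw [abs_le] at h2
    linarith only [h2.1, h2.2, hv, h8]
  -- upper bound of the covariance
  have hCup : 0 ≤ Cv ∧ Cv ≤ K * (n : ℝ) ^ ((13 : ℝ) / 20) + (1 - (t : ℝ)) ^ (K + 1) * V₁ := by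
    have main : ∀ η : ℝ, 0 < η → 0 ≤ Cv + η ∧
        Cv ≤ K * (n : ℝ) ^ ((13 : ℝ) / 20) + (1 - (t : ℝ)) ^ (K + 1) * V₁ + 2 * η := by
      intro η hη
      obtain ⟨K', hK'⟩ := model_close hn ht1 hM hη
      obtain ⟨a, ha⟩ := exists_nat_ge (max (K' : ℝ) (max ((n : ℝ) ^ 11) ((n : ℝ) ^ 2)))
      have ha1 : (K' : ℝ) ≤ a := (le_max_left _ _).trans ha
      have ha2 : (n : ℝ) ^ 11 ≤ a := ((le_max_left _ _).trans (le_max_right _ _)).trans ha
      have ha4 : (n : ℝ) ^ 2 ≤ a := ((le_max_right _ _).trans (le_max_right _ _)).trans ha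
      have haR : (1 : ℝ) ≤ a := le_trans (one_le_pow₀ hnR) ha2
      have hapos : (0 : ℝ) < a := lt_of_lt_of_le one_pos haR
      have haN : 1 ≤ a := by exact_mod_cast haR
      obtain ⟨h1, h2, _⟩ := hK' a a (by exact_mod_cast ha1) (by exact_mod_cast ha1)
      set p : ℝ := pcell n a a with hp
      have hppos : 0 < p := pcell_pos hn haN haN
      set q : ℝ := Real.sqrt p with hq
      have hqpos : 0 < q := Real.sqrt_pos.mpr hppos
      have hq2 : q ^ 2 = p := Real.sq_sqrt hppos.le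
      set x : ℝ := (n : ℝ) ^ 2 / ((a : ℝ) * a) with hx
      have hx1 : x ≤ 1 := by
        rw [hx, div_le_one (by positivity)]
        exact ha4.trans (le_mul_of_one_le_left hapos.le haR)
      have hp_le : p ≤ x := pcell_le n a a
      have hp_ge : x / 2 ≤ p := pcell_ge hx1
      have hxa : x * (a : ℝ) ^ 2 = (n : ℝ) ^ 2 := by rw [hx]; field_simp
      have hN2 : (q * a) ^ 2 = p * (a : ℝ) ^ 2 := by rw [mul_pow, hq2]
      have hNle : q * a ≤ n := by
        apply le_of_sq_le_sq _ hnpos.le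
        rw [hN2]
        calc p * (a : ℝ) ^ 2 ≤ x * (a : ℝ) ^ 2 := mul_le_mul_of_nonneg_right hp_le (by positivity)
          _ = (n : ℝ) ^ 2 := hxa
      have hNge : (n : ℝ) / 2 ≤ q * a := by
        apply le_of_sq_le_sq _ (by positivity)
        rw [hN2]
        calc ((n : ℝ) / 2) ^ 2 ≤ (n : ℝ) ^ 2 / 2 := T9c_half_sq _
          _ = x / 2 * (a : ℝ) ^ 2 := by rw [← hxa]; ring
          _ ≤ p * (a : ℝ) ^ 2 := mul_le_mul_of_nonneg_right hp_ge (by positivity)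
      have hNpos : 0 < q * a := by positivity
      have hsm : q * (q * a) ^ 10 ≤ 1 := by
        have h3 : q * (q * a) ^ 10 * a ≤ 1 * a := by
          calc q * (q * a) ^ 10 * a = (q * a) ^ 11 := by ring
            _ ≤ (n : ℝ) ^ 11 := pow_le_pow_left₀ hNpos.le hNle 11
            _ ≤ 1 * a := by linarith only [ha2]
        exact le_of_mul_le_mul_right h3 hapos
      have hρ0 := rcell_nonneg (n := n) (a := a) (b := a) hn haN haN ht1'
      have hρ1 := rcell_le (n := n) (a := a) (b := a) hn haN haN ht0'.le ht1'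
      obtain ⟨h5, h6⟩ := hcov q a (rcell n a a t) hqpos (by linarith only [g1, hNge]) hsm hρ0
        (by linarith only [hρ1, ht0'])
      rw [hq2] at h5 h6
      have h7 : (rcell n a a t) ^ (K + 1) ≤ (1 - (t : ℝ)) ^ (K + 1) :=
        pow_le_pow_left₀ hρ0 hρ1 _
      have h8 : (q * a) ^ ((13 : ℝ) / 20) ≤ (n : ℝ) ^ ((13 : ℝ) / 20) :=
        Real.rpow_le_rpow hNpos.le hNle (by norm_num)
      have hVPn : 0 ≤ VP (fun _ => p) (box a a) (fun A => (ell A : ℝ)) :=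
        VP_nonneg (fun _ _ => ⟨hppos.le, pcell_le_one n a a⟩) _
      rw [abs_le] at h1 h2
      have h9 : (1 - (t : ℝ)) ^ (K + 1) ≤ 1 := pow_le_one₀ (by linarith only [ht1'])
        (by linarith only [ht0'])
      have h9' : 0 ≤ (1 - (t : ℝ)) ^ (K + 1) := pow_nonneg (by linarith only [ht1']) _
      constructor
      · linarith only [h1.1, h1.2, h5]
      · have h10 : (rcell n a a t) ^ (K + 1) * VP (fun _ => p) (box a a) (fun A => (ell A : ℝ)) ≤
            (1 - (t : ℝ)) ^ (K + 1) * (V₁ + η) := by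
          calc _ ≤ (1 - (t : ℝ)) ^ (K + 1) * VP (fun _ => p) (box a a) (fun A => (ell A : ℝ)) :=
                mul_le_mul_of_nonneg_right h7 hVPn
            _ ≤ _ := mul_le_mul_of_nonneg_left (by linarith only [h2.1, h2.2]) h9'
        have h11 : (1 - (t : ℝ)) ^ (K + 1) * (V₁ + η) ≤ (1 - (t : ℝ)) ^ (K + 1) * V₁ + η := by
          rw [mul_add]
          have : (1 - (t : ℝ)) ^ (K + 1) * η ≤ 1 * η := mul_le_mul_of_nonneg_right h9 hη.le
          linarith only [this]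
        have h12 : (K : ℝ) * (q * a) ^ ((13 : ℝ) / 20) ≤ K * (n : ℝ) ^ ((13 : ℝ) / 20) :=
          mul_le_mul_of_nonneg_left h8 (Nat.cast_nonneg K)
        linarith only [h1.1, h1.2, h6, h10, h11, h12]
    constructor
    · exact le_of_forall_pos_le_add (fun η hη => (main η hη).1)
    · apply le_of_forall_pos_le_add
      intro η hη
      have := (main (η / 2) (by positivity)).2
      linarith only [this]
  -- conclusion
  have hVpos : 0 < V₁ := lt_of_lt_of_le (by positivity) hVlow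
  rw [← hVV, Real.sqrt_mul_self hVpos.le, abs_of_nonneg (div_nonneg hCup.1 hVpos.le),
    div_lt_iff₀ hVpos]
  calc Cv ≤ K * (n : ℝ) ^ ((13 : ℝ) / 20) + (1 - (t : ℝ)) ^ (K + 1) * V₁ := hCup.2
    _ ≤ ε / 4 * V₁ + ε / 4 * V₁ := by
        apply add_le_add
        · exact g4.trans (mul_le_mul_of_nonneg_left hVlow (by positivity))
        · exact mul_le_mul_of_nonneg_right hK.le hVpos.le
    _ < ε * V₁ := T9c_quarter hε hVpos

end Pool.Agent.LPP
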