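import Pool.Agent.Lib.MP_6b8a80_h32.T1_EP
import Pool.Agent.Lib.MP_6b8a80_h32.T9b_Approx
import Pool.Agent.Lib.MP_6b8a80_h32.T6a_Walsh
import Pool.Agent.Lib.MP_6b8a80_h32.T9a_OccLaw

set_option autoImplicit false

namespace Pool.Agent.LPP

open Finset MeasureTheory ProbabilityTheory

section general

variable {Ω : Type} [MeasurableSpace Ω] {P : Measure Ω} [IsProbabilityMeasure P]

theorem abs_cov_le {U V : Ω → ℝ} (hU : MemLp U 2 P) (hV : MemLp V 2 P) {s : ℝ} (hs : 0 < s) :
    |covariance U V P| ≤ s / 2 * variance U P + 1 / (2 * s) * variance V P := by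
  have hsU : MemLp (fun ω => s * U ω) 2 P := hU.const_mul s
  have h1 : variance (fun ω => s * U ω + V ω) P =
      s ^ 2 * variance U P + 2 * (s * covariance U V P) + variance V P := by
    rw [variance_fun_add hsU hV, variance_const_mul, covariance_const_mul_left]
  have h2 : variance (fun ω => s * U ω - V ω) P =
      s ^ 2 * variance U P - 2 * (s * covariance U V P) + variance V P := by
    rw [variance_fun_sub hsU hV, variance_const_mul, covariance_const_mul_left]
  have h3 := variance_nonneg (fun ω => s * U ω + V ω) P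
  have h4 := variance_nonneg (fun ω => s * U ω - V ω) P
  rw [h1] at h3
  rw [h2] at h4
  rw [abs_le]
  constructor
  · rw [← sub_nonneg]
    have : covariance U V P - -(s / 2 * variance U P + 1 / (2 * s) * variance V P) =
        (s ^ 2 * variance U P + 2 * (s * covariance U V P) + variance V P) / (2 * s) := by
      field_simp
      ring
    rw [this]
    positivity
  · rw [← sub_nonneg]
    have : s / 2 * variance U P + 1 / (2 * s) * variance V P - covariance U V P =
        (s ^ 2 * variance U P - 2 * (s * covariance U V P) + variance V P) / (2 * s) := by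
      field_simp
      ring
    rw [this]
    positivity

theorem variance_le_int_sq {U : Ω → ℝ} (hU : MemLp U 2 P) : variance U P ≤ ∫ ω, U ω ^ 2 ∂P := by
  have := variance_le_expectation_sq hU.aestronglyMeasurable
  simpa using this

/-- `L²` closeness implies closeness of covariances. -/
theorem cov_close {X Y : Ω → ℝ} (hX : MemLp X 2 P) (hY : MemLp Y 2 P) {η : ℝ} (hη : 0 < η) :
    ∃ δ : ℝ, 0 < δ ∧ ∀ X' Y' : Ω → ℝ, MemLp X' 2 P → MemLp Y' 2 P →
      ∫ ω, (X ω - X' ω) ^ 2 ∂P ≤ δ → ∫ ω, (Y ω - Y' ω) ^ 2 ∂P ≤ δ →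
      |covariance X Y P - covariance X' Y' P| ≤ η := by
  set VX := variance X P with hVX
  set VY := variance Y P with hVY
  have hVX0 : 0 ≤ VX := variance_nonneg _ _
  have hVY0 : 0 ≤ VY := variance_nonneg _ _
  set s : ℝ := (2 * VX + VY + 2) / η + 1 with hs
  have hs1 : 1 ≤ s := by
    have : 0 ≤ (2 * VX + VY + 2) / η := by positivity
    linarith
  have hs0 : 0 < s := by linarith
  refine ⟨min 1 (η / (2 * s)), by positivity, ?_⟩
  intro X' Y' hX' hY' h1 h2
  have hd1 : ∫ ω, (X ω - X' ω) ^ 2 ∂P ≤ 1 := h1.trans (min_le_left _ _)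
  have hd1' : ∫ ω, (X ω - X' ω) ^ 2 ∂P ≤ η / (2 * s) := h1.trans (min_le_right _ _)
  have hd2' : ∫ ω, (Y ω - Y' ω) ^ 2 ∂P ≤ η / (2 * s) := h2.trans (min_le_right _ _)
  have hXX' : MemLp (fun ω => X ω - X' ω) 2 P := hX.sub hX'
  have hYY' : MemLp (fun ω => Y ω - Y' ω) 2 P := hY.sub hY'
  have vX : variance (fun ω => X ω - X' ω) P ≤ ∫ ω, (X ω - X' ω) ^ 2 ∂P :=
    variance_le_int_sq hXX'
  have vY : variance (fun ω => Y ω - Y' ω) P ≤ ∫ ω, (Y ω - Y' ω) ^ 2 ∂P :=
    variance_le_int_sq hYY'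
  -- variance of X'
  have vX' : variance X' P ≤ 2 * VX + 2 := by
    have e : X' = fun ω => X ω - (X ω - X' ω) := by funext ω; ring
    have e1 : variance X' P = VX - 2 * covariance X (fun ω => X ω - X' ω) P +
        variance (fun ω => X ω - X' ω) P := by
      conv_lhs => rw [e]
      exact variance_fun_sub hX hXX'
    have e2 := abs_cov_le hX hXX' (s := 1) one_pos
    rw [abs_le] at e2
    have e3 := e2.1
    rw [e1]
    have : variance (fun ω => X ω - X' ω) P ≤ 1 := vX.trans hd1
    norm_num at e3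
    linarith
  have hsplit : covariance X Y P - covariance X' Y' P =
      covariance (fun ω => X ω - X' ω) Y P + covariance X' (fun ω => Y ω - Y' ω) P := by
    rw [covariance_fun_sub_left hX hX' hY, covariance_fun_sub_right hX' hY hY']
    ring
  rw [hsplit]
  have b1 := abs_cov_le hXX' hY hs0
  have b2 : |covariance X' (fun ω => Y ω - Y' ω) P| ≤
      s / 2 * variance (fun ω => Y ω - Y' ω) P + 1 / (2 * s) * variance X' P := by
    rw [covariance_comm]
    exact abs_cov_le hYY' hX' hs0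
  have hη' : (2 * VX + VY + 2) / (2 * s) ≤ η / 2 := by
    rw [div_le_div_iff₀ (by positivity) (by norm_num)]
    have : (2 * VX + VY + 2) ≤ η * s := by
      rw [hs, mul_add, mul_div_cancel₀ _ hη.ne']
      linarith
    linarith
  have b3 : s / 2 * variance (fun ω => X ω - X' ω) P ≤ η / 4 := by
    calc s / 2 * variance (fun ω => X ω - X' ω) P ≤ s / 2 * (η / (2 * s)) :=
          mul_le_mul_of_nonneg_left (vX.trans hd1') (by positivity)
      _ = η / 4 := by field_simp; ring
  have b4 : s / 2 * variance (fun ω => Y ω - Y' ω) P ≤ η / 4 := by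
    calc s / 2 * variance (fun ω => Y ω - Y' ω) P ≤ s / 2 * (η / (2 * s)) :=
          mul_le_mul_of_nonneg_left (vY.trans hd2') (by positivity)
      _ = η / 4 := by field_simp; ring
  have b5 : 1 / (2 * s) * variance Y P + 1 / (2 * s) * variance X' P ≤ η / 2 := by
    calc 1 / (2 * s) * variance Y P + 1 / (2 * s) * variance X' P
        ≤ 1 / (2 * s) * VY + 1 / (2 * s) * (2 * VX + 2) := by
          apply add_le_add (le_of_eq rfl)
          exact mul_le_mul_of_nonneg_left vX' (by positivity)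
      _ = (2 * VX + VY + 2) / (2 * s) := by ring
      _ ≤ η / 2 := hη'
  calc |covariance (fun ω => X ω - X' ω) Y P + covariance X' (fun ω => Y ω - Y' ω) P|
      ≤ |covariance (fun ω => X ω - X' ω) Y P| + |covariance X' (fun ω => Y ω - Y' ω) P| :=
        abs_add_le _ _
    _ ≤ η := by linarith

end general

section model

variable {n : ℕ} {t : NNReal} {Ω : Type} [MeasurableSpace Ω] {P : Measure Ω}
  [IsProbabilityMeasure P] {C : Ω → ℕ × ℕ} {Z : ℕ → Ω → ((ℝ × ℝ) × ℝ) × (ℝ × ℝ)}

/-- discrete versions -/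
theorem model_close (hn : 1 ≤ n) (ht : t ≤ 1) (hM : Model n t P C Z) {η : ℝ} (hη : 0 < η) :
    ∃ K : ℕ, ∀ a b : ℕ, K ≤ a → K ≤ b →
      |covariance (L1 C Z) (L2 t C Z) P -
        (EJ (pcell n a b) (rcell n a b t) (box a b) (fun A B => (ell A : ℝ) * ell B) -
          (EP (fun _ => pcell n a b) (box a b) (fun A => (ell A : ℝ))) ^ 2)| ≤ η ∧
      |variance (L1 C Z) P -
        VP (fun _ => pcell n a b) (box a b) (fun A => (ell A : ℝ))| ≤ η ∧
      |variance (L2 t C Z) P -
        VP (fun _ => pcell n a b) (box a b) (fun A => (ell A : ℝ))| ≤ η := by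
  obtain ⟨hL1, hL2, happ⟩ := approx n hn t ht P C Z hM
  obtain ⟨δ₁, hδ₁, h1⟩ := cov_close hL1 hL2 hη
  obtain ⟨δ₂, hδ₂, h2⟩ := cov_close hL1 hL1 hη
  obtain ⟨δ₃, hδ₃, h3⟩ := cov_close hL2 hL2 hη
  obtain ⟨K, hK⟩ := happ (min δ₁ (min δ₂ δ₃)) (by positivity)
  refine ⟨max K 1, ?_⟩
  intro a b ha hb
  obtain ⟨ha1, ha2⟩ := max_le_iff.mp ha
  obtain ⟨hb1, hb2⟩ := max_le_iff.mp hb
  obtain ⟨d1, d2⟩ := hK a b ha1 hb1
  have hlaw := occ_law n hn t ht a b ha2 hb2 P C Z hM
  set e1 : Ω → ℝ := fun ω => (ell (occ1 n a b C Z ω) : ℝ) with he1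
  set e2 : Ω → ℝ := fun ω => (ell (occ2 n a b t C Z ω) : ℝ) with he2
  have i1 : Integrable e1 P := (hlaw (fun A _ => (ell A : ℝ))).1
  have i2 : Integrable e2 P := (hlaw (fun _ B => (ell B : ℝ))).1
  have m1 : MemLp e1 2 P := (memLp_two_iff_integrable_sq i1.aestronglyMeasurable).mpr
    (hlaw (fun A _ => (ell A : ℝ) ^ 2)).1
  have m2 : MemLp e2 2 P := (memLp_two_iff_integrable_sq i2.aestronglyMeasurable).mpr
    (hlaw (fun _ B => (ell B : ℝ) ^ 2)).1
  have E1 : ∫ ω, e1 ω ∂P = EP (fun _ => pcell n a b) (box a b) (fun A => (ell A : ℝ)) := by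
    rw [← EJ_fst (pcell n a b) (rcell n a b t)]
    exact (hlaw (fun A _ => (ell A : ℝ))).2
  have E2 : ∫ ω, e2 ω ∂P = EP (fun _ => pcell n a b) (box a b) (fun A => (ell A : ℝ)) := by
    rw [← EJ_snd (pcell n a b) (rcell n a b t)]
    exact (hlaw (fun _ B => (ell B : ℝ))).2
  have c12 : covariance e1 e2 P =
      EJ (pcell n a b) (rcell n a b t) (box a b) (fun A B => (ell A : ℝ) * ell B) -
          (EP (fun _ => pcell n a b) (box a b) (fun A => (ell A : ℝ))) ^ 2 := by
    rw [covariance_eq_sub m1 m2, E1, E2, ← (hlaw (fun A B => (ell A : ℝ) * ell B)).2]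
    simp only [Pi.mul_apply, he1, he2]
    ring
  have c11 : covariance e1 e1 P =
      VP (fun _ => pcell n a b) (box a b) (fun A => (ell A : ℝ)) := by
    rw [covariance_eq_sub m1 m1, E1, VP_eq, ← EJ_fst (pcell n a b) (rcell n a b t) (box a b)
      (fun A => (ell A : ℝ) ^ 2), ← (hlaw (fun A B => (ell A : ℝ) ^ 2)).2]
    simp only [Pi.mul_apply, he1, sq]
  have c22 : covariance e2 e2 P =
      VP (fun _ => pcell n a b) (box a b) (fun A => (ell A : ℝ)) := by
    rw [covariance_eq_sub m2 m2, E2, VP_eq, ← EJ_snd (pcell n a b) (rcell n a b t) (box a b)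
      (fun A => (ell A : ℝ) ^ 2), ← (hlaw (fun A B => (ell B : ℝ) ^ 2)).2]
    simp only [Pi.mul_apply, he2, sq]
  refine ⟨?_, ?_, ?_⟩
  · rw [← c12]
    exact h1 e1 e2 m1 m2 (d1.trans (min_le_left _ _)) (d2.trans (min_le_left _ _))
  · rw [← c11, ← covariance_self hL1.aestronglyMeasurable.aemeasurable]
    exact h2 e1 e1 m1 m1 (d1.trans ((min_le_right _ _).trans (min_le_left _ _)))
      (d1.trans ((min_le_right _ _).trans (min_le_left _ _)))
  · rw [← c22, ← covariance_self hL2.aestronglyMeasurable.aemeasurable]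
    exact h3 e2 e2 m2 m2 (d2.trans ((min_le_right _ _).trans (min_le_right _ _)))
      (d2.trans ((min_le_right _ _).trans (min_le_right _ _)))

end model

end Pool.Agent.LPP
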