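import Pool.Agent.Lib.MP_6b8a80_h32.T9c_Final

/-!
# MP_6b8a80: quantitative form of noise sensitivity, uniform in the noise level
-/

set_option autoImplicit false

namespace Pool.Agent.LPP

open Finset MeasureTheory ProbabilityTheory

/-- Quantitative form: the constants do not depend on the noise level `t`. -/
theorem noise_quant : ∃ c : ℝ, 0 < c ∧ ∀ K : ℕ, ∃ n₀ : ℕ, ∀ n : ℕ, n₀ ≤ n → 1 ≤ n →
      ∀ t : NNReal, 0 < t → t ≤ 1 →
      ∀ (Ω : Type) [MeasurableSpace Ω] (P : Measure Ω) [IsProbabilityMeasure P]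
        (C : Ω → ℕ × ℕ) (Z : ℕ → Ω → ((ℝ × ℝ) × ℝ) × (ℝ × ℝ)), Model n t P C Z →
      c * (n : ℝ) ^ ((2 : ℝ) / 3) ≤ variance (L1 C Z) P ∧
      variance (L1 C Z) P = variance (L2 t C Z) P ∧
      0 ≤ covariance (L1 C Z) (L2 t C Z) P ∧
      covariance (L1 C Z) (L2 t C Z) P ≤ K * (n : ℝ) ^ ((13 : ℝ) / 20) +
        (1 - (t : ℝ)) ^ (K + 1) * variance (L1 C Z) P := by
  obtain ⟨c, c₀, N₂, hc, hc₀, hN₂, hvar⟩ := var_lower
  refine ⟨c * (1 / 2) ^ ((2 : ℝ) / 3), by positivity, ?_⟩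
  intro K
  obtain ⟨N₁, hN₁, hcov⟩ := disc_cov K
  -- choose n₀
  have hev : ∀ᶠ x : ℝ in Filter.atTop, 2 * N₁ ≤ x ∧ 2 * N₂ ≤ x ∧
      3 / 4 * c₀ * x ^ (-(1 : ℝ) / 3) ≤ 1 := by
    refine (Filter.eventually_ge_atTop _).and ((Filter.eventually_ge_atTop _).and ?_)
    have h1 : Filter.Tendsto (fun x : ℝ => 3 / 4 * c₀ * x ^ (-(1 : ℝ) / 3)) Filter.atTop
        (nhds (3 / 4 * c₀ * 0)) := by
      apply Filter.Tendsto.const_mul
      have := tendsto_rpow_neg_atTop (y := (1 : ℝ) / 3) (by norm_num)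
      simpa [neg_div] using this
    rw [mul_zero] at h1
    exact h1.eventually_le_const one_pos
  obtain ⟨x₀, hx₀⟩ := Filter.eventually_atTop.mp hev
  refine ⟨⌈x₀⌉₊, ?_⟩
  intro n hn0 hn t ht0 ht1 Ω _ P _ C Z hM
  have ht1' : (t : ℝ) ≤ 1 := by exact_mod_cast ht1
  have ht0' : (0 : ℝ) < t := by exact_mod_cast ht0
  have hnR : (1 : ℝ) ≤ n := by exact_mod_cast hn
  have hnpos : (0 : ℝ) < n := by linarith
  obtain ⟨g1, g2, g3⟩ := hx₀ n ((Nat.le_ceil x₀).trans (by exact_mod_cast hn0))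
  set V₁ := variance (L1 C Z) P with hV₁
  set V₂ := variance (L2 t C Z) P with hV₂
  set Cv := covariance (L1 C Z) (L2 t C Z) P with hCv
  -- V₁ = V₂
  have hVV : V₁ = V₂ := by
    have : ∀ η : ℝ, 0 < η → |V₁ - V₂| ≤ η := by
      intro η hη
      obtain ⟨K', hK'⟩ := model_close hn ht1 hM (half_pos hη)
      obtain ⟨_, h2, h3⟩ := hK' K' K' le_rfl le_rfl
      rw [abs_le] at h2 h3 ⊢
      constructor <;> linarith only [h2.1, h2.2, h3.1, h3.2]
    have h0 : |V₁ - V₂| ≤ 0 := le_of_forall_pos_le_add (fun η hη => by simpa using this η hη)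
    exact sub_eq_zero.mp (abs_nonpos_iff.mp h0)
  -- lower bound of the variance
  have hVlow : c * ((n : ℝ) / 2) ^ ((2 : ℝ) / 3) ≤ V₁ := by
    apply le_of_forall_pos_le_add
    intro η hη
    obtain ⟨K', hK'⟩ := model_close hn ht1 hM hη
    set τ : ℝ := 3 / 4 * c₀ * (n : ℝ) ^ (-(1 : ℝ) / 3) with hτ
    have hτ0 : 0 < τ := by positivity
    -- choose a
    obtain ⟨a, ha⟩ := exists_nat_ge (max (K' : ℝ) (max ((n : ℝ) ^ 11)
      (max (100 / (c₀ * (n : ℝ) ^ (-(1 : ℝ) / 3))) ((n : ℝ) ^ 2))))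
    have ha1 : (K' : ℝ) ≤ a := (le_max_left _ _).trans ha
    have ha2 : (n : ℝ) ^ 11 ≤ a := ((le_max_left _ _).trans (le_max_right _ _)).trans ha
    have ha3 : 100 / (c₀ * (n : ℝ) ^ (-(1 : ℝ) / 3)) ≤ a :=
      ((le_max_left _ _).trans ((le_max_right _ _).trans (le_max_right _ _))).trans ha
    have ha4 : (n : ℝ) ^ 2 ≤ a :=
      ((le_max_right _ _).trans ((le_max_right _ _).trans (le_max_right _ _))).trans ha
    have haR : (1 : ℝ) ≤ a := le_trans (one_le_pow₀ hnR) ha2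
    have hapos : (0 : ℝ) < a := lt_of_lt_of_le one_pos haR
    have haN : 1 ≤ a := by exact_mod_cast haR
    set w : ℕ := ⌊τ * a⌋₊ with hw
    have hw1 : (w : ℝ) ≤ τ * a := Nat.floor_le (by positivity)
    have hw2 : τ * a < w + 1 := Nat.lt_floor_add_one _
    have hw0 : (0 : ℝ) ≤ w := Nat.cast_nonneg w
    obtain ⟨_, h2, _⟩ := hK' (a + w) a (le_trans (by exact_mod_cast ha1) (Nat.le_add_right a w))
      (by exact_mod_cast ha1)
    set p : ℝ := pcell n (a + w) a with hp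
    have hppos : 0 < p := pcell_pos hn (by omega) haN
    set q : ℝ := Real.sqrt p with hq
    have hqpos : 0 < q := Real.sqrt_pos.mpr hppos
    have hq2 : q ^ 2 = p := Real.sq_sqrt hppos.le
    set x : ℝ := (n : ℝ) ^ 2 / (((a + w : ℕ) : ℝ) * a) with hx
    have hx1 : x ≤ 1 := by
      rw [hx, div_le_one (by positivity)]
      push_cast
      exact T9c_mul_ge ha4 haR hw0
    have hp_le : p ≤ x := pcell_le n (a + w) a
    have hp_ge : x / 2 ≤ p := pcell_ge hx1
    have hxa : x * (a : ℝ) ^ 2 = (n : ℝ) ^ 2 * (a / (a + w)) := by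
      rw [hx]; push_cast; field_simp
    have hra : (a : ℝ) / (a + w) ≤ 1 := by
      rw [div_le_one (by positivity)]; linarith only [hw0]
    have hra2 : 1 / 2 ≤ (a : ℝ) / (a + w) := by
      rw [div_le_div_iff₀ (by norm_num) (by positivity)]
      have : τ * a ≤ 1 * a := mul_le_mul_of_nonneg_right g3 hapos.le
      linarith only [this, hw1]
    have hN2 : (q * a) ^ 2 = p * (a : ℝ) ^ 2 := by rw [mul_pow, hq2]
    have hNle : q * a ≤ n := by
      apply le_of_sq_le_sq _ hnpos.le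
      rw [hN2]
      calc p * (a : ℝ) ^ 2 ≤ x * (a : ℝ) ^ 2 := mul_le_mul_of_nonneg_right hp_le (by positivity)
        _ = (n : ℝ) ^ 2 * (a / (a + w)) := hxa
        _ ≤ (n : ℝ) ^ 2 * 1 := mul_le_mul_of_nonneg_left hra (by positivity)
        _ = _ := mul_one _
    have hNge : (n : ℝ) / 2 ≤ q * a := by
      apply le_of_sq_le_sq _ (by positivity)
      rw [hN2]
      calc ((n : ℝ) / 2) ^ 2 = (n : ℝ) ^ 2 * (1 / 2) / 2 := by ring
        _ ≤ (n : ℝ) ^ 2 * (a / (a + w)) / 2 := by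
          apply div_le_div_of_nonneg_right _ (by norm_num)
          exact mul_le_mul_of_nonneg_left hra2 (by positivity)
        _ = x / 2 * (a : ℝ) ^ 2 := by rw [← hxa]; ring
        _ ≤ p * (a : ℝ) ^ 2 := mul_le_mul_of_nonneg_right hp_ge (by positivity)
    have hNpos : 0 < q * a := by positivity
    have hsm : q * (q * a) ^ 10 ≤ 1 := by
      have h3 : q * (q * a) ^ 10 * a ≤ 1 * a := by
        calc q * (q * a) ^ 10 * a = (q * a) ^ 11 := by ring
          _ ≤ (n : ℝ) ^ 11 := pow_le_pow_left₀ hNpos.le hNle 11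
          _ ≤ 1 * a := by linarith only [ha2]
      exact le_of_mul_le_mul_right h3 hapos
    -- powers
    have hpw1 : (q * a) ^ ((2 : ℝ) / 3) = (q * a) * (q * a) ^ (-(1 : ℝ) / 3) := by
      nth_rewrite 2 [← Real.rpow_one (q * a)]
      rw [← Real.rpow_add hNpos]; norm_num
    have hmn : (n : ℝ) ^ (-(1 : ℝ) / 3) ≤ (q * a) ^ (-(1 : ℝ) / 3) := by
      apply Real.rpow_le_rpow_of_nonpos hNpos hNle (by norm_num)
    have hmn2 : (q * a) ^ (-(1 : ℝ) / 3) ≤ 13 / 10 * (n : ℝ) ^ (-(1 : ℝ) / 3) := by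
      calc (q * a) ^ (-(1 : ℝ) / 3) ≤ ((n : ℝ) / 2) ^ (-(1 : ℝ) / 3) := by
            apply Real.rpow_le_rpow_of_nonpos (by positivity) hNge (by norm_num)
        _ = (1 / 2) ^ (-(1 : ℝ) / 3) * (n : ℝ) ^ (-(1 : ℝ) / 3) := by
            rw [← Real.mul_rpow (by norm_num) hnpos.le]; congr 1; ring
        _ ≤ _ := by
            apply mul_le_mul_of_nonneg_right _ (by positivity)
            have h4 : ((1 : ℝ) / 2) ^ (-(1 : ℝ) / 3) = 2 ^ ((1 : ℝ) / 3) := by
              rw [one_div, Real.inv_rpow (by norm_num), ← Real.rpow_neg (by norm_num)]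
              norm_num
            rw [h4]
            have h5 : (2 : ℝ) ≤ (13 / 10) ^ (3 : ℝ) := by
              rw [show (3 : ℝ) = ((3 : ℕ) : ℝ) by norm_num, Real.rpow_natCast]; norm_num
            calc (2 : ℝ) ^ ((1 : ℝ) / 3) ≤ ((13 / 10 : ℝ) ^ (3 : ℝ)) ^ ((1 : ℝ) / 3) :=
                  Real.rpow_le_rpow (by norm_num) h5 (by norm_num)
              _ = 13 / 10 := by
                  rw [← Real.rpow_mul (by norm_num)]; norm_num
    have hqw : q * w = (q * a) * (w / a) := by field_simp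
    have hup : q * w ≤ c₀ * (q * a) ^ ((2 : ℝ) / 3) := by
      rw [hqw, hpw1]
      have h3 : (w : ℝ) / a ≤ c₀ * (q * a) ^ (-(1 : ℝ) / 3) := by
        rw [div_le_iff₀ hapos]
        calc (w : ℝ) ≤ τ * a := hw1
          _ ≤ c₀ * (q * a) ^ (-(1 : ℝ) / 3) * a := by
            apply mul_le_mul_of_nonneg_right _ hapos.le
            rw [hτ]
            have : 3 / 4 * c₀ * (n : ℝ) ^ (-(1 : ℝ) / 3) ≤ c₀ * (n : ℝ) ^ (-(1 : ℝ) / 3) := by
              have : 0 ≤ c₀ * (n : ℝ) ^ (-(1 : ℝ) / 3) := by positivity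
              linarith only [this]
            exact this.trans (mul_le_mul_of_nonneg_left hmn hc₀.le)
      calc q * a * (w / a) ≤ q * a * (c₀ * (q * a) ^ (-(1 : ℝ) / 3)) :=
            mul_le_mul_of_nonneg_left h3 hNpos.le
        _ = _ := by ring
    have hlow : c₀ / 2 * (q * a) ^ ((2 : ℝ) / 3) ≤ q * w := by
      rw [hqw, hpw1]
      have h3 : c₀ / 2 * (q * a) ^ (-(1 : ℝ) / 3) ≤ (w : ℝ) / a := by
        rw [le_div_iff₀ hapos]
        have h4 : 100 ≤ a * (c₀ * (n : ℝ) ^ (-(1 : ℝ) / 3)) := by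
          rwa [div_le_iff₀ (by positivity)] at ha3
        have h5 : c₀ / 2 * (q * a) ^ (-(1 : ℝ) / 3) * a ≤
            c₀ / 2 * (13 / 10 * (n : ℝ) ^ (-(1 : ℝ) / 3)) * a := by
          gcongr
        have h6 : τ * a = 3 / 4 * (a * (c₀ * (n : ℝ) ^ (-(1 : ℝ) / 3))) := by rw [hτ]; ring
        have h7 : c₀ / 2 * (13 / 10 * (n : ℝ) ^ (-(1 : ℝ) / 3)) * a =
            13 / 20 * (a * (c₀ * (n : ℝ) ^ (-(1 : ℝ) / 3))) := by ring
        linarith only [h4, h5, h6, h7, hw2]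
      calc c₀ / 2 * (q * a * (q * a) ^ (-(1 : ℝ) / 3))
          = q * a * (c₀ / 2 * (q * a) ^ (-(1 : ℝ) / 3)) := by ring
        _ ≤ q * a * (w / a) := mul_le_mul_of_nonneg_left h3 hNpos.le
    have hv := hvar q a w hqpos (by linarith only [g2, hNge]) hsm hlow hup
    rw [hq2] at hv
    have h8 : c * ((n : ℝ) / 2) ^ ((2 : ℝ) / 3) ≤ c * (q * a) ^ ((2 : ℝ) / 3) := by
      apply mul_le_mul_of_nonneg_left _ hc.le
      exact Real.rpow_le_rpow (by positivity) hNge (by norm_num)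
    rw [abs_le] at h2
    linarith only [h2.1, h2.2, hv, h8]
  -- upper bound of the covariance
  have hCup : 0 ≤ Cv ∧ Cv ≤ K * (n : ℝ) ^ ((13 : ℝ) / 20) + (1 - (t : ℝ)) ^ (K + 1) * V₁ := by
    have main : ∀ η : ℝ, 0 < η → 0 ≤ Cv + η ∧
        Cv ≤ K * (n : ℝ) ^ ((13 : ℝ) / 20) + (1 - (t : ℝ)) ^ (K + 1) * V₁ + 2 * η := by
      intro η hη
      obtain ⟨K', hK'⟩ := model_close hn ht1 hM hη
      obtain ⟨a, ha⟩ := exists_nat_ge (max (K' : ℝ) (max ((n : ℝ) ^ 11) ((n : ℝ) ^ 2)))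
      have ha1 : (K' : ℝ) ≤ a := (le_max_left _ _).trans ha
      have ha2 : (n : ℝ) ^ 11 ≤ a := ((le_max_left _ _).trans (le_max_right _ _)).trans ha
      have ha4 : (n : ℝ) ^ 2 ≤ a := ((le_max_right _ _).trans (le_max_right _ _)).trans ha
      have haR : (1 : ℝ) ≤ a := le_trans (one_le_pow₀ hnR) ha2
      have hapos : (0 : ℝ) < a := lt_of_lt_of_le one_pos haR
      have haN : 1 ≤ a := by exact_mod_cast haR
      obtain ⟨h1, h2, _⟩ := hK' a a (by exact_mod_cast ha1) (by exact_mod_cast ha1)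
      set p : ℝ := pcell n a a with hp
      have hppos : 0 < p := pcell_pos hn haN haN
      set q : ℝ := Real.sqrt p with hq
      have hqpos : 0 < q := Real.sqrt_pos.mpr hppos
      have hq2 : q ^ 2 = p := Real.sq_sqrt hppos.le
      set x : ℝ := (n : ℝ) ^ 2 / ((a : ℝ) * a) with hx
      have hx1 : x ≤ 1 := by
        rw [hx, div_le_one (by positivity)]
        exact ha4.trans (le_mul_of_one_le_left hapos.le haR)
      have hp_le : p ≤ x := pcell_le n a a
      have hp_ge : x / 2 ≤ p := pcell_ge hx1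
      have hxa : x * (a : ℝ) ^ 2 = (n : ℝ) ^ 2 := by rw [hx]; field_simp
      have hN2 : (q * a) ^ 2 = p * (a : ℝ) ^ 2 := by rw [mul_pow, hq2]
      have hNle : q * a ≤ n := by
        apply le_of_sq_le_sq _ hnpos.le
        rw [hN2]
        calc p * (a : ℝ) ^ 2 ≤ x * (a : ℝ) ^ 2 := mul_le_mul_of_nonneg_right hp_le (by positivity)
          _ = (n : ℝ) ^ 2 := hxa
      have hNge : (n : ℝ) / 2 ≤ q * a := by
        apply le_of_sq_le_sq _ (by positivity)
        rw [hN2]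
        calc ((n : ℝ) / 2) ^ 2 ≤ (n : ℝ) ^ 2 / 2 := T9c_half_sq _
          _ = x / 2 * (a : ℝ) ^ 2 := by rw [← hxa]; ring
          _ ≤ p * (a : ℝ) ^ 2 := mul_le_mul_of_nonneg_right hp_ge (by positivity)
      have hNpos : 0 < q * a := by positivity
      have hsm : q * (q * a) ^ 10 ≤ 1 := by
        have h3 : q * (q * a) ^ 10 * a ≤ 1 * a := by
          calc q * (q * a) ^ 10 * a = (q * a) ^ 11 := by ring
            _ ≤ (n : ℝ) ^ 11 := pow_le_pow_left₀ hNpos.le hNle 11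
            _ ≤ 1 * a := by linarith only [ha2]
        exact le_of_mul_le_mul_right h3 hapos
      have hρ0 := rcell_nonneg (n := n) (a := a) (b := a) hn haN haN ht1'
      have hρ1 := rcell_le (n := n) (a := a) (b := a) hn haN haN ht0'.le ht1'
      obtain ⟨h5, h6⟩ := hcov q a (rcell n a a t) hqpos (by linarith only [g1, hNge]) hsm hρ0
        (by linarith only [hρ1, ht0'])
      rw [hq2] at h5 h6
      have h7 : (rcell n a a t) ^ (K + 1) ≤ (1 - (t : ℝ)) ^ (K + 1) :=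
        pow_le_pow_left₀ hρ0 hρ1 _
      have h8 : (q * a) ^ ((13 : ℝ) / 20) ≤ (n : ℝ) ^ ((13 : ℝ) / 20) :=
        Real.rpow_le_rpow hNpos.le hNle (by norm_num)
      have hVPn : 0 ≤ VP (fun _ => p) (box a a) (fun A => (ell A : ℝ)) :=
        VP_nonneg (fun _ _ => ⟨hppos.le, pcell_le_one n a a⟩) _
      rw [abs_le] at h1 h2
      have h9 : (1 - (t : ℝ)) ^ (K + 1) ≤ 1 := pow_le_one₀ (by linarith only [ht1'])
        (by linarith only [ht0'])
      have h9' : 0 ≤ (1 - (t : ℝ)) ^ (K + 1) := pow_nonneg (by linarith only [ht1']) _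
      constructor
      · linarith only [h1.1, h1.2, h5]
      · have h10 : (rcell n a a t) ^ (K + 1) * VP (fun _ => p) (box a a) (fun A => (ell A : ℝ)) ≤
            (1 - (t : ℝ)) ^ (K + 1) * (V₁ + η) := by
          calc _ ≤ (1 - (t : ℝ)) ^ (K + 1) * VP (fun _ => p) (box a a) (fun A => (ell A : ℝ)) :=
                mul_le_mul_of_nonneg_right h7 hVPn
            _ ≤ _ := mul_le_mul_of_nonneg_left (by linarith only [h2.1, h2.2]) h9'
        have h11 : (1 - (t : ℝ)) ^ (K + 1) * (V₁ + η) ≤ (1 - (t : ℝ)) ^ (K + 1) * V₁ + η := by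
          rw [mul_add]
          have : (1 - (t : ℝ)) ^ (K + 1) * η ≤ 1 * η := mul_le_mul_of_nonneg_right h9 hη.le
          linarith only [this]
        have h12 : (K : ℝ) * (q * a) ^ ((13 : ℝ) / 20) ≤ K * (n : ℝ) ^ ((13 : ℝ) / 20) :=
          mul_le_mul_of_nonneg_left h8 (Nat.cast_nonneg K)
        linarith only [h1.1, h1.2, h6, h10, h11, h12]
    constructor
    · exact le_of_forall_pos_le_add (fun η hη => (main η hη).1)
    · apply le_of_forall_pos_le_add
      intro η hη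
      have := (main (η / 2) (by positivity)).2
      linarith only [this]
  -- conclusion
  refine ⟨?_, hVV, hCup.1, hCup.2⟩
  have e2 : ((n : ℝ) / 2) ^ ((2 : ℝ) / 3) = (1 / 2) ^ ((2 : ℝ) / 3) * (n : ℝ) ^ ((2 : ℝ) / 3) := by
    rw [← Real.mul_rpow (by norm_num) hnpos.le]; congr 1; ring
  rw [e2] at hVlow
  linarith only [hVlow]

end Pool.Agent.LPP
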